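import Mathlib
open Complex MeasureTheory Filter Topology Set
open scoped ContDiff ENNReal
namespace MMT

/-- The `k`-th Fourier coefficient of a `2π`-periodic function `f : ℝ → ℂ`. -/
noncomputable def fc (f : ℝ → ℂ) (k : ℤ) : ℂ :=
  (1 / (2 * Real.pi) : ℂ) *
    ∫ x in (0:ℝ)..(2 * Real.pi), cexp (-(I * (k:ℂ) * (x:ℂ))) * f x

/-- The symbol `|k|^α`, with the value `0` at `k = 0`. -/
noncomputable def sym (α : ℝ) (k : ℤ) : ℝ := if k = 0 then 0 else |(k:ℝ)| ^ α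

/-- The Fourier multiplier `|D|^α` applied to a (smooth) `2π`-periodic function. -/
noncomputable def absD (α : ℝ) (f : ℝ → ℂ) (x : ℝ) : ℂ :=
  ∑' k : ℤ, (sym α k : ℂ) * fc f k * cexp (I * (k:ℂ) * (x:ℂ))

/-- The squared `H^{α/2}` distance of two elements given by their Fourier coefficients. -/
noncomputable def hd (α : ℝ) (a b : ℤ → ℂ) : ℝ≥0∞ :=
  ∑' k : ℤ, ENNReal.ofReal ((1 + |(k:ℝ)|) ^ α * ‖a k - b k‖ ^ 2)

/-- `v` is a smooth solution of `i ∂ₜ v = |D|^α v + |v|² v` on `[-T,T] × 𝕋`. -/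
structure IsSmoothSol (α T : ℝ) (v : ℝ → ℝ → ℂ) : Prop where
  smooth : ContDiffOn ℝ ∞ (fun p : ℝ × ℝ => v p.1 p.2) (Icc (-T) T ×ˢ univ)
  periodic : ∀ t ∈ Icc (-T) T, Function.Periodic (v t) (2 * Real.pi)
  eqn : ∀ t ∈ Ioo (-T) T, ∀ x : ℝ, I * deriv (fun s => v s x) t =
    absD α (v t) x + ((‖v t x‖ ^ 2 : ℝ) : ℂ) * v t x

/-- `u : ℝ → H^{α/2}` (given by its Fourier coefficients) is a global solution with datum `u₀`. -/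
structure IsGlobalSol (α : ℝ) (u₀ : ℤ → ℂ) (u : ℝ → ℤ → ℂ) : Prop where
  mem : ∀ t, hd α (u t) 0 < ⊤
  cont : ∀ t, Tendsto (fun s => hd α (u s) (u t)) (𝓝 t) (𝓝 0)
  init : u 0 = u₀
  approx : ∀ T > 0, ∃ (f : ℕ → ℝ → ℂ) (v : ℕ → ℝ → ℝ → ℂ),
    (∀ n, ContDiff ℝ ∞ (f n) ∧ Function.Periodic (f n) (2 * Real.pi)) ∧
    Tendsto (fun n => hd α (fc (f n)) u₀) atTop (𝓝 0) ∧
    (∀ᶠ n in atTop, IsSmoothSol α T (v n) ∧ v n 0 = f n) ∧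
    Tendsto (fun n => ⨆ t ∈ Icc (-T) T, hd α (fc (v n t)) (u t)) atTop (𝓝 0)

/-- bounded measurable periodic functions -/
def Reg (f : ℝ → ℂ) : Prop :=
  Measurable f ∧ Function.Periodic f (2 * Real.pi) ∧ ∃ C : ℝ, ∀ x, ‖f x‖ ≤ C

def NB (α : ℝ) (f : ℝ → ℂ) (B : ℝ) : Prop :=
  ∀ s : Finset ℤ, ∑ k ∈ s, sym α k * ‖fc f k‖ ^ 2 ≤ B

noncomputable def Dif (f : ℝ → ℂ) (h : ℝ) : ℝ :=
  ∫ x in (0:ℝ)..(2 * Real.pi), ‖f (x + h) - f x‖ ^ 2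

def SB (α : ℝ) (f : ℝ → ℂ) (B : ℝ) : Prop :=
  ∀ n : ℕ, ∑ j ∈ Finset.range n, (2:ℝ) ^ (α * j) * Dif f (Real.pi / 2 ^ j) ≤ B

/-- periodic indicator of `[a,b)` -/
noncomputable def indp (a b : ℝ) (x : ℝ) : ℂ :=
  if Int.fract (x / (2 * Real.pi)) * (2 * Real.pi) ∈ Ico a b then 1 else 0

/-- the datum `x^{-γ}` on `(0,2π)` -/
noncomputable def dat (γ : ℝ) (x : ℝ) : ℂ := ((x ^ (-γ) : ℝ) : ℂ)


end MMT
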