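import Pool.Agent.Helper823.MMT.Defs
open Complex MeasureTheory Filter Topology Set
open scoped ContDiff ENNReal
namespace MMT

instance fact2pi : Fact ((0:ℝ) < 2 * Real.pi) := ⟨Real.two_pi_pos⟩

/-- the circle `ℝ/2πℤ` -/
abbrev Cir := AddCircle (2 * Real.pi)

/-- translation of a continuous function on the circle -/
noncomputable def tr (a : ℝ) (g : C(Cir, ℂ)) : C(Cir, ℂ) := g.comp ⟨fun x => x + (a : Cir), by fun_prop⟩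

/-- the vector field of the equation on the space of continuous functions -/
noncomputable def Fld (L : C(Cir, ℂ) →L[ℂ] C(Cir, ℂ)) (u : C(Cir, ℂ)) : C(Cir, ℂ) :=
  (-I) • (L u + u * star u * u)


/-- `K` is a periodic integrable kernel and `κ` the integral of `|K|+1` -/
structure Ker (K : ℝ → ℝ) (κ : ℝ) : Prop where
  meas : Measurable K
  per : Function.Periodic K (2 * Real.pi)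
  int : IntervalIntegrable K volume 0 (2 * Real.pi)
  bd : ∫ y in (0:ℝ)..(2 * Real.pi), (|K y| + 1) = κ

/-- global solution in kernel form -/
structure GS (K : ℝ → ℝ) (B : ℝ → ℝ → ℂ) : Prop where
  cont : Continuous (fun p : ℝ × ℝ => B p.1 p.2)
  per : ∀ t, Function.Periodic (B t) (2 * Real.pi)
  der : ∀ t x, HasDerivAt (fun s => B s x)
    (-I * (((‖B t x‖ ^ 2 : ℝ) : ℂ) * B t x + ∫ y in (0:ℝ)..(2 * Real.pi), (K y : ℂ) * B t (x - y))) t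


/-- pulse configuration: background `E0`, layers `EL`, pulses `E j`, `j < n^3` -/
structure Pulse (K : ℝ → ℝ) (κ V c0 : ℝ) (n : ℕ) (B : ℝ → ℝ → ℂ) (E0 EL : Set ℝ) (E : ℕ → Set ℝ) : Prop where
  m0 : MeasurableSet E0
  mL : MeasurableSet EL
  mE : ∀ j, MeasurableSet (E j)
  cover : ∀ x, x ∈ E0 ∨ x ∈ EL ∨ ∃ j < n ^ 3, x ∈ E j
  d0L : ∀ x ∈ E0, x ∉ EL
  d0E : ∀ x ∈ E0, ∀ j < n ^ 3, x ∉ E j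
  dLE : ∀ x ∈ EL, ∀ j < n ^ 3, x ∉ E j
  dEE : ∀ i < n ^ 3, ∀ j < n ^ 3, i ≠ j → ∀ x ∈ E i, x ∉ E j
  per0 : ∀ x, x + 2 * Real.pi ∈ E0 ↔ x ∈ E0
  perL : ∀ x, x + 2 * Real.pi ∈ EL ↔ x ∈ EL
  perE : ∀ j, ∀ x, x + 2 * Real.pi ∈ E j ↔ x ∈ E j
  potE : ∀ j < n ^ 3, ∀ x, ∫ y in (0:ℝ)..(2 * Real.pi), (|K y| + 1) * (E j).indicator (fun _ => (1:ℝ)) (x - y)
    ≤ 2 * κ * c0 / (n:ℝ) ^ 5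
  potL : ∀ x, ∫ y in (0:ℝ)..(2 * Real.pi), (|K y| + 1) * EL.indicator (fun _ => (1:ℝ)) (x - y) ≤ 1 / (n:ℝ) ^ 5
  aE : ∀ j < n ^ 3, ∀ x ∈ E j, ‖B 0 x‖ ^ 2 = (n:ℝ) ^ 4 + n * j
  a0 : ∀ x ∈ E0, ‖B 0 x‖ ≤ V
  aL : ∀ x, ‖B 0 x‖ ≤ 2 * (n:ℝ) ^ 2

/-- the coherent part of the pulses -/
noncomputable def Pt (n : ℕ) (E : ℕ → Set ℝ) (B : ℝ → ℝ → ℂ) (t x : ℝ) : ℂ :=
  ∑ j ∈ Finset.range (n ^ 3), (E j).indicator (fun x => cexp (-(I * (((n:ℝ) ^ 4 + n * j : ℝ) : ℂ) * (t:ℂ))) * B 0 x) x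

def WBD : Prop := ∀ (K : ℝ → ℝ) (κ : ℝ) (B : ℝ → ℝ → ℂ) (W0 : ℝ), Ker K κ → GS K B →
    (∀ x, ∫ y in (0:ℝ)..(2 * Real.pi), (|K y| + 1) * ‖B 0 (x - y)‖ ≤ W0) → ∀ t : ℝ, 0 ≤ t →
    (∀ x, ∫ y in (0:ℝ)..(2 * Real.pi), (|K y| + 1) * ‖B t (x - y)‖ ≤ W0 * Real.exp (κ * t)) ∧
    (∀ x, ‖B t x‖ ≤ ‖B 0 x‖ + t * (W0 * Real.exp (κ * t)))

def OSC : Prop := ∀ (B B' w w' : ℝ → ℂ) (t M M' W θ θ' d d' : ℝ), 0 ≤ t → Continuous w → Continuous w' →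
    (∀ s ∈ Icc 0 t, HasDerivAt B (-I * (((‖B s‖ ^ 2 : ℝ) : ℂ) * B s + w s)) s) →
    (∀ s ∈ Icc 0 t, HasDerivAt B' (-I * (((‖B' s‖ ^ 2 : ℝ) : ℂ) * B' s + w' s)) s) →
    (∀ s ∈ Icc 0 t, ‖B s‖ ≤ M) → (∀ s ∈ Icc 0 t, ‖B' s‖ ≤ M') →
    (∀ s ∈ Icc 0 t, ‖w s‖ ≤ W) → (∀ s ∈ Icc 0 t, ‖w' s‖ ≤ W) →
    (∀ s ∈ Icc 0 t, |‖B s‖ ^ 2 - θ| ≤ d) → (∀ s ∈ Icc 0 t, |‖B' s‖ ^ 2 - θ'| ≤ d') → θ ≠ θ' →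
    ‖∫ s in (0:ℝ)..t, (starRingEnd ℂ) (B s) * B' s‖ ≤
      (2 * M * M' + t * (M * (d' * M' + W) + M' * (d * M + W))) / |θ - θ'|

def DBD : Prop := ∀ (K : ℝ → ℝ) (κ : ℝ) (B : ℝ → ℝ → ℂ), Ker K κ → GS K B → ∀ x t : ℝ, 0 ≤ t →
    |‖B t x‖ ^ 2 - ‖B 0 x‖ ^ 2| ≤ 2 * ∫ y in (0:ℝ)..(2 * Real.pi),
      |K y| * ‖∫ s in (0:ℝ)..t, (starRingEnd ℂ) (B s x) * B s (x - y)‖


/-- `v` is a global smooth solution -/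
def SG (α : ℝ) (v : ℝ → ℝ → ℂ) : Prop :=
  ContDiff ℝ ∞ (fun p : ℝ × ℝ => v p.1 p.2) ∧ ∀ T > 0, IsSmoothSol α T v

def EQD (K : ℝ → ℝ) (κ : ℝ) : Prop := ∀ ε : ℝ, 0 < ε → ∃ N0 : ℕ, ∀ N : ℕ, N0 ≤ N →
    ∀ a b : ℝ, 0 ≤ a → a ≤ b → b ≤ 2 * Real.pi → ∀ x : ℝ,
      |(∫ y in (0:ℝ)..(2 * Real.pi), (|K y| + 1) * ‖indp a b (N * (x - y))‖) - (b - a) / (2 * Real.pi) * κ| ≤ ε

def BMP : Prop := ∀ (a b l : ℝ), 0 ≤ a → b ≤ 2 * Real.pi → 0 < l → 2 * l < b - a →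
    ∃ χ : ℝ → ℝ, ContDiff ℝ ∞ χ ∧ Function.Periodic χ (2 * Real.pi) ∧ (∀ x, 0 ≤ χ x ∧ χ x ≤ 1) ∧
      (∀ x, indp (a + l) (b - l) x = 1 → χ x = 1) ∧ (∀ x, indp a b x = 0 → χ x = 0)

def CMB (α : ℝ) : Prop := ∀ (k : ℤ) (ε : ℝ), 0 < ε → ∃ N0 : ℕ, ∀ N : ℕ, N0 ≤ N →
    ∀ a b : ℝ, 0 ≤ a → a ≤ b → b ≤ 2 * Real.pi →
      hd α (fc (fun x => indp a b (N * x) * cexp (I * (k:ℂ) * (x:ℂ))))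
        (fc (fun x => (((b - a) / (2 * Real.pi) : ℝ) : ℂ) * cexp (I * (k:ℂ) * (x:ℂ)))) ≤ ENNReal.ofReal ε

/-- average of the rotations -/
noncomputable def Dn (n : ℕ) (t : ℝ) : ℂ :=
  (1 / (n:ℂ) ^ 3) * ∑ j ∈ Finset.range (n ^ 3), cexp (-(I * (((n:ℝ) ^ 4 + n * j : ℝ) : ℂ) * (t:ℂ)))

def ZP (v : ℝ → ℝ → ℂ) : Prop :=
    (∀ t x, HasDerivAt (fun s => v s x) (-I * (v t x - fc (v t) 0 + ((‖v t x‖ ^ 2 : ℝ) : ℂ) * v t x)) t) ∧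
    (∀ t, ∫ x in (0:ℝ)..(2 * Real.pi), ‖v t x‖ ^ 2 = ∫ x in (0:ℝ)..(2 * Real.pi), ‖v 0 x‖ ^ 2) ∧
    (∀ t, ‖fc (v t) 0‖ ≤ Real.sqrt ((1 / (2 * Real.pi)) * ∫ x in (0:ℝ)..(2 * Real.pi), ‖v 0 x‖ ^ 2)) ∧
    (∀ t x, ‖v t x‖ ≤ ‖v 0 x‖ + |t| * Real.sqrt ((1 / (2 * Real.pi)) * ∫ x in (0:ℝ)..(2 * Real.pi), ‖v 0 x‖ ^ 2)) ∧
    Continuous (fun t => fc (v t) 0) ∧ Continuous (fun p : ℝ × ℝ => v p.1 p.2) ∧ ∀ t, Function.Periodic (v t) (2 * Real.pi)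


end MMT
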