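import Pool.Agent.Helper823.MMT.Defs
open Complex MeasureTheory Filter Topology Set
open scoped ContDiff ENNReal
namespace MMT
namespace Xbdd

theorem hd_tri (α : ℝ) (a b c : ℤ → ℂ) : hd α a c ≤ 2 * hd α a b + 2 * hd α b c := by
  unfold hd
  rw [← ENNReal.tsum_mul_left, ← ENNReal.tsum_mul_left, ← ENNReal.tsum_add]
  apply ENNReal.tsum_le_tsum
  intro k
  have hw : 0 ≤ (1 + |(k:ℝ)|) ^ α := by positivity
  have h2 : (2 : ℝ≥0∞) = ENNReal.ofReal 2 := by simp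
  rw [h2, ← ENNReal.ofReal_mul (by norm_num), ← ENNReal.ofReal_mul (by norm_num),
    ← ENNReal.ofReal_add (by positivity) (by positivity)]
  apply ENNReal.ofReal_le_ofReal
  have h3 : ‖a k - c k‖ ≤ ‖a k - b k‖ + ‖b k - c k‖ := norm_sub_le_norm_sub_add_norm_sub _ _ _
  have h4 : ‖a k - c k‖ ^ 2 ≤ 2 * ‖a k - b k‖ ^ 2 + 2 * ‖b k - c k‖ ^ 2 := by
    have h5 := pow_le_pow_left₀ (norm_nonneg _) h3 2
    nlinarith [sq_nonneg (‖a k - b k‖ - ‖b k - c k‖)]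
  have h6 := mul_le_mul_of_nonneg_left h4 hw
  linarith

theorem hd_bdd (α T : ℝ) (u : ℝ → ℤ → ℂ) (h1 : ∀ t, hd α (u t) 0 < ⊤)
    (h2 : ∀ t, Tendsto (fun s => hd α (u s) (u t)) (𝓝 t) (𝓝 0)) :
    ∃ B : ℝ, 1 ≤ B ∧ ∀ t ∈ Icc (-T) T, hd α (u t) 0 ≤ ENNReal.ofReal B := by
  have key : ∃ B : ℝ≥0∞, B ≠ ⊤ ∧ ∀ t ∈ Icc (-T) T, hd α (u t) 0 ≤ B := by
    refine isCompact_Icc.induction_on (p := fun S => ∃ B : ℝ≥0∞, B ≠ ⊤ ∧ ∀ t ∈ S, hd α (u t) 0 ≤ B)
      ?_ ?_ ?_ ?_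
    · exact ⟨0, ENNReal.zero_ne_top, fun t ht => absurd ht (Set.notMem_empty t)⟩
    · rintro S S' hSS ⟨B, hB, h⟩
      exact ⟨B, hB, fun t ht => h t (hSS ht)⟩
    · rintro S S' ⟨B, hB, h⟩ ⟨B', hB', h'⟩
      refine ⟨max B B', by simp [hB, hB'], ?_⟩
      rintro t (ht | ht)
      · exact (h t ht).trans (le_max_left _ _)
      · exact (h' t ht).trans (le_max_right _ _)
    · intro t _
      have hev : ∀ᶠ s in 𝓝 t, hd α (u s) (u t) ≤ 1 :=
        (h2 t).eventually (ge_mem_nhds (by norm_num))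
      refine ⟨{s | hd α (u s) (u t) ≤ 1}, mem_nhdsWithin_of_mem_nhds hev,
        2 * 1 + 2 * hd α (u t) 0, ?_, ?_⟩
      · exact ENNReal.add_ne_top.2 ⟨by norm_num, ENNReal.mul_ne_top (by norm_num) (h1 t).ne⟩
      · intro s hs
        refine (hd_tri α (u s) (u t) 0).trans ?_
        gcongr
        exact hs
  obtain ⟨B, hB, h⟩ := key
  refine ⟨max 1 B.toReal, le_max_left _ _, ?_⟩
  intro t ht
  refine (h t ht).trans ?_
  rw [← ENNReal.ofReal_toReal hB]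
  apply ENNReal.ofReal_le_ofReal
  rw [ENNReal.ofReal_toReal hB]
  exact le_max_right _ _

theorem NB_of_hd (α : ℝ) (f : ℝ → ℂ) (B : ℝ) (h0 : 0 < α) (hB : 0 ≤ B) (h : hd α (fc f) 0 ≤ ENNReal.ofReal B) : NB α f B := by
  intro s
  rw [← ENNReal.ofReal_le_ofReal_iff hB]
  refine le_trans ?_ h
  rw [ENNReal.ofReal_sum_of_nonneg]
  · refine le_trans ?_ (ENNReal.sum_le_tsum s)
    apply Finset.sum_le_sum
    intro k _
    apply ENNReal.ofReal_le_ofReal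
    have h1 : sym α k ≤ (1 + |(k:ℝ)|) ^ α := by
      unfold sym
      split_ifs with hk
      · positivity
      · exact Real.rpow_le_rpow (abs_nonneg _) (by linarith) h0.le
    have h2 : fc f k - (0 : ℤ → ℂ) k = fc f k := by simp
    rw [h2]
    gcongr
  · intro k _
    have h1 : 0 ≤ sym α k := by
      unfold sym
      split_ifs with hk
      · exact le_rfl
      · positivity
    positivity


end Xbdd
end MMT
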