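import Pool.Agent.Helper823.MMT.Defs
open Complex MeasureTheory Filter Topology Set
open scoped ContDiff ENNReal
namespace MMT
namespace Xcomp

theorem SB_comp_ii (g : ℝ → ℝ) (hg : Measurable g) (C : ℝ) (hC : ∀ x, |g x| ≤ C) :
    IntervalIntegrable g volume 0 (2 * Real.pi) := by
  constructor
  · exact Measure.integrableOn_of_bounded measure_Ioc_lt_top.ne hg.aestronglyMeasurable
      (Filter.Eventually.of_forall fun x => by rw [Real.norm_eq_abs]; exact hC x)
  · exact Measure.integrableOn_of_bounded measure_Ioc_lt_top.ne hg.aestronglyMeasurable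
      (Filter.Eventually.of_forall fun x => by rw [Real.norm_eq_abs]; exact hC x)

theorem SB_comp_ii2 (f : ℝ → ℂ) (hf : Measurable f) (C : ℝ) (hC : ∀ x, ‖f x‖ ≤ C) (h : ℝ) :
    IntervalIntegrable (fun x => ‖f (x + h) - f x‖ ^ 2) volume 0 (2 * Real.pi) := by
  refine SB_comp_ii _ ?_ ((C + C) ^ 2) ?_
  · exact ((hf.comp (measurable_id.add_const h)).sub hf).norm.pow_const 2
  · intro x
    rw [abs_of_nonneg (by positivity)]
    have h1 : ‖f (x + h) - f x‖ ≤ C + C :=
      (norm_sub_le _ _).trans (add_le_add (hC _) (hC _))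
    exact pow_le_pow_left₀ (norm_nonneg _) h1 2

theorem SB_comp (α : ℝ) (u : ℝ → ℂ) (hu : Reg u) (F : ℂ → ℂ) (L B : ℝ) (hL : 0 ≤ L)
    (hF : ∀ z w, ‖F z - F w‖ ≤ L * ‖z - w‖) (h : SB α u B) :
    SB α (fun x => F (u x)) (L ^ 2 * B) := by
  obtain ⟨hum, _, C, hC⟩ := hu
  have hFc : Continuous F := by
    have : LipschitzWith ⟨L, hL⟩ F := LipschitzWith.of_dist_le_mul fun z w => by
      rw [dist_eq_norm, dist_eq_norm]; exact hF z w
    exact this.continuous
  have hD : ∀ t : ℝ, Dif (fun x => F (u x)) t ≤ L ^ 2 * Dif u t := by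
    intro t
    unfold Dif
    rw [← intervalIntegral.integral_const_mul]
    apply intervalIntegral.integral_mono_on (by positivity)
    · refine SB_comp_ii2 (fun x => F (u x)) (hFc.measurable.comp hum) (‖F 0‖ + L * C) ?_ t
      intro x
      have h1 := hF (u x) 0
      rw [sub_zero] at h1
      have h2 : ‖F (u x)‖ ≤ ‖F 0‖ + ‖F (u x) - F 0‖ := norm_le_norm_add_norm_sub' _ _
      have h3 := mul_le_mul_of_nonneg_left (hC x) hL
      linarith
    · exact (SB_comp_ii2 u hum C hC t).const_mul _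
    · intro x _
      calc ‖F (u (x + t)) - F (u x)‖ ^ 2 ≤ (L * ‖u (x + t) - u x‖) ^ 2 :=
            pow_le_pow_left₀ (norm_nonneg _) (hF _ _) 2
        _ = L ^ 2 * ‖u (x + t) - u x‖ ^ 2 := by ring
  intro n
  calc ∑ j ∈ Finset.range n, (2:ℝ) ^ (α * j) * Dif (fun x => F (u x)) (Real.pi / 2 ^ j)
      ≤ ∑ j ∈ Finset.range n, L ^ 2 * ((2:ℝ) ^ (α * j) * Dif u (Real.pi / 2 ^ j)) := by
        apply Finset.sum_le_sum
        intro j _
        have h1 := mul_le_mul_of_nonneg_left (hD (Real.pi / 2 ^ j))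
          (Real.rpow_nonneg (by norm_num : (0:ℝ) ≤ 2) (α * j))
        linarith
    _ = L ^ 2 * ∑ j ∈ Finset.range n, ((2:ℝ) ^ (α * j) * Dif u (Real.pi / 2 ^ j)) := by
        rw [Finset.mul_sum]
    _ ≤ L ^ 2 * B := mul_le_mul_of_nonneg_left (h n) (by positivity)

theorem SB_mul (α : ℝ) (p f : ℝ → ℂ) (hp : Reg p) (hf : Reg f) (K B1 B2 : ℝ)
    (hp1 : ∀ x, ‖p x‖ ≤ 1) (hfK : ∀ x, ‖f x‖ ≤ K) (h1 : SB α p B1) (h2 : SB α f B2) :
    SB α (fun x => p x * f x) (2 * (B2 + K ^ 2 * B1)) := by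
  obtain ⟨hpm, _, _⟩ := hp
  obtain ⟨hfm, _, _⟩ := hf
  have hK : 0 ≤ K := (norm_nonneg _).trans (hfK 0)
  have hD : ∀ t : ℝ, Dif (fun x => p x * f x) t ≤ 2 * (Dif f t + K ^ 2 * Dif p t) := by
    intro t
    have hi1 := SB_comp_ii2 f hfm K hfK t
    have hi2 := SB_comp_ii2 p hpm 1 hp1 t
    have hi3 : IntervalIntegrable (fun x => ‖p (x + t) * f (x + t) - p x * f x‖ ^ 2) volume 0
        (2 * Real.pi) := by
      refine SB_comp_ii2 (fun x => p x * f x) (hpm.mul hfm) (1 * K) ?_ t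
      intro x
      rw [norm_mul]
      exact mul_le_mul (hp1 x) (hfK x) (norm_nonneg _) zero_le_one
    unfold Dif
    rw [← intervalIntegral.integral_const_mul (K ^ 2),
      ← intervalIntegral.integral_add hi1 (hi2.const_mul _),
      ← intervalIntegral.integral_const_mul]
    apply intervalIntegral.integral_mono_on (by positivity) hi3
      ((hi1.add (hi2.const_mul _)).const_mul _)
    intro x _
    have e1 : p (x + t) * f (x + t) - p x * f x =
        p (x + t) * (f (x + t) - f x) + f x * (p (x + t) - p x) := by ring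
    have e2 : ‖p (x + t) * f (x + t) - p x * f x‖ ≤
        ‖f (x + t) - f x‖ + K * ‖p (x + t) - p x‖ := by
      rw [e1]
      refine (norm_add_le _ _).trans ?_
      rw [norm_mul, norm_mul]
      have h3 := mul_le_mul_of_nonneg_right (hp1 (x + t)) (norm_nonneg (f (x + t) - f x))
      have h4 := mul_le_mul_of_nonneg_right (hfK x) (norm_nonneg (p (x + t) - p x))
      linarith
    calc ‖p (x + t) * f (x + t) - p x * f x‖ ^ 2
        ≤ (‖f (x + t) - f x‖ + K * ‖p (x + t) - p x‖) ^ 2 :=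
          pow_le_pow_left₀ (norm_nonneg _) e2 2
      _ ≤ 2 * (‖f (x + t) - f x‖ ^ 2 + K ^ 2 * ‖p (x + t) - p x‖ ^ 2) := by
          nlinarith [sq_nonneg (‖f (x + t) - f x‖ - K * ‖p (x + t) - p x‖)]
  intro n
  calc ∑ j ∈ Finset.range n, (2:ℝ) ^ (α * j) * Dif (fun x => p x * f x) (Real.pi / 2 ^ j)
      ≤ ∑ j ∈ Finset.range n, (2 * ((2:ℝ) ^ (α * j) * Dif f (Real.pi / 2 ^ j)) +
          2 * K ^ 2 * ((2:ℝ) ^ (α * j) * Dif p (Real.pi / 2 ^ j))) := by
        apply Finset.sum_le_sum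
        intro j _
        have h1 := mul_le_mul_of_nonneg_left (hD (Real.pi / 2 ^ j))
          (Real.rpow_nonneg (by norm_num : (0:ℝ) ≤ 2) (α * j))
        linarith
    _ = 2 * ∑ j ∈ Finset.range n, ((2:ℝ) ^ (α * j) * Dif f (Real.pi / 2 ^ j)) +
          2 * K ^ 2 * ∑ j ∈ Finset.range n, ((2:ℝ) ^ (α * j) * Dif p (Real.pi / 2 ^ j)) := by
        rw [Finset.sum_add_distrib, Finset.mul_sum, Finset.mul_sum]
    _ ≤ 2 * B2 + 2 * K ^ 2 * B1 :=
        add_le_add (mul_le_mul_of_nonneg_left (h2 n) (by norm_num))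
          (mul_le_mul_of_nonneg_left (h1 n) (by positivity))
    _ = 2 * (B2 + K ^ 2 * B1) := by ring


end Xcomp
end MMT
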