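import Pool.Agent.Helper823.MMT.Defs
open Complex MeasureTheory Filter Topology Set
open scoped ContDiff ENNReal
namespace MMT
namespace Xdatmass

theorem dat_mass (γ r : ℝ) (hγ : 0 < γ) (h1 : 2 * γ ≤ 1) (hr : 0 < r) :
    (1 / 2) * Real.exp (-2) * r ^ (1 - 2 * γ) ≤
      ∫ x in r..(2 * r), ‖dat γ x‖ ^ 2 * Real.exp (-(2 * (1 / (r ^ (-γ)) ^ 2) * ‖dat γ x‖ ^ 2)) := by
  have hsq : ∀ x : ℝ, ‖dat γ x‖ ^ 2 = (x ^ (-γ)) ^ 2 := by
    intro x
    rw [dat, Complex.norm_real, Real.norm_eq_abs, sq_abs]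
  simp only [hsq]
  have hR : 0 < r ^ (-γ) := Real.rpow_pos_of_pos hr _
  have hle : r ≤ 2 * r := by linarith
  have hcont : ContinuousOn (fun x : ℝ => (x ^ (-γ)) ^ 2 *
      Real.exp (-(2 * (1 / (r ^ (-γ)) ^ 2) * (x ^ (-γ)) ^ 2))) (Icc r (2 * r)) := by
    have h0 : ContinuousOn (fun x : ℝ => x ^ (-γ)) (Icc r (2 * r)) := by
      intro x hx
      have hx0 : x ≠ 0 := (lt_of_lt_of_le hr hx.1).ne'
      exact (Real.continuousAt_rpow_const x _ (Or.inl hx0)).continuousWithinAt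
    exact (h0.pow 2).mul
      (Real.continuous_exp.comp_continuousOn ((continuousOn_const.mul (h0.pow 2)).neg))
  have key : ∀ x ∈ Icc r (2 * r), (1 / 2) * (r ^ (-γ)) ^ 2 * Real.exp (-2) ≤
      (x ^ (-γ)) ^ 2 * Real.exp (-(2 * (1 / (r ^ (-γ)) ^ 2) * (x ^ (-γ)) ^ 2)) := by
    intro x hx
    have hx0 : 0 < x := lt_of_lt_of_le hr hx.1
    have hy0 : 0 < x ^ (-γ) := Real.rpow_pos_of_pos hx0 _
    have hy1 : x ^ (-γ) ≤ r ^ (-γ) := Real.rpow_le_rpow_of_nonpos hr hx.1 (by linarith)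
    have hy2 : (2 * r) ^ (-γ) ≤ x ^ (-γ) := Real.rpow_le_rpow_of_nonpos hx0 hx.2 (by linarith)
    have h2 : (1 / 2) * (r ^ (-γ)) ^ 2 ≤ (x ^ (-γ)) ^ 2 := by
      have e1 : ((2 * r) ^ (-γ)) ^ 2 ≤ (x ^ (-γ)) ^ 2 :=
        pow_le_pow_left₀ (Real.rpow_pos_of_pos (by linarith) _).le hy2 2
      have e2 : ((2 * r) ^ (-γ)) ^ 2 = ((2 : ℝ) ^ (-γ)) ^ 2 * (r ^ (-γ)) ^ 2 := by
        rw [Real.mul_rpow (by norm_num) hr.le, mul_pow]
      have e3 : (1 / 2 : ℝ) ≤ ((2 : ℝ) ^ (-γ)) ^ 2 := by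
        have e4 : ((2 : ℝ) ^ (-γ)) ^ 2 = (2 : ℝ) ^ (-(2 * γ)) := by
          rw [← Real.rpow_natCast, ← Real.rpow_mul (by norm_num)]
          congr 1
          push_cast
          ring
        rw [e4]
        have e5 : (1 / 2 : ℝ) = (2 : ℝ) ^ (-1 : ℝ) := by
          rw [Real.rpow_neg_one]
          norm_num
        rw [e5]
        exact Real.rpow_le_rpow_of_exponent_le (by norm_num) (by linarith)
      have e6 : 0 ≤ (r ^ (-γ)) ^ 2 := by positivity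
      nlinarith
    have h3 : Real.exp (-2) ≤ Real.exp (-(2 * (1 / (r ^ (-γ)) ^ 2) * (x ^ (-γ)) ^ 2)) := by
      apply Real.exp_le_exp.2
      have e1 : (x ^ (-γ)) ^ 2 ≤ (r ^ (-γ)) ^ 2 := pow_le_pow_left₀ hy0.le hy1 2
      have e2 : (1 / (r ^ (-γ)) ^ 2) * (x ^ (-γ)) ^ 2 ≤ 1 := by
        rw [one_div, inv_mul_le_iff₀ (by positivity)]
        linarith
      linarith
    exact mul_le_mul h2 h3 (Real.exp_pos _).le (by positivity)
  have e : (1 / 2) * Real.exp (-2) * r ^ (1 - 2 * γ) =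
      ∫ _x in r..(2 * r), (1 / 2) * (r ^ (-γ)) ^ 2 * Real.exp (-2) := by
    rw [intervalIntegral.integral_const, smul_eq_mul]
    have e1 : r ^ (1 - 2 * γ) = r * (r ^ (-γ)) ^ 2 := by
      rw [← Real.rpow_natCast, ← Real.rpow_mul hr.le]
      nth_rewrite 2 [← Real.rpow_one r]
      rw [← Real.rpow_add hr]
      congr 1
      push_cast
      ring
    rw [e1]
    ring
  rw [e]
  exact intervalIntegral.integral_mono_on hle (continuous_const.intervalIntegrable _ _)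
    (hcont.intervalIntegrable_of_Icc hle) key


end Xdatmass
end MMT
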