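import Pool.Agent.Helper823.MMT.Defs
open Complex MeasureTheory Filter Topology Set
open scoped ContDiff ENNReal
namespace MMT
namespace Xevo

theorem evo_abs (t D a b : ℝ) (ht : 0 < t) (hab : a ≤ b) (v vt : ℝ → ℝ → ℂ)
    (hv : ContinuousOn (fun p : ℝ × ℝ => v p.1 p.2) (Icc 0 t ×ˢ univ))
    (hvt : ContinuousOn (fun p : ℝ × ℝ => vt p.1 p.2) (Icc 0 t ×ˢ univ))
    (hd : ∀ s ∈ Icc 0 t, ∀ x, HasDerivAt (fun s => v s x) (vt s x) s)
    (G P Q : ℝ → ℂ → ℂ) (hGc : ∀ s, Continuous (G s)) (hP : Continuous (fun p : ℝ × ℂ => P p.1 p.2)) (hQ : Continuous (fun p : ℝ × ℂ => Q p.1 p.2))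
    (hG : ∀ (c : ℝ → ℂ) (c' : ℂ) (s : ℝ), HasDerivAt c c' s → HasDerivAt (fun s => G s (c s))
      (P s (c s) * (c' + I * ((‖c s‖ ^ 2 : ℝ) : ℂ) * c s) +
        Q s (c s) * (starRingEnd ℂ) (c' + I * ((‖c s‖ ^ 2 : ℝ) : ℂ) * c s)) s)
    (hD : ∀ s ∈ Icc 0 t, ‖∫ x in a..b, (P s (v s x) * (vt s x + I * ((‖v s x‖ ^ 2 : ℝ) : ℂ) * v s x) +
        Q s (v s x) * (starRingEnd ℂ) (vt s x + I * ((‖v s x‖ ^ 2 : ℝ) : ℂ) * v s x))‖ ≤ D) :
    ‖(∫ x in a..b, G t (v t x)) - ∫ x in a..b, G 0 (v 0 x)‖ ≤ t * D := by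
  let Z : ℝ → ℝ → ℂ := fun s x => vt s x + I * ((‖v s x‖ ^ 2 : ℝ) : ℂ) * v s x
  let W : ℝ → ℝ → ℂ := fun s x => P s (v s x) * Z s x + Q s (v s x) * (starRingEnd ℂ) (Z s x)
  have hZc : ContinuousOn (fun p : ℝ × ℝ => Z p.1 p.2) (Icc 0 t ×ˢ univ) :=
    hvt.add ((continuousOn_const.mul
      (Complex.continuous_ofReal.comp_continuousOn (hv.norm.pow 2))).mul hv)
  have hpair : ContinuousOn (fun p : ℝ × ℝ => (p.1, v p.1 p.2)) (Icc 0 t ×ˢ univ) :=
    continuousOn_fst.prodMk hv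
  have hPc : ContinuousOn (fun p : ℝ × ℝ => P p.1 (v p.1 p.2)) (Icc 0 t ×ˢ univ) :=
    hP.comp_continuousOn hpair
  have hQc : ContinuousOn (fun p : ℝ × ℝ => Q p.1 (v p.1 p.2)) (Icc 0 t ×ˢ univ) :=
    hQ.comp_continuousOn hpair
  have hWc : ContinuousOn (fun p : ℝ × ℝ => W p.1 p.2) (Icc 0 t ×ˢ univ) :=
    (hPc.mul hZc).add (hQc.mul (Complex.continuous_conj.comp_continuousOn hZc))
  have hvc : ∀ s ∈ Icc 0 t, Continuous (v s) := by
    intro s hs
    exact hv.comp_continuous (f := fun x : ℝ => (s, x)) (by fun_prop) (fun x => ⟨hs, mem_univ _⟩)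
  have h0t : (0 : ℝ) ∈ Icc 0 t := ⟨le_rfl, ht.le⟩
  have htt : t ∈ Icc 0 t := ⟨ht.le, le_rfl⟩
  have hWx : ∀ x : ℝ, ContinuousOn (fun s => W s x) (Icc 0 t) := by
    intro x
    exact hWc.comp (f := fun s : ℝ => (s, x)) (by fun_prop) (fun s hs => ⟨hs, mem_univ _⟩)
  have hftc : ∀ x : ℝ, ∫ s in (0:ℝ)..t, W s x = G t (v t x) - G 0 (v 0 x) := by
    intro x
    refine intervalIntegral.integral_eq_sub_of_hasDerivAt (f := fun s => G s (v s x)) ?_ ?_
    · intro s hs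
      rw [uIcc_of_le ht.le] at hs
      exact hG (fun s => v s x) (vt s x) s (hd s hs x)
    · apply ContinuousOn.intervalIntegrable
      rw [uIcc_of_le ht.le]
      exact hWx x
  have h1 : (∫ x in a..b, G t (v t x)) - ∫ x in a..b, G 0 (v 0 x) =
      ∫ s in (0:ℝ)..t, ∫ x in a..b, W s x := by
    rw [← intervalIntegral.integral_sub]
    · rw [intervalIntegral_intervalIntegral_swap]
      · refine intervalIntegral.integral_congr fun x _ => ?_
        exact (hftc x).symm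
      · have hc : IsCompact (Icc (0:ℝ) t ×ˢ Icc a b) := isCompact_Icc.prod isCompact_Icc
        have h2 : ContinuousOn (Function.uncurry W) (Icc (0:ℝ) t ×ˢ Icc a b) :=
          hWc.mono (Set.prod_mono_right (subset_univ _))
        refine (h2.integrableOn_compact hc).mono_set ?_
        rw [uIoc_of_le ht.le, uIoc_of_le hab]
        exact Set.prod_mono Ioc_subset_Icc_self Ioc_subset_Icc_self
    · exact ((hGc t).comp (hvc t htt)).intervalIntegrable _ _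
    · exact ((hGc 0).comp (hvc 0 h0t)).intervalIntegrable _ _
  rw [h1]
  have h3 : ‖∫ s in (0:ℝ)..t, ∫ x in a..b, W s x‖ ≤ D * |t - 0| := by
    apply intervalIntegral.norm_integral_le_of_norm_le_const
    intro s hs
    rw [uIoc_of_le ht.le] at hs
    exact hD s (Ioc_subset_Icc_self hs)
  rw [sub_zero, abs_of_pos ht, mul_comm] at h3
  exact h3


end Xevo
end MMT
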