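import Pool.Agent.Helper823.MMT.Defs
open Complex MeasureTheory Filter Topology Set
open scoped ContDiff ENNReal
namespace MMT
namespace Xextract

theorem extract (α γ : ℝ) (h0 : 0 < α) (hγ : 0 < γ) (h1 : 2 * γ < 1)
    (hl2 : ∀ f : ℝ → ℂ, Continuous f → ENNReal.ofReal (∫ x in (0:ℝ)..(2 * Real.pi), ‖f x - dat γ x‖ ^ 2) ≤
      ENNReal.ofReal (2 * Real.pi) * hd α (fc f) (fc (dat γ)))
    (htri : ∀ a b c : ℤ → ℂ, hd α a c ≤ 2 * hd α a b + 2 * hd α b c)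
    (hbdd : ∀ u : ℝ → ℤ → ℂ, (∀ t, hd α (u t) 0 < ⊤) → (∀ t, Tendsto (fun s => hd α (u s) (u t)) (𝓝 t) (𝓝 0)) →
      ∃ B : ℝ, 1 ≤ B ∧ ∀ t ∈ Icc (-1) 1, hd α (u t) 0 ≤ ENNReal.ofReal B)
    (hNB : ∀ (f : ℝ → ℂ) (B : ℝ), 0 ≤ B → hd α (fc f) 0 ≤ ENNReal.ofReal B → NB α f B)
    (u : ℝ → ℤ → ℂ) (hu : IsGlobalSol α (fc (dat γ)) u) :
    ∃ B : ℝ, 1 ≤ B ∧ ∀ ε > 0, ∃ v : ℝ → ℝ → ℂ, IsSmoothSol α 1 v ∧ (∀ t ∈ Icc (-1 : ℝ) 1, NB α (v t) B) ∧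
      Continuous (v 0) ∧ ∫ x in (0:ℝ)..(2 * Real.pi), ‖v 0 x - dat γ x‖ ^ 2 ≤ ε := by
  obtain ⟨B0, hB0, hB0'⟩ := hbdd u hu.mem hu.cont
  obtain ⟨f, v, hf, hconv, hev, hsup⟩ := hu.approx 1 one_pos
  refine ⟨2 + 2 * B0, by linarith, fun ε hε => ?_⟩
  have hpi : (0 : ℝ) < 2 * Real.pi := by positivity
  have hε' : 0 < ε / (2 * Real.pi) := by positivity
  have e1 : ∀ᶠ n in atTop, (⨆ t ∈ Icc (-1 : ℝ) 1, hd α (fc (v n t)) (u t)) < 1 :=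
    hsup.eventually (gt_mem_nhds one_pos)
  have e2 : ∀ᶠ n in atTop, hd α (fc (f n)) (fc (dat γ)) < ENNReal.ofReal (ε / (2 * Real.pi)) :=
    hconv.eventually (gt_mem_nhds (ENNReal.ofReal_pos.mpr hε'))
  obtain ⟨n, ⟨hsol, hv0⟩, hn1, hn2⟩ := (hev.and (e1.and e2)).exists
  refine ⟨v n, hsol, ?_, ?_, ?_⟩
  · intro t ht
    apply hNB _ _ (by linarith)
    have h3 : hd α (fc (v n t)) (u t) ≤ 1 :=
      (le_iSup₂ (f := fun (t : ℝ) (_ : t ∈ Icc (-1 : ℝ) 1) => hd α (fc (v n t)) (u t)) t ht).trans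
        hn1.le
    calc hd α (fc (v n t)) 0 ≤ 2 * hd α (fc (v n t)) (u t) + 2 * hd α (u t) 0 := htri _ _ _
      _ ≤ 2 * 1 + 2 * ENNReal.ofReal B0 := by
        gcongr
        exact hB0' t ht
      _ = ENNReal.ofReal (2 + 2 * B0) := by
        rw [ENNReal.ofReal_add (by norm_num) (by linarith), ENNReal.ofReal_mul (by norm_num)]
        simp
  · rw [hv0]
    exact (hf n).1.continuous
  · have hc : Continuous (v n 0) := by
      rw [hv0]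
      exact (hf n).1.continuous
    have h4 := hl2 (v n 0) hc
    have h5 : ENNReal.ofReal (2 * Real.pi) * hd α (fc (v n 0)) (fc (dat γ)) ≤ ENNReal.ofReal ε := by
      rw [hv0]
      calc ENNReal.ofReal (2 * Real.pi) * hd α (fc (f n)) (fc (dat γ))
          ≤ ENNReal.ofReal (2 * Real.pi) * ENNReal.ofReal (ε / (2 * Real.pi)) := by
            gcongr
        _ = ENNReal.ofReal ε := by
            rw [← ENNReal.ofReal_mul hpi.le, mul_div_cancel₀ _ hpi.ne']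
    exact (ENNReal.ofReal_le_ofReal_iff hε.le).mp (h4.trans h5)


end Xextract
end MMT
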