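import Pool.Agent.Helper823.MMT.Defs
open Complex MeasureTheory Filter Topology Set
open scoped ContDiff ENNReal
namespace MMT
namespace Xgder

theorem Gd_conj (z : ℂ) : ((‖z‖ ^ 2 : ℝ) : ℂ) = z * (starRingEnd ℂ) z := by
  rw [Complex.mul_conj', Complex.ofReal_pow]

theorem Gd_n (c : ℝ → ℂ) (c' : ℂ) (s : ℝ) (hc : HasDerivAt c c' s) :
    HasDerivAt (fun s => ((‖c s‖ ^ 2 : ℝ) : ℂ))
      (c' * (starRingEnd ℂ) (c s) + c s * (starRingEnd ℂ) c') s := by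
  have h1 : HasDerivAt (fun s => (starRingEnd ℂ) (c s)) ((starRingEnd ℂ) c') s :=
    (Complex.conjCLE.toContinuousLinearMap.hasFDerivAt).comp_hasDerivAt s hc
  have h2 := hc.mul h1
  have h3 : (fun s => ((‖c s‖ ^ 2 : ℝ) : ℂ)) = c * fun s => (starRingEnd ℂ) (c s) := by
    funext s
    exact Gd_conj (c s)
  rw [h3]
  exact h2

theorem G_deriv (q t : ℝ) (c : ℝ → ℂ) (c' : ℂ) (s : ℝ) (hc : HasDerivAt c c' s) :
    HasDerivAt (fun s => cexp (-((q:ℂ) + I * ((t - s : ℝ) : ℂ)) * ((‖c s‖ ^ 2 : ℝ) : ℂ)) * c s)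
      ((1 - ((q:ℂ) + I * ((t - s : ℝ) : ℂ)) * ((‖c s‖ ^ 2 : ℝ) : ℂ)) *
          cexp (-((q:ℂ) + I * ((t - s : ℝ) : ℂ)) * ((‖c s‖ ^ 2 : ℝ) : ℂ)) *
          (c' + I * ((‖c s‖ ^ 2 : ℝ) : ℂ) * c s) +
       (-((q:ℂ) + I * ((t - s : ℝ) : ℂ)) * (c s) ^ 2 *
          cexp (-((q:ℂ) + I * ((t - s : ℝ) : ℂ)) * ((‖c s‖ ^ 2 : ℝ) : ℂ))) *
          (starRingEnd ℂ) (c' + I * ((‖c s‖ ^ 2 : ℝ) : ℂ) * c s)) s := by
  have hn := Gd_n c c' s hc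
  have hl : HasDerivAt (fun s : ℝ => ((t - s : ℝ) : ℂ)) (-1) s := by
    have h1 : HasDerivAt (fun s : ℝ => t - s) (-1) s := by
      simpa using (hasDerivAt_id s).const_sub t
    have h2 := h1.ofReal_comp
    simpa using h2
  have hE := (((hl.const_mul I).const_add (q : ℂ)).neg.mul hn).cexp.mul hc
  refine HasDerivAt.congr_deriv (f := fun s => cexp (-((q:ℂ) + I * ((t - s : ℝ) : ℂ)) * ((‖c s‖ ^ 2 : ℝ) : ℂ)) * c s) hE ?_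
  have hconj : (starRingEnd ℂ) (c' + I * ((‖c s‖ ^ 2 : ℝ) : ℂ) * c s)
      = (starRingEnd ℂ) c' - I * ((‖c s‖ ^ 2 : ℝ) : ℂ) * (starRingEnd ℂ) (c s) := by
    rw [map_add, map_mul, map_mul, Complex.conj_I, Complex.conj_ofReal]
    ring
  rw [hconj]
  have hnn := Gd_conj (c s)
  simp only [Pi.mul_apply, Pi.neg_apply]
  generalize ((‖c s‖ ^ 2 : ℝ) : ℂ) = N at *
  generalize (starRingEnd ℂ) (c s) = d at *
  subst hnn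
  ring

theorem M_deriv (q : ℝ) (c : ℝ → ℂ) (c' : ℂ) (s : ℝ) (hc : HasDerivAt c c' s) :
    HasDerivAt (fun s => ((‖c s‖ ^ 2 * Real.exp (-(2 * q * ‖c s‖ ^ 2)) : ℝ) : ℂ))
      ((((1 - 2 * q * ‖c s‖ ^ 2) * Real.exp (-(2 * q * ‖c s‖ ^ 2)) : ℝ) : ℂ) * (starRingEnd ℂ) (c s) *
          (c' + I * ((‖c s‖ ^ 2 : ℝ) : ℂ) * c s) +
       (((1 - 2 * q * ‖c s‖ ^ 2) * Real.exp (-(2 * q * ‖c s‖ ^ 2)) : ℝ) : ℂ) * (c s) *
          (starRingEnd ℂ) (c' + I * ((‖c s‖ ^ 2 : ℝ) : ℂ) * c s)) s := by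
  have hn := Gd_n c c' s hc
  have hE := hn.mul ((hn.const_mul (2 * (q : ℂ))).neg.cexp)
  have hfun : (fun s => ((‖c s‖ ^ 2 * Real.exp (-(2 * q * ‖c s‖ ^ 2)) : ℝ) : ℂ))
      = (fun s => ((‖c s‖ ^ 2 : ℝ) : ℂ)) * fun s => cexp (-(2 * (q : ℂ) * ((‖c s‖ ^ 2 : ℝ) : ℂ))) := by
    funext s
    simp only [Pi.mul_apply]
    push_cast
    rfl
  rw [hfun]
  refine hE.congr_deriv ?_
  have hconj : (starRingEnd ℂ) (c' + I * ((‖c s‖ ^ 2 : ℝ) : ℂ) * c s)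
      = (starRingEnd ℂ) c' - I * ((‖c s‖ ^ 2 : ℝ) : ℂ) * (starRingEnd ℂ) (c s) := by
    rw [map_add, map_mul, map_mul, Complex.conj_I, Complex.conj_ofReal]
    ring
  rw [hconj]
  have hcast : (((1 - 2 * q * ‖c s‖ ^ 2) * Real.exp (-(2 * q * ‖c s‖ ^ 2)) : ℝ) : ℂ)
      = (1 - 2 * (q : ℂ) * ((‖c s‖ ^ 2 : ℝ) : ℂ)) * cexp (-(2 * (q : ℂ) * ((‖c s‖ ^ 2 : ℝ) : ℂ))) := by
    push_cast
    rfl
  rw [hcast]
  simp only [Pi.neg_apply]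
  ring


end Xgder
end MMT
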