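import Pool.Agent.Helper823.MMT.Defs
open Complex MeasureTheory Filter Topology Set
open scoped ContDiff ENNReal
namespace MMT
namespace Xgest

theorem mx_one_sub_exp (u : ℂ) (hu : u.re ≤ 0) : ‖1 - cexp u‖ ≤ ‖u‖ := by
  have h := Convex.norm_image_sub_le_of_norm_hasDerivWithin_le (𝕜 := ℂ) (f := cexp) (f' := cexp)
    (s := {c : ℂ | c.re ≤ 0}) (C := 1) (x := u) (y := 0)
    (fun x _ => (Complex.hasDerivAt_exp x).hasDerivWithinAt)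
    (fun x hx => by
      rw [Complex.norm_exp]
      exact Real.exp_le_one_iff.mpr hx) (convex_halfSpace_re_le 0) hu (by simp)
  simpa using h

theorem mx_exp_bd (μ : ℂ) (hμ : 1 / 2 ≤ μ.re) (p : ℝ) (hp : 0 ≤ p) :
    ‖cexp (-μ * (p : ℂ))‖ ≤ 2 / (2 + p) := by
  rw [Complex.norm_exp]
  have h1 : (-μ * (p : ℂ)).re = -(μ.re * p) := by simp
  rw [h1, Real.exp_neg]
  have h2 : 1 + p / 2 ≤ Real.exp (μ.re * p) := by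
    have := Real.add_one_le_exp (μ.re * p)
    nlinarith
  have h3 : (0 : ℝ) < 1 + p / 2 := by positivity
  calc (Real.exp (μ.re * p))⁻¹ ≤ (1 + p / 2)⁻¹ := inv_anti₀ h3 h2
    _ = 2 / (2 + p) := by field_simp

theorem mx_exp_sub (μ : ℂ) (hμ : 1 / 2 ≤ μ.re) (y w : ℂ) (h : ‖y‖ ≤ ‖w‖) :
    (1 + ‖y‖) * ‖cexp (-μ * ((‖y‖ ^ 2 : ℝ) : ℂ)) - cexp (-μ * ((‖w‖ ^ 2 : ℝ) : ℂ))‖ ≤
      7 * ‖μ‖ * ‖y - w‖ := by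
  have hμ2 : 1 / 2 ≤ ‖μ‖ := hμ.trans (Complex.re_le_norm μ)
  have hfac : cexp (-μ * ((‖y‖ ^ 2 : ℝ) : ℂ)) - cexp (-μ * ((‖w‖ ^ 2 : ℝ) : ℂ)) =
      cexp (-μ * ((‖y‖ ^ 2 : ℝ) : ℂ)) * (1 - cexp (-μ * ((‖w‖ ^ 2 - ‖y‖ ^ 2 : ℝ) : ℂ))) := by
    rw [mul_sub, mul_one, ← Complex.exp_add]
    congr 2
    push_cast
    ring
  have hq : ‖y‖ ^ 2 ≤ ‖w‖ ^ 2 := pow_le_pow_left₀ (norm_nonneg _) h 2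
  have hu : (-μ * ((‖w‖ ^ 2 - ‖y‖ ^ 2 : ℝ) : ℂ)).re ≤ 0 := by
    have : (-μ * ((‖w‖ ^ 2 - ‖y‖ ^ 2 : ℝ) : ℂ)).re = -(μ.re * (‖w‖ ^ 2 - ‖y‖ ^ 2)) := by
      rw [Complex.mul_re, Complex.ofReal_re, Complex.ofReal_im]; simp
    rw [this]
    have : 0 ≤ μ.re * (‖w‖ ^ 2 - ‖y‖ ^ 2) := mul_nonneg (by linarith) (by linarith)
    linarith
  have hb1 := mx_one_sub_exp _ hu
  have hb1' : ‖-μ * ((‖w‖ ^ 2 - ‖y‖ ^ 2 : ℝ) : ℂ)‖ = ‖μ‖ * (‖w‖ ^ 2 - ‖y‖ ^ 2) := by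
    rw [norm_mul, norm_neg, Complex.norm_real, Real.norm_of_nonneg (by linarith)]
  rw [hb1'] at hb1
  have hb2 : ‖1 - cexp (-μ * ((‖w‖ ^ 2 - ‖y‖ ^ 2 : ℝ) : ℂ))‖ ≤ 2 := by
    refine (norm_sub_le _ _).trans ?_
    rw [norm_one, Complex.norm_exp]
    have := Real.exp_le_one_iff.mpr hu
    linarith
  have hd : ‖w‖ - ‖y‖ ≤ ‖y - w‖ := by
    rw [norm_sub_rev]; exact norm_sub_norm_le w y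
  have hE := mx_exp_bd μ hμ (‖y‖ ^ 2) (by positivity)
  rw [hfac, norm_mul]
  set e := ‖cexp (-μ * ((‖y‖ ^ 2 : ℝ) : ℂ))‖ with he
  set g := ‖1 - cexp (-μ * ((‖w‖ ^ 2 - ‖y‖ ^ 2 : ℝ) : ℂ))‖ with hg
  set r := ‖y‖ with hr
  have hr0 : 0 ≤ r := norm_nonneg _
  have he0 : 0 ≤ e := norm_nonneg _
  have hg0 : 0 ≤ g := norm_nonneg _
  have hden : 0 < 2 + r ^ 2 := by positivity
  have heb : e * (2 + r ^ 2) ≤ 2 := by rwa [le_div_iff₀ hden] at hE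
  rcases le_or_gt ‖w‖ (r + 1) with hc | hc
  · have h1 : g ≤ ‖μ‖ * (‖y - w‖ * (2 * r + 1)) := by
      refine hb1.trans ?_
      apply mul_le_mul_of_nonneg_left _ (norm_nonneg _)
      have : ‖w‖ ^ 2 - r ^ 2 = (‖w‖ - r) * (‖w‖ + r) := by ring
      rw [this]
      exact mul_le_mul hd (by linarith) (by positivity) (norm_nonneg _)
    have h2 : (1 + r) * (2 * r + 1) * e ≤ 7 := by
      have h3 : (1 + r) * (2 * r + 1) ≤ 7 / 2 * (2 + r ^ 2) := by nlinarith [sq_nonneg (r - 1)]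
      nlinarith
    have h4 : 0 ≤ ‖μ‖ * ‖y - w‖ := by positivity
    calc (1 + r) * (e * g) ≤ (1 + r) * (e * (‖μ‖ * (‖y - w‖ * (2 * r + 1)))) := by gcongr
      _ = ((1 + r) * (2 * r + 1) * e) * (‖μ‖ * ‖y - w‖) := by ring
      _ ≤ 7 * (‖μ‖ * ‖y - w‖) := mul_le_mul_of_nonneg_right h2 h4
      _ = 7 * ‖μ‖ * ‖y - w‖ := by ring
  · have h1 : 1 ≤ ‖y - w‖ := by linarith
    have h2 : (1 + r) * e * 2 ≤ 7 / 2 := by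
      have h3 : 2 * (1 + r) ≤ 7 / 4 * (2 + r ^ 2) := by nlinarith [sq_nonneg (r - 1)]
      nlinarith
    calc (1 + r) * (e * g) = ((1 + r) * e) * g := by ring
      _ ≤ ((1 + r) * e) * 2 := mul_le_mul_of_nonneg_left hb2 (by positivity)
      _ ≤ 7 / 2 := h2
      _ ≤ 7 * ‖μ‖ * ‖y - w‖ := by nlinarith

theorem mx_lin_lip (μ : ℂ) (hμ : 1 / 2 ≤ μ.re) (y w y' w' : ℂ) (hy : ‖y'‖ = ‖y‖)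
    (hw : ‖w'‖ = ‖w‖) (hyw : ‖y' - w'‖ = ‖y - w‖) :
    ‖y' * cexp (-μ * ((‖y‖ ^ 2 : ℝ) : ℂ)) - w' * cexp (-μ * ((‖w‖ ^ 2 : ℝ) : ℂ))‖ ≤
      9 * ‖μ‖ * ‖y - w‖ := by
  have key : ∀ y w y' w' : ℂ, ‖y'‖ = ‖y‖ → ‖w'‖ = ‖w‖ → ‖y' - w'‖ = ‖y - w‖ → ‖y‖ ≤ ‖w‖ →
      ‖y' * cexp (-μ * ((‖y‖ ^ 2 : ℝ) : ℂ)) - w' * cexp (-μ * ((‖w‖ ^ 2 : ℝ) : ℂ))‖ ≤
      9 * ‖μ‖ * ‖y - w‖ := by
    intro y w y' w' hy hw hyw h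
    have hμ2 : 1 / 2 ≤ ‖μ‖ := hμ.trans (Complex.re_le_norm μ)
    have e1 : y' * cexp (-μ * ((‖y‖ ^ 2 : ℝ) : ℂ)) - w' * cexp (-μ * ((‖w‖ ^ 2 : ℝ) : ℂ)) =
      (y' - w') * cexp (-μ * ((‖w‖ ^ 2 : ℝ) : ℂ)) + y' * (cexp (-μ * ((‖y‖ ^ 2 : ℝ) : ℂ)) -
        cexp (-μ * ((‖w‖ ^ 2 : ℝ) : ℂ))) := by ring
    rw [e1]
    refine (norm_add_le _ _).trans ?_
    rw [norm_mul, norm_mul, hyw, hy]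
    have h1 := mx_exp_sub μ hμ y w h
    have h2 : ‖cexp (-μ * ((‖w‖ ^ 2 : ℝ) : ℂ))‖ ≤ 1 := by
      refine (mx_exp_bd μ hμ (‖w‖ ^ 2) (by positivity)).trans ?_
      rw [div_le_one (by positivity)]
      have := sq_nonneg ‖w‖
      linarith
    have h3 : ‖y - w‖ * ‖cexp (-μ * ((‖w‖ ^ 2 : ℝ) : ℂ))‖ ≤ ‖y - w‖ * 1 :=
      mul_le_mul_of_nonneg_left h2 (norm_nonneg _)
    have h4 : 0 ≤ ‖cexp (-μ * ((‖y‖ ^ 2 : ℝ) : ℂ)) - cexp (-μ * ((‖w‖ ^ 2 : ℝ) : ℂ))‖ :=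
      norm_nonneg _
    have h5 : 0 ≤ ‖y - w‖ := norm_nonneg _
    nlinarith
  rcases le_total ‖y‖ ‖w‖ with h | h
  · exact key y w y' w' hy hw hyw h
  · have := key w y w' y' hw hy (by rw [norm_sub_rev, hyw, norm_sub_rev]) h
    rw [norm_sub_rev, norm_sub_rev y w]
    exact this

theorem mx_exp_lip (μ : ℂ) (hμ : 1 / 2 ≤ μ.re) (y w : ℂ) :
    ‖cexp (-μ * ((‖y‖ ^ 2 : ℝ) : ℂ)) - cexp (-μ * ((‖w‖ ^ 2 : ℝ) : ℂ))‖ ≤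
      7 * ‖μ‖ * ‖y - w‖ := by
  have key : ∀ y w : ℂ, ‖y‖ ≤ ‖w‖ →
      ‖cexp (-μ * ((‖y‖ ^ 2 : ℝ) : ℂ)) - cexp (-μ * ((‖w‖ ^ 2 : ℝ) : ℂ))‖ ≤
      7 * ‖μ‖ * ‖y - w‖ := by
    intro y w h
    have h1 := mx_exp_sub μ hμ y w h
    have h4 : 0 ≤ ‖cexp (-μ * ((‖y‖ ^ 2 : ℝ) : ℂ)) - cexp (-μ * ((‖w‖ ^ 2 : ℝ) : ℂ))‖ :=
      norm_nonneg _
    have h5 : 0 ≤ ‖y‖ := norm_nonneg _
    nlinarith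
  rcases le_total ‖y‖ ‖w‖ with h | h
  · exact key y w h
  · have := key w y h
    rw [norm_sub_rev, norm_sub_rev y w]
    exact this

theorem mx_lin_bd (μ : ℂ) (hμ : 1 / 2 ≤ μ.re) (y y' : ℂ) (hy : ‖y'‖ = ‖y‖) :
    ‖y' * cexp (-μ * ((‖y‖ ^ 2 : ℝ) : ℂ))‖ ≤ 1 := by
  rw [norm_mul, hy]
  have h := mx_exp_bd μ hμ (‖y‖ ^ 2) (by positivity)
  have h5 : 0 ≤ ‖y‖ := norm_nonneg _
  rw [le_div_iff₀ (by positivity)] at h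
  have h6 : 0 ≤ ‖cexp (-μ * ((‖y‖ ^ 2 : ℝ) : ℂ))‖ := norm_nonneg _
  have h7 : 2 * ‖y‖ ≤ 2 + ‖y‖ ^ 2 := by nlinarith [sq_nonneg (‖y‖ - 1)]
  nlinarith

theorem mx_prod (a b c d : ℂ) (L : ℝ) (ha : ‖a‖ ≤ 1) (hd : ‖d‖ ≤ 1) (h1 : ‖a - c‖ ≤ L)
    (h2 : ‖b - d‖ ≤ L) : ‖a * b - c * d‖ ≤ 2 * L := by
  have e : a * b - c * d = a * (b - d) + (a - c) * d := by ring
  rw [e]
  refine (norm_add_le _ _).trans ?_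
  rw [norm_mul, norm_mul]
  have h3 : ‖a‖ * ‖b - d‖ ≤ 1 * L := mul_le_mul ha h2 (norm_nonneg _) (by norm_num)
  have h4 : ‖a - c‖ * ‖d‖ ≤ L * 1 := mul_le_mul h1 hd (norm_nonneg _)
    ((norm_nonneg _).trans h1)
  linarith

theorem mx_main (κ : ℂ) (hre : κ.re = 1) (M : ℝ) (hM : ‖κ‖ ≤ M) :
    (∀ y : ℂ, ‖(1 - κ * ((‖y‖ ^ 2 : ℝ) : ℂ)) * cexp (-κ * ((‖y‖ ^ 2 : ℝ) : ℂ))‖ ≤ 2 * M) ∧
    (∀ y : ℂ, ‖-κ * y ^ 2 * cexp (-κ * ((‖y‖ ^ 2 : ℝ) : ℂ))‖ ≤ M) ∧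
    (∀ y w : ℂ, ‖(1 - κ * ((‖y‖ ^ 2 : ℝ) : ℂ)) * cexp (-κ * ((‖y‖ ^ 2 : ℝ) : ℂ)) -
      (1 - κ * ((‖w‖ ^ 2 : ℝ) : ℂ)) * cexp (-κ * ((‖w‖ ^ 2 : ℝ) : ℂ))‖ ≤
        16 * M ^ 2 * ‖y - w‖) ∧
    (∀ y w : ℂ, ‖-κ * y ^ 2 * cexp (-κ * ((‖y‖ ^ 2 : ℝ) : ℂ)) -
      (-κ * w ^ 2 * cexp (-κ * ((‖w‖ ^ 2 : ℝ) : ℂ)))‖ ≤ 9 * M ^ 2 * ‖y - w‖) ∧
    (∀ y w : ℂ, ‖cexp (-κ * ((‖y‖ ^ 2 : ℝ) : ℂ)) * y - cexp (-κ * ((‖w‖ ^ 2 : ℝ) : ℂ)) * w‖ ≤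
        9 * M * ‖y - w‖) := by
  have hκ1 : 1 ≤ ‖κ‖ := by rw [← hre]; exact Complex.re_le_norm κ
  have hM1 : 1 ≤ M := hκ1.trans hM
  have hre2 : 1 / 2 ≤ κ.re := by rw [hre]; norm_num
  have hhalf : 1 / 2 ≤ (κ / 2).re := by
    have : (κ / 2).re = κ.re / 2 := by simp
    rw [this, hre]
  have hsplit : ∀ y : ℂ, cexp (-κ * ((‖y‖ ^ 2 : ℝ) : ℂ)) =
      cexp (-(κ / 2) * ((‖y‖ ^ 2 : ℝ) : ℂ)) * cexp (-(κ / 2) * ((‖y‖ ^ 2 : ℝ) : ℂ)) := by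
    intro y
    rw [← Complex.exp_add]
    congr 1
    ring
  have hE1 : ∀ y : ℂ, ‖cexp (-κ * ((‖y‖ ^ 2 : ℝ) : ℂ))‖ ≤ 1 := by
    intro y
    refine (mx_exp_bd κ hre2 (‖y‖ ^ 2) (by positivity)).trans ?_
    rw [div_le_one (by positivity)]
    have := sq_nonneg ‖y‖
    linarith
  have hn2 : ‖κ / 2‖ = ‖κ‖ / 2 := by simp
  have hconj : ∀ y : ℂ, ‖(starRingEnd ℂ) y‖ = ‖y‖ := fun y => by simp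
  -- y^2 E and |y|^2 E as products
  have hsq : ∀ y : ℂ, y ^ 2 * cexp (-κ * ((‖y‖ ^ 2 : ℝ) : ℂ)) =
      (y * cexp (-(κ / 2) * ((‖y‖ ^ 2 : ℝ) : ℂ))) * (y * cexp (-(κ / 2) * ((‖y‖ ^ 2 : ℝ) : ℂ))) := by
    intro y
    rw [hsplit y]; ring
  have habs : ∀ y : ℂ, ((‖y‖ ^ 2 : ℝ) : ℂ) * cexp (-κ * ((‖y‖ ^ 2 : ℝ) : ℂ)) =
      (y * cexp (-(κ / 2) * ((‖y‖ ^ 2 : ℝ) : ℂ))) *
        ((starRingEnd ℂ) y * cexp (-(κ / 2) * ((‖y‖ ^ 2 : ℝ) : ℂ))) := by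
    intro y
    rw [hsplit y]
    have : ((‖y‖ ^ 2 : ℝ) : ℂ) = y * (starRingEnd ℂ) y := by
      rw [Complex.mul_conj, Complex.normSq_eq_norm_sq]
    nth_rewrite 1 [this]
    ring
  have hL : ∀ y w : ℂ, ‖y * cexp (-(κ / 2) * ((‖y‖ ^ 2 : ℝ) : ℂ)) -
      w * cexp (-(κ / 2) * ((‖w‖ ^ 2 : ℝ) : ℂ))‖ ≤ 9 / 2 * ‖κ‖ * ‖y - w‖ := by
    intro y w
    have := mx_lin_lip (κ / 2) hhalf y w y w rfl rfl rfl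
    rw [hn2] at this
    linarith
  have hL' : ∀ y w : ℂ, ‖(starRingEnd ℂ) y * cexp (-(κ / 2) * ((‖y‖ ^ 2 : ℝ) : ℂ)) -
      (starRingEnd ℂ) w * cexp (-(κ / 2) * ((‖w‖ ^ 2 : ℝ) : ℂ))‖ ≤ 9 / 2 * ‖κ‖ * ‖y - w‖ := by
    intro y w
    have := mx_lin_lip (κ / 2) hhalf y w ((starRingEnd ℂ) y) ((starRingEnd ℂ) w) (hconj y)
      (hconj w) (by rw [← map_sub, hconj])
    rw [hn2] at this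
    linarith
  have hB : ∀ y : ℂ, ‖y * cexp (-(κ / 2) * ((‖y‖ ^ 2 : ℝ) : ℂ))‖ ≤ 1 := fun y =>
    mx_lin_bd (κ / 2) hhalf y y rfl
  have hB' : ∀ y : ℂ, ‖(starRingEnd ℂ) y * cexp (-(κ / 2) * ((‖y‖ ^ 2 : ℝ) : ℂ))‖ ≤ 1 := fun y =>
    mx_lin_bd (κ / 2) hhalf y _ (hconj y)
  refine ⟨?_, ?_, ?_, ?_, ?_⟩
  · intro y
    have e1 : (1 - κ * ((‖y‖ ^ 2 : ℝ) : ℂ)) * cexp (-κ * ((‖y‖ ^ 2 : ℝ) : ℂ)) =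
      cexp (-κ * ((‖y‖ ^ 2 : ℝ) : ℂ)) -
        κ * (((‖y‖ ^ 2 : ℝ) : ℂ) * cexp (-κ * ((‖y‖ ^ 2 : ℝ) : ℂ))) := by ring
    rw [e1, habs]
    refine (norm_sub_le _ _).trans ?_
    rw [norm_mul, norm_mul]
    have h1 := hE1 y
    have h2 : ‖y * cexp (-(κ / 2) * ((‖y‖ ^ 2 : ℝ) : ℂ))‖ *
        ‖(starRingEnd ℂ) y * cexp (-(κ / 2) * ((‖y‖ ^ 2 : ℝ) : ℂ))‖ ≤ 1 * 1 :=
      mul_le_mul (hB y) (hB' y) (norm_nonneg _) (by norm_num)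
    have h3 : ‖κ‖ * (‖y * cexp (-(κ / 2) * ((‖y‖ ^ 2 : ℝ) : ℂ))‖ *
        ‖(starRingEnd ℂ) y * cexp (-(κ / 2) * ((‖y‖ ^ 2 : ℝ) : ℂ))‖) ≤ ‖κ‖ * (1 * 1) :=
      mul_le_mul_of_nonneg_left h2 (norm_nonneg _)
    linarith
  · intro y
    have e1 : -κ * y ^ 2 * cexp (-κ * ((‖y‖ ^ 2 : ℝ) : ℂ)) =
      -(κ * (y ^ 2 * cexp (-κ * ((‖y‖ ^ 2 : ℝ) : ℂ)))) := by ring
    rw [e1, hsq, norm_neg, norm_mul, norm_mul]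
    have h2 : ‖y * cexp (-(κ / 2) * ((‖y‖ ^ 2 : ℝ) : ℂ))‖ *
        ‖y * cexp (-(κ / 2) * ((‖y‖ ^ 2 : ℝ) : ℂ))‖ ≤ 1 * 1 :=
      mul_le_mul (hB y) (hB y) (norm_nonneg _) (by norm_num)
    have h3 : ‖κ‖ * (‖y * cexp (-(κ / 2) * ((‖y‖ ^ 2 : ℝ) : ℂ))‖ *
        ‖y * cexp (-(κ / 2) * ((‖y‖ ^ 2 : ℝ) : ℂ))‖) ≤ ‖κ‖ * (1 * 1) :=
      mul_le_mul_of_nonneg_left h2 (norm_nonneg _)
    linarith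
  · intro y w
    have e1 : (1 - κ * ((‖y‖ ^ 2 : ℝ) : ℂ)) * cexp (-κ * ((‖y‖ ^ 2 : ℝ) : ℂ)) -
      (1 - κ * ((‖w‖ ^ 2 : ℝ) : ℂ)) * cexp (-κ * ((‖w‖ ^ 2 : ℝ) : ℂ)) =
      (cexp (-κ * ((‖y‖ ^ 2 : ℝ) : ℂ)) - cexp (-κ * ((‖w‖ ^ 2 : ℝ) : ℂ))) -
        κ * (((‖y‖ ^ 2 : ℝ) : ℂ) * cexp (-κ * ((‖y‖ ^ 2 : ℝ) : ℂ)) -
          ((‖w‖ ^ 2 : ℝ) : ℂ) * cexp (-κ * ((‖w‖ ^ 2 : ℝ) : ℂ))) := by ring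
    rw [e1, habs y, habs w]
    refine (norm_sub_le _ _).trans ?_
    rw [norm_mul]
    have h1 := mx_exp_lip κ hre2 y w
    have h2 := mx_prod _ _ _ _ _ (hB y) (hB' w) (hL y w) (hL' y w)
    have h3 := mul_le_mul_of_nonneg_left h2 (norm_nonneg κ)
    have h5 : 0 ≤ ‖y - w‖ := norm_nonneg _
    have h6 : ‖κ‖ * ‖y - w‖ ≤ M ^ 2 * ‖y - w‖ :=
      mul_le_mul_of_nonneg_right (by nlinarith) h5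
    have h7 : ‖κ‖ ^ 2 * ‖y - w‖ ≤ M ^ 2 * ‖y - w‖ :=
      mul_le_mul_of_nonneg_right (pow_le_pow_left₀ (by linarith) hM 2) h5
    calc _ ≤ 7 * ‖κ‖ * ‖y - w‖ + ‖κ‖ * (2 * (9 / 2 * ‖κ‖ * ‖y - w‖)) := add_le_add h1 h3
      _ = 7 * (‖κ‖ * ‖y - w‖) + 9 * (‖κ‖ ^ 2 * ‖y - w‖) := by ring
      _ ≤ 7 * (M ^ 2 * ‖y - w‖) + 9 * (M ^ 2 * ‖y - w‖) := by linarith
      _ = 16 * M ^ 2 * ‖y - w‖ := by ring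
  · intro y w
    have e1 : -κ * y ^ 2 * cexp (-κ * ((‖y‖ ^ 2 : ℝ) : ℂ)) -
      (-κ * w ^ 2 * cexp (-κ * ((‖w‖ ^ 2 : ℝ) : ℂ))) =
      -(κ * (y ^ 2 * cexp (-κ * ((‖y‖ ^ 2 : ℝ) : ℂ)) -
          w ^ 2 * cexp (-κ * ((‖w‖ ^ 2 : ℝ) : ℂ)))) := by ring
    rw [e1, hsq y, hsq w, norm_neg, norm_mul]
    have h2 := mx_prod _ _ _ _ _ (hB y) (hB w) (hL y w) (hL y w)
    have h3 := mul_le_mul_of_nonneg_left h2 (norm_nonneg κ)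
    have h5 : 0 ≤ ‖y - w‖ := norm_nonneg _
    have h7 : ‖κ‖ ^ 2 * ‖y - w‖ ≤ M ^ 2 * ‖y - w‖ :=
      mul_le_mul_of_nonneg_right (pow_le_pow_left₀ (by linarith) hM 2) h5
    calc _ ≤ ‖κ‖ * (2 * (9 / 2 * ‖κ‖ * ‖y - w‖)) := h3
      _ = 9 * (‖κ‖ ^ 2 * ‖y - w‖) := by ring
      _ ≤ 9 * (M ^ 2 * ‖y - w‖) := by linarith
      _ = 9 * M ^ 2 * ‖y - w‖ := by ring
  · intro y w
    rw [mul_comm _ y, mul_comm _ w]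
    have h1 := mx_lin_lip κ hre2 y w y w rfl rfl rfl
    have h5 : 0 ≤ ‖y - w‖ := norm_nonneg _
    have h6 : ‖κ‖ * ‖y - w‖ ≤ M * ‖y - w‖ := mul_le_mul_of_nonneg_right hM h5
    nlinarith

theorem G_est : ∃ C : ℝ, 0 < C ∧ ∀ (A K τ : ℝ), 0 < A → 0 ≤ τ → A ^ 2 * τ ≤ K →
    (∀ z : ℂ, ‖(1 - (((1 / A ^ 2 : ℝ) : ℂ) + I * (τ : ℂ)) * ((‖z‖ ^ 2 : ℝ) : ℂ)) *
        cexp (-(((1 / A ^ 2 : ℝ) : ℂ) + I * (τ : ℂ)) * ((‖z‖ ^ 2 : ℝ) : ℂ))‖ ≤ C * (1 + K)) ∧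
    (∀ z : ℂ, ‖(-(((1 / A ^ 2 : ℝ) : ℂ) + I * (τ : ℂ)) * z ^ 2 *
        cexp (-(((1 / A ^ 2 : ℝ) : ℂ) + I * (τ : ℂ)) * ((‖z‖ ^ 2 : ℝ) : ℂ)))‖ ≤ C * (1 + K)) ∧
    (∀ z w : ℂ, ‖(1 - (((1 / A ^ 2 : ℝ) : ℂ) + I * (τ : ℂ)) * ((‖z‖ ^ 2 : ℝ) : ℂ)) *
        cexp (-(((1 / A ^ 2 : ℝ) : ℂ) + I * (τ : ℂ)) * ((‖z‖ ^ 2 : ℝ) : ℂ)) -
        (1 - (((1 / A ^ 2 : ℝ) : ℂ) + I * (τ : ℂ)) * ((‖w‖ ^ 2 : ℝ) : ℂ)) *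
        cexp (-(((1 / A ^ 2 : ℝ) : ℂ) + I * (τ : ℂ)) * ((‖w‖ ^ 2 : ℝ) : ℂ))‖ ≤ C * (1 + K) ^ 2 / A * ‖z - w‖) ∧
    (∀ z w : ℂ, ‖(-(((1 / A ^ 2 : ℝ) : ℂ) + I * (τ : ℂ)) * z ^ 2 *
        cexp (-(((1 / A ^ 2 : ℝ) : ℂ) + I * (τ : ℂ)) * ((‖z‖ ^ 2 : ℝ) : ℂ))) -
        (-(((1 / A ^ 2 : ℝ) : ℂ) + I * (τ : ℂ)) * w ^ 2 *
        cexp (-(((1 / A ^ 2 : ℝ) : ℂ) + I * (τ : ℂ)) * ((‖w‖ ^ 2 : ℝ) : ℂ)))‖ ≤ C * (1 + K) ^ 2 / A * ‖z - w‖) ∧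
    (∀ z w : ℂ, ‖cexp (-(((1 / A ^ 2 : ℝ) : ℂ) + I * (τ : ℂ)) * ((‖z‖ ^ 2 : ℝ) : ℂ)) * z -
        cexp (-(((1 / A ^ 2 : ℝ) : ℂ) + I * (τ : ℂ)) * ((‖w‖ ^ 2 : ℝ) : ℂ)) * w‖ ≤ C * (1 + K) * ‖z - w‖) := by
  refine ⟨16, by norm_num, ?_⟩
  intro A K τ hA hτ hK
  set lam : ℂ := ((1 / A ^ 2 : ℝ) : ℂ) + I * (τ : ℂ) with hlam
  set κ : ℂ := (A : ℂ) ^ 2 * lam with hκ
  have hAc : (A : ℂ) ≠ 0 := by exact_mod_cast hA.ne'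
  have hκ' : κ = 1 + ((A ^ 2 * τ : ℝ) : ℂ) * I := by
    rw [hκ, hlam]
    push_cast
    field_simp
  have hre : κ.re = 1 := by
    rw [hκ']
    simp [-Complex.ofReal_mul, -Complex.ofReal_pow]
  have hAt : 0 ≤ A ^ 2 * τ := by positivity
  have hn : ‖κ‖ ≤ 1 + K := by
    rw [hκ']
    refine (norm_add_le _ _).trans ?_
    rw [norm_one, norm_mul, Complex.norm_I, mul_one, Complex.norm_real, Real.norm_of_nonneg hAt]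
    linarith
  obtain ⟨g1, g2, g3, g4, g5⟩ := mx_main κ hre (1 + K) hn
  have hz : ∀ z : ℂ, z = (A : ℂ) * (z / A) := fun z => by field_simp
  have hnorm : ∀ z : ℂ, ‖z‖ ^ 2 = A ^ 2 * ‖z / A‖ ^ 2 := by
    intro z
    rw [norm_div, Complex.norm_real, Real.norm_of_nonneg hA.le]
    field_simp
  have hl1 : ∀ z : ℂ, lam * ((‖z‖ ^ 2 : ℝ) : ℂ) = κ * ((‖z / A‖ ^ 2 : ℝ) : ℂ) := by
    intro z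
    rw [hnorm z, hκ]
    push_cast
    ring
  have hl2 : ∀ z : ℂ, -lam * ((‖z‖ ^ 2 : ℝ) : ℂ) = -κ * ((‖z / A‖ ^ 2 : ℝ) : ℂ) := by
    intro z
    rw [neg_mul, neg_mul, hl1]
  have hl3 : ∀ z : ℂ, -lam * z ^ 2 = -κ * (z / A) ^ 2 := by
    intro z
    rw [hκ]
    field_simp
  have hdist : ∀ z w : ℂ, ‖z / A - w / A‖ = ‖z - w‖ / A := by
    intro z w
    rw [← sub_div, norm_div, Complex.norm_real, Real.norm_of_nonneg hA.le]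
  have hK0 : 0 ≤ K := hAt.trans hK
  refine ⟨?_, ?_, ?_, ?_, ?_⟩
  · intro z
    rw [hl1, hl2]
    refine (g1 _).trans ?_
    nlinarith
  · intro z
    rw [hl2, hl3]
    refine (g2 _).trans ?_
    nlinarith
  · intro z w
    rw [hl1, hl2, hl1, hl2]
    refine (g3 _ _).trans ?_
    rw [hdist]
    apply le_of_eq
    ring
  · intro z w
    rw [hl2, hl3, hl2, hl3]
    refine (g4 _ _).trans ?_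
    rw [hdist]
    have h5 : 0 ≤ (1 + K) ^ 2 * (‖z - w‖ / A) := by positivity
    have : 16 * (1 + K) ^ 2 / A * ‖z - w‖ = 16 * ((1 + K) ^ 2 * (‖z - w‖ / A)) := by ring
    rw [this]
    nlinarith
  · intro z w
    rw [hl2, hl2]
    have e1 : cexp (-κ * ((‖z / A‖ ^ 2 : ℝ) : ℂ)) * z - cexp (-κ * ((‖w / A‖ ^ 2 : ℝ) : ℂ)) * w =
        (A : ℂ) * (cexp (-κ * ((‖z / A‖ ^ 2 : ℝ) : ℂ)) * (z / A) -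
          cexp (-κ * ((‖w / A‖ ^ 2 : ℝ) : ℂ)) * (w / A)) := by
      generalize cexp (-κ * ((‖z / A‖ ^ 2 : ℝ) : ℂ)) = e1
      generalize cexp (-κ * ((‖w / A‖ ^ 2 : ℝ) : ℂ)) = e2
      field_simp
    rw [e1, norm_mul, Complex.norm_real, Real.norm_of_nonneg hA.le]
    have h1 := mul_le_mul_of_nonneg_left (g5 (z / A) (w / A)) hA.le
    rw [hdist] at h1
    refine h1.trans ?_
    have h2 : A * (9 * (1 + K) * (‖z - w‖ / A)) = 9 * ((1 + K) * ‖z - w‖) := by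
      field_simp
    rw [h2]
    have h3 : 0 ≤ (1 + K) * ‖z - w‖ := by positivity
    linarith


end Xgest
end MMT
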