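import Pool.Agent.Helper823.MMT.Defs
open Complex MeasureTheory Filter Topology Set
open scoped ContDiff ENNReal
namespace MMT
namespace Xind

theorem Reg_indp (a b : ℝ) : Reg (indp a b) := by
  refine ⟨?_, ?_, 1, ?_⟩
  · unfold indp
    refine Measurable.ite ?_ measurable_const measurable_const
    have h1 : Measurable (fun x : ℝ => Int.fract (x / (2 * Real.pi)) * (2 * Real.pi)) :=
      (measurable_fract.comp (measurable_id.div_const _)).mul_const _
    exact h1 measurableSet_Ico
  · intro x
    unfold indp
    have h1 : (x + 2 * Real.pi) / (2 * Real.pi) = x / (2 * Real.pi) + 1 := by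
      have := Real.pi_pos
      field_simp
    rw [h1, Int.fract_add_one]
  · intro x
    unfold indp
    split_ifs <;> simp

theorem indp_eq (a b : ℝ) (x : ℝ) (hx : x ∈ Ico (0:ℝ) (2 * Real.pi)) :
    indp a b x = if x ∈ Ico a b then 1 else 0 := by
  have hpi : 0 < 2 * Real.pi := by have := Real.pi_pos; linarith
  have h1 : Int.fract (x / (2 * Real.pi)) = x / (2 * Real.pi) := by
    rw [Int.fract_eq_self]
    exact ⟨div_nonneg hx.1 hpi.le, by rw [div_lt_one hpi]; exact hx.2⟩
  unfold indp
  rw [h1, div_mul_cancel₀ _ hpi.ne']

theorem dif_indp (a b h : ℝ) (ha : 0 ≤ a) (hab : a < b) (hb : b ≤ 2 * Real.pi) (hh : 0 < h) (hh2 : h ≤ Real.pi) :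
    Dif (indp a b) h ≤ 4 * min h (b - a) := by
  have hpi := Real.pi_pos
  have hmin : 0 ≤ min h (b - a) := le_min hh.le (by linarith)
  set I1 : Set ℝ := Ico (max a (b - h)) b with hI1
  set I2 : Set ℝ := Ico (a - h) (min a (b - h)) with hI2
  set I3 : Set ℝ := Ico (a + 2 * Real.pi - h) (min (2 * Real.pi) (b + 2 * Real.pi - h)) with hI3
  set g : ℝ → ℝ := fun x => I1.indicator (1 : ℝ → ℝ) x + I2.indicator (1 : ℝ → ℝ) x +
    I3.indicator (1 : ℝ → ℝ) x with hg
  have hint : ∀ u v : ℝ, Integrable ((Ico u v).indicator (1 : ℝ → ℝ)) := by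
    intro u v
    rw [integrable_indicator_iff measurableSet_Ico]
    exact integrableOn_const (by simp)
  have hi1 : Integrable (I1.indicator (1 : ℝ → ℝ)) := hint _ _
  have hi2 : Integrable (I2.indicator (1 : ℝ → ℝ)) := hint _ _
  have hi3 : Integrable (I3.indicator (1 : ℝ → ℝ)) := hint _ _
  have hgi : Integrable g := (hi1.add hi2).add hi3
  have hnn : ∀ (s : Set ℝ) (x : ℝ), 0 ≤ s.indicator (1 : ℝ → ℝ) x := by
    intro s x
    exact Set.indicator_nonneg (fun _ _ => by simp) x
  have hg0 : ∀ x, 0 ≤ g x := fun x => by
    have h1 := hnn I1 x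
    have h2 := hnn I2 x
    have h3 := hnn I3 x
    simp only [hg]
    linarith
  have hval : ∫ x, g x ≤ 4 * min h (b - a) := by
    have e1 : ∫ x, g x = volume.real I1 + volume.real I2 + volume.real I3 := by
      have hi12 : Integrable (fun x => I1.indicator (1 : ℝ → ℝ) x + I2.indicator (1 : ℝ → ℝ) x) :=
        hi1.add hi2
      simp only [hg]
      rw [integral_add hi12 hi3, integral_add hi1 hi2,
        integral_indicator_one measurableSet_Ico, integral_indicator_one measurableSet_Ico,
        integral_indicator_one measurableSet_Ico]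
    have e2 : volume.real I1 ≤ min h (b - a) := by
      rw [hI1, Real.volume_real_Ico]
      refine max_le ?_ hmin
      rcases le_total a (b - h) with h1 | h1
      · rw [max_eq_right h1]
        refine le_min (by linarith) (by linarith)
      · rw [max_eq_left h1]
        refine le_min (by linarith) (by linarith)
    have e3 : volume.real I2 ≤ min h (b - a) := by
      rw [hI2, Real.volume_real_Ico]
      refine max_le ?_ hmin
      have h1 := min_le_left a (b - h)
      have h2 := min_le_right a (b - h)
      exact le_min (by linarith) (by linarith)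
    have e4 : volume.real I3 ≤ min h (b - a) := by
      rw [hI3, Real.volume_real_Ico]
      refine max_le ?_ hmin
      have h1 := min_le_left (2 * Real.pi) (b + 2 * Real.pi - h)
      have h2 := min_le_right (2 * Real.pi) (b + 2 * Real.pi - h)
      exact le_min (by linarith) (by linarith)
    rw [e1]
    linarith
  have hone : ∀ (s : Set ℝ) (x : ℝ), x ∈ s → s.indicator (1 : ℝ → ℝ) x = 1 := by
    intro s x hx
    rw [Set.indicator_of_mem hx, Pi.one_apply]
  have hpt : ∀ x ∈ Ioo (0 : ℝ) (2 * Real.pi), ‖indp a b (x + h) - indp a b x‖ ^ 2 ≤ g x := by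
    intro x hx
    have hx0 : indp a b x = if x ∈ Ico a b then 1 else 0 := indp_eq a b x ⟨hx.1.le, hx.2⟩
    by_cases hxh : x + h < 2 * Real.pi
    · have hx1 : indp a b (x + h) = if x + h ∈ Ico a b then 1 else 0 :=
        indp_eq a b (x + h) ⟨by linarith [hx.1], hxh⟩
      rw [hx0, hx1]
      by_cases c1 : x ∈ Ico a b
      · by_cases c2 : x + h ∈ Ico a b
        · rw [if_pos c1, if_pos c2]
          simpa using hg0 x
        · rw [if_pos c1, if_neg c2]
          have h1 : x ∈ I1 := by
            refine ⟨max_le c1.1 ?_, c1.2⟩
            by_contra hcon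
            apply c2
            exact ⟨by linarith [c1.1], by linarith⟩
          have h2 := hone I1 x h1
          have h3 := hnn I2 x
          have h4 := hnn I3 x
          simp only [hg]
          norm_num
          linarith
      · by_cases c2 : x + h ∈ Ico a b
        · rw [if_neg c1, if_pos c2]
          have h1 : x ∈ I2 := by
            refine ⟨by linarith [c2.1], lt_min ?_ (by linarith [c2.2])⟩
            by_contra hcon
            apply c1
            exact ⟨by linarith, by linarith [c2.2]⟩
          have h2 := hone I2 x h1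
          have h3 := hnn I1 x
          have h4 := hnn I3 x
          simp only [hg]
          norm_num
          linarith
        · rw [if_neg c1, if_neg c2]
          simpa using hg0 x
    · have hper := (Reg_indp a b).2.1 (x + h - 2 * Real.pi)
      rw [show x + h - 2 * Real.pi + 2 * Real.pi = x + h by ring] at hper
      have hx1 : indp a b (x + h) = if x + h - 2 * Real.pi ∈ Ico a b then 1 else 0 := by
        rw [hper]
        exact indp_eq a b _ ⟨by linarith, by linarith [hx.2]⟩
      rw [hx0, hx1]
      by_cases c1 : x ∈ Ico a b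
      · by_cases c2 : x + h - 2 * Real.pi ∈ Ico a b
        · rw [if_pos c1, if_pos c2]
          simpa using hg0 x
        · rw [if_pos c1, if_neg c2]
          have h1 : x ∈ I1 := ⟨max_le c1.1 (by linarith), c1.2⟩
          have h2 := hone I1 x h1
          have h3 := hnn I2 x
          have h4 := hnn I3 x
          simp only [hg]
          norm_num
          linarith
      · by_cases c2 : x + h - 2 * Real.pi ∈ Ico a b
        · rw [if_neg c1, if_pos c2]
          have h1 : x ∈ I3 := ⟨by linarith [c2.1], lt_min hx.2 (by linarith [c2.2])⟩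
          have h2 := hone I3 x h1
          have h3 := hnn I1 x
          have h4 := hnn I2 x
          simp only [hg]
          norm_num
          linarith
        · rw [if_neg c1, if_neg c2]
          simpa using hg0 x
  unfold Dif
  rw [intervalIntegral.integral_of_le (by linarith), integral_Ioc_eq_integral_Ioo]
  have hmeas : Measurable (indp a b) := (Reg_indp a b).1
  have hbd : ∀ x, ‖indp a b x‖ ≤ 1 := by
    intro x
    unfold indp
    split_ifs <;> simp
  have hfi : IntegrableOn (fun x => ‖indp a b (x + h) - indp a b x‖ ^ 2)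
      (Ioo (0 : ℝ) (2 * Real.pi)) := by
    refine Measure.integrableOn_of_bounded (M := 4) measure_Ioo_lt_top.ne ?_ ?_
    · exact (((hmeas.comp (measurable_id.add_const h)).sub hmeas).norm.pow_const 2).aestronglyMeasurable
    · refine Filter.Eventually.of_forall fun x => ?_
      rw [Real.norm_of_nonneg (by positivity)]
      have h1 : ‖indp a b (x + h) - indp a b x‖ ≤ 2 := by
        refine (norm_sub_le _ _).trans ?_
        linarith [hbd x, hbd (x + h)]
      nlinarith [norm_nonneg (indp a b (x + h) - indp a b x)]
  calc ∫ x in Ioo (0 : ℝ) (2 * Real.pi), ‖indp a b (x + h) - indp a b x‖ ^ 2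
      ≤ ∫ x in Ioo (0 : ℝ) (2 * Real.pi), g x :=
        setIntegral_mono_on hfi hgi.integrableOn measurableSet_Ioo hpt
    _ ≤ ∫ x, g x := setIntegral_le_integral hgi (Filter.Eventually.of_forall hg0)
    _ ≤ 4 * min h (b - a) := hval


end Xind
end MMT
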