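import Pool.Agent.Helper823.MMT.Defs
open Complex MeasureTheory Filter Topology Set
open scoped ContDiff ENNReal
namespace MMT
namespace Xl1


theorem l1_dat_meas (γ : ℝ) : Measurable (dat γ) := by
  unfold dat
  exact Complex.measurable_ofReal.comp (measurable_id.pow_const _)

theorem l1_dat_memLp (γ : ℝ) (h1 : 2 * γ < 1) :
    MemLp (dat γ) 2 (volume.restrict (Ioc (0:ℝ) (2 * Real.pi))) := by
  rw [memLp_two_iff_integrable_sq_norm (l1_dat_meas γ).aestronglyMeasurable]
  have h2 : IntervalIntegrable (fun x : ℝ => x ^ (-2 * γ)) volume 0 (2 * Real.pi) :=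
    intervalIntegral.intervalIntegrable_rpow' (by linarith)
  have h3 := h2.1
  have h4 : IntegrableOn (fun x : ℝ => ‖dat γ x‖ ^ 2) (Ioc (0:ℝ) (2 * Real.pi)) := by
    refine (integrableOn_congr_fun ?_ measurableSet_Ioc).1 h3
    intro x hx
    show x ^ (-2 * γ) = ‖((x ^ (-γ) : ℝ) : ℂ)‖ ^ 2
    rw [Complex.norm_real, Real.norm_eq_abs, sq_abs, ← Real.rpow_natCast, ← Real.rpow_mul hx.1.le]
    congr 1
    push_cast
    ring
  exact h4

theorem l1_cont_memLp (f : ℝ → ℂ) (hf : Continuous f) :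
    MemLp f 2 (volume.restrict (Ioc (0:ℝ) (2 * Real.pi))) := by
  rw [memLp_two_iff_integrable_sq_norm hf.aestronglyMeasurable]
  have h2 : IntervalIntegrable (fun x : ℝ => ‖f x‖ ^ 2) volume 0 (2 * Real.pi) :=
    (hf.norm.pow 2).intervalIntegrable _ _
  exact h2.1

theorem l1_cs (g : ℝ → ℂ) (hg : MemLp g 2 (volume.restrict (Ioc (0:ℝ) (2 * Real.pi)))) :
    (∫ x in (0:ℝ)..(2 * Real.pi), ‖g x‖) ^ 2 ≤
      2 * Real.pi * ∫ x in (0:ℝ)..(2 * Real.pi), ‖g x‖ ^ 2 := by
  have hpi := Real.pi_pos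
  have h2 : IntervalIntegrable (fun x : ℝ => ‖g x‖ ^ 2) volume 0 (2 * Real.pi) := by
    rw [intervalIntegrable_iff_integrableOn_Ioc_of_le (by positivity)]
    exact (memLp_two_iff_integrable_sq_norm hg.1).1 hg
  have h1 : IntervalIntegrable (fun x : ℝ => ‖g x‖) volume 0 (2 * Real.pi) := by
    rw [intervalIntegrable_iff_integrableOn_Ioc_of_le (by positivity)]
    exact (hg.integrable (by norm_num)).norm
  set A := ∫ x in (0:ℝ)..(2 * Real.pi), ‖g x‖ with hA
  set m := A / (2 * Real.pi) with hm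
  have h3 : 0 ≤ ∫ x in (0:ℝ)..(2 * Real.pi), (‖g x‖ - m) ^ 2 :=
    intervalIntegral.integral_nonneg (by positivity) fun x _ => sq_nonneg _
  have h4 : ∫ x in (0:ℝ)..(2 * Real.pi), (‖g x‖ - m) ^ 2 =
      (∫ x in (0:ℝ)..(2 * Real.pi), ‖g x‖ ^ 2) - 2 * m * A + m ^ 2 * (2 * Real.pi) := by
    have h5 : (fun x => (‖g x‖ - m) ^ 2) = fun x => (‖g x‖ ^ 2 - 2 * m * ‖g x‖) + m ^ 2 := by
      funext x
      ring
    rw [h5, intervalIntegral.integral_add (h2.sub (h1.const_mul _)) intervalIntegrable_const,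
      intervalIntegral.integral_sub h2 (h1.const_mul _), intervalIntegral.integral_const_mul,
      intervalIntegral.integral_const, smul_eq_mul]
    ring
  rw [h4] at h3
  have h6 : A = m * (2 * Real.pi) := by
    rw [hm]
    field_simp
  have h7 : m ^ 2 * (2 * Real.pi) ≤ ∫ x in (0:ℝ)..(2 * Real.pi), ‖g x‖ ^ 2 := by
    rw [h6] at h3
    nlinarith
  calc A ^ 2 = (2 * Real.pi) * (m ^ 2 * (2 * Real.pi)) := by rw [h6]; ring
    _ ≤ _ := mul_le_mul_of_nonneg_left h7 (by positivity)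

theorem l1_le (γ ε a b : ℝ) (hγ : 0 < γ) (h1 : 2 * γ < 1) (f : ℝ → ℂ) (hf : Continuous f) (hε : 0 ≤ ε)
    (h : ∫ x in (0:ℝ)..(2 * Real.pi), ‖f x - dat γ x‖ ^ 2 ≤ ε) (ha : 0 ≤ a) (hab : a ≤ b) (hb : b ≤ 2 * Real.pi)
    (F : ℂ → ℂ) (L : ℝ) (hL : 0 ≤ L) (hF : ∀ z w, ‖F z - F w‖ ≤ L * ‖z - w‖) :
    ‖(∫ x in a..b, F (f x)) - ∫ x in a..b, F (dat γ x)‖ ≤ L * Real.sqrt (2 * Real.pi * ε) ∧
    ∫ x in a..b, ‖F (dat γ x)‖ ^ 2 ≤ 2 * (∫ x in a..b, ‖F (f x)‖ ^ 2) + 2 * L ^ 2 * ε := by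
  have hpi := Real.pi_pos
  have hFc : Continuous F := by
    have : LipschitzWith ⟨L, hL⟩ F := LipschitzWith.of_dist_le_mul fun z w => by
      rw [dist_eq_norm, dist_eq_norm]
      exact hF z w
    exact this.continuous
  have hg : MemLp (fun x => f x - dat γ x) 2 (volume.restrict (Ioc (0:ℝ) (2 * Real.pi))) :=
    (l1_cont_memLp f hf).sub (l1_dat_memLp γ h1)
  have hFf : MemLp (fun x => F (f x)) 2 (volume.restrict (Ioc (0:ℝ) (2 * Real.pi))) :=
    l1_cont_memLp _ (hFc.comp hf)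
  have hFd : MemLp (fun x => F (f x) - F (dat γ x)) 2
      (volume.restrict (Ioc (0:ℝ) (2 * Real.pi))) := by
    refine MemLp.of_le_mul (c := L) hg ?_ (Eventually.of_forall fun x => hF _ _)
    exact ((hFc.comp hf).measurable.sub
      (hFc.measurable.comp (l1_dat_meas γ))).aestronglyMeasurable
  have hFdat : MemLp (fun x => F (dat γ x)) 2 (volume.restrict (Ioc (0:ℝ) (2 * Real.pi))) := by
    have := hFf.sub hFd
    refine this.congr_norm ?_ ?_
    · exact (hFc.measurable.comp (l1_dat_meas γ)).aestronglyMeasurable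
    · refine Eventually.of_forall fun x => ?_
      simp
  have hint : ∀ g : ℝ → ℂ, MemLp g 2 (volume.restrict (Ioc (0:ℝ) (2 * Real.pi))) →
      IntervalIntegrable g volume 0 (2 * Real.pi) := by
    intro g hg
    rw [intervalIntegrable_iff_integrableOn_Ioc_of_le (by positivity)]
    exact hg.integrable (by norm_num)
  have hint2 : ∀ g : ℝ → ℂ, MemLp g 2 (volume.restrict (Ioc (0:ℝ) (2 * Real.pi))) →
      IntervalIntegrable (fun x => ‖g x‖ ^ 2) volume 0 (2 * Real.pi) := by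
    intro g hg
    rw [intervalIntegrable_iff_integrableOn_Ioc_of_le (by positivity)]
    exact (memLp_two_iff_integrable_sq_norm hg.1).1 hg
  have hsub : uIcc a b ⊆ uIcc 0 (2 * Real.pi) := by
    rw [uIcc_of_le hab, uIcc_of_le (by positivity)]
    exact Icc_subset_Icc ha hb
  constructor
  · have hcs := l1_cs _ hg
    have h2 : (∫ x in (0:ℝ)..(2 * Real.pi), ‖f x - dat γ x‖) ≤ Real.sqrt (2 * Real.pi * ε) := by
      apply Real.le_sqrt_of_sq_le
      exact hcs.trans (mul_le_mul_of_nonneg_left h (by positivity))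
    rw [← intervalIntegral.integral_sub ((hint _ hFf).mono_set hsub)
      ((hint _ hFdat).mono_set hsub)]
    calc ‖∫ x in a..b, F (f x) - F (dat γ x)‖ ≤ ∫ x in a..b, ‖F (f x) - F (dat γ x)‖ :=
          intervalIntegral.norm_integral_le_integral_norm hab
      _ ≤ ∫ x in a..b, L * ‖f x - dat γ x‖ := by
          refine intervalIntegral.integral_mono_on hab ((hint _ hFd).mono_set hsub).norm
            (((hint _ hg).mono_set hsub).norm.const_mul _) fun x _ => hF _ _
      _ ≤ ∫ x in (0:ℝ)..(2 * Real.pi), L * ‖f x - dat γ x‖ := by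
          refine intervalIntegral.integral_mono_interval ha hab hb
            (Eventually.of_forall fun x => by positivity) ((hint _ hg).norm.const_mul _)
      _ = L * ∫ x in (0:ℝ)..(2 * Real.pi), ‖f x - dat γ x‖ :=
          intervalIntegral.integral_const_mul _ _
      _ ≤ _ := mul_le_mul_of_nonneg_left h2 hL
  · calc ∫ x in a..b, ‖F (dat γ x)‖ ^ 2
        ≤ ∫ x in a..b, (2 * ‖F (f x)‖ ^ 2 + 2 * L ^ 2 * ‖f x - dat γ x‖ ^ 2) := by
          refine intervalIntegral.integral_mono_on hab ((hint2 _ hFdat).mono_set hsub)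
            ((((hint2 _ hFf).mono_set hsub).const_mul _).add
              (((hint2 _ hg).mono_set hsub).const_mul _)) fun x _ => ?_
          have h3 := hF (f x) (dat γ x)
          have h4 : ‖F (dat γ x)‖ ≤ ‖F (f x)‖ + ‖F (f x) - F (dat γ x)‖ := by
            have := norm_sub_norm_le (F (dat γ x)) (F (f x))
            rw [norm_sub_rev] at this
            linarith
          have h5 : ‖F (dat γ x)‖ ≤ ‖F (f x)‖ + L * ‖f x - dat γ x‖ := by linarith
          have h6 : ‖F (dat γ x)‖ ^ 2 ≤ (‖F (f x)‖ + L * ‖f x - dat γ x‖) ^ 2 :=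
            pow_le_pow_left₀ (norm_nonneg _) h5 2
          nlinarith [sq_nonneg (‖F (f x)‖ - L * ‖f x - dat γ x‖)]
      _ = 2 * (∫ x in a..b, ‖F (f x)‖ ^ 2) + 2 * L ^ 2 * ∫ x in a..b, ‖f x - dat γ x‖ ^ 2 := by
          rw [intervalIntegral.integral_add (((hint2 _ hFf).mono_set hsub).const_mul _)
              (((hint2 _ hg).mono_set hsub).const_mul _),
            intervalIntegral.integral_const_mul, intervalIntegral.integral_const_mul]
      _ ≤ _ := by
          have h7 : ∫ x in a..b, ‖f x - dat γ x‖ ^ 2 ≤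
              ∫ x in (0:ℝ)..(2 * Real.pi), ‖f x - dat γ x‖ ^ 2 :=
            intervalIntegral.integral_mono_interval ha hab hb
              (Eventually.of_forall fun x => by positivity) (hint2 _ hg)
          have h8 : 0 ≤ 2 * L ^ 2 := by positivity
          nlinarith


end Xl1
end MMT
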