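import Pool.Agent.Helper823.MMT.Defs
open Complex MeasureTheory Filter Topology Set
open scoped ContDiff ENNReal
namespace MMT
namespace Xl2

theorem l2_le_fc (g : ℝ → ℂ) (k : ℤ) :
    fourierCoeffOn (a := 0) (b := 2 * Real.pi) Real.two_pi_pos g k = fc g k := by
  rw [fourierCoeffOn_eq_integral]
  unfold fc
  rw [sub_zero, Complex.real_smul]
  congr 1
  · push_cast; rfl
  · refine intervalIntegral.integral_congr fun x _ => ?_
    simp only [fourier_coe_apply, smul_eq_mul]
    congr 2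
    have hpi : (Real.pi : ℂ) ≠ 0 := by exact_mod_cast Real.pi_ne_zero
    push_cast
    field_simp

theorem l2_le_dat (γ : ℝ) (h1 : 2 * γ < 1) :
    MemLp (dat γ) 2 (volume.restrict (Ioc 0 (2 * Real.pi))) := by
  have hm : AEStronglyMeasurable (dat γ) (volume.restrict (Ioc 0 (2 * Real.pi))) := by
    unfold dat
    refine Measurable.aestronglyMeasurable ?_
    exact Complex.measurable_ofReal.comp (measurable_id.pow_const _)
  rw [memLp_two_iff_integrable_sq_norm hm]
  have h2 : IntervalIntegrable (fun x : ℝ => x ^ (-(2 * γ))) volume 0 (2 * Real.pi) :=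
    intervalIntegral.intervalIntegrable_rpow' (by linarith)
  rw [intervalIntegrable_iff_integrableOn_Ioc_of_le Real.two_pi_pos.le] at h2
  refine h2.congr_fun_ae ?_
  filter_upwards [ae_restrict_mem measurableSet_Ioc] with x hx
  have hx0 : 0 < x := hx.1
  simp only [dat]
  rw [Complex.norm_real, Real.norm_eq_abs, abs_of_nonneg (Real.rpow_nonneg hx0.le _),
    ← Real.rpow_natCast, ← Real.rpow_mul hx0.le]
  congr 1
  push_cast
  ring

theorem l2_le_cont (f : ℝ → ℂ) (hf : Continuous f) :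
    MemLp f 2 (volume.restrict (Ioc 0 (2 * Real.pi))) := by
  rw [memLp_two_iff_integrable_sq_norm hf.aestronglyMeasurable]
  have : Continuous fun x => ‖f x‖ ^ 2 := by fun_prop
  exact (this.integrableOn_Icc (a := 0) (b := 2 * Real.pi)).mono_set Ioc_subset_Icc_self

theorem l2_le_int (g : ℝ → ℂ) (hg : MemLp g 2 (volume.restrict (Ioc 0 (2 * Real.pi)))) (k : ℤ) :
    IntervalIntegrable (fun x : ℝ => cexp (-(I * (k:ℂ) * (x:ℂ))) * g x) volume 0
      (2 * Real.pi) := by
  rw [intervalIntegrable_iff_integrableOn_Ioc_of_le Real.two_pi_pos.le]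
  have h1 : Integrable g (volume.restrict (Ioc 0 (2 * Real.pi))) := hg.integrable (by norm_num)
  refine h1.bdd_mul (c := 1) ?_ (Filter.Eventually.of_forall fun x => ?_)
  · have : Continuous fun x : ℝ => cexp (-(I * (k:ℂ) * (x:ℂ))) := by fun_prop
    exact this.aestronglyMeasurable
  · have : -(I * (k:ℂ) * (x:ℂ)) = ((-(k * x) : ℝ) : ℂ) * I := by push_cast; ring
    rw [this, Complex.norm_exp_ofReal_mul_I]

theorem l2_le (α γ : ℝ) (h0 : 0 < α) (hγ : 0 < γ) (h1 : 2 * γ < 1) (f : ℝ → ℂ) (hf : Continuous f) :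
    ENNReal.ofReal (∫ x in (0:ℝ)..(2 * Real.pi), ‖f x - dat γ x‖ ^ 2) ≤
      ENNReal.ofReal (2 * Real.pi) * hd α (fc f) (fc (dat γ)) := by
  have hpi := Real.two_pi_pos
  have hd1 := l2_le_dat γ h1
  have hf1 := l2_le_cont f hf
  have hg : MemLp (fun x => f x - dat γ x) 2 (volume.restrict (Ioc 0 (2 * Real.pi))) := hf1.sub hd1
  have hfc : ∀ k, fc (fun x => f x - dat γ x) k = fc f k - fc (dat γ) k := by
    intro k
    unfold fc
    rw [← mul_sub, ← intervalIntegral.integral_sub (l2_le_int f hf1 k) (l2_le_int _ hd1 k)]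
    congr 1
    refine intervalIntegral.integral_congr fun x _ => ?_
    simp only [mul_sub]
  have hs := hasSum_sq_fourierCoeffOn (a := 0) (b := 2 * Real.pi) hpi hg
  simp only [l2_le_fc, hfc, sub_zero, smul_eq_mul] at hs
  have hI : ∫ x in (0:ℝ)..(2 * Real.pi), ‖f x - dat γ x‖ ^ 2
      = 2 * Real.pi * ∑' k : ℤ, ‖fc f k - fc (dat γ) k‖ ^ 2 := by
    rw [hs.tsum_eq]
    field_simp
  rw [hI, ENNReal.ofReal_mul hpi.le]
  gcongr
  rw [ENNReal.ofReal_tsum_of_nonneg (fun k => sq_nonneg _) hs.summable]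
  unfold hd
  refine ENNReal.tsum_le_tsum fun k => ENNReal.ofReal_le_ofReal ?_
  have h2 : (1 : ℝ) ≤ (1 + |(k:ℝ)|) ^ α := Real.one_le_rpow (by linarith [abs_nonneg (k:ℝ)]) h0.le
  nlinarith [sq_nonneg ‖fc f k - fc (dat γ) k‖]



end Xl2
end MMT
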