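import Pool.Agent.Helper823.MMT.Defs
open Complex MeasureTheory Filter Topology Set
open scoped ContDiff ENNReal
namespace MMT
namespace Xmemb

lemma dat_mem_exp_norm (k : ℤ) (x : ℝ) : ‖cexp (-(I * (k:ℂ) * (x:ℂ)))‖ = 1 := by
  rw [Complex.norm_exp]
  have : (-(I * (k:ℂ) * (x:ℂ))).re = 0 := by
    simp
  rw [this, Real.exp_zero]

lemma dat_mem_near (γ : ℝ) (hγ1 : γ < 1) (k : ℤ) (a : ℝ) (ha : 0 ≤ a) :
    ‖∫ x in (0:ℝ)..a, cexp (-(I * (k:ℂ) * (x:ℂ))) * dat γ x‖ ≤ a ^ (1 - γ) / (1 - γ) := by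
  have h1 : ‖∫ x in (0:ℝ)..a, cexp (-(I * (k:ℂ) * (x:ℂ))) * dat γ x‖ ≤ ∫ x in (0:ℝ)..a, x ^ (-γ) := by
    refine intervalIntegral.norm_integral_le_of_norm_le ha ?_ (intervalIntegral.intervalIntegrable_rpow' (by linarith))
    refine Filter.Eventually.of_forall fun x hx => ?_
    rw [norm_mul, dat_mem_exp_norm, one_mul, dat, Complex.norm_real, Real.norm_eq_abs,
      abs_of_nonneg (Real.rpow_nonneg hx.1.le _)]
  refine h1.trans (le_of_eq ?_)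
  rw [integral_rpow (Or.inl (by linarith))]
  have : -γ + 1 = 1 - γ := by ring
  rw [this, Real.zero_rpow (by linarith), sub_zero]

lemma dat_mem_far (γ : ℝ) (hγ : 0 < γ) (k : ℤ) (hk : k ≠ 0) (a b : ℝ) (ha : 0 < a) (hab : a ≤ b) :
    ‖∫ x in a..b, cexp (-(I * (k:ℂ) * (x:ℂ))) * dat γ x‖ ≤ 2 * a ^ (-γ) / |(k:ℝ)| := by
  have hkR : 0 < |(k:ℝ)| := abs_pos.2 (by exact_mod_cast hk)
  have hkC : (k:ℂ) ≠ 0 := by exact_mod_cast hk
  have hpos : ∀ x ∈ uIcc a b, 0 < x := fun x hx => by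
    rw [uIcc_of_le hab] at hx; exact ha.trans_le hx.1
  set c : ℂ := -(I * (k:ℂ)) with hc
  have hc0 : c ≠ 0 := by
    rw [hc]; exact neg_ne_zero.2 (mul_ne_zero I_ne_zero hkC)
  have hcn : ‖c‖ = |(k:ℝ)| := by
    rw [hc, norm_neg, norm_mul, norm_I, one_mul]
    rw [Complex.norm_intCast]
  have he : ∀ x : ℝ, cexp (-(I * (k:ℂ) * (x:ℂ))) = cexp (c * (x:ℂ)) := fun x => by
    rw [hc]; congr 1; ring
  have hv : ∀ x ∈ uIcc a b, HasDerivAt (fun x : ℝ => cexp (c * (x:ℂ)) / c) (cexp (c * (x:ℂ))) x := by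
    intro x _
    have h1 : HasDerivAt (fun x : ℝ => c * (x:ℂ)) c x := by
      have := (Complex.ofRealCLM.hasDerivAt (x := x)).const_mul c
      simpa using this
    have h2 := h1.cexp.div_const c
    have h3 : cexp (c * (x:ℂ)) * c / c = cexp (c * (x:ℂ)) := by field_simp
    rw [h3] at h2
    exact h2
  have hu : ∀ x ∈ uIcc a b, HasDerivAt (fun x : ℝ => ((x ^ (-γ) : ℝ) : ℂ))
      (((-γ) * x ^ (-γ - 1) : ℝ) : ℂ) x := by
    intro x hx
    have h1 := Real.hasDerivAt_rpow_const (x := x) (p := -γ) (Or.inl (hpos x hx).ne')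
    exact h1.ofReal_comp
  have hucont : ContinuousOn (fun x : ℝ => (((-γ) * x ^ (-γ - 1) : ℝ) : ℂ)) (uIcc a b) := by
    refine Complex.continuous_ofReal.comp_continuousOn ?_
    refine continuousOn_const.mul ?_
    intro x hx
    exact (Real.continuousAt_rpow_const x _ (Or.inl (hpos x hx).ne')).continuousWithinAt
  have hvcont : Continuous (fun x : ℝ => cexp (c * (x:ℂ))) := by fun_prop
  have hparts := intervalIntegral.integral_mul_deriv_eq_deriv_mul hu hv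
    (hucont.intervalIntegrable) (hvcont.intervalIntegrable _ _)
  have hEq : (∫ x in a..b, cexp (-(I * (k:ℂ) * (x:ℂ))) * dat γ x)
      = ∫ x in a..b, ((x ^ (-γ) : ℝ) : ℂ) * cexp (c * (x:ℂ)) := by
    refine intervalIntegral.integral_congr fun x _ => ?_
    simp only [dat]
    rw [he, mul_comm]
  rw [hEq, hparts]
  have hen : ∀ x : ℝ, ‖cexp (c * (x:ℂ)) / c‖ = 1 / |(k:ℝ)| := fun x => by
    rw [norm_div, ← he, dat_mem_exp_norm, hcn]
  have hb0 : 0 < b := ha.trans_le hab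
  have n1 : ‖((b ^ (-γ) : ℝ) : ℂ) * (cexp (c * (b:ℂ)) / c)‖ = b ^ (-γ) * (1 / |(k:ℝ)|) := by
    rw [norm_mul, hen, Complex.norm_real, Real.norm_eq_abs, abs_of_nonneg (Real.rpow_nonneg hb0.le _)]
  have n2 : ‖((a ^ (-γ) : ℝ) : ℂ) * (cexp (c * (a:ℂ)) / c)‖ = a ^ (-γ) * (1 / |(k:ℝ)|) := by
    rw [norm_mul, hen, Complex.norm_real, Real.norm_eq_abs, abs_of_nonneg (Real.rpow_nonneg ha.le _)]
  have hcont3 : ContinuousOn (fun x : ℝ => γ * x ^ (-γ - 1) * (1 / |(k:ℝ)|)) (uIcc a b) := by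
    refine ContinuousOn.mul (continuousOn_const.mul ?_) continuousOn_const
    intro x hx
    exact (Real.continuousAt_rpow_const x _ (Or.inl (hpos x hx).ne')).continuousWithinAt
  have n3 : ‖∫ x in a..b, (((-γ) * x ^ (-γ - 1) : ℝ) : ℂ) * (cexp (c * (x:ℂ)) / c)‖
      ≤ ∫ x in a..b, γ * x ^ (-γ - 1) * (1 / |(k:ℝ)|) := by
    refine intervalIntegral.norm_integral_le_of_norm_le hab ?_ hcont3.intervalIntegrable
    refine Filter.Eventually.of_forall fun x hx => ?_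
    have hx0 : 0 < x := ha.trans hx.1
    rw [norm_mul, hen, Complex.norm_real, Real.norm_eq_abs, abs_mul, abs_neg, abs_of_pos hγ,
      abs_of_nonneg (Real.rpow_nonneg hx0.le _)]
  have n4 : (∫ x in a..b, γ * x ^ (-γ - 1) * (1 / |(k:ℝ)|)) = (a ^ (-γ) - b ^ (-γ)) * (1 / |(k:ℝ)|) := by
    rw [intervalIntegral.integral_mul_const, intervalIntegral.integral_const_mul]
    rw [integral_rpow (Or.inr ⟨by linarith, fun h => (lt_irrefl _ (hpos 0 h))⟩)]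
    have : -γ - 1 + 1 = -γ := by ring
    rw [this]
    have hγ0 : γ ≠ 0 := hγ.ne'
    field_simp
    ring
  calc ‖((b ^ (-γ) : ℝ) : ℂ) * (cexp (c * (b:ℂ)) / c) - ((a ^ (-γ) : ℝ) : ℂ) * (cexp (c * (a:ℂ)) / c)
        - ∫ x in a..b, (((-γ) * x ^ (-γ - 1) : ℝ) : ℂ) * (cexp (c * (x:ℂ)) / c)‖
      ≤ b ^ (-γ) * (1 / |(k:ℝ)|) + a ^ (-γ) * (1 / |(k:ℝ)|) + (a ^ (-γ) - b ^ (-γ)) * (1 / |(k:ℝ)|) := by
        refine (norm_sub_le _ _).trans ?_
        refine add_le_add ((norm_sub_le _ _).trans (by rw [n1, n2])) (n3.trans n4.le)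
    _ = 2 * a ^ (-γ) / |(k:ℝ)| := by ring

lemma dat_mem_bound (γ : ℝ) (hγ : 0 < γ) (hγ1 : γ < 1) (k : ℤ) (hk : k ≠ 0) :
    ‖fc (dat γ) k‖ ≤ (1 / (1 - γ) + 2) * |(k:ℝ)| ^ (γ - 1) := by
  have hk1 : 1 ≤ |(k:ℝ)| := by
    have h := Int.one_le_abs hk
    exact_mod_cast h
  have hkR : 0 < |(k:ℝ)| := lt_of_lt_of_le one_pos hk1
  set a : ℝ := |(k:ℝ)|⁻¹ with ha
  have ha0 : 0 < a := inv_pos.2 hkR
  have ha1 : a ≤ 1 := inv_le_one_of_one_le₀ hk1
  have hpi := Real.pi_gt_three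
  have hab : a ≤ 2 * Real.pi := by linarith
  have hint : ∀ u v : ℝ, IntervalIntegrable (fun x : ℝ => cexp (-(I * (k:ℂ) * (x:ℂ))) * dat γ x) volume u v := by
    intro u v
    have h0 := intervalIntegral.intervalIntegrable_rpow' (a := u) (b := v) (by linarith : -1 < -γ)
    have h1 : IntervalIntegrable (fun x : ℝ => dat γ x) volume u v :=
      ⟨h0.1.ofReal, h0.2.ofReal⟩
    exact h1.continuousOn_mul (Continuous.continuousOn (by fun_prop))
  have hsplit := intervalIntegral.integral_add_adjacent_intervals (hint 0 a) (hint a (2 * Real.pi))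
  have e1 := dat_mem_near γ hγ1 k a ha0.le
  have e2 := dat_mem_far γ hγ k hk a (2 * Real.pi) ha0 hab
  have p1 : a ^ (1 - γ) = |(k:ℝ)| ^ (γ - 1) := by
    rw [ha, Real.inv_rpow hkR.le, ← Real.rpow_neg hkR.le]
    congr 1; ring
  have p2 : a ^ (-γ) / |(k:ℝ)| = |(k:ℝ)| ^ (γ - 1) := by
    rw [ha, Real.inv_rpow hkR.le, ← Real.rpow_neg hkR.le, neg_neg, Real.rpow_sub_one hkR.ne']
  have hP : 0 ≤ |(k:ℝ)| ^ (γ - 1) := Real.rpow_nonneg hkR.le _
  have e3 : ‖∫ x in (0:ℝ)..(2 * Real.pi), cexp (-(I * (k:ℂ) * (x:ℂ))) * dat γ x‖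
      ≤ (1 / (1 - γ) + 2) * |(k:ℝ)| ^ (γ - 1) := by
    rw [← hsplit]
    refine (norm_add_le _ _).trans ((add_le_add e1 e2).trans (le_of_eq ?_))
    rw [p1, mul_div_assoc, p2]; ring
  rw [fc, norm_mul]
  have hq : ‖(1 / (2 * Real.pi) : ℂ)‖ ≤ 1 := by
    have : (1 / (2 * Real.pi) : ℂ) = ((1 / (2 * Real.pi) : ℝ) : ℂ) := by push_cast; ring
    rw [this, Complex.norm_real, Real.norm_eq_abs, abs_of_pos (by positivity)]
    rw [div_le_one (by positivity)]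
    linarith
  calc ‖(1 / (2 * Real.pi) : ℂ)‖ * ‖∫ x in (0:ℝ)..(2 * Real.pi), cexp (-(I * (k:ℂ) * (x:ℂ))) * dat γ x‖
      ≤ 1 * ((1 / (1 - γ) + 2) * |(k:ℝ)| ^ (γ - 1)) :=
        mul_le_mul hq e3 (norm_nonneg _) zero_le_one
    _ = _ := one_mul _

theorem dat_mem (α γ : ℝ) (h0 : 0 < α) (hγ : 0 < γ) (h1 : α + 2 * γ < 1) : hd α (fc (dat γ)) 0 < ⊤ := by
  have hγ1 : γ < 1 := by linarith
  set C : ℝ := 1 / (1 - γ) + 2 with hC
  have hC0 : 0 ≤ C := by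
    have : 0 < 1 - γ := by linarith
    positivity
  have hs : Summable (fun k : ℤ => |(k:ℝ)| ^ (-(2 - α - 2 * γ))) :=
    Real.summable_abs_int_rpow (by linarith)
  have hs2 : Summable (fun k : ℤ => 2 ^ α * C ^ 2 * |(k:ℝ)| ^ (-(2 - α - 2 * γ))) := hs.mul_left _
  have hs3 : Summable (fun k : ℤ => if k = 0 then ‖fc (dat γ) 0‖ ^ 2 else 0) := by
    refine summable_of_ne_finset_zero (s := {0}) fun k hk => ?_
    rw [if_neg (by simpa using hk)]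
  have hle : ∀ k : ℤ, (1 + |(k:ℝ)|) ^ α * ‖fc (dat γ) k - (0 : ℤ → ℂ) k‖ ^ 2
      ≤ 2 ^ α * C ^ 2 * |(k:ℝ)| ^ (-(2 - α - 2 * γ)) + (if k = 0 then ‖fc (dat γ) 0‖ ^ 2 else 0) := by
    intro k
    by_cases hk : k = 0
    · subst hk
      simp only [Int.cast_zero, abs_zero, add_zero, Real.one_rpow, one_mul, Pi.zero_apply, sub_zero, if_true]
      have : 0 ≤ 2 ^ α * C ^ 2 * (0:ℝ) ^ (-(2 - α - 2 * γ)) :=
        mul_nonneg (by positivity) (Real.rpow_nonneg le_rfl _)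
      linarith
    · rw [if_neg hk, add_zero]
      simp only [Pi.zero_apply, sub_zero]
      have hk1 : 1 ≤ |(k:ℝ)| := by
        have h := Int.one_le_abs hk
        exact_mod_cast h
      have hkR : 0 < |(k:ℝ)| := lt_of_lt_of_le one_pos hk1
      have b1 : (1 + |(k:ℝ)|) ^ α ≤ 2 ^ α * |(k:ℝ)| ^ α := by
        rw [← Real.mul_rpow (by norm_num) hkR.le]
        exact Real.rpow_le_rpow (by positivity) (by linarith) h0.le
      have b2 : ‖fc (dat γ) k‖ ^ 2 ≤ C ^ 2 * |(k:ℝ)| ^ (2 * (γ - 1)) := by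
        have := dat_mem_bound γ hγ hγ1 k hk
        calc ‖fc (dat γ) k‖ ^ 2 ≤ (C * |(k:ℝ)| ^ (γ - 1)) ^ 2 :=
              pow_le_pow_left₀ (norm_nonneg _) this 2
          _ = C ^ 2 * |(k:ℝ)| ^ (2 * (γ - 1)) := by
              rw [mul_pow, ← Real.rpow_natCast (|(k:ℝ)| ^ (γ - 1)) 2, ← Real.rpow_mul hkR.le]
              congr 2
              push_cast; ring
      calc (1 + |(k:ℝ)|) ^ α * ‖fc (dat γ) k‖ ^ 2
          ≤ (2 ^ α * |(k:ℝ)| ^ α) * (C ^ 2 * |(k:ℝ)| ^ (2 * (γ - 1))) :=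
            mul_le_mul b1 b2 (by positivity) (by positivity)
        _ = 2 ^ α * C ^ 2 * (|(k:ℝ)| ^ α * |(k:ℝ)| ^ (2 * (γ - 1))) := by ring
        _ = 2 ^ α * C ^ 2 * |(k:ℝ)| ^ (-(2 - α - 2 * γ)) := by
            rw [← Real.rpow_add hkR]
            congr 2
            ring
  have hsum : Summable (fun k : ℤ => (1 + |(k:ℝ)|) ^ α * ‖fc (dat γ) k - (0 : ℤ → ℂ) k‖ ^ 2) :=
    Summable.of_nonneg_of_le (fun k => by positivity) hle (hs2.add hs3)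
  have := hsum.tsum_ofReal_lt_top
  exact this


end Xmemb
end MMT
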