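import Pool.Agent.Helper823.MMT.Defs
open Complex MeasureTheory Filter Topology Set
open scoped ContDiff ENNReal
namespace MMT
namespace Xmullow

theorem mult_lower_norm (θ : ℝ) : ‖cexp ((θ : ℂ) * I) - 1‖ ^ 2 = 2 - 2 * Real.cos θ := by
  rw [Complex.sq_norm, Complex.normSq_apply]
  simp only [Complex.sub_re, Complex.sub_im, Complex.exp_ofReal_mul_I_re,
    Complex.exp_ofReal_mul_I_im, Complex.one_re, Complex.one_im]
  have := Real.sin_sq_add_cos_sq θ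
  nlinarith

theorem mult_lower (α : ℝ) (h0 : 0 < α) (h1 : α < 1) (k : ℤ) : ∃ n0 : ℕ, ∀ n ≥ n0,
    sym α k ≤ ∑ j ∈ Finset.range n, (2:ℝ) ^ (α * j) *
      ‖cexp (I * (k:ℂ) * ((Real.pi / 2 ^ j : ℝ) : ℂ)) - 1‖ ^ 2 := by
  by_cases hk : k = 0
  · refine ⟨0, fun n _ => ?_⟩
    rw [sym, if_pos hk]
    positivity
  have hex : ∃ j : ℕ, k.natAbs ≤ 2 ^ j := ⟨k.natAbs, Nat.lt_two_pow_self.le⟩
  classical
  set j := Nat.find hex with hj
  have hj1 : k.natAbs ≤ 2 ^ j := Nat.find_spec hex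
  have hm : 1 ≤ k.natAbs := Int.natAbs_pos.2 hk
  have hj2 : 2 ^ j < 2 * k.natAbs := by
    rcases Nat.eq_zero_or_pos j with h | h
    · rw [h]; omega
    · have := Nat.find_min hex (m := j - 1) (by omega)
      push Not at this
      calc 2 ^ j = 2 * 2 ^ (j - 1) := by rw [← pow_succ']; congr 1; omega
        _ < 2 * k.natAbs := by omega
  have hc : ((k.natAbs : ℕ) : ℝ) = |(k : ℝ)| := by
    rw [Nat.cast_natAbs]; push_cast; rfl
  have hj1' : |(k : ℝ)| ≤ 2 ^ j := by rw [← hc]; exact_mod_cast hj1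
  have hj2' : (2 : ℝ) ^ j < 2 * |(k : ℝ)| := by rw [← hc]; exact_mod_cast hj2
  refine ⟨j + 1, fun n hn => ?_⟩
  rw [sym, if_neg hk]
  have hterm : |(k : ℝ)| ^ α ≤ (2:ℝ) ^ (α * j) *
      ‖cexp (I * (k:ℂ) * ((Real.pi / 2 ^ j : ℝ) : ℂ)) - 1‖ ^ 2 := by
    have e : I * (k:ℂ) * ((Real.pi / 2 ^ j : ℝ) : ℂ) = (((k : ℝ) * (Real.pi / 2 ^ j) : ℝ) : ℂ) * I := by
      push_cast; ring
    rw [e, mult_lower_norm]
    have hcos : Real.cos ((k : ℝ) * (Real.pi / 2 ^ j)) ≤ 0 := by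
      rw [← Real.cos_abs, abs_mul, abs_of_pos (by positivity : (0:ℝ) < Real.pi / 2 ^ j)]
      have hp : (0 : ℝ) < 2 ^ j := by positivity
      apply Real.cos_nonpos_of_pi_div_two_le_of_le
      · rw [← mul_div_assoc, div_le_div_iff₀ (by norm_num) hp]
        nlinarith [Real.pi_pos]
      · rw [← mul_div_assoc, div_le_iff₀ hp]
        nlinarith [Real.pi_pos]
    have h2 : |(k : ℝ)| ^ α ≤ (2:ℝ) ^ (α * j) := by
      calc |(k : ℝ)| ^ α ≤ ((2:ℝ) ^ j) ^ α := Real.rpow_le_rpow (abs_nonneg _) hj1' h0.le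
        _ = (2:ℝ) ^ (α * j) := by
          rw [← Real.rpow_natCast, ← Real.rpow_mul (by norm_num)]
          congr 1
          ring
    have h3 : (0 : ℝ) < (2:ℝ) ^ (α * j) := by positivity
    nlinarith
  refine hterm.trans ?_
  exact Finset.single_le_sum (f := fun j : ℕ => (2:ℝ) ^ (α * j) *
      ‖cexp (I * (k:ℂ) * ((Real.pi / 2 ^ j : ℝ) : ℂ)) - 1‖ ^ 2) (fun i _ => by positivity)
      (Finset.mem_range.2 (by omega))


end Xmullow
end MMT
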