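import Pool.Agent.Helper823.MMT.Defs
open Complex MeasureTheory Filter Topology Set
open scoped ContDiff ENNReal
namespace MMT
namespace Xmulup

theorem mult_upper (α : ℝ) (h0 : 0 < α) (h1 : α < 1) : ∃ C : ℝ, 0 < C ∧ ∀ (k : ℤ) (n : ℕ),
    ∑ j ∈ Finset.range n, (2:ℝ) ^ (α * j) * ‖cexp (I * (k:ℂ) * ((Real.pi / 2 ^ j : ℝ) : ℂ)) - 1‖ ^ 2
      ≤ C * sym α k := by
  set a : ℝ := (2:ℝ) ^ α with ha
  have ha1 : 1 < a := Real.one_lt_rpow (by norm_num) h0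
  have ha2 : a < 2 := by
    calc a < (2:ℝ) ^ (1:ℝ) := Real.rpow_lt_rpow_of_exponent_lt (by norm_num) h1
      _ = 2 := Real.rpow_one 2
  set b : ℝ := a / 4 with hb
  have hb0 : 0 < b := by positivity
  have hb1 : b < 1 := by rw [hb]; linarith
  have hC : 0 < 4 * a / (a - 1) + Real.pi ^ 2 * a / (1 - b) := by
    have : 0 < a - 1 := by linarith
    have : 0 < 1 - b := by linarith
    have := Real.pi_pos
    positivity
  refine ⟨4 * a / (a - 1) + Real.pi ^ 2 * a / (1 - b), hC, ?_⟩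
  intro k n
  by_cases hk : k = 0
  · subst hk
    unfold sym
    simp
  have hsym : sym α k = |(k:ℝ)| ^ α := by
    unfold sym
    rw [if_neg hk]
  set K : ℝ := |(k:ℝ)| with hK
  have hKnat : ((k.natAbs : ℕ) : ℝ) = K := by
    rw [hK, Nat.cast_natAbs, Int.cast_abs]
  have hnz : k.natAbs ≠ 0 := Int.natAbs_ne_zero.2 hk
  set m : ℕ := Nat.log 2 k.natAbs with hm
  have hm1 : (2:ℝ) ^ m ≤ K := by
    rw [← hKnat]
    exact_mod_cast Nat.pow_log_le_self 2 hnz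
  have hm2 : K ≤ (2:ℝ) ^ (m + 1) := by
    rw [← hKnat]
    exact_mod_cast (Nat.lt_pow_succ_log_self (by norm_num : 1 < 2) k.natAbs).le
  have hK0 : 0 < K := lt_of_lt_of_le (by positivity) hm1
  have hrp : ∀ j : ℕ, (2:ℝ) ^ (α * j) = a ^ j := by
    intro j
    rw [Real.rpow_mul (by norm_num), Real.rpow_natCast]
  have hexp : ∀ j : ℕ, cexp (I * (k:ℂ) * ((Real.pi / 2 ^ j : ℝ) : ℂ)) =
      cexp (I * (((k:ℝ) * (Real.pi / 2 ^ j) : ℝ) : ℂ)) := by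
    intro j
    congr 1
    push_cast
    ring
  have t1 : ∀ j : ℕ, (2:ℝ) ^ (α * j) *
      ‖cexp (I * (k:ℂ) * ((Real.pi / 2 ^ j : ℝ) : ℂ)) - 1‖ ^ 2 ≤ 4 * a ^ j := by
    intro j
    rw [hrp, hexp]
    have h2 : ‖cexp (I * (((k:ℝ) * (Real.pi / 2 ^ j) : ℝ) : ℂ)) - 1‖ ≤ 2 := by
      refine (norm_sub_le _ _).trans ?_
      rw [mul_comm, Complex.norm_exp_ofReal_mul_I, norm_one]
      norm_num
    have h3 : ‖cexp (I * (((k:ℝ) * (Real.pi / 2 ^ j) : ℝ) : ℂ)) - 1‖ ^ 2 ≤ 2 ^ 2 :=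
      pow_le_pow_left₀ (norm_nonneg _) h2 2
    have h4 : 0 ≤ a ^ j := by positivity
    nlinarith
  have t2 : ∀ j : ℕ, (2:ℝ) ^ (α * j) *
      ‖cexp (I * (k:ℂ) * ((Real.pi / 2 ^ j : ℝ) : ℂ)) - 1‖ ^ 2 ≤ Real.pi ^ 2 * K ^ 2 * b ^ j := by
    intro j
    rw [hrp, hexp]
    have h2 : ‖cexp (I * (((k:ℝ) * (Real.pi / 2 ^ j) : ℝ) : ℂ)) - 1‖ ≤
        ‖(k:ℝ) * (Real.pi / 2 ^ j)‖ := Real.norm_exp_I_mul_ofReal_sub_one_le
    have h3 : ‖cexp (I * (((k:ℝ) * (Real.pi / 2 ^ j) : ℝ) : ℂ)) - 1‖ ^ 2 ≤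
        ‖(k:ℝ) * (Real.pi / 2 ^ j)‖ ^ 2 := pow_le_pow_left₀ (norm_nonneg _) h2 2
    have h4 : 0 ≤ a ^ j := by positivity
    calc a ^ j * ‖cexp (I * (((k:ℝ) * (Real.pi / 2 ^ j) : ℝ) : ℂ)) - 1‖ ^ 2
        ≤ a ^ j * ‖(k:ℝ) * (Real.pi / 2 ^ j)‖ ^ 2 := mul_le_mul_of_nonneg_left h3 h4
      _ = Real.pi ^ 2 * K ^ 2 * b ^ j := by
          rw [Real.norm_eq_abs, sq_abs, hK, sq_abs, hb, div_pow a 4 j,
            show (4:ℝ) ^ j = (2 ^ j) ^ 2 by rw [← pow_mul, mul_comm, pow_mul]; norm_num]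
          field_simp
  set S : ℕ → ℝ := fun n => ∑ j ∈ Finset.range n, (2:ℝ) ^ (α * j) *
    ‖cexp (I * (k:ℂ) * ((Real.pi / 2 ^ j : ℝ) : ℂ)) - 1‖ ^ 2 with hS
  have hSs : ∀ n, S (n + 1) = S n + (2:ℝ) ^ (α * n) *
      ‖cexp (I * (k:ℂ) * ((Real.pi / 2 ^ n : ℝ) : ℂ)) - 1‖ ^ 2 := fun n =>
    Finset.sum_range_succ _ _
  have hSm : Monotone S := by
    apply monotone_nat_of_le_succ
    intro n
    rw [hSs]
    have : 0 ≤ (2:ℝ) ^ (α * n) *
      ‖cexp (I * (k:ℂ) * ((Real.pi / 2 ^ n : ℝ) : ℂ)) - 1‖ ^ 2 := by positivity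
    linarith
  have p1 : ∀ n : ℕ, S n ≤ 4 * a ^ n / (a - 1) := by
    intro n
    have hpos : 0 < a - 1 := by linarith
    induction n with
    | zero =>
      have : S 0 = 0 := by simp [hS]
      rw [this]
      positivity
    | succ n ih =>
      rw [hSs]
      have h2 := t1 n
      have h3 : 4 * a ^ n / (a - 1) + 4 * a ^ n = 4 * a ^ (n + 1) / (a - 1) := by
        field_simp
        ring
      linarith
  have p2 : ∀ i : ℕ, S (m + 1 + i) ≤ 4 * a ^ (m + 1) / (a - 1) +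
      Real.pi ^ 2 * K ^ 2 * ((b ^ (m + 1) - b ^ (m + 1 + i)) / (1 - b)) := by
    intro i
    have hpos : 0 < 1 - b := by linarith
    induction i with
    | zero =>
      have := p1 (m + 1)
      simpa using this
    | succ i ih =>
      rw [← add_assoc, hSs]
      have h2 := t2 (m + 1 + i)
      have h3 : (b ^ (m + 1) - b ^ (m + 1 + i)) / (1 - b) + b ^ (m + 1 + i) =
          (b ^ (m + 1) - b ^ (m + 1 + i + 1)) / (1 - b) := by
        field_simp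
        ring
      rw [← h3]
      have h4 : Real.pi ^ 2 * K ^ 2 * ((b ^ (m + 1) - b ^ (m + 1 + i)) / (1 - b) +
          b ^ (m + 1 + i)) = Real.pi ^ 2 * K ^ 2 * ((b ^ (m + 1) - b ^ (m + 1 + i)) / (1 - b)) +
          Real.pi ^ 2 * K ^ 2 * b ^ (m + 1 + i) := by ring
      rw [h4]
      linarith
  have hfin : S n ≤ 4 * a ^ (m + 1) / (a - 1) + Real.pi ^ 2 * K ^ 2 * (b ^ (m + 1) / (1 - b)) := by
    have hpos : 0 < 1 - b := by linarith
    have q1 : S n ≤ S (m + 1 + n) := hSm (by omega)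
    have q2 := p2 n
    have q3 : (b ^ (m + 1) - b ^ (m + 1 + n)) / (1 - b) ≤ b ^ (m + 1) / (1 - b) := by
      apply div_le_div_of_nonneg_right _ hpos.le
      have : 0 ≤ b ^ (m + 1 + n) := by positivity
      linarith
    have q4 : Real.pi ^ 2 * K ^ 2 * ((b ^ (m + 1) - b ^ (m + 1 + n)) / (1 - b)) ≤
        Real.pi ^ 2 * K ^ 2 * (b ^ (m + 1) / (1 - b)) :=
      mul_le_mul_of_nonneg_left q3 (by positivity)
    linarith
  have ham : a ^ m ≤ K ^ α := by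
    have : a ^ m = ((2:ℝ) ^ m) ^ α := by
      rw [ha, ← Real.rpow_natCast, ← Real.rpow_mul (by norm_num), ← Real.rpow_natCast 2 m,
        ← Real.rpow_mul (by norm_num), mul_comm]
    rw [this]
    exact Real.rpow_le_rpow (by positivity) hm1 h0.le
  have ham1 : a ^ (m + 1) ≤ a * K ^ α := by
    rw [pow_succ, mul_comm]
    exact mul_le_mul_of_nonneg_left ham (by positivity)
  have hbm : K ^ 2 * b ^ (m + 1) ≤ a * K ^ α := by
    have h4 : K ^ 2 ≤ 4 ^ (m + 1) := by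
      calc K ^ 2 ≤ ((2:ℝ) ^ (m + 1)) ^ 2 := pow_le_pow_left₀ hK0.le hm2 2
        _ = 4 ^ (m + 1) := by rw [← pow_mul, mul_comm, pow_mul]; norm_num
    have h5 : K ^ 2 * b ^ (m + 1) = a ^ (m + 1) * (K ^ 2 / 4 ^ (m + 1)) := by
      rw [hb, div_pow]
      ring
    rw [h5]
    have h6 : K ^ 2 / 4 ^ (m + 1) ≤ 1 := (div_le_one (by positivity)).2 h4
    calc a ^ (m + 1) * (K ^ 2 / 4 ^ (m + 1)) ≤ a ^ (m + 1) * 1 :=
          mul_le_mul_of_nonneg_left h6 (by positivity)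
      _ ≤ a * K ^ α := by rw [mul_one]; exact ham1
  rw [hsym]
  change S n ≤ _
  have hpa : 0 < a - 1 := by linarith
  have hpb : 0 < 1 - b := by linarith
  have f1 : 4 * a ^ (m + 1) / (a - 1) ≤ 4 * (a * K ^ α) / (a - 1) := by
    apply div_le_div_of_nonneg_right _ hpa.le
    linarith
  have f2 : Real.pi ^ 2 * K ^ 2 * (b ^ (m + 1) / (1 - b)) ≤
      Real.pi ^ 2 * (a * K ^ α) / (1 - b) := by
    have : Real.pi ^ 2 * K ^ 2 * (b ^ (m + 1) / (1 - b)) =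
        Real.pi ^ 2 * (K ^ 2 * b ^ (m + 1)) / (1 - b) := by ring
    rw [this]
    apply div_le_div_of_nonneg_right _ hpb.le
    exact mul_le_mul_of_nonneg_left hbm (by positivity)
  calc S n ≤ _ := hfin
    _ ≤ 4 * (a * K ^ α) / (a - 1) + Real.pi ^ 2 * (a * K ^ α) / (1 - b) := add_le_add f1 f2
    _ = _ := by ring


end Xmulup
end MMT
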