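import Pool.Agent.Helper823.MMT.Defs
open Complex MeasureTheory Filter Topology Set
open scoped ContDiff ENNReal
namespace MMT
namespace Xnbsb


theorem NB_to_SB_aux (α C : ℝ) (hC : 0 < C) (f : ℝ → ℂ) (B : ℝ)
    (hP : ∀ h : ℝ, HasSum (fun k : ℤ => 2 * Real.pi * (‖cexp (I * (k:ℂ) * (h:ℂ)) - 1‖ ^ 2 * ‖fc f k‖ ^ 2)) (Dif f h))
    (hM : ∀ (k : ℤ) (n : ℕ), ∑ j ∈ Finset.range n, (2:ℝ) ^ (α * j) * ‖cexp (I * (k:ℂ) * ((Real.pi / 2 ^ j : ℝ) : ℂ)) - 1‖ ^ 2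
      ≤ C * sym α k) (h : NB α f B) : SB α f (2 * Real.pi * C * B) := by
  intro n
  have HS : HasSum (fun k : ℤ => ∑ j ∈ Finset.range n, (2:ℝ) ^ (α * j) * (2 * Real.pi *
      (‖cexp (I * (k:ℂ) * ((Real.pi / 2 ^ j : ℝ) : ℂ)) - 1‖ ^ 2 * ‖fc f k‖ ^ 2)))
      (∑ j ∈ Finset.range n, (2:ℝ) ^ (α * j) * Dif f (Real.pi / 2 ^ j)) :=
    hasSum_sum (fun j _ => (hP (Real.pi / 2 ^ j)).mul_left _)
  refine hasSum_le_of_sum_le HS ?_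
  intro s
  have hpi := Real.pi_pos
  calc ∑ k ∈ s, ∑ j ∈ Finset.range n, (2:ℝ) ^ (α * j) * (2 * Real.pi *
      (‖cexp (I * (k:ℂ) * ((Real.pi / 2 ^ j : ℝ) : ℂ)) - 1‖ ^ 2 * ‖fc f k‖ ^ 2))
      = ∑ k ∈ s, (2 * Real.pi * ‖fc f k‖ ^ 2) * ∑ j ∈ Finset.range n, (2:ℝ) ^ (α * j) *
      ‖cexp (I * (k:ℂ) * ((Real.pi / 2 ^ j : ℝ) : ℂ)) - 1‖ ^ 2 := by
        refine Finset.sum_congr rfl fun k _ => ?_
        rw [Finset.mul_sum]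
        refine Finset.sum_congr rfl fun j _ => ?_
        ring
    _ ≤ ∑ k ∈ s, (2 * Real.pi * ‖fc f k‖ ^ 2) * (C * sym α k) := by
        refine Finset.sum_le_sum fun k _ => ?_
        exact mul_le_mul_of_nonneg_left (hM k n) (by positivity)
    _ = (2 * Real.pi * C) * ∑ k ∈ s, sym α k * ‖fc f k‖ ^ 2 := by
        rw [Finset.mul_sum]
        refine Finset.sum_congr rfl fun k _ => ?_
        ring
    _ ≤ 2 * Real.pi * C * B := mul_le_mul_of_nonneg_left (h s) (by positivity)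

theorem SB_to_NB_aux (α : ℝ) (f : ℝ → ℂ) (B : ℝ)
    (hP : ∀ h : ℝ, HasSum (fun k : ℤ => 2 * Real.pi * (‖cexp (I * (k:ℂ) * (h:ℂ)) - 1‖ ^ 2 * ‖fc f k‖ ^ 2)) (Dif f h))
    (hM : ∀ k : ℤ, ∃ n0 : ℕ, ∀ n ≥ n0, sym α k ≤ ∑ j ∈ Finset.range n, (2:ℝ) ^ (α * j) *
      ‖cexp (I * (k:ℂ) * ((Real.pi / 2 ^ j : ℝ) : ℂ)) - 1‖ ^ 2) (h : SB α f B) : NB α f B := by
  intro s
  choose n0 hn0 using hM
  obtain ⟨n, hn⟩ : ∃ n, n = s.sup n0 := ⟨_, rfl⟩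
  have hle : ∀ k ∈ s, n0 k ≤ n := fun k hk => hn ▸ Finset.le_sup hk
  have hpi := Real.pi_gt_three
  calc ∑ k ∈ s, sym α k * ‖fc f k‖ ^ 2
      ≤ ∑ k ∈ s, (∑ j ∈ Finset.range n, (2:ℝ) ^ (α * j) *
      ‖cexp (I * (k:ℂ) * ((Real.pi / 2 ^ j : ℝ) : ℂ)) - 1‖ ^ 2) * ‖fc f k‖ ^ 2 := by
        refine Finset.sum_le_sum fun k hk => ?_
        exact mul_le_mul_of_nonneg_right (hn0 k n (hle k hk)) (by positivity)
    _ = ∑ j ∈ Finset.range n, (2:ℝ) ^ (α * j) * ∑ k ∈ s,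
      (‖cexp (I * (k:ℂ) * ((Real.pi / 2 ^ j : ℝ) : ℂ)) - 1‖ ^ 2 * ‖fc f k‖ ^ 2) := by
        simp_rw [Finset.sum_mul, Finset.mul_sum]
        rw [Finset.sum_comm]
        refine Finset.sum_congr rfl fun j _ => Finset.sum_congr rfl fun k _ => ?_
        ring
    _ ≤ ∑ j ∈ Finset.range n, (2:ℝ) ^ (α * j) * Dif f (Real.pi / 2 ^ j) := by
        refine Finset.sum_le_sum fun j _ => ?_
        refine mul_le_mul_of_nonneg_left ?_ (by positivity)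
        refine le_trans ?_ (sum_le_hasSum s (fun k _ => by positivity) (hP (Real.pi / 2 ^ j)))
        refine Finset.sum_le_sum fun k _ => ?_
        have h1 : 0 ≤ ‖cexp (I * (k:ℂ) * ((Real.pi / 2 ^ j : ℝ) : ℂ)) - 1‖ ^ 2 * ‖fc f k‖ ^ 2 := by
          positivity
        nlinarith
    _ ≤ B := h n

theorem dif_le_aux_mult (α : ℝ) (h0 : 0 < α) (h1 : α < 1) (k : ℤ) (h : ℝ) (hh : 0 < h) :
    ‖cexp (I * (k:ℂ) * (h:ℂ)) - 1‖ ^ 2 ≤ 4 * h ^ α * sym α k := by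
  unfold sym
  by_cases hk : k = 0
  · subst hk
    simp
  · rw [if_neg hk]
    have hk' : (1:ℝ) ≤ |(k:ℝ)| := by
      have := Int.one_le_abs hk
      exact_mod_cast this
    obtain ⟨θ, hθ⟩ : ∃ θ : ℝ, θ = k * h := ⟨_, rfl⟩
    have e1 : I * (k:ℂ) * (h:ℂ) = I * (θ : ℂ) := by
      rw [hθ]; push_cast; ring
    have e2 : h ^ α * |(k:ℝ)| ^ α = |θ| ^ α := by
      rw [hθ, abs_mul, abs_of_pos hh, Real.mul_rpow (by positivity) hh.le, mul_comm]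
    rw [e1, mul_assoc 4 _ _, e2]
    have hθ0 : 0 < |θ| := by
      rw [hθ, abs_mul, abs_of_pos hh]
      positivity
    have b1 : ‖cexp (I * (θ:ℂ)) - 1‖ ≤ |θ| := by
      have := Real.norm_exp_I_mul_ofReal_sub_one_le (x := θ)
      simpa using this
    have b2 : ‖cexp (I * (θ:ℂ)) - 1‖ ≤ 2 := by
      calc ‖cexp (I * (θ:ℂ)) - 1‖ ≤ ‖cexp (I * (θ:ℂ))‖ + ‖(1:ℂ)‖ := norm_sub_le _ _
        _ = 2 := by rw [Complex.norm_exp_I_mul_ofReal, norm_one]; norm_num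
    have b0 := norm_nonneg (cexp (I * (θ:ℂ)) - 1)
    rcases le_total |θ| 1 with h3 | h3
    · have h4 : |θ| ^ (2:ℝ) ≤ |θ| ^ α := Real.rpow_le_rpow_of_exponent_ge hθ0 h3 (by linarith)
      rw [Real.rpow_two] at h4
      nlinarith
    · have h4 : 1 ≤ |θ| ^ α := Real.one_le_rpow h3 h0.le
      nlinarith

theorem dif_le_aux (α : ℝ) (h0 : 0 < α) (h1 : α < 1) (f : ℝ → ℂ) (B : ℝ)
    (hP : ∀ h : ℝ, HasSum (fun k : ℤ => 2 * Real.pi * (‖cexp (I * (k:ℂ) * (h:ℂ)) - 1‖ ^ 2 * ‖fc f k‖ ^ 2)) (Dif f h))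
    (hB : NB α f B) (h : ℝ) (hh : 0 < h) : Dif f h ≤ 8 * Real.pi * B * h ^ α := by
  refine hasSum_le_of_sum_le (hP h) ?_
  intro s
  have hpi := Real.pi_pos
  calc ∑ k ∈ s, 2 * Real.pi * (‖cexp (I * (k:ℂ) * (h:ℂ)) - 1‖ ^ 2 * ‖fc f k‖ ^ 2)
      ≤ ∑ k ∈ s, 2 * Real.pi * ((4 * h ^ α * sym α k) * ‖fc f k‖ ^ 2) := by
        refine Finset.sum_le_sum fun k _ => ?_
        refine mul_le_mul_of_nonneg_left ?_ (by positivity)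
        exact mul_le_mul_of_nonneg_right (dif_le_aux_mult α h0 h1 k h hh) (by positivity)
    _ = (8 * Real.pi * h ^ α) * ∑ k ∈ s, sym α k * ‖fc f k‖ ^ 2 := by
        rw [Finset.mul_sum]
        refine Finset.sum_congr rfl fun k _ => ?_
        ring
    _ ≤ (8 * Real.pi * h ^ α) * B := mul_le_mul_of_nonneg_left (hB s) (by positivity)
    _ = 8 * Real.pi * B * h ^ α := by ring


end Xnbsb
end MMT
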