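import Pool.Agent.Helper823.MMT.Defs
open Complex MeasureTheory Filter Topology Set
open scoped ContDiff ENNReal
namespace MMT
namespace Xnum

theorem num_final_tend (e : ℝ) (he : 0 < e) : Tendsto (fun r : ℝ => r ^ e) (𝓝 0) (𝓝 0) := by
  have h := (Real.continuousAt_rpow_const 0 e (Or.inr he.le)).tendsto
  rwa [Real.zero_rpow he.ne'] at h

theorem num_final (α δ μ γ C B : ℝ) (h0 : 0 < α) (h1 : α < 1 / 2) (hδ : δ = α * (1 - 2 * α) / 32)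
    (hμ : μ = (1 - 2 * α) / 16) (hγ : γ = (1 - α - δ) / 2) (hC : 0 < C) (hB : 1 ≤ B) :
    ∃ r0 : ℝ, 0 < r0 ∧ ∀ r : ℝ, 0 < r → r < r0 →
      C * (r ^ (2 * γ - 2 * μ) * B +
        r / (r ^ (1 + μ)) ^ 2 * (r ^ (γ + 1) / r ^ (2 * γ - 2 * μ) + r ^ (2 * γ - 2 * μ) * B * (r ^ (-(2 * μ))) ^ 2 / r ^ (-γ) +
          r ^ (2 * γ - 2 * μ) * B * r ^ (-(2 * μ)) * (r ^ (1 + μ)) ^ ((1 - α) / 2)) ^ 2 +
        (r ^ (1 + μ)) ^ α * B) < r ^ (1 - 2 * γ) := by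
  have hμ0 : 0 < μ := by rw [hμ]; linarith
  have hδ' : δ = α * μ / 2 := by rw [hδ, hμ]; ring
  have h16 : 1 - 2 * α = 16 * μ := by rw [hμ]; ring
  obtain ⟨e1, he1⟩ : ∃ e1, e1 = 4 * γ - 1 - 2 * μ := ⟨_, rfl⟩
  obtain ⟨e2, he2⟩ : ∃ e2, e2 = 4 * γ - 1 - 7 * μ := ⟨_, rfl⟩
  obtain ⟨e3, he3⟩ : ∃ e3, e3 = 3 * γ - 1 - 5 * μ + (1 + μ) * ((1 - α) / 2) := ⟨_, rfl⟩
  obtain ⟨e4, he4⟩ : ∃ e4, e4 = (1 + μ) * α - (1 - 2 * γ) := ⟨_, rfl⟩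
  have p1 : 0 < e1 := by
    have : e1 = μ * (14 - α) := by rw [he1, hγ, hδ']; linear_combination h16
    rw [this]
    exact mul_pos hμ0 (by linarith)
  have p2 : 0 < e2 := by
    have : e2 = μ * (9 - α) := by rw [he2, hγ, hδ']; linear_combination h16
    rw [this]
    exact mul_pos hμ0 (by linarith)
  have p3 : 0 < e3 := by
    have : e3 = μ * (23 / 2 - 5 / 4 * α) := by rw [he3, hγ, hδ']; linear_combination h16
    rw [this]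
    exact mul_pos hμ0 (by linarith)
  have p4 : 0 < e4 := by
    have : e4 = μ * (α / 2) := by rw [he4, hγ, hδ']; ring
    rw [this]
    exact mul_pos hμ0 (by linarith)
  have hlim : Tendsto (fun r : ℝ => C * (r ^ e1 * B + (r ^ μ + B * r ^ e2 + B * r ^ e3) ^ 2 +
      r ^ e4 * B)) (𝓝 0) (𝓝 (C * (0 * B + (0 + B * 0 + B * 0) ^ 2 + 0 * B))) := by
    refine Tendsto.const_mul C ?_
    refine Tendsto.add (Tendsto.add ((num_final_tend e1 p1).mul_const B) ?_)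
      ((num_final_tend e4 p4).mul_const B)
    refine Tendsto.pow ?_ 2
    exact ((num_final_tend μ hμ0).add ((num_final_tend e2 p2).const_mul B)).add
      ((num_final_tend e3 p3).const_mul B)
  have hz : C * (0 * B + (0 + B * 0 + B * 0) ^ 2 + 0 * B) = 0 := by ring
  rw [hz] at hlim
  have hev := hlim.eventually (gt_mem_nhds (one_pos : (0 : ℝ) < 1))
  obtain ⟨ε, hε, hev⟩ := Metric.eventually_nhds_iff.1 hev
  refine ⟨ε, hε, fun r hr hrε => ?_⟩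
  have hQ := hev (y := r) (by rw [Real.dist_eq, sub_zero, abs_of_pos hr]; exact hrε)
  have hA : r ^ (2 * γ - 2 * μ) = r ^ (1 - 2 * γ) * r ^ e1 := by
    rw [← Real.rpow_add hr]
    congr 1
    rw [he1]
    ring
  have hX1 : r ^ (γ + 1) / r ^ (2 * γ - 2 * μ) = r ^ (1 + μ - γ) * r ^ μ := by
    rw [← Real.rpow_sub hr, ← Real.rpow_add hr]
    congr 1
    ring
  have hX2 : r ^ (2 * γ - 2 * μ) * B * (r ^ (-(2 * μ))) ^ 2 / r ^ (-γ) =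
      r ^ (1 + μ - γ) * (B * r ^ e2) := by
    have h2 : r ^ (2 * γ - 2 * μ) * (r ^ (-(2 * μ)) * r ^ (-(2 * μ))) / r ^ (-γ) =
        r ^ (1 + μ - γ) * r ^ e2 := by
      rw [← Real.rpow_add hr, ← Real.rpow_add hr, ← Real.rpow_sub hr, ← Real.rpow_add hr]
      congr 1
      rw [he2]
      ring
    calc r ^ (2 * γ - 2 * μ) * B * (r ^ (-(2 * μ))) ^ 2 / r ^ (-γ) =
        B * (r ^ (2 * γ - 2 * μ) * (r ^ (-(2 * μ)) * r ^ (-(2 * μ))) / r ^ (-γ)) := by ring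
      _ = B * (r ^ (1 + μ - γ) * r ^ e2) := by rw [h2]
      _ = _ := by ring
  have hX3 : r ^ (2 * γ - 2 * μ) * B * r ^ (-(2 * μ)) * (r ^ (1 + μ)) ^ ((1 - α) / 2) =
      r ^ (1 + μ - γ) * (B * r ^ e3) := by
    have h2 : r ^ (2 * γ - 2 * μ) * r ^ (-(2 * μ)) * (r ^ (1 + μ)) ^ ((1 - α) / 2) =
        r ^ (1 + μ - γ) * r ^ e3 := by
      rw [← Real.rpow_mul hr.le, ← Real.rpow_add hr, ← Real.rpow_add hr, ← Real.rpow_add hr]
      congr 1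
      rw [he3]
      ring
    calc r ^ (2 * γ - 2 * μ) * B * r ^ (-(2 * μ)) * (r ^ (1 + μ)) ^ ((1 - α) / 2) =
        B * (r ^ (2 * γ - 2 * μ) * r ^ (-(2 * μ)) * (r ^ (1 + μ)) ^ ((1 - α) / 2)) := by ring
      _ = B * (r ^ (1 + μ - γ) * r ^ e3) := by rw [h2]
      _ = _ := by ring
  have hP : r / (r ^ (1 + μ)) ^ 2 * (r ^ (1 + μ - γ)) ^ 2 = r ^ (1 - 2 * γ) := by
    have h3 : r = r ^ (1 : ℝ) := (Real.rpow_one r).symm
    have h2 : r ^ (1 : ℝ) / (r ^ (1 + μ) * r ^ (1 + μ)) * (r ^ (1 + μ - γ) * r ^ (1 + μ - γ)) =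
        r ^ (1 - 2 * γ) := by
      rw [← Real.rpow_add hr, ← Real.rpow_add hr, ← Real.rpow_sub hr, ← Real.rpow_add hr]
      congr 1
      ring
    rw [← h3] at h2
    rw [sq, sq]
    exact h2
  have hC4 : (r ^ (1 + μ)) ^ α * B = r ^ (1 - 2 * γ) * (r ^ e4 * B) := by
    rw [← mul_assoc, ← Real.rpow_add hr, ← Real.rpow_mul hr.le]
    congr 2
    rw [he4]
    ring
  have hY : (r ^ (γ + 1) / r ^ (2 * γ - 2 * μ) +
      r ^ (2 * γ - 2 * μ) * B * (r ^ (-(2 * μ))) ^ 2 / r ^ (-γ) +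
      r ^ (2 * γ - 2 * μ) * B * r ^ (-(2 * μ)) * (r ^ (1 + μ)) ^ ((1 - α) / 2)) =
      r ^ (1 + μ - γ) * (r ^ μ + B * r ^ e2 + B * r ^ e3) := by
    rw [hX1, hX2, hX3]
    ring
  have hpos : 0 < r ^ (1 - 2 * γ) := Real.rpow_pos_of_pos hr _
  rw [hY, hC4, hA]
  have hfinal : C * (r ^ (1 - 2 * γ) * r ^ e1 * B +
      r / (r ^ (1 + μ)) ^ 2 * (r ^ (1 + μ - γ) * (r ^ μ + B * r ^ e2 + B * r ^ e3)) ^ 2 +
      r ^ (1 - 2 * γ) * (r ^ e4 * B)) =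
      r ^ (1 - 2 * γ) * (C * (r ^ e1 * B + (r ^ μ + B * r ^ e2 + B * r ^ e3) ^ 2 +
      r ^ e4 * B)) := by
    rw [mul_pow, ← mul_assoc (r / (r ^ (1 + μ)) ^ 2), hP]
    ring
  rw [hfinal]
  calc r ^ (1 - 2 * γ) * (C * (r ^ e1 * B + (r ^ μ + B * r ^ e2 + B * r ^ e3) ^ 2 +
      r ^ e4 * B)) < r ^ (1 - 2 * γ) * 1 := mul_lt_mul_of_pos_left hQ hpos
    _ = r ^ (1 - 2 * γ) := mul_one _


end Xnum
end MMT
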