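import Pool.Agent.Helper823.MMT.Defs
open Complex MeasureTheory Filter Topology Set
open scoped ContDiff ENNReal
namespace MMT
namespace Xnumind

theorem num_ind_one (x ρ : ℝ) (hx : 1 < x) (t : ℕ → ℝ) (ht : ∀ j, t j ≤ x ^ j * ρ) (n : ℕ) :
    ∑ j ∈ Finset.range n, t j ≤ ρ * (x ^ n - 1) / (x - 1) := by
  have hx1 : 0 < x - 1 := by linarith
  induction n with
  | zero => simp
  | succ n ih =>
    rw [Finset.sum_range_succ]
    refine (add_le_add ih (ht n)).trans (le_of_eq ?_)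
    field_simp
    ring

theorem num_ind_two (y : ℝ) (hy : y < 1) (t : ℕ → ℝ) (ht : ∀ j, t j ≤ Real.pi * y ^ j)
    (m n : ℕ) : ∑ j ∈ Finset.range (m + n), t j ≤ ∑ j ∈ Finset.range m, t j
      + Real.pi * (y ^ m - y ^ (m + n)) / (1 - y) := by
  have hy1 : 0 < 1 - y := by linarith
  induction n with
  | zero => simp
  | succ n ih =>
    rw [← add_assoc, Finset.sum_range_succ]
    refine (add_le_add ih (ht (m + n))).trans (le_of_eq ?_)
    rw [pow_succ y (m + n)]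
    field_simp
    ring

theorem num_ind (α : ℝ) (h0 : 0 < α) (h1 : α < 1) : ∃ C : ℝ, 0 < C ∧ ∀ (ρ : ℝ) (n : ℕ), 0 < ρ → ρ ≤ 2 * Real.pi →
    ∑ j ∈ Finset.range n, (2:ℝ) ^ (α * j) * min (Real.pi / 2 ^ j) ρ ≤ C * ρ ^ (1 - α) := by
  have hpi := Real.pi_pos
  have hx : 1 < (2:ℝ) ^ α := Real.one_lt_rpow (by norm_num) h0
  have hx0 : 0 < (2:ℝ) ^ α - 1 := by linarith
  have hy : (2:ℝ) ^ (α - 1) < 1 := Real.rpow_lt_one_of_one_lt_of_neg (by norm_num) (by linarith)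
  have hy0 : 0 < (2:ℝ) ^ (α - 1) := Real.rpow_pos_of_pos (by norm_num) _
  have hy1 : 0 < 1 - (2:ℝ) ^ (α - 1) := by linarith
  refine ⟨(2 * Real.pi) ^ α / ((2:ℝ) ^ α - 1)
    + Real.pi * Real.pi ^ (α - 1) / (1 - (2:ℝ) ^ (α - 1)), by positivity, ?_⟩
  intro ρ n hρ _
  have hxj : ∀ j : ℕ, (2:ℝ) ^ (α * j) = ((2:ℝ) ^ α) ^ j := fun j =>
    Real.rpow_mul_natCast (by norm_num) α j
  have hyj : ∀ j : ℕ, ((2:ℝ) ^ (α - 1)) ^ j = ((2:ℝ) ^ α) ^ j / 2 ^ j := fun j => by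
    rw [Real.rpow_sub_one (by norm_num), div_pow]
  have hxp : ∀ j : ℕ, 0 < ((2:ℝ) ^ α) ^ j := fun j => by positivity
  let t : ℕ → ℝ := fun j => (2:ℝ) ^ (α * j) * min (Real.pi / 2 ^ j) ρ
  have ht1 : ∀ j, t j ≤ ((2:ℝ) ^ α) ^ j * ρ := by
    intro j
    change (2:ℝ) ^ (α * j) * min (Real.pi / 2 ^ j) ρ ≤ _
    rw [hxj]
    exact mul_le_mul_of_nonneg_left (min_le_right _ _) (hxp j).le
  have ht2 : ∀ j, t j ≤ Real.pi * ((2:ℝ) ^ (α - 1)) ^ j := by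
    intro j
    change (2:ℝ) ^ (α * j) * min (Real.pi / 2 ^ j) ρ ≤ _
    rw [hxj, hyj]
    refine (mul_le_mul_of_nonneg_left (min_le_left _ _) (hxp j).le).trans (le_of_eq ?_)
    ring
  have ht0 : ∀ j, 0 ≤ t j := by
    intro j
    change 0 ≤ (2:ℝ) ^ (α * j) * min (Real.pi / 2 ^ j) ρ
    have : 0 ≤ min (Real.pi / 2 ^ j) ρ := le_min (by positivity) hρ.le
    positivity
  have hex : ∃ m : ℕ, Real.pi ≤ ρ * 2 ^ m := by
    obtain ⟨m, hm⟩ := pow_unbounded_of_one_lt (Real.pi / ρ) (by norm_num : (1:ℝ) < 2)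
    refine ⟨m, ?_⟩
    rw [div_lt_iff₀ hρ] at hm
    linarith
  classical
  obtain ⟨m, hm, hmin⟩ : ∃ m : ℕ, Real.pi ≤ ρ * 2 ^ m ∧ ∀ k < m, ¬ Real.pi ≤ ρ * 2 ^ k :=
    ⟨Nat.find hex, Nat.find_spec hex, fun k hk => Nat.find_min hex hk⟩
  have hρa : ρ * (1 / ρ ^ α) = ρ ^ (1 - α) := by
    rw [Real.rpow_sub hρ, Real.rpow_one]
    ring
  -- first part
  have hA : ρ * (((2:ℝ) ^ α) ^ m - 1) / ((2:ℝ) ^ α - 1)
      ≤ (2 * Real.pi) ^ α / ((2:ℝ) ^ α - 1) * ρ ^ (1 - α) := by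
    rcases m with _ | m
    · rw [pow_zero, sub_self, mul_zero, zero_div]
      positivity
    · have h2 : (2:ℝ) ^ (m + 1) ≤ 2 * Real.pi / ρ := by
        rw [le_div_iff₀ hρ, pow_succ]
        have := not_le.mp (hmin m (Nat.lt_succ_self m))
        linarith
      have h3 : ((2:ℝ) ^ α) ^ (m + 1) ≤ (2 * Real.pi / ρ) ^ α := by
        rw [Real.rpow_pow_comm (by norm_num)]
        exact Real.rpow_le_rpow (by positivity) h2 h0.le
      rw [Real.div_rpow (by positivity) hρ.le] at h3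
      have h4 : ρ * (((2:ℝ) ^ α) ^ (m + 1) - 1) ≤ (2 * Real.pi) ^ α * ρ ^ (1 - α) := by
        rw [← hρa]
        have h5 := mul_le_mul_of_nonneg_left h3 hρ.le
        have h6 : ρ * ((2 * Real.pi) ^ α / ρ ^ α) = (2 * Real.pi) ^ α * (ρ * (1 / ρ ^ α)) := by
          ring
        rw [h6] at h5
        linarith
      rw [div_mul_eq_mul_div]
      exact div_le_div_of_nonneg_right h4 hx0.le
  -- second part
  have hB : Real.pi * (((2:ℝ) ^ (α - 1)) ^ m - ((2:ℝ) ^ (α - 1)) ^ (m + n)) / (1 - (2:ℝ) ^ (α - 1))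
      ≤ Real.pi * Real.pi ^ (α - 1) / (1 - (2:ℝ) ^ (α - 1)) * ρ ^ (1 - α) := by
    have h2 : Real.pi / ρ ≤ (2:ℝ) ^ m := by
      rw [div_le_iff₀ hρ]
      linarith
    have h3 : ((2:ℝ) ^ (α - 1)) ^ m ≤ (Real.pi / ρ) ^ (α - 1) := by
      rw [Real.rpow_pow_comm (by norm_num)]
      exact Real.rpow_le_rpow_of_nonpos (by positivity) h2 (by linarith)
    have h4 : (Real.pi / ρ) ^ (α - 1) = Real.pi ^ (α - 1) * ρ ^ (1 - α) := by
      rw [Real.div_rpow hpi.le hρ.le, div_eq_mul_inv, ← Real.rpow_neg hρ.le, neg_sub]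
    rw [h4] at h3
    have h5 : 0 < ((2:ℝ) ^ (α - 1)) ^ (m + n) := by positivity
    rw [div_mul_eq_mul_div]
    apply div_le_div_of_nonneg_right _ hy1.le
    rw [mul_assoc]
    apply mul_le_mul_of_nonneg_left _ hpi.le
    linarith
  calc ∑ j ∈ Finset.range n, t j ≤ ∑ j ∈ Finset.range (m + n), t j :=
        Finset.sum_le_sum_of_subset_of_nonneg
          (Finset.range_subset_range.mpr (Nat.le_add_left n m)) (fun j _ _ => ht0 j)
    _ ≤ ∑ j ∈ Finset.range m, t j + Real.pi * (((2:ℝ) ^ (α - 1)) ^ m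
        - ((2:ℝ) ^ (α - 1)) ^ (m + n)) / (1 - (2:ℝ) ^ (α - 1)) :=
        num_ind_two _ hy t ht2 m n
    _ ≤ ρ * (((2:ℝ) ^ α) ^ m - 1) / ((2:ℝ) ^ α - 1) + Real.pi * (((2:ℝ) ^ (α - 1)) ^ m
        - ((2:ℝ) ^ (α - 1)) ^ (m + n)) / (1 - (2:ℝ) ^ (α - 1)) := by
        have := num_ind_one _ ρ hx t ht1 m
        linarith
    _ ≤ _ := by
        rw [add_mul]
        exact add_le_add hA hB


end Xnumind
end MMT
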