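import Pool.Agent.Helper823.MMT.Defs
open Complex MeasureTheory Filter Topology Set
open scoped ContDiff ENNReal
namespace MMT
namespace Xosc

theorem osc (γ c t a b : ℝ) (hγ : 0 < γ) (hc : 0 ≤ c) (ht : 0 < t) (ha : 0 < a) (hab : a ≤ b) :
    ‖∫ x in a..b, cexp (-((c:ℂ) + I * (t:ℂ)) * ((‖dat γ x‖ ^ 2 : ℝ) : ℂ)) * dat γ x‖ ≤ b ^ (γ + 1) / (γ * t) := by
  obtain ⟨lam, hlam⟩ : ∃ lam : ℂ, lam = (c : ℂ) + I * (t : ℂ) := ⟨_, rfl⟩
  rw [← hlam]
  have hpos : ∀ x ∈ Set.uIcc a b, 0 < x := by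
    intro x hx
    rw [Set.uIcc_of_le hab] at hx
    exact ha.trans_le hx.1
  obtain ⟨E, hE⟩ : ∃ E : ℝ → ℂ, E = fun x : ℝ => cexp (-lam * (((x ^ (-γ)) ^ 2 : ℝ) : ℂ)) := ⟨_, rfl⟩
  have hEx : ∀ x, E x = cexp (-lam * (((x ^ (-γ)) ^ 2 : ℝ) : ℂ)) := fun x => by rw [hE]
  have hEn : ∀ x, ‖E x‖ ≤ 1 := by
    intro x
    rw [hEx, Complex.norm_exp]
    have h1 : (-lam * (((x ^ (-γ)) ^ 2 : ℝ) : ℂ)).re = -(c * (x ^ (-γ)) ^ 2) := by
      rw [hlam]
      simp only [Complex.mul_re, Complex.neg_re, Complex.add_re, Complex.ofReal_re, Complex.I_re,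
        Complex.I_im, Complex.ofReal_im, Complex.neg_im, Complex.add_im, Complex.mul_im]
      ring
    rw [h1]
    apply Real.exp_le_one_iff.2
    have : 0 ≤ c * (x ^ (-γ)) ^ 2 := by positivity
    linarith
  have hu : ∀ x, 0 < x → HasDerivAt (fun y : ℝ => y ^ (-γ)) (-γ * x ^ (-γ - 1)) x := by
    intro x hx
    exact Real.hasDerivAt_rpow_const (Or.inl hx.ne')
  have hP : ∀ x, 0 < x → HasDerivAt (fun y : ℝ => y ^ (γ + 1)) ((γ + 1) * x ^ γ) x := by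
    intro x hx
    have h := Real.hasDerivAt_rpow_const (x := x) (p := γ + 1) (Or.inl hx.ne')
    rw [add_sub_cancel_right] at h
    exact h
  have hE' : ∀ x, 0 < x → HasDerivAt E
      (E x * (-lam * ((2 * x ^ (-γ) * (-γ * x ^ (-γ - 1)) : ℝ) : ℂ))) x := by
    intro x hx
    have h1 : HasDerivAt (fun y : ℝ => (y ^ (-γ)) ^ 2) (2 * x ^ (-γ) * (-γ * x ^ (-γ - 1))) x := by
      have h2 := (hu x hx).fun_pow 2
      have h3 : ((2 : ℕ) : ℝ) * (x ^ (-γ)) ^ (2 - 1) * (-γ * x ^ (-γ - 1))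
          = 2 * x ^ (-γ) * (-γ * x ^ (-γ - 1)) := by
        norm_num
      rw [h3] at h2
      exact h2
    have h4 := ((h1.ofReal_comp).const_mul (-lam)).cexp
    rw [hE]
    exact h4
  have hG : ∀ x ∈ Set.uIcc a b, HasDerivAt (fun y : ℝ => ((y ^ (γ + 1) : ℝ) : ℂ) * E y)
      ((((γ + 1) * x ^ γ : ℝ) : ℂ) * E x + 2 * γ * lam * (((x ^ (-γ) : ℝ) : ℂ) * E x)) x := by
    intro x hx
    have hx0 := hpos x hx
    have h1 := ((hP x hx0).ofReal_comp).mul (hE' x hx0)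
    have h2 : x ^ (γ + 1) * x ^ (-γ - 1) = 1 := by
      rw [← Real.rpow_add hx0, show γ + 1 + (-γ - 1) = 0 by ring, Real.rpow_zero]
    have h3 : ((x ^ (γ + 1) : ℝ) : ℂ) * ((x ^ (-γ - 1) : ℝ) : ℂ) = 1 := by
      rw [← Complex.ofReal_mul, h2, Complex.ofReal_one]
    have h4 : ((((γ + 1) * x ^ γ : ℝ) : ℂ) * E x + 2 * γ * lam * (((x ^ (-γ) : ℝ) : ℂ) * E x))
        = (((γ + 1) * x ^ γ : ℝ) : ℂ) * E x + ((x ^ (γ + 1) : ℝ) : ℂ) *
          (E x * (-lam * ((2 * x ^ (-γ) * (-γ * x ^ (-γ - 1)) : ℝ) : ℂ))) := by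
      rw [Complex.ofReal_mul (2 * x ^ (-γ)), Complex.ofReal_mul 2, Complex.ofReal_mul (-γ),
        Complex.ofReal_neg, Complex.ofReal_ofNat]
      linear_combination (-(2 * γ * lam * ((x ^ (-γ) : ℝ) : ℂ) * E x)) * h3
    rw [h4]
    exact h1
  have hcE : ContinuousOn E (Set.uIcc a b) := fun x hx =>
    (hE' x (hpos x hx)).continuousAt.continuousWithinAt
  have hcu : ContinuousOn (fun x : ℝ => ((x ^ (-γ) : ℝ) : ℂ)) (Set.uIcc a b) := fun x hx =>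
    ((hu x (hpos x hx)).ofReal_comp).continuousAt.continuousWithinAt
  have hcg : ContinuousOn (fun x : ℝ => (γ + 1) * x ^ γ) (Set.uIcc a b) := fun x hx =>
    ((Real.continuousAt_rpow_const x γ (Or.inl (hpos x hx).ne')).const_mul (γ + 1)).continuousWithinAt
  have hcg' : ContinuousOn (fun x : ℝ => (((γ + 1) * x ^ γ : ℝ) : ℂ)) (Set.uIcc a b) :=
    Complex.continuous_ofReal.comp_continuousOn hcg
  have hi1 : IntervalIntegrable (fun x : ℝ => (((γ + 1) * x ^ γ : ℝ) : ℂ) * E x) volume a b :=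
    (hcg'.mul hcE).intervalIntegrable
  have hi2 : IntervalIntegrable (fun x : ℝ => ((x ^ (-γ) : ℝ) : ℂ) * E x) volume a b :=
    (hcu.mul hcE).intervalIntegrable
  have hi3 : IntervalIntegrable (fun x : ℝ => 2 * γ * lam * (((x ^ (-γ) : ℝ) : ℂ) * E x))
      volume a b := hi2.const_mul _
  have hint := intervalIntegral.integral_eq_sub_of_hasDerivAt hG (hi1.add hi3)
  rw [intervalIntegral.integral_add hi1 hi3, intervalIntegral.integral_const_mul] at hint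
  have hcong : ∫ x in a..b, cexp (-lam * ((‖dat γ x‖ ^ 2 : ℝ) : ℂ)) * dat γ x
      = ∫ x in a..b, ((x ^ (-γ) : ℝ) : ℂ) * E x := by
    refine intervalIntegral.integral_congr (fun x hx => ?_)
    have hx0 := hpos x hx
    show cexp (-lam * ((‖dat γ x‖ ^ 2 : ℝ) : ℂ)) * dat γ x = ((x ^ (-γ) : ℝ) : ℂ) * E x
    rw [hEx]
    unfold dat
    rw [Complex.norm_real, Real.norm_eq_abs, sq_abs, mul_comm]
  rw [hcong]
  have hb0 : 0 < b := ha.trans_le hab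
  have hPi : ∫ x in a..b, (γ + 1) * x ^ γ = b ^ (γ + 1) - a ^ (γ + 1) :=
    intervalIntegral.integral_eq_sub_of_hasDerivAt (fun x hx => hP x (hpos x hx))
      hcg.intervalIntegrable
  have hbd1 : ‖∫ x in a..b, (((γ + 1) * x ^ γ : ℝ) : ℂ) * E x‖ ≤ b ^ (γ + 1) - a ^ (γ + 1) := by
    rw [← hPi]
    refine intervalIntegral.norm_integral_le_of_norm_le hab ?_ hcg.intervalIntegrable
    refine Filter.Eventually.of_forall (fun x hx => ?_)
    have hx0 : 0 < x := ha.trans hx.1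
    have h1 : 0 ≤ (γ + 1) * x ^ γ := by positivity
    rw [norm_mul, Complex.norm_real, Real.norm_eq_abs, abs_of_nonneg h1]
    exact mul_le_of_le_one_right h1 (hEn x)
  obtain ⟨J, hJ⟩ : ∃ J : ℂ, J = ∫ x in a..b, ((x ^ (-γ) : ℝ) : ℂ) * E x := ⟨_, rfl⟩
  rw [← hJ] at hint ⊢
  have hA : ‖((b ^ (γ + 1) : ℝ) : ℂ) * E b‖ ≤ b ^ (γ + 1) := by
    have h1 : 0 ≤ b ^ (γ + 1) := by positivity
    rw [norm_mul, Complex.norm_real, Real.norm_eq_abs, abs_of_nonneg h1]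
    exact mul_le_of_le_one_right h1 (hEn b)
  have hB : ‖((a ^ (γ + 1) : ℝ) : ℂ) * E a‖ ≤ a ^ (γ + 1) := by
    have h1 : 0 ≤ a ^ (γ + 1) := by positivity
    rw [norm_mul, Complex.norm_real, Real.norm_eq_abs, abs_of_nonneg h1]
    exact mul_le_of_le_one_right h1 (hEn a)
  have h5 : 2 * γ * lam * J = ((b ^ (γ + 1) : ℝ) : ℂ) * E b - ((a ^ (γ + 1) : ℝ) : ℂ) * E a
      - ∫ x in a..b, (((γ + 1) * x ^ γ : ℝ) : ℂ) * E x := by
    rw [← hint]; ring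
  have h6 : ‖2 * γ * lam * J‖ ≤ 2 * b ^ (γ + 1) := by
    rw [h5]
    refine (norm_sub_le _ _).trans ?_
    have := norm_sub_le (((b ^ (γ + 1) : ℝ) : ℂ) * E b) (((a ^ (γ + 1) : ℝ) : ℂ) * E a)
    linarith
  have hlt : t ≤ ‖lam‖ := by
    have h7 := Complex.abs_im_le_norm lam
    have h8 : lam.im = t := by
      rw [hlam]
      simp
    rw [h8, abs_of_pos ht] at h7
    exact h7
  have h9 : ‖2 * γ * lam * J‖ = 2 * γ * ‖lam‖ * ‖J‖ := by
    rw [norm_mul, norm_mul, norm_mul, Complex.norm_real, Real.norm_eq_abs, abs_of_pos hγ]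
    norm_num
  rw [h9] at h6
  rw [le_div_iff₀ (by positivity)]
  have h10 : γ * t * ‖J‖ ≤ γ * ‖lam‖ * ‖J‖ :=
    mul_le_mul_of_nonneg_right (mul_le_mul_of_nonneg_left hlt hγ.le) (norm_nonneg _)
  linarith


end Xosc
end MMT
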