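import Pool.Agent.Helper823.MMT.Defs
open Complex MeasureTheory Filter Topology Set
open scoped ContDiff ENNReal
namespace MMT
namespace Xpairing

theorem pr_conj (g : ℝ → ℂ) (a b : ℝ) (hab : a ≤ b) :
    ∫ x in a..b, (starRingEnd ℂ) (g x) = (starRingEnd ℂ) (∫ x in a..b, g x) := by
  rw [intervalIntegral.integral_of_le hab, intervalIntegral.integral_of_le hab]
  exact integral_conj

theorem pr_fc_conj (f : ℝ → ℂ) (k : ℤ) :
    fc (fun x => (starRingEnd ℂ) (f x)) k = (starRingEnd ℂ) (fc f (-k)) := by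
  unfold fc
  have h : ∀ x : ℝ, cexp (-(I * (k:ℂ) * (x:ℂ))) * (starRingEnd ℂ) (f x) =
      (starRingEnd ℂ) (cexp (-(I * ((-k : ℤ):ℂ) * (x:ℂ))) * f x) := by
    intro x
    rw [map_mul, ← Complex.exp_conj]
    congr 2
    simp [Complex.conj_ofReal]
  simp only [h]
  rw [pr_conj _ _ _ (by positivity), map_mul]
  congr 1
  rw [map_div₀, map_one, map_mul, Complex.conj_ofReal, Complex.conj_ofNat]

theorem pr_sym (α : ℝ) (k : ℤ) : sym α (-k) = sym α k := by
  unfold sym; simp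

theorem pr_sym_nonneg (α : ℝ) (k : ℤ) : 0 ≤ sym α k := by
  unfold sym
  split_ifs
  · exact le_refl 0
  · positivity

theorem pr_nb_neg (α : ℝ) (f : ℝ → ℂ) (B : ℝ) (h : NB α f B) (s : Finset ℤ) :
    ∑ k ∈ s, sym α k * ‖fc f (-k)‖ ^ 2 ≤ B := by
  have := h (s.map (Equiv.neg ℤ).toEmbedding)
  rw [Finset.sum_map] at this
  simpa [pr_sym] using this

theorem pr_deriv (u : ℝ → ℂ) (hu : ContDiff ℝ 1 u) (hup : Function.Periodic u (2 * Real.pi))
    (k : ℤ) : fc (deriv u) k = I * k * fc u k := by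
  unfold fc
  have hexp : ∀ x : ℝ, HasDerivAt (fun x : ℝ => cexp (-(I * (k:ℂ) * (x:ℂ))))
      (-(I * k) * cexp (-(I * (k:ℂ) * (x:ℂ)))) x := by
    intro x
    have h1 : HasDerivAt (fun x : ℝ => -(I * (k:ℂ) * (x:ℂ))) (-(I * (k:ℂ) * 1)) x :=
      ((Complex.ofRealCLM.hasDerivAt (x := x)).const_mul (I * (k:ℂ))).neg
    have h2 := h1.cexp
    convert h2 using 1
    ring
  have hud : ∀ x : ℝ, HasDerivAt u (deriv u x) x := fun x =>
    (hu.differentiable (by norm_num)).differentiableAt.hasDerivAt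
  have hc1 : Continuous (deriv u) := hu.continuous_deriv (by norm_num)
  have hce : Continuous (fun x : ℝ => cexp (-(I * (k:ℂ) * (x:ℂ)))) := by fun_prop
  have hip := intervalIntegral.integral_mul_deriv_eq_deriv_mul (a := 0) (b := 2 * Real.pi)
    (fun x _ => hexp x) (fun x _ => hud x)
    ((continuous_const.mul hce).intervalIntegrable _ _) (hc1.intervalIntegrable _ _)
  rw [hip]
  have hp : u (2 * Real.pi) = u 0 := by
    have := hup 0
    rwa [zero_add] at this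
  have he : cexp (-(I * (k:ℂ) * ((2 * Real.pi : ℝ):ℂ))) = 1 := by
    rw [Complex.exp_eq_one_iff]
    refine ⟨-k, ?_⟩
    push_cast
    ring
  rw [hp, he]
  have h0 : cexp (-(I * (k:ℂ) * ((0 : ℝ):ℂ))) = 1 := by simp
  rw [h0]
  have h3 : ∫ x in (0:ℝ)..(2 * Real.pi), -(I * (k:ℂ)) * cexp (-(I * (k:ℂ) * (x:ℂ))) * u x =
      -(I * (k:ℂ)) * ∫ x in (0:ℝ)..(2 * Real.pi), cexp (-(I * (k:ℂ) * (x:ℂ))) * u x := by
    rw [← intervalIntegral.integral_const_mul]
    refine intervalIntegral.integral_congr (fun x _ => ?_)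
    show -(I * (k:ℂ)) * cexp (-(I * (k:ℂ) * (x:ℂ))) * u x = _
    ring
  rw [h3]
  ring

theorem pr_fc_le (g : ℝ → ℂ) (M : ℝ) (hM : ∀ x, ‖g x‖ ≤ M) (k : ℤ) : ‖fc g k‖ ≤ M := by
  unfold fc
  have h1 : ‖∫ x in (0:ℝ)..(2 * Real.pi), cexp (-(I * (k:ℂ) * (x:ℂ))) * g x‖ ≤
      M * |2 * Real.pi - 0| := by
    refine intervalIntegral.norm_integral_le_of_norm_le_const (fun x _ => ?_)
    rw [norm_mul]
    have : ‖cexp (-(I * (k:ℂ) * (x:ℂ)))‖ = 1 := by
      rw [Complex.norm_exp]; simp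
    rw [this, one_mul]
    exact hM x
  rw [norm_mul]
  have h2 : ‖(1 / (2 * Real.pi) : ℂ)‖ = 1 / (2 * Real.pi) := by
    have : (1 / (2 * Real.pi) : ℂ) = ((1 / (2 * Real.pi) : ℝ) : ℂ) := by push_cast; rfl
    rw [this, Complex.norm_real, Real.norm_of_nonneg (by positivity)]
  rw [h2]
  rw [sub_zero, abs_of_pos (by positivity)] at h1
  calc 1 / (2 * Real.pi) * ‖∫ x in (0:ℝ)..(2 * Real.pi), cexp (-(I * (k:ℂ) * (x:ℂ))) * g x‖
      ≤ 1 / (2 * Real.pi) * (M * (2 * Real.pi)) := by gcongr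
    _ = M := by field_simp

theorem pr_bdd (g : ℝ → ℂ) (hg : Continuous g) (hp : Function.Periodic g (2 * Real.pi)) :
    ∃ M : ℝ, 0 ≤ M ∧ ∀ x, ‖g x‖ ≤ M := by
  obtain ⟨M, hM⟩ := (isCompact_Icc (a := (0:ℝ)) (b := 2 * Real.pi)).exists_bound_of_continuousOn
    hg.continuousOn
  refine ⟨max M 0, le_max_right _ _, fun x => ?_⟩
  obtain ⟨y, hy, hxy⟩ := hp.exists_mem_Ico₀ Real.two_pi_pos x
  rw [hxy]
  exact (hM y ⟨hy.1, hy.2.le⟩).trans (le_max_left _ _)

theorem pr_per (g : ℝ → ℂ) (hp : Function.Periodic g (2 * Real.pi)) :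
    Function.Periodic (deriv g) (2 * Real.pi) := by
  intro x
  have h : (fun x => g (x + 2 * Real.pi)) = g := funext hp
  have h2 : deriv (fun x => g (x + 2 * Real.pi)) x = deriv g (x + 2 * Real.pi) :=
    deriv_comp_add_const g (2 * Real.pi) x
  rw [← h2, h]

theorem pr_summ (α : ℝ) (h1 : α < 1) (u : ℝ → ℂ) (hu : ContDiff ℝ 2 u)
    (hup : Function.Periodic u (2 * Real.pi)) : Summable (fun k : ℤ => sym α k * ‖fc u k‖) := by
  have hu1 : ContDiff ℝ 1 u := hu.of_le (by norm_num)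
  have hu2 : ContDiff ℝ 1 (deriv u) := by
    have e : (2 : WithTop ℕ∞) = 1 + 1 := one_add_one_eq_two.symm
    rw [e] at hu
    exact (contDiff_succ_iff_deriv.1 hu).2.2
  have hp1 : Function.Periodic (deriv u) (2 * Real.pi) := pr_per _ hup
  have hp2 : Function.Periodic (deriv (deriv u)) (2 * Real.pi) := pr_per _ hp1
  obtain ⟨M, hM0, hM⟩ := pr_bdd (deriv (deriv u)) (hu2.continuous_deriv (by norm_num)) hp2
  have hb := (Real.summable_abs_int_rpow (b := 2 - α) (by linarith)).mul_left M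
  refine Summable.of_nonneg_of_le (fun k => mul_nonneg (pr_sym_nonneg α k) (norm_nonneg _))
    (fun k => ?_) hb
  by_cases hk : k = 0
  · subst hk
    simp only [sym, if_true, zero_mul]
    positivity
  · have hkR : (0:ℝ) < |(k:ℝ)| := by
      rw [abs_pos]; exact_mod_cast hk
    have h2 : ‖fc (deriv (deriv u)) k‖ = |(k:ℝ)| ^ 2 * ‖fc u k‖ := by
      rw [pr_deriv _ hu2 hp1, pr_deriv _ hu1 hup]
      simp only [norm_mul, Complex.norm_I, one_mul, Complex.norm_intCast]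
      ring
    have h3 := pr_fc_le _ M hM k
    rw [h2] at h3
    simp only [sym, if_neg hk]
    have h4 : |(k:ℝ)| ^ (-(2 - α)) = |(k:ℝ)| ^ α * (|(k:ℝ)| ^ 2)⁻¹ := by
      rw [show -(2 - α) = α + (-2 : ℝ) by ring, Real.rpow_add hkR, Real.rpow_neg hkR.le]
      norm_num
    rw [h4]
    have h5 : ‖fc u k‖ ≤ M * (|(k:ℝ)| ^ 2)⁻¹ := by
      rw [← div_eq_mul_inv, le_div_iff₀ (by positivity)]
      linarith
    calc |(k:ℝ)| ^ α * ‖fc u k‖ ≤ |(k:ℝ)| ^ α * (M * (|(k:ℝ)| ^ 2)⁻¹) := by gcongr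
      _ = _ := by ring

theorem pr_main (α : ℝ) (h1 : α < 1) (u f : ℝ → ℂ) (hu : ContDiff ℝ 2 u)
    (hup : Function.Periodic u (2 * Real.pi)) (hf : Reg f) (B1 B2 : ℝ) (hB1 : NB α u B1)
    (hB2 : NB α f B2) :
    ‖∫ x in (0:ℝ)..(2 * Real.pi), f x * absD α u x‖ ≤ 2 * Real.pi * Real.sqrt (B1 * B2) := by
  obtain ⟨hfm, hfp, C, hC⟩ := hf
  have hs := pr_summ α h1 u hu hup
  have hB1' : 0 ≤ B1 := by simpa using hB1 ∅
  have hB2' : 0 ≤ B2 := by simpa using hB2 ∅
  have hC0 : 0 ≤ C := (norm_nonneg _).trans (hC 0)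
  have hnorm : ∀ (k : ℤ) (x : ℝ), ‖(sym α k : ℂ) * fc u k * cexp (I * (k:ℂ) * (x:ℂ))‖ =
      sym α k * ‖fc u k‖ := by
    intro k x
    rw [norm_mul, norm_mul]
    have h2 : ‖cexp (I * (k:ℂ) * (x:ℂ))‖ = 1 := by
      rw [Complex.norm_exp]; simp
    rw [h2, mul_one, Complex.norm_real, Real.norm_of_nonneg (pr_sym_nonneg α k)]
  have hsum : HasSum (fun k : ℤ => ∫ x in (0:ℝ)..(2 * Real.pi),
      f x * ((sym α k : ℂ) * fc u k * cexp (I * (k:ℂ) * (x:ℂ))))
      (∫ x in (0:ℝ)..(2 * Real.pi), f x * absD α u x) := by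
    refine intervalIntegral.hasSum_integral_of_dominated_convergence
      (fun k _ => C * (sym α k * ‖fc u k‖)) (fun k => ?_) (fun k => ?_) ?_ ?_ ?_
    · refine Measurable.aestronglyMeasurable ?_
      refine hfm.mul ?_
      have : Continuous (fun x : ℝ => (sym α k : ℂ) * fc u k * cexp (I * (k:ℂ) * (x:ℂ))) := by
        fun_prop
      exact this.measurable
    · refine Filter.Eventually.of_forall (fun x _ => ?_)
      rw [norm_mul, hnorm]
      exact mul_le_mul_of_nonneg_right (hC x)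
        (mul_nonneg (pr_sym_nonneg α k) (norm_nonneg _))
    · exact Filter.Eventually.of_forall (fun x _ => hs.mul_left C)
    · exact intervalIntegrable_const
    · refine Filter.Eventually.of_forall (fun x _ => ?_)
      refine HasSum.mul_left (f x) ?_
      unfold absD
      refine Summable.hasSum ?_
      refine Summable.of_norm ?_
      simp only [hnorm]
      exact hs
  have hterm : ∀ k : ℤ, ∫ x in (0:ℝ)..(2 * Real.pi),
      f x * ((sym α k : ℂ) * fc u k * cexp (I * (k:ℂ) * (x:ℂ))) =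
      (sym α k : ℂ) * fc u k * (2 * Real.pi * fc f (-k)) := by
    intro k
    have h2 : ∀ x : ℝ, f x * ((sym α k : ℂ) * fc u k * cexp (I * (k:ℂ) * (x:ℂ))) =
        (sym α k : ℂ) * fc u k * (cexp (-(I * ((-k : ℤ):ℂ) * (x:ℂ))) * f x) := by
      intro x
      have : cexp (-(I * ((-k : ℤ):ℂ) * (x:ℂ))) = cexp (I * (k:ℂ) * (x:ℂ)) := by
        congr 1
        push_cast
        ring
      rw [this]; ring
    simp only [h2]
    rw [intervalIntegral.integral_const_mul]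
    congr 1
    unfold fc
    have hpi : (Real.pi : ℂ) ≠ 0 := by exact_mod_cast Real.pi_ne_zero
    field_simp
  simp only [hterm] at hsum
  refine le_of_tendsto hsum.norm (Filter.Eventually.of_forall (fun s => ?_))
  calc ‖∑ k ∈ s, (sym α k : ℂ) * fc u k * (2 * Real.pi * fc f (-k))‖
      ≤ ∑ k ∈ s, ‖(sym α k : ℂ) * fc u k * (2 * Real.pi * fc f (-k))‖ := norm_sum_le _ _
    _ = 2 * Real.pi * ∑ k ∈ s, (Real.sqrt (sym α k) * ‖fc u k‖) *
          (Real.sqrt (sym α k) * ‖fc f (-k)‖) := by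
        rw [Finset.mul_sum]
        refine Finset.sum_congr rfl (fun k _ => ?_)
        have h3 : ‖(2 * Real.pi * fc f (-k) : ℂ)‖ = 2 * Real.pi * ‖fc f (-k)‖ := by
          rw [norm_mul, norm_mul, Complex.norm_real, Real.norm_of_nonneg Real.pi_pos.le]
          norm_num
        rw [norm_mul, norm_mul, h3, Complex.norm_real,
          Real.norm_of_nonneg (pr_sym_nonneg α k)]
        have h4 := Real.mul_self_sqrt (pr_sym_nonneg α k)
        calc sym α k * ‖fc u k‖ * (2 * Real.pi * ‖fc f (-k)‖)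
            = (Real.sqrt (sym α k) * Real.sqrt (sym α k)) * ‖fc u k‖ *
              (2 * Real.pi * ‖fc f (-k)‖) := by rw [h4]
          _ = _ := by ring
    _ ≤ 2 * Real.pi * (Real.sqrt (∑ k ∈ s, (Real.sqrt (sym α k) * ‖fc u k‖) ^ 2) *
          Real.sqrt (∑ k ∈ s, (Real.sqrt (sym α k) * ‖fc f (-k)‖) ^ 2)) := by
        gcongr
        exact Real.sum_mul_le_sqrt_mul_sqrt _ _ _
    _ ≤ 2 * Real.pi * (Real.sqrt B1 * Real.sqrt B2) := by
        gcongr
        · refine le_trans (le_of_eq ?_) (hB1 s)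
          refine Finset.sum_congr rfl (fun k _ => ?_)
          rw [mul_pow, Real.sq_sqrt (pr_sym_nonneg α k)]
        · refine le_trans (le_of_eq ?_) (pr_nb_neg α f B2 hB2 s)
          refine Finset.sum_congr rfl (fun k _ => ?_)
          rw [mul_pow, Real.sq_sqrt (pr_sym_nonneg α k)]
    _ = 2 * Real.pi * Real.sqrt (B1 * B2) := by rw [Real.sqrt_mul hB1']

theorem pairing (α : ℝ) (h0 : 0 < α) (h1 : α < 1) (u f : ℝ → ℂ) (hu : ContDiff ℝ 2 u)
    (hup : Function.Periodic u (2 * Real.pi)) (hf : Reg f) (B1 B2 : ℝ) (hB1 : NB α u B1) (hB2 : NB α f B2) :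
    ‖∫ x in (0:ℝ)..(2 * Real.pi), f x * absD α u x‖ ≤ 2 * Real.pi * Real.sqrt (B1 * B2) ∧
    ‖∫ x in (0:ℝ)..(2 * Real.pi), f x * (starRingEnd ℂ) (absD α u x)‖ ≤ 2 * Real.pi * Real.sqrt (B1 * B2) := by
  refine ⟨pr_main α h1 u f hu hup hf B1 B2 hB1 hB2, ?_⟩
  obtain ⟨hfm, hfp, C, hC⟩ := hf
  have hr : Reg (fun x => (starRingEnd ℂ) (f x)) := by
    refine ⟨Complex.continuous_conj.measurable.comp hfm, fun x => ?_, C, fun x => ?_⟩
    · show (starRingEnd ℂ) (f (x + 2 * Real.pi)) = (starRingEnd ℂ) (f x)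
      rw [hfp x]
    · show ‖(starRingEnd ℂ) (f x)‖ ≤ C
      rw [RCLike.norm_conj]
      exact hC x
  have hn : NB α (fun x => (starRingEnd ℂ) (f x)) B2 := by
    intro s
    refine le_trans (le_of_eq ?_) (pr_nb_neg α f B2 hB2 s)
    refine Finset.sum_congr rfl (fun k _ => ?_)
    rw [pr_fc_conj, RCLike.norm_conj]
  have h2 := pr_main α h1 u _ hu hup hr B1 B2 hB1 hn
  have h3 : ∫ x in (0:ℝ)..(2 * Real.pi), f x * (starRingEnd ℂ) (absD α u x) =
      (starRingEnd ℂ) (∫ x in (0:ℝ)..(2 * Real.pi), (starRingEnd ℂ) (f x) * absD α u x) := by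
    rw [← pr_conj _ _ _ (by positivity)]
    refine intervalIntegral.integral_congr (fun x _ => ?_)
    show f x * (starRingEnd ℂ) (absD α u x) =
      (starRingEnd ℂ) ((starRingEnd ℂ) (f x) * absD α u x)
    rw [map_mul, Complex.conj_conj]
  rw [h3, RCLike.norm_conj]
  exact h2


end Xpairing
end MMT
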