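import Pool.Agent.Helper823.MMT.Defs
open Complex MeasureTheory Filter Topology Set
open scoped ContDiff ENNReal
namespace MMT
namespace Xpoin

theorem pc_ii {E : Type} [NormedAddCommGroup E] [MeasurableSpace E] [BorelSpace E]
    [SecondCountableTopology E] (f : ℝ → E) (hf : Measurable f) (K : ℝ) (hK : ∀ x, ‖f x‖ ≤ K)
    (a b : ℝ) : IntervalIntegrable f volume a b := by
  rw [intervalIntegrable_iff]
  unfold uIoc
  exact Integrable.of_bound (C := K) hf.aestronglyMeasurable (ae_of_all _ hK)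

/-- Jensen for the square -/
theorem pc_jensen (ρ : ℝ) (hρ : 0 < ρ) (g : ℝ → ℂ) (hg : Measurable g) (K : ℝ)
    (hK : ∀ x, ‖g x‖ ≤ K) :
    ‖∫ h in (0:ℝ)..ρ, g h‖ ^ 2 ≤ ρ * ∫ h in (0:ℝ)..ρ, ‖g h‖ ^ 2 := by
  have hK0 : 0 ≤ K := (norm_nonneg _).trans (hK 0)
  have hn : Measurable fun h => ‖g h‖ := hg.norm
  have i1 : IntervalIntegrable (fun h => ‖g h‖) volume 0 ρ :=
    pc_ii _ hn K (fun x => by rw [norm_norm]; exact hK x) 0 ρ
  have i2 : IntervalIntegrable (fun h => ‖g h‖ ^ 2) volume 0 ρ :=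
    pc_ii _ (hn.pow_const 2) (K ^ 2) (fun x => by
      rw [norm_pow, norm_norm]; exact pow_le_pow_left₀ (norm_nonneg _) (hK x) 2) 0 ρ
  obtain ⟨N, hN⟩ : ∃ N : ℝ, N = ∫ h in (0:ℝ)..ρ, ‖g h‖ := ⟨_, rfl⟩
  have h1 : ‖∫ h in (0:ℝ)..ρ, g h‖ ≤ N := by
    rw [hN]; exact intervalIntegral.norm_integral_le_integral_norm hρ.le
  have h2 : 0 ≤ ∫ h in (0:ℝ)..ρ, (‖g h‖ ^ 2 - 2 * (N / ρ) * ‖g h‖ + (N / ρ) ^ 2) := by
    apply intervalIntegral.integral_nonneg hρ.le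
    intro h _
    nlinarith [sq_nonneg (‖g h‖ - N / ρ)]
  have h3 : ∫ h in (0:ℝ)..ρ, (‖g h‖ ^ 2 - 2 * (N / ρ) * ‖g h‖ + (N / ρ) ^ 2) =
      (∫ h in (0:ℝ)..ρ, ‖g h‖ ^ 2) - 2 * (N / ρ) * N + (N / ρ) ^ 2 * ρ := by
    rw [intervalIntegral.integral_add (i2.sub (i1.const_mul _)) intervalIntegrable_const,
      intervalIntegral.integral_sub i2 (i1.const_mul _), intervalIntegral.integral_const_mul, ← hN,
      intervalIntegral.integral_const, smul_eq_mul]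
    ring
  rw [h3] at h2
  have h4 : N ^ 2 ≤ ρ * ∫ h in (0:ℝ)..ρ, ‖g h‖ ^ 2 := by
    have h5 : 2 * (N / ρ) * N - (N / ρ) ^ 2 * ρ = N ^ 2 / ρ := by field_simp; ring
    have h6 : N ^ 2 / ρ ≤ ∫ h in (0:ℝ)..ρ, ‖g h‖ ^ 2 := by linarith
    rw [div_le_iff₀ hρ] at h6
    linarith
  exact (pow_le_pow_left₀ (norm_nonneg _) h1 2).trans h4

theorem poincare (α D η ρ a b : ℝ) (h0 : 0 < α) (hD : 0 ≤ D) (hρ : 0 < ρ) (ha : 0 ≤ a) (hab : a < b) (hb : b ≤ 2 * Real.pi)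
    (F : ℝ → ℂ) (hF : Reg F) (hDif : ∀ h : ℝ, 0 < h → Dif F h ≤ D * h ^ α)
    (hη : ∀ x ∈ Icc a b, ‖∫ y in x..(x + ρ), F y‖ ≤ η) :
    ∫ x in a..b, ‖F x‖ ^ 2 ≤ 2 * (b - a) * η ^ 2 / ρ ^ 2 + 2 * D * ρ ^ α := by
  obtain ⟨hFm, hFp, C, hC⟩ := hF
  have hC0 : 0 ≤ C := (norm_nonneg _).trans (hC 0)
  have hη0 : 0 ≤ η := (norm_nonneg _).trans (hη a ⟨le_refl _, hab.le⟩)
  have hgm : Measurable (fun p : ℝ × ℝ => ‖F (p.1 + p.2) - F p.1‖ ^ 2) :=
    (((hFm.comp (measurable_fst.add measurable_snd)).sub (hFm.comp measurable_fst)).norm).pow_const 2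
  have hgb : ∀ x h : ℝ, ‖F (x + h) - F x‖ ≤ 2 * C := fun x h =>
    (norm_sub_le _ _).trans (by linarith [hC (x + h), hC x])
  have hgb2 : ∀ x h : ℝ, ‖‖F (x + h) - F x‖ ^ 2‖ ≤ (2 * C) ^ 2 := fun x h => by
    rw [norm_pow, norm_norm]; exact pow_le_pow_left₀ (norm_nonneg _) (hgb x h) 2
  -- pointwise bound
  have hpt : ∀ x ∈ Icc a b, ‖F x‖ ^ 2 ≤ 2 * (η / ρ) ^ 2 + 2 * (ρ⁻¹ * ∫ h in (0:ℝ)..ρ, ‖F (x + h) - F x‖ ^ 2) := by
    intro x hx
    have hgxm : Measurable fun h => F (x + h) - F x :=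
      (hFm.comp (measurable_const.add measurable_id)).sub measurable_const
    have hj := pc_jensen ρ hρ (fun h => F (x + h) - F x) hgxm (2 * C) (hgb x)
    have i1 : IntervalIntegrable (fun h => F (x + h)) volume 0 ρ :=
      pc_ii _ (hFm.comp (measurable_const.add measurable_id)) C (fun h => hC _) 0 ρ
    have h1 : ∫ h in (0:ℝ)..ρ, (F (x + h) - F x) = (∫ y in x..(x + ρ), F y) - (ρ : ℂ) * F x := by
      rw [intervalIntegral.integral_sub i1 intervalIntegrable_const,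
        intervalIntegral.integral_const, intervalIntegral.integral_comp_add_left (fun y => F y) x]
      simp
    have h2 : (ρ : ℂ) * F x = (∫ y in x..(x + ρ), F y) - ∫ h in (0:ℝ)..ρ, (F (x + h) - F x) := by
      rw [h1]; ring
    have h3 : ρ * ‖F x‖ ≤ η + ‖∫ h in (0:ℝ)..ρ, (F (x + h) - F x)‖ := by
      have : ρ * ‖F x‖ = ‖(ρ : ℂ) * F x‖ := by
        rw [norm_mul, Complex.norm_real, Real.norm_of_nonneg hρ.le]
      rw [this, h2]
      refine (norm_sub_le _ _).trans ?_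
      have := hη x hx
      linarith
    obtain ⟨M, hM⟩ : ∃ M : ℝ, M = ‖∫ h in (0:ℝ)..ρ, (F (x + h) - F x)‖ := ⟨_, rfl⟩
    obtain ⟨V, hV⟩ : ∃ V : ℝ, V = ∫ h in (0:ℝ)..ρ, ‖F (x + h) - F x‖ ^ 2 := ⟨_, rfl⟩
    rw [← hM] at h3
    rw [← hM, ← hV] at hj
    rw [← hV]
    have hM0 : 0 ≤ M := by rw [hM]; exact norm_nonneg _
    have h4 : (ρ * ‖F x‖) ^ 2 ≤ 2 * η ^ 2 + 2 * (ρ * V) := by
      calc (ρ * ‖F x‖) ^ 2 ≤ (η + M) ^ 2 := pow_le_pow_left₀ (by positivity) h3 2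
        _ ≤ 2 * η ^ 2 + 2 * M ^ 2 := by nlinarith [sq_nonneg (η - M)]
        _ ≤ 2 * η ^ 2 + 2 * (ρ * V) := by linarith
    have h5 : ‖F x‖ ^ 2 = (ρ * ‖F x‖) ^ 2 / ρ ^ 2 := by field_simp
    rw [h5, div_le_iff₀ (by positivity)]
    refine h4.trans (le_of_eq ?_)
    field_simp
  -- integrability on the rectangle
  have hprod : Integrable (fun p : ℝ × ℝ => ‖F (p.1 + p.2) - F p.1‖ ^ 2)
      ((volume.restrict (Ioc a b)).prod (volume.restrict (Ioc 0 ρ))) := by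
    exact Integrable.of_bound (C := (2 * C) ^ 2) hgm.aestronglyMeasurable
      (ae_of_all _ fun p => hgb2 p.1 p.2)
  have hG1 : Integrable (fun x => ∫ h, ‖F (x + h) - F x‖ ^ 2 ∂(volume.restrict (Ioc 0 ρ)))
      (volume.restrict (Ioc a b)) := hprod.integral_prod_left
  have hG2 : Integrable (fun h => ∫ x, ‖F (x + h) - F x‖ ^ 2 ∂(volume.restrict (Ioc a b)))
      (volume.restrict (Ioc 0 ρ)) := hprod.integral_prod_right
  have hswap : ∫ x in a..b, (∫ h in (0:ℝ)..ρ, ‖F (x + h) - F x‖ ^ 2) =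
      ∫ h in (0:ℝ)..ρ, (∫ x in a..b, ‖F (x + h) - F x‖ ^ 2) := by
    simp only [intervalIntegral.integral_of_le hab.le, intervalIntegral.integral_of_le hρ.le]
    exact integral_integral_swap hprod
  have hGi : IntervalIntegrable (fun x => ∫ h in (0:ℝ)..ρ, ‖F (x + h) - F x‖ ^ 2) volume a b := by
    rw [intervalIntegrable_iff_integrableOn_Ioc_of_le hab.le]
    simp only [intervalIntegral.integral_of_le hρ.le]
    exact hG1
  have hHi : IntervalIntegrable (fun h => ∫ x in a..b, ‖F (x + h) - F x‖ ^ 2) volume 0 ρ := by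
    rw [intervalIntegrable_iff_integrableOn_Ioc_of_le hρ.le]
    simp only [intervalIntegral.integral_of_le hab.le]
    exact hG2
  have hin : ∀ h ∈ Ioc 0 ρ, ∫ x in a..b, ‖F (x + h) - F x‖ ^ 2 ≤ D * ρ ^ α := by
    intro h hh
    have hmx : Measurable fun x => ‖F (x + h) - F x‖ ^ 2 :=
      (((hFm.comp (measurable_id.add measurable_const)).sub hFm).norm).pow_const 2
    have h1 : ∫ x in a..b, ‖F (x + h) - F x‖ ^ 2 ≤ Dif F h := by
      unfold Dif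
      refine intervalIntegral.integral_mono_interval ha hab.le hb ?_ ?_
      · exact ae_of_all _ fun x => by positivity
      · exact pc_ii _ hmx ((2 * C) ^ 2) (fun x => hgb2 x h) _ _
    refine h1.trans ((hDif h hh.1).trans ?_)
    exact mul_le_mul_of_nonneg_left (Real.rpow_le_rpow hh.1.le hh.2 h0.le) hD
  have hfinal : ∫ x in a..b, (∫ h in (0:ℝ)..ρ, ‖F (x + h) - F x‖ ^ 2) ≤ D * ρ ^ α * ρ := by
    rw [hswap]
    calc ∫ h in (0:ℝ)..ρ, (∫ x in a..b, ‖F (x + h) - F x‖ ^ 2) ≤ ∫ h in (0:ℝ)..ρ, (D * ρ ^ α) := by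
          refine intervalIntegral.integral_mono_on_of_le_Ioo hρ.le hHi intervalIntegrable_const ?_
          intro h hh
          exact hin h ⟨hh.1, hh.2.le⟩
      _ = D * ρ ^ α * ρ := by
          rw [intervalIntegral.integral_const, smul_eq_mul]; ring
  have hFi : IntervalIntegrable (fun x => ‖F x‖ ^ 2) volume a b :=
    pc_ii _ (hFm.norm.pow_const 2) (C ^ 2) (fun x => by
      rw [norm_pow, norm_norm]; exact pow_le_pow_left₀ (norm_nonneg _) (hC x) 2) a b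
  calc ∫ x in a..b, ‖F x‖ ^ 2
      ≤ ∫ x in a..b, (2 * (η / ρ) ^ 2 + 2 * (ρ⁻¹ * ∫ h in (0:ℝ)..ρ, ‖F (x + h) - F x‖ ^ 2)) := by
        exact intervalIntegral.integral_mono_on hab.le hFi
          (intervalIntegrable_const.add ((hGi.const_mul _).const_mul _)) hpt
    _ = 2 * (b - a) * η ^ 2 / ρ ^ 2 +
        2 * (ρ⁻¹ * ∫ x in a..b, (∫ h in (0:ℝ)..ρ, ‖F (x + h) - F x‖ ^ 2)) := by
        rw [intervalIntegral.integral_add intervalIntegrable_const ((hGi.const_mul _).const_mul _),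
          intervalIntegral.integral_const_mul, intervalIntegral.integral_const_mul,
          intervalIntegral.integral_const_mul,
          intervalIntegral.integral_const, smul_eq_mul, div_pow]
        ring
    _ ≤ 2 * (b - a) * η ^ 2 / ρ ^ 2 + 2 * D * ρ ^ α := by
        have h7 : ρ⁻¹ * ∫ x in a..b, (∫ h in (0:ℝ)..ρ, ‖F (x + h) - F x‖ ^ 2) ≤ D * ρ ^ α := by
          rw [inv_mul_le_iff₀ hρ]
          linarith
        linarith


end Xpoin
end MMT
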