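import Pool.Agent.Helper823.MMT.Xparseval
import Pool.Agent.Helper823.MMT.Xmulup
import Pool.Agent.Helper823.MMT.Xmullow
import Pool.Agent.Helper823.MMT.Xcomp
import Pool.Agent.Helper823.MMT.Xind
import Pool.Agent.Helper823.MMT.Xnumind
import Pool.Agent.Helper823.MMT.Xnbsb
import Pool.Agent.Helper823.MMT.Xpairing
import Pool.Agent.Helper823.MMT.Xevo
import Pool.Agent.Helper823.MMT.Xgder
import Pool.Agent.Helper823.MMT.Xgest
import Pool.Agent.Helper823.MMT.Xmest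
import Pool.Agent.Helper823.MMT.Xpoin
import Pool.Agent.Helper823.MMT.Xosc
import Pool.Agent.Helper823.MMT.Xmemb
import Pool.Agent.Helper823.MMT.Xl2
import Pool.Agent.Helper823.MMT.Xnum
import Pool.Agent.Helper823.MMT.Xbdd
import Pool.Agent.Helper823.MMT.Xdatmass
import Pool.Agent.Helper823.MMT.Xl1
import Pool.Agent.Helper823.MMT.Xextract
open Complex MeasureTheory Filter Topology Set
open scoped ContDiff ENNReal
namespace MMT
open Xparseval Xmulup Xmullow Xcomp Xind Xnumind Xnbsb Xpairing Xevo Xgder Xgest Xmest Xpoin Xosc Xmemb Xl2 Xnum Xbdd Xdatmass Xl1 Xextract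

theorem dif_nonneg (f : ℝ → ℂ) (h : ℝ) : 0 ≤ Dif f h := by
  unfold Dif
  apply intervalIntegral.integral_nonneg (by positivity)
  intro x _; positivity

theorem Reg_comp (u : ℝ → ℂ) (hu : Reg u) (F : ℂ → ℂ) (hF : Continuous F) (K : ℝ) (hK : ∀ z, ‖F z‖ ≤ K) :
    Reg (fun x => F (u x)) :=
  ⟨hF.measurable.comp hu.1, fun x => by simp only [hu.2.1 x], K, fun x => hK _⟩

theorem Reg_mul (p f : ℝ → ℂ) (hp : Reg p) (hf : Reg f) : Reg (fun x => p x * f x) := by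
  obtain ⟨h1, h2, C1, h3⟩ := hp
  obtain ⟨g1, g2, C2, g3⟩ := hf
  refine ⟨h1.mul g1, fun x => by simp only [h2 x, g2 x], C1 * C2, fun x => ?_⟩
  rw [norm_mul]
  exact mul_le_mul (h3 x) (g3 x) (norm_nonneg _) ((norm_nonneg _).trans (h3 x))

theorem lip_cont (F : ℂ → ℂ) (L : ℝ) (hF : ∀ z w, ‖F z - F w‖ ≤ L * ‖z - w‖) : Continuous F := by
  have : LipschitzWith (Real.toNNReal L) F := by
    apply LipschitzWith.of_dist_le_mul
    intro z w
    rw [dist_eq_norm, dist_eq_norm]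
    refine (hF z w).trans ?_
    apply mul_le_mul_of_nonneg_right _ (norm_nonneg _)
    exact Real.le_coe_toNNReal L
  exact this.continuous

theorem SB_indp (α : ℝ) (h0 : 0 < α) (h1 : α < 1) : ∃ C : ℝ, 0 < C ∧ ∀ (a b : ℝ), 0 ≤ a → a < b →
    b ≤ 2 * Real.pi → SB α (indp a b) (C * (b - a) ^ (1 - α)) := by
  obtain ⟨C, hC, h⟩ := num_ind α h0 h1
  refine ⟨4 * C, by positivity, fun a b ha hab hb n => ?_⟩
  have := h (b - a) n (by linarith) (by linarith)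
  calc ∑ j ∈ Finset.range n, (2:ℝ) ^ (α * j) * Dif (indp a b) (Real.pi / 2 ^ j)
      ≤ ∑ j ∈ Finset.range n, 4 * ((2:ℝ) ^ (α * j) * min (Real.pi / 2 ^ j) (b - a)) := by
        apply Finset.sum_le_sum
        intro j _
        have h2 : Real.pi / 2 ^ j ≤ Real.pi := by
          apply div_le_self Real.pi_pos.le
          exact one_le_pow₀ (by norm_num)
        have := dif_indp a b (Real.pi / 2 ^ j) ha hab hb (by positivity) h2
        calc _ ≤ (2:ℝ) ^ (α * j) * (4 * min (Real.pi / 2 ^ j) (b - a)) := by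
              apply mul_le_mul_of_nonneg_left this (by positivity)
          _ = _ := by ring
    _ = 4 * ∑ j ∈ Finset.range n, ((2:ℝ) ^ (α * j) * min (Real.pi / 2 ^ j) (b - a)) := by
        rw [Finset.mul_sum]
    _ ≤ _ := by nlinarith

theorem NB_main (α : ℝ) (h0 : 0 < α) (h1 : α < 1) : ∃ C : ℝ, 0 < C ∧
    (∀ (u : ℝ → ℂ) (F : ℂ → ℂ) (L B : ℝ), Reg u → NB α u B → 0 ≤ L →
      (∀ z w, ‖F z - F w‖ ≤ L * ‖z - w‖) → (∃ K', ∀ z, ‖F z‖ ≤ K') → NB α (fun x => F (u x)) (C * (L ^ 2 * B))) ∧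
    (∀ (u : ℝ → ℂ) (F : ℂ → ℂ) (L K B a b : ℝ), Reg u → NB α u B → 0 ≤ L →
      (∀ z w, ‖F z - F w‖ ≤ L * ‖z - w‖) → (∀ z, ‖F z‖ ≤ K) → 0 ≤ a → a < b → b ≤ 2 * Real.pi →
      NB α (fun x => indp a b x * F (u x)) (C * (L ^ 2 * B + K ^ 2 * (b - a) ^ (1 - α)))) := by
  obtain ⟨C1, hC1, H1⟩ := mult_upper α h0 h1
  obtain ⟨C2, hC2, H2⟩ := SB_indp α h0 h1
  have hlow := mult_lower α h0 h1
  refine ⟨4 * Real.pi * C1 + 2 * C2, by positivity, ?_, ?_⟩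
  · intro u F L B hu hB hL hF hK
    obtain ⟨K', hK'⟩ := hK
    have hB0 : 0 ≤ B := by simpa using hB ∅
    have e1 := NB_to_SB_aux α C1 hC1 u B (parseval_dif u hu) H1 hB
    have e2 := SB_comp α u hu F L _ hL hF e1
    have hR := Reg_comp u hu F (lip_cont F L hF) K' hK'
    have e3 := SB_to_NB_aux α _ _ (parseval_dif _ hR) hlow e2
    intro s
    refine (e3 s).trans ?_
    have hp := Real.pi_pos
    have : 0 ≤ L ^ 2 * B := by positivity
    have h3 : 0 ≤ (2 * Real.pi * C1 + 2 * C2) * (L ^ 2 * B) := by positivity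
    nlinarith
  · intro u F L K B a b hu hB hL hF hK ha hab hb
    have hB0 : 0 ≤ B := by simpa using hB ∅
    have e1 := NB_to_SB_aux α C1 hC1 u B (parseval_dif u hu) H1 hB
    have e2 := SB_comp α u hu F L _ hL hF e1
    have hR := Reg_comp u hu F (lip_cont F L hF) K hK
    have hi := Reg_indp a b
    have hi1 : ∀ x, ‖indp a b x‖ ≤ 1 := by
      intro x
      unfold indp
      split_ifs <;> simp
    have e3 := SB_mul α (indp a b) _ hi hR K _ _ hi1 (fun x => hK _) (H2 a b ha hab hb) e2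
    have e4 := SB_to_NB_aux α _ _ (parseval_dif _ (Reg_mul _ _ hi hR)) hlow e3
    intro s
    refine (e4 s).trans ?_
    have hp := Real.pi_pos
    have h5 : 0 ≤ L ^ 2 * B := by positivity
    have h6 : 0 ≤ K ^ 2 * (b - a) ^ (1 - α) := by
      have : 0 ≤ b - a := by linarith
      positivity
    have h3 : 0 ≤ C2 * (L ^ 2 * B) := by positivity
    have h4 : 0 ≤ Real.pi * C1 * (K ^ 2 * (b - a) ^ (1 - α)) := by positivity
    nlinarith

theorem sol_contDiffAt {α T : ℝ} {v : ℝ → ℝ → ℂ} (hv : IsSmoothSol α T v) (s x : ℝ) (hs : s ∈ Ioo (-T) T) :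
    ContDiffAt ℝ ∞ (fun p : ℝ × ℝ => v p.1 p.2) (s, x) := by
  have hU : IsOpen (Ioo (-T) T ×ˢ (univ : Set ℝ)) := isOpen_Ioo.prod isOpen_univ
  have h : ContDiffOn ℝ ∞ (fun p : ℝ × ℝ => v p.1 p.2) (Ioo (-T) T ×ˢ univ) :=
    hv.smooth.mono (Set.prod_mono Ioo_subset_Icc_self le_rfl)
  exact h.contDiffAt (hU.mem_nhds ⟨hs, trivial⟩)

theorem sol_contDiff {α T : ℝ} {v : ℝ → ℝ → ℂ} (hv : IsSmoothSol α T v) (s : ℝ) (hs : s ∈ Ioo (-T) T) :
    ContDiff ℝ 2 (v s) := by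
  rw [contDiff_iff_contDiffAt]
  intro x
  have h1 : ContDiffAt ℝ 2 (fun p : ℝ × ℝ => v p.1 p.2) (s, x) :=
    contDiffAt_infty.1 (sol_contDiffAt hv s x hs) 2
  have h2 : ContDiffAt ℝ 2 (fun y : ℝ => ((s, y) : ℝ × ℝ)) x := contDiffAt_const.prodMk contDiffAt_id
  exact ContDiffAt.comp (g := fun p : ℝ × ℝ => v p.1 p.2) x h1 h2

theorem sol_hasDerivAt {α T : ℝ} {v : ℝ → ℝ → ℂ} (hv : IsSmoothSol α T v) (s x : ℝ) (hs : s ∈ Ioo (-T) T) :
    HasDerivAt (fun s => v s x) (fderiv ℝ (fun p : ℝ × ℝ => v p.1 p.2) (s, x) (1, 0)) s := by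
  have h1 := ((sol_contDiffAt hv s x hs).differentiableAt (by simp)).hasFDerivAt
  have h2 : HasDerivAt (fun y : ℝ => ((y, x) : ℝ × ℝ)) ((1 : ℝ), (0 : ℝ)) s :=
    (hasDerivAt_id s).prodMk (hasDerivAt_const s x)
  exact HasFDerivAt.comp_hasDerivAt (l := fun p : ℝ × ℝ => v p.1 p.2) s h1 h2

theorem sol_cont_deriv {α T : ℝ} {v : ℝ → ℝ → ℂ} (hv : IsSmoothSol α T v) :
    ContinuousOn (fun p : ℝ × ℝ => deriv (fun s => v s p.2) p.1) (Ioo (-T) T ×ˢ univ) := by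
  have hU : IsOpen (Ioo (-T) T ×ˢ (univ : Set ℝ)) := isOpen_Ioo.prod isOpen_univ
  have h : ContDiffOn ℝ ∞ (fun p : ℝ × ℝ => v p.1 p.2) (Ioo (-T) T ×ˢ univ) :=
    hv.smooth.mono (Set.prod_mono Ioo_subset_Icc_self le_rfl)
  have h1 := h.continuousOn_fderiv_of_isOpen hU (by simp)
  have h2 : ContinuousOn (fun p : ℝ × ℝ => fderiv ℝ (fun p : ℝ × ℝ => v p.1 p.2) p (1, 0)) (Ioo (-T) T ×ˢ univ) :=
    h1.clm_apply continuousOn_const
  apply h2.congr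
  rintro ⟨s, x⟩ ⟨hs, _⟩
  exact (sol_hasDerivAt hv s x hs).deriv

theorem cont_per_bdd (f : ℝ → ℂ) (hf : Continuous f) (hp : Function.Periodic f (2 * Real.pi)) : Reg f := by
  refine ⟨hf.measurable, hp, ?_⟩
  obtain ⟨C, hC⟩ := (isCompact_Icc (a := (0:ℝ)) (b := 2 * Real.pi)).exists_bound_of_continuousOn hf.continuousOn
  refine ⟨C, fun x => ?_⟩
  obtain ⟨y, hy, hxy⟩ := hp.exists_mem_Ico₀ (by positivity) x
  rw [hxy]
  exact hC y ⟨hy.1, hy.2.le⟩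

theorem sol_reg {α T : ℝ} {v : ℝ → ℝ → ℂ} (hv : IsSmoothSol α T v) (s : ℝ) (hs : s ∈ Ioo (-T) T) : Reg (v s) :=
  cont_per_bdd _ (sol_contDiff hv s hs).continuous (hv.periodic s (Ioo_subset_Icc_self hs))

theorem sol_w {α T : ℝ} {v : ℝ → ℝ → ℂ} (hv : IsSmoothSol α T v) (s x : ℝ) (hs : s ∈ Ioo (-T) T) :
    deriv (fun s => v s x) s + I * ((‖v s x‖ ^ 2 : ℝ) : ℂ) * v s x = -I * absD α (v s) x := by
  have h := hv.eqn s hs x
  have hI : I * I = -1 := I_mul_I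
  linear_combination (-I) * h + (deriv (fun s => v s x) s) * hI

theorem int_indp (a b : ℝ) (ha : 0 ≤ a) (hab : a < b) (hb : b ≤ 2 * Real.pi) (f : ℝ → ℂ) :
    ∫ x in (0:ℝ)..(2 * Real.pi), indp a b x * f x = ∫ x in a..b, f x := by
  rw [intervalIntegral.integral_of_le (by positivity), intervalIntegral.integral_of_le hab.le]
  have h1 : ∫ x in Ioc 0 (2 * Real.pi), indp a b x * f x = ∫ x in Ioc 0 (2 * Real.pi), (Ico a b).indicator f x := by
    rw [← integral_Ico_eq_integral_Ioc, ← integral_Ico_eq_integral_Ioc]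
    apply setIntegral_congr_fun measurableSet_Ico
    intro x hx
    simp only
    rw [indp_eq a b x hx, Set.indicator_apply]
    split_ifs <;> simp
  rw [h1, ← integral_Ico_eq_integral_Ioc, setIntegral_indicator measurableSet_Ico, ← integral_Ico_eq_integral_Ioc]
  congr 2
  ext x
  simp only [mem_inter_iff, mem_Ico]
  constructor
  · rintro ⟨_, h⟩; exact h
  · rintro ⟨h1, h2⟩; exact ⟨⟨by linarith, by linarith⟩, h1, h2⟩

theorem evo_bound (α : ℝ) (h0 : 0 < α) (h1 : α < 1) : ∃ C : ℝ, 0 < C ∧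
    ∀ (T t : ℝ) (v : ℝ → ℝ → ℂ) (B L K a b : ℝ) (G P Q : ℝ → ℂ → ℂ), IsSmoothSol α T v → 0 < t → t < T →
      (∀ s ∈ Icc 0 t, NB α (v s) B) → 0 ≤ L → 0 ≤ a → a < b → b ≤ 2 * Real.pi →
      (∀ s, Continuous (G s)) → Continuous (fun p : ℝ × ℂ => P p.1 p.2) →
      Continuous (fun p : ℝ × ℂ => Q p.1 p.2) →
      (∀ (c : ℝ → ℂ) (c' : ℂ) (s : ℝ), HasDerivAt c c' s → HasDerivAt (fun s => G s (c s))
        (P s (c s) * (c' + I * ((‖c s‖ ^ 2 : ℝ) : ℂ) * c s) +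
        Q s (c s) * (starRingEnd ℂ) (c' + I * ((‖c s‖ ^ 2 : ℝ) : ℂ) * c s)) s) →
      (∀ s ∈ Icc 0 t, ∀ z, ‖P s z‖ ≤ K) → (∀ s ∈ Icc 0 t, ∀ z, ‖Q s z‖ ≤ K) →
      (∀ s ∈ Icc 0 t, ∀ z w, ‖P s z - P s w‖ ≤ L * ‖z - w‖) →
      (∀ s ∈ Icc 0 t, ∀ z w, ‖Q s z - Q s w‖ ≤ L * ‖z - w‖) →
      ‖(∫ x in a..b, G t (v t x)) - ∫ x in a..b, G 0 (v 0 x)‖ ≤
        t * (4 * Real.pi * Real.sqrt (B * (C * (L ^ 2 * B + K ^ 2 * (b - a) ^ (1 - α))))) := by
  obtain ⟨C, hC, hN1, hN2⟩ := NB_main α h0 h1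
  refine ⟨C, hC, ?_⟩
  intro T t v B L K a b G P Q hv ht htT hB hL ha hab hb hGc hPc hQc hG hPK hQK hPL hQL
  have hsub : ∀ s ∈ Icc 0 t, s ∈ Ioo (-T) T := fun s hs => ⟨by linarith [hs.1], by linarith [hs.2]⟩
  have hsub2 : (Icc 0 t ×ˢ (univ : Set ℝ)) ⊆ Ioo (-T) T ×ˢ univ := Set.prod_mono hsub le_rfl
  apply evo_abs t _ a b ht hab.le v (fun s x => deriv (fun s => v s x) s)
    (hv.smooth.continuousOn.mono (Set.prod_mono (fun s hs => Ioo_subset_Icc_self (hsub s hs)) le_rfl))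
    ((sol_cont_deriv hv).mono hsub2)
    (fun s hs x => by
      have := sol_hasDerivAt hv s x (hsub s hs)
      rw [this.deriv]; exact this) G P Q hGc hPc hQc hG
  intro s hs
  have hs' := hsub s hs
  have hreg := sol_reg hv s hs'
  have hCD := sol_contDiff hv s hs'
  have hper := hv.periodic s (Ioo_subset_Icc_self hs')
  have hPs : Continuous (P s) := hPc.comp (continuous_const.prodMk continuous_id)
  have hQs : Continuous (Q s) := hQc.comp (continuous_const.prodMk continuous_id)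
  have eP := hN2 (v s) (P s) L K B a b hreg (hB s hs) hL (hPL s hs) (hPK s hs) ha hab hb
  have eQ := hN2 (v s) (Q s) L K B a b hreg (hB s hs) hL (hQL s hs) (hQK s hs) ha hab hb
  have rP := Reg_mul _ _ (Reg_indp a b) (Reg_comp (v s) hreg (P s) hPs K (hPK s hs))
  have rQ := Reg_mul _ _ (Reg_indp a b) (Reg_comp (v s) hreg (Q s) hQs K (hQK s hs))
  have p1 := (pairing α h0 h1 (v s) _ hCD hper rP B _ (hB s hs) eP).1
  have p2 := (pairing α h0 h1 (v s) _ hCD hper rQ B _ (hB s hs) eQ).2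
  have hw : ∀ x, deriv (fun s => v s x) s + I * ((‖v s x‖ ^ 2 : ℝ) : ℂ) * v s x = -I * absD α (v s) x :=
    fun x => sol_w hv s x hs'
  -- continuity of absD
  have hdc : Continuous (fun x => deriv (fun s => v s x) s) := by
    have h := sol_cont_deriv hv
    rw [← continuousOn_univ]
    exact h.comp (f := fun x : ℝ => ((s, x) : ℝ × ℝ)) (continuous_const.prodMk continuous_id).continuousOn
      (fun x _ => ⟨hs', trivial⟩)
  have hvc : Continuous (v s) := hCD.continuous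
  have hAc : Continuous (fun x => -I * absD α (v s) x) := by
    have : (fun x => -I * absD α (v s) x) = fun x => deriv (fun s => v s x) s + I * ((‖v s x‖ ^ 2 : ℝ) : ℂ) * v s x := by
      funext x; exact (hw x).symm
    rw [this]
    fun_prop
  have hAc2 : Continuous (fun x => absD α (v s) x) := by
    have h := hAc.const_smul I
    refine h.congr (fun x => ?_)
    show I * (-I * absD α (v s) x) = absD α (v s) x
    linear_combination (-absD α (v s) x) * I_mul_I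
  simp_rw [hw]
  have i1 : IntervalIntegrable (fun x => P s (v s x) * (-I * absD α (v s) x)) volume a b := by
    apply Continuous.intervalIntegrable
    exact (hPs.comp hvc).mul hAc
  have i2 : IntervalIntegrable (fun x => Q s (v s x) * (starRingEnd ℂ) (-I * absD α (v s) x)) volume a b := by
    apply Continuous.intervalIntegrable
    exact (hQs.comp hvc).mul (Complex.continuous_conj.comp hAc)
  rw [intervalIntegral.integral_add i1 i2]
  have j1 : ∫ x in a..b, P s (v s x) * (-I * absD α (v s) x) =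
      -I * ∫ x in (0:ℝ)..(2 * Real.pi), indp a b x * P s (v s x) * absD α (v s) x := by
    rw [← intervalIntegral.integral_const_mul, ← int_indp a b ha hab hb]
    congr 1
    funext x
    ring
  have j2 : ∫ x in a..b, Q s (v s x) * (starRingEnd ℂ) (-I * absD α (v s) x) =
      I * ∫ x in (0:ℝ)..(2 * Real.pi), indp a b x * Q s (v s x) * (starRingEnd ℂ) (absD α (v s) x) := by
    rw [← intervalIntegral.integral_const_mul, ← int_indp a b ha hab hb]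
    congr 1
    funext x
    simp only [map_mul, map_neg, Complex.conj_I]
    ring
  rw [j1, j2]
  refine (norm_add_le _ _).trans ?_
  rw [norm_mul, norm_mul, norm_neg, Complex.norm_I, one_mul, one_mul]
  linarith

noncomputable def Gf (A t s : ℝ) (z : ℂ) : ℂ :=
  cexp (-(((1 / A ^ 2 : ℝ) : ℂ) + I * ((t - s : ℝ) : ℂ)) * ((‖z‖ ^ 2 : ℝ) : ℂ)) * z

noncomputable def Pf (A t s : ℝ) (z : ℂ) : ℂ :=
  (1 - (((1 / A ^ 2 : ℝ) : ℂ) + I * ((t - s : ℝ) : ℂ)) * ((‖z‖ ^ 2 : ℝ) : ℂ)) *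
        cexp (-(((1 / A ^ 2 : ℝ) : ℂ) + I * ((t - s : ℝ) : ℂ)) * ((‖z‖ ^ 2 : ℝ) : ℂ))

noncomputable def Qf (A t s : ℝ) (z : ℂ) : ℂ :=
  (-(((1 / A ^ 2 : ℝ) : ℂ) + I * ((t - s : ℝ) : ℂ)) * z ^ 2 *
        cexp (-(((1 / A ^ 2 : ℝ) : ℂ) + I * ((t - s : ℝ) : ℂ)) * ((‖z‖ ^ 2 : ℝ) : ℂ)))

noncomputable def Mf (A : ℝ) (z : ℂ) : ℂ :=
  ((‖z‖ ^ 2 * Real.exp (-(2 * (1 / A ^ 2) * ‖z‖ ^ 2)) : ℝ) : ℂ)

noncomputable def Hf (A : ℝ) (z : ℂ) : ℂ :=
  (((1 - 2 * (1 / A ^ 2) * ‖z‖ ^ 2) * Real.exp (-(2 * (1 / A ^ 2) * ‖z‖ ^ 2)) : ℝ) : ℂ) * z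

noncomputable def Hc (A : ℝ) (z : ℂ) : ℂ :=
  (((1 - 2 * (1 / A ^ 2) * ‖z‖ ^ 2) * Real.exp (-(2 * (1 / A ^ 2) * ‖z‖ ^ 2)) : ℝ) : ℂ) * (starRingEnd ℂ) z

theorem Hc_eq (A : ℝ) (z : ℂ) : Hc A z = (starRingEnd ℂ) (Hf A z) := by
  unfold Hc Hf
  rw [map_mul, Complex.conj_ofReal]

theorem Gf_cont (A t s : ℝ) : Continuous (Gf A t s) := by
  unfold Gf; fun_prop

theorem Pf_cont (A t : ℝ) : Continuous (fun p : ℝ × ℂ => Pf A t p.1 p.2) := by
  unfold Pf; fun_prop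

theorem Qf_cont (A t : ℝ) : Continuous (fun p : ℝ × ℂ => Qf A t p.1 p.2) := by
  unfold Qf; fun_prop

theorem Mf_cont (A : ℝ) : Continuous (Mf A) := by
  unfold Mf; fun_prop

theorem Hf_cont (A : ℝ) : Continuous (fun p : ℝ × ℂ => Hf A p.2) := by
  unfold Hf; fun_prop

theorem Hc_cont (A : ℝ) : Continuous (fun p : ℝ × ℂ => Hc A p.2) := by
  unfold Hc; fun_prop

theorem Gf_norm_sq (A t : ℝ) (z : ℂ) : ((‖Gf A t t z‖ ^ 2 : ℝ) : ℂ) = Mf A z := by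
  unfold Gf Mf
  congr 1
  rw [norm_mul, mul_pow, Complex.norm_exp]
  have h1 : (-(((1 / A ^ 2 : ℝ) : ℂ) + I * ((t - t : ℝ) : ℂ)) * ((‖z‖ ^ 2 : ℝ) : ℂ)) =
      ((-((1 / A ^ 2) * ‖z‖ ^ 2) : ℝ) : ℂ) := by
    rw [sub_self]; push_cast; ring
  rw [h1, Complex.ofReal_re, ← Real.exp_nat_mul]
  rw [mul_comm]
  congr 2
  push_cast
  ring

/-- evolution of the local averages -/
theorem step_avg (α : ℝ) (h0 : 0 < α) (h1 : α < 1) : ∃ C : ℝ, 0 < C ∧
    ∀ (A K t B a ρ : ℝ) (v : ℝ → ℝ → ℂ), 0 < A → 1 ≤ K → 0 < t → t < 1 → A ^ 2 * t ≤ K → 1 ≤ B →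
      IsSmoothSol α 1 v → (∀ s ∈ Icc (-1 : ℝ) 1, NB α (v s) B) → 0 ≤ a → 0 < ρ → a + ρ ≤ 2 * Real.pi →
      ‖(∫ x in a..(a + ρ), Gf A t t (v t x)) - ∫ x in a..(a + ρ), Gf A t 0 (v 0 x)‖ ≤
        C * (t * B * K ^ 2 / A + t * B * K * ρ ^ ((1 - α) / 2)) := by
  obtain ⟨C1, hC1, hev⟩ := evo_bound α h0 h1
  obtain ⟨Cg, hCg, hg⟩ := G_est
  refine ⟨16 * Real.pi * Real.sqrt C1 * Cg, by positivity, ?_⟩
  intro A K t B a ρ v hA hK ht ht1 hAK hB hv hNB ha hρ hab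
  have key : ∀ s ∈ Icc 0 t, A ^ 2 * (t - s) ≤ K := by
    intro s hs
    have : A ^ 2 * (t - s) ≤ A ^ 2 * t := by
      apply mul_le_mul_of_nonneg_left _ (by positivity)
      linarith [hs.1]
    linarith
  have e := hev 1 t v B (Cg * (1 + K) ^ 2 / A) (Cg * (1 + K)) a (a + ρ) (Gf A t) (Pf A t) (Qf A t) hv ht ht1
    (fun s hs => hNB s ⟨by linarith [hs.1], by linarith [hs.2]⟩) (by positivity) ha (by linarith) hab
    (Gf_cont A t) (Pf_cont A t) (Qf_cont A t)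
    (fun c c' s hc => G_deriv (1 / A ^ 2) t c c' s hc)
    (fun s hs z => (hg A K (t - s) hA (by linarith [hs.2]) (key s hs)).1 z)
    (fun s hs z => (hg A K (t - s) hA (by linarith [hs.2]) (key s hs)).2.1 z)
    (fun s hs z w => (hg A K (t - s) hA (by linarith [hs.2]) (key s hs)).2.2.1 z w)
    (fun s hs z w => (hg A K (t - s) hA (by linarith [hs.2]) (key s hs)).2.2.2.1 z w)
  refine e.trans ?_
  have hsq : Real.sqrt (B * (C1 * ((Cg * (1 + K) ^ 2 / A) ^ 2 * B + (Cg * (1 + K)) ^ 2 * (a + ρ - a) ^ (1 - α)))) ≤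
      Real.sqrt C1 * (4 * Cg * (B * K ^ 2 / A + B * K * ρ ^ ((1 - α) / 2))) := by
    apply Real.sqrt_le_iff.2
    constructor
    · positivity
    · rw [mul_pow (Real.sqrt C1), Real.sq_sqrt hC1.le]
      have hρ2 : (a + ρ - a) ^ (1 - α) = (ρ ^ ((1 - α) / 2)) ^ 2 := by
        rw [← Real.rpow_natCast, ← Real.rpow_mul hρ.le]
        congr 1
        · ring
        · push_cast; ring
      rw [hρ2]
      set R := ρ ^ ((1 - α) / 2) with hR
      have hRpos : 0 < R := by positivity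
      have h1K : (1 + K) ≤ 2 * K := by linarith
      have hX : (Cg * (1 + K) ^ 2 / A) ≤ 4 * Cg * (K ^ 2 / A) := by
        have : (1 + K) ^ 2 ≤ 4 * K ^ 2 := by nlinarith
        calc (Cg * (1 + K) ^ 2 / A) ≤ Cg * (4 * K ^ 2) / A := by gcongr
          _ = _ := by ring
      have hY : (Cg * (1 + K)) ≤ 4 * Cg * K := by nlinarith
      have hX0 : 0 ≤ Cg * (1 + K) ^ 2 / A := by positivity
      have hY0 : 0 ≤ Cg * (1 + K) := by positivity
      calc B * (C1 * ((Cg * (1 + K) ^ 2 / A) ^ 2 * B + (Cg * (1 + K)) ^ 2 * R ^ 2))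
          ≤ B * (C1 * ((4 * Cg * (K ^ 2 / A)) ^ 2 * B + (4 * Cg * K) ^ 2 * R ^ 2)) := by gcongr
        _ ≤ C1 * ((4 * Cg * (B * K ^ 2 / A + B * K * R)) ^ 2) := by
            have e1 : B * (C1 * ((4 * Cg * (K ^ 2 / A)) ^ 2 * B + (4 * Cg * K) ^ 2 * R ^ 2)) =
                C1 * (16 * Cg ^ 2) * ((K ^ 2 / A) ^ 2 * B ^ 2 + K ^ 2 * R ^ 2 * B) := by ring
            have e2 : C1 * ((4 * Cg * (B * K ^ 2 / A + B * K * R)) ^ 2) =
                C1 * (16 * Cg ^ 2) * ((K ^ 2 / A) ^ 2 * B ^ 2 + 2 * (K ^ 2 / A) * K * R * B ^ 2 + K ^ 2 * R ^ 2 * B ^ 2) := by ring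
            rw [e1, e2]
            apply mul_le_mul_of_nonneg_left _ (by positivity)
            have e3 : K ^ 2 * R ^ 2 * B ≤ K ^ 2 * R ^ 2 * B ^ 2 := by
              apply mul_le_mul_of_nonneg_left _ (by positivity)
              nlinarith
            have e4 : 0 ≤ 2 * (K ^ 2 / A) * K * R * B ^ 2 := by positivity
            linarith
  calc t * (4 * Real.pi * Real.sqrt (B * (C1 * ((Cg * (1 + K) ^ 2 / A) ^ 2 * B + (Cg * (1 + K)) ^ 2 * (a + ρ - a) ^ (1 - α)))))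
      ≤ t * (4 * Real.pi * (Real.sqrt C1 * (4 * Cg * (B * K ^ 2 / A + B * K * ρ ^ ((1 - α) / 2))))) := by gcongr
    _ = _ := by ring

/-- evolution of the local mass -/
theorem step_mass (α : ℝ) (h0 : 0 < α) (h1 : α < 1) : ∃ C : ℝ, 0 < C ∧
    ∀ (A t B r : ℝ) (v : ℝ → ℝ → ℂ), 0 < A → 0 < t → t < 1 → 1 ≤ B →
      IsSmoothSol α 1 v → (∀ s ∈ Icc (-1 : ℝ) 1, NB α (v s) B) → 0 < r → r ≤ 1 → A ^ 2 * r ^ (1 - α) ≤ 1 →
      ∫ x in r..(2 * r), ‖Gf A t t (v 0 x)‖ ^ 2 ≤ (∫ x in r..(2 * r), ‖Gf A t t (v t x)‖ ^ 2) + C * (t * B) := by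
  obtain ⟨C1, hC1, hev⟩ := evo_bound α h0 h1
  obtain ⟨Cm, hCm, hm⟩ := M_est
  refine ⟨8 * Real.pi * Real.sqrt C1 * Cm, by positivity, ?_⟩
  intro A t B r v hA ht ht1 hB hv hNB hr hr1 hAr
  have hpi := Real.pi_gt_three
  have nH : ∀ z, ‖Hc A z‖ = ‖Hf A z‖ := fun z => by rw [Hc_eq]; exact Complex.norm_conj _
  have e := hev 1 t v B Cm (Cm * A) r (2 * r) (fun _ => Mf A) (fun _ => Hc A) (fun _ => Hf A) hv ht ht1
    (fun s hs => hNB s ⟨by linarith [hs.1], by linarith [hs.2]⟩) hCm.le hr.le (by linarith) (by linarith)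
    (fun _ => Mf_cont A) (Hc_cont A) (Hf_cont A)
    (fun c c' s hc => M_deriv (1 / A ^ 2) c c' s hc)
    (fun s hs z => by rw [nH]; exact (hm A hA).1 z)
    (fun s hs z => (hm A hA).1 z)
    (fun s hs z w => by
      rw [Hc_eq, Hc_eq, ← map_sub, Complex.norm_conj]
      exact (hm A hA).2.1 z w)
    (fun s hs z w => (hm A hA).2.1 z w)
  have hint : ∀ s, ∫ x in r..(2 * r), Mf A (v s x) = ((∫ x in r..(2 * r), ‖Gf A t t (v s x)‖ ^ 2 : ℝ) : ℂ) := by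
    intro s
    rw [← intervalIntegral.integral_ofReal]
    congr 1
    funext x
    rw [Gf_norm_sq]
  rw [hint, hint, ← Complex.ofReal_sub, Complex.norm_real, Real.norm_eq_abs] at e
  have hsq : Real.sqrt (B * (C1 * (Cm ^ 2 * B + (Cm * A) ^ 2 * (2 * r - r) ^ (1 - α)))) ≤
      Real.sqrt C1 * (2 * Cm * B) := by
    apply Real.sqrt_le_iff.2
    constructor
    · positivity
    · rw [mul_pow (Real.sqrt C1), Real.sq_sqrt hC1.le]
      have hrr : 2 * r - r = r := by ring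
      rw [hrr]
      have e1 : B * (C1 * (Cm ^ 2 * B + (Cm * A) ^ 2 * r ^ (1 - α))) = C1 * Cm ^ 2 * (B * B + B * (A ^ 2 * r ^ (1 - α))) := by ring
      have e2 : C1 * (2 * Cm * B) ^ 2 = C1 * Cm ^ 2 * (4 * B ^ 2) := by ring
      rw [e1, e2]
      apply mul_le_mul_of_nonneg_left _ (by positivity)
      nlinarith
  have h3 : |(∫ x in r..(2 * r), ‖Gf A t t (v t x)‖ ^ 2) - ∫ x in r..(2 * r), ‖Gf A t t (v 0 x)‖ ^ 2| ≤
      8 * Real.pi * Real.sqrt C1 * Cm * (t * B) := by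
    refine e.trans ?_
    calc t * (4 * Real.pi * Real.sqrt (B * (C1 * (Cm ^ 2 * B + (Cm * A) ^ 2 * (2 * r - r) ^ (1 - α)))))
        ≤ t * (4 * Real.pi * (Real.sqrt C1 * (2 * Cm * B))) := by gcongr
      _ = _ := by ring
  have := neg_abs_le ((∫ x in r..(2 * r), ‖Gf A t t (v t x)‖ ^ 2) - ∫ x in r..(2 * r), ‖Gf A t t (v 0 x)‖ ^ 2)
  linarith

theorem core (α γ : ℝ) (h0 : 0 < α) (h1 : α < 1) (hγ : 0 < γ) (hγ1 : α + 2 * γ ≤ 1) : ∃ C : ℝ, 0 < C ∧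
    ∀ (B r ρ t K : ℝ), 1 ≤ B → 0 < r → r ≤ 1 → 0 < ρ → ρ ≤ r → 0 < t → t < 1 → 1 ≤ K → (r ^ (-γ)) ^ 2 * t ≤ K →
      (∀ ε > 0, ∃ v : ℝ → ℝ → ℂ, IsSmoothSol α 1 v ∧ (∀ s ∈ Icc (-1 : ℝ) 1, NB α (v s) B) ∧
        Continuous (v 0) ∧ ∫ x in (0:ℝ)..(2 * Real.pi), ‖v 0 x - dat γ x‖ ^ 2 ≤ ε) →
      r ^ (1 - 2 * γ) ≤ C * (t * B + r / ρ ^ 2 * (r ^ (γ + 1) / t + t * B * K ^ 2 / r ^ (-γ) +
          t * B * K * ρ ^ ((1 - α) / 2)) ^ 2 + ρ ^ α * B) := by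
  obtain ⟨Ca, hCa, hav⟩ := step_avg α h0 h1
  obtain ⟨Cm, hCm, hma⟩ := step_mass α h0 h1
  obtain ⟨Cn, hCn, hNBc, _⟩ := NB_main α h0 h1
  obtain ⟨Cg, hCg, hg⟩ := G_est
  have hγ2 : 2 * γ < 1 := by linarith
  set E : ℝ := Real.exp (-2) with hE
  have hEpos : 0 < E := Real.exp_pos _
  set N : ℝ := 9 / γ + 1 + Ca with hN
  have hNpos : 0 < N := by positivity
  -- final constant
  set C0 : ℝ := 2 * Cm + 4 * N ^ 2 + 4 * (8 * Real.pi * (Cn * Cg ^ 2)) with hC0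
  have hC0pos : 0 < C0 := by positivity
  refine ⟨4 / E * C0, by positivity, ?_⟩
  intro B r ρ t K hB hr hr1 hρ hρr ht ht1 hK hAK hex
  set A : ℝ := r ^ (-γ) with hA
  have hApos : 0 < A := by positivity
  have hpi := Real.pi_gt_three
  have hrg : 0 < r ^ (γ + 1) := by positivity
  have hrm : 0 < r ^ (1 - 2 * γ) := by positivity
  -- choice of ε
  set ε1 : ℝ := (r ^ (γ + 1) / t / (Cg * (1 + K))) ^ 2 / (2 * Real.pi) with hε1
  set ε2 : ℝ := E * r ^ (1 - 2 * γ) / (8 * Cg ^ 2) with hε2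
  have hε1pos : 0 < ε1 := by positivity
  have hε2pos : 0 < ε2 := by positivity
  set ε : ℝ := min ε1 ε2 with hε
  have hεpos : 0 < ε := lt_min hε1pos hε2pos
  obtain ⟨v, hv, hNB, hv0, hclose⟩ := hex ε hεpos
  have h11 : ∀ s ∈ Icc (-1:ℝ) 1, True := fun _ _ => trivial
  have htmem : t ∈ Ioo (-1:ℝ) 1 := ⟨by linarith, ht1⟩
  have htmem' : t ∈ Icc (-1:ℝ) 1 := Ioo_subset_Icc_self htmem
  have hreg : Reg (v t) := sol_reg hv t htmem
  -- F
  have hFlip : ∀ z w : ℂ, ‖Gf A t t z - Gf A t t w‖ ≤ Cg * ‖z - w‖ := by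
    intro z w
    have h := (hg A 0 (t - t) hApos (by simp) (by simp)).2.2.2.2 z w
    simpa [Gf] using h
  have hG0lip : ∀ z w : ℂ, ‖Gf A t 0 z - Gf A t 0 w‖ ≤ Cg * (1 + K) * ‖z - w‖ := by
    intro z w
    exact (hg A K (t - 0) hApos (by simpa using ht.le) (by simpa using hAK)).2.2.2.2 z w
  -- mass bounds
  have m1 : (1 / 2) * E * r ^ (1 - 2 * γ) ≤ ∫ x in r..(2 * r), ‖Gf A t t (dat γ x)‖ ^ 2 := by
    have h := dat_mass γ r hγ (by linarith) hr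
    refine h.trans (le_of_eq ?_)
    congr 1
    funext x
    have h2 := Gf_norm_sq A t (dat γ x)
    unfold Mf at h2
    have h3 := Complex.ofReal_injective h2
    rw [h3]
  have m2 := (l1_le γ ε r (2 * r) hγ hγ2 (v 0) hv0 hεpos.le hclose hr.le (by linarith) (by linarith)
    (Gf A t t) Cg hCg.le hFlip).2
  have hAr : A ^ 2 * r ^ (1 - α) ≤ 1 := by
    rw [hA, ← Real.rpow_natCast, ← Real.rpow_mul hr.le, ← Real.rpow_add hr]
    apply Real.rpow_le_one hr.le hr1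
    push_cast; linarith
  have m3 := hma A t B r v hApos ht ht1 hB hv hNB hr hr1 hAr
  -- averages
  set R : ℝ := ρ ^ ((1 - α) / 2) with hR
  have hRpos : 0 < R := by positivity
  set X : ℝ := r ^ (γ + 1) / t + t * B * K ^ 2 / A + t * B * K * R with hX
  have hX0 : 0 ≤ X := by positivity
  have hη : ∀ x ∈ Icc r (2 * r), ‖∫ y in x..(x + ρ), Gf A t t (v t y)‖ ≤ N * X := by
    intro x hx
    have hx0 : 0 < x := by linarith [hx.1]
    have hxρ : x + ρ ≤ 3 * r := by linarith [hx.2]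
    have hx2 : x + ρ ≤ 2 * Real.pi := by linarith
    have a1 := hav A K t B x ρ v hApos hK ht ht1 hAK hB hv hNB hx0.le hρ hx2
    have a2 := (l1_le γ ε x (x + ρ) hγ hγ2 (v 0) hv0 hεpos.le hclose hx0.le (by linarith) hx2
      (Gf A t 0) (Cg * (1 + K)) (by positivity) hG0lip).1
    have a3 : ‖∫ y in x..(x + ρ), Gf A t 0 (dat γ y)‖ ≤ 9 / γ * (r ^ (γ + 1) / t) := by
      have h := osc γ (1 / A ^ 2) t x (x + ρ) hγ (by positivity) ht hx0 (by linarith)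
      have h' : ‖∫ y in x..(x + ρ), Gf A t 0 (dat γ y)‖ ≤ (x + ρ) ^ (γ + 1) / (γ * t) := by
        simpa [Gf] using h
      refine h'.trans ?_
      have h3 : (x + ρ) ^ (γ + 1) ≤ 9 * r ^ (γ + 1) := by
        calc (x + ρ) ^ (γ + 1) ≤ (3 * r) ^ (γ + 1) := by
              apply Real.rpow_le_rpow (by linarith) hxρ (by linarith)
          _ = 3 ^ (γ + 1) * r ^ (γ + 1) := by rw [Real.mul_rpow (by norm_num) hr.le]
          _ ≤ 9 * r ^ (γ + 1) := by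
              apply mul_le_mul_of_nonneg_right _ hrg.le
              calc (3:ℝ) ^ (γ + 1) ≤ 3 ^ (2:ℝ) := by
                    apply Real.rpow_le_rpow_of_exponent_le (by norm_num) (by linarith)
                _ = 9 := by norm_num
      calc (x + ρ) ^ (γ + 1) / (γ * t) ≤ 9 * r ^ (γ + 1) / (γ * t) := by gcongr
        _ = 9 / γ * (r ^ (γ + 1) / t) := by field_simp
    have a4 : Cg * (1 + K) * Real.sqrt (2 * Real.pi * ε) ≤ r ^ (γ + 1) / t := by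
      have h5 : Real.sqrt (2 * Real.pi * ε) ≤ r ^ (γ + 1) / t / (Cg * (1 + K)) := by
        apply Real.sqrt_le_iff.2
        refine ⟨by positivity, ?_⟩
        have : 2 * Real.pi * ε ≤ 2 * Real.pi * ε1 := by
          apply mul_le_mul_of_nonneg_left (min_le_left _ _) (by positivity)
        refine this.trans (le_of_eq ?_)
        rw [hε1]; field_simp
      calc Cg * (1 + K) * Real.sqrt (2 * Real.pi * ε) ≤ Cg * (1 + K) * (r ^ (γ + 1) / t / (Cg * (1 + K))) := by gcongr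
        _ = r ^ (γ + 1) / t := by field_simp
    have tri : ‖∫ y in x..(x + ρ), Gf A t t (v t y)‖ ≤
        ‖(∫ y in x..(x + ρ), Gf A t t (v t y)) - ∫ y in x..(x + ρ), Gf A t 0 (v 0 y)‖ +
        ‖(∫ y in x..(x + ρ), Gf A t 0 (v 0 y)) - ∫ y in x..(x + ρ), Gf A t 0 (dat γ y)‖ +
        ‖∫ y in x..(x + ρ), Gf A t 0 (dat γ y)‖ := by
      have h6 : (∫ y in x..(x + ρ), Gf A t t (v t y)) =
        ((∫ y in x..(x + ρ), Gf A t t (v t y)) - ∫ y in x..(x + ρ), Gf A t 0 (v 0 y)) +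
        ((∫ y in x..(x + ρ), Gf A t 0 (v 0 y)) - ∫ y in x..(x + ρ), Gf A t 0 (dat γ y)) +
        ∫ y in x..(x + ρ), Gf A t 0 (dat γ y) := by ring
      conv_lhs => rw [h6]
      exact norm_add₃_le
    have b1 : 0 ≤ t * B * K ^ 2 / A + t * B * K * R := by positivity
    have b2 : 0 ≤ r ^ (γ + 1) / t := by positivity
    have b3 : X = r ^ (γ + 1) / t + (t * B * K ^ 2 / A + t * B * K * R) := by rw [hX]; ring
    rw [b3, hN]
    set U := r ^ (γ + 1) / t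
    set W := t * B * K ^ 2 / A + t * B * K * R
    have b4 : 0 ≤ 9 / γ := by positivity
    have : (9 / γ + 1 + Ca) * (U + W) = (9 / γ * U + U + Ca * W) + (9 / γ * W + W + Ca * U) := by ring
    rw [this]
    have b5 : 0 ≤ 9 / γ * W + W + Ca * U := by positivity
    linarith
  -- Poincare
  have hFc : Continuous (Gf A t t) := Gf_cont A t t
  obtain ⟨KF, hKF⟩ : ∃ K', ∀ z, ‖Gf A t t z‖ ≤ K' := by
    refine ⟨Real.sqrt (A ^ 2), fun z => ?_⟩
    apply Real.le_sqrt_of_sq_le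
    have h2 := Gf_norm_sq A t z
    unfold Mf at h2
    have h3 := Complex.ofReal_injective h2
    rw [h3]
    have h4 : ‖z‖ ^ 2 / A ^ 2 ≤ Real.exp (2 * (1 / A ^ 2) * ‖z‖ ^ 2) := by
      have h5 := Real.add_one_le_exp (2 * (1 / A ^ 2) * ‖z‖ ^ 2)
      have h6 : 0 ≤ ‖z‖ ^ 2 / A ^ 2 := by positivity
      have h7 : 2 * (1 / A ^ 2) * ‖z‖ ^ 2 = 2 * (‖z‖ ^ 2 / A ^ 2) := by ring
      rw [h7] at h5 ⊢
      linarith
    rw [Real.exp_neg, ← div_eq_mul_inv, div_le_iff₀ (Real.exp_pos _)]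
    rw [div_le_iff₀ (by positivity)] at h4
    linarith
  have hNBt := hNBc (v t) (Gf A t t) Cg B hreg (hNB t htmem') hCg.le hFlip ⟨KF, hKF⟩
  have hregF : Reg (fun x => Gf A t t (v t x)) := Reg_comp _ hreg _ hFc KF hKF
  have hD : ∀ h : ℝ, 0 < h → Dif (fun x => Gf A t t (v t x)) h ≤ (8 * Real.pi * (Cn * (Cg ^ 2 * B))) * h ^ α :=
    fun h hh => dif_le_aux α h0 h1 _ _ (parseval_dif _ hregF) hNBt h hh
  have m4 := poincare α (8 * Real.pi * (Cn * (Cg ^ 2 * B))) (N * X) ρ r (2 * r) h0 (by positivity) hρ hr.le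
    (by linarith) (by linarith) _ hregF hD hη
  -- combine
  have m5 : 2 * Cg ^ 2 * ε ≤ (1 / 4) * E * r ^ (1 - 2 * γ) := by
    calc 2 * Cg ^ 2 * ε ≤ 2 * Cg ^ 2 * ε2 := by
          apply mul_le_mul_of_nonneg_left (min_le_right _ _) (by positivity)
      _ = (1 / 4) * E * r ^ (1 - 2 * γ) := by rw [hε2]; field_simp; ring
  have hrr : 2 * r - r = r := by ring
  rw [hrr] at m4
  have m6 : (1 / 4) * E * r ^ (1 - 2 * γ) ≤ 2 * (2 * r * (N * X) ^ 2 / ρ ^ 2 +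
      2 * (8 * Real.pi * (Cn * (Cg ^ 2 * B))) * ρ ^ α + Cm * (t * B)) := by
    linarith
  have m7 : 2 * (2 * r * (N * X) ^ 2 / ρ ^ 2 +
      2 * (8 * Real.pi * (Cn * (Cg ^ 2 * B))) * ρ ^ α + Cm * (t * B)) ≤
      C0 * (t * B + r / ρ ^ 2 * X ^ 2 + ρ ^ α * B) := by
    have c1 : 0 ≤ t * B := by positivity
    have c2 : 0 ≤ r / ρ ^ 2 * X ^ 2 := by positivity
    have c3 : 0 ≤ ρ ^ α * B := by positivity
    have e1 : 2 * (2 * r * (N * X) ^ 2 / ρ ^ 2 +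
      2 * (8 * Real.pi * (Cn * (Cg ^ 2 * B))) * ρ ^ α + Cm * (t * B)) =
      4 * N ^ 2 * (r / ρ ^ 2 * X ^ 2) + 4 * (8 * Real.pi * (Cn * Cg ^ 2)) * (ρ ^ α * B) + 2 * Cm * (t * B) := by
      ring
    rw [e1, hC0]
    have d1 : 0 ≤ 2 * Cm := by positivity
    have d2 : 0 ≤ 4 * N ^ 2 := by positivity
    have d3 : 0 ≤ 4 * (8 * Real.pi * (Cn * Cg ^ 2)) := by positivity
    set Y1 := t * B
    set Y2 := r / ρ ^ 2 * X ^ 2
    set Y3 := ρ ^ α * B
    set D1 := 2 * Cm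
    set D2 := 4 * N ^ 2
    set D3 := 4 * (8 * Real.pi * (Cn * Cg ^ 2))
    have : (D1 + D2 + D3) * (Y1 + Y2 + Y3) = (D2 * Y2 + D3 * Y3 + D1 * Y1) +
      (D1 * Y2 + D1 * Y3 + D2 * Y1 + D2 * Y3 + D3 * Y1 + D3 * Y2) := by ring
    rw [this]
    have : 0 ≤ (D1 * Y2 + D1 * Y3 + D2 * Y1 + D2 * Y3 + D3 * Y1 + D3 * Y2) := by positivity
    linarith
  have m8 := m6.trans m7
  calc r ^ (1 - 2 * γ) = 4 / E * ((1 / 4) * E * r ^ (1 - 2 * γ)) := by field_simp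
    _ ≤ 4 / E * (C0 * (t * B + r / ρ ^ 2 * X ^ 2 + ρ ^ α * B)) := by
        apply mul_le_mul_of_nonneg_left m8 (by positivity)
    _ = _ := by ring

theorem main_neg (α : ℝ) (h0 : 0 < α) (h1 : α < 1 / 2) :
    ∃ u₀ : ℤ → ℂ, hd α u₀ 0 < ⊤ ∧ ¬ ∃ u : ℝ → ℤ → ℂ, IsGlobalSol α u₀ u := by
  set δ : ℝ := α * (1 - 2 * α) / 32 with hδ
  set μ : ℝ := (1 - 2 * α) / 16 with hμ
  set γ : ℝ := (1 - α - δ) / 2 with hγ
  have hδ0 : 0 < δ := by
    rw [hδ]; apply div_pos (mul_pos h0 (by linarith)) (by norm_num)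
  have hδ1 : δ < 1 / 64 := by rw [hδ]; nlinarith
  have hμ0 : 0 < μ := by rw [hμ]; linarith
  have hγ0 : 0 < γ := by rw [hγ]; linarith
  have hαγ : α + 2 * γ < 1 := by rw [hγ]; linarith
  refine ⟨fc (dat γ), dat_mem α γ h0 hγ0 hαγ, ?_⟩
  rintro ⟨u, hu⟩
  obtain ⟨B, hB, hex⟩ := extract α γ h0 hγ0 (by linarith) (fun f hf => l2_le α γ h0 hγ0 (by linarith) f hf)
    (hd_tri α) (fun u h1 h2 => hd_bdd α 1 u h1 h2) (fun f B hB h => NB_of_hd α f B h0 hB h) u hu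
  obtain ⟨C, hC, hcore⟩ := core α γ h0 (by linarith) hγ0 hαγ.le
  obtain ⟨r0, hr0, hnum⟩ := num_final α δ μ γ C B h0 h1 hδ hμ hγ hC hB
  set r : ℝ := min (r0 / 2) (1 / 2) with hr
  have hrpos : 0 < r := by rw [hr]; apply lt_min <;> linarith
  have hr1 : r < r0 := lt_of_le_of_lt (min_le_left _ _) (by linarith)
  have hr2 : r < 1 := lt_of_le_of_lt (min_le_right _ _) (by norm_num)
  have hn := hnum r hrpos hr1
  have hγμ : 0 < 2 * γ - 2 * μ := by rw [hγ, hμ]; linarith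
  have hc := hcore B r (r ^ (1 + μ)) (r ^ (2 * γ - 2 * μ)) (r ^ (-(2 * μ))) hB hrpos hr2.le
    (by positivity) (by
      calc r ^ (1 + μ) ≤ r ^ (1:ℝ) := Real.rpow_le_rpow_of_exponent_ge hrpos hr2.le (by linarith)
        _ = r := Real.rpow_one r)
    (by positivity) (Real.rpow_lt_one hrpos.le hr2 hγμ)
    (Real.one_le_rpow_of_pos_of_le_one_of_nonpos hrpos hr2.le (by linarith))
    (le_of_eq (by
      rw [← Real.rpow_natCast, ← Real.rpow_mul hrpos.le, ← Real.rpow_add hrpos]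
      congr 1; push_cast; ring)) hex
  linarith

end MMT
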