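import Pool.Agent.Helper823.MMT.Defs2
open Complex MeasureTheory Filter Topology Set
open scoped ContDiff ENNReal
namespace MMT
namespace Xaddfin

lemma hd_tri (α : ℝ) (a b c : ℤ → ℂ) : hd α a c ≤ 2 * hd α a b + 2 * hd α b c := by
  unfold hd
  rw [← ENNReal.tsum_mul_left, ← ENNReal.tsum_mul_left, ← ENNReal.tsum_add]
  refine ENNReal.tsum_le_tsum fun k => ?_
  obtain ⟨m, hm⟩ : ∃ m : ℝ, m = (1 + |(k:ℝ)|) ^ α := ⟨_, rfl⟩
  have hm0 : 0 ≤ m := by rw [hm]; positivity
  rw [← hm]
  have h2 : (2 : ℝ≥0∞) = ENNReal.ofReal 2 := by simp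
  rw [h2, ← ENNReal.ofReal_mul (by norm_num), ← ENNReal.ofReal_mul (by norm_num),
    ← ENNReal.ofReal_add (by positivity) (by positivity)]
  apply ENNReal.ofReal_le_ofReal
  have h3 : ‖a k - c k‖ ≤ ‖a k - b k‖ + ‖b k - c k‖ := by
    have : a k - c k = (a k - b k) + (b k - c k) := by ring
    rw [this]; exact norm_add_le _ _
  have h4 : ‖a k - c k‖ ^ 2 ≤ 2 * ‖a k - b k‖ ^ 2 + 2 * ‖b k - c k‖ ^ 2 := by
    have h5 : ‖a k - c k‖ ^ 2 ≤ (‖a k - b k‖ + ‖b k - c k‖) ^ 2 :=
      pow_le_pow_left₀ (norm_nonneg _) h3 2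
    nlinarith [sq_nonneg (‖a k - b k‖ - ‖b k - c k‖)]
  nlinarith [mul_le_mul_of_nonneg_left h4 hm0]

theorem add_modes (α : ℝ) (hα : α < 0)
    (h1 : ∀ (v : ℝ → ℝ → ℂ), SG α v → ∀ (k : ℤ) (c : ℂ) (T ε : ℝ), 0 < T → 0 < ε →
      ∃ (w : ℝ → ℝ → ℂ) (D : ℝ → ℂ), SG α w ∧ (∀ t, ‖D t‖ ≤ 1) ∧ D 0 = 1 ∧
        ∀ t ∈ Icc (-T) T, hd α (fc (w t)) (fun j => fc (v t) j + if j = k then D t * c else 0) ≤ ENNReal.ofReal ε)
    (v : ℝ → ℝ → ℂ) (hv : SG α v) (F : Finset ℤ) (c : ℤ → ℂ) (T ε : ℝ) (hT : 0 < T) (hε : 0 < ε) :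
    ∃ (w : ℝ → ℝ → ℂ) (D : ℝ → ℤ → ℂ), SG α w ∧ (∀ t k, ‖D t k‖ ≤ 1) ∧ (∀ k, D 0 k = 1) ∧
      ∀ t ∈ Icc (-T) T, hd α (fc (w t)) (fun j => fc (v t) j + if j ∈ F then D t j * c j else 0) ≤ ENNReal.ofReal ε := by
  classical
  induction F using Finset.induction_on generalizing ε with
  | empty =>
    refine ⟨v, fun _ _ => 1, hv, fun _ _ => by simp, fun _ => rfl, fun t _ => ?_⟩
    simp [hd]
  | @insert k F hk ih =>
    obtain ⟨w1, D1, hw1, hD1, hD10, hb1⟩ := ih (ε / 4) (by positivity)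
    obtain ⟨w2, D2, hw2, hD2, hD20, hb2⟩ := h1 w1 hw1 k (c k) T (ε / 4) hT (by positivity)
    refine ⟨w2, fun t j => if j = k then D2 t else D1 t j, hw2, ?_, ?_, ?_⟩
    · intro t j
      by_cases h : j = k
      · simp only [if_pos h]; exact hD2 t
      · simp only [if_neg h]; exact hD1 t j
    · intro j
      by_cases h : j = k
      · simp only [if_pos h]; exact hD20
      · simp only [if_neg h]; exact hD10 j
    · intro t ht
      have e1 := hb1 t ht
      have e2 := hb2 t ht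
      refine (hd_tri α _ (fun j => fc (w1 t) j + if j = k then D2 t * c k else 0) _).trans ?_
      have e3 : hd α (fun j => fc (w1 t) j + if j = k then D2 t * c k else 0)
          (fun j => fc (v t) j + if j ∈ insert k F then (if j = k then D2 t else D1 t j) * c j else 0) =
          hd α (fc (w1 t)) (fun j => fc (v t) j + if j ∈ F then D1 t j * c j else 0) := by
        unfold hd
        congr 1
        ext j
        congr 4
        by_cases h : j = k
        · subst h
          simp only [if_true, Finset.mem_insert_self, if_neg hk]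
          ring
        · by_cases hj : j ∈ F
          · simp only [if_neg h, if_pos hj, if_pos (Finset.mem_insert_of_mem hj)]
            ring
          · have : j ∉ insert k F := by
              rw [Finset.mem_insert]; push Not; exact ⟨h, hj⟩
            simp only [if_neg h, if_neg hj, if_neg this]
            ring
      rw [e3]
      calc 2 * hd α (fc (w2 t)) (fun j => fc (w1 t) j + if j = k then D2 t * c k else 0) +
            2 * hd α (fc (w1 t)) (fun j => fc (v t) j + if j ∈ F then D1 t j * c j else 0)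
          ≤ 2 * ENNReal.ofReal (ε / 4) + 2 * ENNReal.ofReal (ε / 4) := by gcongr
        _ = ENNReal.ofReal ε := by
          have h2 : (2 : ℝ≥0∞) = ENNReal.ofReal 2 := by simp
          rw [h2, ← ENNReal.ofReal_mul (by norm_num), ← ENNReal.ofReal_add (by positivity) (by positivity)]
          congr 1
          ring


end Xaddfin
end MMT
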