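import Pool.Agent.Helper823.MMT.Defs2
open Complex MeasureTheory Filter Topology Set
open scoped ContDiff ENNReal
namespace MMT
namespace Xbackg


theorem bg_ii {K : ℝ → ℝ} {κ : ℝ} (hK : Ker K κ) (f : ℝ → ℂ) (hf : Measurable f) (C : ℝ)
    (hC : ∀ z, ‖f z‖ ≤ C) (x : ℝ) :
    IntervalIntegrable (fun y => (K y : ℂ) * f (x - y)) volume 0 (2 * Real.pi) := by
  have h1 : IntervalIntegrable (fun y => (K y : ℂ)) volume 0 (2 * Real.pi) := ⟨hK.int.1.ofReal, hK.int.2.ofReal⟩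
  rw [intervalIntegrable_iff] at h1 ⊢
  exact Integrable.mul_bdd h1
    (hf.comp (measurable_const.sub measurable_id)).aestronglyMeasurable
    (Filter.Eventually.of_forall (fun y => hC (x - y)))

theorem bg_k1 {K : ℝ → ℝ} {κ : ℝ} (hK : Ker K κ) :
    IntervalIntegrable (fun y => |K y| + 1) volume 0 (2 * Real.pi) :=
  hK.int.abs.add intervalIntegrable_const

theorem bg_ir {K : ℝ → ℝ} {κ : ℝ} (hK : Ker K κ) (g : ℝ → ℝ) (hg : Measurable g) (C : ℝ)
    (hC : ∀ z, ‖g z‖ ≤ C) (x : ℝ) :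
    IntervalIntegrable (fun y => (|K y| + 1) * g (x - y)) volume 0 (2 * Real.pi) := by
  have h1 := bg_k1 hK
  rw [intervalIntegrable_iff] at h1 ⊢
  exact Integrable.mul_bdd h1
    (hg.comp (measurable_const.sub measurable_id)).aestronglyMeasurable
    (Filter.Eventually.of_forall (fun y => hC (x - y)))

theorem bg_norm {K : ℝ → ℝ} {κ : ℝ} (hK : Ker K κ) (f : ℝ → ℂ) (g : ℝ → ℝ)
    (x : ℝ) (hgi : IntervalIntegrable (fun y => (|K y| + 1) * g (x - y)) volume 0 (2 * Real.pi))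
    (hfg : ∀ z, ‖f z‖ ≤ g z) :
    ‖∫ y in (0:ℝ)..(2 * Real.pi), (K y : ℂ) * f (x - y)‖
      ≤ ∫ y in (0:ℝ)..(2 * Real.pi), (|K y| + 1) * g (x - y) := by
  apply intervalIntegral.norm_integral_le_of_norm_le Real.two_pi_pos.le _ hgi
  apply Filter.Eventually.of_forall
  intro y _
  rw [norm_mul, Complex.norm_real, Real.norm_eq_abs]
  apply mul_le_mul (by linarith) (hfg _) (norm_nonneg _)
  positivity

theorem bg_cubic (b c : ℂ) (M : ℝ) (hb : ‖b‖ ≤ M) (hc : ‖c‖ ≤ M) :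
    ‖((‖b‖ ^ 2 : ℝ) : ℂ) * b - ((‖c‖ ^ 2 : ℝ) : ℂ) * c‖ ≤ 3 * M ^ 2 * ‖b - c‖ := by
  have e : ((‖b‖ ^ 2 : ℝ) : ℂ) * b - ((‖c‖ ^ 2 : ℝ) : ℂ) * c
      = ((‖b‖ ^ 2 : ℝ) : ℂ) * (b - c) + ((‖b‖ ^ 2 - ‖c‖ ^ 2 : ℝ) : ℂ) * c := by
    push_cast
    ring
  rw [e]
  refine (norm_add_le _ _).trans ?_
  rw [norm_mul, norm_mul, Complex.norm_real, Complex.norm_real, Real.norm_eq_abs,
    Real.norm_eq_abs, abs_of_nonneg (by positivity : (0:ℝ) ≤ ‖b‖ ^ 2)]
  have h1 : |‖b‖ ^ 2 - ‖c‖ ^ 2| ≤ 2 * M * ‖b - c‖ := by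
    have e2 : ‖b‖ ^ 2 - ‖c‖ ^ 2 = (‖b‖ + ‖c‖) * (‖b‖ - ‖c‖) := by ring
    rw [e2, abs_mul, abs_of_nonneg (by positivity : (0:ℝ) ≤ ‖b‖ + ‖c‖)]
    have h2 := abs_norm_sub_norm_le b c
    apply mul_le_mul (by linarith) h2 (abs_nonneg _)
    have := norm_nonneg b
    linarith
  have hM : 0 ≤ M := (norm_nonneg b).trans hb
  have h3 : ‖b‖ ^ 2 * ‖b - c‖ ≤ M ^ 2 * ‖b - c‖ := by gcongr
  have h4 : |‖b‖ ^ 2 - ‖c‖ ^ 2| * ‖c‖ ≤ (2 * M * ‖b - c‖) * M := by
    apply mul_le_mul h1 hc (norm_nonneg _)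
    positivity
  nlinarith

/-- the majorant of the difference -/
noncomputable def bgg (n : ℕ) (E : ℕ → Set ℝ) (EL : Set ℝ) (S c1 c2 : ℝ) (z : ℝ) : ℝ :=
  S + (∑ j ∈ Finset.range (n ^ 3), c1 * (E j).indicator (fun _ => (1:ℝ)) z)
    + c2 * EL.indicator (fun _ => (1:ℝ)) z

theorem bg_ind_int {K : ℝ → ℝ} {κ : ℝ} (hK : Ker K κ) (A : Set ℝ) (hA : MeasurableSet A) (x : ℝ) :
    IntervalIntegrable (fun y => (|K y| + 1) * A.indicator (fun _ => (1:ℝ)) (x - y))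
      volume 0 (2 * Real.pi) := by
  apply bg_ir hK _ (measurable_const.indicator hA) 1
  intro z
  by_cases hz : z ∈ A
  · rw [Set.indicator_of_mem hz]; simp
  · rw [Set.indicator_of_notMem hz]; simp

theorem bgg_expand (n : ℕ) (E : ℕ → Set ℝ) (EL : Set ℝ) (S c1 c2 : ℝ) (K : ℝ → ℝ) (x : ℝ) :
    (fun y => (|K y| + 1) * bgg n E EL S c1 c2 (x - y)) = fun y =>
      (S * (|K y| + 1) + ∑ j ∈ Finset.range (n ^ 3),
        c1 * ((|K y| + 1) * (E j).indicator (fun _ => (1:ℝ)) (x - y)))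
      + c2 * ((|K y| + 1) * EL.indicator (fun _ => (1:ℝ)) (x - y)) := by
  funext y
  unfold bgg
  rw [mul_add, mul_add, Finset.mul_sum]
  congr 1
  · congr 1
    · ring
    · apply Finset.sum_congr rfl
      intro j _
      ring
  · ring

theorem bgg_int {K : ℝ → ℝ} {κ V c0 : ℝ} {n : ℕ} {B : ℝ → ℝ → ℂ} {E0 EL : Set ℝ} {E : ℕ → Set ℝ}
    (hK : Ker K κ) (hP : Pulse K κ V c0 n B E0 EL E) (S c1 c2 : ℝ) (h1 : 0 ≤ c1) (h2 : 0 ≤ c2)
    (x : ℝ) :
    IntervalIntegrable (fun y => (|K y| + 1) * bgg n E EL S c1 c2 (x - y)) volume 0 (2 * Real.pi) ∧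
    ∫ y in (0:ℝ)..(2 * Real.pi), (|K y| + 1) * bgg n E EL S c1 c2 (x - y)
      ≤ S * κ + (n:ℝ) ^ 3 * (c1 * (2 * κ * c0 / (n:ℝ) ^ 5)) + c2 * (1 / (n:ℝ) ^ 5) := by
  rw [bgg_expand]
  have i1 : IntervalIntegrable (fun y => S * (|K y| + 1)) volume 0 (2 * Real.pi) :=
    (bg_k1 hK).const_mul S
  have i2 : ∀ j ∈ Finset.range (n ^ 3), IntervalIntegrable (fun y =>
      c1 * ((|K y| + 1) * (E j).indicator (fun _ => (1:ℝ)) (x - y))) volume 0 (2 * Real.pi) :=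
    fun j _ => (bg_ind_int hK _ (hP.mE j) x).const_mul c1
  have i2' : IntervalIntegrable (fun y => ∑ j ∈ Finset.range (n ^ 3),
      c1 * ((|K y| + 1) * (E j).indicator (fun _ => (1:ℝ)) (x - y))) volume 0 (2 * Real.pi) :=
    by
      have h := IntervalIntegrable.sum (Finset.range (n ^ 3)) i2
      have e : (fun y => ∑ j ∈ Finset.range (n ^ 3),
          c1 * ((|K y| + 1) * (E j).indicator (fun _ => (1:ℝ)) (x - y)))
          = ∑ j ∈ Finset.range (n ^ 3), fun y =>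
          c1 * ((|K y| + 1) * (E j).indicator (fun _ => (1:ℝ)) (x - y)) := by
        funext y
        rw [Finset.sum_apply]
      rw [e]
      exact h
  have i3 : IntervalIntegrable (fun y =>
      c2 * ((|K y| + 1) * EL.indicator (fun _ => (1:ℝ)) (x - y))) volume 0 (2 * Real.pi) :=
    (bg_ind_int hK _ hP.mL x).const_mul c2
  refine ⟨(i1.add i2').add i3, ?_⟩
  rw [intervalIntegral.integral_add (i1.add i2') i3, intervalIntegral.integral_add i1 i2',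
    intervalIntegral.integral_finsetSum i2, intervalIntegral.integral_const_mul,
    intervalIntegral.integral_const_mul, hK.bd]
  have k1 : ∑ j ∈ Finset.range (n ^ 3), ∫ y in (0:ℝ)..(2 * Real.pi),
      c1 * ((|K y| + 1) * (E j).indicator (fun _ => (1:ℝ)) (x - y))
      ≤ (n:ℝ) ^ 3 * (c1 * (2 * κ * c0 / (n:ℝ) ^ 5)) := by
    have : ∑ j ∈ Finset.range (n ^ 3), ∫ y in (0:ℝ)..(2 * Real.pi),
        c1 * ((|K y| + 1) * (E j).indicator (fun _ => (1:ℝ)) (x - y))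
        ≤ ∑ j ∈ Finset.range (n ^ 3), c1 * (2 * κ * c0 / (n:ℝ) ^ 5) := by
      apply Finset.sum_le_sum
      intro j hj
      rw [intervalIntegral.integral_const_mul]
      exact mul_le_mul_of_nonneg_left (hP.potE j (Finset.mem_range.1 hj) x) h1
    refine this.trans (le_of_eq ?_)
    rw [Finset.sum_const, Finset.card_range, nsmul_eq_mul]
    push_cast
    ring
  have k2 : c2 * ∫ y in (0:ℝ)..(2 * Real.pi), (|K y| + 1) * EL.indicator (fun _ => (1:ℝ)) (x - y)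
      ≤ c2 * (1 / (n:ℝ) ^ 5) := mul_le_mul_of_nonneg_left (hP.potL x) h2
  linarith

/-- linearity of the convolution terms -/
theorem bg_lin {K : ℝ → ℝ} (x : ℝ) (N : ℕ) (f v : ℝ → ℂ) (h : ℕ → ℝ → ℂ) (c : ℕ → ℂ)
    (i1 : IntervalIntegrable (fun y => (K y : ℂ) * f (x - y)) volume 0 (2 * Real.pi))
    (i2 : IntervalIntegrable (fun y => (K y : ℂ) * v (x - y)) volume 0 (2 * Real.pi))
    (i3 : ∀ j, IntervalIntegrable (fun y => (K y : ℂ) * h j (x - y)) volume 0 (2 * Real.pi)) :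
    (∫ y in (0:ℝ)..(2 * Real.pi), (K y : ℂ) * f (x - y))
      - (∫ y in (0:ℝ)..(2 * Real.pi), (K y : ℂ) * v (x - y))
      - ∑ j ∈ Finset.range N, c j * ∫ y in (0:ℝ)..(2 * Real.pi), (K y : ℂ) * h j (x - y)
    = ∫ y in (0:ℝ)..(2 * Real.pi), (K y : ℂ) *
        (f (x - y) - v (x - y) - ∑ j ∈ Finset.range N, c j * h j (x - y)) := by
  have i4 : ∀ j ∈ Finset.range N, IntervalIntegrable (fun y => c j * ((K y : ℂ) * h j (x - y)))
      volume 0 (2 * Real.pi) := fun j _ => (i3 j).const_mul (c j)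
  have i5 : IntervalIntegrable (fun y => ∑ j ∈ Finset.range N, c j * ((K y : ℂ) * h j (x - y)))
      volume 0 (2 * Real.pi) := by
    have hh := IntervalIntegrable.sum (Finset.range N) i4
    have e : (fun y => ∑ j ∈ Finset.range N, c j * ((K y : ℂ) * h j (x - y)))
        = ∑ j ∈ Finset.range N, fun y => c j * ((K y : ℂ) * h j (x - y)) := by
      funext y
      rw [Finset.sum_apply]
    rw [e]
    exact hh
  have e1 : (fun y => (K y : ℂ) *
        (f (x - y) - v (x - y) - ∑ j ∈ Finset.range N, c j * h j (x - y)))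
      = fun y => ((K y : ℂ) * f (x - y) - (K y : ℂ) * v (x - y))
        - ∑ j ∈ Finset.range N, c j * ((K y : ℂ) * h j (x - y)) := by
    funext y
    rw [mul_sub, mul_sub, Finset.mul_sum]
    congr 1
    apply Finset.sum_congr rfl
    intro j _
    ring
  rw [e1, intervalIntegral.integral_sub (i1.sub i2) i5, intervalIntegral.integral_sub i1 i2,
    intervalIntegral.integral_finsetSum i4]
  congr 1
  apply Finset.sum_congr rfl
  intro j _
  rw [intervalIntegral.integral_const_mul]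

/-- pointwise bound of the difference minus the coherent part -/
theorem bg_point {K : ℝ → ℝ} {κ V c0 : ℝ} {n : ℕ} {B v : ℝ → ℝ → ℂ} {E0 EL : Set ℝ}
    {E : ℕ → Set ℝ} (hP : Pulse K κ V c0 n B E0 EL E) (C5 W T S' s : ℝ) (hV : 0 ≤ V)
    (hC5 : 0 ≤ C5) (hW : 0 ≤ W) (hT : 0 ≤ T) (hS' : 0 ≤ S')
    (hv : ∀ x, ‖v s x‖ ≤ V) (hB : ∀ x, ‖B s x‖ ≤ ‖B 0 x‖ + T * W)
    (hE : ∀ j < n ^ 3, ∀ x ∈ E j,
        ‖B s x - cexp (-(I * (((n:ℝ) ^ 4 + n * j : ℝ) : ℂ) * (s:ℂ))) * B 0 x‖ ≤ C5 * n)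
    (h0 : ∀ x ∈ E0, ‖B s x - v s x‖ ≤ S') (z : ℝ) :
    ‖B s z - v s z - ∑ j ∈ Finset.range (n ^ 3),
      cexp (-(I * (((n:ℝ) ^ 4 + n * j : ℝ) : ℂ) * (s:ℂ))) * (E j).indicator (B 0) z‖
      ≤ bgg n E EL S' (C5 * n + V) (2 * (n:ℝ) ^ 2 + T * W + V) z := by
  have hTW : 0 ≤ T * W := mul_nonneg hT hW
  have hc1 : 0 ≤ C5 * n + V := by positivity
  have hc2 : 0 ≤ 2 * (n:ℝ) ^ 2 + T * W + V := by positivity
  have hsum0 : 0 ≤ ∑ j ∈ Finset.range (n ^ 3),
      (C5 * n + V) * (E j).indicator (fun _ => (1:ℝ)) z := by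
    apply Finset.sum_nonneg
    intro j _
    apply mul_nonneg hc1
    exact Set.indicator_nonneg (fun _ _ => zero_le_one) _
  have hL0 : 0 ≤ (2 * (n:ℝ) ^ 2 + T * W + V) * EL.indicator (fun _ => (1:ℝ)) z :=
    mul_nonneg hc2 (Set.indicator_nonneg (fun _ _ => zero_le_one) _)
  unfold bgg
  rcases hP.cover z with hz | hz | ⟨j, hj, hz⟩
  · have : ∑ j ∈ Finset.range (n ^ 3),
      cexp (-(I * (((n:ℝ) ^ 4 + n * j : ℝ) : ℂ) * (s:ℂ))) * (E j).indicator (B 0) z = 0 := by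
      apply Finset.sum_eq_zero
      intro j hj
      rw [Set.indicator_of_notMem (hP.d0E z hz j (Finset.mem_range.1 hj)), mul_zero]
    rw [this, sub_zero]
    have := h0 z hz
    linarith
  · have : ∑ j ∈ Finset.range (n ^ 3),
      cexp (-(I * (((n:ℝ) ^ 4 + n * j : ℝ) : ℂ) * (s:ℂ))) * (E j).indicator (B 0) z = 0 := by
      apply Finset.sum_eq_zero
      intro j hj
      rw [Set.indicator_of_notMem (hP.dLE z hz j (Finset.mem_range.1 hj)), mul_zero]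
    rw [this, sub_zero, Set.indicator_of_mem hz, mul_one]
    have h1 := norm_sub_le (B s z) (v s z)
    have h2 := hB z
    have h3 := hv z
    have h4 := hP.aL z
    linarith
  · have e1 : ∑ i ∈ Finset.range (n ^ 3),
      cexp (-(I * (((n:ℝ) ^ 4 + n * i : ℝ) : ℂ) * (s:ℂ))) * (E i).indicator (B 0) z
      = cexp (-(I * (((n:ℝ) ^ 4 + n * j : ℝ) : ℂ) * (s:ℂ))) * B 0 z := by
      rw [Finset.sum_eq_single j]
      · rw [Set.indicator_of_mem hz]
      · intro i hi hij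
        rw [Set.indicator_of_notMem (hP.dEE j hj i (Finset.mem_range.1 hi) (Ne.symm hij) z hz),
          mul_zero]
      · intro h
        exact absurd (Finset.mem_range.2 hj) h
    rw [e1]
    have e2 : (C5 * n + V) ≤ ∑ i ∈ Finset.range (n ^ 3),
      (C5 * n + V) * (E i).indicator (fun _ => (1:ℝ)) z := by
      have := Finset.single_le_sum (s := Finset.range (n ^ 3))
        (f := fun i => (C5 * n + V) * (E i).indicator (fun _ => (1:ℝ)) z) (fun i _ =>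
          mul_nonneg hc1 (Set.indicator_nonneg (fun _ _ => zero_le_one) _))
        (Finset.mem_range.2 hj)
      simp only [Set.indicator_of_mem hz, mul_one] at this
      exact this
    have e3 : B s z - v s z - cexp (-(I * (((n:ℝ) ^ 4 + n * j : ℝ) : ℂ) * (s:ℂ))) * B 0 z
        = (B s z - cexp (-(I * (((n:ℝ) ^ 4 + n * j : ℝ) : ℂ) * (s:ℂ))) * B 0 z) - v s z := by
      ring
    rw [e3]
    have h1 := norm_sub_le (B s z - cexp (-(I * (((n:ℝ) ^ 4 + n * j : ℝ) : ℂ) * (s:ℂ))) * B 0 z)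
      (v s z)
    have h2 := hE j hj z hz
    have h3 := hv z
    linarith

theorem bg_phi (θ : ℝ) (hθ : 0 < θ) (s : ℝ) :
    HasDerivAt (fun s : ℝ => (1 - cexp (-(I * (θ:ℂ) * (s:ℂ)))) / (θ:ℂ))
      (I * cexp (-(I * (θ:ℂ) * (s:ℂ)))) s := by
  have h0 : HasDerivAt (fun s : ℝ => (s:ℂ)) 1 s := by
    simpa using (hasDerivAt_id s).ofReal_comp
  have h1 : HasDerivAt (fun s : ℝ => -(I * (θ:ℂ) * (s:ℂ))) (-(I * (θ:ℂ) * 1)) s :=
    (h0.const_mul (I * (θ:ℂ))).neg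
  have h2 := ((hasDerivAt_const s (1:ℂ)).sub h1.cexp).div_const (θ:ℂ)
  refine h2.congr_deriv ?_
  have hθ' : (θ:ℂ) ≠ 0 := by exact_mod_cast hθ.ne'
  field_simp
  ring

theorem bg_cexp_norm (θ s : ℝ) : ‖cexp (-(I * (θ:ℂ) * (s:ℂ)))‖ = 1 := by
  rw [Complex.norm_exp]
  simp

theorem bg_phi_norm (θ : ℝ) (hθ : 0 < θ) (s : ℝ) :
    ‖(1 - cexp (-(I * (θ:ℂ) * (s:ℂ)))) / (θ:ℂ)‖ ≤ 2 / θ := by
  rw [norm_div, Complex.norm_real, Real.norm_of_nonneg hθ.le]
  apply div_le_div_of_nonneg_right _ hθ.le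
  refine (norm_sub_le _ _).trans ?_
  rw [bg_cexp_norm, norm_one]
  norm_num

theorem bg_arith (n C5 V TW κ c0 : ℝ) (hn : 1 ≤ n) (hC5 : 0 ≤ C5) (hV : 0 ≤ V) (hTW : 0 ≤ TW)
    (hκ : 0 < κ) (hc0 : 0 < c0) :
    n ^ 3 * ((C5 * n + V) * (2 * κ * c0 / n ^ 5)) + (2 * n ^ 2 + TW + V) * (1 / n ^ 5)
      ≤ (2 * κ * c0 * (C5 + V) + (2 + TW + V)) / n := by
  have hn0 : 0 < n := by linarith
  have a1 : n ^ 3 * ((C5 * n + V) * (2 * κ * c0 / n ^ 5)) = 2 * κ * c0 * (C5 * n + V) / n ^ 2 := by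
    field_simp
  have a2 : 2 * κ * c0 * (C5 * n + V) / n ^ 2 ≤ 2 * κ * c0 * ((C5 + V) * n) / n ^ 2 := by
    apply div_le_div_of_nonneg_right _ (by positivity)
    apply mul_le_mul_of_nonneg_left _ (by positivity)
    nlinarith
  have a3 : 2 * κ * c0 * ((C5 + V) * n) / n ^ 2 = 2 * κ * c0 * (C5 + V) / n := by
    field_simp
  have hn2 : 1 ≤ n ^ 2 := by nlinarith
  have b1 : (2 * n ^ 2 + TW + V) * (1 / n ^ 5) ≤ ((2 + TW + V) * n ^ 2) * (1 / n ^ 5) := by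
    apply mul_le_mul_of_nonneg_right _ (by positivity)
    nlinarith
  have b2 : ((2 + TW + V) * n ^ 2) * (1 / n ^ 5) = (2 + TW + V) / n ^ 3 := by
    field_simp
  have b3 : (2 + TW + V) / n ^ 3 ≤ (2 + TW + V) / n := by
    apply div_le_div_of_nonneg_left (by positivity) hn0
    nlinarith
  rw [a1, add_div]
  linarith

theorem bg_step {K : ℝ → ℝ} {κ V c0 T C5 W : ℝ} {n : ℕ} {B v : ℝ → ℝ → ℂ} {E0 EL : Set ℝ}
    {E : ℕ → Set ℝ} (hκ : 0 < κ) (hV : 0 ≤ V) (hc0 : 0 < c0) (hT : 0 < T) (hC5 : 0 ≤ C5)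
    (hW0 : 0 ≤ W) (hn : 1 ≤ n) (hK : Ker K κ) (hB : GS K B) (hv : GS K v)
    (hP : Pulse K κ V c0 n B E0 EL E) (hvV : ∀ t ∈ Icc 0 T, ∀ x, ‖v t x‖ ≤ V)
    (h0 : ∀ x ∈ E0, v 0 x = B 0 x)
    (hBW : ∀ t ∈ Icc 0 T, ∀ x, ‖B t x‖ ≤ ‖B 0 x‖ + T * W)
    (hE : ∀ t ∈ Icc 0 T, ∀ j < n ^ 3, ∀ x ∈ E j,
        ‖B t x - cexp (-(I * (((n:ℝ) ^ 4 + n * j : ℝ) : ℂ) * (t:ℂ))) * B 0 x‖ ≤ C5 * n)
    (S : ℝ) (hS : 0 ≤ S)
    (hprev : ∀ s ∈ Icc 0 T, ∀ z ∈ E0, ‖B s z - v s z‖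
      ≤ S * Real.exp (2 * (3 * (V + T * W) ^ 2 + κ) * s)) :
    ∀ t ∈ Icc 0 T, ∀ x ∈ E0, ‖B t x - v t x‖
      ≤ (S / 2 + ((2 * κ * c0 * (C5 + V) + (2 + T * W + V)) * T + 8 * κ * c0) / n)
        * Real.exp (2 * (3 * (V + T * W) ^ 2 + κ) * t) := by
  intro t ht x hx
  have hTW : 0 ≤ T * W := mul_nonneg hT.le hW0
  have hnr : (1:ℝ) ≤ n := by exact_mod_cast hn
  have hn0 : (0:ℝ) < n := by linarith
  set L : ℝ := 3 * (V + T * W) ^ 2 + κ with hL
  have hL0 : 0 < L := by positivity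
  set D : ℝ := 2 * κ * c0 * (C5 + V) + (2 + T * W + V) with hD
  have hD0 : 0 ≤ D := by positivity
  set θ : ℕ → ℝ := fun j => (n:ℝ) ^ 4 + n * j with hθ
  have hθn : ∀ j, (n:ℝ) ^ 4 ≤ θ j := by
    intro j
    simp only [hθ]
    have : 0 ≤ (n:ℝ) * j := by positivity
    linarith
  have hθ0 : ∀ j, 0 < θ j := fun j => lt_of_lt_of_le (by positivity) (hθn j)
  set gj : ℕ → ℂ := fun j => ∫ y in (0:ℝ)..(2 * Real.pi), (K y : ℂ) * (E j).indicator (B 0) (x - y)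
    with hgj
  have hBc : ∀ s, Continuous (B s) := fun s =>
    hB.cont.comp (continuous_const.prodMk continuous_id)
  have hvc : ∀ s, Continuous (v s) := fun s =>
    hv.cont.comp (continuous_const.prodMk continuous_id)
  have hindb : ∀ j z, ‖(E j).indicator (B 0) z‖ ≤
      2 * (n:ℝ) ^ 2 * (E j).indicator (fun _ => (1:ℝ)) z := by
    intro j z
    by_cases hz : z ∈ E j
    · rw [Set.indicator_of_mem hz, Set.indicator_of_mem hz, mul_one]
      exact hP.aL z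
    · rw [Set.indicator_of_notMem hz, Set.indicator_of_notMem hz, norm_zero, mul_zero]
  have hindb' : ∀ j z, ‖(E j).indicator (B 0) z‖ ≤ 2 * (n:ℝ) ^ 2 := by
    intro j z
    refine (hindb j z).trans ?_
    have : (E j).indicator (fun _ => (1:ℝ)) z ≤ 1 := by
      by_cases hz : z ∈ E j
      · rw [Set.indicator_of_mem hz]
      · rw [Set.indicator_of_notMem hz]
        exact zero_le_one
    have h2 : (0:ℝ) ≤ 2 * (n:ℝ) ^ 2 := by positivity
    nlinarith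
  have hi3 : ∀ j, IntervalIntegrable (fun y => (K y : ℂ) * (E j).indicator (B 0) (x - y))
      volume 0 (2 * Real.pi) := by
    intro j
    exact bg_ii hK _ ((hBc 0).measurable.indicator (hP.mE j)) _ (hindb' j) x
  have hgjn : ∀ j < n ^ 3, ‖gj j‖ ≤ 2 * (n:ℝ) ^ 2 * (2 * κ * c0 / (n:ℝ) ^ 5) := by
    intro j hj
    have hint : IntervalIntegrable (fun y => (|K y| + 1) *
        (fun z => 2 * (n:ℝ) ^ 2 * (E j).indicator (fun _ => (1:ℝ)) z) (x - y))
        volume 0 (2 * Real.pi) := by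
      have := (bg_ind_int hK _ (hP.mE j) x).const_mul (2 * (n:ℝ) ^ 2)
      refine this.congr ?_
      intro y _
      simp only
      ring
    refine (bg_norm hK _ _ x hint (hindb j)).trans ?_
    have e : ∫ y in (0:ℝ)..(2 * Real.pi), (|K y| + 1) *
        (fun z => 2 * (n:ℝ) ^ 2 * (E j).indicator (fun _ => (1:ℝ)) z) (x - y)
        = 2 * (n:ℝ) ^ 2 * ∫ y in (0:ℝ)..(2 * Real.pi), (|K y| + 1) *
          (E j).indicator (fun _ => (1:ℝ)) (x - y) := by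
      rw [← intervalIntegral.integral_const_mul]
      congr 1
      funext y
      simp only
      ring
    rw [e]
    exact mul_le_mul_of_nonneg_left (hP.potE j hj x) (by positivity)
  -- the modified difference
  set ρ : ℝ → ℂ := fun s => B s x - v s x + ∑ j ∈ Finset.range (n ^ 3),
    gj j * ((1 - cexp (-(I * (θ j:ℂ) * (s:ℂ)))) / (θ j:ℂ)) with hρ
  set ρ' : ℝ → ℂ := fun s =>
    (-I * (((‖B s x‖ ^ 2 : ℝ) : ℂ) * B s x + ∫ y in (0:ℝ)..(2 * Real.pi), (K y : ℂ) * B s (x - y)))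
    - (-I * (((‖v s x‖ ^ 2 : ℝ) : ℂ) * v s x + ∫ y in (0:ℝ)..(2 * Real.pi), (K y : ℂ) * v s (x - y)))
    + ∑ j ∈ Finset.range (n ^ 3), gj j * (I * cexp (-(I * (θ j:ℂ) * (s:ℂ)))) with hρ'
  have hder : ∀ s, HasDerivAt ρ (ρ' s) s := by
    intro s
    refine ((hB.der s x).sub (hv.der s x)).add ?_
    exact HasDerivAt.fun_sum (fun j _ => (bg_phi (θ j) (hθ0 j) s).const_mul (gj j))
  have hρ0 : ρ 0 = 0 := by
    simp only [hρ]
    rw [h0 x hx, sub_self, zero_add]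
    apply Finset.sum_eq_zero
    intro j _
    simp
  have hbound : ∀ s ∈ Ico 0 T, ‖ρ' s‖ ≤ S / 2 * (Real.exp (2 * L * s) * (2 * L)) + D / n := by
    intro s hs
    have hs' : s ∈ Icc 0 T := ⟨hs.1, hs.2.le⟩
    have hMB : ‖B s x‖ ≤ V + T * W := (hBW s hs' x).trans (by have := hP.a0 x hx; linarith)
    have hMv : ‖v s x‖ ≤ V + T * W := (hvV s hs' x).trans (by linarith)
    have i1 : IntervalIntegrable (fun y => (K y : ℂ) * B s (x - y)) volume 0 (2 * Real.pi) := by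
      apply bg_ii hK _ (hBc s).measurable (2 * (n:ℝ) ^ 2 + T * W)
      intro z
      exact (hBW s hs' z).trans (by have := hP.aL z; linarith)
    have i2 : IntervalIntegrable (fun y => (K y : ℂ) * v s (x - y)) volume 0 (2 * Real.pi) :=
      bg_ii hK _ (hvc s).measurable V (hvV s hs') x
    have elin := bg_lin x (n ^ 3) (B s) (v s) (fun j => (E j).indicator (B 0))
      (fun j => cexp (-(I * (θ j:ℂ) * (s:ℂ)))) i1 i2 hi3
    have e1 : ρ' s = -I * ((((‖B s x‖ ^ 2 : ℝ) : ℂ) * B s x - ((‖v s x‖ ^ 2 : ℝ) : ℂ) * v s x)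
        + ∫ y in (0:ℝ)..(2 * Real.pi), (K y : ℂ) * (B s (x - y) - v s (x - y) -
          ∑ j ∈ Finset.range (n ^ 3), cexp (-(I * (θ j:ℂ) * (s:ℂ))) *
            (E j).indicator (B 0) (x - y))) := by
      rw [← elin]
      simp only [hρ']
      have e2 : ∑ j ∈ Finset.range (n ^ 3), gj j * (I * cexp (-(I * (θ j:ℂ) * (s:ℂ))))
          = I * ∑ j ∈ Finset.range (n ^ 3), cexp (-(I * (θ j:ℂ) * (s:ℂ))) * gj j := by
        rw [Finset.mul_sum]
        apply Finset.sum_congr rfl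
        intro j _
        ring
      rw [e2]
      simp only [hgj]
      ring
    have hS'0 : 0 ≤ S * Real.exp (2 * L * s) := by positivity
    have hpt := fun z => bg_point hP C5 W T (S * Real.exp (2 * L * s)) s hV hC5 hW0 hT.le hS'0
      (hvV s hs') (hBW s hs') (hE s hs') (hprev s hs') z
    obtain ⟨hgi, hgb⟩ := bgg_int hK hP (S * Real.exp (2 * L * s)) (C5 * n + V)
      (2 * (n:ℝ) ^ 2 + T * W + V) (by positivity) (by positivity) x
    have hconv := bg_norm hK (fun z => B s z - v s z - ∑ j ∈ Finset.range (n ^ 3),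
      cexp (-(I * (θ j:ℂ) * (s:ℂ))) * (E j).indicator (B 0) z) _ x hgi hpt
    have hcub := bg_cubic (B s x) (v s x) (V + T * W) hMB hMv
    have hcub2 : 3 * (V + T * W) ^ 2 * ‖B s x - v s x‖
        ≤ 3 * (V + T * W) ^ 2 * (S * Real.exp (2 * L * s)) :=
      mul_le_mul_of_nonneg_left (hprev s hs' x hx) (by positivity)
    have har := bg_arith n C5 V (T * W) κ c0 hnr hC5 hV hTW hκ hc0
    rw [e1, norm_mul, norm_neg, Complex.norm_I, one_mul]
    refine (norm_add_le _ _).trans ?_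
    have e3 : S / 2 * (Real.exp (2 * L * s) * (2 * L)) =
      3 * (V + T * W) ^ 2 * (S * Real.exp (2 * L * s)) + S * Real.exp (2 * L * s) * κ := by
      rw [hL]
      ring
    rw [e3]
    linarith
  have hBd : ∀ s : ℝ, HasDerivAt (fun s => S / 2 * Real.exp (2 * L * s) + D / n * s)
      (S / 2 * (Real.exp (2 * L * s) * (2 * L)) + D / n) s := by
    intro s
    have h1 : HasDerivAt (fun s : ℝ => 2 * L * s) (2 * L) s := by
      simpa using (hasDerivAt_id s).const_mul (2 * L)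
    have h2 : HasDerivAt (fun s : ℝ => D / n * s) (D / n) s := by
      simpa using (hasDerivAt_id s).const_mul (D / n)
    exact (h1.exp.const_mul (S / 2)).add h2
  have hfence := image_norm_le_of_norm_deriv_right_le_deriv_boundary (f := ρ) (f' := ρ')
    (a := 0) (b := T)
    (fun s _ => (hder s).continuousAt.continuousWithinAt)
    (fun s _ => (hder s).hasDerivWithinAt)
    (B := fun s => S / 2 * Real.exp (2 * L * s) + D / n * s)
    (by
      rw [hρ0, norm_zero]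
      simp only [mul_zero, Real.exp_zero, mul_one, add_zero]
      linarith) hBd hbound ht
  have hsum : ‖∑ j ∈ Finset.range (n ^ 3),
      gj j * ((1 - cexp (-(I * (θ j:ℂ) * (t:ℂ)))) / (θ j:ℂ))‖ ≤ 8 * κ * c0 / n := by
    have h1 : ∀ j ∈ Finset.range (n ^ 3),
        ‖gj j * ((1 - cexp (-(I * (θ j:ℂ) * (t:ℂ)))) / (θ j:ℂ))‖
        ≤ 2 * (n:ℝ) ^ 2 * (2 * κ * c0 / (n:ℝ) ^ 5) * (2 / (n:ℝ) ^ 4) := by
      intro j hj
      rw [norm_mul]
      apply mul_le_mul (hgjn j (Finset.mem_range.1 hj)) _ (norm_nonneg _) (by positivity)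
      refine (bg_phi_norm (θ j) (hθ0 j) t).trans ?_
      exact div_le_div_of_nonneg_left (by norm_num) (by positivity) (hθn j)
    refine (norm_sum_le_of_le _ h1).trans ?_
    rw [Finset.sum_const, Finset.card_range, nsmul_eq_mul]
    push_cast
    have e : (n:ℝ) ^ 3 * (2 * (n:ℝ) ^ 2 * (2 * κ * c0 / (n:ℝ) ^ 5) * (2 / (n:ℝ) ^ 4))
        = 8 * κ * c0 / (n:ℝ) ^ 4 := by
      field_simp
      ring
    rw [e]
    apply div_le_div_of_nonneg_left (by positivity) hn0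
    have h2 : 1 ≤ (n:ℝ) ^ 3 := one_le_pow₀ hnr
    nlinarith
  have e5 : B t x - v t x = ρ t - ∑ j ∈ Finset.range (n ^ 3),
      gj j * ((1 - cexp (-(I * (θ j:ℂ) * (t:ℂ)))) / (θ j:ℂ)) := by
    simp only [hρ]
    ring
  rw [e5]
  refine (norm_sub_le _ _).trans ?_
  have hexp : 1 ≤ Real.exp (2 * L * t) := Real.one_le_exp (by have := ht.1; positivity)
  have hDt : D / n * t ≤ D / n * T := mul_le_mul_of_nonneg_left ht.2 (by positivity)
  have e6 : (D * T + 8 * κ * c0) / n = D / n * T + 8 * κ * c0 / n := by ring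
  have hA0 : 0 ≤ (D * T + 8 * κ * c0) / n := by positivity
  have h7 : (D * T + 8 * κ * c0) / n ≤ (D * T + 8 * κ * c0) / n * Real.exp (2 * L * t) := by
    nlinarith
  rw [add_mul]
  linarith

theorem background (κ V c0 T C5 W : ℝ) (hκ : 0 < κ) (hV : 0 ≤ V) (hc0 : 0 < c0) (hT : 0 < T) (hC5 : 0 ≤ C5) (hW0 : 0 ≤ W) :
    ∃ C6 : ℝ, 0 < C6 ∧ ∀ (n : ℕ) (K : ℝ → ℝ) (B v : ℝ → ℝ → ℂ) (E0 EL : Set ℝ) (E : ℕ → Set ℝ), 1 ≤ n → Ker K κ →
      GS K B → GS K v → Pulse K κ V c0 n B E0 EL E → (∀ t ∈ Icc 0 T, ∀ x, ‖v t x‖ ≤ V) → (∀ x ∈ E0, v 0 x = B 0 x) →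
      (∀ t ∈ Icc 0 T, ∀ x, ‖B t x‖ ≤ ‖B 0 x‖ + T * W) →
      (∀ t ∈ Icc 0 T, ∀ j < n ^ 3, ∀ x ∈ E j,
        ‖B t x - cexp (-(I * (((n:ℝ) ^ 4 + n * j : ℝ) : ℂ) * (t:ℂ))) * B 0 x‖ ≤ C5 * n) →
      ∀ t ∈ Icc 0 T, ∀ x ∈ E0, ‖B t x - v t x‖ ≤ C6 / n := by
  set D : ℝ := 2 * κ * c0 * (C5 + V) + (2 + T * W + V) with hD
  have hTW : 0 ≤ T * W := mul_nonneg hT.le hW0
  have hD0 : 0 ≤ D := by positivity
  set L : ℝ := 3 * (V + T * W) ^ 2 + κ with hL
  have hL0 : 0 < L := by positivity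
  refine ⟨2 * (D * T + 8 * κ * c0) * Real.exp (2 * L * T) + 1, by positivity, ?_⟩
  intro n K B v E0 EL E hn hK hB hv hP hvV h0 hBW hE t ht x hx
  have hnr : (1:ℝ) ≤ n := by exact_mod_cast hn
  have hn0 : (0:ℝ) < n := by linarith
  set A : ℝ := (D * T + 8 * κ * c0) / n with hA
  have hA0 : 0 ≤ A := by positivity
  have key : ∀ k : ℕ, ∀ s ∈ Icc 0 T, ∀ z ∈ E0, ‖B s z - v s z‖
      ≤ (2 * A + (2 * V + T * W) / 2 ^ k) * Real.exp (2 * L * s) := by
    intro k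
    induction k with
    | zero =>
      intro s hs z hz
      have h1 := norm_sub_le (B s z) (v s z)
      have h2 := hBW s hs z
      have h3 := hvV s hs z
      have h4 := hP.a0 z hz
      have h5 : 1 ≤ Real.exp (2 * L * s) := Real.one_le_exp (by have := hs.1; positivity)
      have h6 : ‖B s z - v s z‖ ≤ 2 * V + T * W := by linarith
      rw [pow_zero, div_one]
      have h7 : 0 ≤ 2 * A + (2 * V + T * W) := by positivity
      nlinarith
    | succ k ih =>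
      have := bg_step hκ hV hc0 hT hC5 hW0 hn hK hB hv hP hvV h0 hBW hE
        (2 * A + (2 * V + T * W) / 2 ^ k) (by positivity) ih
      intro s hs z hz
      refine (this s hs z hz).trans (le_of_eq ?_)
      congr 1
      rw [← hD, ← hA, pow_succ]
      field_simp
      ring
  have hlim : Tendsto (fun k : ℕ => (2 * A + (2 * V + T * W) / 2 ^ k) * Real.exp (2 * L * t))
      atTop (𝓝 ((2 * A + 0) * Real.exp (2 * L * t))) := by
    apply Tendsto.mul_const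
    apply Tendsto.const_add
    have h1 : Tendsto (fun k : ℕ => (2 : ℝ) ^ k) atTop atTop :=
      tendsto_pow_atTop_atTop_of_one_lt (by norm_num)
    exact tendsto_const_nhds.div_atTop h1
  have hfin := ge_of_tendsto' hlim (fun k => key k t ht x hx)
  refine hfin.trans ?_
  rw [add_zero, le_div_iff₀ hn0]
  have hee : Real.exp (2 * L * t) ≤ Real.exp (2 * L * T) := by
    apply Real.exp_le_exp.2
    apply mul_le_mul_of_nonneg_left ht.2
    positivity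
  have e : 2 * A * Real.exp (2 * L * t) * n = 2 * (D * T + 8 * κ * c0) * Real.exp (2 * L * t) := by
    rw [hA]
    field_simp
  rw [e]
  have h8 : 2 * (D * T + 8 * κ * c0) * Real.exp (2 * L * t)
      ≤ 2 * (D * T + 8 * κ * c0) * Real.exp (2 * L * T) :=
    mul_le_mul_of_nonneg_left hee (by positivity)
  linarith


end Xbackg
end MMT
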