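import Pool.Agent.Helper823.MMT.Defs2
open Complex MeasureTheory Filter Topology Set
open scoped ContDiff ENNReal
namespace MMT
namespace Xbump

theorem bump_g (a b l : ℝ) :
    ContDiff ℝ ∞ (fun z : ℝ => Real.smoothTransition ((z - a) / l) *
      Real.smoothTransition ((b - z) / l)) := by
  have h1 : ContDiff ℝ ∞ fun z : ℝ => (z - a) / l := by fun_prop
  have h2 : ContDiff ℝ ∞ fun z : ℝ => (b - z) / l := by fun_prop
  exact (Real.smoothTransition.contDiff.comp h1).mul (Real.smoothTransition.contDiff.comp h2)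

theorem bump_loc (T : ℝ) (hT : 0 < T) (g : ℝ → ℝ) (h1 : ∀ z, z < 0 → g z = 0)
    (h2 : ∀ z, T ≤ z → g z = 0) (m : ℤ) (y : ℝ) (hy1 : T * (m - 1) < y) (hy2 : y < T * (m + 1)) :
    g (Int.fract (y / T) * T) = g (y - T * m) + g (y - T * (m - 1)) := by
  rcases le_or_gt (T * m) y with h | h
  · have hf : ⌊y / T⌋ = m := by
      rw [Int.floor_eq_iff]
      constructor
      · rw [le_div_iff₀ hT]
        linarith
      · rw [div_lt_iff₀ hT]
        linarith
    have h3 : Int.fract (y / T) * T = y - T * m := by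
      rw [← Int.self_sub_floor, hf]
      field_simp
    rw [h3, h2 (y - T * (m - 1)) (by linarith), add_zero]
  · have hf : ⌊y / T⌋ = m - 1 := by
      rw [Int.floor_eq_iff]
      push_cast
      constructor
      · rw [le_div_iff₀ hT]
        linarith
      · rw [div_lt_iff₀ hT]
        linarith
    have h3 : Int.fract (y / T) * T = y - T * (m - 1) := by
      rw [← Int.self_sub_floor, hf]
      push_cast
      field_simp
    rw [h3, h1 (y - T * m) (by linarith), zero_add]

theorem bump_smooth (T : ℝ) (hT : 0 < T) (g : ℝ → ℝ) (hg : ContDiff ℝ ∞ g)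
    (h1 : ∀ z, z < 0 → g z = 0) (h2 : ∀ z, T ≤ z → g z = 0) :
    ContDiff ℝ ∞ (fun x => g (Int.fract (x / T) * T)) := by
  rw [contDiff_iff_contDiffAt]
  intro x
  obtain ⟨m, hm⟩ : ∃ m : ℤ, m = ⌊x / T⌋ := ⟨_, rfl⟩
  have hx1 : T * m ≤ x := by
    have := Int.floor_le (x / T)
    rw [← hm, le_div_iff₀ hT] at this
    linarith
  have hx2 : x < T * (m + 1) := by
    have := Int.lt_floor_add_one (x / T)
    rw [← hm, div_lt_iff₀ hT] at this
    linarith
  have hx3 : T * ((m : ℝ) - 1) < x := by nlinarith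
  have hev : (fun x => g (Int.fract (x / T) * T)) =ᶠ[𝓝 x]
      (fun y => g (y - T * m) + g (y - T * (m - 1))) := by
    filter_upwards [Ioo_mem_nhds hx3 hx2] with y hy
    exact bump_loc T hT g h1 h2 m y hy.1 hy.2
  refine ContDiffAt.congr_of_eventuallyEq ?_ hev
  have h3 : ContDiff ℝ ∞ (fun y : ℝ => y - T * m) := by fun_prop
  have h4 : ContDiff ℝ ∞ (fun y : ℝ => y - T * ((m : ℝ) - 1)) := by fun_prop
  exact ((hg.comp h3).add (hg.comp h4)).contDiffAt

theorem bump (a b l : ℝ) (ha : 0 ≤ a) (hb : b ≤ 2 * Real.pi) (hl : 0 < l) (hab : 2 * l < b - a) :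
    ∃ χ : ℝ → ℝ, ContDiff ℝ ∞ χ ∧ Function.Periodic χ (2 * Real.pi) ∧ (∀ x, 0 ≤ χ x ∧ χ x ≤ 1) ∧
      (∀ x, indp (a + l) (b - l) x = 1 → χ x = 1) ∧ (∀ x, indp a b x = 0 → χ x = 0) := by
  have hT : 0 < 2 * Real.pi := Real.two_pi_pos
  obtain ⟨g, hg⟩ : ∃ g : ℝ → ℝ, g = fun z : ℝ => Real.smoothTransition ((z - a) / l) *
      Real.smoothTransition ((b - z) / l) := ⟨_, rfl⟩
  have hgs : ContDiff ℝ ∞ g := by rw [hg]; exact bump_g a b l
  have hga : ∀ z, z ≤ a → g z = 0 := by
    intro z hz
    rw [hg]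
    change Real.smoothTransition ((z - a) / l) * Real.smoothTransition ((b - z) / l) = 0
    rw [Real.smoothTransition.zero_of_nonpos (div_nonpos_of_nonpos_of_nonneg (by linarith) hl.le),
      zero_mul]
  have hgb : ∀ z, b ≤ z → g z = 0 := by
    intro z hz
    rw [hg]
    change Real.smoothTransition ((z - a) / l) * Real.smoothTransition ((b - z) / l) = 0
    rw [Real.smoothTransition.zero_of_nonpos (x := (b - z) / l)
      (div_nonpos_of_nonpos_of_nonneg (by linarith) hl.le), mul_zero]
  have hg1 : ∀ z, a + l ≤ z → z ≤ b - l → g z = 1 := by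
    intro z hz1 hz2
    rw [hg]
    change Real.smoothTransition ((z - a) / l) * Real.smoothTransition ((b - z) / l) = 1
    rw [Real.smoothTransition.one_of_one_le (x := (z - a) / l) (by rw [le_div_iff₀ hl]; linarith),
      Real.smoothTransition.one_of_one_le (x := (b - z) / l) (by rw [le_div_iff₀ hl]; linarith),
      mul_one]
  refine ⟨fun x => g (Int.fract (x / (2 * Real.pi)) * (2 * Real.pi)), ?_, ?_, ?_, ?_, ?_⟩
  · exact bump_smooth _ hT g hgs (fun z hz => hga z (by linarith)) (fun z hz => hgb z (by linarith))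
  · intro x
    change g (Int.fract ((x + 2 * Real.pi) / (2 * Real.pi)) * (2 * Real.pi)) =
      g (Int.fract (x / (2 * Real.pi)) * (2 * Real.pi))
    have : (x + 2 * Real.pi) / (2 * Real.pi) = x / (2 * Real.pi) + 1 := by field_simp
    rw [this, Int.fract_add_one]
  · intro x
    change 0 ≤ g _ ∧ g _ ≤ 1
    rw [hg]
    constructor
    · exact mul_nonneg (Real.smoothTransition.nonneg _) (Real.smoothTransition.nonneg _)
    · exact mul_le_one₀ (Real.smoothTransition.le_one _) (Real.smoothTransition.nonneg _)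
        (Real.smoothTransition.le_one _)
  · intro x hx
    unfold indp at hx
    split_ifs at hx with h
    · exact hg1 _ h.1 h.2.le
    · exact absurd hx (by norm_num)
  · intro x hx
    unfold indp at hx
    split_ifs at hx with h
    · exact absurd hx (by norm_num)
    · rw [Set.mem_Ico, not_and_or, not_le, not_lt] at h
      rcases h with h | h
      · exact hga _ h.le
      · exact hgb _ h


end Xbump
end MMT
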