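import Pool.Agent.Helper823.MMT.Defs2
open Complex MeasureTheory Filter Topology Set
open scoped ContDiff ENNReal
namespace MMT
namespace Xcauc

theorem hd_tri (α : ℝ) (a b c : ℤ → ℂ) : hd α a c ≤ 2 * hd α a b + 2 * hd α b c := by
  unfold hd
  rw [← ENNReal.tsum_mul_left, ← ENNReal.tsum_mul_left, ← ENNReal.tsum_add]
  refine ENNReal.tsum_le_tsum fun k => ?_
  have hw : 0 ≤ (1 + |(k:ℝ)|) ^ α := by positivity
  have e2 : (2 : ℝ≥0∞) = ENNReal.ofReal 2 := by norm_num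
  rw [e2, ← ENNReal.ofReal_mul (by norm_num), ← ENNReal.ofReal_mul (by norm_num),
    ← ENNReal.ofReal_add (by positivity) (by positivity)]
  refine ENNReal.ofReal_le_ofReal ?_
  have h1 : ‖a k - c k‖ ≤ ‖a k - b k‖ + ‖b k - c k‖ := by
    have := norm_add_le (a k - b k) (b k - c k)
    simpa using this
  have h2 : ‖a k - c k‖ ^ 2 ≤ 2 * ‖a k - b k‖ ^ 2 + 2 * ‖b k - c k‖ ^ 2 := by
    have h3 : ‖a k - c k‖ ^ 2 ≤ (‖a k - b k‖ + ‖b k - c k‖) ^ 2 := by gcongr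
    nlinarith [sq_nonneg (‖a k - b k‖ - ‖b k - c k‖)]
  nlinarith [mul_le_mul_of_nonneg_left h2 hw]

theorem hd_symm (α : ℝ) (a b : ℤ → ℂ) : hd α a b = hd α b a := by
  unfold hd
  refine tsum_congr fun k => ?_
  rw [norm_sub_rev]

theorem hd_self (α : ℝ) (a : ℤ → ℂ) : hd α a a = 0 := by
  unfold hd
  simp

theorem cons_ind (α : ℝ) (a : ℕ → ℝ → ℤ → ℂ)
    (h : ∀ n : ℕ, 1 ≤ n → ∀ t ∈ Icc (-(n:ℝ)) n, hd α (a (n + 1) t) (a n t) ≤ ENNReal.ofReal (33 * (1 / 16) ^ n))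
    (p : ℕ) : ∀ m : ℕ, 1 ≤ m → ∀ t ∈ Icc (-(m:ℝ)) m,
      hd α (a (m + p) t) (a m t) ≤ ENNReal.ofReal (80 * (1 / 16) ^ m) := by
  induction p with
  | zero =>
    intro m _ t _
    rw [add_zero, hd_self]
    exact zero_le
  | succ p ih =>
    intro m hm t ht
    have h1 := ih (m + 1) (by omega) t ⟨by push_cast; linarith [ht.1], by push_cast; linarith [ht.2]⟩
    have h2 := h m hm t ht
    have e1 : m + (p + 1) = m + 1 + p := by ring
    rw [e1]
    refine (hd_tri α _ (a (m + 1) t) _).trans ?_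
    have e2 : (2 : ℝ≥0∞) = ENNReal.ofReal 2 := by norm_num
    calc 2 * hd α (a (m + 1 + p) t) (a (m + 1) t) + 2 * hd α (a (m + 1) t) (a m t)
        ≤ 2 * ENNReal.ofReal (80 * (1 / 16) ^ (m + 1)) + 2 * ENNReal.ofReal (33 * (1 / 16) ^ m) := by
          gcongr
      _ = ENNReal.ofReal (2 * (80 * (1 / 16) ^ (m + 1)) + 2 * (33 * (1 / 16) ^ m)) := by
          rw [e2, ← ENNReal.ofReal_mul (by norm_num), ← ENNReal.ofReal_mul (by norm_num),
            ← ENNReal.ofReal_add (by positivity) (by positivity)]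
      _ ≤ ENNReal.ofReal (80 * (1 / 16) ^ m) := by
          refine ENNReal.ofReal_le_ofReal ?_
          have h3 : (0 : ℝ) < (1 / 16) ^ m := by positivity
          rw [pow_succ]
          linarith

theorem cauchy_of_cons (α : ℝ) (a : ℕ → ℝ → ℤ → ℂ)
    (h : ∀ n : ℕ, 1 ≤ n → ∀ t ∈ Icc (-(n:ℝ)) n, hd α (a (n + 1) t) (a n t) ≤ ENNReal.ofReal (33 * (1 / 16) ^ n)) :
    ∀ T ε : ℝ, 0 < T → 0 < ε → ∃ N : ℕ, ∀ n ≥ N, ∀ m ≥ N, ∀ t ∈ Icc (-T) T,
      hd α (a n t) (a m t) ≤ ENNReal.ofReal ε := by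
  intro T ε hT hε
  obtain ⟨N1, hN1⟩ := exists_nat_ge T
  obtain ⟨N2, hN2⟩ := exists_pow_lt_of_lt_one (show 0 < ε / 80 by positivity)
    (show (1 / 16 : ℝ) < 1 by norm_num)
  have key : ∀ n m : ℕ, max (max N1 N2) 1 ≤ m → m ≤ n → ∀ t ∈ Icc (-T) T,
      hd α (a n t) (a m t) ≤ ENNReal.ofReal ε := by
    intro n m hm hmn t ht
    obtain ⟨p, rfl⟩ := Nat.exists_eq_add_of_le hmn
    have hm1 : N1 ≤ m := ((le_max_left _ _).trans (le_max_left _ _)).trans hm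
    have hm2 : N2 ≤ m := ((le_max_right _ _).trans (le_max_left _ _)).trans hm
    have hm3 : 1 ≤ m := (le_max_right _ _).trans hm
    have hmT : T ≤ m := hN1.trans (by exact_mod_cast hm1)
    refine (cons_ind α a h p m hm3 t ⟨by linarith [ht.1], by linarith [ht.2]⟩).trans ?_
    refine ENNReal.ofReal_le_ofReal ?_
    have h4 : (1 / 16 : ℝ) ^ m ≤ (1 / 16) ^ N2 := pow_le_pow_of_le_one (by norm_num) (by norm_num) hm2
    have h5 : (1 / 16 : ℝ) ^ m < ε / 80 := h4.trans_lt hN2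
    linarith
  refine ⟨max (max N1 N2) 1, fun n hn m hm t ht => ?_⟩
  rcases le_total m n with hmn | hmn
  · exact key n m hm hmn t ht
  · rw [hd_symm]
    exact key m n hn hmn t ht


end Xcauc
end MMT
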