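import Pool.Agent.Helper823.MMT.Defs2
open Complex MeasureTheory Filter Topology Set
open scoped ContDiff ENNReal
namespace MMT
namespace Xcboot
theorem cont_boot (T : ℝ) (D : ℝ → ℝ → ℝ) (hD : Continuous (fun p : ℝ × ℝ => D p.1 p.2))
    (hper : ∀ t, Function.Periodic (D t) (2 * Real.pi)) (P : Set ℝ) (h0 : ∀ x ∈ P, |D 0 x| ≤ 1 / 2)
    (hstep : ∀ t ∈ Icc 0 T, (∀ s ∈ Icc 0 t, ∀ x ∈ P, |D s x| ≤ 1) → ∀ x ∈ P, |D t x| ≤ 1 / 2) :
    ∀ t ∈ Icc 0 T, ∀ x ∈ P, |D t x| ≤ 1 / 2 := by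
  have hK : IsCompact ((Icc (0:ℝ) T) ×ˢ (Icc (0:ℝ) (2 * Real.pi))) := isCompact_Icc.prod isCompact_Icc
  have huc := hK.uniformContinuousOn_of_continuous hD.continuousOn
  rw [Metric.uniformContinuousOn_iff] at huc
  obtain ⟨δ, hδ, hδ2⟩ := huc (1/2) (by norm_num)
  have hpi := Real.two_pi_pos
  have key : ∀ t ∈ Icc (0:ℝ) T, ∀ t' ∈ Icc (0:ℝ) T, |t - t'| < δ → ∀ x, |D t x - D t' x| < 1 / 2 := by
    intro t ht t' ht' htt x
    set y := x - (⌊x / (2 * Real.pi)⌋ : ℤ) • (2 * Real.pi) with hy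
    have e1 : ∀ r, D r y = D r x := fun r => (hper r).sub_zsmul_eq _
    have hy1 : y ∈ Icc (0:ℝ) (2 * Real.pi) := by
      have h1 := Int.floor_le (x / (2 * Real.pi))
      have h2 := Int.lt_floor_add_one (x / (2 * Real.pi))
      rw [le_div_iff₀ hpi] at h1
      rw [div_lt_iff₀ hpi] at h2
      rw [hy, zsmul_eq_mul]
      constructor <;> linarith
    have h3 := hδ2 (t, y) ⟨ht, hy1⟩ (t', y) ⟨ht', hy1⟩ (by
      rw [Prod.dist_eq]
      simp only [dist_self]
      rw [Real.dist_eq]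
      exact max_lt htt hδ)
    rw [Real.dist_eq] at h3
    simpa only [e1] using h3
  have ind : ∀ k : ℕ, ∀ t ∈ Icc (0:ℝ) T, t ≤ k * (δ / 2) → ∀ x ∈ P, |D t x| ≤ 1 / 2 := by
    intro k
    induction k with
    | zero =>
      intro t ht htk x hx
      have : t = 0 := le_antisymm (by simpa using htk) ht.1
      rw [this]
      exact h0 x hx
    | succ k ih =>
      intro t ht htk
      refine hstep t ht fun s hs x hx => ?_
      by_cases hsk : s ≤ k * (δ / 2)
      · exact (ih s ⟨hs.1, hs.2.trans ht.2⟩ hsk x hx).trans (by norm_num)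
      · push Not at hsk
        have hs' : (k : ℝ) * (δ / 2) ∈ Icc (0:ℝ) T :=
          ⟨by positivity, (hsk.le.trans hs.2).trans ht.2⟩
        have h1 := ih _ hs' le_rfl x hx
        have h2 := key s ⟨hs.1, hs.2.trans ht.2⟩ _ hs' (by
          rw [abs_of_pos (by linarith)]
          have := hs.2.trans htk
          push_cast at this
          linarith) x
        have h3 := abs_add_le (D s x - D (k * (δ / 2)) x) (D (k * (δ / 2)) x)
        rw [sub_add_cancel] at h3
        linarith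
  intro t ht x hx
  obtain ⟨k, hk⟩ := exists_nat_ge (t / (δ / 2))
  refine ind k t ht ?_ x hx
  rwa [div_le_iff₀ (by linarith)] at hk


end Xcboot
end MMT
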