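import Pool.Agent.Helper823.MMT.Defs2
open Complex MeasureTheory Filter Topology Set
open scoped ContDiff ENNReal
namespace MMT
namespace Xcomb

theorem comb_hd_meas (a b : ℝ) : Measurable (indp a b) := by
  unfold indp
  refine Measurable.ite ?_ measurable_const measurable_const
  have h : Measurable (fun x : ℝ => Int.fract (x / (2 * Real.pi)) * (2 * Real.pi)) :=
    ((measurable_id.div_const _).fract).mul_const _
  exact h measurableSet_Ico

theorem comb_hd_per (a b : ℝ) : Function.Periodic (indp a b) (2 * Real.pi) := by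
  intro x
  unfold indp
  have h : (x + 2 * Real.pi) / (2 * Real.pi) = x / (2 * Real.pi) + 1 := by
    have := Real.pi_pos.ne'
    field_simp
  rw [h, Int.fract_add_one]

theorem comb_hd_mean (a b : ℝ) (ha : 0 ≤ a) (hab : a ≤ b) (hb : b ≤ 2 * Real.pi) :
    ∫ y in (0:ℝ)..(2 * Real.pi), indp a b y = ((b - a : ℝ) : ℂ) := by
  have h2 : 0 < 2 * Real.pi := Real.two_pi_pos
  rw [intervalIntegral.integral_of_le h2.le, integral_Ioc_eq_integral_Ioo, ← integral_Ico_eq_integral_Ioo]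
  have h1 : ∀ y ∈ Ico (0:ℝ) (2 * Real.pi), indp a b y = (Ico a b).indicator (fun _ => (1:ℂ)) y := by
    intro y hy
    have hf : Int.fract (y / (2 * Real.pi)) * (2 * Real.pi) = y := by
      rw [Int.fract_eq_self.2]
      · field_simp
      · refine ⟨div_nonneg hy.1 h2.le, ?_⟩
        rw [div_lt_one h2]; exact hy.2
    unfold indp
    rw [hf]
    by_cases hm : y ∈ Ico a b
    · simp [hm]
    · simp [hm]
  rw [setIntegral_congr_fun measurableSet_Ico h1, setIntegral_indicator measurableSet_Ico]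
  have h3 : Ico 0 (2 * Real.pi) ∩ Ico a b = Ico a b := by
    apply inter_eq_right.2
    exact Ico_subset_Ico ha hb
  rw [h3]
  simp [hab]

theorem comb_hd_fc (f : ℝ → ℂ) (j : ℤ) : fc f j = fourierCoeffOn Real.two_pi_pos f j := by
  rw [fourierCoeffOn_eq_integral]
  unfold fc
  simp only [sub_zero, smul_eq_mul]
  rw [Complex.real_smul]
  push_cast
  congr 1
  refine intervalIntegral.integral_congr (fun x _ => ?_)
  simp only [fourier_coe_apply]
  congr 2
  have : (Real.pi : ℂ) ≠ 0 := by exact_mod_cast Real.pi_pos.ne'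
  push_cast
  field_simp
  ring

theorem comb_hd_norm (k : ℤ) (x : ℝ) : ‖cexp (I * (k:ℂ) * (x:ℂ))‖ = 1 := by
  have : I * (k:ℂ) * (x:ℂ) = ((k * x : ℝ) : ℂ) * I := by push_cast; ring
  rw [this, Complex.norm_exp_ofReal_mul_I]

theorem comb_hd_bdint (f : ℝ → ℂ) (hf : Measurable f) (C : ℝ) (hC : ∀ x, ‖f x‖ ≤ C) (u v : ℝ) :
    IntervalIntegrable f volume u v := by
  refine (intervalIntegrable_const (c := C)).mono_fun hf.aestronglyMeasurable ?_
  refine Filter.Eventually.of_forall (fun y => ?_)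
  have h0 : 0 ≤ C := le_trans (norm_nonneg _) (hC y)
  simpa [abs_of_nonneg h0] using hC y

/-- vanishing of the Fourier coefficients off the progression -/
theorem comb_hd_van (h : ℝ → ℂ) (hm : Measurable h) (hp : Function.Periodic h (2 * Real.pi))
    (hb : ∀ x, ‖h x‖ ≤ 1) (h0 : ∫ y in (0:ℝ)..(2 * Real.pi), h y = 0) (k j : ℤ) (N : ℕ) (hN : 0 < N)
    (hne : fc (fun x => h (N * x) * cexp (I * (k:ℂ) * (x:ℂ))) j ≠ 0) :
    (N:ℝ) - |(k:ℝ)| ≤ |(j:ℝ)| := by
  have h2 : 0 < 2 * Real.pi := Real.two_pi_pos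
  have hN' : (0:ℝ) < N := by exact_mod_cast hN
  have hNC : (N:ℂ) ≠ 0 := by exact_mod_cast hN.ne'
  have hpi : (Real.pi : ℂ) ≠ 0 := by exact_mod_cast Real.pi_pos.ne'
  set P : ℝ → ℂ := fun x => cexp (-(I * (j:ℂ) * (x:ℂ))) * (h (N * x) * cexp (I * (k:ℂ) * (x:ℂ))) with hP
  have hI : ∫ x in (0:ℝ)..(2 * Real.pi), P x ≠ 0 := by
    intro h3
    apply hne
    unfold fc
    rw [show (∫ x in (0:ℝ)..(2 * Real.pi), cexp (-(I * (j:ℂ) * (x:ℂ))) *
      (fun x : ℝ => h (N * x) * cexp (I * (k:ℂ) * (x:ℂ))) x) = ∫ x in (0:ℝ)..(2 * Real.pi), P x from rfl, h3,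
      mul_zero]
  have hPper : Function.Periodic P (2 * Real.pi) := by
    intro x
    simp only [hP]
    have e1 : h (N * (x + 2 * Real.pi)) = h (N * x) := by
      have := hp.nat_mul N (N * x)
      rw [mul_add]; exact this
    have e2 : ∀ l : ℤ, cexp (I * (l:ℂ) * ((x + 2 * Real.pi : ℝ):ℂ)) = cexp (I * (l:ℂ) * (x:ℂ)) := by
      intro l
      rw [Complex.exp_eq_exp_iff_exists_int]
      exact ⟨l, by push_cast; ring⟩
    have e3 : cexp (-(I * (j:ℂ) * ((x + 2 * Real.pi : ℝ):ℂ))) = cexp (-(I * (j:ℂ) * (x:ℂ))) := by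
      rw [Complex.exp_neg, Complex.exp_neg, e2]
    rw [e1, e2, e3]
  have hshift : ∀ x : ℝ, P (x + 2 * Real.pi / N) = cexp (I * ((k - j : ℤ) : ℂ) * (2 * Real.pi / N)) * P x := by
    intro x
    simp only [hP]
    have e1 : h (N * (x + 2 * Real.pi / N)) = h (N * x) := by
      have e : (N:ℝ) * (x + 2 * Real.pi / N) = N * x + 2 * Real.pi := by field_simp
      rw [e]; exact hp _
    rw [e1]
    have e2 : cexp (-(I * (j:ℂ) * ((x + 2 * Real.pi / N : ℝ):ℂ))) * (h (N * x) * cexp (I * (k:ℂ) * ((x + 2 * Real.pi / N : ℝ):ℂ)))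
        = h (N * x) * (cexp (-(I * (j:ℂ) * ((x + 2 * Real.pi / N : ℝ):ℂ))) * cexp (I * (k:ℂ) * ((x + 2 * Real.pi / N : ℝ):ℂ))) := by
      ring
    have e3 : cexp (I * ((k - j : ℤ) : ℂ) * (2 * Real.pi / N)) *
        (cexp (-(I * (j:ℂ) * (x:ℂ))) * (h (N * x) * cexp (I * (k:ℂ) * (x:ℂ)))) =
        h (N * x) * (cexp (I * ((k - j : ℤ) : ℂ) * (2 * Real.pi / N)) *
        (cexp (-(I * (j:ℂ) * (x:ℂ))) * cexp (I * (k:ℂ) * (x:ℂ)))) := by ring
    rw [e2, e3, ← Complex.exp_add, ← Complex.exp_add, ← Complex.exp_add]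
    congr 2
    push_cast
    ring
  have hint : ∫ x in (0:ℝ)..(2 * Real.pi), P x = cexp (I * ((k - j : ℤ) : ℂ) * (2 * Real.pi / N)) *
      ∫ x in (0:ℝ)..(2 * Real.pi), P x := by
    rw [← intervalIntegral.integral_const_mul]
    have e1 : ∫ x in (0:ℝ)..(2 * Real.pi), P (x + 2 * Real.pi / N) = ∫ x in (0:ℝ)..(2 * Real.pi), P x := by
      rw [intervalIntegral.integral_comp_add_right]
      have := hPper.intervalIntegral_add_eq (0 + 2 * Real.pi / N) 0
      have e2 : (0 + 2 * Real.pi / N + 2 * Real.pi : ℝ) = 2 * Real.pi + 2 * Real.pi / N := by ring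
      rw [e2] at this
      rw [this, zero_add]
    rw [← e1]
    exact intervalIntegral.integral_congr (fun x _ => hshift x)
  have hω : cexp (I * ((k - j : ℤ) : ℂ) * (2 * Real.pi / N)) = 1 := by
    have := hint
    have h4 : (1 : ℂ) * (∫ x in (0:ℝ)..(2 * Real.pi), P x) =
        cexp (I * ((k - j : ℤ) : ℂ) * (2 * Real.pi / N)) * ∫ x in (0:ℝ)..(2 * Real.pi), P x := by
      rw [one_mul]; exact this
    exact (mul_right_cancel₀ hI h4).symm
  rw [Complex.exp_eq_one_iff] at hω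
  obtain ⟨n, hn⟩ := hω
  have hkj : ((k - j : ℤ) : ℂ) = n * N := by
    have hI' := Complex.I_ne_zero
    have h5 : ((k - j : ℤ) : ℂ) * (2 * Real.pi * I) = n * N * (2 * Real.pi * I) := by
      have h6 : ((k - j : ℤ) : ℂ) * (2 * Real.pi * I) = (I * ((k - j : ℤ) : ℂ) * (2 * Real.pi / N)) * N := by
        field_simp
      rw [h6, hn]; ring
    exact mul_right_cancel₀ (by simp [hpi, hI']) h5
  have hkj' : (k - j : ℤ) = n * (N : ℤ) := by exact_mod_cast hkj
  have hn0 : n ≠ 0 := by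
    rintro rfl
    have hjk : j = k := by omega
    apply hI
    have e1 : ∀ x, P x = h (N * x) := by
      intro x
      simp only [hP]
      rw [hjk]
      calc cexp (-(I * (k:ℂ) * (x:ℂ))) * (h (N * x) * cexp (I * (k:ℂ) * (x:ℂ)))
          = h (N * x) * (cexp (-(I * (k:ℂ) * (x:ℂ))) * cexp (I * (k:ℂ) * (x:ℂ))) := by ring
        _ = h (N * x) := by rw [← Complex.exp_add]; simp
    rw [intervalIntegral.integral_congr (fun x _ => e1 x)]
    rw [intervalIntegral.integral_comp_mul_left (fun y => h y) hN'.ne', mul_zero]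
    have e2 := hp.intervalIntegral_add_zsmul_eq (N : ℤ) 0 (fun t₁ t₂ => comb_hd_bdint h hm 1 hb t₁ t₂)
    rw [zero_add, zero_add, h0, smul_zero] at e2
    have e3 : ((N : ℤ) • (2 * Real.pi) : ℝ) = N * (2 * Real.pi) := by simp
    rw [e3] at e2
    rw [e2, smul_zero]
  have h7 : (N:ℝ) ≤ |((k:ℝ) - j)| := by
    have h8 : ((k:ℝ) - j) = n * N := by exact_mod_cast hkj'
    rw [h8, abs_mul, abs_of_pos hN']
    have h9 : (1:ℝ) ≤ |(n:ℝ)| := by exact_mod_cast Int.one_le_abs hn0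
    nlinarith
  have h8 : |((k:ℝ) - j)| ≤ |(k:ℝ)| + |(j:ℝ)| := abs_sub _ _
  linarith

theorem comb_hd (α : ℝ) (hα : α < 0) (k : ℤ) (ε : ℝ) (hε : 0 < ε) : ∃ N0 : ℕ, ∀ N : ℕ, N0 ≤ N →
    ∀ a b : ℝ, 0 ≤ a → a ≤ b → b ≤ 2 * Real.pi →
      hd α (fc (fun x => indp a b (N * x) * cexp (I * (k:ℂ) * (x:ℂ))))
        (fc (fun x => (((b - a) / (2 * Real.pi) : ℝ) : ℂ) * cexp (I * (k:ℂ) * (x:ℂ)))) ≤ ENNReal.ofReal ε := by
  have h2 : 0 < 2 * Real.pi := Real.two_pi_pos
  have hlim := (tendsto_rpow_neg_atTop (y := -α) (by linarith)).eventually (gt_mem_nhds hε)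
  rw [neg_neg, eventually_atTop] at hlim
  obtain ⟨X, hX⟩ := hlim
  obtain ⟨N0, hN0⟩ := exists_nat_gt (max X 0 + |(k:ℝ)|)
  refine ⟨N0, fun N hN a b ha hab hb => ?_⟩
  have hNN : (N0:ℝ) ≤ N := by exact_mod_cast hN
  have hM : 0 < (N:ℝ) - |(k:ℝ)| := by
    have := le_max_right X 0
    linarith
  have hMX : X ≤ (N:ℝ) - |(k:ℝ)| := by
    have := le_max_left X 0
    linarith
  have hNpos : 0 < N := by
    have : (0:ℝ) < N := by have := abs_nonneg (k:ℝ); linarith
    exact_mod_cast this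
  set m : ℝ := (b - a) / (2 * Real.pi) with hm
  have hm0 : 0 ≤ m := div_nonneg (by linarith) h2.le
  have hm1 : m ≤ 1 := by rw [hm, div_le_one h2]; linarith
  set h : ℝ → ℂ := fun z => indp a b z - (m : ℂ) with hh
  have hmeas : Measurable h := (comb_hd_meas a b).sub measurable_const
  have hper : Function.Periodic h (2 * Real.pi) := by
    intro z
    simp only [hh]
    rw [comb_hd_per a b z]
  have hb1 : ∀ z, ‖h z‖ ≤ 1 := by
    intro z
    simp only [hh]
    unfold indp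
    split_ifs
    · rw [show (1:ℂ) - (m:ℂ) = ((1 - m : ℝ) : ℂ) by push_cast; ring, Complex.norm_real, Real.norm_eq_abs,
        abs_of_nonneg (by linarith)]
      linarith
    · rw [zero_sub, norm_neg, Complex.norm_real, Real.norm_eq_abs, abs_of_nonneg hm0]
      exact hm1
  have hib : ∀ z, ‖indp a b z‖ ≤ 1 := by
    intro z
    unfold indp
    split_ifs <;> simp
  have h0 : ∫ y in (0:ℝ)..(2 * Real.pi), h y = 0 := by
    simp only [hh]
    rw [intervalIntegral.integral_sub (comb_hd_bdint _ (comb_hd_meas a b) 1 hib _ _) intervalIntegrable_const,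
      comb_hd_mean a b ha hab hb, intervalIntegral.integral_const, hm]
    have : (Real.pi : ℂ) ≠ 0 := by exact_mod_cast Real.pi_pos.ne'
    rw [Complex.real_smul]
    push_cast
    field_simp
    ring
  set H : ℝ → ℂ := fun x => h (N * x) * cexp (I * (k:ℂ) * (x:ℂ)) with hH
  have hexpm : ∀ l : ℤ, Measurable (fun x : ℝ => cexp (I * (l:ℂ) * (x:ℂ))) := fun l =>
    (by fun_prop : Continuous (fun x : ℝ => cexp (I * (l:ℂ) * (x:ℂ)))).measurable
  have hexpm' : ∀ l : ℤ, Measurable (fun x : ℝ => cexp (-(I * (l:ℂ) * (x:ℂ)))) := fun l =>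
    (by fun_prop : Continuous (fun x : ℝ => cexp (-(I * (l:ℂ) * (x:ℂ))))).measurable
  have hnm' : ∀ (l : ℤ) (x : ℝ), ‖cexp (-(I * (l:ℂ) * (x:ℂ)))‖ = 1 := by
    intro l x
    rw [Complex.exp_neg, norm_inv, comb_hd_norm, inv_one]
  have hHm : Measurable H := (hmeas.comp (measurable_const_mul (N:ℝ))).mul (hexpm k)
  have hHb : ∀ x, ‖H x‖ ≤ 1 := by
    intro x
    simp only [hH]
    rw [norm_mul, comb_hd_norm, mul_one]; exact hb1 _
  have hsub : ∀ j, fc (fun x => indp a b (N * x) * cexp (I * (k:ℂ) * (x:ℂ))) j -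
      fc (fun x => (m : ℂ) * cexp (I * (k:ℂ) * (x:ℂ))) j = fc H j := by
    intro j
    unfold fc
    rw [← mul_sub, ← intervalIntegral.integral_sub]
    · congr 1
      refine intervalIntegral.integral_congr (fun x _ => ?_)
      simp only [hH, hh]
      ring
    · refine comb_hd_bdint (fun x : ℝ => cexp (-(I * (j:ℂ) * (x:ℂ))) * (indp a b (N * x) * cexp (I * (k:ℂ) * (x:ℂ))))
        ((hexpm' j).mul (((comb_hd_meas a b).comp (measurable_const_mul (N:ℝ))).mul (hexpm k))) 1 ?_ _ _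
      intro x
      rw [norm_mul, norm_mul, hnm', comb_hd_norm, one_mul, mul_one]
      exact hib _
    · refine comb_hd_bdint (fun x : ℝ => cexp (-(I * (j:ℂ) * (x:ℂ))) * ((m : ℂ) * cexp (I * (k:ℂ) * (x:ℂ))))
        ((hexpm' j).mul (measurable_const.mul (hexpm k))) 1 ?_ _ _
      intro x
      rw [norm_mul, norm_mul, hnm', comb_hd_norm, one_mul, mul_one]
      rw [Complex.norm_real, Real.norm_eq_abs, abs_of_nonneg hm0]
      exact hm1
  have hL2 : MemLp H 2 (volume.restrict (Ioc 0 (2 * Real.pi))) :=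
    MemLp.of_bound hHm.aestronglyMeasurable 1 (Filter.Eventually.of_forall hHb)
  have hPars := hasSum_sq_fourierCoeffOn Real.two_pi_pos hL2
  have hPle : ((2 * Real.pi - 0)⁻¹ • ∫ x in (0:ℝ)..(2 * Real.pi), ‖H x‖ ^ 2 : ℝ) ≤ 1 := by
    rw [sub_zero, smul_eq_mul, inv_mul_le_iff₀ h2, mul_one]
    have h5 : ∫ x in (0:ℝ)..(2 * Real.pi), ‖H x‖ ^ 2 ≤ ∫ x in (0:ℝ)..(2 * Real.pi), (1:ℝ) := by
      refine intervalIntegral.integral_mono_on h2.le ?_ intervalIntegrable_const ?_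
      · refine (intervalIntegrable_const (c := (1:ℝ))).mono_fun (hHm.norm.pow_const 2).aestronglyMeasurable ?_
        refine Filter.Eventually.of_forall (fun y => ?_)
        simp only [norm_pow, norm_norm, norm_one]
        exact pow_le_one₀ (norm_nonneg _) (hHb y)
      · intro x _
        exact pow_le_one₀ (norm_nonneg _) (hHb x)
    rw [intervalIntegral.integral_const] at h5
    simpa using h5
  set M : ℝ := (N:ℝ) - |(k:ℝ)| with hMd
  have hterm : ∀ j : ℤ, (1 + |(j:ℝ)|) ^ α * ‖fc H j‖ ^ 2 ≤ M ^ α * ‖fourierCoeffOn Real.two_pi_pos H j‖ ^ 2 := by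
    intro j
    rw [← comb_hd_fc]
    by_cases hz : fc H j = 0
    · rw [hz]; simp
    · have hv := comb_hd_van h hmeas hper hb1 h0 k j N hNpos hz
      refine mul_le_mul_of_nonneg_right ?_ (by positivity)
      exact Real.rpow_le_rpow_of_nonpos hM (by linarith) hα.le
  have hMα : 0 ≤ M ^ α := Real.rpow_nonneg hM.le _
  unfold hd
  calc (∑' j : ℤ, ENNReal.ofReal ((1 + |(j:ℝ)|) ^ α *
        ‖fc (fun x => indp a b (N * x) * cexp (I * (k:ℂ) * (x:ℂ))) j -
          fc (fun x => (m : ℂ) * cexp (I * (k:ℂ) * (x:ℂ))) j‖ ^ 2))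
      ≤ ∑' j : ℤ, ENNReal.ofReal (M ^ α * ‖fourierCoeffOn Real.two_pi_pos H j‖ ^ 2) := by
        refine ENNReal.tsum_le_tsum (fun j => ?_)
        rw [hsub j]
        exact ENNReal.ofReal_le_ofReal (hterm j)
    _ = ENNReal.ofReal (∑' j : ℤ, M ^ α * ‖fourierCoeffOn Real.two_pi_pos H j‖ ^ 2) := by
        rw [ENNReal.ofReal_tsum_of_nonneg (fun j => mul_nonneg hMα (by positivity)) (hPars.summable.mul_left _)]
    _ ≤ ENNReal.ofReal ε := by
        refine ENNReal.ofReal_le_ofReal ?_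
        rw [tsum_mul_left, hPars.tsum_eq]
        calc M ^ α * _ ≤ M ^ α * 1 := mul_le_mul_of_nonneg_left hPle hMα
          _ ≤ ε := by rw [mul_one]; exact (hX M hMX).le


end Xcomb
end MMT
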