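import Pool.Agent.Helper823.MMT.Defs2
open Complex MeasureTheory Filter Topology Set
open scoped ContDiff ENNReal
namespace MMT
namespace Xdform

theorem h170_der (K : ℝ → ℝ) (B : ℝ → ℝ → ℂ) (hB : GS K B) (x s : ℝ) :
    HasDerivAt (fun s => ‖B s x‖ ^ 2)
      (2 * ((starRingEnd ℂ) (B s x) * ∫ y in (0:ℝ)..(2 * Real.pi), (K y : ℂ) * B s (x - y)).im) s := by
  have h := (hB.der s x).norm_sq
  refine h.congr_deriv ?_
  rw [Complex.inner]
  generalize (∫ y in (0:ℝ)..(2 * Real.pi), (K y : ℂ) * B s (x - y)) = W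
  generalize (‖B s x‖ ^ 2) = c
  simp only [Complex.mul_re, Complex.mul_im, Complex.conj_re, Complex.conj_im, Complex.neg_re, Complex.neg_im,
    Complex.I_re, Complex.I_im, Complex.add_re, Complex.add_im, Complex.ofReal_re, Complex.ofReal_im]
  ring

theorem h170_bdd (B : ℝ → ℝ → ℂ) (hc : Continuous (fun p : ℝ × ℝ => B p.1 p.2)) (x t : ℝ) :
    ∃ M : ℝ, 0 ≤ M ∧ ∀ s ∈ Icc 0 t, ∀ y ∈ Icc 0 (2 * Real.pi), ‖(starRingEnd ℂ) (B s x) * B s (x - y)‖ ≤ M := by
  have hcomp : IsCompact (Icc (0:ℝ) t ×ˢ Icc (0:ℝ) (2 * Real.pi)) := isCompact_Icc.prod isCompact_Icc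
  have hcont : Continuous (fun p : ℝ × ℝ => (starRingEnd ℂ) (B p.1 x) * B p.1 (x - p.2)) := by
    have h1 : Continuous (fun p : ℝ × ℝ => B p.1 x) := hc.comp (continuous_fst.prodMk continuous_const)
    have h2 : Continuous (fun p : ℝ × ℝ => B p.1 (x - p.2)) :=
      hc.comp (continuous_fst.prodMk (continuous_const.sub continuous_snd))
    exact (Complex.continuous_conj.comp h1).mul h2
  obtain ⟨M, hM⟩ := hcomp.exists_bound_of_continuousOn hcont.continuousOn
  refine ⟨max M 0, le_max_right _ _, fun s hs y hy => le_trans (hM (s, y) ⟨hs, hy⟩) (le_max_left _ _)⟩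

theorem h170_int (K : ℝ → ℝ) (κ : ℝ) (B : ℝ → ℝ → ℂ) (hK : Ker K κ) (hB : GS K B) (x t : ℝ) (ht : 0 ≤ t) :
    Integrable (Function.uncurry (fun s y : ℝ => (starRingEnd ℂ) (B s x) * ((K y : ℂ) * B s (x - y))))
      ((volume.restrict (Ioc 0 t)).prod (volume.restrict (Ioc 0 (2 * Real.pi)))) := by
  obtain ⟨M, hM0, hM⟩ := h170_bdd B hB.cont x t
  have hKi : Integrable K (volume.restrict (Ioc 0 (2 * Real.pi))) := by
    have := hK.int
    rwa [intervalIntegrable_iff_integrableOn_Ioc_of_le Real.two_pi_pos.le] at this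
  have hg : Integrable (fun p : ℝ × ℝ => M * |K p.2|)
      ((volume.restrict (Ioc 0 t)).prod (volume.restrict (Ioc 0 (2 * Real.pi)))) := by
    have h := (integrable_const (μ := volume.restrict (Ioc 0 t)) (1:ℝ)).mul_prod (hKi.abs.const_mul M)
    refine h.congr (Eventually.of_forall fun p => ?_)
    simp
  refine hg.mono' ?_ ?_
  · have h1 : Continuous (fun p : ℝ × ℝ => B p.1 x) := hB.cont.comp (continuous_fst.prodMk continuous_const)
    have h2 : Continuous (fun p : ℝ × ℝ => B p.1 (x - p.2)) :=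
      hB.cont.comp (continuous_fst.prodMk (continuous_const.sub continuous_snd))
    have h3 : Measurable (fun p : ℝ × ℝ => (K p.2 : ℂ)) := Complex.measurable_ofReal.comp (hK.meas.comp measurable_snd)
    exact ((Complex.continuous_conj.comp h1).measurable.mul (h3.mul h2.measurable)).aestronglyMeasurable
  · rw [Measure.prod_restrict]
    refine (ae_restrict_iff' (measurableSet_Ioc.prod measurableSet_Ioc)).2 (Eventually.of_forall ?_)
    rintro ⟨s, y⟩ ⟨hs, hy⟩
    have := hM s (Ioc_subset_Icc_self hs) y (Ioc_subset_Icc_self hy)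
    simp only [Function.uncurry]
    have e : ‖(starRingEnd ℂ) (B s x) * ((K y : ℂ) * B s (x - y))‖ = |K y| * ‖(starRingEnd ℂ) (B s x) * B s (x - y)‖ := by
      rw [norm_mul, norm_mul, norm_mul, Complex.norm_real, Real.norm_eq_abs]; ring
    rw [e, mul_comm]
    exact mul_le_mul_of_nonneg_right this (abs_nonneg _)

theorem D_bound (K : ℝ → ℝ) (κ : ℝ) (B : ℝ → ℝ → ℂ) (hK : Ker K κ) (hB : GS K B) (x t : ℝ) (ht : 0 ≤ t) :
    |‖B t x‖ ^ 2 - ‖B 0 x‖ ^ 2| ≤ 2 * ∫ y in (0:ℝ)..(2 * Real.pi),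
      |K y| * ‖∫ s in (0:ℝ)..t, (starRingEnd ℂ) (B s x) * B s (x - y)‖ := by
  have hint := h170_int K κ B hK hB x t ht
  have hFi : IntervalIntegrable (fun s => (starRingEnd ℂ) (B s x) * ∫ y in (0:ℝ)..(2 * Real.pi), (K y : ℂ) * B s (x - y))
      volume 0 t := by
    rw [intervalIntegrable_iff_integrableOn_Ioc_of_le ht]
    have h := hint.integral_prod_left
    refine h.congr (Eventually.of_forall fun s => ?_)
    simp only [Function.uncurry]
    rw [intervalIntegral.integral_of_le Real.two_pi_pos.le, integral_const_mul]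
  have hgi : IntervalIntegrable (fun s => 2 * ((starRingEnd ℂ) (B s x) * ∫ y in (0:ℝ)..(2 * Real.pi), (K y : ℂ) * B s (x - y)).im)
      volume 0 t := by
    have h := (Complex.imCLM.integrable_comp ((intervalIntegrable_iff_integrableOn_Ioc_of_le ht).1 hFi)).const_mul 2
    rw [intervalIntegrable_iff_integrableOn_Ioc_of_le ht]
    exact h
  have hftc := intervalIntegral.integral_eq_sub_of_hasDerivAt (f := fun s => ‖B s x‖ ^ 2)
    (fun s _ => h170_der K B hB x s) hgi
  have e1 : (∫ s in (0:ℝ)..t, 2 * ((starRingEnd ℂ) (B s x) * ∫ y in (0:ℝ)..(2 * Real.pi), (K y : ℂ) * B s (x - y)).im)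
      = 2 * (∫ s in (0:ℝ)..t, (starRingEnd ℂ) (B s x) * ∫ y in (0:ℝ)..(2 * Real.pi), (K y : ℂ) * B s (x - y)).im := by
    rw [intervalIntegral.integral_const_mul]
    congr 1
    exact Complex.imCLM.intervalIntegral_comp_comm hFi
  have e2 : (∫ s in (0:ℝ)..t, (starRingEnd ℂ) (B s x) * ∫ y in (0:ℝ)..(2 * Real.pi), (K y : ℂ) * B s (x - y))
      = ∫ y in (0:ℝ)..(2 * Real.pi), (K y : ℂ) * ∫ s in (0:ℝ)..t, (starRingEnd ℂ) (B s x) * B s (x - y) := by
    rw [intervalIntegral.integral_of_le ht, intervalIntegral.integral_of_le Real.two_pi_pos.le]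
    calc (∫ s in Ioc 0 t, (starRingEnd ℂ) (B s x) * ∫ y in (0:ℝ)..(2 * Real.pi), (K y : ℂ) * B s (x - y))
        = ∫ s in Ioc 0 t, ∫ y in Ioc 0 (2 * Real.pi), (starRingEnd ℂ) (B s x) * ((K y : ℂ) * B s (x - y)) := by
          refine integral_congr_ae (Eventually.of_forall fun s => ?_)
          simp only
          rw [intervalIntegral.integral_of_le Real.two_pi_pos.le, integral_const_mul]
      _ = ∫ y in Ioc 0 (2 * Real.pi), ∫ s in Ioc 0 t, (starRingEnd ℂ) (B s x) * ((K y : ℂ) * B s (x - y)) :=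
          integral_integral_swap hint
      _ = _ := by
          refine integral_congr_ae (Eventually.of_forall fun y => ?_)
          simp only
          rw [intervalIntegral.integral_of_le ht, ← integral_const_mul]
          refine integral_congr_ae (Eventually.of_forall fun s => ?_)
          simp only
          ring
  have e3 : ‖B t x‖ ^ 2 - ‖B 0 x‖ ^ 2 = 2 * (∫ y in (0:ℝ)..(2 * Real.pi), (K y : ℂ) * ∫ s in (0:ℝ)..t, (starRingEnd ℂ) (B s x) * B s (x - y)).im := by
    rw [← e2, ← e1, hftc]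
  rw [e3, abs_mul, abs_two]
  refine mul_le_mul_of_nonneg_left ?_ zero_le_two
  refine (Complex.abs_im_le_norm _).trans ?_
  refine (intervalIntegral.norm_integral_le_integral_norm Real.two_pi_pos.le).trans (le_of_eq ?_)
  refine intervalIntegral.integral_congr fun y _ => ?_
  simp only [norm_mul, Complex.norm_real, Real.norm_eq_abs]


end Xdform
end MMT
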