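import Pool.Agent.Helper823.MMT.Defs2
open Complex MeasureTheory Filter Topology Set
open scoped ContDiff ENNReal
namespace MMT
namespace Xemain

/-- evaluation as a continuous real linear map -/
noncomputable def evL (x : Cir) : C(Cir, ℂ) →L[ℝ] ℂ := ContinuousMap.evalCLM ℝ x

theorem evL_apply (x : Cir) (g : C(Cir, ℂ)) : evL x g = g x := rfl

/-- translation as a continuous real linear map -/
noncomputable def trL (a : ℝ) : C(Cir, ℂ) →L[ℝ] C(Cir, ℂ) where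
  toFun g := tr a g
  map_add' g h := by ext x; rfl
  map_smul' c g := by ext x; rfl
  cont := ContinuousMap.continuous_precomp _

theorem trL_apply (a : ℝ) (g : C(Cir, ℂ)) : trL a g = tr a g := rfl

theorem tr_apply (a : ℝ) (g : C(Cir, ℂ)) (x : Cir) : tr a g x = g (x + (a : Cir)) := rfl

theorem Fld_apply (L : C(Cir, ℂ) →L[ℂ] C(Cir, ℂ)) (u : C(Cir, ℂ)) (x : Cir) :
    Fld L u x = (-I) * (L u x + u x * star (u x) * u x) := rfl

theorem Fld_tr (L : C(Cir, ℂ) →L[ℂ] C(Cir, ℂ))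
    (hLt : ∀ (a : ℝ) (g : C(Cir, ℂ)), L (tr a g) = tr a (L g)) (a : ℝ) (u : C(Cir, ℂ)) :
    Fld L (tr a u) = tr a (Fld L u) := by
  ext x
  rw [Fld_apply, hLt, tr_apply, tr_apply, tr_apply, Fld_apply]

theorem Fld_lip (L : C(Cir, ℂ) →L[ℂ] C(Cir, ℂ)) (R : ℝ) (hR : 0 ≤ R) :
    ∃ K : NNReal, LipschitzOnWith K (Fld L) (Metric.closedBall 0 R) := by
  have hK0 : 0 ≤ ‖L‖ + 3 * R ^ 2 := by positivity
  refine ⟨Real.toNNReal (‖L‖ + 3 * R ^ 2), LipschitzOnWith.of_dist_le_mul ?_⟩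
  intro u hu v hv
  rw [mem_closedBall_zero_iff] at hu hv
  rw [Real.coe_toNNReal _ hK0, dist_eq_norm, dist_eq_norm]
  have e : Fld L u - Fld L v = (-I) • (L (u - v) + ((u - v) * star u * u + v * star (u - v) * u
      + v * star v * (u - v))) := by
    ext x
    simp only [ContinuousMap.sub_apply, Fld_apply, ContinuousMap.smul_apply, map_sub,
      ContinuousMap.add_apply, ContinuousMap.mul_apply, ContinuousMap.star_apply, star_sub,
      smul_eq_mul]
    ring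
  rw [e, norm_smul, norm_neg, Complex.norm_I, one_mul]
  have h1 : ‖L (u - v)‖ ≤ ‖L‖ * ‖u - v‖ := L.le_opNorm _
  have h2 : ‖(u - v) * star u * u‖ ≤ R ^ 2 * ‖u - v‖ := by
    refine (norm_mul_le _ _).trans ?_
    have := norm_mul_le (u - v) (star u)
    rw [norm_star] at this
    calc ‖(u - v) * star u‖ * ‖u‖ ≤ (‖u - v‖ * R) * R := by
          have h3 : ‖u - v‖ * ‖u‖ ≤ ‖u - v‖ * R := mul_le_mul_of_nonneg_left hu (norm_nonneg _)
          exact mul_le_mul (this.trans h3) hu (norm_nonneg _) (by positivity)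
      _ = _ := by ring
  have h3 : ‖v * star (u - v) * u‖ ≤ R ^ 2 * ‖u - v‖ := by
    refine (norm_mul_le _ _).trans ?_
    have := norm_mul_le v (star (u - v))
    rw [norm_star] at this
    calc ‖v * star (u - v)‖ * ‖u‖ ≤ (R * ‖u - v‖) * R := by
          have h3 : ‖v‖ * ‖u - v‖ ≤ R * ‖u - v‖ := mul_le_mul_of_nonneg_right hv (norm_nonneg _)
          exact mul_le_mul (this.trans h3) hu (norm_nonneg _) (by positivity)
      _ = _ := by ring
  have h4 : ‖v * star v * (u - v)‖ ≤ R ^ 2 * ‖u - v‖ := by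
    refine (norm_mul_le _ _).trans ?_
    have := norm_mul_le v (star v)
    rw [norm_star] at this
    calc ‖v * star v‖ * ‖u - v‖ ≤ (R * R) * ‖u - v‖ := by
          have h3 : ‖v‖ * ‖v‖ ≤ R * R := mul_le_mul hv hv (norm_nonneg _) hR
          exact mul_le_mul_of_nonneg_right (this.trans h3) (norm_nonneg _)
      _ = _ := by ring
  refine (norm_add_le _ _).trans ?_
  have h5 := norm_add₃_le (a := (u - v) * star u * u) (b := v * star (u - v) * u)
    (c := v * star v * (u - v))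
  linarith

theorem flow_tr (L : C(Cir, ℂ) →L[ℂ] C(Cir, ℂ))
    (hLt : ∀ (a : ℝ) (g : C(Cir, ℂ)), L (tr a g) = tr a (L g))
    (φ : ℝ → C(Cir, ℂ) → C(Cir, ℂ)) (h0 : ∀ f, φ 0 f = f)
    (h1 : ∀ f t, HasDerivAt (fun s => φ s f) (Fld L (φ t f)) t) (a t : ℝ) (g : C(Cir, ℂ)) :
    φ t (tr a g) = tr a (φ t g) := by
  have hd1 : ∀ s, HasDerivAt (fun s => φ s (tr a g)) (Fld L (φ s (tr a g))) s := h1 _
  have hd2 : ∀ s, HasDerivAt (fun s => tr a (φ s g)) (Fld L (tr a (φ s g))) s := by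
    intro s
    rw [Fld_tr L hLt]
    exact (trL a).hasFDerivAt.comp_hasDerivAt s (h1 g s)
  obtain ⟨R, hR0, hR1, hR2⟩ : ∃ R : ℝ, 0 ≤ R ∧ (∀ s ∈ Icc (-(|t| + 1)) (|t| + 1),
      ‖φ s (tr a g)‖ ≤ R) ∧ (∀ s ∈ Icc (-(|t| + 1)) (|t| + 1), ‖tr a (φ s g)‖ ≤ R) := by
    have c1 : ContinuousOn (fun s => φ s (tr a g)) (Icc (-(|t| + 1)) (|t| + 1)) :=
      fun s _ => (hd1 s).continuousAt.continuousWithinAt
    have c2 : ContinuousOn (fun s => tr a (φ s g)) (Icc (-(|t| + 1)) (|t| + 1)) :=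
      fun s _ => (hd2 s).continuousAt.continuousWithinAt
    obtain ⟨R1, hR1⟩ := isCompact_Icc.exists_bound_of_continuousOn c1
    obtain ⟨R2, hR2⟩ := isCompact_Icc.exists_bound_of_continuousOn c2
    refine ⟨max 0 (max R1 R2), le_max_left _ _, fun s hs => ?_, fun s hs => ?_⟩
    · exact (hR1 s hs).trans ((le_max_left _ _).trans (le_max_right _ _))
    · exact (hR2 s hs).trans ((le_max_right _ _).trans (le_max_right _ _))
  obtain ⟨K, hK⟩ := Fld_lip L R hR0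
  have ht : t ∈ Ioo (-(|t| + 1)) (|t| + 1) := by
    constructor
    · have := neg_abs_le t; linarith
    · have := le_abs_self t; linarith
  have h00 : (0:ℝ) ∈ Ioo (-(|t| + 1)) (|t| + 1) := by
    have := abs_nonneg t
    constructor <;> linarith
  have := ODE_solution_unique_of_mem_Ioo (v := fun _ => Fld L)
    (s := fun _ => Metric.closedBall 0 R) (K := K) (f := fun s => φ s (tr a g))
    (g := fun s => tr a (φ s g)) (fun _ _ => hK) h00
    (fun s hs => ⟨hd1 s, by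
      rw [mem_closedBall_zero_iff]; exact hR1 s (Ioo_subset_Icc_self hs)⟩)
    (fun s hs => ⟨hd2 s, by
      rw [mem_closedBall_zero_iff]; exact hR2 s (Ioo_subset_Icc_self hs)⟩)
    (by simp only [h0])
  exact this ht

theorem smooth_sol_exists (α : ℝ) (L : C(Cir, ℂ) →L[ℂ] C(Cir, ℂ))
    (hLt : ∀ (a : ℝ) (g : C(Cir, ℂ)), L (tr a g) = tr a (L g))
    (hLa : ∀ (f : ℝ → ℂ) (g : C(Cir, ℂ)), ContDiff ℝ 2 f → (∀ x : ℝ, g (x : Cir) = f x) →
      ∀ x : ℝ, L g (x : Cir) = absD α f x)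
    (φ : ℝ → C(Cir, ℂ) → C(Cir, ℂ)) (h0 : ∀ f, φ 0 f = f)
    (h1 : ∀ f t, HasDerivAt (fun s => φ s f) (Fld L (φ t f)) t)
    (hφ : ContDiff ℝ ∞ (fun p : ℝ × C(Cir, ℂ) => φ p.1 p.2))
    (htr : ∀ (f : ℝ → ℂ) (g : C(Cir, ℂ)), ContDiff ℝ ∞ f → (∀ x : ℝ, g (x : Cir) = f x) →
      ContDiff ℝ ∞ (fun a : ℝ => tr a g))
    (f : ℝ → ℂ) (hf : ContDiff ℝ ∞ f) (hp : Function.Periodic f (2 * Real.pi)) :
    ∃ v : ℝ → ℝ → ℂ, v 0 = f ∧ ContDiff ℝ ∞ (fun p : ℝ × ℝ => v p.1 p.2) ∧ ∀ T > 0, IsSmoothSol α T v := by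
  have hgc : Continuous (hp.lift : Cir → ℂ) :=
    continuous_coinduced_dom.2 hf.continuous
  set g : C(Cir, ℂ) := ⟨hp.lift, hgc⟩ with hg
  have hgf : ∀ x : ℝ, g (x : Cir) = f x := fun x => rfl
  have hval : ∀ (t x : ℝ), φ t g (x : Cir) = φ t (tr x g) 0 := by
    intro t x
    rw [flow_tr L hLt φ h0 h1, tr_apply, zero_add]
  have hsm : ContDiff ℝ ∞ (fun p : ℝ × ℝ => φ p.1 g (p.2 : Cir)) := by
    have e : (fun p : ℝ × ℝ => φ p.1 g (p.2 : Cir)) =
        fun p : ℝ × ℝ => evL (0 : Cir) (φ p.1 (tr p.2 g)) := by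
      funext p
      exact hval p.1 p.2
    rw [e]
    refine (evL (0 : Cir)).contDiff.comp ?_
    exact hφ.comp (contDiff_fst.prodMk ((htr f g hf hgf).comp contDiff_snd))
  refine ⟨fun t x => φ t g (x : Cir), ?_, hsm, ?_⟩
  · funext x
    show φ 0 g (x : Cir) = f x
    rw [h0]
    exact hgf x
  · intro T hT
    refine ⟨hsm.contDiffOn, ?_, ?_⟩
    · intro t _ x
      show φ t g ((x + 2 * Real.pi : ℝ) : Cir) = φ t g (x : Cir)
      rw [AddCircle.coe_add, AddCircle.coe_period, add_zero]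
    · intro t _ x
      have hd : HasDerivAt (fun s => φ s g (x : Cir)) (Fld L (φ t g) (x : Cir)) t :=
        (evL (x : Cir)).hasFDerivAt.comp_hasDerivAt t (h1 g t)
      show I * deriv (fun s => φ s g (x : Cir)) t = absD α (fun x : ℝ => φ t g (x : Cir)) x +
        ((‖φ t g (x : Cir)‖ ^ 2 : ℝ) : ℂ) * φ t g (x : Cir)
      rw [hd.deriv, Fld_apply]
      have hc2 : ContDiff ℝ 2 (fun x : ℝ => φ t g (x : Cir)) := by
        have h3 : ContDiff ℝ ∞ (fun x : ℝ => φ t g (x : Cir)) :=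
          hsm.comp (contDiff_const.prodMk contDiff_id)
        exact h3.of_le (WithTop.coe_le_coe.2 le_top)
      rw [hLa (fun x : ℝ => φ t g (x : Cir)) (φ t g) hc2 (fun _ => rfl) x]
      have e1 : φ t g (x : Cir) * star (φ t g (x : Cir)) = ((‖φ t g (x : Cir)‖ ^ 2 : ℝ) : ℂ) := by
        rw [Complex.star_def, Complex.mul_conj, Complex.normSq_eq_norm_sq]
      rw [e1]
      rw [← mul_assoc, mul_neg, Complex.I_mul_I, neg_neg, one_mul]


end Xemain
end MMT
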