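import Pool.Agent.Helper823.MMT.Defs2
open Complex MeasureTheory Filter Topology Set
open scoped ContDiff ENNReal
namespace MMT
namespace Xequi

theorem equidist_meas (a b : ℝ) : Measurable (indp a b) := by
  unfold indp
  refine Measurable.ite ?_ measurable_const measurable_const
  have h : Measurable (fun x : ℝ => Int.fract (x / (2 * Real.pi)) * (2 * Real.pi)) :=
    ((measurable_id.div_const _).fract).mul_const _
  exact h measurableSet_Ico

theorem equidist_per (a b : ℝ) : Function.Periodic (indp a b) (2 * Real.pi) := by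
  intro x
  unfold indp
  have h : (x + 2 * Real.pi) / (2 * Real.pi) = x / (2 * Real.pi) + 1 := by
    have := Real.pi_pos.ne'
    field_simp
  rw [h, Int.fract_add_one]

theorem equidist_le (a b x : ℝ) : 0 ≤ ‖indp a b x‖ ∧ ‖indp a b x‖ ≤ 1 := by
  refine ⟨norm_nonneg _, ?_⟩
  unfold indp
  split_ifs <;> simp

theorem equidist_mean (a b : ℝ) (ha : 0 ≤ a) (hab : a ≤ b) (hb : b ≤ 2 * Real.pi) :
    ∫ y in (0:ℝ)..(2 * Real.pi), ‖indp a b y‖ = b - a := by
  have h2 : 0 < 2 * Real.pi := Real.two_pi_pos
  rw [intervalIntegral.integral_of_le h2.le, integral_Ioc_eq_integral_Ioo, ← integral_Ico_eq_integral_Ioo]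
  have h1 : ∀ y ∈ Ico (0:ℝ) (2 * Real.pi), ‖indp a b y‖ = (Ico a b).indicator (fun _ => (1:ℝ)) y := by
    intro y hy
    have hf : Int.fract (y / (2 * Real.pi)) * (2 * Real.pi) = y := by
      rw [Int.fract_eq_self.2]
      · field_simp
      · refine ⟨div_nonneg hy.1 h2.le, ?_⟩
        rw [div_lt_one h2]; exact hy.2
    unfold indp
    rw [hf]
    by_cases hm : y ∈ Ico a b
    · simp [hm]
    · simp [hm]
  rw [setIntegral_congr_fun measurableSet_Ico h1, setIntegral_indicator measurableSet_Ico]
  have h3 : Ico 0 (2 * Real.pi) ∩ Ico a b = Ico a b := by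
    apply inter_eq_right.2
    exact Ico_subset_Ico ha hb
  rw [h3]
  simp [hab]

/-- cells -/
theorem equidist_cell (h : ℝ → ℝ) (hm : Measurable h) (hp : Function.Periodic h (2 * Real.pi))
    (hb : ∀ x, |h x| ≤ 1) (h0 : ∫ y in (0:ℝ)..(2 * Real.pi), h y = 0) (q : ℝ → ℝ) (hq : Continuous q)
    (η : ℝ) (N : ℕ) (hN : 0 < N)
    (hη : ∀ y ∈ Icc (0:ℝ) (2 * Real.pi), ∀ z ∈ Icc (0:ℝ) (2 * Real.pi), |y - z| ≤ 2 * Real.pi / N →
      |q y - q z| ≤ η) (x : ℝ) :
    |∫ y in (0:ℝ)..(2 * Real.pi), q y * h (N * (x - y))| ≤ 2 * Real.pi * η := by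
  have h2 : 0 < 2 * Real.pi := Real.two_pi_pos
  have hN' : (0:ℝ) < N := by exact_mod_cast hN
  set c : ℕ → ℝ := fun j => 2 * Real.pi * j / N with hc
  have hc0 : c 0 = 0 := by simp [hc]
  have hcN : c N = 2 * Real.pi := by simp only [hc]; field_simp
  have hcs : ∀ j, c (j + 1) = c j + 2 * Real.pi / N := by
    intro j; simp only [hc]; push_cast; field_simp
  have hmh : Measurable (fun y => h (N * (x - y))) := hm.comp (by fun_prop)
  have hint : ∀ u v : ℝ, IntervalIntegrable (fun y => h (N * (x - y))) volume u v := by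
    intro u v
    refine (intervalIntegrable_const (c := (1:ℝ))).mono_fun hmh.aestronglyMeasurable ?_
    refine Filter.Eventually.of_forall (fun y => ?_)
    simpa using hb _
  have hintq : ∀ u v : ℝ, IntervalIntegrable (fun y => q y * h (N * (x - y))) volume u v := by
    intro u v
    have := (hint u v).mul_continuousOn (g := q) hq.continuousOn
    refine this.congr ?_
    intro y _
    simp only [mul_comm]
  have hcell0 : ∀ j, ∫ y in c j..c (j + 1), h (N * (x - y)) = 0 := by
    intro j
    have e1 : (fun y => h (N * (x - y))) = fun y => h (N * x - N * y) := by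
      funext y; congr 1; ring
    rw [e1, intervalIntegral.integral_comp_sub_mul _ hN'.ne']
    have e2 : (N:ℝ) * x - N * c j = (N * x - N * c (j + 1)) + 2 * Real.pi := by
      rw [hcs]; field_simp; ring
    rw [e2, hp.intervalIntegral_add_eq _ 0, zero_add, h0, smul_zero]
  have hsum : ∫ y in (0:ℝ)..(2 * Real.pi), q y * h (N * (x - y)) =
      ∑ j ∈ Finset.range N, ∫ y in c j..c (j + 1), q y * h (N * (x - y)) := by
    rw [intervalIntegral.sum_integral_adjacent_intervals (fun j _ => hintq _ _), hc0, hcN]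
  rw [hsum]
  have hterm : ∀ j ∈ Finset.range N, |∫ y in c j..c (j + 1), q y * h (N * (x - y))| ≤ η * (2 * Real.pi / N) := by
    intro j hj
    have hjN : j < N := Finset.mem_range.1 hj
    have hcle : c j ≤ c (j + 1) := by rw [hcs]; have := div_pos h2 hN'; linarith
    have hcj0 : 0 ≤ c j := by simp only [hc]; positivity
    have hcj1 : c (j + 1) ≤ 2 * Real.pi := by
      simp only [hc]
      rw [div_le_iff₀ hN']
      have : ((j + 1 : ℕ) : ℝ) ≤ N := by exact_mod_cast hjN
      nlinarith
    have e3 : ∫ y in c j..c (j + 1), q y * h (N * (x - y)) =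
        ∫ y in c j..c (j + 1), (q y - q (c j)) * h (N * (x - y)) := by
      have e4 : ∫ y in c j..c (j + 1), (q y - q (c j)) * h (N * (x - y)) =
          (∫ y in c j..c (j + 1), q y * h (N * (x - y))) - ∫ y in c j..c (j + 1), q (c j) * h (N * (x - y)) := by
        rw [← intervalIntegral.integral_sub (hintq _ _) ((hint _ _).const_mul _)]
        refine intervalIntegral.integral_congr (fun y _ => ?_)
        ring
      rw [e4, intervalIntegral.integral_const_mul, hcell0, mul_zero, sub_zero]
    rw [e3]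
    have h5 := intervalIntegral.norm_integral_le_of_norm_le_const (a := c j) (b := c (j + 1))
      (f := fun y => (q y - q (c j)) * h (N * (x - y))) (C := η) (by
        intro y hy
        rw [uIoc_of_le hcle] at hy
        rw [norm_mul, Real.norm_eq_abs, Real.norm_eq_abs]
        have h6 : |q y - q (c j)| ≤ η := by
          refine hη y ⟨le_trans hcj0 hy.1.le, le_trans hy.2 hcj1⟩ (c j) ⟨hcj0, le_trans hcle hcj1⟩ ?_
          rw [abs_of_nonneg (by linarith [hy.1])]
          have := hy.2
          rw [hcs] at this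
          linarith
        calc |q y - q (c j)| * |h (N * (x - y))| ≤ |q y - q (c j)| * 1 :=
              mul_le_mul_of_nonneg_left (hb _) (abs_nonneg _)
          _ ≤ η := by rw [mul_one]; exact h6)
    rw [Real.norm_eq_abs] at h5
    refine h5.trans (le_of_eq ?_)
    rw [hcs, add_sub_cancel_left, abs_of_pos (div_pos h2 hN')]
  calc |∑ j ∈ Finset.range N, ∫ y in c j..c (j + 1), q y * h (N * (x - y))|
      ≤ ∑ j ∈ Finset.range N, |∫ y in c j..c (j + 1), q y * h (N * (x - y))| := Finset.abs_sum_le_sum_abs _ _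
    _ ≤ ∑ j ∈ Finset.range N, η * (2 * Real.pi / N) := Finset.sum_le_sum hterm
    _ = 2 * Real.pi * η := by
        rw [Finset.sum_const, Finset.card_range, nsmul_eq_mul]; field_simp

theorem equidist (K : ℝ → ℝ) (κ : ℝ) (hK : Ker K κ) (ε : ℝ) (hε : 0 < ε) : ∃ N0 : ℕ, ∀ N : ℕ, N0 ≤ N →
    ∀ a b : ℝ, 0 ≤ a → a ≤ b → b ≤ 2 * Real.pi → ∀ x : ℝ,
      |(∫ y in (0:ℝ)..(2 * Real.pi), (|K y| + 1) * ‖indp a b (N * (x - y))‖) - (b - a) / (2 * Real.pi) * κ| ≤ ε := by
  have h2 : 0 < 2 * Real.pi := Real.two_pi_pos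
  have hk1 : IntervalIntegrable (fun y => |K y| + 1) volume 0 (2 * Real.pi) :=
    hK.int.abs.add intervalIntegrable_const
  have hk1' : Integrable (fun y => |K y| + 1) (volume.restrict (Ioc 0 (2 * Real.pi))) :=
    (intervalIntegrable_iff_integrableOn_Ioc_of_le h2.le).1 hk1
  obtain ⟨q, hq, hqi⟩ := hk1'.exists_boundedContinuous_integral_sub_le (ε := ε / 2) (by linarith)
  -- uniform continuity
  have huc : UniformContinuousOn (q : ℝ → ℝ) (Icc 0 (2 * Real.pi)) :=
    isCompact_Icc.uniformContinuousOn_of_continuous q.continuous.continuousOn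
  rw [Metric.uniformContinuousOn_iff] at huc
  obtain ⟨δ, hδ, huc⟩ := huc (ε / (2 * (2 * Real.pi))) (by positivity)
  obtain ⟨N1, hN1⟩ := exists_nat_gt (2 * Real.pi / δ)
  refine ⟨N1 + 1, fun N hN a b ha hab hb x => ?_⟩
  have hNpos : 0 < N := by omega
  have hN' : (0:ℝ) < N := by exact_mod_cast hNpos
  have hNδ : 2 * Real.pi / N < δ := by
    rw [div_lt_iff₀ hN']
    rw [div_lt_iff₀ hδ] at hN1
    have : (N1 : ℝ) ≤ N := by exact_mod_cast (by omega : N1 ≤ N)
    nlinarith
  set m : ℝ := (b - a) / (2 * Real.pi) with hm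
  have hm0 : 0 ≤ m := div_nonneg (by linarith) h2.le
  have hm1 : m ≤ 1 := by rw [hm, div_le_one h2]; linarith
  set h : ℝ → ℝ := fun z => ‖indp a b z‖ - m with hh
  have hmeas : Measurable h := (equidist_meas a b).norm.sub measurable_const
  have hper : Function.Periodic h (2 * Real.pi) := by
    intro z
    simp only [hh]
    rw [equidist_per a b z]
  have hb1 : ∀ z, |h z| ≤ 1 := by
    intro z
    obtain ⟨h3, h4⟩ := equidist_le a b z
    rw [abs_le]
    constructor
    · simp only [hh]; linarith
    · simp only [hh]; linarith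
  have hgi : ∀ u v : ℝ, IntervalIntegrable (fun z => ‖indp a b z‖) volume u v := by
    intro u v
    refine (intervalIntegrable_const (c := (1:ℝ))).mono_fun (equidist_meas a b).norm.aestronglyMeasurable ?_
    refine Filter.Eventually.of_forall (fun y => ?_)
    simpa using (equidist_le a b y).2
  have h0 : ∫ y in (0:ℝ)..(2 * Real.pi), h y = 0 := by
    simp only [hh]
    rw [intervalIntegral.integral_sub (hgi _ _) intervalIntegrable_const, equidist_mean a b ha hab hb,
      intervalIntegral.integral_const, hm]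
    simp
    field_simp
    ring
  have hcell := equidist_cell h hmeas hper hb1 h0 q q.continuous (ε / (2 * (2 * Real.pi))) N hNpos (by
    intro y hy z hz hyz
    have := huc y hy z hz (by rw [Real.dist_eq]; exact lt_of_le_of_lt hyz hNδ)
    rw [Real.dist_eq] at this
    exact this.le) x
  have hmh : Measurable (fun y => h (N * (x - y))) := hmeas.comp (by fun_prop)
  have hmg : Measurable (fun y => ‖indp a b (N * (x - y))‖) :=
    (equidist_meas a b).norm.comp (by fun_prop : Measurable fun y : ℝ => (N:ℝ) * (x - y))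
  have hk1h : IntervalIntegrable (fun y => (|K y| + 1) * h (N * (x - y))) volume 0 (2 * Real.pi) := by
    refine hk1.mono_fun ((intervalIntegrable_iff.1 hk1).aestronglyMeasurable.mul hmh.aestronglyMeasurable) ?_
    refine Filter.Eventually.of_forall (fun y => ?_)
    simp only [norm_mul, Real.norm_eq_abs]
    exact mul_le_of_le_one_right (abs_nonneg _) (hb1 _)
  have hqI : IntervalIntegrable (q : ℝ → ℝ) volume 0 (2 * Real.pi) := q.continuous.intervalIntegrable _ _
  have hqh : IntervalIntegrable (fun y => q y * h (N * (x - y))) volume 0 (2 * Real.pi) := by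
    refine hqI.mono_fun ((intervalIntegrable_iff.1 hqI).aestronglyMeasurable.mul hmh.aestronglyMeasurable) ?_
    refine Filter.Eventually.of_forall (fun y => ?_)
    simp only [norm_mul, Real.norm_eq_abs]
    exact mul_le_of_le_one_right (abs_nonneg _) (hb1 _)
  have e1 : (∫ y in (0:ℝ)..(2 * Real.pi), (|K y| + 1) * ‖indp a b (N * (x - y))‖) - m * κ =
      ∫ y in (0:ℝ)..(2 * Real.pi), (|K y| + 1) * h (N * (x - y)) := by
    have e2 : ∫ y in (0:ℝ)..(2 * Real.pi), (|K y| + 1) * ‖indp a b (N * (x - y))‖ =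
        (∫ y in (0:ℝ)..(2 * Real.pi), (|K y| + 1) * h (N * (x - y))) +
          ∫ y in (0:ℝ)..(2 * Real.pi), m * (|K y| + 1) := by
      rw [← intervalIntegral.integral_add hk1h (hk1.const_mul _)]
      refine intervalIntegral.integral_congr (fun y _ => ?_)
      simp only [hh]
      ring
    rw [e2, intervalIntegral.integral_const_mul, hK.bd]
    ring
  rw [e1]
  have e3 : ∫ y in (0:ℝ)..(2 * Real.pi), (|K y| + 1) * h (N * (x - y)) =
      (∫ y in (0:ℝ)..(2 * Real.pi), ((|K y| + 1) - q y) * h (N * (x - y))) +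
        ∫ y in (0:ℝ)..(2 * Real.pi), q y * h (N * (x - y)) := by
    have hsubi : IntervalIntegrable (fun y => ((|K y| + 1) - q y) * h (N * (x - y))) volume 0 (2 * Real.pi) := by
      refine (hk1h.sub hqh).congr ?_
      intro y _
      ring
    rw [← intervalIntegral.integral_add hsubi hqh]
    refine intervalIntegral.integral_congr (fun y _ => ?_)
    ring
  rw [e3]
  have e4 : |∫ y in (0:ℝ)..(2 * Real.pi), ((|K y| + 1) - q y) * h (N * (x - y))| ≤ ε / 2 := by
    calc |∫ y in (0:ℝ)..(2 * Real.pi), ((|K y| + 1) - q y) * h (N * (x - y))|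
        ≤ ∫ y in (0:ℝ)..(2 * Real.pi), |((|K y| + 1) - q y) * h (N * (x - y))| :=
          intervalIntegral.abs_integral_le_integral_abs h2.le
      _ ≤ ∫ y in (0:ℝ)..(2 * Real.pi), ‖(|K y| + 1) - q y‖ := by
          refine intervalIntegral.integral_mono_on h2.le ?_ (hk1.sub hqI).norm ?_
          · refine (hk1.sub hqI).norm.mono_fun
              ((((intervalIntegrable_iff.1 (hk1.sub hqI)).aestronglyMeasurable.mul hmh.aestronglyMeasurable).norm)) ?_
            refine Filter.Eventually.of_forall (fun y => ?_)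
            simp only [norm_mul, Real.norm_eq_abs, abs_abs, abs_mul]
            exact mul_le_of_le_one_right (abs_nonneg _) (hb1 _)
          · intro y _
            rw [abs_mul, Real.norm_eq_abs]
            exact mul_le_of_le_one_right (abs_nonneg _) (hb1 _)
      _ = ∫ y in Ioc (0:ℝ) (2 * Real.pi), ‖(|K y| + 1) - q y‖ := intervalIntegral.integral_of_le h2.le
      _ ≤ ε / 2 := hq
  have e5 : 2 * Real.pi * (ε / (2 * (2 * Real.pi))) = ε / 2 := by field_simp
  rw [e5] at hcell
  calc _ ≤ _ := abs_add_le _ _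
    _ ≤ ε / 2 + ε / 2 := add_le_add e4 hcell
    _ = ε := by ring


end Xequi
end MMT
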