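import Pool.Agent.Helper823.MMT.Defs2
open Complex MeasureTheory Filter Topology Set
open scoped ContDiff ENNReal
namespace MMT
namespace Xfconj

theorem Pt_conj (n : ℕ) (E : ℕ → Set ℝ) (B : ℝ → ℝ → ℂ) (t x : ℝ) :
    Pt n E (fun s y => (starRingEnd ℂ) (B (-s) y)) t x = (starRingEnd ℂ) (Pt n E B (-t) x) := by
  unfold Pt
  rw [map_sum]
  apply Finset.sum_congr rfl
  intro j _
  by_cases h : x ∈ E j
  · simp only [Set.indicator_of_mem h, map_mul, neg_zero]
    congr 1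
    rw [← Complex.exp_conj]
    congr 1
    simp only [map_neg, map_mul, Complex.conj_I, Complex.conj_ofReal]
    push_cast
    ring
  · simp only [Set.indicator_of_notMem h, map_zero]

theorem Pulse_conj (K : ℝ → ℝ) (κ V c0 : ℝ) (n : ℕ) (B : ℝ → ℝ → ℂ) (E0 EL : Set ℝ) (E : ℕ → Set ℝ)
    (h : Pulse K κ V c0 n B E0 EL E) : Pulse K κ V c0 n (fun s y => (starRingEnd ℂ) (B (-s) y)) E0 EL E := by
  refine ⟨h.m0, h.mL, h.mE, h.cover, h.d0L, h.d0E, h.dLE, h.dEE, h.per0, h.perL, h.perE, h.potE, h.potL, ?_, ?_, ?_⟩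
  · intro j hj x hx
    simp only [neg_zero, Complex.norm_conj]
    exact h.aE j hj x hx
  · intro x hx
    simp only [neg_zero, Complex.norm_conj]
    exact h.a0 x hx
  · intro x
    simp only [neg_zero, Complex.norm_conj]
    exact h.aL x

theorem Pulse_congr (K : ℝ → ℝ) (κ V c0 : ℝ) (n : ℕ) (B B' : ℝ → ℝ → ℂ) (E0 EL : Set ℝ) (E : ℕ → Set ℝ)
    (h : Pulse K κ V c0 n B E0 EL E) (hB : B 0 = B' 0) : Pulse K κ V c0 n B' E0 EL E := by
  refine ⟨h.m0, h.mL, h.mE, h.cover, h.d0L, h.d0E, h.dLE, h.dEE, h.per0, h.perL, h.perE, h.potE, h.potL, ?_, ?_, ?_⟩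
  · intro j hj x hx
    rw [← hB]; exact h.aE j hj x hx
  · intro x hx
    rw [← hB]; exact h.a0 x hx
  · intro x
    rw [← hB]; exact h.aL x


end Xfconj
end MMT
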