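import Pool.Agent.Helper823.MMT.Defs2
open Complex MeasureTheory Filter Topology Set
open scoped ContDiff ENNReal
namespace MMT
namespace Xflow


/-- truncated cubic nonlinearity -/
noncomputable def cubT (M : ℝ) (z : ℂ) : ℂ := ((min (‖z‖ ^ 2) (M ^ 2) : ℝ) : ℂ) * z

lemma cubT_lip (M : ℝ) (hM : 0 ≤ M) (z w : ℂ) : ‖cubT M z - cubT M w‖ ≤ 3 * M ^ 2 * ‖z - w‖ := by
  wlog h : ‖w‖ ≤ ‖z‖ generalizing z w
  · have := this w z (le_of_not_ge h)
    rw [norm_sub_rev, norm_sub_rev z w]; exact this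
  have e : cubT M z - cubT M w = ((min (‖z‖ ^ 2) (M ^ 2) : ℝ) : ℂ) * (z - w) +
      ((min (‖z‖ ^ 2) (M ^ 2) - min (‖w‖ ^ 2) (M ^ 2) : ℝ) : ℂ) * w := by
    unfold cubT; push_cast; ring
  rw [e]
  refine (norm_add_le _ _).trans ?_
  rw [norm_mul, norm_mul, Complex.norm_real, Complex.norm_real, Real.norm_eq_abs, Real.norm_eq_abs]
  have h1 : |min (‖z‖ ^ 2) (M ^ 2)| ≤ M ^ 2 := by
    rw [abs_of_nonneg (le_min (by positivity) (by positivity))]; exact min_le_right _ _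
  have h2 : |min (‖z‖ ^ 2) (M ^ 2) - min (‖w‖ ^ 2) (M ^ 2)| * ‖w‖ ≤ 2 * M ^ 2 * ‖z - w‖ := by
    have h3 : ‖z‖ - ‖w‖ ≤ ‖z - w‖ := norm_sub_norm_le z w
    have hw0 := norm_nonneg w
    have hd0 := norm_nonneg (z - w)
    rw [abs_of_nonneg (sub_nonneg.2 (min_le_min_right _ (by gcongr)))]
    rcases le_total M ‖w‖ with hw | hw
    · have e1 : min (‖w‖ ^ 2) (M ^ 2) = M ^ 2 := min_eq_right (by gcongr)
      have e2 : min (‖z‖ ^ 2) (M ^ 2) = M ^ 2 := min_eq_right (by have := hw.trans h; gcongr)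
      rw [e1, e2, sub_self, zero_mul]; positivity
    · have e1 : min (‖w‖ ^ 2) (M ^ 2) = ‖w‖ ^ 2 := min_eq_left (by gcongr)
      rcases le_total M ‖z‖ with hz | hz
      · have e2 : min (‖z‖ ^ 2) (M ^ 2) = M ^ 2 := min_eq_right (by gcongr)
        rw [e1, e2]
        have h4 : M - ‖w‖ ≤ ‖z - w‖ := by linarith
        have h5 : (M ^ 2 - ‖w‖ ^ 2) * ‖w‖ = (M - ‖w‖) * ((M + ‖w‖) * ‖w‖) := by ring
        have h6 : (M + ‖w‖) * ‖w‖ ≤ 2 * M ^ 2 := by nlinarith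
        rw [h5]
        calc (M - ‖w‖) * ((M + ‖w‖) * ‖w‖) ≤ ‖z - w‖ * (2 * M ^ 2) := by
              apply mul_le_mul h4 h6 (by positivity) hd0
          _ = _ := by ring
      · have e2 : min (‖z‖ ^ 2) (M ^ 2) = ‖z‖ ^ 2 := min_eq_left (by gcongr)
        rw [e1, e2]
        have h5 : (‖z‖ ^ 2 - ‖w‖ ^ 2) * ‖w‖ = (‖z‖ - ‖w‖) * ((‖z‖ + ‖w‖) * ‖w‖) := by ring
        have h6 : (‖z‖ + ‖w‖) * ‖w‖ ≤ 2 * M ^ 2 := by nlinarith [norm_nonneg z]
        rw [h5]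
        calc (‖z‖ - ‖w‖) * ((‖z‖ + ‖w‖) * ‖w‖) ≤ ‖z - w‖ * (2 * M ^ 2) := by
              apply mul_le_mul h3 h6 (by positivity) hd0
          _ = _ := by ring
  nlinarith [norm_nonneg (z - w), mul_le_mul_of_nonneg_right h1 (norm_nonneg (z - w))]

/-- truncated Nemytskii operator -/
noncomputable def CMT (M : ℝ) (u : C(Cir, ℂ)) : C(Cir, ℂ) :=
  ⟨fun x => cubT M (u x), by
    unfold cubT
    exact (Complex.continuous_ofReal.comp ((u.continuous.norm.pow 2).min continuous_const)).mul u.continuous⟩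

/-- truncated field -/
noncomputable def FMT (a : ℂ) (L : C(Cir, ℂ) →L[ℂ] C(Cir, ℂ)) (M : ℝ) (u : C(Cir, ℂ)) : C(Cir, ℂ) :=
  a • (L u + CMT M u)

lemma CMT_lip (M : ℝ) (hM : 0 ≤ M) (u v : C(Cir, ℂ)) : ‖CMT M u - CMT M v‖ ≤ 3 * M ^ 2 * ‖u - v‖ := by
  rw [ContinuousMap.norm_le _ (by positivity)]
  intro x
  have h1 : (CMT M u - CMT M v) x = cubT M (u x) - cubT M (v x) := rfl
  rw [h1]
  refine (cubT_lip M hM _ _).trans ?_
  have h2 : ‖u x - v x‖ ≤ ‖u - v‖ := (u - v).norm_coe_le_norm x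
  gcongr

lemma FMT_lip (a : ℂ) (L : C(Cir, ℂ) →L[ℂ] C(Cir, ℂ)) (M : ℝ) (hM : 0 ≤ M) :
    ∃ K : NNReal, LipschitzWith K (FMT a L M) := by
  refine ⟨⟨‖a‖ * (‖L‖ + 3 * M ^ 2), by positivity⟩, LipschitzWith.of_dist_le_mul fun u v => ?_⟩
  rw [dist_eq_norm, dist_eq_norm]
  have e : FMT a L M u - FMT a L M v = a • (L (u - v) + (CMT M u - CMT M v)) := by
    unfold FMT
    rw [← smul_sub, map_sub]; congr 1; abel
  rw [e, norm_smul]
  have h1 : ‖L (u - v) + (CMT M u - CMT M v)‖ ≤ (‖L‖ + 3 * M ^ 2) * ‖u - v‖ := by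
    refine (norm_add_le _ _).trans ?_
    rw [add_mul]
    exact add_le_add (L.le_opNorm _) (CMT_lip M hM u v)
  show ‖a‖ * _ ≤ ‖a‖ * (‖L‖ + 3 * M ^ 2) * ‖u - v‖
  calc ‖a‖ * _ ≤ ‖a‖ * ((‖L‖ + 3 * M ^ 2) * ‖u - v‖) := by gcongr
    _ = _ := by ring

lemma aprT (a : ℂ) (ha : ‖a‖ = 1) (har : a.re = 0) (L : C(Cir, ℂ) →L[ℂ] C(Cir, ℂ)) (M : ℝ)
    (u : ℝ → C(Cir, ℂ)) (hu : ∀ t, HasDerivAt u (FMT a L M (u t)) t) (t : ℝ) (ht : 0 ≤ t) :
    ‖u t‖ ≤ Real.exp (‖L‖ * t) * ‖u 0‖ := by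
  have hcu : Continuous u := continuous_iff_continuousAt.2 fun s => (hu s).continuousAt
  have hcN : Continuous fun s => ‖u s‖ ^ 2 := hcu.norm.pow 2
  set G : ℝ → ℝ := fun s => ‖u 0‖ ^ 2 + 2 * ‖L‖ * ∫ r in (0:ℝ)..s, ‖u r‖ ^ 2 with hG
  have hGd : ∀ s, HasDerivAt G (2 * ‖L‖ * ‖u s‖ ^ 2) s := by
    intro s
    have h1 : HasDerivAt (fun s => ∫ r in (0:ℝ)..s, ‖u r‖ ^ 2) (‖u s‖ ^ 2) s :=
      intervalIntegral.integral_hasDerivAt_right (hcN.intervalIntegrable _ _)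
        (hcN.stronglyMeasurableAtFilter _ _) hcN.continuousAt
    exact (h1.const_mul (2 * ‖L‖)).const_add (‖u 0‖ ^ 2)
  have hG0 : G 0 = ‖u 0‖ ^ 2 := by simp [hG]
  have hcG : Continuous G := continuous_iff_continuousAt.2 fun s => (hGd s).continuousAt
  have hpt : ∀ x : Cir, ∀ s, HasDerivAt (fun s => ‖u s x‖ ^ 2)
      (2 * inner ℝ (u s x) (FMT a L M (u s) x)) s := by
    intro x s
    have h1 : HasDerivAt (fun s => u s x) (FMT a L M (u s) x) s :=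
      (((ContinuousMap.evalCLM ℂ x).restrictScalars ℝ : C(Cir, ℂ) →L[ℝ] ℂ).hasFDerivAt.comp_hasDerivAt s (hu s))
    exact h1.norm_sq
  have hin : ∀ x : Cir, ∀ s, 2 * inner ℝ (u s x) (FMT a L M (u s) x) ≤ 2 * ‖L‖ * ‖u s‖ ^ 2 := by
    intro x s
    have e1 : FMT a L M (u s) x = a * (L (u s) x) +
        ((min (‖u s x‖ ^ 2) (M ^ 2) : ℝ) : ℂ) * a * u s x := by
      show a • (L (u s) x + cubT M (u s x)) = _
      unfold cubT; rw [smul_eq_mul]; ring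
    rw [e1, inner_add_right]
    have e2 : inner ℝ (u s x) (((min (‖u s x‖ ^ 2) (M ^ 2) : ℝ) : ℂ) * a * u s x) = 0 := by
      rw [Complex.inner]
      have : (((min (‖u s x‖ ^ 2) (M ^ 2) : ℝ) : ℂ) * a * u s x) * (starRingEnd ℂ) (u s x) =
          ((min (‖u s x‖ ^ 2) (M ^ 2) * Complex.normSq (u s x) : ℝ) : ℂ) * a := by
        push_cast
        rw [Complex.normSq_eq_conj_mul_self]; ring
      rw [this, Complex.re_ofReal_mul, har, mul_zero]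
    rw [e2, add_zero]
    have h3 : inner ℝ (u s x) (a * (L (u s) x)) ≤ ‖u s x‖ * ‖a * (L (u s) x)‖ := real_inner_le_norm _ _
    rw [norm_mul, ha, one_mul] at h3
    have h4 : ‖L (u s) x‖ ≤ ‖L‖ * ‖u s‖ := ((L (u s)).norm_coe_le_norm x).trans (L.le_opNorm _)
    have h5 : ‖u s x‖ ≤ ‖u s‖ := (u s).norm_coe_le_norm x
    have h6 : ‖u s x‖ * ‖L (u s) x‖ ≤ ‖u s‖ * (‖L‖ * ‖u s‖) := by gcongr
    nlinarith
  have hle : ∀ x : Cir, ∀ s, 0 ≤ s → ‖u s x‖ ^ 2 ≤ G s := by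
    intro x s hs
    refine image_le_of_deriv_right_le_deriv_boundary (a := 0) (b := s) (f := fun s => ‖u s x‖ ^ 2)
      (f' := fun s => 2 * inner ℝ (u s x) (FMT a L M (u s) x)) (B := G) (B' := fun s => 2 * ‖L‖ * ‖u s‖ ^ 2)
      ?_ (fun y _ => (hpt x y).hasDerivWithinAt) ?_ hcG.continuousOn
      (fun y _ => (hGd y).hasDerivWithinAt) (fun y _ => hin x y) ⟨hs, le_rfl⟩
    · exact fun y _ => (hpt x y).continuousAt.continuousWithinAt
    · rw [hG0]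
      have := (u 0).norm_coe_le_norm x
      show ‖u 0 x‖ ^ 2 ≤ _
      gcongr
  have hG0' : ∀ s, 0 ≤ s → 0 ≤ G s := fun s hs => (sq_nonneg _).trans (hle 0 s hs)
  have hNG : ∀ s, 0 ≤ s → ‖u s‖ ^ 2 ≤ G s := by
    intro s hs
    have h1 : ‖u s‖ ≤ Real.sqrt (G s) := by
      rw [ContinuousMap.norm_le _ (Real.sqrt_nonneg _)]
      intro x
      exact Real.le_sqrt_of_sq_le (hle x s hs)
    calc ‖u s‖ ^ 2 ≤ Real.sqrt (G s) ^ 2 := by gcongr
      _ = G s := Real.sq_sqrt (hG0' s hs)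
  have hGr : ‖G t‖ ≤ gronwallBound (‖u 0‖ ^ 2) (2 * ‖L‖) 0 (t - 0) := by
    refine norm_le_gronwallBound_of_norm_deriv_right_le (a := 0) (b := t) hcG.continuousOn
      (fun y _ => (hGd y).hasDerivWithinAt) ?_ ?_ t ⟨ht, le_rfl⟩
    · rw [hG0, Real.norm_eq_abs, abs_of_nonneg (by positivity)]
    · intro y hy
      rw [Real.norm_eq_abs, Real.norm_eq_abs, abs_of_nonneg (by positivity), abs_of_nonneg (hG0' y hy.1), add_zero]
      have := hNG y hy.1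
      gcongr
  rw [gronwallBound_ε0, sub_zero, Real.norm_eq_abs, abs_of_nonneg (hG0' t ht)] at hGr
  have hfin : ‖u t‖ ^ 2 ≤ (Real.exp (‖L‖ * t) * ‖u 0‖) ^ 2 := by
    refine (hNG t ht).trans (hGr.trans (le_of_eq ?_))
    rw [mul_pow, ← Real.exp_nat_mul, mul_comm]
    congr 2
    push_cast; ring
  exact (pow_le_pow_iff_left₀ (norm_nonneg _) (by positivity) two_ne_zero).1 hfin

theorem flow_exists (hlip : ∀ (F : C(Cir, ℂ) → C(Cir, ℂ)) (K : NNReal), LipschitzWith K F → ∀ x0 : C(Cir, ℂ),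
      ∃ u : ℝ → C(Cir, ℂ), u 0 = x0 ∧ ∀ t, HasDerivAt u (F (u t)) t)
    (L : C(Cir, ℂ) →L[ℂ] C(Cir, ℂ)) :
    ∃ φ : ℝ → C(Cir, ℂ) → C(Cir, ℂ), (∀ f, φ 0 f = f) ∧
      (∀ f t, HasDerivAt (fun s => φ s f) (Fld L (φ t f)) t) ∧
      (∀ f t, ‖φ t f‖ ≤ Real.exp (‖L‖ * |t|) * ‖f‖) := by
  have hex : ∀ (M : ℝ) (f : C(Cir, ℂ)), 0 ≤ M → ∃ u : ℝ → C(Cir, ℂ), u 0 = f ∧
      (∀ t, HasDerivAt u (FMT (-I) L M (u t)) t) ∧ ∀ t, ‖u t‖ ≤ Real.exp (‖L‖ * |t|) * ‖f‖ := by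
    intro M f hM
    obtain ⟨K, hK⟩ := FMT_lip (-I) L M hM
    obtain ⟨u, hu0, hu⟩ := hlip _ K hK f
    refine ⟨u, hu0, hu, fun t => ?_⟩
    rcases le_total 0 t with ht | ht
    · rw [abs_of_nonneg ht, ← hu0]
      exact aprT (-I) (by simp) (by simp) L M u hu t ht
    · rw [abs_of_nonpos ht, ← hu0]
      have h2 : ∀ s, HasDerivAt (fun s => u (-s)) (FMT I L M (u (-s))) s := by
        intro s
        have h3 := (hu (-s)).scomp s (hasDerivAt_neg s)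
        have e : (-1 : ℝ) • FMT (-I) L M (u (-s)) = FMT I L M (u (-s)) := by
          unfold FMT
          rw [neg_smul, neg_smul, one_smul, neg_neg]
        rw [e] at h3
        exact h3
      have h4 := aprT I (by simp) (by simp) L M (fun s => u (-s)) h2 (-t) (by linarith)
      simpa using h4
  -- truncation inactive
  have hFld : ∀ (M : ℝ) (w : C(Cir, ℂ)), 0 ≤ M → ‖w‖ ≤ M → FMT (-I) L M w = Fld L w := by
    intro M w hM hw
    unfold FMT Fld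
    congr 2
    ext x
    show cubT M (w x) = w x * star (w x) * w x
    unfold cubT
    have h1 : ‖w x‖ ≤ M := (w.norm_coe_le_norm x).trans hw
    rw [min_eq_left (by gcongr)]
    have h2 : ((‖w x‖ ^ 2 : ℝ) : ℂ) = w x * star (w x) := by
      rw [Complex.star_def, Complex.mul_conj, Complex.normSq_eq_norm_sq]
    rw [h2]
  let R : C(Cir, ℂ) → ℝ → ℝ := fun f T => Real.exp (‖L‖ * T) * ‖f‖ + 1
  have hR0 : ∀ f T, 0 ≤ R f T := fun f T => by show 0 ≤ Real.exp (‖L‖ * T) * ‖f‖ + 1; positivity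
  have hRm : ∀ f T t, |t| ≤ T → Real.exp (‖L‖ * |t|) * ‖f‖ ≤ R f T := by
    intro f T t h
    show _ ≤ Real.exp (‖L‖ * T) * ‖f‖ + 1
    have : Real.exp (‖L‖ * |t|) * ‖f‖ ≤ Real.exp (‖L‖ * T) * ‖f‖ := by gcongr
    linarith
  choose! U hU0 hUd hUb using hex
  have huniq : ∀ f T T', 0 < T → T ≤ T' → ∀ t, |t| < T → U (R f T) f t = U (R f T') f t := by
    intro f T T' hT hTT t ht
    obtain ⟨K, hK⟩ := FMT_lip (-I) L (R f T) (hR0 f T)
    have h1 := ODE_solution_unique_of_mem_Ioo (v := fun _ => FMT (-I) L (R f T)) (s := fun _ => univ) (K := K)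
      (f := U (R f T) f) (g := U (R f T') f) (a := -T) (b := T) (t₀ := 0)
      (fun s _ => hK.lipschitzOnWith) ⟨by linarith, by linarith⟩
      (fun s _ => ⟨hUd _ _ (hR0 f T) s, mem_univ _⟩)
      (fun s hs => ⟨by
        have hs' : |s| ≤ T := abs_le.2 ⟨hs.1.le, hs.2.le⟩
        have hb := hUb (R f T') f (hR0 f T') s
        have h2 := hUd (R f T') f (hR0 f T') s
        rw [hFld _ _ (hR0 f T') (hb.trans (hRm f T' s (hs'.trans hTT)))] at h2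
        show HasDerivAt _ (FMT (-I) L (R f T) (U (R f T') f s)) s
        rw [hFld _ _ (hR0 f T) (hb.trans (hRm f T s hs'))]
        exact h2, mem_univ _⟩)
      (by rw [hU0 _ _ (hR0 f T), hU0 _ _ (hR0 f T')])
    exact h1 (abs_lt.1 ht)
  refine ⟨fun t f => U (R f (|t| + 1)) f t, fun f => hU0 _ _ (hR0 _ _), fun f t => ?_, fun f t => hUb _ _ (hR0 _ _) t⟩
  have hev : (fun s => U (R f (|s| + 1)) f s) =ᶠ[𝓝 t] U (R f (|t| + 2)) f := by
    filter_upwards [Metric.ball_mem_nhds t one_pos] with s hs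
    have h1 : |s| ≤ |t| + 1 := by
      have h2 : |s - t| < 1 := by simpa [Real.dist_eq] using hs
      have h3 := abs_sub_abs_le_abs_sub s t
      linarith
    exact huniq f (|s| + 1) (|t| + 2) (by positivity) (by linarith) s (by linarith)
  have h5 := hUd (R f (|t| + 2)) f (hR0 _ _) t
  have hb := hUb (R f (|t| + 2)) f (hR0 _ _) t
  rw [hFld _ _ (hR0 _ _) (hb.trans (hRm f (|t| + 2) t (by linarith)))] at h5
  have e6 : U (R f (|t| + 1)) f t = U (R f (|t| + 2)) f t :=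
    huniq f (|t| + 1) (|t| + 2) (by positivity) (by linarith) t (by linarith)
  show HasDerivAt _ (Fld L (U (R f (|t| + 1)) f t)) t
  rw [e6]
  exact h5.congr_of_eventuallyEq hev


end Xflow
end MMT
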