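import Pool.Agent.Helper823.MMT.Defs2
open Complex MeasureTheory Filter Topology Set
open scoped ContDiff ENNReal
namespace MMT
namespace Xgmap

theorem Fld_contDiff (L : C(Cir, ℂ) →L[ℂ] C(Cir, ℂ)) : ContDiff ℝ ∞ (Fld L) := by
  have h1 : ContDiff ℝ ∞ (fun u : C(Cir, ℂ) => L u) := (L.restrictScalars ℝ).contDiff
  have h2 : ContDiff ℝ ∞ (fun u : C(Cir, ℂ) => star u) :=
    (starL' ℝ : C(Cir, ℂ) ≃L[ℝ] C(Cir, ℂ)).contDiff
  have h3 : ContDiff ℝ ∞ (fun u : C(Cir, ℂ) => u * star u * u) := (contDiff_id.mul h2).mul contDiff_id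
  exact (h1.add h3).const_smul (-I)

theorem G_exists (L : C(Cir, ℂ) →L[ℂ] C(Cir, ℂ)) :
    ∃ G : C(unitInterval, C(Cir, ℂ)) → C(unitInterval, C(Cir, ℂ)), ContDiff ℝ ∞ G ∧
      ∀ U s, G U s = Fld L (U s) := by
  let L' : C(unitInterval, C(Cir, ℂ)) →L[ℝ] C(unitInterval, C(Cir, ℂ)) :=
    ContinuousLinearMap.compLeftContinuous ℝ unitInterval (L.restrictScalars ℝ)
  refine ⟨fun U => (-I) • (L' U + U * star U * U), ?_, ?_⟩
  · have h1 : ContDiff ℝ ∞ (fun U : C(unitInterval, C(Cir, ℂ)) => L' U) := L'.contDiff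
    have h2 : ContDiff ℝ ∞ (fun U : C(unitInterval, C(Cir, ℂ)) => star U) :=
      (starL' ℝ : C(unitInterval, C(Cir, ℂ)) ≃L[ℝ] C(unitInterval, C(Cir, ℂ))).contDiff
    have h3 : ContDiff ℝ ∞ (fun U : C(unitInterval, C(Cir, ℂ)) => U * star U * U) :=
      (contDiff_id.mul h2).mul contDiff_id
    exact (h1.add h3).const_smul (-I)
  · intro U s
    rfl


end Xgmap
end MMT
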