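import Pool.Agent.Helper823.MMT.Defs2
open Complex MeasureTheory Filter Topology Set
open scoped ContDiff ENNReal
namespace MMT
namespace Xgsconv

theorem SG_to_GS_aux (α : ℝ) (K : ℝ → ℝ)
    (hk : ∀ f : ℝ → ℂ, ContDiff ℝ 2 f → Function.Periodic f (2 * Real.pi) → ∀ x : ℝ,
      absD α f x = ∫ y in (0:ℝ)..(2 * Real.pi), (K y : ℂ) * f (x - y)) (v : ℝ → ℝ → ℂ) (hv : SG α v) :
    GS K v := by
  have hcd := hv.1
  refine ⟨hcd.continuous, fun t => ?_, fun t x => ?_⟩
  · refine (hv.2 (|t| + 1) (by positivity)).periodic t ⟨?_, ?_⟩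
    · linarith [neg_abs_le t]
    · linarith [le_abs_self t]
  · have hsol := hv.2 (|t| + 1) (by positivity)
    have h1 := hsol.eqn t ⟨by linarith [neg_abs_le t], by linarith [le_abs_self t]⟩ x
    have hper := hsol.periodic t ⟨by linarith [neg_abs_le t], by linarith [le_abs_self t]⟩
    have hsl : ContDiff ℝ 2 (v t) := by
      have h2 : ContDiff ℝ ∞ (fun y : ℝ => v t y) :=
        hcd.comp (contDiff_const.prodMk contDiff_id)
      exact_mod_cast contDiff_infty.mp h2 2
    rw [hk (v t) hsl hper x] at h1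
    have hd : DifferentiableAt ℝ (fun s => v s x) t := by
      have h2 : ContDiff ℝ ∞ (fun s : ℝ => v s x) :=
        hcd.comp (contDiff_id.prodMk contDiff_const)
      exact (h2.differentiable (by simp)).differentiableAt
    have h3 := hd.hasDerivAt
    have h4 : deriv (fun s => v s x) t =
        -I * (((‖v t x‖ ^ 2 : ℝ) : ℂ) * v t x + ∫ y in (0:ℝ)..(2 * Real.pi),
          (K y : ℂ) * v t (x - y)) := by
      have h5 : deriv (fun s => v s x) t = -I * (I * deriv (fun s => v s x) t) := by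
        rw [← mul_assoc, neg_mul, Complex.I_mul_I]
        ring
      rw [h5, h1]
      ring
    rw [h4] at h3
    exact h3

theorem SG_to_GS (α : ℝ) (K : ℝ → ℝ)
    (hk : ∀ f : ℝ → ℂ, ContDiff ℝ 2 f → Function.Periodic f (2 * Real.pi) → ∀ x : ℝ,
      absD α f x = ∫ y in (0:ℝ)..(2 * Real.pi), (K y : ℂ) * f (x - y)) (v : ℝ → ℝ → ℂ) (hv : SG α v) :
    GS K v ∧ GS K (fun t x => (starRingEnd ℂ) (v (-t) x)) := by
  have hG := SG_to_GS_aux α K hk v hv
  refine ⟨hG, ?_, fun t x => ?_, fun t x => ?_⟩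
  · have h1 : Continuous (fun p : ℝ × ℝ => (-p.1, p.2)) := by fun_prop
    exact Complex.continuous_conj.comp (hG.cont.comp h1)
  · change (starRingEnd ℂ) (v (-t) (x + 2 * Real.pi)) = (starRingEnd ℂ) (v (-t) x)
    rw [hG.per (-t) x]
  · have h1 := hG.der (-t) x
    have h2 : HasDerivAt (fun s : ℝ => v (-s) x) (-1 * (-I * (((‖v (-t) x‖ ^ 2 : ℝ) : ℂ) * v (-t) x +
        ∫ y in (0:ℝ)..(2 * Real.pi), (K y : ℂ) * v (-t) (x - y)))) t := by
      have h3 := HasDerivAt.scomp (g₁ := fun s => v s x) t h1 (hasDerivAt_neg t)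
      have h4 : ((fun s => v s x) ∘ fun s : ℝ => -s) = fun s => v (-s) x := rfl
      rw [← h4]
      refine h3.congr_deriv ?_
      simp
    have h5 : HasDerivAt (fun s : ℝ => (starRingEnd ℂ) (v (-s) x)) ((starRingEnd ℂ)
        (-1 * (-I * (((‖v (-t) x‖ ^ 2 : ℝ) : ℂ) * v (-t) x +
        ∫ y in (0:ℝ)..(2 * Real.pi), (K y : ℂ) * v (-t) (x - y))))) t :=
      ((Complex.conjCLE : ℂ ≃L[ℝ] ℂ) : ℂ →L[ℝ] ℂ).hasFDerivAt.comp_hasDerivAt t h2
    refine h5.congr_deriv ?_
    have h6 : (starRingEnd ℂ) (∫ y in (0:ℝ)..(2 * Real.pi), (K y : ℂ) * v (-t) (x - y)) =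
        ∫ y in (0:ℝ)..(2 * Real.pi), (K y : ℂ) * (starRingEnd ℂ) (v (-t) (x - y)) := by
      rw [intervalIntegral.integral_of_le (by positivity),
        intervalIntegral.integral_of_le (by positivity), ← integral_conj]
      refine integral_congr_ae (Eventually.of_forall fun y => ?_)
      simp
    rw [← h6]
    simp only [map_mul, map_neg, map_add, map_one, Complex.conj_I, Complex.conj_ofReal,
      RCLike.norm_conj]
    ring


end Xgsconv
end MMT
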