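import Pool.Agent.Helper823.MMT.Defs2
open Complex MeasureTheory Filter Topology Set
open scoped ContDiff ENNReal
namespace MMT
namespace Xhd0

theorem hd0_le_fc (f : ℝ → ℂ) (k : ℤ) :
    fourierCoeffOn (Real.two_pi_pos) f k = fc f k := by
  rw [fourierCoeffOn_eq_integral]
  unfold fc
  have h1 : ∀ x : ℝ, fourier (-k) (x : AddCircle (2 * Real.pi - 0)) • f x =
      cexp (-(I * (k:ℂ) * (x:ℂ))) * f x := by
    intro x
    rw [fourier_coe_apply, smul_eq_mul]
    congr 2
    have hpi : (Real.pi : ℂ) ≠ 0 := by exact_mod_cast Real.pi_ne_zero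
    push_cast
    rw [sub_zero]
    field_simp
  simp only [h1]
  rw [Complex.real_smul]
  push_cast
  rw [sub_zero]

theorem hd0_le_int (f : ℝ → ℂ) (hf : Continuous f) (k : ℤ) : IntervalIntegrable
    (fun x : ℝ => cexp (-(I * (k:ℂ) * (x:ℂ))) * f x) volume 0 (2 * Real.pi) := by
  apply Continuous.intervalIntegrable
  fun_prop

theorem hd0_le_sub (f g : ℝ → ℂ) (hf : Continuous f) (hg : Continuous g) (k : ℤ) :
    fc f k - fc g k = fc (fun x => f x - g x) k := by
  unfold fc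
  rw [← mul_sub, ← intervalIntegral.integral_sub (hd0_le_int f hf k) (hd0_le_int g hg k)]
  congr 1
  refine intervalIntegral.integral_congr fun x _ => ?_
  simp only
  ring

theorem hd0_le (f g : ℝ → ℂ) (hf : Continuous f) (hg : Continuous g) :
    hd 0 (fc f) (fc g) ≤ ENNReal.ofReal (∫ x in (0:ℝ)..(2 * Real.pi), ‖f x - g x‖ ^ 2) := by
  have hc : Continuous (fun x => f x - g x) := hf.sub hg
  have hL2 : MemLp (fun x => f x - g x) 2 (volume.restrict (Ioc 0 (2 * Real.pi))) := by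
    have h1 : MemLp (fun x => f x - g x) 2 (volume.restrict (Icc 0 (2 * Real.pi))) := by
      obtain ⟨C, hC⟩ := (isCompact_Icc (a := (0 : ℝ)) (b := 2 * Real.pi)).exists_bound_of_continuousOn
        hc.continuousOn
      refine MemLp.of_bound hc.aestronglyMeasurable C ?_
      exact (ae_restrict_iff' measurableSet_Icc).2 (Filter.Eventually.of_forall hC)
    exact h1.mono_measure (Measure.restrict_mono Ioc_subset_Icc_self le_rfl)
  have hs := hasSum_sq_fourierCoeffOn Real.two_pi_pos hL2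
  have hs' : HasSum (fun k : ℤ => ‖fc f k - fc g k‖ ^ 2)
      ((2 * Real.pi - 0)⁻¹ • ∫ x in (0:ℝ)..(2 * Real.pi), ‖f x - g x‖ ^ 2) := by
    refine hs.congr_fun fun k => ?_
    rw [hd0_le_fc, hd0_le_sub f g hf hg]
  have h2 : hd 0 (fc f) (fc g) = ENNReal.ofReal (∑' k : ℤ, ‖fc f k - fc g k‖ ^ 2) := by
    unfold hd
    rw [ENNReal.ofReal_tsum_of_nonneg (fun k => by positivity) hs'.summable]
    refine tsum_congr fun k => ?_
    rw [Real.rpow_zero, one_mul]
  rw [h2, hs'.tsum_eq]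
  apply ENNReal.ofReal_le_ofReal
  rw [sub_zero, smul_eq_mul]
  have h3 : 0 ≤ ∫ x in (0:ℝ)..(2 * Real.pi), ‖f x - g x‖ ^ 2 :=
    intervalIntegral.integral_nonneg Real.two_pi_pos.le fun x _ => by positivity
  have h4 : (2 * Real.pi)⁻¹ ≤ 1 := by
    apply inv_le_one_of_one_le₀
    have := Real.pi_gt_three
    linarith
  calc (2 * Real.pi)⁻¹ * ∫ x in (0:ℝ)..(2 * Real.pi), ‖f x - g x‖ ^ 2
      ≤ 1 * ∫ x in (0:ℝ)..(2 * Real.pi), ‖f x - g x‖ ^ 2 := mul_le_mul_of_nonneg_right h4 h3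
    _ = _ := one_mul _


end Xhd0
end MMT
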