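import Pool.Agent.Helper823.MMT.Defs2
open Complex MeasureTheory Filter Topology Set
open scoped ContDiff ENNReal
namespace MMT
namespace Xhdpot

theorem hd_le_pot_parseval (h : ℝ → ℂ) (hm : Measurable h) (C : ℝ) (hC : ∀ x, ‖h x‖ ≤ C) :
    HasSum (fun k : ℤ => ‖fc h k‖ ^ 2)
      ((2 * Real.pi)⁻¹ * ∫ x in (0:ℝ)..(2 * Real.pi), ‖h x‖ ^ 2) := by
  have h2 : (0:ℝ) < 2 * Real.pi := Real.two_pi_pos
  have hL : MemLp h 2 (volume.restrict (Ioc 0 (2 * Real.pi))) :=
    MemLp.of_bound hm.aestronglyMeasurable C (Eventually.of_forall hC)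
  have h1 := hasSum_sq_fourierCoeffOn h2 hL
  have h3 : ∀ k : ℤ, fourierCoeffOn h2 h k = fc h k := by
    intro k
    rw [fourierCoeffOn_eq_integral]
    unfold fc
    rw [Complex.real_smul]
    congr 1
    · push_cast
      ring
    · apply intervalIntegral.integral_congr
      intro x _
      simp only [fourier_coe_apply, smul_eq_mul]
      congr 2
      push_cast
      have hpi : (Real.pi : ℂ) ≠ 0 := by exact_mod_cast Real.pi_ne_zero
      field_simp
      ring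
  simp only [h3, sub_zero, smul_eq_mul] at h1
  exact h1

/-- convolution -/
noncomputable def hd_le_pot_cv (K : ℝ → ℝ) (f : ℝ → ℂ) (x : ℝ) : ℂ :=
  ∫ y in (0:ℝ)..(2 * Real.pi), (K y : ℂ) * f (x - y)

theorem hd_le_pot_meas (K : ℝ → ℝ) (hK : Measurable K) (f : ℝ → ℂ) (hf : Measurable f) :
    Measurable (hd_le_pot_cv K f) := by
  have h2 : (0:ℝ) ≤ 2 * Real.pi := Real.two_pi_pos.le
  unfold hd_le_pot_cv
  simp_rw [intervalIntegral.integral_of_le h2]
  have h3 : Measurable (Function.uncurry fun x y : ℝ => (K y : ℂ) * f (x - y)) :=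
    (Complex.measurable_ofReal.comp (hK.comp measurable_snd)).mul
      (hf.comp (measurable_fst.sub measurable_snd))
  exact (h3.stronglyMeasurable.integral_prod_right).measurable

theorem hd_le_pot_int (K : ℝ → ℝ) (κ : ℝ) (hK : Ker K κ) (f : ℝ → ℂ) (hf : Measurable f) (C : ℝ)
    (hC : ∀ x, ‖f x‖ ≤ C) (x : ℝ) :
    IntervalIntegrable (fun y => (|K y| + 1) * ‖f (x - y)‖) volume 0 (2 * Real.pi) := by
  have h2 : (0:ℝ) ≤ 2 * Real.pi := Real.two_pi_pos.le
  have hi : IntervalIntegrable (fun y => |K y| + 1) volume 0 (2 * Real.pi) :=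
    hK.int.abs.add intervalIntegrable_const
  rw [intervalIntegrable_iff_integrableOn_Ioc_of_le h2] at hi ⊢
  refine Integrable.mono' (hi.mul_const C) ?_ (Eventually.of_forall fun y => ?_)
  · have hm : Measurable (fun y => (|K y| + 1) * ‖f (x - y)‖) :=
      ((hK.meas.abs).add_const 1).mul ((hf.comp (measurable_const.sub measurable_id)).norm)
    exact hm.aestronglyMeasurable
  · have h0 : 0 ≤ |K y| + 1 := by positivity
    rw [norm_mul, Real.norm_of_nonneg h0, norm_norm]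
    exact mul_le_mul_of_nonneg_left (hC _) h0

theorem hd_le_pot_bd (K : ℝ → ℝ) (κ : ℝ) (hK : Ker K κ) (f : ℝ → ℂ) (hf : Measurable f) (C : ℝ)
    (hC : ∀ x, ‖f x‖ ≤ C) (P : ℝ)
    (hP : ∀ x, ∫ y in (0:ℝ)..(2 * Real.pi), (|K y| + 1) * ‖f (x - y)‖ ≤ P) (x : ℝ) :
    ‖hd_le_pot_cv K f x‖ ≤ P := by
  have h2 : (0:ℝ) ≤ 2 * Real.pi := Real.two_pi_pos.le
  refine le_trans ?_ (hP x)
  unfold hd_le_pot_cv
  apply intervalIntegral.norm_integral_le_of_norm_le h2
  · refine Eventually.of_forall fun y _ => ?_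
    rw [norm_mul, Complex.norm_real, Real.norm_eq_abs]
    apply mul_le_mul_of_nonneg_right _ (norm_nonneg _)
    linarith
  · exact hd_le_pot_int K κ hK f hf C hC x

theorem hd_le_pot_l1 (K : ℝ → ℝ) (κ : ℝ) (hK : Ker K κ) (f : ℝ → ℂ) (hf : Measurable f) (C : ℝ)
    (hC : ∀ x, ‖f x‖ ≤ C) (hper : Function.Periodic f (2 * Real.pi)) (P : ℝ)
    (hP : ∀ x, ∫ y in (0:ℝ)..(2 * Real.pi), (|K y| + 1) * ‖f (x - y)‖ ≤ P) :
    ∫ y in (0:ℝ)..(2 * Real.pi), ‖f y‖ ≤ P := by
  have h2 : (0:ℝ) ≤ 2 * Real.pi := Real.two_pi_pos.le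
  refine le_trans ?_ (hP 0)
  have h3 : ∫ y in (0:ℝ)..(2 * Real.pi), ‖f y‖ = ∫ y in (0:ℝ)..(2 * Real.pi), ‖f (0 - y)‖ := by
    rw [intervalIntegral.integral_comp_sub_left (fun u => ‖f u‖) 0]
    have hp : Function.Periodic (fun u => ‖f u‖) (2 * Real.pi) := by
      intro u
      simp only [hper u]
    have h4 := hp.intervalIntegral_add_eq 0 (0 - 2 * Real.pi)
    rw [zero_add] at h4
    rw [h4]
    congr 1
    ring
  rw [h3]
  apply intervalIntegral.integral_mono_on h2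
  · rw [intervalIntegrable_iff_integrableOn_Ioc_of_le h2]
    refine Integrable.mono' (integrable_const C) ?_ (Eventually.of_forall fun y => ?_)
    · exact ((hf.comp (measurable_const.sub measurable_id)).norm).aestronglyMeasurable
    · rw [norm_norm]
      exact hC _
  · exact hd_le_pot_int K κ hK f hf C hC 0
  · intro y _
    have h0 : 0 ≤ |K y| := abs_nonneg _
    nlinarith [norm_nonneg (f (0 - y))]

theorem hd_le_pot_conv (α : ℝ) (K : ℝ → ℝ) (κ : ℝ) (hK : Ker K κ)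
    (hK4 : ∀ k : ℤ, ∫ y in (0:ℝ)..(2 * Real.pi), cexp (-(I * (k:ℂ) * (y:ℂ))) * (K y : ℂ) = (sym α k : ℂ))
    (f : ℝ → ℂ) (hf : Measurable f) (C : ℝ) (hC : ∀ x, ‖f x‖ ≤ C)
    (hper : Function.Periodic f (2 * Real.pi)) (k : ℤ) :
    fc (hd_le_pot_cv K f) k = (sym α k : ℂ) * fc f k := by
  have h2 : (0:ℝ) ≤ 2 * Real.pi := Real.two_pi_pos.le
  have hnorm : ∀ x : ℝ, ‖cexp (-(I * (k:ℂ) * (x:ℂ)))‖ = 1 := by
    intro x
    have : -(I * (k:ℂ) * (x:ℂ)) = ((-(k * x) : ℝ) : ℂ) * I := by push_cast; ring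
    rw [this, Complex.norm_exp_ofReal_mul_I]
  have hmeas_e : Measurable (fun x : ℝ => cexp (-(I * (k:ℂ) * (x:ℂ)))) := by
    have : Continuous (fun x : ℝ => cexp (-(I * (k:ℂ) * (x:ℂ)))) := by fun_prop
    exact this.measurable
  have hC0 : 0 ≤ C := (norm_nonneg _).trans (hC 0)
  have hswap : ∫ x in (0:ℝ)..(2 * Real.pi), ∫ y in (0:ℝ)..(2 * Real.pi),
      cexp (-(I * (k:ℂ) * (x:ℂ))) * ((K y : ℂ) * f (x - y)) =
      ∫ y in (0:ℝ)..(2 * Real.pi), ∫ x in (0:ℝ)..(2 * Real.pi),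
      cexp (-(I * (k:ℂ) * (x:ℂ))) * ((K y : ℂ) * f (x - y)) := by
    simp_rw [intervalIntegral.integral_of_le h2]
    apply integral_integral_swap
    have hi := hK.int.abs
    rw [intervalIntegrable_iff_integrableOn_Ioc_of_le h2] at hi
    have h5 : Integrable (fun p : ℝ × ℝ => C * |K p.2|)
        ((volume.restrict (Ioc 0 (2 * Real.pi))).prod (volume.restrict (Ioc 0 (2 * Real.pi)))) :=
      Integrable.mul_prod (f := fun _ : ℝ => C) (g := fun y : ℝ => |K y|) (integrable_const C) hi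
    refine Integrable.mono' h5 ?_ (Eventually.of_forall fun p => ?_)
    · have hm : Measurable (Function.uncurry fun x y : ℝ =>
          cexp (-(I * (k:ℂ) * (x:ℂ))) * ((K y : ℂ) * f (x - y))) :=
        (hmeas_e.comp measurable_fst).mul
          ((Complex.measurable_ofReal.comp (hK.meas.comp measurable_snd)).mul
            (hf.comp (measurable_fst.sub measurable_snd)))
      exact hm.aestronglyMeasurable
    · change ‖cexp (-(I * (k:ℂ) * (p.1:ℂ))) * ((K p.2 : ℂ) * f (p.1 - p.2))‖ ≤ C * |K p.2|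
      rw [norm_mul, norm_mul, hnorm, one_mul, Complex.norm_real, Real.norm_eq_abs, mul_comm]
      exact mul_le_mul_of_nonneg_right (hC _) (abs_nonneg _)
  have hinner : ∀ y : ℝ, ∫ x in (0:ℝ)..(2 * Real.pi),
      cexp (-(I * (k:ℂ) * (x:ℂ))) * ((K y : ℂ) * f (x - y)) =
      (cexp (-(I * (k:ℂ) * (y:ℂ))) * (K y : ℂ)) *
        ∫ x in (0:ℝ)..(2 * Real.pi), cexp (-(I * (k:ℂ) * (x:ℂ))) * f x := by
    intro y
    have h6 : ∀ x : ℝ, cexp (-(I * (k:ℂ) * (x:ℂ))) * ((K y : ℂ) * f (x - y)) =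
        (cexp (-(I * (k:ℂ) * (y:ℂ))) * (K y : ℂ)) *
          (cexp (-(I * (k:ℂ) * ((x - y : ℝ):ℂ))) * f (x - y)) := by
      intro x
      have h7 : cexp (-(I * (k:ℂ) * (x:ℂ))) =
          cexp (-(I * (k:ℂ) * (y:ℂ))) * cexp (-(I * (k:ℂ) * ((x - y : ℝ):ℂ))) := by
        rw [← Complex.exp_add]
        congr 1
        push_cast
        ring
      rw [h7]
      ring
    simp_rw [h6]
    rw [intervalIntegral.integral_const_mul]
    congr 1
    rw [intervalIntegral.integral_comp_sub_right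
      (fun u : ℝ => cexp (-(I * (k:ℂ) * (u:ℂ))) * f u) y]
    have hp : Function.Periodic (fun u : ℝ => cexp (-(I * (k:ℂ) * (u:ℂ))) * f u)
        (2 * Real.pi) := by
      intro u
      simp only [hper u]
      congr 1
      have h8 : -(I * (k:ℂ) * ((u + 2 * Real.pi : ℝ):ℂ)) =
          -(I * (k:ℂ) * (u:ℂ)) - (k : ℂ) * (2 * Real.pi * I) := by
        push_cast
        ring
      rw [h8, Complex.exp_sub, Complex.exp_int_mul_two_pi_mul_I, div_one]
    have h4 := hp.intervalIntegral_add_eq (0 - y) 0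
    rw [zero_add] at h4
    rw [← h4]
    congr 1
    ring
  unfold fc
  have h9 : ∀ x : ℝ, cexp (-(I * (k:ℂ) * (x:ℂ))) * hd_le_pot_cv K f x =
      ∫ y in (0:ℝ)..(2 * Real.pi), cexp (-(I * (k:ℂ) * (x:ℂ))) * ((K y : ℂ) * f (x - y)) := by
    intro x
    rw [intervalIntegral.integral_const_mul]
    rfl
  simp_rw [h9]
  rw [hswap]
  simp_rw [hinner]
  rw [intervalIntegral.integral_mul_const, hK4 k]
  ring

theorem hd_le_pot_sum (α : ℝ) (K : ℝ → ℝ) (κ : ℝ) (hK : Ker K κ)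
    (hK4 : ∀ k : ℤ, ∫ y in (0:ℝ)..(2 * Real.pi), cexp (-(I * (k:ℂ) * (y:ℂ))) * (K y : ℂ) = (sym α k : ℂ))
    (f : ℝ → ℂ) (hf : Measurable f) (C : ℝ) (hC : ∀ x, ‖f x‖ ≤ C)
    (hper : Function.Periodic f (2 * Real.pi)) (P : ℝ)
    (hP : ∀ x, ∫ y in (0:ℝ)..(2 * Real.pi), (|K y| + 1) * ‖f (x - y)‖ ≤ P) (s : Finset ℤ) :
    ∑ k ∈ s, sym α k * ‖fc f k‖ ^ 2 ≤ (2 * Real.pi)⁻¹ * P ^ 2 := by
  have h2 : (0:ℝ) ≤ 2 * Real.pi := Real.two_pi_pos.le
  set g := hd_le_pot_cv K f with hg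
  have hgm : Measurable g := hd_le_pot_meas K hK.meas f hf
  have hgP : ∀ x, ‖g x‖ ≤ P := hd_le_pot_bd K κ hK f hf C hC P hP
  have hP0 : 0 ≤ P := (norm_nonneg _).trans (hgP 0)
  have hsym0 : ∀ k, 0 ≤ sym α k := by
    intro k
    unfold sym
    split_ifs
    · exact le_rfl
    · positivity
  have i1 := hd_le_pot_parseval f hf C hC
  have i2 := hd_le_pot_parseval g hgm P hgP
  have i3 := hd_le_pot_parseval (fun x => f x + g x) (hf.add hgm) (C + P)
    (fun x => (norm_add_le _ _).trans (add_le_add (hC x) (hgP x)))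
  have hfi : ∀ k : ℤ, IntervalIntegrable (fun x : ℝ => cexp (-(I * (k:ℂ) * (x:ℂ))) * f x) volume 0
      (2 * Real.pi) := by
    intro k
    rw [intervalIntegrable_iff_integrableOn_Ioc_of_le h2]
    refine Integrable.mono' (integrable_const C) ?_ (Eventually.of_forall fun x => ?_)
    · have : Continuous (fun x : ℝ => cexp (-(I * (k:ℂ) * (x:ℂ)))) := by fun_prop
      exact (this.measurable.mul hf).aestronglyMeasurable
    · have : -(I * (k:ℂ) * (x:ℂ)) = ((-(k * x) : ℝ) : ℂ) * I := by push_cast; ring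
      rw [norm_mul, this, Complex.norm_exp_ofReal_mul_I, one_mul]
      exact hC x
  have hgi : ∀ k : ℤ, IntervalIntegrable (fun x : ℝ => cexp (-(I * (k:ℂ) * (x:ℂ))) * g x) volume 0
      (2 * Real.pi) := by
    intro k
    rw [intervalIntegrable_iff_integrableOn_Ioc_of_le h2]
    refine Integrable.mono' (integrable_const P) ?_ (Eventually.of_forall fun x => ?_)
    · have : Continuous (fun x : ℝ => cexp (-(I * (k:ℂ) * (x:ℂ)))) := by fun_prop
      exact (this.measurable.mul hgm).aestronglyMeasurable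
    · have : -(I * (k:ℂ) * (x:ℂ)) = ((-(k * x) : ℝ) : ℂ) * I := by push_cast; ring
      rw [norm_mul, this, Complex.norm_exp_ofReal_mul_I, one_mul]
      exact hgP x
  have hadd : ∀ k, fc (fun x => f x + g x) k = (1 + (sym α k : ℂ)) * fc f k := by
    intro k
    have h3 : fc (fun x => f x + g x) k = fc f k + fc g k := by
      unfold fc
      simp_rw [mul_add]
      rw [intervalIntegral.integral_add (hfi k) (hgi k), mul_add]
    rw [h3, hg, hd_le_pot_conv α K κ hK hK4 f hf C hC hper k]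
    ring
  have hgk : ∀ k, fc g k = (sym α k : ℂ) * fc f k := fun k =>
    hd_le_pot_conv α K κ hK hK4 f hf C hC hper k
  have i4 := (i3.sub i1).sub i2
  have hterm : ∀ k : ℤ, ‖fc (fun x => f x + g x) k‖ ^ 2 - ‖fc f k‖ ^ 2 - ‖fc g k‖ ^ 2 =
      2 * (sym α k * ‖fc f k‖ ^ 2) := by
    intro k
    rw [hadd, hgk, norm_mul, norm_mul]
    have e1 : ‖(1 + (sym α k : ℂ))‖ = 1 + sym α k := by
      have : (1 + (sym α k : ℂ)) = ((1 + sym α k : ℝ) : ℂ) := by push_cast; ring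
      rw [this, Complex.norm_real, Real.norm_of_nonneg (by linarith [hsym0 k])]
    rw [e1, Complex.norm_real, Real.norm_of_nonneg (hsym0 k)]
    ring
  simp_rw [hterm] at i4
  have hle := sum_le_hasSum s (fun k _ => by
    have := hsym0 k
    positivity) i4
  rw [← Finset.mul_sum] at hle
  have hI1 : IntervalIntegrable (fun x => ‖f x‖ ^ 2) volume 0 (2 * Real.pi) := by
    rw [intervalIntegrable_iff_integrableOn_Ioc_of_le h2]
    refine Integrable.mono' (integrable_const (C ^ 2)) ?_ (Eventually.of_forall fun x => ?_)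
    · exact (hf.norm.pow_const 2).aestronglyMeasurable
    · rw [Real.norm_of_nonneg (by positivity)]
      exact pow_le_pow_left₀ (norm_nonneg _) (hC x) 2
  have hI2 : IntervalIntegrable (fun x => ‖g x‖ ^ 2) volume 0 (2 * Real.pi) := by
    rw [intervalIntegrable_iff_integrableOn_Ioc_of_le h2]
    refine Integrable.mono' (integrable_const (P ^ 2)) ?_ (Eventually.of_forall fun x => ?_)
    · exact (hgm.norm.pow_const 2).aestronglyMeasurable
    · rw [Real.norm_of_nonneg (by positivity)]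
      exact pow_le_pow_left₀ (norm_nonneg _) (hgP x) 2
  have hI3 : IntervalIntegrable (fun x => ‖f x + g x‖ ^ 2) volume 0 (2 * Real.pi) := by
    rw [intervalIntegrable_iff_integrableOn_Ioc_of_le h2]
    refine Integrable.mono' (integrable_const ((C + P) ^ 2)) ?_ (Eventually.of_forall fun x => ?_)
    · exact ((hf.add hgm).norm.pow_const 2).aestronglyMeasurable
    · rw [Real.norm_of_nonneg (by positivity)]
      exact pow_le_pow_left₀ (norm_nonneg _)
        ((norm_add_le _ _).trans (add_le_add (hC x) (hgP x))) 2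
  have hI4 : IntervalIntegrable (fun x => 2 * P * ‖f x‖) volume 0 (2 * Real.pi) := by
    rw [intervalIntegrable_iff_integrableOn_Ioc_of_le h2]
    refine Integrable.mono' (integrable_const (2 * P * C)) ?_ (Eventually.of_forall fun x => ?_)
    · exact (hf.norm.const_mul (2 * P)).aestronglyMeasurable
    · rw [Real.norm_of_nonneg (by positivity)]
      exact mul_le_mul_of_nonneg_left (hC x) (by positivity)
  have hval : (2 * Real.pi)⁻¹ * (∫ x in (0:ℝ)..(2 * Real.pi), ‖f x + g x‖ ^ 2) -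
      (2 * Real.pi)⁻¹ * (∫ x in (0:ℝ)..(2 * Real.pi), ‖f x‖ ^ 2) -
      (2 * Real.pi)⁻¹ * (∫ x in (0:ℝ)..(2 * Real.pi), ‖g x‖ ^ 2) ≤
      (2 * Real.pi)⁻¹ * (2 * P * P) := by
    rw [← mul_sub, ← mul_sub, ← intervalIntegral.integral_sub hI3 hI1,
      ← intervalIntegral.integral_sub (hI3.sub hI1) hI2]
    apply mul_le_mul_of_nonneg_left _ (by positivity)
    calc ∫ x in (0:ℝ)..(2 * Real.pi), (‖f x + g x‖ ^ 2 - ‖f x‖ ^ 2 - ‖g x‖ ^ 2)
        ≤ ∫ x in (0:ℝ)..(2 * Real.pi), 2 * P * ‖f x‖ := by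
          apply intervalIntegral.integral_mono_on h2 ((hI3.sub hI1).sub hI2) hI4
          intro x _
          have e1 := norm_add_le (f x) (g x)
          have e2 := hgP x
          have e3 : ‖f x + g x‖ ^ 2 ≤ (‖f x‖ + ‖g x‖) ^ 2 :=
            pow_le_pow_left₀ (norm_nonneg _) e1 2
          have e4 : ‖f x‖ * ‖g x‖ ≤ ‖f x‖ * P := mul_le_mul_of_nonneg_left e2 (norm_nonneg _)
          nlinarith
      _ = 2 * P * ∫ x in (0:ℝ)..(2 * Real.pi), ‖f x‖ := intervalIntegral.integral_const_mul _ _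
      _ ≤ 2 * P * P := by
          apply mul_le_mul_of_nonneg_left _ (by positivity)
          exact hd_le_pot_l1 K κ hK f hf C hC hper P hP
  have hfin := hle.trans hval
  have : (2 * Real.pi)⁻¹ * (2 * P * P) = 2 * ((2 * Real.pi)⁻¹ * P ^ 2) := by ring
  rw [this] at hfin
  linarith

theorem hd_le_pot (α : ℝ) (hα : α < 0) (K : ℝ → ℝ) (κ : ℝ) (hK : Ker K κ)
    (hK4 : ∀ k : ℤ, ∫ y in (0:ℝ)..(2 * Real.pi), cexp (-(I * (k:ℂ) * (y:ℂ))) * (K y : ℂ) = (sym α k : ℂ))
    (f : ℝ → ℂ) (hf : Reg f) (P : ℝ)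
    (hP : ∀ x, ∫ y in (0:ℝ)..(2 * Real.pi), (|K y| + 1) * ‖f (x - y)‖ ≤ P) :
    hd α (fc f) 0 ≤ ENNReal.ofReal (P ^ 2) := by
  obtain ⟨hfm, hper, C, hC⟩ := hf
  have h2 : (0:ℝ) ≤ 2 * Real.pi := Real.two_pi_pos.le
  have hP0 : 0 ≤ P := (norm_nonneg _).trans (hd_le_pot_bd K κ hK f hfm C hC P hP 0)
  have h0 : ‖fc f 0‖ ^ 2 ≤ (2 * Real.pi)⁻¹ ^ 2 * P ^ 2 := by
    rw [← mul_pow]
    apply pow_le_pow_left₀ (norm_nonneg _)
    unfold fc
    rw [norm_mul]
    have e1 : ‖(1 / (2 * Real.pi) : ℂ)‖ = (2 * Real.pi)⁻¹ := by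
      have : (1 / (2 * Real.pi) : ℂ) = ((1 / (2 * Real.pi) : ℝ) : ℂ) := by push_cast; ring
      rw [this, Complex.norm_real, Real.norm_of_nonneg (by positivity), one_div]
    rw [e1]
    apply mul_le_mul_of_nonneg_left _ (by positivity)
    refine (intervalIntegral.norm_integral_le_integral_norm h2).trans ?_
    refine le_trans (le_of_eq ?_) (hd_le_pot_l1 K κ hK f hfm C hC hper P hP)
    apply intervalIntegral.integral_congr
    intro x _
    simp
  unfold hd
  rw [ENNReal.tsum_eq_iSup_sum]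
  apply iSup_le
  intro s
  rw [← ENNReal.ofReal_sum_of_nonneg (fun k _ => by positivity)]
  apply ENNReal.ofReal_le_ofReal
  have hsum := hd_le_pot_sum α K κ hK hK4 f hfm C hC hper P hP s
  have hterm : ∀ k ∈ s, (1 + |(k:ℝ)|) ^ α * ‖fc f k - (0 : ℤ → ℂ) k‖ ^ 2 ≤
      (if k = 0 then ‖fc f 0‖ ^ 2 else 0) + sym α k * ‖fc f k‖ ^ 2 := by
    intro k _
    rw [Pi.zero_apply, sub_zero]
    by_cases hk : k = 0
    · subst hk
      simp [sym]
    · rw [if_neg hk, zero_add]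
      unfold sym
      rw [if_neg hk]
      apply mul_le_mul_of_nonneg_right _ (by positivity)
      have hk0 : 0 < |(k:ℝ)| := by
        rw [abs_pos]
        exact_mod_cast hk
      apply Real.rpow_le_rpow_of_nonpos hk0 (by linarith) hα.le
  refine (Finset.sum_le_sum hterm).trans ?_
  rw [Finset.sum_add_distrib]
  have h5 : ∑ k ∈ s, (if k = 0 then ‖fc f 0‖ ^ 2 else 0) ≤ ‖fc f 0‖ ^ 2 := by
    rw [Finset.sum_ite_eq' s (0 : ℤ)]
    split_ifs
    · exact le_rfl
    · positivity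
  have h6 : (2 * Real.pi)⁻¹ ≤ 1 / 6 := by
    rw [inv_eq_one_div]
    apply one_div_le_one_div_of_le (by norm_num)
    linarith [Real.pi_gt_three]
  have h7 : 0 ≤ (2 * Real.pi)⁻¹ := by positivity
  have h8 : (2 * Real.pi)⁻¹ ^ 2 ≤ 1 / 6 := by nlinarith
  nlinarith [sq_nonneg P]


end Xhdpot
end MMT
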