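import Pool.Agent.Helper823.MMT.Defs2
open Complex MeasureTheory Filter Topology Set
open scoped ContDiff ENNReal
namespace MMT
namespace Xkern

/-- the convex sequence -/
noncomputable def keA (α : ℝ) (n : ℕ) : ℝ := if n = 0 then 2 else (n:ℝ) ^ α

/-- second differences -/
noncomputable def keB (α : ℝ) (m : ℕ) : ℝ := keA α m - 2 * keA α (m+1) + keA α (m+2)

/-- the Fejér kernel -/
noncomputable def keF (n : ℕ) (x : ℝ) : ℝ :=
  ‖∑ j ∈ Finset.range n, cexp (I * (j:ℂ) * (x:ℂ))‖^2 / (2 * Real.pi * n)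

theorem keA_succ (α : ℝ) (n : ℕ) : keA α (n+1) = ((n:ℝ)+1) ^ α := by
  unfold keA
  rw [if_neg (Nat.succ_ne_zero n)]
  push_cast
  rfl

theorem keB_nonneg {α : ℝ} (hα : α < 0) (m : ℕ) : 0 ≤ keB α m := by
  unfold keB
  rcases m with _ | m
  · rw [keA_succ, keA_succ]
    have : keA α 0 = 2 := if_pos rfl
    rw [this]
    have h1 : ((0:ℕ):ℝ) + 1 = 1 := by norm_num
    rw [h1, Real.one_rpow]
    have : 0 ≤ (((0 + 1 : ℕ):ℝ) + 1) ^ α := Real.rpow_nonneg (by positivity) _
    linarith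
  · rw [keA_succ, keA_succ, keA_succ]
    push_cast
    have hm : (0:ℝ) ≤ m := Nat.cast_nonneg m
    set x : ℝ := (m:ℝ) + 1 with hx
    have hx0 : 0 < x := by positivity
    have e1 : x ^ α = (x ^ (α/2)) ^ 2 := by
      rw [← Real.rpow_natCast, ← Real.rpow_mul hx0.le]; norm_num
    have e2 : (x + 1 + 1) ^ α = ((x + 1 + 1) ^ (α/2)) ^ 2 := by
      rw [← Real.rpow_natCast, ← Real.rpow_mul (by positivity)]; norm_num
    have e3 : (x + 1) ^ α ≤ x ^ (α/2) * (x + 1 + 1) ^ (α/2) := by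
      rw [← Real.mul_rpow hx0.le (by positivity)]
      have e4 : (x + 1) ^ α = ((x + 1) ^ 2) ^ (α / 2) := by
        rw [← Real.rpow_natCast, ← Real.rpow_mul (by positivity)]
        congr 1
        push_cast
        ring
      rw [e4]
      refine Real.rpow_le_rpow_of_nonpos (by positivity) (by nlinarith) (by linarith)
    have e0 : (m:ℝ) + 2 + 1 = x + 1 + 1 := by rw [hx]; ring
    rw [e0, e1, e2]
    nlinarith [sq_nonneg (x ^ (α/2) - (x + 1 + 1) ^ (α/2))]

theorem ke_diff {α : ℝ} (hα : α < 0) {x : ℝ} (hx : 0 < x) :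
    x ^ α - (x + 1) ^ α ≤ -α * x ^ (α - 1) := by
  have h1 : (x + 1) = x * (1 + 1 / x) := by field_simp
  have h2 : 0 < 1 + 1 / x := by positivity
  rw [h1, Real.mul_rpow hx.le h2.le, Real.rpow_sub_one hx.ne']
  have h3 : 1 + α / x ≤ (1 + 1 / x) ^ α := by
    rw [Real.rpow_def_of_pos h2]
    have h4 := Real.add_one_le_exp (Real.log (1 + 1 / x) * α)
    have h5 : Real.log (1 + 1 / x) ≤ 1 / x := by
      have := Real.log_le_sub_one_of_pos h2
      linarith
    have h6 : α / x ≤ Real.log (1 + 1 / x) * α := by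
      have := mul_le_mul_of_nonpos_right h5 hα.le
      have e : 1 / x * α = α / x := by ring
      linarith
    linarith
  have h7 : 0 < x ^ α := Real.rpow_pos_of_pos hx _
  have h8 := mul_le_mul_of_nonneg_left h3 h7.le
  have e : x ^ α * (1 + α / x) = x ^ α + α * (x ^ α / x) := by ring
  rw [e] at h8
  linarith

theorem ke_partial (α : ℝ) (K M : ℕ) :
    ∑ m ∈ Finset.range (M + K), ((m + 1 - K : ℕ) : ℝ) * keB α m =
      keA α K - keA α (M + K) - M * (keA α (M + K) - keA α (M + K + 1)) := by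
  induction M with
  | zero =>
    rw [Finset.sum_eq_zero]
    · simp
    · intro m hm
      rw [Finset.mem_range] at hm
      have : m + 1 - K = 0 := by omega
      rw [this]
      simp
  | succ M ih =>
    have e : M + 1 + K = (M + K) + 1 := by ring
    rw [e, Finset.sum_range_succ, ih]
    have e2 : M + K + 1 - K = M + 1 := by omega
    rw [e2]
    unfold keB
    push_cast
    ring

theorem keA_tendsto {α : ℝ} (hα : α < 0) : Tendsto (keA α) atTop (𝓝 0) := by
  have h1 : Tendsto (fun n : ℕ => ((n:ℝ)) ^ (-(-α))) atTop (𝓝 0) :=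
    (tendsto_rpow_neg_atTop (by linarith : 0 < -α)).comp tendsto_natCast_atTop_atTop
  refine h1.congr' ?_
  filter_upwards [eventually_gt_atTop 0] with n hn
  unfold keA
  rw [if_neg hn.ne', neg_neg]

theorem ke_hasSum {α : ℝ} (hα : α < 0) (K : ℕ) :
    HasSum (fun m : ℕ => ((m + 1 - K : ℕ) : ℝ) * keB α m) (keA α K) := by
  rw [hasSum_iff_tendsto_nat_of_nonneg (fun m => mul_nonneg (Nat.cast_nonneg _) (keB_nonneg hα m))]
  rw [← tendsto_add_atTop_iff_nat K]
  simp_rw [ke_partial]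
  have h1 : Tendsto (fun M => keA α (M + K)) atTop (𝓝 0) :=
    (tendsto_add_atTop_iff_nat K).2 (keA_tendsto hα)
  have h2 : Tendsto (fun M : ℕ => (M:ℝ) * (keA α (M + K) - keA α (M + K + 1))) atTop (𝓝 0) := by
    have h3 : Tendsto (fun M => -α * keA α (M + K)) atTop (𝓝 0) := by
      simpa using h1.const_mul (-α)
    refine squeeze_zero' ?_ ?_ h3
    · filter_upwards [eventually_gt_atTop 0] with M hM
      refine mul_nonneg (Nat.cast_nonneg _) ?_
      obtain ⟨j, hj⟩ : ∃ j, M + K = j + 1 := ⟨M + K - 1, by omega⟩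
      rw [hj, keA_succ, keA_succ]
      have : (((j + 1 : ℕ):ℝ) + 1) ^ α ≤ ((j:ℝ) + 1) ^ α := by
        refine Real.rpow_le_rpow_of_nonpos (by positivity) (by push_cast; linarith) hα.le
      linarith
    · filter_upwards [eventually_gt_atTop 0] with M hM
      obtain ⟨j, hj⟩ : ∃ j, M + K = j + 1 := ⟨M + K - 1, by omega⟩
      rw [hj, keA_succ, keA_succ]
      push_cast
      have hx : (0:ℝ) < (j:ℝ) + 1 := by positivity
      have h4 := ke_diff hα hx
      have h5 : (M:ℝ) ≤ (j:ℝ) + 1 := by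
        have : M ≤ j + 1 := by omega
        exact_mod_cast this
      have h6 : ((j:ℝ) + 1) ^ α - ((j:ℝ) + 1 + 1) ^ α ≥ 0 := by
        have : ((j:ℝ) + 1 + 1) ^ α ≤ ((j:ℝ) + 1) ^ α :=
          Real.rpow_le_rpow_of_nonpos (by positivity) (by linarith) hα.le
        linarith
      have h7 : (M:ℝ) * (((j:ℝ) + 1) ^ α - ((j:ℝ) + 1 + 1) ^ α) ≤
          ((j:ℝ) + 1) * (-α * ((j:ℝ) + 1) ^ (α - 1)) :=
        (mul_le_mul_of_nonneg_right h5 h6).trans (mul_le_mul_of_nonneg_left h4 hx.le)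
      refine h7.trans (le_of_eq ?_)
      rw [Real.rpow_sub_one hx.ne']
      field_simp
  have h8 := (tendsto_const_nhds (x := keA α K)).sub h1 |>.sub h2
  simpa using h8

theorem ke_int (m : ℤ) : ∫ y in (0:ℝ)..(2 * Real.pi), cexp (I * (m:ℂ) * (y:ℂ)) =
    if m = 0 then (2 * Real.pi : ℂ) else 0 := by
  split_ifs with h
  · subst h
    simp
  · have hc : I * (m:ℂ) ≠ 0 := mul_ne_zero I_ne_zero (by exact_mod_cast h)
    rw [integral_exp_mul_complex hc]
    have h1 : cexp (I * (m:ℂ) * ((2 * Real.pi : ℝ) : ℂ)) = 1 := by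
      have := Complex.exp_int_mul_two_pi_mul_I m
      rw [← this]
      congr 1
      push_cast
      ring
    rw [h1]
    simp

theorem ke_cnt (n p : ℕ) : ∑ l ∈ Finset.range n, ∑ j ∈ Finset.range n,
    (if j = l + p then (1:ℂ) else 0) = ((n - p : ℕ) : ℂ) := by
  have h1 : ∀ l, ∑ j ∈ Finset.range n, (if j = l + p then (1:ℂ) else 0) =
      if l + p ∈ Finset.range n then 1 else 0 := fun l => Finset.sum_ite_eq' _ _ _
  simp_rw [h1]
  rw [Finset.sum_boole]
  congr 1
  have h2 : Finset.filter (fun l => l + p ∈ Finset.range n) (Finset.range n) =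
      Finset.range (n - p) := by
    ext l
    simp only [Finset.mem_filter, Finset.mem_range]
    omega
  rw [h2, Finset.card_range]

theorem ke_cnt' (n : ℕ) (k : ℤ) : ∑ j ∈ Finset.range n, ∑ l ∈ Finset.range n,
    (if (j:ℤ) - l - k = 0 then (1:ℂ) else 0) = ((n - k.natAbs : ℕ) : ℂ) := by
  rcases Int.natAbs_eq k with h | h
  · rw [Finset.sum_comm, ← ke_cnt n k.natAbs]
    refine Finset.sum_congr rfl fun l _ => Finset.sum_congr rfl fun j _ => ?_
    congr 1
    apply propext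
    omega
  · rw [← ke_cnt n k.natAbs]
    refine Finset.sum_congr rfl fun l _ => Finset.sum_congr rfl fun j _ => ?_
    congr 1
    apply propext
    omega

theorem keF_nonneg (n : ℕ) (x : ℝ) : 0 ≤ keF n x := by
  unfold keF
  positivity

theorem keF_continuous (n : ℕ) : Continuous (keF n) := by
  unfold keF
  fun_prop

theorem keF_periodic (n : ℕ) : Function.Periodic (keF n) (2 * Real.pi) := by
  intro x
  unfold keF
  congr 3
  refine Finset.sum_congr rfl fun j _ => ?_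
  have h1 : I * (j:ℂ) * ((x + 2 * Real.pi : ℝ) : ℂ) =
      I * (j:ℂ) * (x:ℂ) + ((j:ℤ):ℂ) * (2 * Real.pi * I) := by
    push_cast
    ring
  rw [h1, Complex.exp_add, Complex.exp_int_mul_two_pi_mul_I, mul_one]

theorem keF_eq (n : ℕ) (k : ℤ) (y : ℝ) : cexp (-(I * (k:ℂ) * (y:ℂ))) * (keF n y : ℂ) =
    (1 / (2 * Real.pi * n) : ℂ) * ∑ j ∈ Finset.range n, ∑ l ∈ Finset.range n,
      cexp (I * (((j:ℤ) - l - k : ℤ) : ℂ) * (y:ℂ)) := by
  have h1 : ((‖∑ j ∈ Finset.range n, cexp (I * (j:ℂ) * (y:ℂ))‖^2 : ℝ) : ℂ) =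
      ∑ j ∈ Finset.range n, ∑ l ∈ Finset.range n,
        cexp (I * (j:ℂ) * (y:ℂ)) * cexp (-(I * (l:ℂ) * (y:ℂ))) := by
    rw [← Complex.normSq_eq_norm_sq, ← Complex.mul_conj, map_sum, Finset.sum_mul_sum]
    refine Finset.sum_congr rfl fun j _ => Finset.sum_congr rfl fun l _ => ?_
    rw [← Complex.exp_conj]
    congr 2
    simp
  unfold keF
  rw [Complex.ofReal_div, h1]
  rw [Finset.sum_div, Finset.mul_sum, Finset.mul_sum]
  refine Finset.sum_congr rfl fun j _ => ?_
  rw [Finset.sum_div, Finset.mul_sum, Finset.mul_sum]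
  refine Finset.sum_congr rfl fun l _ => ?_
  have h2 : cexp (I * (((j:ℤ) - l - k : ℤ) : ℂ) * (y:ℂ)) =
      cexp (-(I * (k:ℂ) * (y:ℂ))) * (cexp (I * (j:ℂ) * (y:ℂ)) * cexp (-(I * (l:ℂ) * (y:ℂ)))) := by
    rw [← Complex.exp_add, ← Complex.exp_add]
    congr 1
    push_cast
    ring
  rw [h2]
  push_cast
  ring

theorem keF_coeff (n : ℕ) (hn : 0 < n) (k : ℤ) :
    ∫ y in (0:ℝ)..(2 * Real.pi), cexp (-(I * (k:ℂ) * (y:ℂ))) * (keF n y : ℂ) =
      ((n - k.natAbs : ℕ) : ℂ) / n := by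
  simp_rw [keF_eq]
  rw [intervalIntegral.integral_const_mul, intervalIntegral.integral_finsetSum]
  · have h1 : ∀ j ∈ Finset.range n, ∫ y in (0:ℝ)..(2 * Real.pi), ∑ l ∈ Finset.range n,
        cexp (I * (((j:ℤ) - l - k : ℤ) : ℂ) * (y:ℂ)) =
        ∑ l ∈ Finset.range n, (2 * Real.pi : ℂ) * (if (j:ℤ) - l - k = 0 then (1:ℂ) else 0) := by
      intro j _
      rw [intervalIntegral.integral_finsetSum]
      · refine Finset.sum_congr rfl fun l _ => ?_
        rw [ke_int]
        split_ifs <;> simp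
      · intro l _
        exact (by fun_prop : Continuous fun y : ℝ =>
          cexp (I * (((j:ℤ) - l - k : ℤ) : ℂ) * (y:ℂ))).intervalIntegrable _ _
    rw [Finset.sum_congr rfl h1]
    simp_rw [← Finset.mul_sum]
    rw [ke_cnt']
    have hn' : (n:ℂ) ≠ 0 := by exact_mod_cast hn.ne'
    have hp : (Real.pi : ℂ) ≠ 0 := by exact_mod_cast Real.pi_ne_zero
    field_simp
  · intro j _
    exact (by fun_prop : Continuous fun y : ℝ => ∑ l ∈ Finset.range n,
      cexp (I * (((j:ℤ) - l - k : ℤ) : ℂ) * (y:ℂ))).intervalIntegrable _ _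

theorem keF_int (n : ℕ) (hn : 0 < n) : ∫ y in (0:ℝ)..(2 * Real.pi), keF n y = 1 := by
  have h := keF_coeff n hn 0
  have hn' : (n:ℂ) ≠ 0 := by exact_mod_cast hn.ne'
  have h1 : ∀ y : ℝ, cexp (-(I * ((0:ℤ):ℂ) * (y:ℂ))) * (keF n y : ℂ) = ((keF n y : ℝ) : ℂ) := by
    intro y; simp
  simp_rw [h1] at h
  rw [intervalIntegral.integral_ofReal] at h
  simp only [Int.natAbs_zero, Nat.sub_zero, div_self hn'] at h
  exact_mod_cast h

/-- the terms of the kernel -/
noncomputable def keG (α : ℝ) (m : ℕ) (x : ℝ) : ℝ := ((m:ℝ) + 1) * keB α m * keF (m + 1) x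

theorem keG_nonneg {α : ℝ} (hα : α < 0) (m : ℕ) (x : ℝ) : 0 ≤ keG α m x :=
  mul_nonneg (mul_nonneg (by positivity) (keB_nonneg hα m)) (keF_nonneg _ _)

theorem keG_continuous (α : ℝ) (m : ℕ) : Continuous (keG α m) :=
  (continuous_const.mul (keF_continuous _))

theorem keG_coeff (α : ℝ) (m : ℕ) (k : ℤ) :
    ∫ y in (0:ℝ)..(2 * Real.pi), cexp (-(I * (k:ℂ) * (y:ℂ))) * (keG α m y : ℂ) =
      ((((m + 1 - k.natAbs : ℕ) : ℝ) * keB α m : ℝ) : ℂ) := by
  have h1 : ∀ y : ℝ, cexp (-(I * (k:ℂ) * (y:ℂ))) * (keG α m y : ℂ) =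
      (((m:ℝ) + 1) * keB α m : ℝ) * (cexp (-(I * (k:ℂ) * (y:ℂ))) * (keF (m + 1) y : ℂ)) := by
    intro y
    unfold keG
    push_cast
    ring
  simp_rw [h1]
  rw [intervalIntegral.integral_const_mul, keF_coeff _ (Nat.succ_pos m)]
  have hm : ((m + 1 : ℕ) : ℂ) ≠ 0 := by exact_mod_cast Nat.succ_ne_zero m
  push_cast at hm ⊢
  field_simp

theorem keG_int (α : ℝ) (m : ℕ) :
    ∫ y in (0:ℝ)..(2 * Real.pi), keG α m y = ((m + 1 - 0 : ℕ) : ℝ) * keB α m := by
  unfold keG
  rw [intervalIntegral.integral_const_mul, keF_int _ (Nat.succ_pos m)]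
  push_cast
  simp

theorem kernel_exists (α : ℝ) (hα : α < 0) : ∃ K : ℝ → ℝ, Measurable K ∧ Function.Periodic K (2 * Real.pi) ∧
    IntervalIntegrable K volume 0 (2 * Real.pi) ∧
    ∀ k : ℤ, ∫ y in (0:ℝ)..(2 * Real.pi), cexp (-(I * (k:ℂ) * (y:ℂ))) * (K y : ℂ) = (sym α k : ℂ) := by
  set μ : Measure ℝ := volume.restrict (Ioc 0 (2 * Real.pi)) with hμ
  have hle : (0:ℝ) ≤ 2 * Real.pi := Real.two_pi_pos.le
  have hGint : ∀ m, Integrable (keG α m) μ := fun m =>
    ((keG_continuous α m).intervalIntegrable 0 (2 * Real.pi)).1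
  have hGval : ∀ m, ∫ y, keG α m y ∂μ = ((m + 1 - 0 : ℕ) : ℝ) * keB α m := fun m => by
    rw [← keG_int, intervalIntegral.integral_of_le hle]
  have hsum0 := ke_hasSum hα 0
  set Φ : ℝ → ENNReal := fun x => ∑' m, ENNReal.ofReal (keG α m x) with hΦ
  have hΦm : Measurable Φ := Measurable.ennreal_tsum fun m =>
    (keG_continuous α m).measurable.ennreal_ofReal
  have hΦeq : ∀ x, (Φ x).toReal = ∑' m, keG α m x := by
    intro x
    rw [hΦ]
    beta_reduce
    rw [ENNReal.tsum_toReal_eq (fun m => ENNReal.ofReal_ne_top)]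
    refine tsum_congr fun m => ENNReal.toReal_ofReal (keG_nonneg hα m x)
  have hΦint : Integrable (fun x => (Φ x).toReal) μ := by
    refine integrable_toReal_of_lintegral_ne_top hΦm.aemeasurable ?_
    rw [hΦ, lintegral_tsum (fun m => (keG_continuous α m).measurable.ennreal_ofReal.aemeasurable)]
    have h1 : ∀ m, ∫⁻ x, ENNReal.ofReal (keG α m x) ∂μ =
        ENNReal.ofReal (((m + 1 - 0 : ℕ) : ℝ) * keB α m) := by
      intro m
      rw [← hGval m, ofReal_integral_eq_lintegral_ofReal (hGint m)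
        (Filter.Eventually.of_forall fun x => keG_nonneg hα m x)]
    simp_rw [h1]
    rw [← ENNReal.ofReal_tsum_of_nonneg
      (fun m => mul_nonneg (Nat.cast_nonneg _) (keB_nonneg hα m)) hsum0.summable]
    exact ENNReal.ofReal_ne_top
  refine ⟨fun x => (Φ x).toReal - 1 / Real.pi, hΦm.ennreal_toReal.sub_const _, ?_, ?_, ?_⟩
  · intro x
    have h1 : Φ (x + 2 * Real.pi) = Φ x := by
      rw [hΦ]
      beta_reduce
      refine tsum_congr fun m => ?_
      unfold keG
      rw [keF_periodic]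
    beta_reduce
    rw [h1]
  · rw [intervalIntegrable_iff_integrableOn_Ioc_of_le hle]
    exact hΦint.sub (integrable_const _)
  · intro k
    have hFint : ∀ m, Integrable (fun y : ℝ => cexp (-(I * (k:ℂ) * (y:ℂ))) * (keG α m y : ℂ)) μ := by
      intro m
      have hc : Continuous (fun y : ℝ => cexp (-(I * (k:ℂ) * (y:ℂ))) * (keG α m y : ℂ)) :=
        (by fun_prop : Continuous fun y : ℝ => cexp (-(I * (k:ℂ) * (y:ℂ)))).mul
          (Complex.continuous_ofReal.comp (keG_continuous α m))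
      exact (hc.intervalIntegrable 0 (2 * Real.pi)).1
    have hnorm : ∀ m (y : ℝ), ‖cexp (-(I * (k:ℂ) * (y:ℂ))) * (keG α m y : ℂ)‖ = keG α m y := by
      intro m y
      rw [norm_mul, Complex.norm_exp, Complex.norm_real, Real.norm_eq_abs,
        abs_of_nonneg (keG_nonneg hα m y)]
      simp
    have hsumn : Summable fun m => ∫ y, ‖cexp (-(I * (k:ℂ) * (y:ℂ))) * (keG α m y : ℂ)‖ ∂μ := by
      simp_rw [hnorm, hGval]
      exact hsum0.summable
    have hhs := hasSum_integral_of_summable_integral_norm hFint hsumn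
    have hterm : ∀ m, ∫ y, cexp (-(I * (k:ℂ) * (y:ℂ))) * (keG α m y : ℂ) ∂μ =
        ((((m + 1 - k.natAbs : ℕ) : ℝ) * keB α m : ℝ) : ℂ) := by
      intro m
      rw [← keG_coeff, intervalIntegral.integral_of_le hle]
    simp_rw [hterm] at hhs
    have hk := Complex.hasSum_ofReal.2 (ke_hasSum hα k.natAbs)
    have heq := hhs.unique hk
    have hpt : ∀ y : ℝ, ∑' m, cexp (-(I * (k:ℂ) * (y:ℂ))) * (keG α m y : ℂ) =
        cexp (-(I * (k:ℂ) * (y:ℂ))) * ((Φ y).toReal : ℂ) := by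
      intro y
      rw [tsum_mul_left, hΦeq, Complex.ofReal_tsum]
    simp_rw [hpt] at heq
    have hcon : ∫ y in (0:ℝ)..(2 * Real.pi), cexp (-(I * (k:ℂ) * (y:ℂ))) * ((1 / Real.pi : ℝ) : ℂ) =
        if k = 0 then 2 else 0 := by
      rw [intervalIntegral.integral_mul_const]
      have h1 := ke_int (-k)
      have h2 : ∀ y : ℝ, cexp (-(I * (k:ℂ) * (y:ℂ))) = cexp (I * ((-k : ℤ):ℂ) * (y:ℂ)) := by
        intro y; congr 1; push_cast; ring
      simp_rw [h2]
      rw [h1]
      have hp : (Real.pi : ℂ) ≠ 0 := by exact_mod_cast Real.pi_ne_zero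
      by_cases hk0 : k = 0
      · rw [if_pos (by omega), if_pos hk0]
        push_cast
        field_simp
      · rw [if_neg (by omega), if_neg hk0, zero_mul]
    have hsplit : ∫ y in (0:ℝ)..(2 * Real.pi), cexp (-(I * (k:ℂ) * (y:ℂ))) *
        (((Φ y).toReal - 1 / Real.pi : ℝ) : ℂ) =
        (∫ y in (0:ℝ)..(2 * Real.pi), cexp (-(I * (k:ℂ) * (y:ℂ))) * ((Φ y).toReal : ℂ)) -
        ∫ y in (0:ℝ)..(2 * Real.pi), cexp (-(I * (k:ℂ) * (y:ℂ))) * ((1 / Real.pi : ℝ) : ℂ) := by
      rw [← intervalIntegral.integral_sub]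
      · refine intervalIntegral.integral_congr fun y _ => ?_
        beta_reduce
        push_cast
        ring
      · rw [intervalIntegrable_iff_integrableOn_Ioc_of_le hle]
        have h1 : Integrable (fun y : ℝ => ((Φ y).toReal : ℂ)) μ := hΦint.ofReal
        refine h1.bdd_mul (c := 1) ?_ ?_
        · exact (by fun_prop : Continuous fun y : ℝ =>
            cexp (-(I * (k:ℂ) * (y:ℂ)))).aestronglyMeasurable
        · refine Filter.Eventually.of_forall fun y => ?_
          rw [Complex.norm_exp]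
          simp
      · exact (by fun_prop : Continuous fun y : ℝ => cexp (-(I * (k:ℂ) * (y:ℂ))) *
          ((1 / Real.pi : ℝ) : ℂ)).intervalIntegrable _ _
    rw [hsplit, hcon, intervalIntegral.integral_of_le hle, heq]
    unfold sym keA
    by_cases hk0 : k = 0
    · rw [if_pos hk0, if_pos hk0, if_pos (by omega)]
      push_cast
      ring
    · rw [if_neg hk0, if_neg hk0, if_neg (by omega), sub_zero]
      congr 2
      rw [Nat.cast_natAbs, Int.cast_abs]


end Xkern
end MMT
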