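import Pool.Agent.Helper823.MMT.Defs2
open Complex MeasureTheory Filter Topology Set
open scoped ContDiff ENNReal
namespace MMT
namespace Xlam0

theorem h396_fc_eq (f : ℝ → ℂ) (g : C(Cir, ℂ)) (hg : ∀ x : ℝ, g (x : Cir) = f x) (k : ℤ) :
    fourierCoeff (g : Cir → ℂ) k = fc f k := by
  rw [fourierCoeff_eq_intervalIntegral (g : Cir → ℂ) k 0]
  unfold fc
  rw [zero_add, Complex.real_smul]
  congr 1
  · push_cast; rfl
  · apply intervalIntegral.integral_congr
    intro x _
    simp only [smul_eq_mul]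
    rw [hg x, fourier_coe_apply]
    congr 2
    have hpi : (Real.pi : ℂ) ≠ 0 := by exact_mod_cast Real.pi_ne_zero
    push_cast
    field_simp

theorem h396_exp_norm (k : ℤ) (x : ℝ) : ‖cexp (-(I * (k:ℂ) * (x:ℂ)))‖ = 1 := by
  have e : -(I * (k:ℂ) * (x:ℂ)) = ((-(k * x) : ℝ) : ℂ) * I := by push_cast; ring
  rw [e, Complex.norm_exp_ofReal_mul_I]

theorem h396_fc_bound (h : ℝ → ℂ) (hc : Continuous h) : ∃ M : ℝ, 0 ≤ M ∧ ∀ k : ℤ, ‖fc h k‖ ≤ M := by
  obtain ⟨M, hM⟩ := (isCompact_Icc (a := (0:ℝ)) (b := 2 * Real.pi)).exists_bound_of_continuousOn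
    (f := h) hc.continuousOn
  have hpi : 0 < 2 * Real.pi := Real.two_pi_pos
  refine ⟨M, (norm_nonneg _).trans (hM 0 ⟨le_refl _, hpi.le⟩), fun k => ?_⟩
  unfold fc
  have h1 : ‖∫ x in (0:ℝ)..(2 * Real.pi), cexp (-(I * (k:ℂ) * (x:ℂ))) * h x‖ ≤
      M * |2 * Real.pi - 0| := by
    apply intervalIntegral.norm_integral_le_of_norm_le_const
    intro x hx
    rw [uIoc_of_le hpi.le] at hx
    rw [norm_mul, h396_exp_norm, one_mul]
    exact hM x ⟨hx.1.le, hx.2⟩
  rw [norm_mul]
  have h2 : ‖(1 / (2 * Real.pi) : ℂ)‖ = 1 / (2 * Real.pi) := by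
    have e : (1 / (2 * Real.pi) : ℂ) = ((1 / (2 * Real.pi) : ℝ) : ℂ) := by push_cast; rfl
    rw [e, Complex.norm_real, Real.norm_eq_abs, abs_of_pos (by positivity)]
  rw [h2]
  rw [sub_zero, abs_of_pos hpi] at h1
  calc 1 / (2 * Real.pi) * ‖∫ x in (0:ℝ)..(2 * Real.pi), cexp (-(I * (k:ℂ) * (x:ℂ))) * h x‖
      ≤ 1 / (2 * Real.pi) * (M * (2 * Real.pi)) :=
        mul_le_mul_of_nonneg_left h1 (by positivity)
    _ = M := by field_simp

theorem h396_fc_deriv (f : ℝ → ℂ) (hf : ContDiff ℝ 1 f) (hp : Function.Periodic f (2 * Real.pi))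
    (k : ℤ) (hk : k ≠ 0) : fc f k = (1 / (I * k)) * fc (deriv f) k := by
  have hk' : (k : ℂ) ≠ 0 := by exact_mod_cast hk
  have hIk : I * (k : ℂ) ≠ 0 := mul_ne_zero I_ne_zero hk'
  have hd : ∀ x : ℝ, HasDerivAt (fun x : ℝ => -(1 / (I * k)) * cexp (-(I * (k:ℂ) * (x:ℂ))))
      (cexp (-(I * (k:ℂ) * (x:ℂ)))) x := by
    intro x
    have h1 : HasDerivAt (fun x : ℝ => -(I * (k:ℂ) * (x:ℂ))) (-(I * (k:ℂ) * 1)) x :=
      ((Complex.ofRealCLM.hasDerivAt (x := x)).const_mul (I * (k:ℂ))).neg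
    have h2 := (h1.cexp).const_mul (-(1 / (I * k)))
    refine h2.congr_deriv ?_
    have h3 : (1 / (I * (k:ℂ))) * (I * (k:ℂ)) = 1 := one_div_mul_cancel hIk
    linear_combination (cexp (-(I * (k:ℂ) * (x:ℂ)))) * h3
  have hfd : ∀ x : ℝ, HasDerivAt f (deriv f x) x := fun x =>
    ((hf.differentiable (by norm_num)) x).hasDerivAt
  have hdc : Continuous (deriv f) := hf.continuous_deriv (by norm_num)
  have hec : Continuous (fun x : ℝ => cexp (-(I * (k:ℂ) * (x:ℂ)))) := by fun_prop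
  have hip := intervalIntegral.integral_mul_deriv_eq_deriv_mul
    (u := f) (v := fun x : ℝ => -(1 / (I * k)) * cexp (-(I * (k:ℂ) * (x:ℂ))))
    (u' := deriv f) (v' := fun x : ℝ => cexp (-(I * (k:ℂ) * (x:ℂ)))) (a := 0) (b := 2 * Real.pi)
    (fun x _ => hfd x) (fun x _ => hd x) (hdc.intervalIntegrable _ _) (hec.intervalIntegrable _ _)
  have hper : f (2 * Real.pi) = f 0 := by
    have := hp 0
    rwa [zero_add] at this
  have he : cexp (-(I * (k:ℂ) * ((2 * Real.pi : ℝ) : ℂ))) = 1 := by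
    have e : -(I * (k:ℂ) * ((2 * Real.pi : ℝ) : ℂ)) = ((-k : ℤ) : ℂ) * (2 * Real.pi * I) := by
      push_cast; ring
    rw [e, Complex.exp_int_mul_two_pi_mul_I]
  have he0 : cexp (-(I * (k:ℂ) * ((0 : ℝ) : ℂ))) = 1 := by simp
  simp only [he, he0, hper, sub_self, zero_sub] at hip
  unfold fc
  have e1 : ∫ x in (0:ℝ)..(2 * Real.pi), cexp (-(I * (k:ℂ) * (x:ℂ))) * f x =
      ∫ x in (0:ℝ)..(2 * Real.pi), f x * cexp (-(I * (k:ℂ) * (x:ℂ))) := by
    apply intervalIntegral.integral_congr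
    intro x _
    exact mul_comm _ _
  have e2 : ∫ x in (0:ℝ)..(2 * Real.pi), deriv f x * (-(1 / (I * k)) * cexp (-(I * (k:ℂ) * (x:ℂ)))) =
      -(1 / (I * k)) * ∫ x in (0:ℝ)..(2 * Real.pi), cexp (-(I * (k:ℂ) * (x:ℂ))) * deriv f x := by
    rw [← intervalIntegral.integral_const_mul]
    apply intervalIntegral.integral_congr
    intro x _
    simp only
    ring
  rw [e1, hip, e2]
  ring

theorem h396_periodic_deriv (f : ℝ → ℂ) (hp : Function.Periodic f (2 * Real.pi)) :
    Function.Periodic (deriv f) (2 * Real.pi) := by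
  intro x
  have h1 : (fun y => f (y + 2 * Real.pi)) = f := funext hp
  have h2 := deriv_comp_add_const (f := f) (2 * Real.pi) x
  rw [← h2, h1]

theorem h396_summable (f : ℝ → ℂ) (hf : ContDiff ℝ 2 f) (hp : Function.Periodic f (2 * Real.pi)) :
    Summable (fun k : ℤ => fc f k) := by
  have hf1 : ContDiff ℝ 1 f := hf.of_le (by norm_num)
  have hf2 : ContDiff ℝ 1 (deriv f) := by
    have h : ContDiff ℝ (1 + 1) f := by
      convert hf using 1
      norm_num
    exact (contDiff_succ_iff_deriv.1 h).2.2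
  have hc : Continuous (deriv (deriv f)) := hf2.continuous_deriv (by norm_num)
  obtain ⟨M, hM0, hM⟩ := h396_fc_bound _ hc
  have hs : Summable (fun k : ℤ => M * (1 / (k : ℝ) ^ 2)) :=
    (Real.summable_one_div_int_pow.2 (by norm_num)).mul_left M
  refine Summable.of_norm_bounded_eventually hs ?_
  have hcof : ∀ᶠ k : ℤ in cofinite, k ≠ 0 := by
    rw [Filter.eventually_cofinite]
    simp
  filter_upwards [hcof] with k hk
  rw [h396_fc_deriv f hf1 hp k hk, h396_fc_deriv _ hf2 (h396_periodic_deriv f hp) k hk]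
  rw [norm_mul, norm_mul]
  have h1 : ‖(1 / (I * (k : ℂ)))‖ = 1 / |(k : ℝ)| := by
    rw [norm_div, norm_mul, norm_one, Complex.norm_I, one_mul, Complex.norm_intCast]
  rw [h1]
  have h2 : (1 / |(k : ℝ)|) * (1 / |(k : ℝ)|) = 1 / (k : ℝ) ^ 2 := by
    rw [div_mul_div_comm, one_mul, ← sq, sq_abs]
  rw [← mul_assoc, h2, mul_comm]
  exact mul_le_mul_of_nonneg_right (hM k) (by positivity)

theorem h396_integrable (g : C(Cir, ℂ)) : Integrable (fun t => g t) AddCircle.haarAddCircle :=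
  g.continuous.integrable_of_hasCompactSupport (HasCompactSupport.of_compactSpace _)

/-- the operator -/
noncomputable def h396_L : C(Cir, ℂ) →L[ℂ] C(Cir, ℂ) :=
  LinearMap.mkContinuous
    { toFun := fun g => g - ContinuousMap.const Cir (∫ t, g t ∂AddCircle.haarAddCircle)
      map_add' := by
        intro g h
        ext x
        simp only [ContinuousMap.sub_apply, ContinuousMap.add_apply, ContinuousMap.const_apply]
        rw [integral_add (h396_integrable g) (h396_integrable h)]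
        ring
      map_smul' := by
        intro c g
        ext x
        simp only [ContinuousMap.sub_apply, ContinuousMap.smul_apply, ContinuousMap.const_apply,
          RingHom.id_apply, smul_eq_mul]
        rw [integral_const_mul]
        ring } 2 (by
      intro g
      simp only [LinearMap.coe_mk, AddHom.coe_mk]
      have h1 : ‖∫ t, g t ∂(AddCircle.haarAddCircle : Measure Cir)‖ ≤ ‖g‖ := by
        have := norm_integral_le_of_norm_le_const (μ := (AddCircle.haarAddCircle : Measure Cir))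
          (f := fun t => g t) (C := ‖g‖) (Filter.Eventually.of_forall fun t => g.norm_coe_le_norm t)
        simpa using this
      have h2 : ‖ContinuousMap.const Cir (∫ t, g t ∂(AddCircle.haarAddCircle : Measure Cir))‖ ≤ ‖g‖ := by
        rw [ContinuousMap.norm_le _ (norm_nonneg g)]
        intro x
        exact h1
      calc ‖g - ContinuousMap.const Cir (∫ t, g t ∂AddCircle.haarAddCircle)‖
          ≤ ‖g‖ + ‖ContinuousMap.const Cir (∫ t, g t ∂(AddCircle.haarAddCircle : Measure Cir))‖ :=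
            norm_sub_le _ _
        _ ≤ 2 * ‖g‖ := by linarith)

theorem h396_L_apply (g : C(Cir, ℂ)) (x : Cir) :
    h396_L g x = g x - ∫ t, g t ∂AddCircle.haarAddCircle := rfl

theorem h396_mean (f : ℝ → ℂ) (g : C(Cir, ℂ)) (hg : ∀ x : ℝ, g (x : Cir) = f x) :
    ∫ t, g t ∂(AddCircle.haarAddCircle : Measure Cir) = fc f 0 := by
  rw [← h396_fc_eq f g hg 0]
  unfold fourierCoeff
  simp

theorem Lam_zero : ∃ L : C(Cir, ℂ) →L[ℂ] C(Cir, ℂ), (∀ (a : ℝ) (g : C(Cir, ℂ)), L (tr a g) = tr a (L g)) ∧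
    (∀ (f : ℝ → ℂ) (g : C(Cir, ℂ)), ContDiff ℝ 2 f → (∀ x : ℝ, g (x : Cir) = f x) →
      ∀ x : ℝ, L g (x : Cir) = absD 0 f x) ∧
    (∀ (f : ℝ → ℂ) (g : C(Cir, ℂ)), (∀ x : ℝ, g (x : Cir) = f x) →
      ∀ x : ℝ, L g (x : Cir) = f x - fc f 0) := by
  refine ⟨h396_L, ?_, ?_, ?_⟩
  · intro a g
    ext x
    have h1 : (tr a (h396_L g)) x = h396_L g (x + (a : Cir)) := rfl
    have h2 : ∀ y, (tr a g) y = g (y + (a : Cir)) := fun y => rfl
    rw [h1, h396_L_apply, h396_L_apply, h2 x]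
    congr 1
    have h3 : (fun t => (tr a g) t) = fun t => g (t + (a : Cir)) := funext h2
    rw [h3]
    exact integral_add_right_eq_self (fun t => g t) (a : Cir)
  · intro f g hf hg x
    have hp : Function.Periodic f (2 * Real.pi) := by
      intro y
      rw [← hg, ← hg]
      congr 1
      exact AddCircle.coe_add_period (2 * Real.pi) y
    have hs := h396_summable f hf hp
    have hs' : Summable (fourierCoeff (g : Cir → ℂ)) := by
      have e : fourierCoeff (g : Cir → ℂ) = fun k => fc f k := funext (h396_fc_eq f g hg)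
      rw [e]
      exact hs
    have h1 := has_pointwise_sum_fourier_series_of_summable hs' (x : Cir)
    have h2 := h1.sub (hasSum_ite_eq (0 : ℤ) (fc f 0))
    rw [h396_L_apply, h396_mean f g hg]
    have efun : ∀ k : ℤ, fourierCoeff (g : Cir → ℂ) k • (fourier k) (x : Cir) -
        (if k = 0 then fc f 0 else 0) = (sym 0 k : ℂ) * fc f k * cexp (I * (k:ℂ) * (x:ℂ)) := by
      intro k
      rw [h396_fc_eq f g hg k, fourier_coe_apply, smul_eq_mul]
      have hpi : (Real.pi : ℂ) ≠ 0 := by exact_mod_cast Real.pi_ne_zero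
      have e : 2 * (Real.pi : ℂ) * I * (k : ℂ) * (x : ℂ) / ((2 * Real.pi : ℝ) : ℂ) =
          I * (k:ℂ) * (x:ℂ) := by
        push_cast
        field_simp
      rw [e]
      by_cases hk : k = 0
      · subst hk
        simp [sym]
      · simp [sym, hk]
    have h3 : HasSum (fun k : ℤ => (sym 0 k : ℂ) * fc f k * cexp (I * (k:ℂ) * (x:ℂ)))
        (g (x : Cir) - fc f 0) := by
      have e2 := funext efun
      rw [← e2]
      exact h2
    unfold absD
    exact h3.tsum_eq.symm
  · intro f g hg x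
    rw [h396_L_apply, h396_mean f g hg, hg x]


end Xlam0
end MMT
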