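import Pool.Agent.Helper823.MMT.Defs2
open Complex MeasureTheory Filter Topology Set
open scoped ContDiff ENNReal
namespace MMT
namespace Xlamneg
lemma jk_fc_deriv (f : ℝ → ℂ) (hf : ContDiff ℝ 1 f) (hp : Function.Periodic f (2 * Real.pi)) (k : ℤ) :
    fc (deriv f) k = (I * (k:ℂ)) * fc f k := by
  unfold fc
  have hd : ∀ x ∈ Set.uIcc (0:ℝ) (2 * Real.pi), HasDerivAt (fun x : ℝ => cexp (-(I * (k:ℂ) * (x:ℂ)))) (cexp (-(I * (k:ℂ) * (x:ℂ))) * (-(I * (k:ℂ)))) x := by
    intro x _
    have h1 : HasDerivAt (fun x : ℝ => -(I * (k:ℂ) * (x:ℂ))) (-(I * (k:ℂ))) x := by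
      have h0 := ((hasDerivAt_id x).ofReal_comp.const_mul (I * (k:ℂ))).neg
      simp only [mul_one, id, Complex.ofReal_one] at h0
      exact h0
    exact h1.cexp
  have hfd : ∀ x ∈ Set.uIcc (0:ℝ) (2 * Real.pi), HasDerivAt f (deriv f x) x := by
    intro x _
    exact (hf.differentiable (by norm_num)).differentiableAt.hasDerivAt
  have hc' : Continuous (deriv f) := hf.continuous_deriv (by norm_num)
  have key := intervalIntegral.integral_mul_deriv_eq_deriv_mul hd hfd
    (Continuous.intervalIntegrable (by fun_prop) _ _) (hc'.intervalIntegrable _ _)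
  rw [key]
  have hb : f (2 * Real.pi) = f 0 := by
    have := hp 0
    simpa using this
  have he : cexp (-(I * (k:ℂ) * ((2 * Real.pi : ℝ):ℂ))) = 1 := by
    rw [Complex.exp_eq_one_iff]
    refine ⟨-k, ?_⟩
    push_cast
    ring
  rw [he, hb]
  have hs : ∫ x in (0:ℝ)..(2 * Real.pi), cexp (-(I * (k:ℂ) * (x:ℂ))) * (-(I * (k:ℂ))) * f x
      = -(I * (k:ℂ)) * ∫ x in (0:ℝ)..(2 * Real.pi), cexp (-(I * (k:ℂ) * (x:ℂ))) * f x := by
    rw [← intervalIntegral.integral_const_mul]
    congr 1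
    funext x
    ring
  rw [hs]
  simp only [Complex.ofReal_zero, mul_zero, neg_zero, Complex.exp_zero]
  ring

lemma jk_fc_bound (g : ℝ → ℂ) (hg : Continuous g) : ∃ C : ℝ, ∀ k : ℤ, ‖fc g k‖ ≤ C := by
  obtain ⟨M, hM⟩ := (isCompact_Icc (a := (0:ℝ)) (b := 2 * Real.pi)).exists_bound_of_continuousOn hg.continuousOn
  refine ⟨M, fun k => ?_⟩
  unfold fc
  have h1 : ‖∫ x in (0:ℝ)..(2 * Real.pi), cexp (-(I * (k:ℂ) * (x:ℂ))) * g x‖ ≤ M * |2 * Real.pi - 0| := by
    apply intervalIntegral.norm_integral_le_of_norm_le_const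
    intro x hx
    rw [Set.uIoc_of_le Real.two_pi_pos.le] at hx
    rw [norm_mul]
    have : ‖cexp (-(I * (k:ℂ) * (x:ℂ)))‖ = 1 := by
      rw [Complex.norm_exp]
      simp
    rw [this, one_mul]
    exact hM x ⟨hx.1.le, hx.2⟩
  have hpi := Real.pi_pos
  rw [norm_mul]
  have h2 : ‖(1 / (2 * Real.pi) : ℂ)‖ = 1 / (2 * Real.pi) := by
    have : (1 / (2 * Real.pi) : ℂ) = ((1 / (2 * Real.pi) : ℝ) : ℂ) := by push_cast; ring
    rw [this, Complex.norm_real, Real.norm_of_nonneg (by positivity)]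
  rw [h2]
  rw [sub_zero, abs_of_pos Real.two_pi_pos] at h1
  calc 1 / (2 * Real.pi) * _ ≤ 1 / (2 * Real.pi) * (M * (2 * Real.pi)) := by gcongr
    _ = M := by field_simp

lemma jk_fc_summable (f : ℝ → ℂ) (hf : ContDiff ℝ 2 f) (hp : Function.Periodic f (2 * Real.pi)) :
    Summable (fun k : ℤ => ‖fc f k‖) := by
  have hf1 : ContDiff ℝ 1 (deriv f) := by
    have : ContDiff ℝ (1 + 1) f := by
      have h : (1 + 1 : WithTop ℕ∞) = 2 := by norm_num
      rw [h]; exact hf
    exact ((contDiff_succ_iff_deriv (n := 1)).1 this).2.2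
  have hp1 : Function.Periodic (deriv f) (2 * Real.pi) := by
    intro x
    have h : (fun y => f (y + 2 * Real.pi)) = f := funext fun y => hp y
    have h2 := deriv_comp_add_const f (2 * Real.pi) x
    rw [← h2, h]
  obtain ⟨C, hC⟩ := jk_fc_bound (deriv (deriv f)) (hf1.continuous_deriv (by norm_num))
  have hC0 : 0 ≤ C := (norm_nonneg _).trans (hC 0)
  have key : ∀ k : ℤ, ‖fc f k‖ * (k:ℝ)^2 ≤ C := by
    intro k
    have h := hC k
    rw [jk_fc_deriv _ hf1 hp1, jk_fc_deriv _ (hf.of_le (by norm_num)) hp] at h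
    have h3 : ‖I * (k:ℂ) * (I * (k:ℂ) * fc f k)‖ = ‖fc f k‖ * (k:ℝ)^2 := by
      have : ‖(k:ℂ)‖ = |(k:ℝ)| := by
        rw [Complex.norm_intCast]
      simp only [norm_mul, Complex.norm_I, this]
      rw [← sq_abs (k:ℝ)]
      ring
    rw [h3] at h
    exact h
  have hs : Summable (fun k : ℤ => (if k = 0 then ‖fc f 0‖ else 0) + C * (1 / (k:ℝ)^2)) := by
    apply Summable.add
    · exact summable_of_ne_finset_zero (s := {0}) (fun b hb => by simp at hb; simp [hb])
    · exact (Real.summable_one_div_int_pow.2 (by norm_num)).mul_left C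
  refine Summable.of_nonneg_of_le (fun _ => norm_nonneg _) (fun k => ?_) hs
  by_cases hk : k = 0
  · subst hk
    simp
  · simp only [hk, if_false, zero_add]
    have hk2 : (0:ℝ) < (k:ℝ)^2 := by
      have : (k:ℝ) ≠ 0 := by exact_mod_cast hk
      positivity
    rw [mul_one_div, le_div_iff₀ hk2]
    exact key k

lemma jk_fourierCoeff (g : C(Cir, ℂ)) (f : ℝ → ℂ) (h : ∀ x : ℝ, g (x : Cir) = f x) (k : ℤ) :
    fourierCoeff g k = fc f k := by
  rw [fourierCoeff_eq_intervalIntegral g k 0]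
  unfold fc
  rw [zero_add, Complex.real_smul]
  congr 1
  · push_cast; ring
  · apply intervalIntegral.integral_congr
    intro x _
    simp only
    rw [fourier_coe_apply, h x, smul_eq_mul]
    congr 2
    have : (Real.pi : ℂ) ≠ 0 := by exact_mod_cast Real.pi_ne_zero
    push_cast
    field_simp

lemma jk_hasSum (f : ℝ → ℂ) (hf : ContDiff ℝ 2 f) (hp : Function.Periodic f (2 * Real.pi)) (x : ℝ) :
    HasSum (fun k : ℤ => fc f k * cexp (I * (k:ℂ) * (x:ℂ))) (f x) := by
  let g : C(Cir, ℂ) := ⟨hp.lift, by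
    have : Continuous (fun x : ℝ => hp.lift (x : Cir)) := hf.continuous
    exact continuous_quot_lift _ hf.continuous⟩
  have hg : ∀ x : ℝ, g (x : Cir) = f x := fun x => hp.lift_coe x
  have hs : Summable (fourierCoeff g) := by
    apply Summable.of_norm
    simpa [jk_fourierCoeff g f hg] using jk_fc_summable f hf hp
  have h := has_pointwise_sum_fourier_series_of_summable hs (x : Cir)
  rw [hg] at h
  convert h using 1
  funext k
  rw [jk_fourierCoeff g f hg, fourier_coe_apply, smul_eq_mul]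
  congr 2
  have : (Real.pi : ℂ) ≠ 0 := by exact_mod_cast Real.pi_ne_zero
  push_cast
  field_simp

theorem absD_kernel (α : ℝ) (hα : α < 0) (K : ℝ → ℝ) (hK1 : Measurable K) (hK2 : Function.Periodic K (2 * Real.pi))
    (hK3 : IntervalIntegrable K volume 0 (2 * Real.pi))
    (hK4 : ∀ k : ℤ, ∫ y in (0:ℝ)..(2 * Real.pi), cexp (-(I * (k:ℂ) * (y:ℂ))) * (K y : ℂ) = (sym α k : ℂ))
    (f : ℝ → ℂ) (hf : ContDiff ℝ 2 f) (hp : Function.Periodic f (2 * Real.pi)) (x : ℝ) :
    absD α f x = ∫ y in (0:ℝ)..(2 * Real.pi), (K y : ℂ) * f (x - y) := by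
  have hpi := Real.two_pi_pos
  have hKc : IntegrableOn (fun y => (K y : ℂ)) (Set.Ioc 0 (2 * Real.pi)) volume :=
    ((intervalIntegrable_iff_integrableOn_Ioc_of_le hpi.le).1 hK3).ofReal
  let F : ℤ → ℝ → ℂ := fun k y => (K y : ℂ) * (fc f k * cexp (I * (k:ℂ) * ((x - y : ℝ):ℂ)))
  have hnorm : ∀ k y, ‖F k y‖ = ‖fc f k‖ * ‖(K y : ℂ)‖ := by
    intro k y
    simp only [F]
    rw [norm_mul, norm_mul]
    have : ‖cexp (I * (k:ℂ) * ((x - y : ℝ):ℂ))‖ = 1 := by
      rw [Complex.norm_exp]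
      simp
    rw [this]
    ring
  have hFi : ∀ k, Integrable (F k) (volume.restrict (Set.Ioc 0 (2 * Real.pi))) := by
    intro k
    have : Integrable (fun y => (fc f k * cexp (I * (k:ℂ) * ((x - y : ℝ):ℂ))) * (K y : ℂ)) (volume.restrict (Set.Ioc 0 (2 * Real.pi))) := by
      apply Integrable.bdd_mul hKc (c := ‖fc f k‖)
      · apply Continuous.aestronglyMeasurable
        fun_prop
      · filter_upwards with y
        rw [norm_mul]
        have : ‖cexp (I * (k:ℂ) * ((x - y : ℝ):ℂ))‖ = 1 := by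
          rw [Complex.norm_exp]
          simp
        rw [this, mul_one]
    refine this.congr ?_
    filter_upwards with y
    simp only [F]
    ring
  have hsum : Summable (fun k => ∫ y, ‖F k y‖ ∂(volume.restrict (Set.Ioc 0 (2 * Real.pi)))) := by
    simp only [hnorm]
    simp only [integral_const_mul]
    exact (jk_fc_summable f hf hp).mul_right _
  have h := hasSum_integral_of_summable_integral_norm hFi hsum
  have h1 : (∫ a, ∑' i, F i a ∂(volume.restrict (Set.Ioc 0 (2 * Real.pi)))) = ∫ y in (0:ℝ)..(2 * Real.pi), (K y : ℂ) * f (x - y) := by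
    rw [intervalIntegral.integral_of_le hpi.le]
    congr 1
    funext y
    simp only [F]
    rw [tsum_mul_left, (jk_hasSum f hf hp (x - y)).tsum_eq]
  have h2 : ∀ k, (∫ a, F k a ∂(volume.restrict (Set.Ioc 0 (2 * Real.pi)))) = (sym α k : ℂ) * fc f k * cexp (I * (k:ℂ) * (x:ℂ)) := by
    intro k
    rw [← hK4 k, intervalIntegral.integral_of_le hpi.le]
    have : ∀ a, F k a = (fc f k * cexp (I * (k:ℂ) * (x:ℂ))) * (cexp (-(I * (k:ℂ) * (a:ℂ))) * (K a : ℂ)) := by
      intro a
      simp only [F]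
      have : cexp (I * (k:ℂ) * ((x - a : ℝ):ℂ)) = cexp (I * (k:ℂ) * (x:ℂ)) * cexp (-(I * (k:ℂ) * (a:ℂ))) := by
        rw [← Complex.exp_add]
        congr 1
        push_cast
        ring
      rw [this]
      ring
    simp only [this]
    rw [integral_const_mul]
    ring
  unfold absD
  rw [← h1, ← h.tsum_eq]
  congr 1
  funext k
  rw [h2]

theorem Lam_neg (α : ℝ) (hα : α < 0) (K : ℝ → ℝ) (hK1 : Measurable K) (hK2 : Function.Periodic K (2 * Real.pi))
    (hK3 : IntervalIntegrable K volume 0 (2 * Real.pi))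
    (hK4 : ∀ k : ℤ, ∫ y in (0:ℝ)..(2 * Real.pi), cexp (-(I * (k:ℂ) * (y:ℂ))) * (K y : ℂ) = (sym α k : ℂ)) :
    ∃ L : C(Cir, ℂ) →L[ℂ] C(Cir, ℂ), (∀ (a : ℝ) (g : C(Cir, ℂ)), L (tr a g) = tr a (L g)) ∧
    (∀ (f : ℝ → ℂ) (g : C(Cir, ℂ)), ContDiff ℝ 2 f → (∀ x : ℝ, g (x : Cir) = f x) →
      ∀ x : ℝ, L g (x : Cir) = absD α f x) := by
  have hpi := Real.two_pi_pos
  have hKc : IntervalIntegrable (fun y => (K y : ℂ)) volume 0 (2 * Real.pi) := by
    rw [intervalIntegrable_iff_integrableOn_Ioc_of_le hpi.le]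
    exact ((intervalIntegrable_iff_integrableOn_Ioc_of_le hpi.le).1 hK3).ofReal
  have hcoe : Continuous (fun y : ℝ => (y : Cir)) := AddCircle.continuous_mk' _
  have hint : ∀ (g : C(Cir, ℂ)) (θ : Cir), IntervalIntegrable (fun y => (K y : ℂ) * g (θ - (y : Cir))) volume 0 (2 * Real.pi) := by
    intro g θ
    exact hKc.mul_continuousOn (by fun_prop)
  have hcont : ∀ g : C(Cir, ℂ), Continuous (fun θ : Cir => ∫ y in (0:ℝ)..(2 * Real.pi), (K y : ℂ) * g (θ - (y : Cir))) := by
    intro g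
    apply intervalIntegral.continuous_of_dominated_interval (bound := fun y => ‖(K y : ℂ)‖ * ‖g‖)
    · intro θ
      have := (hint g θ).aestronglyMeasurable
      rw [Set.uIoc_of_le hpi.le]
      exact this
    · intro θ
      filter_upwards with y _
      rw [norm_mul]
      gcongr
      exact g.norm_coe_le_norm _
    · exact hKc.norm.mul_const _
    · filter_upwards with y _
      fun_prop
  let L0 : C(Cir, ℂ) →ₗ[ℂ] C(Cir, ℂ) :=
    { toFun := fun g => ⟨fun θ => ∫ y in (0:ℝ)..(2 * Real.pi), (K y : ℂ) * g (θ - (y : Cir)), hcont g⟩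
      map_add' := by
        intro g1 g2
        ext θ
        simp only [ContinuousMap.coe_mk, ContinuousMap.add_apply]
        rw [← intervalIntegral.integral_add (hint g1 θ) (hint g2 θ)]
        congr 1
        funext y
        ring
      map_smul' := by
        intro c g
        ext θ
        simp only [ContinuousMap.coe_mk, ContinuousMap.smul_apply, RingHom.id_apply, smul_eq_mul]
        rw [← intervalIntegral.integral_const_mul]
        congr 1
        funext y
        ring }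
  have hL0 : ∀ (g : C(Cir, ℂ)) (θ : Cir), L0 g θ = ∫ y in (0:ℝ)..(2 * Real.pi), (K y : ℂ) * g (θ - (y : Cir)) := fun g θ => rfl
  have hbd : ∀ g, ‖L0 g‖ ≤ (∫ y in (0:ℝ)..(2 * Real.pi), ‖(K y : ℂ)‖) * ‖g‖ := by
    intro g
    rw [ContinuousMap.norm_le _ (mul_nonneg (intervalIntegral.integral_nonneg hpi.le (fun _ _ => norm_nonneg _)) (norm_nonneg _))]
    intro θ
    rw [hL0]
    calc ‖∫ y in (0:ℝ)..(2 * Real.pi), (K y : ℂ) * g (θ - (y : Cir))‖ 
        ≤ ∫ y in (0:ℝ)..(2 * Real.pi), ‖(K y : ℂ) * g (θ - (y : Cir))‖ := intervalIntegral.norm_integral_le_integral_norm hpi.le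
      _ ≤ ∫ y in (0:ℝ)..(2 * Real.pi), ‖(K y : ℂ)‖ * ‖g‖ := by
        apply intervalIntegral.integral_mono_on hpi.le (hint g θ).norm (hKc.norm.mul_const _)
        intro y _
        rw [norm_mul]
        gcongr
        exact g.norm_coe_le_norm _
      _ = _ := by rw [intervalIntegral.integral_mul_const]
  refine ⟨L0.mkContinuous _ hbd, ?_, ?_⟩
  · intro a g
    ext θ
    have e1 : (L0.mkContinuous _ hbd) (tr a g) θ = L0 (tr a g) θ := rfl
    have e2 : tr a ((L0.mkContinuous _ hbd) g) θ = L0 g (θ + (a : Cir)) := rfl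
    rw [e1, e2, hL0, hL0]
    congr 1
    funext y
    have e3 : tr a g (θ - (y : Cir)) = g (θ - (y : Cir) + (a : Cir)) := rfl
    rw [e3]
    congr 2
    abel
  · intro f g hf hg x
    have hp : Function.Periodic f (2 * Real.pi) := by
      intro x
      rw [← hg, ← hg]
      congr 1
      push_cast
      rw [AddCircle.coe_add]
      simp
    rw [absD_kernel α hα K hK1 hK2 hK3 hK4 f hf hp x]
    have e1 : (L0.mkContinuous _ hbd) g (x : Cir) = L0 g (x : Cir) := rfl
    rw [e1, hL0]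
    congr 1
    funext y
    rw [← hg]
    rfl


end Xlamneg
end MMT
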