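import Pool.Agent.Helper823.MMT.Defs2
open Complex MeasureTheory Filter Topology Set
open scoped ContDiff ENNReal
namespace MMT
namespace Xlimit2

theorem limit_sol2_wpos (α : ℝ) (k : ℤ) : 0 < (1 + |(k:ℝ)|) ^ α := by positivity

theorem limit_sol2_wle (α : ℝ) (hα : α ≤ 0) (k : ℤ) : (1 + |(k:ℝ)|) ^ α ≤ 1 :=
  Real.rpow_le_one_of_one_le_of_nonpos (by linarith [abs_nonneg (k:ℝ)]) hα

theorem limit_sol2_tri (α : ℝ) (a b c : ℤ → ℂ) : hd α a c ≤ 2 * hd α a b + 2 * hd α b c := by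
  unfold hd
  rw [← ENNReal.tsum_mul_left, ← ENNReal.tsum_mul_left, ← ENNReal.tsum_add]
  apply ENNReal.tsum_le_tsum
  intro k
  have h2 : (2 : ℝ≥0∞) = ENNReal.ofReal 2 := by simp
  rw [h2, ← ENNReal.ofReal_mul (by norm_num), ← ENNReal.ofReal_mul (by norm_num),
    ← ENNReal.ofReal_add (by positivity) (by positivity)]
  apply ENNReal.ofReal_le_ofReal
  have h3 : ‖a k - c k‖ ≤ ‖a k - b k‖ + ‖b k - c k‖ := norm_sub_le_norm_sub_add_norm_sub _ _ _
  have h4 : ‖a k - c k‖ ^ 2 ≤ 2 * ‖a k - b k‖ ^ 2 + 2 * ‖b k - c k‖ ^ 2 := by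
    have h5 : ‖a k - c k‖ ^ 2 ≤ (‖a k - b k‖ + ‖b k - c k‖) ^ 2 :=
      pow_le_pow_left₀ (norm_nonneg _) h3 2
    nlinarith [sq_nonneg (‖a k - b k‖ - ‖b k - c k‖)]
  have h6 := mul_le_mul_of_nonneg_left h4 (limit_sol2_wpos α k).le
  linarith

theorem limit_sol2_symm (α : ℝ) (a b : ℤ → ℂ) : hd α a b = hd α b a := by
  unfold hd
  congr 1
  funext k
  rw [norm_sub_rev]

theorem limit_sol2_term (α : ℝ) (a b : ℤ → ℂ) (k : ℤ) :
    ENNReal.ofReal ((1 + |(k:ℝ)|) ^ α * ‖a k - b k‖ ^ 2) ≤ hd α a b :=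
  ENNReal.le_tsum k

theorem limit_sol2_fc (f : ℝ → ℂ) (k : ℤ) :
    fc f k = fourierCoeffOn Real.two_pi_pos f k := by
  rw [fourierCoeffOn_eq_integral, fc]
  rw [Complex.real_smul]
  have e1 : ((1 / (2 * Real.pi - 0) : ℝ) : ℂ) = (1 / (2 * Real.pi) : ℂ) := by
    push_cast
    rw [sub_zero]
  rw [e1]
  congr 1
  apply intervalIntegral.integral_congr
  intro x _
  show _ = fourier (-k) (x : AddCircle (2 * Real.pi - 0)) • f x
  rw [fourier_coe_apply, smul_eq_mul]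
  push_cast
  have : (Real.pi : ℂ) ≠ 0 := by exact_mod_cast Real.pi_ne_zero
  rw [sub_zero]
  field_simp

theorem limit_sol2_bessel (f : ℝ → ℂ) (hf : Continuous f) :
    HasSum (fun k : ℤ => ‖fc f k‖ ^ 2)
      ((2 * Real.pi)⁻¹ * ∫ x in (0:ℝ)..(2 * Real.pi), ‖f x‖ ^ 2) := by
  have h := hasSum_sq_fourierCoeffOn (f := f) Real.two_pi_pos
    ((memLp_two_iff_integrable_sq_norm hf.aestronglyMeasurable).2
      ((hf.norm.pow 2).integrableOn_Ioc))
  simp only [limit_sol2_fc]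
  rw [sub_zero, smul_eq_mul] at h
  exact h

theorem limit_sol2_le (α : ℝ) (hα : α ≤ 0) (f : ℝ → ℂ) (hf : Continuous f) (a b : ℤ → ℂ)
    (h : ∀ k, a k - b k = fc f k) :
    hd α a b ≤ ENNReal.ofReal ((2 * Real.pi)⁻¹ * ∫ x in (0:ℝ)..(2 * Real.pi), ‖f x‖ ^ 2) := by
  have hb := limit_sol2_bessel f hf
  rw [← hb.tsum_eq, ENNReal.ofReal_tsum_of_nonneg (fun k => by positivity) hb.summable]
  unfold hd
  apply ENNReal.tsum_le_tsum
  intro k
  apply ENNReal.ofReal_le_ofReal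
  rw [h k]
  calc (1 + |(k:ℝ)|) ^ α * ‖fc f k‖ ^ 2 ≤ 1 * ‖fc f k‖ ^ 2 :=
        mul_le_mul_of_nonneg_right (limit_sol2_wle α hα k) (by positivity)
    _ = _ := one_mul _

theorem limit_sol2_fcsub (f g : ℝ → ℂ) (hf : Continuous f) (hg : Continuous g) (k : ℤ) :
    fc f k - fc g k = fc (fun x => f x - g x) k := by
  unfold fc
  rw [← mul_sub, ← intervalIntegral.integral_sub]
  · congr 1
    apply intervalIntegral.integral_congr
    intro x _
    show _ - _ = _ * (f x - g x)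
    ring
  · apply Continuous.intervalIntegrable
    fun_prop
  · apply Continuous.intervalIntegrable
    fun_prop

theorem limit_sol2 (α : ℝ) (hα : α ≤ 0) (u₀ : ℤ → ℂ) (v : ℕ → ℝ → ℝ → ℂ) (hv : ∀ n, SG α (v n))
    (h0 : Tendsto (fun n => hd α (fc (v n 0)) u₀) atTop (𝓝 0))
    (h1 : ∀ T ε : ℝ, 0 < T → 0 < ε → ∃ N : ℕ, ∀ n ≥ N, ∀ m ≥ N, ∀ t ∈ Icc (-T) T,
      hd α (fc (v n t)) (fc (v m t)) ≤ ENNReal.ofReal ε) :
    ∃ u : ℝ → ℤ → ℂ, IsGlobalSol α u₀ u := by
  -- continuity of the solutions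
  have hvc : ∀ n, Continuous (fun p : ℝ × ℝ => v n p.1 p.2) := fun n => (hv n).1.continuous
  have hvt : ∀ n t, Continuous (v n t) := fun n t =>
    (hvc n).comp (Continuous.prodMk continuous_const continuous_id)
  -- the Cauchy property
  have hcau : ∀ (t : ℝ) (k : ℤ), CauchySeq (fun n => fc (v n t) k) := by
    intro t k
    rw [Metric.cauchySeq_iff']
    intro ε hε
    have hw := limit_sol2_wpos α k
    obtain ⟨N, hN⟩ := h1 (|t| + 1) ((1 + |(k:ℝ)|) ^ α * (ε / 2) ^ 2) (by positivity) (by positivity)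
    refine ⟨N, fun n hn => ?_⟩
    have h2 := (limit_sol2_term α _ _ k).trans (hN n hn N le_rfl t
      ⟨by linarith [neg_abs_le t], by linarith [le_abs_self t]⟩)
    rw [ENNReal.ofReal_le_ofReal_iff (by positivity)] at h2
    have h3 : ‖fc (v n t) k - fc (v N t) k‖ ^ 2 ≤ (ε / 2) ^ 2 := le_of_mul_le_mul_left h2 hw
    have h4 : ‖fc (v n t) k - fc (v N t) k‖ ≤ ε / 2 :=
      le_of_sq_le_sq h3 (by positivity)
    rw [dist_eq_norm]
    linarith
  have hlim : ∀ (t : ℝ) (k : ℤ), ∃ z, Tendsto (fun n => fc (v n t) k) atTop (𝓝 z) :=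
    fun t k => cauchySeq_tendsto_of_complete (hcau t k)
  choose u hu using hlim
  -- the limit estimate
  have hest : ∀ T ε : ℝ, 0 < T → 0 < ε → ∃ N : ℕ, ∀ n ≥ N, ∀ t ∈ Icc (-T) T,
      hd α (fc (v n t)) (u t) ≤ ENNReal.ofReal ε := by
    intro T ε hT hε
    obtain ⟨N, hN⟩ := h1 T ε hT hε
    refine ⟨N, fun n hn t ht => ?_⟩
    unfold hd
    rw [ENNReal.tsum_eq_iSup_sum]
    apply iSup_le
    intro s
    have htd : Tendsto (fun m => ∑ k ∈ s,
        ENNReal.ofReal ((1 + |(k:ℝ)|) ^ α * ‖fc (v n t) k - fc (v m t) k‖ ^ 2)) atTop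
        (𝓝 (∑ k ∈ s, ENNReal.ofReal ((1 + |(k:ℝ)|) ^ α * ‖fc (v n t) k - u t k‖ ^ 2))) := by
      apply tendsto_finsetSum
      intro k _
      apply ENNReal.tendsto_ofReal
      apply Tendsto.const_mul
      exact ((tendsto_const_nhds.sub (hu t k)).norm).pow 2
    apply le_of_tendsto htd
    filter_upwards [eventually_ge_atTop N] with m hm
    exact (ENNReal.sum_le_tsum s).trans (hN n hn m hm t ht)
  have hcont_n : ∀ n t, Tendsto (fun s => hd α (fc (v n s)) (fc (v n t))) (𝓝 t) (𝓝 0) := by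
    intro n t
    have h2 : Continuous (fun s => ∫ x in (0:ℝ)..(2 * Real.pi), ‖v n s x - v n t x‖ ^ 2) := by
      apply intervalIntegral.continuous_parametric_intervalIntegral_of_continuous'
      have h3 : Continuous (fun p : ℝ × ℝ => v n t p.2) := (hvt n t).comp continuous_snd
      exact ((hvc n).sub h3).norm.pow 2
    have h3 : Tendsto (fun s => ENNReal.ofReal ((2 * Real.pi)⁻¹ *
        ∫ x in (0:ℝ)..(2 * Real.pi), ‖v n s x - v n t x‖ ^ 2)) (𝓝 t) (𝓝 0) := by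
      have h4 := ENNReal.tendsto_ofReal ((h2.tendsto t).const_mul (2 * Real.pi)⁻¹)
      simpa using h4
    apply tendsto_of_tendsto_of_tendsto_of_le_of_le tendsto_const_nhds h3
    · intro s
      exact bot_le
    · intro s
      exact limit_sol2_le α hα (fun x => v n s x - v n t x) ((hvt n s).sub (hvt n t)) _ _
        (fun k => limit_sol2_fcsub _ _ (hvt n s) (hvt n t) k)
  refine ⟨u, ?_, ?_, ?_, ?_⟩
  · intro t
    obtain ⟨N, hN⟩ := hest (|t| + 1) 1 (by positivity) one_pos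
    have h2 := hN N le_rfl t ⟨by linarith [neg_abs_le t], by linarith [le_abs_self t]⟩
    have h3 := limit_sol2_tri α (u t) (fc (v N t)) 0
    have h4 : hd α (fc (v N t)) 0 ≤ _ := limit_sol2_le α hα (v N t) (hvt N t) (fc (v N t)) 0
      (fun k => by simp)
    rw [limit_sol2_symm α (u t) (fc (v N t))] at h3
    refine lt_of_le_of_lt h3 ?_
    apply ENNReal.add_lt_top.2
    exact ⟨ENNReal.mul_lt_top (by simp) (lt_of_le_of_lt h2 ENNReal.ofReal_lt_top),
      ENNReal.mul_lt_top (by simp) (lt_of_le_of_lt h4 ENNReal.ofReal_lt_top)⟩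
  · intro t
    rw [ENNReal.tendsto_nhds_zero]
    intro ε hε
    obtain ⟨ε', hε'0, hε'⟩ : ∃ ε' : ℝ, 0 < ε' ∧ ENNReal.ofReal (10 * ε') ≤ ε := by
      by_cases htop : ε = ⊤
      · exact ⟨1, one_pos, by rw [htop]; exact le_top⟩
      · refine ⟨ε.toReal / 10, div_pos (ENNReal.toReal_pos hε.ne' htop) (by norm_num), ?_⟩
        rw [mul_div_cancel₀ _ (by norm_num : (10:ℝ) ≠ 0), ENNReal.ofReal_toReal htop]
    obtain ⟨N, hN⟩ := hest (|t| + 1) ε' (by positivity) hε'0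
    have h2 := hN N le_rfl t ⟨by linarith [neg_abs_le t], by linarith [le_abs_self t]⟩
    have h3 := (ENNReal.tendsto_nhds_zero.1 (hcont_n N t)) (ENNReal.ofReal ε')
      (ENNReal.ofReal_pos.2 hε'0)
    have h4 : ∀ᶠ s in 𝓝 t, s ∈ Ioo (-(|t| + 1)) (|t| + 1) :=
      Ioo_mem_nhds (by linarith [neg_abs_le t]) (by linarith [le_abs_self t])
    filter_upwards [h3, h4] with s hs1 hs2
    have h5 := hN N le_rfl s ⟨hs2.1.le, hs2.2.le⟩
    have h6 := limit_sol2_tri α (u s) (fc (v N s)) (u t)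
    have h7 := limit_sol2_tri α (fc (v N s)) (fc (v N t)) (u t)
    rw [limit_sol2_symm α (u s) (fc (v N s))] at h6
    refine le_trans ?_ hε'
    calc hd α (u s) (u t) ≤ 2 * hd α (fc (v N s)) (u s) + 2 * hd α (fc (v N s)) (u t) := h6
      _ ≤ 2 * ENNReal.ofReal ε' + 2 * (2 * ENNReal.ofReal ε' + 2 * ENNReal.ofReal ε') := by
          gcongr
          exact h7.trans (by gcongr)
      _ = ENNReal.ofReal (10 * ε') := by
          rw [ENNReal.ofReal_mul (by norm_num)]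
          have : ENNReal.ofReal 10 = 10 := by simp
          rw [this]
          ring
  · funext k
    have hw := limit_sol2_wpos α k
    have h2 : Tendsto (fun n => ENNReal.ofReal ((1 + |(k:ℝ)|) ^ α * ‖fc (v n 0) k - u₀ k‖ ^ 2))
        atTop (𝓝 0) :=
      tendsto_of_tendsto_of_tendsto_of_le_of_le tendsto_const_nhds h0 (fun _ => bot_le)
        (fun n => limit_sol2_term α _ _ k)
    have h3 : Tendsto (fun n => ENNReal.ofReal ((1 + |(k:ℝ)|) ^ α * ‖fc (v n 0) k - u₀ k‖ ^ 2))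
        atTop (𝓝 (ENNReal.ofReal ((1 + |(k:ℝ)|) ^ α * ‖u 0 k - u₀ k‖ ^ 2))) := by
      apply ENNReal.tendsto_ofReal
      apply Tendsto.const_mul
      exact (((hu 0 k).sub tendsto_const_nhds).norm).pow 2
    have h4 := tendsto_nhds_unique h3 h2
    rw [ENNReal.ofReal_eq_zero] at h4
    have h5 : ‖u 0 k - u₀ k‖ ^ 2 ≤ 0 := by
      by_contra h6
      push Not at h6
      have := mul_pos hw h6
      linarith
    have h6 : ‖u 0 k - u₀ k‖ = 0 := by
      have := sq_nonneg ‖u 0 k - u₀ k‖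
      exact pow_eq_zero_iff (two_ne_zero) |>.1 (le_antisymm h5 this)
    exact sub_eq_zero.1 (norm_eq_zero.1 h6)
  · intro T hT
    refine ⟨fun n => v n 0, v, ?_, h0, ?_, ?_⟩
    · intro n
      refine ⟨?_, ((hv n).2 1 one_pos).periodic 0 (by norm_num)⟩
      have h2 : ContDiff ℝ ∞ (fun x : ℝ => ((0 : ℝ), x)) := contDiff_const.prodMk contDiff_id
      exact (hv n).1.comp h2
    · exact Eventually.of_forall (fun n => ⟨(hv n).2 T hT, rfl⟩)
    · rw [ENNReal.tendsto_nhds_zero]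
      intro ε hε
      obtain ⟨ε', hε'0, hε'⟩ : ∃ ε' : ℝ, 0 < ε' ∧ ENNReal.ofReal ε' ≤ ε := by
        by_cases htop : ε = ⊤
        · exact ⟨1, one_pos, by rw [htop]; exact le_top⟩
        · exact ⟨ε.toReal, ENNReal.toReal_pos hε.ne' htop, ENNReal.ofReal_toReal_le⟩
      obtain ⟨N, hN⟩ := hest T ε' hT hε'0
      filter_upwards [eventually_ge_atTop N] with n hn
      apply iSup₂_le
      intro t ht
      exact (hN n hn t ht).trans hε'


end Xlimit2
end MMT
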