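import Pool.Agent.Helper823.MMT.Defs2
open Complex MeasureTheory Filter Topology Set
open scoped ContDiff ENNReal
namespace MMT
namespace Xmterm


theorem mt_ii (f : ℝ → ℂ) (hf : Measurable f) (C : ℝ) (hC : ∀ x, ‖f x‖ ≤ C) (a b : ℝ) :
    IntervalIntegrable f volume a b := by
  rw [intervalIntegrable_iff]
  exact Measure.integrableOn_of_bounded (M := C) (by simp) hf.aestronglyMeasurable (ae_of_all _ hC)

theorem mt_meas_indp (a b : ℝ) : Measurable (indp a b) := by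
  unfold indp
  refine Measurable.ite ?_ measurable_const measurable_const
  have h : Measurable (fun x : ℝ => Int.fract (x / (2 * Real.pi)) * (2 * Real.pi)) := by
    refine Measurable.mul_const ?_ _
    exact measurable_fract.comp (measurable_id.div_const _)
  exact h measurableSet_Ico

theorem mt_indp_norm (a b x : ℝ) : ‖indp a b x‖ ≤ 1 := by
  unfold indp
  split_ifs <;> simp

theorem mt_exp_norm (k : ℤ) (x : ℝ) : ‖cexp (I * (k:ℂ) * (x:ℂ))‖ = 1 := by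
  have : I * (k:ℂ) * (x:ℂ) = (((k:ℝ) * x : ℝ) : ℂ) * I := by push_cast; ring
  rw [this, Complex.norm_exp_ofReal_mul_I]

theorem mt_exp_norm' (k : ℤ) (x : ℝ) : ‖cexp (-(I * (k:ℂ) * (x:ℂ)))‖ = 1 := by
  have : -(I * (k:ℂ) * (x:ℂ)) = ((-((k:ℝ) * x) : ℝ) : ℂ) * I := by push_cast; ring
  rw [this, Complex.norm_exp_ofReal_mul_I]

theorem mt_exp_norm2 (s t : ℝ) : ‖cexp (-(I * (s:ℂ) * (t:ℂ)))‖ = 1 := by
  have : -(I * (s:ℂ) * (t:ℂ)) = ((-(s * t) : ℝ) : ℂ) * I := by push_cast; ring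
  rw [this, Complex.norm_exp_ofReal_mul_I]

theorem mt_fc_lin (J : ℕ) (c : ℕ → ℂ) (f : ℕ → ℝ → ℂ) (hf : ∀ j, Measurable (f j)) (C : ℕ → ℝ)
    (hC : ∀ j x, ‖f j x‖ ≤ C j) (m : ℤ) :
    fc (fun x => ∑ j ∈ Finset.range J, c j * f j x) m = ∑ j ∈ Finset.range J, c j * fc (f j) m := by
  unfold fc
  have h1 : (fun x : ℝ => cexp (-(I * (m:ℂ) * (x:ℂ))) * ∑ j ∈ Finset.range J, c j * f j x)
      = fun x : ℝ => ∑ j ∈ Finset.range J, c j * (cexp (-(I * (m:ℂ) * (x:ℂ))) * f j x) := by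
    funext x
    rw [Finset.mul_sum]
    refine Finset.sum_congr rfl fun j _ => by ring
  rw [h1, intervalIntegral.integral_finsetSum]
  · rw [Finset.mul_sum]
    refine Finset.sum_congr rfl fun j _ => ?_
    rw [intervalIntegral.integral_const_mul]
    ring
  · intro j _
    refine IntervalIntegrable.const_mul ?_ _
    refine mt_ii _ ?_ (C j) ?_ _ _
    · refine Measurable.mul ?_ (hf j)
      have : Continuous (fun x : ℝ => cexp (-(I * (m:ℂ) * (x:ℂ)))) := by fun_prop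
      exact this.measurable
    · intro x
      rw [norm_mul, mt_exp_norm', one_mul]
      exact hC j x

theorem mt_hd_sum (α : ℝ) (J : ℕ) (c : ℕ → ℂ) (A B : ℕ → ℤ → ℂ) (D e : ℝ) (hD : 0 ≤ D) 
    (hc : ∀ j < J, ‖c j‖ ^ 2 ≤ D) (h : ∀ j < J, hd α (A j) (B j) ≤ ENNReal.ofReal e) :
    hd α (fun m => ∑ j ∈ Finset.range J, c j * A j m) (fun m => ∑ j ∈ Finset.range J, c j * B j m)
      ≤ ENNReal.ofReal (J * D) * (J * ENNReal.ofReal e) := by
  have hterm : ∀ m : ℤ, ENNReal.ofReal ((1 + |(m:ℝ)|) ^ α *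
      ‖(∑ j ∈ Finset.range J, c j * A j m) - ∑ j ∈ Finset.range J, c j * B j m‖ ^ 2) ≤
      ENNReal.ofReal (J * D) * ∑ j ∈ Finset.range J, 
        ENNReal.ofReal ((1 + |(m:ℝ)|) ^ α * ‖A j m - B j m‖ ^ 2) := by
    intro m
    have hw : 0 ≤ (1 + |(m:ℝ)|) ^ α := by positivity
    rw [← ENNReal.ofReal_sum_of_nonneg (fun j _ => by positivity), 
      ← ENNReal.ofReal_mul (by positivity)]
    refine ENNReal.ofReal_le_ofReal ?_
    rw [← Finset.sum_sub_distrib, ← Finset.mul_sum]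
    have h1 : ‖∑ j ∈ Finset.range J, (c j * A j m - c j * B j m)‖ ^ 2 ≤
        J * D * ∑ j ∈ Finset.range J, ‖A j m - B j m‖ ^ 2 := by
      have h2 : ‖∑ j ∈ Finset.range J, (c j * A j m - c j * B j m)‖ ≤ 
          ∑ j ∈ Finset.range J, ‖c j‖ * ‖A j m - B j m‖ := by
        refine (norm_sum_le _ _).trans (Finset.sum_le_sum fun j _ => ?_)
        rw [← mul_sub, norm_mul]
      have h3 : (∑ j ∈ Finset.range J, ‖c j‖ * ‖A j m - B j m‖) ^ 2 ≤ 
          J * ∑ j ∈ Finset.range J, (‖c j‖ * ‖A j m - B j m‖) ^ 2 := by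
        have := sq_sum_le_card_mul_sum_sq (s := Finset.range J) (f := fun j => ‖c j‖ * ‖A j m - B j m‖)
        simpa using this
      have h4 : ∑ j ∈ Finset.range J, (‖c j‖ * ‖A j m - B j m‖) ^ 2 ≤ 
          ∑ j ∈ Finset.range J, D * ‖A j m - B j m‖ ^ 2 := by
        refine Finset.sum_le_sum fun j hj => ?_
        rw [mul_pow]
        exact mul_le_mul_of_nonneg_right (hc j (Finset.mem_range.1 hj)) (by positivity)
      calc ‖∑ j ∈ Finset.range J, (c j * A j m - c j * B j m)‖ ^ 2 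
          ≤ (∑ j ∈ Finset.range J, ‖c j‖ * ‖A j m - B j m‖) ^ 2 := 
            pow_le_pow_left₀ (norm_nonneg _) h2 2
        _ ≤ _ := h3
        _ ≤ J * ∑ j ∈ Finset.range J, D * ‖A j m - B j m‖ ^ 2 := 
            mul_le_mul_of_nonneg_left h4 (by positivity)
        _ = _ := by rw [← Finset.mul_sum]; ring
    calc _ ≤ (1 + |(m:ℝ)|) ^ α * (J * D * ∑ j ∈ Finset.range J, ‖A j m - B j m‖ ^ 2) := 
          mul_le_mul_of_nonneg_left h1 hw
      _ = _ := by ring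
  unfold hd
  refine (ENNReal.tsum_le_tsum hterm).trans ?_
  rw [ENNReal.tsum_mul_left]
  refine mul_le_mul_right ?_ _
  rw [Summable.tsum_finsetSum (fun _ _ => ENNReal.summable)]
  have : ∑ j ∈ Finset.range J, ∑' m : ℤ, ENNReal.ofReal ((1 + |(m:ℝ)|) ^ α * ‖A j m - B j m‖ ^ 2) ≤ 
      ∑ j ∈ Finset.range J, ENNReal.ofReal e := Finset.sum_le_sum fun j hj => h j (Finset.mem_range.1 hj)
  refine this.trans ?_
  simp

theorem main_term (α : ℝ) (hα : α < 0) (hC : CMB α) (c0 : ℝ) (hc0 : 0 < c0) (n : ℕ) (hn : 1 ≤ n) (al be : ℕ → ℝ)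
    (hab : ∀ j < n ^ 3, 0 ≤ al j ∧ be j ≤ 2 * Real.pi ∧
        be j - al j = 2 * Real.pi * (c0 / ((n:ℝ) ^ 3 * Real.sqrt ((n:ℝ) ^ 4 + n * j)))) (k : ℤ) (ε : ℝ) (hε : 0 < ε) :
    ∃ N2 : ℕ, ∀ N : ℕ, N2 ≤ N → ∀ (E : ℕ → Set ℝ) (a : ℝ → ℂ) (z : ℂ), ‖z‖ = 1 →
      (∀ j < n ^ 3, ∀ x, (x ∈ E j ↔ indp (al j) (be j) (N * x) = 1)) →
      (∀ j < n ^ 3, ∀ x ∈ E j, a x = z * cexp (I * (k:ℂ) * (x:ℂ)) * ((Real.sqrt ((n:ℝ) ^ 4 + n * j) : ℝ) : ℂ)) →
      ∀ t : ℝ, hd α (fc (Pt n E (fun _ => a) t)) (fc (fun x => Dn n t * ((c0:ℂ) * z) * cexp (I * (k:ℂ) * (x:ℂ))))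
        ≤ ENNReal.ofReal ε := by
  have hnR : (1:ℝ) ≤ n := by exact_mod_cast hn
  have hnpos : (0:ℝ) < n := by linarith
  obtain ⟨N0, hN0⟩ := hC k (ε / (2 * (n:ℝ) ^ 10)) (by positivity)
  refine ⟨N0, fun N hN E a z hz hE ha t => ?_⟩
  set θ : ℕ → ℝ := fun j => (n:ℝ) ^ 4 + n * j with hθ
  have hθpos : ∀ j, 0 < θ j := fun j => by simp only [hθ]; positivity
  set c : ℕ → ℂ := fun j => cexp (-(I * ((θ j : ℝ) : ℂ) * (t:ℂ))) * z * ((Real.sqrt (θ j) : ℝ) : ℂ) with hcdef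
  have hcn : ∀ j < n ^ 3, ‖c j‖ ^ 2 ≤ 2 * (n:ℝ) ^ 4 := by
    intro j hj
    have : ‖c j‖ = Real.sqrt (θ j) := by
      simp only [hcdef]
      rw [norm_mul, norm_mul, mt_exp_norm2, hz, Complex.norm_real, Real.norm_eq_abs, 
        abs_of_nonneg (Real.sqrt_nonneg _)]
      ring
    rw [this, Real.sq_sqrt (hθpos j).le]
    simp only [hθ]
    have hj' : (j:ℝ) ≤ (n:ℝ) ^ 3 := by exact_mod_cast hj.le
    nlinarith
  have hind : ∀ j < n ^ 3, ∀ x, x ∉ E j → indp (al j) (be j) (N * x) = 0 := by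
    intro j hj x hx
    have h1 : ¬ indp (al j) (be j) (N * x) = 1 := fun h => hx ((hE j hj x).2 h)
    unfold indp at h1 ⊢
    split_ifs with h2
    · rw [if_pos h2] at h1
      exact absurd rfl h1
    · rfl
  have hP : (Pt n E (fun _ => a) t) = fun x => ∑ j ∈ Finset.range (n ^ 3), 
      c j * (indp (al j) (be j) (N * x) * cexp (I * (k:ℂ) * (x:ℂ))) := by
    funext x
    unfold Pt
    refine Finset.sum_congr rfl fun j hj => ?_
    have hj' := Finset.mem_range.1 hj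
    by_cases hx : x ∈ E j
    · rw [Set.indicator_of_mem hx, (hE j hj' x).1 hx]
      show _ * a x = _
      rw [ha j hj' x hx]
      simp only [hcdef, hθ]
      ring
    · rw [Set.indicator_of_notMem hx, hind j hj' x hx]
      ring
  have hQ : (fun x : ℝ => Dn n t * ((c0:ℂ) * z) * cexp (I * (k:ℂ) * (x:ℂ))) = 
      fun x : ℝ => ∑ j ∈ Finset.range (n ^ 3), 
      c j * ((((be j - al j) / (2 * Real.pi) : ℝ) : ℂ) * cexp (I * (k:ℂ) * (x:ℂ))) := by
    funext x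
    unfold Dn
    rw [Finset.mul_sum, Finset.sum_mul, Finset.sum_mul]
    refine Finset.sum_congr rfl fun j hj => ?_
    have hj' := Finset.mem_range.1 hj
    have hs : Real.sqrt (θ j) * ((be j - al j) / (2 * Real.pi)) = c0 / (n:ℝ) ^ 3 := by
      rw [(hab j hj').2.2]
      have h1 : Real.sqrt (θ j) ≠ 0 := (Real.sqrt_pos.2 (hθpos j)).ne'
      have h2 : Real.pi ≠ 0 := Real.pi_ne_zero
      have h3 : (n:ℝ) ≠ 0 := hnpos.ne'
      have h4 : Real.sqrt ((n:ℝ) ^ 4 + n * j) = Real.sqrt (θ j) := rfl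
      rw [h4]
      field_simp
    have hs' : ((Real.sqrt (θ j) : ℝ) : ℂ) * (((be j - al j) / (2 * Real.pi) : ℝ) : ℂ) = 
        (c0:ℂ) / (n:ℂ) ^ 3 := by
      rw [← Complex.ofReal_mul, hs]
      push_cast
      rfl
    have : c j * ((((be j - al j) / (2 * Real.pi) : ℝ) : ℂ) * cexp (I * (k:ℂ) * (x:ℂ))) = 
        cexp (-(I * ((θ j : ℝ) : ℂ) * (t:ℂ))) * z * (((Real.sqrt (θ j) : ℝ) : ℂ) * 
          (((be j - al j) / (2 * Real.pi) : ℝ) : ℂ)) * cexp (I * (k:ℂ) * (x:ℂ)) := by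
      simp only [hcdef]; ring
    rw [this, hs']
    simp only [hθ]
    ring
  rw [hP, hQ]
  have hF1 : fc (fun x => ∑ j ∈ Finset.range (n ^ 3), 
      c j * (indp (al j) (be j) (N * x) * cexp (I * (k:ℂ) * (x:ℂ)))) = fun m => 
      ∑ j ∈ Finset.range (n ^ 3), c j * fc (fun x => indp (al j) (be j) (N * x) * cexp (I * (k:ℂ) * (x:ℂ))) m := by
    funext m
    refine mt_fc_lin (n ^ 3) c (fun j x => indp (al j) (be j) (N * x) * cexp (I * (k:ℂ) * (x:ℂ))) ?_ 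
      (fun _ => 1) ?_ m
    · intro j
      refine Measurable.mul ?_ ?_
      · exact (mt_meas_indp _ _).comp (measurable_const.mul measurable_id)
      · have : Continuous (fun x : ℝ => cexp (I * (k:ℂ) * (x:ℂ))) := by fun_prop
        exact this.measurable
    · intro j x
      rw [norm_mul, mt_exp_norm, mul_one]
      exact mt_indp_norm _ _ _
  have hF2 : fc (fun x => ∑ j ∈ Finset.range (n ^ 3), 
      c j * ((((be j - al j) / (2 * Real.pi) : ℝ) : ℂ) * cexp (I * (k:ℂ) * (x:ℂ)))) = fun m => 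
      ∑ j ∈ Finset.range (n ^ 3), c j * fc (fun x => (((be j - al j) / (2 * Real.pi) : ℝ) : ℂ) * cexp (I * (k:ℂ) * (x:ℂ))) m := by
    funext m
    refine mt_fc_lin (n ^ 3) c (fun j x => (((be j - al j) / (2 * Real.pi) : ℝ) : ℂ) * cexp (I * (k:ℂ) * (x:ℂ))) ?_ 
      (fun j => ‖(((be j - al j) / (2 * Real.pi) : ℝ) : ℂ)‖) ?_ m
    · intro j
      refine Measurable.mul measurable_const ?_
      have : Continuous (fun x : ℝ => cexp (I * (k:ℂ) * (x:ℂ))) := by fun_prop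
      exact this.measurable
    · intro j x
      rw [norm_mul, mt_exp_norm, mul_one]
  rw [hF1, hF2]
  refine (mt_hd_sum α (n ^ 3) c _ _ (2 * (n:ℝ) ^ 4) (ε / (2 * (n:ℝ) ^ 10)) (by positivity) hcn ?_).trans ?_
  · intro j hj
    obtain ⟨h0, h1, h2⟩ := hab j hj
    refine hN0 N hN (al j) (be j) h0 ?_ h1
    have : 0 ≤ be j - al j := by
      rw [h2]
      positivity
    linarith
  · have hcast : (((n ^ 3 : ℕ) : ℝ≥0∞)) = ENNReal.ofReal ((n:ℝ) ^ 3) := by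
      rw [ENNReal.ofReal_pow (by positivity), ENNReal.ofReal_natCast]
      push_cast
      rfl
    rw [hcast, ← ENNReal.ofReal_mul (by positivity), ← ENNReal.ofReal_mul (by positivity)]
    refine ENNReal.ofReal_le_ofReal ?_
    push_cast
    have h3 : (n:ℝ) ≠ 0 := hnpos.ne'
    apply le_of_eq
    field_simp



end Xmterm
end MMT
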