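import Pool.Agent.Helper823.MMT.Defs2
open Complex MeasureTheory Filter Topology Set
open scoped ContDiff ENNReal
namespace MMT
namespace Xpot0

theorem pulse_pot0 (K : ℝ → ℝ) (κ V c0 : ℝ) (n : ℕ) (hn : 1 ≤ n) (hV : 0 ≤ V) (hc0 : 0 < c0) (B : ℝ → ℝ → ℂ)
    (E0 EL : Set ℝ) (E : ℕ → Set ℝ) (hK : Ker K κ) (hB : GS K B) (hP : Pulse K κ V c0 n B E0 EL E) (x : ℝ) :
    ∫ y in (0:ℝ)..(2 * Real.pi), (|K y| + 1) * ‖B 0 (x - y)‖ ≤ V * κ + 4 * κ * c0 + 2 := by
  have h2pi : (0:ℝ) ≤ 2 * Real.pi := Real.two_pi_pos.le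
  have hn1 : (1:ℝ) ≤ n := by exact_mod_cast hn
  have hn0 : (0:ℝ) < n := by linarith
  have hw : IntervalIntegrable (fun y => |K y| + 1) volume 0 (2 * Real.pi) :=
    hK.int.abs.add intervalIntegrable_const
  have hwm : Measurable (fun y => |K y| + 1) := by
    have := hK.meas
    fun_prop
  have hind : ∀ S : Set ℝ, MeasurableSet S → IntervalIntegrable (fun y => (|K y| + 1) *
      S.indicator (fun _ => (1:ℝ)) (x - y)) volume 0 (2 * Real.pi) := by
    intro S hS
    refine hw.mono_fun ?_ ?_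
    · apply Measurable.aestronglyMeasurable
      exact hwm.mul ((measurable_const.indicator hS).comp (measurable_const.sub measurable_id))
    · refine Filter.Eventually.of_forall fun y => ?_
      simp only
      rw [norm_mul]
      have h1 : ‖S.indicator (fun _ => (1:ℝ)) (x - y)‖ ≤ 1 := by
        by_cases hxy : x - y ∈ S
        · rw [Set.indicator_of_mem hxy]; simp
        · rw [Set.indicator_of_notMem hxy]; simp
      calc ‖|K y| + 1‖ * ‖S.indicator (fun _ => (1:ℝ)) (x - y)‖ ≤ ‖|K y| + 1‖ * 1 := by gcongr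
        _ = _ := mul_one _
  have hB0 : Continuous (B 0) :=
    hB.cont.comp (by fun_prop : Continuous fun z : ℝ => ((0:ℝ), z))
  have hLHS : IntervalIntegrable (fun y => (|K y| + 1) * ‖B 0 (x - y)‖) volume 0 (2 * Real.pi) :=
    hw.mul_continuousOn (by fun_prop)
  have hpt : ∀ z, ‖B 0 z‖ ≤ V + ∑ j ∈ Finset.range (n^3), 2 * (n:ℝ)^2 *
      (E j).indicator (fun _ => (1:ℝ)) z + 2 * (n:ℝ)^2 * EL.indicator (fun _ => (1:ℝ)) z := by
    intro z
    have hi : ∀ S : Set ℝ, 0 ≤ S.indicator (fun _ => (1:ℝ)) z :=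
      fun S => Set.indicator_nonneg (fun _ _ => zero_le_one) z
    have hs : 0 ≤ ∑ j ∈ Finset.range (n^3), 2 * (n:ℝ)^2 * (E j).indicator (fun _ => (1:ℝ)) z :=
      Finset.sum_nonneg fun j _ => mul_nonneg (by positivity) (hi (E j))
    have hl : 0 ≤ 2 * (n:ℝ)^2 * EL.indicator (fun _ => (1:ℝ)) z :=
      mul_nonneg (by positivity) (hi EL)
    rcases hP.cover z with h | h | ⟨j, hj, h⟩
    · have := hP.a0 z h
      linarith
    · have := hP.aL z
      rw [Set.indicator_of_mem h] at hl ⊢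
      linarith
    · have h1 := hP.aL z
      have h2 : 2 * (n:ℝ)^2 * (E j).indicator (fun _ => (1:ℝ)) z ≤
          ∑ j ∈ Finset.range (n^3), 2 * (n:ℝ)^2 * (E j).indicator (fun _ => (1:ℝ)) z :=
        Finset.single_le_sum (f := fun j => 2 * (n:ℝ)^2 * (E j).indicator (fun _ => (1:ℝ)) z)
          (fun j _ => mul_nonneg (by positivity) (hi (E j))) (Finset.mem_range.2 hj)
      rw [Set.indicator_of_mem h] at h2
      linarith
  have hI1 : IntervalIntegrable (fun y => V * (|K y| + 1)) volume 0 (2 * Real.pi) :=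
    hw.const_mul V
  have hI2 : ∀ j ∈ Finset.range (n^3), IntervalIntegrable (fun y => 2 * (n:ℝ)^2 * ((|K y| + 1) *
      (E j).indicator (fun _ => (1:ℝ)) (x - y))) volume 0 (2 * Real.pi) :=
    fun j _ => (hind (E j) (hP.mE j)).const_mul _
  have hI3 : IntervalIntegrable (fun y => 2 * (n:ℝ)^2 * ((|K y| + 1) *
      EL.indicator (fun _ => (1:ℝ)) (x - y))) volume 0 (2 * Real.pi) :=
    (hind EL hP.mL).const_mul _
  have hI2s : IntervalIntegrable (fun y => ∑ j ∈ Finset.range (n^3), 2 * (n:ℝ)^2 * ((|K y| + 1) *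
      (E j).indicator (fun _ => (1:ℝ)) (x - y))) volume 0 (2 * Real.pi) := by
    have e : (fun y => ∑ j ∈ Finset.range (n^3), 2 * (n:ℝ)^2 * ((|K y| + 1) *
      (E j).indicator (fun _ => (1:ℝ)) (x - y))) = ∑ j ∈ Finset.range (n^3),
      fun y => 2 * (n:ℝ)^2 * ((|K y| + 1) * (E j).indicator (fun _ => (1:ℝ)) (x - y)) := by
      funext y
      rw [Finset.sum_apply]
    rw [e]
    exact IntervalIntegrable.sum (Finset.range (n^3)) hI2
  have hle : ∫ y in (0:ℝ)..(2 * Real.pi), (|K y| + 1) * ‖B 0 (x - y)‖ ≤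
      ∫ y in (0:ℝ)..(2 * Real.pi), ((V * (|K y| + 1) +
        ∑ j ∈ Finset.range (n^3), 2 * (n:ℝ)^2 * ((|K y| + 1) *
          (E j).indicator (fun _ => (1:ℝ)) (x - y))) +
        2 * (n:ℝ)^2 * ((|K y| + 1) * EL.indicator (fun _ => (1:ℝ)) (x - y))) := by
    refine intervalIntegral.integral_mono_on h2pi hLHS ((hI1.add hI2s).add hI3) ?_
    intro y _
    have h1 : (0:ℝ) ≤ |K y| + 1 := by positivity
    have h2 := mul_le_mul_of_nonneg_left (hpt (x - y)) h1
    refine h2.trans (le_of_eq ?_)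
    rw [mul_add, mul_add, Finset.mul_sum]
    congr 1
    · congr 1
      · ring
      · exact Finset.sum_congr rfl fun j _ => by ring
    · ring
  refine hle.trans ?_
  rw [intervalIntegral.integral_add (hI1.add hI2s) hI3, intervalIntegral.integral_add hI1 hI2s,
    intervalIntegral.integral_finsetSum hI2, intervalIntegral.integral_const_mul, hK.bd,
    intervalIntegral.integral_const_mul]
  have hb2 : ∑ j ∈ Finset.range (n^3), ∫ y in (0:ℝ)..(2 * Real.pi), 2 * (n:ℝ)^2 * ((|K y| + 1) *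
      (E j).indicator (fun _ => (1:ℝ)) (x - y)) ≤ 4 * κ * c0 := by
    have h1 : ∀ j ∈ Finset.range (n^3), (∫ y in (0:ℝ)..(2 * Real.pi), 2 * (n:ℝ)^2 * ((|K y| + 1) *
        (E j).indicator (fun _ => (1:ℝ)) (x - y))) ≤
        2 * (n:ℝ)^2 * (2 * κ * c0 / (n:ℝ) ^ 5) := by
      intro j hj
      rw [intervalIntegral.integral_const_mul]
      exact mul_le_mul_of_nonneg_left (hP.potE j (Finset.mem_range.1 hj) x) (by positivity)
    refine (Finset.sum_le_sum h1).trans (le_of_eq ?_)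
    rw [Finset.sum_const, Finset.card_range, nsmul_eq_mul]
    push_cast
    field_simp
    ring
  have hb3 : 2 * (n:ℝ)^2 * ∫ y in (0:ℝ)..(2 * Real.pi), (|K y| + 1) *
      EL.indicator (fun _ => (1:ℝ)) (x - y) ≤ 2 := by
    have h1 : 2 * (n:ℝ)^2 * ∫ y in (0:ℝ)..(2 * Real.pi), (|K y| + 1) *
      EL.indicator (fun _ => (1:ℝ)) (x - y) ≤ 2 * (n:ℝ)^2 * (1 / (n:ℝ) ^ 5) :=
      mul_le_mul_of_nonneg_left (hP.potL x) (by positivity)
    refine h1.trans ?_
    have h3 : 2 * (n:ℝ)^2 * (1 / (n:ℝ) ^ 5) = 2 / (n:ℝ)^3 := by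
      field_simp
    rw [h3, div_le_iff₀ (by positivity)]
    have : (1:ℝ) ≤ (n:ℝ)^3 := one_le_pow₀ hn1
    linarith
  linarith


end Xpot0
end MMT
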