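import Pool.Agent.Helper823.MMT.Defs2
open Complex MeasureTheory Filter Topology Set
open scoped ContDiff ENNReal
namespace MMT
namespace Xpotf1

theorem pot_f1_int (K : ℝ → ℝ) (κ : ℝ) (hK : Ker K κ) (g : ℝ → ℝ) (hg : Measurable g) (M : ℝ)
    (hM : ∀ x, |g x| ≤ M) (x : ℝ) :
    IntervalIntegrable (fun y => (|K y| + 1) * g (x - y)) volume 0 (2 * Real.pi) := by
  have h1 : IntervalIntegrable (fun y => |K y| + 1) volume 0 (2 * Real.pi) :=
    hK.int.abs.add intervalIntegrable_const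
  rw [intervalIntegrable_iff] at h1 ⊢
  refine Integrable.mul_bdd (c := M) h1 ?_ ?_
  · exact (hg.comp (measurable_const.sub measurable_id)).aestronglyMeasurable
  · exact Filter.Eventually.of_forall fun y => hM (x - y)

theorem pot_f1_zero (n : ℕ) (E : ℕ → Set ℝ) (B : ℝ → ℝ → ℂ) (t x : ℝ)
    (h : ∀ j < n ^ 3, x ∉ E j) : Pt n E B t x = 0 := by
  unfold Pt
  refine Finset.sum_eq_zero fun j hj => ?_
  exact Set.indicator_of_notMem (h j (Finset.mem_range.1 hj)) _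

theorem pot_f1_one (n : ℕ) (E : ℕ → Set ℝ) (B : ℝ → ℝ → ℂ) (t x : ℝ) (j : ℕ) (hj : j < n ^ 3)
    (hx : x ∈ E j) (h : ∀ i < n ^ 3, i ≠ j → x ∉ E i) :
    Pt n E B t x = cexp (-(I * (((n:ℝ) ^ 4 + n * j : ℝ) : ℂ) * (t:ℂ))) * B 0 x := by
  unfold Pt
  rw [Finset.sum_eq_single j]
  · exact Set.indicator_of_mem hx _
  · intro i hi hij
    exact Set.indicator_of_notMem (h i (Finset.mem_range.1 hi) hij) _
  · intro hj'
    exact absurd (Finset.mem_range.2 hj) hj'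

theorem pot_f1_ind (S : Set ℝ) (x : ℝ) : 0 ≤ S.indicator (fun _ => (1:ℝ)) x ∧
    |S.indicator (fun _ => (1:ℝ)) x| ≤ 1 := by
  by_cases h : x ∈ S
  · rw [Set.indicator_of_mem h]
    norm_num
  · rw [Set.indicator_of_notMem h]
    norm_num

theorem pot_f1_pt (κ V c0 T C5 C6 W : ℝ) (hV : 0 ≤ V) (hT : 0 < T) (hC5 : 0 ≤ C5) (hC6 : 0 ≤ C6)
    (hW0 : 0 ≤ W) (n : ℕ) (K : ℝ → ℝ) (B v : ℝ → ℝ → ℂ) (E0 EL : Set ℝ) (E : ℕ → Set ℝ)
    (hn : 1 ≤ n) (hP : Pulse K κ V c0 n B E0 EL E) (t : ℝ)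
    (hv : ∀ x, ‖v t x‖ ≤ V) (hB : ∀ x, ‖B t x‖ ≤ ‖B 0 x‖ + T * W)
    (hE : ∀ j < n ^ 3, ∀ x ∈ E j,
        ‖B t x - cexp (-(I * (((n:ℝ) ^ 4 + n * j : ℝ) : ℂ) * (t:ℂ))) * B 0 x‖ ≤ C5 * n)
    (h0 : ∀ x ∈ E0, ‖B t x - v t x‖ ≤ C6 / n) (x : ℝ) :
    ‖B t x - v t x - Pt n E B t x‖ ≤ C6 / n +
      (2 * (n:ℝ) ^ 2 + T * W + V) * EL.indicator (fun _ => (1:ℝ)) x +
      ∑ j ∈ Finset.range (n ^ 3), (C5 * n + V) * (E j).indicator (fun _ => (1:ℝ)) x := by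
  have hnn : (0:ℝ) ≤ (n:ℝ) := Nat.cast_nonneg n
  have hTW : 0 ≤ T * W := mul_nonneg hT.le hW0
  have hcL : 0 ≤ 2 * (n:ℝ) ^ 2 + T * W + V := by positivity
  have hcE : 0 ≤ C5 * n + V := by positivity
  have h6 : 0 ≤ C6 / (n:ℝ) := by positivity
  have hL : 0 ≤ (2 * (n:ℝ) ^ 2 + T * W + V) * EL.indicator (fun _ => (1:ℝ)) x :=
    mul_nonneg hcL (pot_f1_ind _ _).1
  have hS : ∀ j ∈ Finset.range (n ^ 3),
      0 ≤ (C5 * n + V) * (E j).indicator (fun _ => (1:ℝ)) x :=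
    fun j _ => mul_nonneg hcE (pot_f1_ind _ _).1
  have hS' := Finset.sum_nonneg hS
  rcases hP.cover x with hx | hx | ⟨j, hj, hx⟩
  · rw [pot_f1_zero n E B t x (hP.d0E x hx), sub_zero]
    have := h0 x hx
    linarith
  · rw [pot_f1_zero n E B t x (hP.dLE x hx), sub_zero, Set.indicator_of_mem hx, mul_one]
    have h1 := norm_sub_le (B t x) (v t x)
    have h2 := hv x
    have h3 := hB x
    have h4 := hP.aL x
    linarith
  · rw [pot_f1_one n E B t x j hj hx (fun i hi hij hxi => hP.dEE i hi j hj hij x hxi hx)]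
    have h1 := Finset.single_le_sum hS (Finset.mem_range.2 hj)
    rw [Set.indicator_of_mem hx, mul_one] at h1
    have h2 := hE j hj x hx
    have h3 : B t x - v t x - cexp (-(I * (((n:ℝ) ^ 4 + n * j : ℝ) : ℂ) * (t:ℂ))) * B 0 x =
        (B t x - cexp (-(I * (((n:ℝ) ^ 4 + n * j : ℝ) : ℂ) * (t:ℂ))) * B 0 x) - v t x := by ring
    rw [h3]
    have h4 := norm_sub_le (B t x - cexp (-(I * (((n:ℝ) ^ 4 + n * j : ℝ) : ℂ) * (t:ℂ))) * B 0 x)
      (v t x)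
    have h5 := hv x
    linarith

theorem pot_f1 (κ V c0 T C5 C6 W : ℝ) (hκ : 0 < κ) (hV : 0 ≤ V) (hc0 : 0 < c0) (hT : 0 < T) (hC5 : 0 ≤ C5) (hC6 : 0 ≤ C6) (hW0 : 0 ≤ W) :
    ∃ C7 : ℝ, 0 < C7 ∧ ∀ (n : ℕ) (K : ℝ → ℝ) (B v : ℝ → ℝ → ℂ) (E0 EL : Set ℝ) (E : ℕ → Set ℝ), 1 ≤ n → Ker K κ →
      GS K B → GS K v → Pulse K κ V c0 n B E0 EL E → (∀ t ∈ Icc 0 T, ∀ x, ‖v t x‖ ≤ V) →
      (∀ t ∈ Icc 0 T, ∀ x, ‖B t x‖ ≤ ‖B 0 x‖ + T * W) →
      (∀ t ∈ Icc 0 T, ∀ j < n ^ 3, ∀ x ∈ E j,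
        ‖B t x - cexp (-(I * (((n:ℝ) ^ 4 + n * j : ℝ) : ℂ) * (t:ℂ))) * B 0 x‖ ≤ C5 * n) →
      (∀ t ∈ Icc 0 T, ∀ x ∈ E0, ‖B t x - v t x‖ ≤ C6 / n) →
      ∀ t ∈ Icc 0 T, Reg (fun x => B t x - v t x - Pt n E B t x) ∧
        ∀ x, ∫ y in (0:ℝ)..(2 * Real.pi), (|K y| + 1) * ‖B t (x - y) - v t (x - y) - Pt n E B t (x - y)‖ ≤ C7 / n := by
  refine ⟨κ * C6 + (2 + T * W + V) + (C5 + V) * (2 * κ * c0), by positivity, ?_⟩
  intro n K B v E0 EL E hn hK hGB hGv hP hv hB hE h0 t ht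
  have hpt := pot_f1_pt κ V c0 T C5 C6 W hV hT hC5 hC6 hW0 n K B v E0 EL E hn hP t (hv t ht)
    (hB t ht) (hE t ht) (h0 t ht)
  have hnn : (0:ℝ) ≤ (n:ℝ) := Nat.cast_nonneg n
  have hn1 : (1:ℝ) ≤ (n:ℝ) := by exact_mod_cast hn
  have hn0 : (0:ℝ) < (n:ℝ) := by linarith
  have hTW : 0 ≤ T * W := mul_nonneg hT.le hW0
  have hcL : 0 ≤ 2 * (n:ℝ) ^ 2 + T * W + V := by positivity
  have hcE : 0 ≤ C5 * n + V := by positivity
  have hBc : Continuous (B t) := hGB.cont.comp (by fun_prop : Continuous fun x : ℝ => (t, x))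
  have hB0 : Continuous (B 0) :=
    hGB.cont.comp (by fun_prop : Continuous fun x : ℝ => ((0:ℝ), x))
  have hvc : Continuous (v t) := hGv.cont.comp (by fun_prop : Continuous fun x : ℝ => (t, x))
  have hPm : Measurable (fun x => Pt n E B t x) := by
    unfold Pt
    refine Finset.measurable_fun_sum _ fun j _ => ?_
    exact (measurable_const.mul hB0.measurable).indicator (hP.mE j)
  have hfm : Measurable (fun x => B t x - v t x - Pt n E B t x) :=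
    (hBc.measurable.sub hvc.measurable).sub hPm
  have hbd : ∀ x, ‖B t x - v t x - Pt n E B t x‖ ≤ C6 / n + (2 * (n:ℝ) ^ 2 + T * W + V) * 1 +
      ∑ j ∈ Finset.range (n ^ 3), (C5 * n + V) * 1 := by
    intro x
    refine (hpt x).trans ?_
    have h1 : (2 * (n:ℝ) ^ 2 + T * W + V) * EL.indicator (fun _ => (1:ℝ)) x ≤
        (2 * (n:ℝ) ^ 2 + T * W + V) * 1 :=
      mul_le_mul_of_nonneg_left ((le_abs_self _).trans (pot_f1_ind _ _).2) hcL
    have h2 : ∑ j ∈ Finset.range (n ^ 3), (C5 * n + V) * (E j).indicator (fun _ => (1:ℝ)) x ≤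
        ∑ j ∈ Finset.range (n ^ 3), (C5 * n + V) * 1 :=
      Finset.sum_le_sum fun j _ =>
        mul_le_mul_of_nonneg_left ((le_abs_self _).trans (pot_f1_ind _ _).2) hcE
    linarith
  refine ⟨⟨hfm, ?_, _, hbd⟩, ?_⟩
  · intro x
    show B t (x + 2 * Real.pi) - v t (x + 2 * Real.pi) - Pt n E B t (x + 2 * Real.pi) = _
    rw [hGB.per t x, hGv.per t x]
    congr 1
    unfold Pt
    refine Finset.sum_congr rfl fun j _ => ?_
    by_cases hx : x ∈ E j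
    · rw [Set.indicator_of_mem hx, Set.indicator_of_mem ((hP.perE j x).2 hx), hGB.per 0 x]
    · rw [Set.indicator_of_notMem hx,
        Set.indicator_of_notMem (fun h => hx ((hP.perE j x).1 h))]
  · intro x
    have hmInd : ∀ S : Set ℝ, MeasurableSet S → Measurable (S.indicator (fun _ => (1:ℝ))) :=
      fun S hS => measurable_const.indicator hS
    have iL := pot_f1_int K κ hK _ (hmInd EL hP.mL) 1 (fun y => (pot_f1_ind _ _).2) x
    have iE : ∀ j, IntervalIntegrable (fun y => (|K y| + 1) *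
        (E j).indicator (fun _ => (1:ℝ)) (x - y)) volume 0 (2 * Real.pi) := fun j =>
      pot_f1_int K κ hK _ (hmInd (E j) (hP.mE j)) 1 (fun y => (pot_f1_ind _ _).2) x
    have i1 : IntervalIntegrable (fun y => |K y| + 1) volume 0 (2 * Real.pi) :=
      hK.int.abs.add intervalIntegrable_const
    have if1 : IntervalIntegrable (fun y => (|K y| + 1) *
        ‖B t (x - y) - v t (x - y) - Pt n E B t (x - y)‖) volume 0 (2 * Real.pi) :=
      pot_f1_int K κ hK (fun x => ‖B t x - v t x - Pt n E B t x‖) hfm.norm _ (fun y => by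
        rw [abs_of_nonneg (norm_nonneg _)]
        exact hbd y) x
    have iG1 : IntervalIntegrable (fun y => (C6 / n) * (|K y| + 1)) volume 0 (2 * Real.pi) :=
      i1.const_mul _
    have iG2 : IntervalIntegrable (fun y => (2 * (n:ℝ) ^ 2 + T * W + V) * ((|K y| + 1) *
        EL.indicator (fun _ => (1:ℝ)) (x - y))) volume 0 (2 * Real.pi) := iL.const_mul _
    have iG3' : ∀ j ∈ Finset.range (n ^ 3), IntervalIntegrable (fun y => (C5 * n + V) *
        ((|K y| + 1) * (E j).indicator (fun _ => (1:ℝ)) (x - y))) volume 0 (2 * Real.pi) :=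
      fun j _ => (iE j).const_mul _
    have iG3 : IntervalIntegrable (fun y => ∑ j ∈ Finset.range (n ^ 3), (C5 * n + V) *
        ((|K y| + 1) * (E j).indicator (fun _ => (1:ℝ)) (x - y))) volume 0 (2 * Real.pi) := by
      have := IntervalIntegrable.sum (Finset.range (n ^ 3)) iG3'
      refine this.congr (fun y _ => ?_)
      simp only [Finset.sum_apply]
    have hle : ∫ y in (0:ℝ)..(2 * Real.pi), (|K y| + 1) *
        ‖B t (x - y) - v t (x - y) - Pt n E B t (x - y)‖ ≤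
        ∫ y in (0:ℝ)..(2 * Real.pi), (((C6 / n) * (|K y| + 1) +
          (2 * (n:ℝ) ^ 2 + T * W + V) * ((|K y| + 1) * EL.indicator (fun _ => (1:ℝ)) (x - y))) +
          ∑ j ∈ Finset.range (n ^ 3), (C5 * n + V) *
            ((|K y| + 1) * (E j).indicator (fun _ => (1:ℝ)) (x - y))) := by
      refine intervalIntegral.integral_mono_on Real.two_pi_pos.le if1 ((iG1.add iG2).add iG3)
        (fun y _ => ?_)
      have h1 : 0 ≤ |K y| + 1 := by positivity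
      refine (mul_le_mul_of_nonneg_left (hpt (x - y)) h1).trans (le_of_eq ?_)
      rw [mul_add, mul_add, Finset.mul_sum]
      congr 1
      · ring
      · refine Finset.sum_congr rfl fun j _ => ?_
        ring
    refine hle.trans ?_
    rw [intervalIntegral.integral_add (iG1.add iG2) iG3, intervalIntegral.integral_add iG1 iG2,
      intervalIntegral.integral_finset_sum iG3', intervalIntegral.integral_const_mul,
      intervalIntegral.integral_const_mul, hK.bd]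
    have hsum : ∑ j ∈ Finset.range (n ^ 3), ∫ y in (0:ℝ)..(2 * Real.pi), (C5 * n + V) *
        ((|K y| + 1) * (E j).indicator (fun _ => (1:ℝ)) (x - y)) ≤
        ∑ j ∈ Finset.range (n ^ 3), (C5 * n + V) * (2 * κ * c0 / (n:ℝ) ^ 5) := by
      refine Finset.sum_le_sum fun j hj => ?_
      rw [intervalIntegral.integral_const_mul]
      exact mul_le_mul_of_nonneg_left (hP.potE j (Finset.mem_range.1 hj) x) hcE
    rw [Finset.sum_const, Finset.card_range, nsmul_eq_mul] at hsum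
    have hL := mul_le_mul_of_nonneg_left (hP.potL x) hcL
    have hL2 : (2 * (n:ℝ) ^ 2 + T * W + V) * (1 / (n:ℝ) ^ 5) ≤ (2 + T * W + V) / n := by
      rw [mul_one_div, div_le_div_iff₀ (by positivity) hn0]
      have e1 : (n:ℝ) ≤ (n:ℝ) ^ 5 := by
        calc (n:ℝ) = (n:ℝ) ^ 1 := (pow_one _).symm
          _ ≤ (n:ℝ) ^ 5 := pow_le_pow_right₀ hn1 (by norm_num)
      have e2 : (n:ℝ) ^ 3 ≤ (n:ℝ) ^ 5 := pow_le_pow_right₀ hn1 (by norm_num)
      have e3 : (T * W + V) * (n:ℝ) ≤ (T * W + V) * (n:ℝ) ^ 5 :=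
        mul_le_mul_of_nonneg_left e1 (by positivity)
      calc (2 * (n:ℝ) ^ 2 + T * W + V) * (n:ℝ) = 2 * (n:ℝ) ^ 3 + (T * W + V) * (n:ℝ) := by ring
        _ ≤ 2 * (n:ℝ) ^ 5 + (T * W + V) * (n:ℝ) ^ 5 := by linarith
        _ = (2 + T * W + V) * (n:ℝ) ^ 5 := by ring
    have hE2 : ((n ^ 3 : ℕ) : ℝ) * ((C5 * n + V) * (2 * κ * c0 / (n:ℝ) ^ 5)) ≤
        (C5 + V) * (2 * κ * c0) / n := by
      have e0 : ((n ^ 3 : ℕ) : ℝ) * ((C5 * n + V) * (2 * κ * c0 / (n:ℝ) ^ 5)) =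
          ((C5 * n + V) * (2 * κ * c0)) / (n:ℝ) ^ 2 := by
        push_cast
        field_simp
      rw [e0, div_le_div_iff₀ (by positivity) hn0]
      have e1 : V * (n:ℝ) ≤ V * (n:ℝ) ^ 2 := by
        refine mul_le_mul_of_nonneg_left ?_ hV
        nlinarith
      have e2 : 0 ≤ 2 * κ * c0 := by positivity
      have e3 : (C5 * n + V) * (n:ℝ) ≤ (C5 + V) * (n:ℝ) ^ 2 := by
        calc (C5 * n + V) * (n:ℝ) = C5 * (n:ℝ) ^ 2 + V * (n:ℝ) := by ring
          _ ≤ C5 * (n:ℝ) ^ 2 + V * (n:ℝ) ^ 2 := by linarith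
          _ = (C5 + V) * (n:ℝ) ^ 2 := by ring
      calc (C5 * n + V) * (2 * κ * c0) * (n:ℝ) = ((C5 * n + V) * (n:ℝ)) * (2 * κ * c0) := by ring
        _ ≤ ((C5 + V) * (n:ℝ) ^ 2) * (2 * κ * c0) := mul_le_mul_of_nonneg_right e3 e2
        _ = (C5 + V) * (2 * κ * c0) * (n:ℝ) ^ 2 := by ring
    have hfin : (κ * C6 + (2 + T * W + V) + (C5 + V) * (2 * κ * c0)) / (n:ℝ) =
        C6 / n * κ + (2 + T * W + V) / n + (C5 + V) * (2 * κ * c0) / n := by ring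
    rw [hfin]
    linarith


end Xpotf1
end MMT
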