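import Pool.Agent.Helper823.MMT.Defs2
open Complex MeasureTheory Filter Topology Set
open scoped ContDiff ENNReal
namespace MMT
namespace Xpstep

theorem ps_int_bound (K : ℝ → ℝ) (κ : ℝ) (hK : Ker K κ) (x : ℝ) (N : ℕ) (E : ℕ → Set ℝ) (EL : Set ℝ)
    (hE : ∀ j, MeasurableSet (E j)) (hL : MeasurableSet EL) (om : ℕ → ℝ) (o0 oL : ℝ) (Ω : ℝ → ℝ)
    (hΩ0 : ∀ z, 0 ≤ Ω z)
    (hΩ : ∀ z, Ω z ≤ (∑ l ∈ Finset.range N, om l * (E l).indicator (fun _ => (1:ℝ)) z) + o0 +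
      oL * EL.indicator (fun _ => (1:ℝ)) z) :
    ∫ y in (0:ℝ)..(2 * Real.pi), |K y| * Ω (x - y) ≤
      (∑ l ∈ Finset.range N, om l * ∫ y in (0:ℝ)..(2 * Real.pi),
        (|K y| + 1) * (E l).indicator (fun _ => (1:ℝ)) (x - y)) + o0 * κ +
      oL * ∫ y in (0:ℝ)..(2 * Real.pi), (|K y| + 1) * EL.indicator (fun _ => (1:ℝ)) (x - y) := by
  have h2pi : (0:ℝ) ≤ 2 * Real.pi := Real.two_pi_pos.le
  have hint : IntervalIntegrable (fun y => |K y| + 1) volume 0 (2 * Real.pi) :=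
    hK.int.abs.add intervalIntegrable_const
  have hind : ∀ F : Set ℝ, MeasurableSet F → IntervalIntegrable
      (fun y => (|K y| + 1) * F.indicator (fun _ => (1:ℝ)) (x - y)) volume 0 (2 * Real.pi) := by
    intro F hF
    have e : (fun y => (|K y| + 1) * F.indicator (fun _ => (1:ℝ)) (x - y)) =
        ((fun y => x - y) ⁻¹' F).indicator (fun y => |K y| + 1) := by
      funext y
      by_cases h : x - y ∈ F
      · rw [indicator_of_mem h, indicator_of_mem (show y ∈ (fun y => x - y) ⁻¹' F from h), mul_one]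
      · rw [indicator_of_notMem h, indicator_of_notMem (show y ∉ (fun y => x - y) ⁻¹' F from h),
          mul_zero]
    rw [e, intervalIntegrable_iff]
    rw [intervalIntegrable_iff] at hint
    exact hint.indicator ((measurable_const.sub measurable_id) hF)
  have hg : (fun y => (|K y| + 1) * ((∑ l ∈ Finset.range N,
      om l * (E l).indicator (fun _ => (1:ℝ)) (x - y)) + o0 +
        oL * EL.indicator (fun _ => (1:ℝ)) (x - y))) =
      fun y => (∑ l ∈ Finset.range N, om l * ((|K y| + 1) *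
        (E l).indicator (fun _ => (1:ℝ)) (x - y))) + o0 * (|K y| + 1) +
        oL * ((|K y| + 1) * EL.indicator (fun _ => (1:ℝ)) (x - y)) := by
    funext y
    rw [mul_add, mul_add, Finset.mul_sum]
    congr 1
    · congr 1
      · exact Finset.sum_congr rfl fun l _ => by ring
      · ring
    · ring
  have hI1 : ∀ l ∈ Finset.range N, IntervalIntegrable (fun y => om l * ((|K y| + 1) *
      (E l).indicator (fun _ => (1:ℝ)) (x - y))) volume 0 (2 * Real.pi) :=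
    fun l _ => (hind _ (hE l)).const_mul _
  have hI1s : IntervalIntegrable (fun y => ∑ l ∈ Finset.range N, om l * ((|K y| + 1) *
      (E l).indicator (fun _ => (1:ℝ)) (x - y))) volume 0 (2 * Real.pi) := by
    rw [intervalIntegrable_iff]
    refine integrable_finsetSum _ (fun l hl => ?_)
    have := hI1 l hl
    rwa [intervalIntegrable_iff] at this
  have hI2 : IntervalIntegrable (fun y => o0 * (|K y| + 1)) volume 0 (2 * Real.pi) :=
    hint.const_mul _
  have hI3 : IntervalIntegrable (fun y => oL * ((|K y| + 1) *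
      EL.indicator (fun _ => (1:ℝ)) (x - y))) volume 0 (2 * Real.pi) := (hind _ hL).const_mul _
  calc ∫ y in (0:ℝ)..(2 * Real.pi), |K y| * Ω (x - y)
      ≤ ∫ y in (0:ℝ)..(2 * Real.pi), (|K y| + 1) * ((∑ l ∈ Finset.range N,
      om l * (E l).indicator (fun _ => (1:ℝ)) (x - y)) + o0 +
        oL * EL.indicator (fun _ => (1:ℝ)) (x - y)) := by
        rw [intervalIntegral.integral_of_le h2pi, intervalIntegral.integral_of_le h2pi]
        apply integral_mono_of_nonneg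
        · exact Eventually.of_forall fun y => mul_nonneg (abs_nonneg _) (hΩ0 _)
        · rw [hg]
          have := (hI1s.add hI2).add hI3
          rw [intervalIntegrable_iff_integrableOn_Ioc_of_le h2pi] at this
          exact this
        · refine Eventually.of_forall fun y => ?_
          have h1 := hΩ (x - y)
          have h2 := hΩ0 (x - y)
          have h3 : 0 ≤ |K y| := abs_nonneg _
          calc |K y| * Ω (x - y) ≤ (|K y| + 1) * Ω (x - y) := by nlinarith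
            _ ≤ _ := mul_le_mul_of_nonneg_left h1 (by linarith)
    _ = _ := by
        rw [hg, intervalIntegral.integral_add (hI1s.add hI2) hI3,
          intervalIntegral.integral_add hI1s hI2, intervalIntegral.integral_finsetSum hI1]
        simp_rw [intervalIntegral.integral_const_mul]
        rw [hK.bd]

theorem ps_w_bd (K : ℝ → ℝ) (κ : ℝ) (B : ℝ → ℝ → ℂ) (hK : Ker K κ) (hB : GS K B) (s x : ℝ) :
    ‖∫ y in (0:ℝ)..(2 * Real.pi), (K y : ℂ) * B s (x - y)‖ ≤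
      ∫ y in (0:ℝ)..(2 * Real.pi), (|K y| + 1) * ‖B s (x - y)‖ := by
  have h2pi : (0:ℝ) ≤ 2 * Real.pi := Real.two_pi_pos.le
  have hint : IntervalIntegrable (fun y => |K y| + 1) volume 0 (2 * Real.pi) :=
    hK.int.abs.add intervalIntegrable_const
  have hc : Continuous (fun y => ‖B s (x - y)‖) := by
    have h1 : Continuous (fun y : ℝ => (s, x - y)) := by fun_prop
    exact (hB.cont.comp h1).norm
  refine (intervalIntegral.norm_integral_le_integral_norm h2pi).trans ?_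
  rw [intervalIntegral.integral_of_le h2pi, intervalIntegral.integral_of_le h2pi]
  apply integral_mono_of_nonneg
  · exact Eventually.of_forall fun y => norm_nonneg _
  · have := hint.mul_continuousOn hc.continuousOn
    rw [intervalIntegrable_iff_integrableOn_Ioc_of_le h2pi] at this
    exact this
  · refine Eventually.of_forall fun y => ?_
    show ‖(K y : ℂ) * B s (x - y)‖ ≤ (|K y| + 1) * ‖B s (x - y)‖
    rw [norm_mul, Complex.norm_real, Real.norm_eq_abs]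
    have := norm_nonneg (B s (x - y))
    nlinarith

theorem ps_w_cont (K : ℝ → ℝ) (κ : ℝ) (B : ℝ → ℝ → ℂ) (hK : Ker K κ) (hB : GS K B) (x : ℝ) :
    Continuous (fun s => ∫ y in (0:ℝ)..(2 * Real.pi), (K y : ℂ) * B s (x - y)) := by
  rw [continuous_iff_continuousAt]
  intro s0
  have hcomp : IsCompact (Icc (s0 - 1) (s0 + 1) ×ˢ Icc (x - 2 * Real.pi) x) :=
    isCompact_Icc.prod isCompact_Icc
  obtain ⟨M, hM⟩ := hcomp.exists_bound_of_continuousOn hB.cont.continuousOn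
  refine intervalIntegral.continuousAt_of_dominated_interval (bound := fun y => |K y| * M)
    ?_ ?_ ?_ ?_
  · refine Eventually.of_forall fun s => ?_
    have h1 : Continuous (fun y : ℝ => B s (x - y)) := by
      have h1 : Continuous (fun y : ℝ => (s, x - y)) := by fun_prop
      exact hB.cont.comp h1
    exact ((Complex.measurable_ofReal.comp hK.meas).mul h1.measurable).aestronglyMeasurable
  · have hnh : Icc (s0 - 1) (s0 + 1) ∈ 𝓝 s0 := Icc_mem_nhds (by linarith) (by linarith)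
    filter_upwards [hnh] with s hs
    refine Eventually.of_forall fun y hy => ?_
    rw [uIoc_of_le Real.two_pi_pos.le] at hy
    rw [norm_mul, Complex.norm_real, Real.norm_eq_abs]
    refine mul_le_mul_of_nonneg_left ?_ (abs_nonneg _)
    exact hM (s, x - y) ⟨hs, ⟨by linarith [hy.2], by linarith [hy.1]⟩⟩
  · exact hK.int.abs.mul_const M
  · refine Eventually.of_forall fun y _ => ?_
    have h1 : Continuous (fun s : ℝ => B s (x - y)) := by
      have h1 : Continuous (fun s : ℝ => (s, x - y)) := by fun_prop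
      exact hB.cont.comp h1
    exact (continuous_const.mul h1).continuousAt

theorem ps_harm (n j : ℕ) (hn : 1 ≤ n) (hj : j < n ^ 3) :
    ∑ l ∈ Finset.range (n ^ 3), 1 / |(j : ℝ) - l| ≤ 8 * n := by
  have hN : (1 : ℝ) ≤ n := by exact_mod_cast hn
  have hH : ∀ k : ℕ, k ≤ n ^ 3 → ∑ i ∈ Finset.range k, 1 / ((i : ℝ) + 1) ≤ 1 + 3 * n := by
    intro k hk
    have h1 := harmonic_le_one_add_log k
    have h2 : ((harmonic k : ℚ) : ℝ) = ∑ i ∈ Finset.range k, 1 / ((i : ℝ) + 1) := by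
      unfold harmonic
      push_cast
      refine Finset.sum_congr rfl fun i _ => ?_
      rw [one_div]
    rw [h2] at h1
    refine h1.trans ?_
    have h3 : Real.log k ≤ 3 * n := by
      rcases Nat.eq_zero_or_pos k with h0 | h0
      · subst h0
        simp
      · have h4 : Real.log k ≤ Real.log ((n : ℝ) ^ 3) := by
          apply Real.log_le_log (by exact_mod_cast h0)
          exact_mod_cast hk
        rw [Real.log_pow] at h4
        have h5 := Real.log_le_sub_one_of_pos (show (0:ℝ) < n by linarith)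
        push_cast at h4
        linarith
    linarith
  obtain ⟨m, hm⟩ : ∃ m, n ^ 3 = j + (m + 1) := ⟨n ^ 3 - j - 1, by omega⟩
  rw [hm, Finset.sum_range_add, Finset.sum_range_succ']
  have e1 : ∑ l ∈ Finset.range j, 1 / |(j : ℝ) - l| = ∑ i ∈ Finset.range j, 1 / ((i : ℝ) + 1) := by
    rw [← Finset.sum_range_reflect]
    refine Finset.sum_congr rfl fun i hi => ?_
    have hi' := Finset.mem_range.mp hi
    have h1 : ((j - 1 - i : ℕ) : ℝ) = (j : ℝ) - 1 - i := by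
      rw [Nat.cast_sub (by omega), Nat.cast_sub (by omega)]
      simp
    rw [h1]
    have h2 : (j : ℝ) - ((j : ℝ) - 1 - i) = (i : ℝ) + 1 := by ring
    rw [h2, abs_of_pos (by positivity)]
  have e2 : ∑ l ∈ Finset.range m, 1 / |(j : ℝ) - ((j + (l + 1) : ℕ) : ℝ)| =
      ∑ i ∈ Finset.range m, 1 / ((i : ℝ) + 1) := by
    refine Finset.sum_congr rfl fun i hi => ?_
    have h2 : (j : ℝ) - ((j + (i + 1) : ℕ) : ℝ) = -((i : ℝ) + 1) := by push_cast; ring
    rw [h2, abs_neg, abs_of_pos (by positivity)]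
  rw [e1, e2]
  have h1 := hH j hj.le
  have h2 := hH m (by omega)
  have h3 : (1 : ℝ) / |(j : ℝ) - ((j + 0 : ℕ) : ℝ)| = 0 := by simp
  rw [h3]
  linarith

theorem ps_arith1 (N T W D t : ℝ) (hN : 1 ≤ N) (hT : 0 ≤ T) (hW : 0 ≤ W) (hD : 0 < D)
    (ht0 : 0 ≤ t) (ht : t ≤ T) :
    (2 * (2 * N ^ 2) * (2 * N ^ 2) + t * ((2 * N ^ 2) * (1 * (2 * N ^ 2) + W) +
      (2 * N ^ 2) * (1 * (2 * N ^ 2) + W))) / (N * D) ≤
      N ^ 3 * (8 + 8 * T + 4 * T * W) * (1 / D) := by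
  have h24 : N ^ 2 ≤ N ^ 4 := pow_le_pow_right₀ hN (by norm_num)
  have hN4 : 0 ≤ N ^ 4 := by positivity
  have hnum : 2 * (2 * N ^ 2) * (2 * N ^ 2) + t * ((2 * N ^ 2) * (1 * (2 * N ^ 2) + W) +
      (2 * N ^ 2) * (1 * (2 * N ^ 2) + W)) ≤ N ^ 4 * (8 + 8 * T + 4 * T * W) := by
    have e : 2 * (2 * N ^ 2) * (2 * N ^ 2) + t * ((2 * N ^ 2) * (1 * (2 * N ^ 2) + W) +
      (2 * N ^ 2) * (1 * (2 * N ^ 2) + W)) = 8 * N ^ 4 + t * (8 * N ^ 4 + 4 * N ^ 2 * W) := by ring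
    rw [e]
    have h1 : 8 * N ^ 4 + 4 * N ^ 2 * W ≤ 8 * N ^ 4 + 4 * N ^ 4 * W := by nlinarith
    have h2 : t * (8 * N ^ 4 + 4 * N ^ 2 * W) ≤ T * (8 * N ^ 4 + 4 * N ^ 4 * W) :=
      mul_le_mul ht h1 (by positivity) hT
    calc 8 * N ^ 4 + t * (8 * N ^ 4 + 4 * N ^ 2 * W)
        ≤ 8 * N ^ 4 + T * (8 * N ^ 4 + 4 * N ^ 4 * W) := by linarith
      _ = _ := by ring
  calc _ ≤ N ^ 4 * (8 + 8 * T + 4 * T * W) / (N * D) :=
        div_le_div_of_nonneg_right hnum (by positivity)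
    _ = _ := by field_simp

theorem ps_arith2 (N T W V' A t : ℝ) (hN : 1 ≤ N) (hT : 0 ≤ T) (hW : 0 ≤ W) (hV : 0 ≤ V')
    (hA : N ^ 4 ≤ A) (ht0 : 0 ≤ t) (ht : t ≤ T) :
    (2 * (2 * N ^ 2) * V' + t * ((2 * N ^ 2) * (V' ^ 2 * V' + W) +
      V' * (1 * (2 * N ^ 2) + W))) / A ≤
      (4 * V' + T * (2 * V' ^ 3 + 2 * W + 2 * V' + V' * W)) / N ^ 2 := by
  have h12 : 1 ≤ N ^ 2 := one_le_pow₀ hN
  have hVW : 0 ≤ V' * W := mul_nonneg hV hW
  have hnum : 2 * (2 * N ^ 2) * V' + t * ((2 * N ^ 2) * (V' ^ 2 * V' + W) +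
      V' * (1 * (2 * N ^ 2) + W)) ≤
      N ^ 2 * (4 * V' + T * (2 * V' ^ 3 + 2 * W + 2 * V' + V' * W)) := by
    have h1 : (2 * N ^ 2) * (V' ^ 2 * V' + W) + V' * (1 * (2 * N ^ 2) + W) ≤
        N ^ 2 * (2 * V' ^ 3 + 2 * W + 2 * V' + V' * W) := by nlinarith
    have h2 : t * ((2 * N ^ 2) * (V' ^ 2 * V' + W) + V' * (1 * (2 * N ^ 2) + W)) ≤
        T * (N ^ 2 * (2 * V' ^ 3 + 2 * W + 2 * V' + V' * W)) :=
      mul_le_mul ht h1 (by positivity) hT
    calc _ ≤ 2 * (2 * N ^ 2) * V' + T * (N ^ 2 * (2 * V' ^ 3 + 2 * W + 2 * V' + V' * W)) := by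
          linarith
      _ = _ := by ring
  have hN4 : 0 < N ^ 4 := by positivity
  calc _ ≤ N ^ 2 * (4 * V' + T * (2 * V' ^ 3 + 2 * W + 2 * V' + V' * W)) / A :=
        div_le_div_of_nonneg_right hnum (by linarith)
    _ ≤ N ^ 2 * (4 * V' + T * (2 * V' ^ 3 + 2 * W + 2 * V' + V' * W)) / N ^ 4 :=
        div_le_div_of_nonneg_left (by positivity) hN4 hA
    _ = _ := by field_simp

theorem pulse_step (hW : WBD) (hO : OSC) (hDB : DBD) (κ V c0 T : ℝ) (hκ : 0 < κ) (hV : 0 ≤ V) (hc0 : 0 < c0) (hT : 0 < T)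
    (hpot : ∀ (K : ℝ → ℝ) (n : ℕ) (B : ℝ → ℝ → ℂ) (E0 EL : Set ℝ) (E : ℕ → Set ℝ), 1 ≤ n → Ker K κ → GS K B →
      Pulse K κ V c0 n B E0 EL E → ∀ x, ∫ y in (0:ℝ)..(2 * Real.pi), (|K y| + 1) * ‖B 0 (x - y)‖ ≤ V * κ + 4 * κ * c0 + 2) :
    ∃ C : ℝ, 0 < C ∧ ∀ (n : ℕ) (K : ℝ → ℝ) (B : ℝ → ℝ → ℂ) (E0 EL : Set ℝ) (E : ℕ → Set ℝ), 1 ≤ n → Ker K κ → GS K B →
      Pulse K κ V c0 n B E0 EL E → ∀ t ∈ Icc 0 T,
      (∀ s ∈ Icc 0 t, ∀ j < n ^ 3, ∀ x ∈ E j, |‖B s x‖ ^ 2 - ‖B 0 x‖ ^ 2| ≤ 1) →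
      ∀ j < n ^ 3, ∀ x ∈ E j, |‖B t x‖ ^ 2 - ‖B 0 x‖ ^ 2| ≤ C / n := by
  obtain ⟨W0, hW0⟩ : ∃ W0, W0 = V * κ + 4 * κ * c0 + 2 := ⟨_, rfl⟩
  have hW0pos : 0 < W0 := by rw [hW0]; positivity
  obtain ⟨W, hWd⟩ : ∃ W, W = W0 * Real.exp (κ * T) := ⟨_, rfl⟩
  have hWpos : 0 < W := by rw [hWd]; positivity
  obtain ⟨V', hV'⟩ : ∃ V', V' = V + T * W := ⟨_, rfl⟩
  have hV'pos : 0 < V' := by rw [hV']; positivity
  obtain ⟨C1, hC1⟩ : ∃ C1, C1 = 8 + 8 * T + 4 * T * W := ⟨_, rfl⟩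
  have hC1pos : 0 < C1 := by rw [hC1]; positivity
  obtain ⟨C2, hC2⟩ : ∃ C2, C2 = 4 * V' + T * (2 * V' ^ 3 + 2 * W + 2 * V' + V' * W) := ⟨_, rfl⟩
  have hC2pos : 0 < C2 := by rw [hC2]; positivity
  obtain ⟨C3, hC3⟩ : ∃ C3, C3 = 2 * T * (2 + T * W) := ⟨_, rfl⟩
  have hC3pos : 0 < C3 := by rw [hC3]; positivity
  refine ⟨2 * (16 * κ * c0 * C1 + 8 * κ * c0 * T + C2 * κ + C3), by positivity, ?_⟩
  intro n K B E0 EL E hn hK hB hP t ht hboot j hj x hx
  have hpot' := hpot K n B E0 EL E hn hK hB hP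
  rw [← hW0] at hpot'
  obtain ⟨N, hNd⟩ : ∃ N : ℝ, N = n := ⟨_, rfl⟩
  have hN : 1 ≤ N := by rw [hNd]; exact_mod_cast hn
  have hN0 : 0 < N := by linarith
  have hWs : ∀ s ∈ Icc 0 t, (∀ z, ∫ y in (0:ℝ)..(2 * Real.pi), (|K y| + 1) * ‖B s (z - y)‖ ≤ W) ∧
      ∀ z, ‖B s z‖ ≤ ‖B 0 z‖ + T * W := by
    intro s hs
    have h1 := hW K κ B W0 hK hB hpot' s hs.1
    have hsT : s ≤ T := hs.2.trans ht.2
    have h2 : W0 * Real.exp (κ * s) ≤ W := by
      rw [hWd]
      exact mul_le_mul_of_nonneg_left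
        (Real.exp_le_exp.mpr (mul_le_mul_of_nonneg_left hsT hκ.le)) hW0pos.le
    refine ⟨fun z => (h1.1 z).trans h2, fun z => (h1.2 z).trans ?_⟩
    have h3 : s * (W0 * Real.exp (κ * s)) ≤ T * W :=
      mul_le_mul hsT h2 (by positivity) hT.le
    linarith
  have hws : ∀ s ∈ Icc 0 t, ∀ z, ‖∫ y in (0:ℝ)..(2 * Real.pi), (K y : ℂ) * B s (z - y)‖ ≤ W :=
    fun s hs z => (ps_w_bd K κ B hK hB s z).trans ((hWs s hs).1 z)
  have hE1 : ∀ s ∈ Icc 0 t, ∀ l < n ^ 3, ∀ z ∈ E l, |‖B s z‖ ^ 2 - (N ^ 4 + N * l)| ≤ 1 := by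
    intro s hs l hl z hz
    have h1 := hboot s hs l hl z hz
    rw [hP.aE l hl z hz] at h1
    rw [hNd]
    exact h1
  have hE2 : ∀ s ∈ Icc 0 t, ∀ l < n ^ 3, ∀ z ∈ E l, ‖B s z‖ ≤ 2 * N ^ 2 := by
    intro s hs l hl z hz
    have h1 := (abs_le.mp (hE1 s hs l hl z hz)).2
    have h2 : (l : ℝ) ≤ N ^ 3 := by
      rw [hNd]
      exact_mod_cast hl.le
    have h3 : 1 ≤ N ^ 4 := one_le_pow₀ hN
    have h4 : N * l ≤ N * N ^ 3 := mul_le_mul_of_nonneg_left h2 hN0.le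
    refine (sq_le_sq₀ (norm_nonneg _) (by positivity)).mp ?_
    nlinarith
  have hl0 : ∀ l : ℕ, N ^ 4 ≤ N ^ 4 + N * (l : ℝ) := fun l => by
    have : 0 ≤ N * (l : ℝ) := by positivity
    linarith
  -- the oscillatory integral
  have hOm0 : ∀ z, 0 ≤ ‖∫ s in (0:ℝ)..t, (starRingEnd ℂ) (B s x) * B s z‖ := fun z => norm_nonneg _
  have htriv : ∀ z M', (∀ s ∈ Icc 0 t, ‖B s z‖ ≤ M') → 0 ≤ M' →
      ‖∫ s in (0:ℝ)..t, (starRingEnd ℂ) (B s x) * B s z‖ ≤ 2 * N ^ 2 * M' * T := by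
    intro z M' hM' hM0
    have h1 : ‖∫ s in (0:ℝ)..t, (starRingEnd ℂ) (B s x) * B s z‖ ≤ (2 * N ^ 2 * M') * |t - 0| := by
      apply intervalIntegral.norm_integral_le_of_norm_le_const
      intro s hs
      rw [uIoc_of_le ht.1] at hs
      have hs' : s ∈ Icc 0 t := ⟨hs.1.le, hs.2⟩
      rw [norm_mul, RCLike.norm_conj]
      exact mul_le_mul (hE2 s hs' j hj x hx) (hM' s hs') (norm_nonneg _) (by positivity)
    rw [sub_zero, abs_of_nonneg ht.1] at h1
    exact h1.trans (mul_le_mul_of_nonneg_left ht.2 (by positivity))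
  have hcE0 : ∀ z ∈ E0, ‖∫ s in (0:ℝ)..t, (starRingEnd ℂ) (B s x) * B s z‖ ≤ C2 / N ^ 2 := by
    intro z hz
    have hzb : ∀ s ∈ Icc 0 t, ‖B s z‖ ≤ V' := by
      intro s hs
      have h1 := (hWs s hs).2 z
      have h2 := hP.a0 z hz
      rw [hV']
      linarith
    have hA : N ^ 4 ≤ |N ^ 4 + N * (j : ℝ) - 0| := by
      rw [sub_zero]
      exact (hl0 j).trans (le_abs_self _)
    have hne : N ^ 4 + N * (j : ℝ) ≠ 0 := by
      have h1 := hl0 j
      have h2 : 0 < N ^ 4 := by positivity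
      linarith
    have h1 := hO (fun s => B s x) (fun s => B s z)
      (fun s => ∫ y in (0:ℝ)..(2 * Real.pi), (K y : ℂ) * B s (x - y))
      (fun s => ∫ y in (0:ℝ)..(2 * Real.pi), (K y : ℂ) * B s (z - y)) t (2 * N ^ 2) V' W
      (N ^ 4 + N * j) 0 1 (V' ^ 2) ht.1 (ps_w_cont K κ B hK hB x) (ps_w_cont K κ B hK hB z)
      (fun s _ => hB.der s x) (fun s _ => hB.der s z)
      (fun s hs => hE2 s hs j hj x hx) hzb (fun s hs => hws s hs x) (fun s hs => hws s hs z)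
      (fun s hs => hE1 s hs j hj x hx)
      (fun s hs => by
        rw [sub_zero, abs_of_nonneg (by positivity)]
        exact pow_le_pow_left₀ (norm_nonneg _) (hzb s hs) 2) hne
    refine h1.trans ?_
    rw [hC2]
    exact ps_arith2 N T W V' _ t hN hT.le hWpos.le hV'pos.le hA ht.1 ht.2
  have hcE : ∀ l < n ^ 3, l ≠ j → ∀ z ∈ E l,
      ‖∫ s in (0:ℝ)..t, (starRingEnd ℂ) (B s x) * B s z‖ ≤ N ^ 3 * C1 * (1 / |(j : ℝ) - l|) := by
    intro l hl hlj z hz
    have hjl : (j : ℝ) - l ≠ 0 := by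
      rw [sub_ne_zero]
      exact_mod_cast hlj.symm
    have hDpos : 0 < |(j : ℝ) - l| := abs_pos.mpr hjl
    have hAbs : |N ^ 4 + N * (j : ℝ) - (N ^ 4 + N * (l : ℝ))| = N * |(j : ℝ) - l| := by
      rw [← abs_of_pos hN0, ← abs_mul, abs_of_pos hN0]
      congr 1
      ring
    have hne : N ^ 4 + N * (j : ℝ) ≠ N ^ 4 + N * (l : ℝ) := by
      intro h
      have h2 : N * ((j : ℝ) - l) = 0 := by linarith
      rcases mul_eq_zero.mp h2 with h3 | h3
      · exact hN0.ne' h3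
      · exact hjl h3
    have h1 := hO (fun s => B s x) (fun s => B s z)
      (fun s => ∫ y in (0:ℝ)..(2 * Real.pi), (K y : ℂ) * B s (x - y))
      (fun s => ∫ y in (0:ℝ)..(2 * Real.pi), (K y : ℂ) * B s (z - y)) t (2 * N ^ 2) (2 * N ^ 2) W
      (N ^ 4 + N * j) (N ^ 4 + N * l) 1 1 ht.1 (ps_w_cont K κ B hK hB x) (ps_w_cont K κ B hK hB z)
      (fun s _ => hB.der s x) (fun s _ => hB.der s z)
      (fun s hs => hE2 s hs j hj x hx) (fun s hs => hE2 s hs l hl z hz)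
      (fun s hs => hws s hs x) (fun s hs => hws s hs z)
      (fun s hs => hE1 s hs j hj x hx) (fun s hs => hE1 s hs l hl z hz) hne
    refine h1.trans ?_
    rw [hAbs, hC1]
    exact ps_arith1 N T W _ t hN hT.le hWpos.le hDpos ht.1 ht.2
  -- pointwise bound
  obtain ⟨om, hom⟩ : ∃ om : ℕ → ℝ, om = fun l => (if l = j then 4 * T * N ^ 4 else 0) +
      N ^ 3 * C1 * (1 / |(j : ℝ) - l|) := ⟨_, rfl⟩
  have hom0 : ∀ l, 0 ≤ om l := by
    intro l
    rw [hom]
    have h1 : 0 ≤ (if l = j then 4 * T * N ^ 4 else 0) := by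
      split_ifs
      · positivity
      · exact le_rfl
    have h2 : 0 ≤ N ^ 3 * C1 * (1 / |(j : ℝ) - l|) := by positivity
    exact add_nonneg h1 h2
  have hindnn : ∀ (F : Set ℝ) (z : ℝ), 0 ≤ F.indicator (fun _ => (1:ℝ)) z := fun F z =>
    indicator_nonneg (fun _ _ => zero_le_one) z
  have hpt : ∀ z, ‖∫ s in (0:ℝ)..t, (starRingEnd ℂ) (B s x) * B s z‖ ≤
      (∑ l ∈ Finset.range (n ^ 3), om l * (E l).indicator (fun _ => (1:ℝ)) z) + C2 / N ^ 2 +
      (C3 * N ^ 4) * EL.indicator (fun _ => (1:ℝ)) z := by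
    intro z
    have hs0 : 0 ≤ ∑ l ∈ Finset.range (n ^ 3), om l * (E l).indicator (fun _ => (1:ℝ)) z :=
      Finset.sum_nonneg fun l _ => mul_nonneg (hom0 l) (hindnn _ _)
    have hm0 : 0 ≤ C2 / N ^ 2 := by positivity
    have hL0 : 0 ≤ (C3 * N ^ 4) * EL.indicator (fun _ => (1:ℝ)) z :=
      mul_nonneg (by positivity) (hindnn _ _)
    rcases hP.cover z with hz | hz | ⟨l, hl, hz⟩
    · have := hcE0 z hz
      linarith
    · have hzb : ∀ s ∈ Icc 0 t, ‖B s z‖ ≤ N ^ 2 * (2 + T * W) := by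
        intro s hs
        have h1 := (hWs s hs).2 z
        have h2 := hP.aL z
        rw [← hNd] at h2
        have h3 : 1 ≤ N ^ 2 := one_le_pow₀ hN
        have h4 : T * W ≤ N ^ 2 * (T * W) := le_mul_of_one_le_left (by positivity) h3
        nlinarith
      have h1 := htriv z _ hzb (by positivity)
      have h2 : (C3 * N ^ 4) * EL.indicator (fun _ => (1:ℝ)) z =
          2 * N ^ 2 * (N ^ 2 * (2 + T * W)) * T := by
        rw [indicator_of_mem hz, hC3]
        ring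
      rw [h2]
      linarith
    · have hsing : om l ≤ ∑ l ∈ Finset.range (n ^ 3), om l * (E l).indicator (fun _ => (1:ℝ)) z := by
        have h1 := Finset.single_le_sum
          (f := fun l => om l * (E l).indicator (fun _ => (1:ℝ)) z)
          (fun i _ => mul_nonneg (hom0 i) (hindnn _ _)) (Finset.mem_range.mpr hl)
        simp only [indicator_of_mem hz, mul_one] at h1
        exact h1
      have hle : ‖∫ s in (0:ℝ)..t, (starRingEnd ℂ) (B s x) * B s z‖ ≤ om l := by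
        by_cases hlj : l = j
        · have h1 := htriv z (2 * N ^ 2) (fun s hs => hE2 s hs l hl z hz) (by positivity)
          refine h1.trans ?_
          rw [hom]
          simp only [if_pos hlj]
          have h2 : 0 ≤ N ^ 3 * C1 * (1 / |(j : ℝ) - l|) := by positivity
          have h3 : 2 * N ^ 2 * (2 * N ^ 2) * T = 4 * T * N ^ 4 := by ring
          rw [h3]
          linarith
        · have h1 := hcE l hl hlj z hz
          refine h1.trans ?_
          rw [hom]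
          simp only [if_neg hlj, zero_add]
          exact le_rfl
      linarith
  have hfin := ps_int_bound K κ hK x (n ^ 3) E EL hP.mE hP.mL om (C2 / N ^ 2) (C3 * N ^ 4)
    (fun z => ‖∫ s in (0:ℝ)..t, (starRingEnd ℂ) (B s x) * B s z‖) hOm0 hpt
  have hD := hDB K κ B hK hB x t ht.1
  have hsum1 : ∑ l ∈ Finset.range (n ^ 3), om l * ∫ y in (0:ℝ)..(2 * Real.pi),
        (|K y| + 1) * (E l).indicator (fun _ => (1:ℝ)) (x - y) ≤
      (N ^ 4 * (4 * T + 8 * C1)) * (2 * κ * c0 / N ^ 5) := by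
    have h1 : ∑ l ∈ Finset.range (n ^ 3), om l * ∫ y in (0:ℝ)..(2 * Real.pi),
        (|K y| + 1) * (E l).indicator (fun _ => (1:ℝ)) (x - y) ≤
        ∑ l ∈ Finset.range (n ^ 3), om l * (2 * κ * c0 / N ^ 5) := by
      refine Finset.sum_le_sum fun l hl => mul_le_mul_of_nonneg_left ?_ (hom0 l)
      rw [hNd]
      exact hP.potE l (Finset.mem_range.mp hl) x
    have h2 : ∑ l ∈ Finset.range (n ^ 3), om l ≤ N ^ 4 * (4 * T + 8 * C1) := by
      rw [hom, Finset.sum_add_distrib, Finset.sum_ite_eq', if_pos (Finset.mem_range.mpr hj),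
        ← Finset.mul_sum]
      have h3 := ps_harm n j hn hj
      rw [← hNd] at h3
      have h4 : N ^ 3 * C1 * ∑ l ∈ Finset.range (n ^ 3), 1 / |(j : ℝ) - l| ≤
          N ^ 3 * C1 * (8 * N) := mul_le_mul_of_nonneg_left h3 (by positivity)
      calc _ ≤ 4 * T * N ^ 4 + N ^ 3 * C1 * (8 * N) := by linarith
        _ = _ := by ring
    rw [← Finset.sum_mul] at h1
    exact h1.trans (mul_le_mul_of_nonneg_right h2 (by positivity))
  have hsum2 : (C3 * N ^ 4) * ∫ y in (0:ℝ)..(2 * Real.pi),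
      (|K y| + 1) * EL.indicator (fun _ => (1:ℝ)) (x - y) ≤ (C3 * N ^ 4) * (1 / N ^ 5) := by
    refine mul_le_mul_of_nonneg_left ?_ (by positivity)
    rw [hNd]
    exact hP.potL x
  have e1 : (N ^ 4 * (4 * T + 8 * C1)) * (2 * κ * c0 / N ^ 5) =
      (16 * κ * c0 * C1 + 8 * κ * c0 * T) / N := by
    field_simp
    ring
  have e2 : (C3 * N ^ 4) * (1 / N ^ 5) = C3 / N := by
    field_simp
  have e3 : C2 / N ^ 2 * κ ≤ C2 * κ / N := by
    rw [div_mul_eq_mul_div]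
    apply div_le_div_of_nonneg_left (by positivity) hN0
    nlinarith
  rw [e1] at hsum1
  rw [e2] at hsum2
  rw [← hNd]
  have e4 : 2 * (16 * κ * c0 * C1 + 8 * κ * c0 * T + C2 * κ + C3) / N =
      2 * ((16 * κ * c0 * C1 + 8 * κ * c0 * T) / N + C2 * κ / N + C3 / N) := by
    field_simp
  rw [e4]
  refine hD.trans ?_
  linarith


end Xpstep
end MMT
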