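import Pool.Agent.Helper823.MMT.Defs2
open Complex MeasureTheory Filter Topology Set
open scoped ContDiff ENNReal
namespace MMT
namespace Xrot
theorem rot_close (B w : ℝ → ℂ) (t M W θ d : ℝ) (ht : 0 ≤ t)
    (hB : ∀ s ∈ Icc 0 t, HasDerivAt B (-I * (((‖B s‖ ^ 2 : ℝ) : ℂ) * B s + w s)) s)
    (hM : ∀ s ∈ Icc 0 t, ‖B s‖ ≤ M) (hW : ∀ s ∈ Icc 0 t, ‖w s‖ ≤ W)
    (hd : ∀ s ∈ Icc 0 t, |‖B s‖ ^ 2 - θ| ≤ d) :
    ‖B t - cexp (-(I * (θ:ℂ) * (t:ℂ))) * B 0‖ ≤ t * (d * M + W) := by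
  have hne : ∀ s : ℝ, ‖cexp (I * (θ:ℂ) * (s:ℂ))‖ = 1 := by
    intro s
    rw [Complex.norm_exp]
    simp
  have hE : ∀ s : ℝ, HasDerivAt (fun r : ℝ => cexp (I * (θ:ℂ) * (r:ℂ)))
      (cexp (I * (θ:ℂ) * (s:ℂ)) * (I * (θ:ℂ))) s := by
    intro s
    have h1 : HasDerivAt (fun r : ℝ => I * (θ:ℂ) * (r:ℂ)) (I * (θ:ℂ)) s := by
      have := (Complex.ofRealCLM.hasDerivAt (x := s)).const_mul (I * (θ:ℂ))
      simpa using this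
    exact h1.cexp
  have hb : ∀ s ∈ Icc 0 t, HasDerivWithinAt (fun r : ℝ => cexp (I * (θ:ℂ) * (r:ℂ)) * B r)
      (cexp (I * (θ:ℂ) * (s:ℂ)) * (I * (θ:ℂ)) * B s +
        cexp (I * (θ:ℂ) * (s:ℂ)) * (-I * (((‖B s‖ ^ 2 : ℝ) : ℂ) * B s + w s))) (Icc 0 t) s := by
    intro s hs
    exact ((hE s).mul (hB s hs)).hasDerivWithinAt
  have hbound : ∀ s ∈ Ico 0 t, ‖cexp (I * (θ:ℂ) * (s:ℂ)) * (I * (θ:ℂ)) * B s +
        cexp (I * (θ:ℂ) * (s:ℂ)) * (-I * (((‖B s‖ ^ 2 : ℝ) : ℂ) * B s + w s))‖ ≤ d * M + W := by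
    intro s hs
    have hs' : s ∈ Icc 0 t := ⟨hs.1, hs.2.le⟩
    have e1 : cexp (I * (θ:ℂ) * (s:ℂ)) * (I * (θ:ℂ)) * B s +
        cexp (I * (θ:ℂ) * (s:ℂ)) * (-I * (((‖B s‖ ^ 2 : ℝ) : ℂ) * B s + w s)) =
        cexp (I * (θ:ℂ) * (s:ℂ)) * (-I * (((‖B s‖ ^ 2 - θ : ℝ) : ℂ) * B s + w s)) := by
      push_cast
      ring
    rw [e1, norm_mul, hne, one_mul, norm_mul, norm_neg, Complex.norm_I, one_mul]
    refine (norm_add_le _ _).trans (add_le_add ?_ (hW s hs'))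
    rw [norm_mul, Complex.norm_real, Real.norm_eq_abs]
    exact mul_le_mul (hd s hs') (hM s hs') (norm_nonneg _) ((abs_nonneg _).trans (hd s hs'))
  have h1 := norm_image_sub_le_of_norm_deriv_le_segment' hb hbound t ⟨ht, le_rfl⟩
  have e2 : ‖B t - cexp (-(I * (θ:ℂ) * (t:ℂ))) * B 0‖ =
      ‖cexp (I * (θ:ℂ) * (t:ℂ)) * B t - cexp (I * (θ:ℂ) * ((0:ℝ):ℂ)) * B 0‖ := by
    have e3 : cexp (I * (θ:ℂ) * (t:ℂ)) * B t - cexp (I * (θ:ℂ) * ((0:ℝ):ℂ)) * B 0 =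
        cexp (I * (θ:ℂ) * (t:ℂ)) * (B t - cexp (-(I * (θ:ℂ) * (t:ℂ))) * B 0) := by
      have e4 : cexp (I * (θ:ℂ) * (t:ℂ)) * cexp (-(I * (θ:ℂ) * (t:ℂ))) = 1 := by
        rw [← Complex.exp_add, add_neg_cancel, Complex.exp_zero]
      have e5 : cexp (I * (θ:ℂ) * ((0:ℝ):ℂ)) = 1 := by simp
      rw [e5, mul_sub, ← mul_assoc, e4]
    rw [e3, norm_mul, hne, one_mul]
  rw [e2]
  calc _ ≤ (d * M + W) * (t - 0) := h1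
    _ = t * (d * M + W) := by ring


end Xrot
end MMT
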