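import Pool.Agent.Helper823.MMT.Defs2
open Complex MeasureTheory Filter Topology Set
open scoped ContDiff ENNReal
namespace MMT
namespace Xsmdep

theorem flow_smooth_abs {Y : Type} [NormedAddCommGroup Y] [NormedSpace ℝ Y] [CompleteSpace Y]
    (V : C(unitInterval, Y) →L[ℝ] C(unitInterval, Y))
    (hV : ∀ (U : C(unitInterval, Y)) (s : unitInterval),
        V U s = ∫ σ in (0:ℝ)..(s:ℝ), U (Set.projIcc (0:ℝ) 1 zero_le_one σ))
    (hVA : ∀ (A : C(unitInterval, Y) →L[ℝ] C(unitInterval, Y)) (m : ℝ), 0 ≤ m →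
        (∀ (U : C(unitInterval, Y)) (s : unitInterval), ‖A U s‖ ≤ m * ‖U s‖) →
        IsUnit (ContinuousLinearMap.id ℝ C(unitInterval, Y) - V.comp A))
    (F : Y → Y) (hF : ContDiff ℝ ∞ F) (G : C(unitInterval, Y) → C(unitInterval, Y)) (hG : ContDiff ℝ ∞ G)
    (hGF : ∀ U s, G U s = F (U s)) (φ : ℝ → Y → Y) (h0 : ∀ f, φ 0 f = f)
    (h1 : ∀ f t, HasDerivAt (fun s => φ s f) (F (φ t f)) t) :
    ContDiff ℝ ∞ (fun p : ℝ × Y => φ p.1 p.2) := by
  classical
  have hcy : ∀ y, Continuous (fun s => φ s y) := fun y =>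
    continuous_iff_continuousAt.2 fun t => (h1 y t).continuousAt
  have hFc : Continuous F := hF.continuous
  -- the implicit equation
  let cst : Y →L[ℝ] C(unitInterval, Y) := ContinuousLinearMap.const ℝ unitInterval
  let Ψ : (ℝ × Y) × C(unitInterval, Y) → C(unitInterval, Y) :=
    fun q => q.2 - cst q.1.2 - q.1.1 • V (G q.2)
  have hΨ : ContDiff ℝ ∞ Ψ := by
    have hVG : ContDiff ℝ ∞ (fun q : (ℝ × Y) × C(unitInterval, Y) => V (G q.2)) :=
      V.contDiff.comp (hG.comp contDiff_snd)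
    have hc : ContDiff ℝ ∞ (fun q : (ℝ × Y) × C(unitInterval, Y) => cst q.1.2) :=
      cst.contDiff.comp (contDiff_snd.comp contDiff_fst)
    have ht : ContDiff ℝ ∞ (fun q : (ℝ × Y) × C(unitInterval, Y) => q.1.1) :=
      contDiff_fst.comp contDiff_fst
    exact (contDiff_snd.sub hc).sub (ht.smul hVG)
  let Us : ℝ × Y → C(unitInterval, Y) := fun p =>
    ⟨fun s => φ (p.1 * s) p.2, (hcy p.2).comp (by fun_prop)⟩
  -- formula for V
  have hproj : ∀ (s : unitInterval) (σ : ℝ), σ ∈ Set.uIcc (0:ℝ) (s:ℝ) →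
      ((Set.projIcc (0:ℝ) 1 zero_le_one σ : unitInterval) : ℝ) = σ := by
    intro s σ hσ
    rw [Set.uIcc_of_le s.2.1] at hσ
    rw [Set.projIcc_of_mem zero_le_one ⟨hσ.1, hσ.2.trans s.2.2⟩]
  have hUs : ∀ p, Ψ (p, Us p) = 0 := by
    rintro ⟨t, y⟩
    ext s
    show φ (t * s) y - y - t • (V (G (Us (t, y)))) s = 0
    rw [hV, ← intervalIntegral.integral_smul]
    have hd : ∀ σ ∈ Set.uIcc (0:ℝ) (s:ℝ), HasDerivAt (fun σ => φ (t * σ) y)
        (t • F (φ (t * σ) y)) σ := by
      intro σ _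
      have h2 : HasDerivAt (fun σ : ℝ => t * σ) t σ := by
        simpa using (hasDerivAt_id σ).const_mul t
      exact (h1 y (t * σ)).scomp σ h2
    have hcc : Continuous fun σ : ℝ => t • F (φ (t * σ) y) :=
      continuous_const.smul (hFc.comp ((hcy y).comp (by fun_prop)))
    have h3 := intervalIntegral.integral_eq_sub_of_hasDerivAt hd (hcc.intervalIntegrable _ _)
    have h4 : ∫ σ in (0:ℝ)..(s:ℝ), t • (G (Us (t, y))) (Set.projIcc (0:ℝ) 1 zero_le_one σ)
        = ∫ σ in (0:ℝ)..(s:ℝ), t • F (φ (t * σ) y) := by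
      refine intervalIntegral.integral_congr fun σ hσ => ?_
      show t • (G (Us (t, y))) (Set.projIcc (0:ℝ) 1 zero_le_one σ) = t • F (φ (t * σ) y)
      rw [hGF]
      show t • F (φ (t * ((Set.projIcc (0:ℝ) 1 zero_le_one σ : unitInterval) : ℝ)) y) = _
      rw [hproj s σ hσ]
    rw [h4, h3, mul_zero, h0]
    abel
  -- uniqueness
  have huniq : ∀ (p : ℝ × Y) (h : C(unitInterval, Y)), Ψ (p, h) = 0 → h 1 = φ p.1 p.2 := by
    rintro ⟨t, y⟩ h hh
    have hh1 : ∀ s : unitInterval, h s = y + t • V (G h) s := by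
      intro s
      have h2 : (h - cst y - t • V (G h)) s = 0 := by
        have : Ψ ((t, y), h) = h - cst y - t • V (G h) := rfl
        rw [← this, hh]
        rfl
      have h3 : h s - y - t • V (G h) s = 0 := h2
      rw [sub_sub, sub_eq_zero] at h3
      exact h3
    let u : ℝ → Y := fun σ => h (Set.projIcc (0:ℝ) 1 zero_le_one σ)
    have huc : Continuous u := h.continuous.comp continuous_projIcc
    let w : ℝ → Y := fun s => y + t • ∫ σ in (0:ℝ)..s, F (u σ)
    have hw : ∀ s ∈ Set.Icc (0:ℝ) 1, w s = u s := by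
      intro s hs
      show y + t • ∫ σ in (0:ℝ)..s, F (u σ) = h (Set.projIcc (0:ℝ) 1 zero_le_one s)
      rw [hh1, hV, Set.projIcc_of_mem zero_le_one hs]
      congr 2
      refine intervalIntegral.integral_congr fun σ _ => ?_
      exact (hGF h _).symm
    have hwd : ∀ s, HasDerivAt w (t • F (u s)) s := by
      intro s
      have h2 := (intervalIntegral.integral_hasDerivAt_right
        ((hFc.comp huc).intervalIntegrable 0 s)
        ((hFc.comp huc).stronglyMeasurableAtFilter _ _) (hFc.comp huc).continuousAt)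
      exact (h2.const_smul t).const_add y
    have hgd : ∀ s, HasDerivAt (fun σ : ℝ => φ (t * σ) y) (t • F (φ (t * s) y)) s := by
      intro s
      have h2 : HasDerivAt (fun σ : ℝ => t * σ) t s := by
        simpa using (hasDerivAt_id s).const_mul t
      exact (h1 y (t * s)).scomp s h2
    have hwc : Continuous w := continuous_iff_continuousAt.2 fun s => (hwd s).continuousAt
    have hgc : Continuous (fun σ : ℝ => φ (t * σ) y) :=
      continuous_iff_continuousAt.2 fun s => (hgd s).continuousAt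
    let S : Set Y := w '' Set.Icc 0 1 ∪ (fun σ : ℝ => φ (t * σ) y) '' Set.Icc 0 1
    have hS : IsCompact S := (isCompact_Icc.image hwc).union (isCompact_Icc.image hgc)
    have hFt : ContDiff ℝ 1 (fun z => t • F z) :=
      (contDiff_const.smul hF).of_le (by exact_mod_cast le_top)
    obtain ⟨K, hK⟩ := (hFt.locallyLipschitz.locallyLipschitzOn
      (s := S)).exists_lipschitzOnWith_of_compact hS
    have hE := ODE_solution_unique_of_mem_Icc_right (v := fun _ z => t • F z) (s := fun _ => S)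
      (K := K) (f := w) (g := fun σ : ℝ => φ (t * σ) y) (a := 0) (b := 1)
      (fun _ _ => hK) hwc.continuousOn
      (fun s hs => by
        have h2 := (hwd s).hasDerivWithinAt (s := Set.Ici s)
        rw [← hw s ⟨hs.1, hs.2.le⟩] at h2
        exact h2)
      (fun s hs => Or.inl ⟨s, ⟨hs.1, hs.2.le⟩, rfl⟩) hgc.continuousOn
      (fun s _ => (hgd s).hasDerivWithinAt)
      (fun s hs => Or.inr ⟨s, ⟨hs.1, hs.2.le⟩, rfl⟩)
      (by
        show y + t • ∫ σ in (0:ℝ)..0, F (u σ) = φ (t * 0) y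
        rw [intervalIntegral.integral_same, smul_zero, add_zero, mul_zero, h0])
    have h5 := hE (Set.right_mem_Icc.2 zero_le_one)
    have h6 : w 1 = φ (t * 1) y := h5
    rw [mul_one, hw 1 (Set.right_mem_Icc.2 zero_le_one)] at h6
    show h 1 = φ t y
    rw [← h6]
    show h 1 = h (Set.projIcc (0:ℝ) 1 zero_le_one 1)
    rw [Set.projIcc_right]
    rfl
  rw [contDiff_iff_contDiffAt]
  intro p₀
  have hA : ContDiffAt ℝ ∞ Ψ (p₀, Us p₀) := hΨ.contDiffAt
  have hGd : ∀ U, HasFDerivAt G (fderiv ℝ G U) U := fun U =>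
    ((hG.differentiable (by simp)) U).hasFDerivAt
  -- the first derivative
  have hpart : fderiv ℝ Ψ (p₀, Us p₀) ∘L ContinuousLinearMap.inr ℝ (ℝ × Y) C(unitInterval, Y)
      = ContinuousLinearMap.id ℝ C(unitInterval, Y) - V.comp (p₀.1 • fderiv ℝ G (Us p₀)) := by
    have h2 : HasFDerivAt (fun U => Ψ (p₀, U))
        (fderiv ℝ Ψ (p₀, Us p₀) ∘L ContinuousLinearMap.inr ℝ (ℝ × Y) C(unitInterval, Y))
        (Us p₀) := by
      have h3 := hasFDerivAt_prodMk_right (𝕜 := ℝ) p₀ (Us p₀)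
      have h4 : HasFDerivAt Ψ (fderiv ℝ Ψ (p₀, Us p₀)) (p₀, Us p₀) :=
        ((hΨ.differentiable (by simp)) _).hasFDerivAt
      exact h4.comp (Us p₀) h3
    have h3 : HasFDerivAt (fun U => Ψ (p₀, U))
        (ContinuousLinearMap.id ℝ C(unitInterval, Y) - V.comp (p₀.1 • fderiv ℝ G (Us p₀)))
        (Us p₀) := by
      have h4 : HasFDerivAt (fun U => p₀.1 • V (G U)) (V.comp (p₀.1 • fderiv ℝ G (Us p₀)))
          (Us p₀) := by
        have h5 := (V.hasFDerivAt.comp (Us p₀) (hGd (Us p₀))).const_smul p₀.1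
        rw [ContinuousLinearMap.comp_smul]
        exact h5
      exact ((hasFDerivAt_id _).sub_const (cst p₀.2)).sub h4
    exact h2.unique h3
  have hchain : ∀ (W : C(unitInterval, Y)) (s : unitInterval),
      (fderiv ℝ G (Us p₀) W) s = fderiv ℝ F (Us p₀ s) (W s) := by
    intro W s
    have h2 : HasFDerivAt (fun U : C(unitInterval, Y) => F (U s))
        ((fderiv ℝ F (Us p₀ s)).comp (ContinuousMap.evalCLM ℝ s)) (Us p₀) := by
      have h3 : HasFDerivAt F (fderiv ℝ F (Us p₀ s)) (ContinuousMap.evalCLM ℝ s (Us p₀)) :=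
        ((hF.differentiable (by simp)) _).hasFDerivAt
      have h3' : HasFDerivAt (fun U : C(unitInterval, Y) => U s)
          (ContinuousMap.evalCLM ℝ s : C(unitInterval, Y) →L[ℝ] Y) (Us p₀) :=
        (ContinuousMap.evalCLM ℝ s : C(unitInterval, Y) →L[ℝ] Y).hasFDerivAt
      exact h3.comp (Us p₀) h3'
    have h4 : HasFDerivAt (fun U : C(unitInterval, Y) => F (U s))
        ((ContinuousMap.evalCLM ℝ s).comp (fderiv ℝ G (Us p₀))) (Us p₀) := by
      have h5 := (ContinuousMap.evalCLM ℝ s : C(unitInterval, Y) →L[ℝ] Y).hasFDerivAt.comp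
        (Us p₀) (hGd (Us p₀))
      have h6 : (fun U : C(unitInterval, Y) => F (U s))
          = (fun U => (ContinuousMap.evalCLM ℝ s : C(unitInterval, Y) →L[ℝ] Y) (G U)) := by
        funext U
        exact (hGF U s).symm
      rw [h6]
      exact h5
    have h7 := congrArg (fun L => L W) (h4.unique h2)
    exact h7
  have hinv : (fderiv ℝ Ψ (p₀, Us p₀) ∘L
      ContinuousLinearMap.inr ℝ (ℝ × Y) C(unitInterval, Y)).IsInvertible := by
    rw [hpart]
    have hcF : Continuous (fun s : unitInterval => ‖fderiv ℝ F (Us p₀ s)‖) :=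
      ((hF.continuous_fderiv (by simp)).comp (Us p₀).continuous).norm
    obtain ⟨m, hm⟩ := (isCompact_univ.image hcF).bddAbove
    have hm' : ∀ s : unitInterval, ‖fderiv ℝ F (Us p₀ s)‖ ≤ m := fun s =>
      hm ⟨s, Set.mem_univ _, rfl⟩
    have hm0 : 0 ≤ m := (norm_nonneg _).trans (hm' 0)
    obtain ⟨⟨a, b, hab, hba⟩, ha⟩ := hVA (p₀.1 • fderiv ℝ G (Us p₀)) (|p₀.1| * m) (by positivity) (by
      intro U s
      show ‖p₀.1 • (fderiv ℝ G (Us p₀) U) s‖ ≤ _
      rw [hchain, norm_smul, Real.norm_eq_abs, mul_assoc]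
      refine mul_le_mul_of_nonneg_left ?_ (abs_nonneg _)
      exact ((fderiv ℝ F (Us p₀ s)).le_opNorm _).trans
        (mul_le_mul_of_nonneg_right (hm' s) (norm_nonneg _)))
    rw [← ha]
    exact ContinuousLinearMap.IsInvertible.of_inverse (g := b) hab hba
  have hne : (∞ : WithTop ℕ∞) ≠ 0 := by simp
  have hev := hA.eventually_apply_implicitFunction hne hinv
  have hcd := hA.contDiffAt_implicitFunction hne hinv
  have hcd2 : ContDiffAt ℝ ∞ (fun p => (hA.implicitFunction hne hinv p) 1) p₀ :=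
    (ContinuousMap.evalCLM ℝ (1 : unitInterval) : C(unitInterval, Y) →L[ℝ] Y).contDiff.contDiffAt.comp
      p₀ hcd
  refine hcd2.congr_of_eventuallyEq ?_
  filter_upwards [hev] with p hp
  rw [hUs p₀] at hp
  exact (huniq p _ hp).symm


end Xsmdep
end MMT
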