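import Pool.Agent.Helper823.MMT.Defs2
open Complex MeasureTheory Filter Topology Set
open scoped ContDiff ENNReal
namespace MMT
namespace Xstepneg

theorem hd_tri_28465 (α : ℝ) (a b c : ℤ → ℂ) : hd α a c ≤ 2 * hd α a b + 2 * hd α b c := by
  unfold hd
  rw [← ENNReal.tsum_mul_left, ← ENNReal.tsum_mul_left, ← ENNReal.tsum_add]
  apply ENNReal.tsum_le_tsum
  intro k
  have hW : (0 : ℝ) ≤ (1 + |(k:ℝ)|) ^ α := by positivity
  have h2 : (2 : ℝ≥0∞) = ENNReal.ofReal 2 := by norm_num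
  rw [h2, ← ENNReal.ofReal_mul (by norm_num), ← ENNReal.ofReal_mul (by norm_num),
    ← ENNReal.ofReal_add (by positivity) (by positivity)]
  apply ENNReal.ofReal_le_ofReal
  have h3 : ‖a k - c k‖ ≤ ‖a k - b k‖ + ‖b k - c k‖ := norm_sub_le_norm_sub_add_norm_sub _ _ _
  have h4 : ‖a k - c k‖ ^ 2 ≤ 2 * ‖a k - b k‖ ^ 2 + 2 * ‖b k - c k‖ ^ 2 := by
    have h5 : ‖a k - c k‖ ^ 2 ≤ (‖a k - b k‖ + ‖b k - c k‖) ^ 2 :=
      pow_le_pow_left₀ (norm_nonneg _) h3 2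
    nlinarith [sq_nonneg (‖a k - b k‖ - ‖b k - c k‖)]
  calc (1 + |(k:ℝ)|) ^ α * ‖a k - c k‖ ^ 2
      ≤ (1 + |(k:ℝ)|) ^ α * (2 * ‖a k - b k‖ ^ 2 + 2 * ‖b k - c k‖ ^ 2) :=
        mul_le_mul_of_nonneg_left h4 hW
    _ = 2 * ((1 + |(k:ℝ)|) ^ α * ‖a k - b k‖ ^ 2) +
        2 * ((1 + |(k:ℝ)|) ^ α * ‖b k - c k‖ ^ 2) := by ring

theorem hd_comm_28465 (α : ℝ) (a b : ℤ → ℂ) : hd α a b = hd α b a := by
  unfold hd
  apply tsum_congr
  intro k
  rw [norm_sub_rev]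

theorem approx_step (α : ℝ) (hα : α < 0)
    (h1 : ∀ (v : ℝ → ℝ → ℂ), SG α v → ∀ (F : Finset ℤ) (c : ℤ → ℂ) (T ε : ℝ), 0 < T → 0 < ε →
      ∃ (w : ℝ → ℝ → ℂ) (D : ℝ → ℤ → ℂ), SG α w ∧ (∀ t k, ‖D t k‖ ≤ 1) ∧ (∀ k, D 0 k = 1) ∧
        ∀ t ∈ Icc (-T) T, hd α (fc (w t)) (fun j => fc (v t) j + if j ∈ F then D t j * c j else 0) ≤ ENNReal.ofReal ε)
    (u₀ : ℤ → ℂ) (hu : hd α u₀ 0 < ⊤) (v : ℝ → ℝ → ℂ) (hv : SG α v) (hv0 : hd α u₀ (fc (v 0)) < ⊤) (T ε : ℝ) (hT : 0 < T) (hε : 0 < ε) :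
    ∃ w : ℝ → ℝ → ℂ, SG α w ∧ hd α u₀ (fc (w 0)) ≤ ENNReal.ofReal ε ∧
      ∀ t ∈ Icc (-T) T, hd α (fc (w t)) (fc (v t)) ≤ ENNReal.ofReal ε + 2 * hd α u₀ (fc (v 0)) := by
  classical
  set A : ℤ → ℝ≥0∞ := fun k => ENNReal.ofReal ((1 + |(k:ℝ)|) ^ α * ‖u₀ k - fc (v 0) k‖ ^ 2) with hA
  have hAsum : ∑' k, A k ≠ ⊤ := hv0.ne
  have hε4 : 0 < ε / 4 := by linarith
  obtain ⟨F, hF⟩ : ∃ F : Finset ℤ, ∑' k, (if k ∈ F then 0 else A k) ≤ ENNReal.ofReal (ε / 4) := by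
    have htend := ENNReal.tendsto_tsum_compl_atTop_zero hAsum
    have hev : ∀ᶠ s : Finset ℤ in atTop, ∑' b : {x // x ∉ s}, A b < ENNReal.ofReal (ε / 4) :=
      htend.eventually_lt_const (ENNReal.ofReal_pos.mpr hε4)
    obtain ⟨F, hF⟩ := hev.exists
    refine ⟨F, ?_⟩
    have heq : ∑' k, (if k ∈ F then 0 else A k) = ∑' b : {x // x ∉ F}, A b := by
      rw [show (∑' b : {x // x ∉ F}, A b) = ∑' b : ({x | x ∉ F} : Set ℤ), A b from rfl,
        tsum_subtype]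
      apply tsum_congr
      intro k
      by_cases hk : k ∈ F
      · rw [if_pos hk, Set.indicator_of_notMem]
        intro h
        exact h hk
      · rw [if_neg hk, Set.indicator_of_mem]
        exact hk
    rw [heq]
    exact hF.le
  obtain ⟨w, D, hw, hD1, hD0, hwb⟩ := h1 v hv F (fun k => u₀ k - fc (v 0) k) T (ε / 4) hT hε4
  have hsplit : ENNReal.ofReal ε = 2 * ENNReal.ofReal (ε / 4) + 2 * ENNReal.ofReal (ε / 4) := by
    have h2 : (2 : ℝ≥0∞) = ENNReal.ofReal 2 := by norm_num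
    rw [h2, ← ENNReal.ofReal_mul (by norm_num), ← ENNReal.ofReal_add (by positivity) (by positivity)]
    congr 1
    ring
  refine ⟨w, hw, ?_, ?_⟩
  · have h0 := hwb 0 ⟨by linarith, hT.le⟩
    set G : ℤ → ℂ := fun j => fc (v 0) j + if j ∈ F then D 0 j * (u₀ j - fc (v 0) j) else 0 with hG
    have h3 : hd α u₀ G ≤ ENNReal.ofReal (ε / 4) := by
      refine le_trans (le_of_eq ?_) hF
      unfold hd
      apply tsum_congr
      intro k
      rw [hG]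
      by_cases hk : k ∈ F
      · simp only [if_pos hk, hD0, one_mul, add_sub_cancel, sub_self, norm_zero]
        simp
      · simp only [if_neg hk, add_zero, hA]
    rw [hd_comm_28465] at h0
    calc hd α u₀ (fc (w 0)) ≤ 2 * hd α u₀ G + 2 * hd α G (fc (w 0)) := hd_tri_28465 _ _ _ _
      _ ≤ 2 * ENNReal.ofReal (ε / 4) + 2 * ENNReal.ofReal (ε / 4) := by gcongr
      _ = ENNReal.ofReal ε := hsplit.symm
  · intro t ht
    have h0 := hwb t ht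
    set G : ℤ → ℂ := fun j => fc (v t) j + if j ∈ F then D t j * (u₀ j - fc (v 0) j) else 0 with hG
    have h3 : hd α G (fc (v t)) ≤ hd α u₀ (fc (v 0)) := by
      unfold hd
      apply ENNReal.tsum_le_tsum
      intro k
      apply ENNReal.ofReal_le_ofReal
      apply mul_le_mul_of_nonneg_left _ (by positivity)
      rw [hG]
      by_cases hk : k ∈ F
      · simp only [if_pos hk, add_sub_cancel_left]
        rw [norm_mul, mul_pow]
        have h4 : ‖D t k‖ ^ 2 ≤ 1 := pow_le_one₀ (norm_nonneg _) (hD1 t k)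
        have h5 : 0 ≤ ‖u₀ k - fc (v 0) k‖ ^ 2 := by positivity
        nlinarith
      · simp only [if_neg hk, add_zero, sub_self, norm_zero]
        rw [zero_pow two_ne_zero]
        positivity
    calc hd α (fc (w t)) (fc (v t)) ≤ 2 * hd α (fc (w t)) G + 2 * hd α G (fc (v t)) :=
          hd_tri_28465 _ _ _ _
      _ ≤ 2 * ENNReal.ofReal (ε / 4) + 2 * hd α u₀ (fc (v 0)) := by gcongr
      _ ≤ ENNReal.ofReal ε + 2 * hd α u₀ (fc (v 0)) := by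
        rw [hsplit]
        gcongr
        exact le_self_add


end Xstepneg
end MMT
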