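import Pool.Agent.Helper823.MMT.Defs2
open Complex MeasureTheory Filter Topology Set
open scoped ContDiff ENNReal
namespace MMT
namespace Xtrsm

theorem tr_cont (g : C(Cir, ℂ)) : Continuous (fun a : ℝ => tr a g) := by
  apply ContinuousMap.continuous_of_continuous_uncurry
  show Continuous (fun p : ℝ × Cir => g (p.2 + (p.1 : Cir)))
  have h : Continuous (fun x : ℝ => (x : Cir)) := AddCircle.continuous_mk' _
  exact g.continuous.comp (continuous_snd.add (h.comp continuous_fst))

theorem tr_hasDerivAt (f : ℝ → ℂ) (hf : Differentiable ℝ f) (g g' : C(Cir, ℂ))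
    (hg : ∀ x : ℝ, g (x : Cir) = f x) (hg' : ∀ x : ℝ, g' (x : Cir) = deriv f x) (a : ℝ) :
    HasDerivAt (fun a : ℝ => tr a g) (tr a g') a := by
  rw [hasDerivAt_iff_isLittleO, Asymptotics.isLittleO_iff]
  intro c hc
  have hcont := (tr_cont g').continuousAt (x := a)
  rw [Metric.continuousAt_iff] at hcont
  obtain ⟨δ, hδ, hd⟩ := hcont c hc
  have hball : Metric.ball a δ ∈ 𝓝 a := Metric.ball_mem_nhds a hδ
  filter_upwards [hball] with x hx
  rw [ContinuousMap.norm_le _ (by positivity)]
  intro y
  obtain ⟨y, rfl⟩ := QuotientAddGroup.mk_surjective y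
  have key := (convex_ball a δ).norm_image_sub_le_of_norm_hasDerivWithin_le
    (f := fun s : ℝ => f (y + s) - s • deriv f (y + a))
    (f' := fun s : ℝ => deriv f (y + s) - deriv f (y + a)) (C := c) (x := a) (y := x)
    (by
      intro s hs
      have h1 : HasDerivAt (fun s : ℝ => f (y + s)) (deriv f (y + s)) s :=
        HasDerivAt.comp_const_add y s (hf (y + s)).hasDerivAt
      have h2 : HasDerivAt (fun s : ℝ => s • deriv f (y + a)) (deriv f (y + a)) s := by
        simpa using (hasDerivAt_id s).smul_const (deriv f (y + a))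
      exact (h1.sub h2).hasDerivWithinAt)
    (by
      intro s hs
      have h1 := hd hs
      rw [dist_eq_norm] at h1
      have h2 := ContinuousMap.norm_coe_le_norm (tr s g' - tr a g') (y : Cir)
      have h3 : (tr s g' - tr a g') (y : Cir) = deriv f (y + s) - deriv f (y + a) := by
        show g' ((y : Cir) + (s : Cir)) - g' ((y : Cir) + (a : Cir)) = _
        rw [← AddCircle.coe_add, ← AddCircle.coe_add, hg', hg']
      rw [h3] at h2
      exact h2.trans h1.le)
    (Metric.mem_ball_self hδ) hx
  have e : (tr x g - tr a g - (x - a) • tr a g') (y : Cir)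
      = (f (y + x) - x • deriv f (y + a)) - (f (y + a) - a • deriv f (y + a)) := by
    show g ((y : Cir) + (x : Cir)) - g ((y : Cir) + (a : Cir)) - (x - a) • g' ((y : Cir) + (a : Cir)) = _
    rw [← AddCircle.coe_add, ← AddCircle.coe_add, hg', hg, hg, sub_smul]
    ring
  have e' : (tr x g - tr a g - (x - a) • tr a g') (QuotientAddGroup.mk y : Cir)
      = (f (y + x) - x • deriv f (y + a)) - (f (y + a) - a • deriv f (y + a)) := e
  rw [e']
  exact key

theorem tr_contDiff_nat (n : ℕ) : ∀ (f : ℝ → ℂ) (_ : ContDiff ℝ ∞ f) (g : C(Cir, ℂ))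
    (_ : ∀ x : ℝ, g (x : Cir) = f x), ContDiff ℝ n (fun a : ℝ => tr a g) := by
  induction n with
  | zero =>
    intro f hf g hg
    exact contDiff_zero.mpr (tr_cont g)
  | succ n ih =>
    intro f hf g hg
    have hper : Function.Periodic f (2 * Real.pi) := by
      intro x
      rw [← hg, ← hg, AddCircle.coe_add, AddCircle.coe_period, add_zero]
    have hper' : Function.Periodic (deriv f) (2 * Real.pi) := by
      intro x
      have : (fun y => f (y + 2 * Real.pi)) = f := funext hper
      have h1 := deriv_comp_add_const (f := f) (a := 2 * Real.pi) (x := x)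
      rw [this] at h1
      exact h1.symm
    have hf' : ContDiff ℝ ∞ (deriv f) := (contDiff_infty_iff_deriv.mp hf).2
    have hc : Continuous (hper'.lift) := by
      apply (QuotientAddGroup.isQuotientMap_mk (AddSubgroup.zmultiples (2 * Real.pi))).continuous_iff.mpr
      exact hf'.continuous
    set g' : C(Cir, ℂ) := ⟨hper'.lift, hc⟩
    have hg' : ∀ x : ℝ, g' (x : Cir) = deriv f x := fun x => rfl
    have hfd : Differentiable ℝ f := hf.differentiable (by simp)
    have hd : ∀ a, HasDerivAt (fun a : ℝ => tr a g) (tr a g') a :=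
      tr_hasDerivAt f hfd g g' hg hg'
    have hde : deriv (fun a : ℝ => tr a g) = fun a => tr a g' := funext fun a => (hd a).deriv
    have := (contDiff_succ_iff_deriv (n := (n : WithTop ℕ∞)) (f := fun a : ℝ => tr a g)).mpr
      ⟨fun a => (hd a).differentiableAt, fun h => by simp at h, by
        rw [hde]
        exact ih (deriv f) hf' g' hg'⟩
    exact_mod_cast this

theorem tr_contDiff (f : ℝ → ℂ) (hf : ContDiff ℝ ∞ f) (g : C(Cir, ℂ)) (hg : ∀ x : ℝ, g (x : Cir) = f x) :
    ContDiff ℝ ∞ (fun a : ℝ => tr a g) := by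
  rw [contDiff_infty]
  intro n
  exact tr_contDiff_nat n f hf g hg


end Xtrsm
end MMT
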