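import Pool.Agent.Helper823.MMT.Defs2
open Complex MeasureTheory Filter Topology Set
open scoped ContDiff ENNReal
namespace MMT
namespace Xvbd

theorem v_bdd (α : ℝ) (v : ℝ → ℝ → ℂ) (hv : SG α v) (T : ℝ) (hT : 0 < T) :
    ∃ V : ℝ, 0 ≤ V ∧ ∀ t ∈ Icc (-T) T, ∀ x, ‖v t x‖ ≤ V := by
  have hc : Continuous (fun p : ℝ × ℝ => v p.1 p.2) := hv.1.continuous
  have hK : IsCompact (Icc (-T) T ×ˢ Icc (0 : ℝ) (2 * Real.pi)) := isCompact_Icc.prod isCompact_Icc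
  obtain ⟨V, hV⟩ := hK.exists_bound_of_continuousOn hc.continuousOn
  refine ⟨max V 0, le_max_right _ _, fun t ht x => ?_⟩
  obtain ⟨y, hy, hxy⟩ := ((hv.2 T hT).periodic t ht).exists_mem_Ico₀ (by positivity) x
  rw [hxy]
  exact (hV (t, y) ⟨ht, hy.1, hy.2.le⟩).trans (le_max_left _ _)


end Xvbd
end MMT
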