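import Pool.Agent.Helper823.MMT.Defs2
open Complex MeasureTheory Filter Topology Set
open scoped ContDiff ENNReal
namespace MMT
namespace Xvop

section volterra_aux
variable {Y : Type*} [NormedAddCommGroup Y] [NormedSpace ℝ Y] [CompleteSpace Y]

theorem volterra_cont (U : C(unitInterval, Y)) :
    Continuous (fun σ : ℝ => U (Set.projIcc (0:ℝ) 1 zero_le_one σ)) :=
  U.continuous.comp continuous_projIcc

/-- the integration operator -/
noncomputable def volterraV : C(unitInterval, Y) →L[ℝ] C(unitInterval, Y) :=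
  LinearMap.mkContinuous
    { toFun := fun U => ⟨fun s => ∫ σ in (0:ℝ)..(s:ℝ), U (Set.projIcc (0:ℝ) 1 zero_le_one σ), by
        have h1 : Continuous (fun b : ℝ =>
            ∫ σ in (0:ℝ)..b, U (Set.projIcc (0:ℝ) 1 zero_le_one σ)) :=
          intervalIntegral.continuous_primitive
            (fun a b => (volterra_cont U).intervalIntegrable a b) 0
        exact h1.comp continuous_subtype_val⟩
      map_add' := by
        intro U W
        ext s
        show ∫ σ in (0:ℝ)..(s:ℝ), (U + W) (Set.projIcc (0:ℝ) 1 zero_le_one σ) =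
          (∫ σ in (0:ℝ)..(s:ℝ), U (Set.projIcc (0:ℝ) 1 zero_le_one σ)) +
            ∫ σ in (0:ℝ)..(s:ℝ), W (Set.projIcc (0:ℝ) 1 zero_le_one σ)
        rw [← intervalIntegral.integral_add ((volterra_cont U).intervalIntegrable _ _)
          ((volterra_cont W).intervalIntegrable _ _)]
        rfl
      map_smul' := by
        intro c U
        ext s
        show ∫ σ in (0:ℝ)..(s:ℝ), (c • U) (Set.projIcc (0:ℝ) 1 zero_le_one σ) =
          c • ∫ σ in (0:ℝ)..(s:ℝ), U (Set.projIcc (0:ℝ) 1 zero_le_one σ)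
        rw [← intervalIntegral.integral_smul]
        rfl } 1 (by
      intro U
      rw [one_mul]
      rw [ContinuousMap.norm_le _ (norm_nonneg U)]
      intro s
      show ‖∫ σ in (0:ℝ)..(s:ℝ), U (Set.projIcc (0:ℝ) 1 zero_le_one σ)‖ ≤ ‖U‖
      have h1 := intervalIntegral.norm_integral_le_of_norm_le_const (a := (0:ℝ)) (b := (s:ℝ))
        (f := fun σ => U (Set.projIcc (0:ℝ) 1 zero_le_one σ)) (C := ‖U‖)
        (fun σ _ => U.norm_coe_le_norm _)
      refine h1.trans ?_
      have h2 : |(s:ℝ) - 0| ≤ 1 := by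
        rw [sub_zero, abs_of_nonneg s.2.1]
        exact s.2.2
      calc ‖U‖ * |(s:ℝ) - 0| ≤ ‖U‖ * 1 := mul_le_mul_of_nonneg_left h2 (norm_nonneg U)
        _ = ‖U‖ := mul_one _)

theorem volterraV_apply (U : C(unitInterval, Y)) (s : unitInterval) :
    (volterraV U : C(unitInterval, Y)) s =
      ∫ σ in (0:ℝ)..(s:ℝ), U (Set.projIcc (0:ℝ) 1 zero_le_one σ) := rfl

theorem volterra_pow (A : C(unitInterval, Y) →L[ℝ] C(unitInterval, Y)) (m : ℝ) (hm : 0 ≤ m)
    (hA : ∀ (U : C(unitInterval, Y)) (s : unitInterval), ‖A U s‖ ≤ m * ‖U s‖) (n : ℕ) :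
    ∀ (U : C(unitInterval, Y)) (s : unitInterval),
      ‖(((volterraV * A : C(unitInterval, Y) →L[ℝ] C(unitInterval, Y)) ^ n) U) s‖ ≤
        m ^ n * (s:ℝ) ^ n / n.factorial * ‖U‖ := by
  induction n with
  | zero =>
    intro U s
    simp only [pow_zero, Nat.factorial_zero, Nat.cast_one, div_one, one_mul]
    exact U.norm_coe_le_norm s
  | succ n ih =>
    intro U s
    rw [pow_succ']
    show ‖(volterraV (A (((volterraV * A : C(unitInterval, Y) →L[ℝ] C(unitInterval, Y)) ^ n) U)) : C(unitInterval, Y)) s‖ ≤ _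
    rw [volterraV_apply]
    have hs := s.2
    have hb : ∀ σ ∈ Set.Ioc (0:ℝ) (s:ℝ),
        ‖A (((volterraV * A : C(unitInterval, Y) →L[ℝ] C(unitInterval, Y)) ^ n) U)
          (Set.projIcc (0:ℝ) 1 zero_le_one σ)‖ ≤
          m ^ (n + 1) / n.factorial * ‖U‖ * σ ^ n := by
      intro σ hσ
      have hσ1 : σ ∈ Set.Icc (0:ℝ) 1 := ⟨hσ.1.le, hσ.2.trans hs.2⟩
      have h1 := hA (((volterraV * A : C(unitInterval, Y) →L[ℝ] C(unitInterval, Y)) ^ n) U) (Set.projIcc (0:ℝ) 1 zero_le_one σ)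
      have h2 := ih U (Set.projIcc (0:ℝ) 1 zero_le_one σ)
      rw [Set.projIcc_of_mem zero_le_one hσ1] at h1 h2 ⊢
      refine h1.trans ((mul_le_mul_of_nonneg_left h2 hm).trans (le_of_eq ?_))
      show m * (m ^ n * σ ^ n / n.factorial * ‖U‖) = _
      ring
    have hint : IntervalIntegrable (fun σ : ℝ => m ^ (n + 1) / n.factorial * ‖U‖ * σ ^ n)
        MeasureTheory.volume 0 (s:ℝ) :=
      (continuous_const.mul (continuous_pow n)).intervalIntegrable _ _
    have h3 := intervalIntegral.norm_integral_le_of_norm_le hs.1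
      (MeasureTheory.ae_of_all _ hb) hint
    refine h3.trans (le_of_eq ?_)
    rw [intervalIntegral.integral_const_mul, integral_pow]
    rw [Nat.factorial_succ]
    push_cast
    have hf : (n.factorial : ℝ) ≠ 0 := by positivity
    have hn : ((n : ℝ) + 1) ≠ 0 := by positivity
    field_simp
    ring

theorem volterra_norm (A : C(unitInterval, Y) →L[ℝ] C(unitInterval, Y)) (m : ℝ) (hm : 0 ≤ m)
    (hA : ∀ (U : C(unitInterval, Y)) (s : unitInterval), ‖A U s‖ ≤ m * ‖U s‖) (n : ℕ) :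
    ‖(volterraV * A : C(unitInterval, Y) →L[ℝ] C(unitInterval, Y)) ^ n‖ ≤ m ^ n / n.factorial := by
  have h0 : 0 ≤ m ^ n / (n.factorial : ℝ) := by positivity
  apply ContinuousLinearMap.opNorm_le_bound _ h0
  intro U
  rw [ContinuousMap.norm_le _ (mul_nonneg h0 (norm_nonneg U))]
  intro s
  refine (volterra_pow A m hm hA n U s).trans ?_
  apply mul_le_mul_of_nonneg_right _ (norm_nonneg U)
  apply div_le_div_of_nonneg_right _ (by positivity)
  have h1 : (s:ℝ) ^ n ≤ 1 := pow_le_one₀ s.2.1 s.2.2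
  calc m ^ n * (s:ℝ) ^ n ≤ m ^ n * 1 := mul_le_mul_of_nonneg_left h1 (by positivity)
    _ = m ^ n := mul_one _

end volterra_aux

theorem volterra_op {Y : Type*} [NormedAddCommGroup Y] [NormedSpace ℝ Y] [CompleteSpace Y] :
    ∃ V : C(unitInterval, Y) →L[ℝ] C(unitInterval, Y),
      (∀ (U : C(unitInterval, Y)) (s : unitInterval),
        V U s = ∫ σ in (0:ℝ)..(s:ℝ), U (Set.projIcc (0:ℝ) 1 zero_le_one σ)) ∧
      ∀ (A : C(unitInterval, Y) →L[ℝ] C(unitInterval, Y)) (m : ℝ), 0 ≤ m →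
        (∀ (U : C(unitInterval, Y)) (s : unitInterval), ‖A U s‖ ≤ m * ‖U s‖) →
        IsUnit (ContinuousLinearMap.id ℝ C(unitInterval, Y) - V.comp A) := by
  refine ⟨volterraV, fun U s => rfl, ?_⟩
  intro A m hm hA
  show IsUnit (1 - volterraV * A)
  have h1 : Filter.Tendsto (fun n : ℕ => m ^ n / (n.factorial : ℝ)) Filter.atTop (nhds 0) :=
    FloorSemiring.tendsto_pow_div_factorial_atTop m
  obtain ⟨n, hn⟩ := (h1.eventually_lt_const (by norm_num : (0:ℝ) < 1)).exists
  have h2 : ‖(volterraV * A) ^ n‖ < 1 := (volterra_norm A m hm hA n).trans_lt hn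
  have h3 : IsUnit (1 - (volterraV * A) ^ n) := isUnit_one_sub_of_norm_lt_one (R := C(unitInterval, Y) →L[ℝ] C(unitInterval, Y)) h2
  have h4 : (1 - volterraV * A) * (∑ i ∈ Finset.range n, (volterraV * A) ^ i) =
      1 - (volterraV * A) ^ n := mul_neg_geom_sum _ _
  have h5 : (∑ i ∈ Finset.range n, (volterraV * A) ^ i) * (1 - volterraV * A) =
      1 - (volterraV * A) ^ n := geom_sum_mul_neg _ _
  have hc : Commute (1 - volterraV * A) (∑ i ∈ Finset.range n, (volterraV * A) ^ i) := by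
    show _ * _ = _ * _
    rw [h4, h5]
  rw [← h4] at h3
  exact (hc.isUnit_mul_iff.1 h3).1



end Xvop
end MMT
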