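import Pool.Agent.Helper823.MMT.Defs2
open Complex MeasureTheory Filter Topology Set
open scoped ContDiff ENNReal
namespace MMT
namespace Xwbd

theorem wb_norm (f : ℝ → ℂ) (c : ℝ → ℝ) (w : ℝ → ℂ) (G g : ℝ → ℝ) (T : ℝ) (hT : 0 ≤ T)
    (hf : ∀ s, HasDerivAt f (-I * (((c s : ℝ) : ℂ) * f s + w s)) s)
    (hG : ∀ s, HasDerivAt G (g s) s) (hw : ∀ s, 0 ≤ s → s ≤ T → ‖w s‖ ≤ g s) :
    ‖f T‖ ≤ ‖f 0‖ + (G T - G 0) := by
  apply le_of_forall_pos_le_add
  intro δ hδ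
  have hpos : ∀ s, 0 < ‖f s‖ ^ 2 + δ ^ 2 := fun s => by positivity
  have hφd : ∀ s, HasDerivAt (fun s => √(‖f s‖ ^ 2 + δ ^ 2))
      (2 * inner ℝ (f s) (-I * (((c s : ℝ) : ℂ) * f s + w s)) / (2 * √(‖f s‖ ^ 2 + δ ^ 2))) s := by
    intro s
    exact (((hf s).norm_sq).add_const (δ ^ 2)).sqrt (hpos s).ne'
  have hinner : ∀ s, inner ℝ (f s) (-I * (((c s : ℝ) : ℂ) * f s + w s)) =
      inner ℝ (f s) (-I * w s) := by
    intro s
    have h1 : -I * (((c s : ℝ) : ℂ) * f s + w s) = -I * (((c s : ℝ) : ℂ) * f s) + -I * w s := by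
      ring
    rw [h1, inner_add_right]
    have h2 : inner ℝ (f s) (-I * (((c s : ℝ) : ℂ) * f s)) = (0 : ℝ) := by
      rw [Complex.inner]
      simp [Complex.mul_re, Complex.mul_im]
      ring
    rw [h2, zero_add]
  have hφle : ∀ s, 0 ≤ s → s ≤ T →
      2 * inner ℝ (f s) (-I * (((c s : ℝ) : ℂ) * f s + w s)) / (2 * √(‖f s‖ ^ 2 + δ ^ 2)) ≤ g s := by
    intro s h0 h1
    have hsq : 0 < √(‖f s‖ ^ 2 + δ ^ 2) := Real.sqrt_pos.mpr (hpos s)
    rw [hinner s, mul_div_mul_left _ _ two_ne_zero, div_le_iff₀ hsq]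
    have h2 : inner ℝ (f s) (-I * w s) ≤ ‖f s‖ * ‖w s‖ := by
      refine (real_inner_le_norm _ _).trans ?_
      rw [norm_mul, norm_neg, Complex.norm_I, one_mul]
    have h3 : ‖f s‖ ≤ √(‖f s‖ ^ 2 + δ ^ 2) := by
      apply Real.le_sqrt_of_sq_le
      nlinarith
    calc inner ℝ (f s) (-I * w s) ≤ ‖f s‖ * ‖w s‖ := h2
      _ ≤ √(‖f s‖ ^ 2 + δ ^ 2) * ‖w s‖ := mul_le_mul_of_nonneg_right h3 (norm_nonneg _)
      _ ≤ √(‖f s‖ ^ 2 + δ ^ 2) * g s := mul_le_mul_of_nonneg_left (hw s h0 h1) hsq.le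
      _ = g s * √(‖f s‖ ^ 2 + δ ^ 2) := mul_comm _ _
  have hHd : ∀ s, HasDerivAt (fun s => G s - √(‖f s‖ ^ 2 + δ ^ 2))
      (g s - 2 * inner ℝ (f s) (-I * (((c s : ℝ) : ℂ) * f s + w s)) /
        (2 * √(‖f s‖ ^ 2 + δ ^ 2))) s := fun s => (hG s).sub (hφd s)
  have hmono : MonotoneOn (fun s => G s - √(‖f s‖ ^ 2 + δ ^ 2)) (Icc 0 T) := by
    apply monotoneOn_of_deriv_nonneg (convex_Icc 0 T)
    · intro s _
      exact (hHd s).continuousAt.continuousWithinAt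
    · intro s _
      exact (hHd s).differentiableAt.differentiableWithinAt
    · intro s hs
      have hs' := interior_subset hs
      rw [(hHd s).deriv]
      linarith [hφle s hs'.1 hs'.2]
  have h1 := hmono (left_mem_Icc.mpr hT) (right_mem_Icc.mpr hT) hT
  simp only at h1
  have h2 : ‖f T‖ ≤ √(‖f T‖ ^ 2 + δ ^ 2) := by
    apply Real.le_sqrt_of_sq_le
    nlinarith
  have h3 : √(‖f 0‖ ^ 2 + δ ^ 2) ≤ ‖f 0‖ + δ := by
    apply Real.sqrt_le_iff.mpr
    refine ⟨by positivity, ?_⟩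
    nlinarith [norm_nonneg (f 0)]
  linarith

theorem wb_int (K : ℝ → ℝ) (κ : ℝ) (hK : Ker K κ) (h : ℝ → ℝ) (hh : Continuous h) :
    IntervalIntegrable (fun y => (|K y| + 1) * h y) volume 0 (2 * Real.pi) :=
  (hK.int.abs.add intervalIntegrable_const).mul_continuousOn hh.continuousOn

theorem wb_w (K : ℝ → ℝ) (κ : ℝ) (B : ℝ → ℝ → ℂ) (hK : Ker K κ) (hB : GS K B) (t x : ℝ) :
    ‖∫ y in (0:ℝ)..(2 * Real.pi), (K y : ℂ) * B t (x - y)‖ ≤
      ∫ y in (0:ℝ)..(2 * Real.pi), (|K y| + 1) * ‖B t (x - y)‖ := by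
  have h2pi : (0:ℝ) ≤ 2 * Real.pi := Real.two_pi_pos.le
  have hc : Continuous fun y => B t (x - y) :=
    hB.cont.comp (continuous_const.prodMk (continuous_const.sub continuous_id))
  refine intervalIntegral.norm_integral_le_of_norm_le h2pi ?_
    (wb_int K κ hK _ hc.norm)
  refine Eventually.of_forall fun y _ => ?_
  rw [norm_mul, Complex.norm_real, Real.norm_eq_abs]
  nlinarith [norm_nonneg (B t (x - y))]

theorem wb_P (K : ℝ → ℝ) (κ : ℝ) (B : ℝ → ℝ → ℂ) (W0 : ℝ) (hK : Ker K κ) (hB : GS K B)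
    (h0 : ∀ x, ∫ y in (0:ℝ)..(2 * Real.pi), (|K y| + 1) * ‖B 0 (x - y)‖ ≤ W0) (t c : ℝ)
    (hc : ∀ z, ‖B t z‖ ≤ ‖B 0 z‖ + c) (x : ℝ) :
    ∫ y in (0:ℝ)..(2 * Real.pi), (|K y| + 1) * ‖B t (x - y)‖ ≤ W0 + κ * c := by
  have h2pi : (0:ℝ) ≤ 2 * Real.pi := Real.two_pi_pos.le
  have hct : ∀ s, Continuous fun y => ‖B s (x - y)‖ := fun s =>
    (hB.cont.comp (continuous_const.prodMk (continuous_const.sub continuous_id))).norm
  calc ∫ y in (0:ℝ)..(2 * Real.pi), (|K y| + 1) * ‖B t (x - y)‖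
      ≤ ∫ y in (0:ℝ)..(2 * Real.pi), ((|K y| + 1) * ‖B 0 (x - y)‖ + (|K y| + 1) * c) := by
        apply intervalIntegral.integral_mono_on h2pi (wb_int K κ hK _ (hct t))
          ((wb_int K κ hK _ (hct 0)).add (wb_int K κ hK (fun _ => c) continuous_const))
        intro y _
        rw [← mul_add]
        exact mul_le_mul_of_nonneg_left (hc _) (by positivity)
    _ = (∫ y in (0:ℝ)..(2 * Real.pi), (|K y| + 1) * ‖B 0 (x - y)‖) + κ * c := by
        rw [intervalIntegral.integral_add (wb_int K κ hK _ (hct 0))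
          (wb_int K κ hK (fun _ => c) continuous_const), intervalIntegral.integral_mul_const, hK.bd]
    _ ≤ W0 + κ * c := by linarith [h0 x]

theorem wb_bdd (K : ℝ → ℝ) (κ : ℝ) (B : ℝ → ℝ → ℂ) (hK : Ker K κ) (hB : GS K B) (T : ℝ) :
    ∃ C : ℝ, ∀ s ∈ Icc 0 T, ∀ x, ∫ y in (0:ℝ)..(2 * Real.pi), (|K y| + 1) * ‖B s (x - y)‖ ≤ C := by
  have h2pi : (0:ℝ) ≤ 2 * Real.pi := Real.two_pi_pos.le
  obtain ⟨C, hC⟩ := (isCompact_Icc (a := (0:ℝ)) (b := T)).prod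
    (isCompact_Icc (a := (0:ℝ)) (b := 2 * Real.pi)) |>.exists_bound_of_continuousOn
    (f := fun p : ℝ × ℝ => B p.1 p.2) hB.cont.continuousOn
  have hC' : ∀ s ∈ Icc 0 T, ∀ z, ‖B s z‖ ≤ C := by
    intro s hs z
    obtain ⟨y, hy, hzy⟩ := (hB.per s).exists_mem_Ico₀ Real.two_pi_pos z
    rw [hzy]
    exact hC (s, y) ⟨hs, Ico_subset_Icc_self hy⟩
  refine ⟨κ * C, fun s hs x => ?_⟩
  have hct : Continuous fun y => ‖B s (x - y)‖ :=
    (hB.cont.comp (continuous_const.prodMk (continuous_const.sub continuous_id))).norm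
  calc ∫ y in (0:ℝ)..(2 * Real.pi), (|K y| + 1) * ‖B s (x - y)‖
      ≤ ∫ y in (0:ℝ)..(2 * Real.pi), (|K y| + 1) * C := by
        apply intervalIntegral.integral_mono_on h2pi (wb_int K κ hK _ hct)
          (wb_int K κ hK (fun _ => C) continuous_const)
        intro y _
        exact mul_le_mul_of_nonneg_left (hC' s hs _) (by positivity)
    _ = κ * C := by rw [intervalIntegral.integral_mul_const, hK.bd]

theorem wb_growth (K : ℝ → ℝ) (κ : ℝ) (B : ℝ → ℝ → ℂ) (hK : Ker K κ) (hB : GS K B)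
    (G g : ℝ → ℝ) (T : ℝ) (hT : 0 ≤ T) (hG : ∀ s, HasDerivAt G (g s) s)
    (hg : ∀ s, 0 ≤ s → s ≤ T → ∀ x,
      ∫ y in (0:ℝ)..(2 * Real.pi), (|K y| + 1) * ‖B s (x - y)‖ ≤ g s) (x : ℝ) :
    ‖B T x‖ ≤ ‖B 0 x‖ + (G T - G 0) :=
  wb_norm (fun s => B s x) (fun s => ‖B s x‖ ^ 2)
    (fun s => ∫ y in (0:ℝ)..(2 * Real.pi), (K y : ℂ) * B s (x - y)) G g T hT
    (fun s => hB.der s x) hG
    (fun s h0 h1 => (wb_w K κ B hK hB s x).trans (hg s h0 h1 x))

theorem wb_lam (K : ℝ → ℝ) (κ : ℝ) (B : ℝ → ℝ → ℂ) (W0 : ℝ) (hK : Ker K κ) (hB : GS K B)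
    (h0 : ∀ x, ∫ y in (0:ℝ)..(2 * Real.pi), (|K y| + 1) * ‖B 0 (x - y)‖ ≤ W0) (t : ℝ)
    (ht : 0 ≤ t) (lam : ℝ) (hlam : κ < lam) (x : ℝ) :
    ∫ y in (0:ℝ)..(2 * Real.pi), (|K y| + 1) * ‖B t (x - y)‖ ≤ W0 * Real.exp (lam * t) := by
  have h2pi : (0:ℝ) ≤ 2 * Real.pi := Real.two_pi_pos.le
  have hκ : 0 ≤ κ := by
    rw [← hK.bd]
    exact intervalIntegral.integral_nonneg h2pi (fun y _ => by positivity)
  have hPnn : ∀ s x, 0 ≤ ∫ y in (0:ℝ)..(2 * Real.pi), (|K y| + 1) * ‖B s (x - y)‖ := fun s x =>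
    intervalIntegral.integral_nonneg h2pi (fun y _ => by positivity)
  have hW0 : 0 ≤ W0 := (hPnn 0 0).trans (h0 0)
  have hl0 : 0 < lam := lt_of_le_of_lt hκ hlam
  obtain ⟨C, hC⟩ := wb_bdd K κ B hK hB t
  set S : Set ℝ := {r | ∃ s ∈ Icc 0 t, ∃ x, r =
    (∫ y in (0:ℝ)..(2 * Real.pi), (|K y| + 1) * ‖B s (x - y)‖) * Real.exp (-(lam * s))} with hS
  have hSb : BddAbove S := by
    refine ⟨C, ?_⟩
    rintro r ⟨s, hs, x, rfl⟩
    have h1 := hC s hs x
    have h2 := hPnn s x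
    have h3 : Real.exp (-(lam * s)) ≤ 1 := by
      apply Real.exp_le_one_iff.mpr
      have := mul_nonneg hl0.le hs.1
      linarith
    calc (∫ y in (0:ℝ)..(2 * Real.pi), (|K y| + 1) * ‖B s (x - y)‖) * Real.exp (-(lam * s))
        ≤ (∫ y in (0:ℝ)..(2 * Real.pi), (|K y| + 1) * ‖B s (x - y)‖) * 1 :=
          mul_le_mul_of_nonneg_left h3 h2
      _ ≤ C := by linarith
  set M : ℝ := sSup S with hM
  have hMle : ∀ s, 0 ≤ s → s ≤ t → ∀ x,
      ∫ y in (0:ℝ)..(2 * Real.pi), (|K y| + 1) * ‖B s (x - y)‖ ≤ M * Real.exp (lam * s) := by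
    intro s hs0 hst x
    have h1 : (∫ y in (0:ℝ)..(2 * Real.pi), (|K y| + 1) * ‖B s (x - y)‖) *
        Real.exp (-(lam * s)) ≤ M := le_csSup hSb ⟨s, ⟨hs0, hst⟩, x, rfl⟩
    rw [Real.exp_neg, ← div_eq_mul_inv, div_le_iff₀ (Real.exp_pos _)] at h1
    exact h1
  have hM0 : 0 ≤ M := by
    have h1 := hMle 0 (le_refl _) ht 0
    rw [mul_zero, Real.exp_zero, mul_one] at h1
    exact (hPnn 0 0).trans h1
  have hGd : ∀ s, HasDerivAt (fun s => M / lam * Real.exp (lam * s)) (M * Real.exp (lam * s)) s := by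
    intro s
    have h1 : HasDerivAt (fun s : ℝ => lam * s) lam s := by
      simpa using (hasDerivAt_id s).const_mul lam
    have h2 := (h1.exp).const_mul (M / lam)
    have h3 : M / lam * (Real.exp (lam * s) * lam) = M * Real.exp (lam * s) := by
      have hne : lam ≠ 0 := hl0.ne'
      field_simp
    rw [h3] at h2
    exact h2
  have hSne : S.Nonempty := ⟨_, 0, ⟨le_refl _, ht⟩, 0, rfl⟩
  have hMW : M ≤ max W0 (κ * M / lam) := by
    apply csSup_le hSne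
    rintro r ⟨s, hs, x, rfl⟩
    have h1 := wb_P K κ B W0 hK hB h0 s
      (M / lam * Real.exp (lam * s) - M / lam * Real.exp (lam * 0))
      (fun z => wb_growth K κ B hK hB _ _ s hs.1 hGd
        (fun s' h0' h1' => hMle s' h0' (h1'.trans hs.2)) z) x
    have hE : 0 < Real.exp (-(lam * s)) := Real.exp_pos _
    have hE1 : Real.exp (-(lam * s)) ≤ 1 := by
      apply Real.exp_le_one_iff.mpr
      have := mul_nonneg hl0.le hs.1
      linarith
    have hEE : Real.exp (lam * s) * Real.exp (-(lam * s)) = 1 := by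
      rw [← Real.exp_add, add_neg_cancel, Real.exp_zero]
    calc (∫ y in (0:ℝ)..(2 * Real.pi), (|K y| + 1) * ‖B s (x - y)‖) * Real.exp (-(lam * s))
        ≤ (W0 + κ * (M / lam * Real.exp (lam * s) - M / lam * Real.exp (lam * 0))) *
          Real.exp (-(lam * s)) := mul_le_mul_of_nonneg_right h1 hE.le
      _ = W0 * Real.exp (-(lam * s)) + κ * M / lam * (Real.exp (lam * s) * Real.exp (-(lam * s)) -
          Real.exp (-(lam * s))) := by
          rw [mul_zero, Real.exp_zero]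
          ring
      _ = W0 * Real.exp (-(lam * s)) + κ * M / lam * (1 - Real.exp (-(lam * s))) := by rw [hEE]
      _ ≤ max W0 (κ * M / lam) * Real.exp (-(lam * s)) +
          max W0 (κ * M / lam) * (1 - Real.exp (-(lam * s))) := by
          apply add_le_add
          · exact mul_le_mul_of_nonneg_right (le_max_left _ _) hE.le
          · exact mul_le_mul_of_nonneg_right (le_max_right _ _) (by linarith)
      _ = max W0 (κ * M / lam) := by ring
  have hMW' : M ≤ W0 := by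
    rcases le_max_iff.mp hMW with h | h
    · exact h
    · rw [le_div_iff₀ hl0] at h
      have h3 : M * (lam - κ) ≤ 0 := by linarith
      have h4 : M ≤ 0 := by
        by_contra hc
        push Not at hc
        have := mul_pos hc (sub_pos.mpr hlam)
        linarith
      linarith
  exact (hMle t ht (le_refl _) x).trans (mul_le_mul_of_nonneg_right hMW' (Real.exp_pos _).le)

theorem w_bound (K : ℝ → ℝ) (κ : ℝ) (B : ℝ → ℝ → ℂ) (W0 : ℝ) (hK : Ker K κ) (hB : GS K B)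
    (h0 : ∀ x, ∫ y in (0:ℝ)..(2 * Real.pi), (|K y| + 1) * ‖B 0 (x - y)‖ ≤ W0) (t : ℝ) (ht : 0 ≤ t) :
    (∀ x, ∫ y in (0:ℝ)..(2 * Real.pi), (|K y| + 1) * ‖B t (x - y)‖ ≤ W0 * Real.exp (κ * t)) ∧
    (∀ x, ‖B t x‖ ≤ ‖B 0 x‖ + t * (W0 * Real.exp (κ * t))) := by
  have h2pi : (0:ℝ) ≤ 2 * Real.pi := Real.two_pi_pos.le
  have hκ : 0 ≤ κ := by
    rw [← hK.bd]
    exact intervalIntegral.integral_nonneg h2pi (fun y _ => by positivity)
  have hPnn : ∀ s x, 0 ≤ ∫ y in (0:ℝ)..(2 * Real.pi), (|K y| + 1) * ‖B s (x - y)‖ := fun s x =>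
    intervalIntegral.integral_nonneg h2pi (fun y _ => by positivity)
  have hW0 : 0 ≤ W0 := (hPnn 0 0).trans (h0 0)
  have h1 : ∀ s, 0 ≤ s → ∀ x, ∫ y in (0:ℝ)..(2 * Real.pi), (|K y| + 1) * ‖B s (x - y)‖ ≤
      W0 * Real.exp (κ * s) := by
    intro s hs x
    have hcont : Continuous fun lam : ℝ => W0 * Real.exp (lam * s) := by fun_prop
    have hlim : Tendsto (fun lam : ℝ => W0 * Real.exp (lam * s)) (𝓝[>] κ)
        (𝓝 (W0 * Real.exp (κ * s))) := hcont.continuousAt.tendsto.mono_left nhdsWithin_le_nhds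
    refine ge_of_tendsto hlim ?_
    filter_upwards [self_mem_nhdsWithin] with lam hlam
    exact wb_lam K κ B W0 hK hB h0 s hs lam hlam x
  refine ⟨h1 t ht, fun x => ?_⟩
  have h2 := wb_growth K κ B hK hB (fun s => (W0 * Real.exp (κ * t)) * s)
    (fun _ => W0 * Real.exp (κ * t)) t ht (fun s => by
      simpa using (hasDerivAt_id s).const_mul (W0 * Real.exp (κ * t))) (fun s hs0 hst x => by
      refine (h1 s hs0 x).trans ?_
      apply mul_le_mul_of_nonneg_left _ hW0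
      apply Real.exp_le_exp.mpr
      exact mul_le_mul_of_nonneg_left hst hκ) x
  simp only [mul_zero, sub_zero] at h2
  linarith



end Xwbd
end MMT
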