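import Pool.Agent.Helper823.MMT.Defs2
open Complex MeasureTheory Filter Topology Set
open scoped ContDiff ENNReal
namespace MMT
namespace Xzapp

/-- trigonometric polynomial -/
noncomputable def zT (c : ℤ → ℂ) (s : Finset ℤ) (x : ℝ) : ℂ :=
  ∑ j ∈ s, c j * cexp (I * (j:ℂ) * (x:ℂ))

theorem zT_exp (m : ℤ) : ∫ x in (0:ℝ)..(2 * Real.pi), cexp (I * (m:ℂ) * (x:ℂ)) =
    if m = 0 then (2 * Real.pi : ℂ) else 0 := by
  split_ifs with hm
  · subst hm
    simp
  · have hc : I * (m:ℂ) ≠ 0 := mul_ne_zero I_ne_zero (by exact_mod_cast hm)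
    rw [integral_exp_mul_complex hc]
    have h1 : cexp (I * (m:ℂ) * ((2 * Real.pi : ℝ) : ℂ)) = 1 := by
      rw [show I * (m:ℂ) * ((2 * Real.pi : ℝ) : ℂ) = (m:ℂ) * (2 * Real.pi * I) by push_cast; ring]
      exact Complex.exp_int_mul_two_pi_mul_I m
    rw [h1]
    simp

theorem zT_cont (c : ℤ → ℂ) (s : Finset ℤ) : Continuous (zT c s) := by
  unfold zT
  fun_prop

theorem zT_smooth (c : ℤ → ℂ) (s : Finset ℤ) : ContDiff ℝ ∞ (zT c s) := by
  unfold zT
  refine ContDiff.sum fun j _ => ?_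
  refine contDiff_const.mul ?_
  refine ContDiff.cexp ?_
  exact contDiff_const.mul Complex.ofRealCLM.contDiff

theorem zT_per (c : ℤ → ℂ) (s : Finset ℤ) : Function.Periodic (zT c s) (2 * Real.pi) := by
  intro x
  unfold zT
  refine Finset.sum_congr rfl fun j _ => ?_
  congr 1
  rw [show I * (j:ℂ) * ((x + 2 * Real.pi : ℝ) : ℂ) = I * (j:ℂ) * (x:ℂ) + (j:ℂ) * (2 * Real.pi * I) by
    push_cast; ring, Complex.exp_add, Complex.exp_int_mul_two_pi_mul_I, mul_one]

theorem zT_fc (c : ℤ → ℂ) (s : Finset ℤ) (k : ℤ) :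
    fc (zT c s) k = if k ∈ s then c k else 0 := by
  unfold fc zT
  have h1 : ∀ x : ℝ, cexp (-(I * (k:ℂ) * (x:ℂ))) * ∑ j ∈ s, c j * cexp (I * (j:ℂ) * (x:ℂ)) =
      ∑ j ∈ s, c j * cexp (I * ((j - k : ℤ):ℂ) * (x:ℂ)) := by
    intro x
    rw [Finset.mul_sum]
    refine Finset.sum_congr rfl fun j _ => ?_
    rw [show I * ((j - k : ℤ):ℂ) * (x:ℂ) = -(I * (k:ℂ) * (x:ℂ)) + I * (j:ℂ) * (x:ℂ) by
      push_cast; ring, Complex.exp_add]
    ring
  simp only [h1]
  rw [intervalIntegral.integral_finsetSum (fun j _ => by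
    apply Continuous.intervalIntegrable; fun_prop)]
  simp only [intervalIntegral.integral_const_mul, zT_exp]
  have hpi : (Real.pi : ℂ) ≠ 0 := by exact_mod_cast Real.pi_ne_zero
  split_ifs with hk
  · rw [Finset.sum_eq_single k]
    · simp; field_simp
    · intro j _ hj
      rw [if_neg (sub_ne_zero.2 hj), mul_zero]
    · intro h; exact absurd hk h
  · rw [Finset.sum_eq_zero, mul_zero]
    intro j hj
    have : j ≠ k := fun h => hk (h ▸ hj)
    rw [if_neg (sub_ne_zero.2 this), mul_zero]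

theorem zT_pars (c : ℤ → ℂ) (s : Finset ℤ) :
    ∫ x in (0:ℝ)..(2 * Real.pi), ‖zT c s x‖ ^ 2 = 2 * Real.pi * ∑ j ∈ s, ‖c j‖ ^ 2 := by
  have h1 : ∀ x : ℝ, ((‖zT c s x‖ ^ 2 : ℝ) : ℂ) =
      ∑ k ∈ s, (starRingEnd ℂ (c k)) * (cexp (-(I * (k:ℂ) * (x:ℂ))) * zT c s x) := by
    intro x
    have h2 : ((‖zT c s x‖ ^ 2 : ℝ) : ℂ) = (starRingEnd ℂ (zT c s x)) * zT c s x := by
      rw [mul_comm, Complex.mul_conj, Complex.normSq_eq_norm_sq]
    rw [h2]
    conv_lhs => rw [show starRingEnd ℂ (zT c s x) =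
      ∑ k ∈ s, starRingEnd ℂ (c k) * cexp (-(I * (k:ℂ) * (x:ℂ))) by
        unfold zT
        rw [map_sum]
        refine Finset.sum_congr rfl fun k _ => ?_
        rw [map_mul, ← Complex.exp_conj]
        congr 2
        simp]
    rw [Finset.sum_mul]
    exact Finset.sum_congr rfl fun k _ => by ring
  have h3 : ((∫ x in (0:ℝ)..(2 * Real.pi), ‖zT c s x‖ ^ 2 : ℝ) : ℂ) =
      ((2 * Real.pi * ∑ j ∈ s, ‖c j‖ ^ 2 : ℝ) : ℂ) := by
    rw [← intervalIntegral.integral_ofReal]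
    simp only [h1]
    rw [intervalIntegral.integral_finsetSum (fun j _ => by
      apply Continuous.intervalIntegrable
      have := zT_cont c s
      fun_prop)]
    simp only [intervalIntegral.integral_const_mul]
    push_cast
    rw [Finset.mul_sum]
    refine Finset.sum_congr rfl fun k hk => ?_
    have h4 := zT_fc c s k
    rw [if_pos hk] at h4
    unfold fc at h4
    have hpi : (Real.pi : ℂ) ≠ 0 := by exact_mod_cast Real.pi_ne_zero
    have h5 : ∫ x in (0:ℝ)..(2 * Real.pi), cexp (-(I * (k:ℂ) * (x:ℂ))) * zT c s x =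
        2 * Real.pi * c k := by
      rw [← h4]; field_simp
    rw [h5]
    have h6 : (starRingEnd ℂ (c k)) * c k = ((‖c k‖ ^ 2 : ℝ) : ℂ) := by
      rw [mul_comm, Complex.mul_conj, Complex.normSq_eq_norm_sq]
    push_cast at h6
    linear_combination (2 * Real.pi : ℂ) * h6
  exact_mod_cast h3

theorem zT_lint (c : ℤ → ℂ) (s : Finset ℤ) (r : ℝ) (hr : 0 ≤ r) :
    ∫⁻ x in Ioc 0 (2 * Real.pi), ENNReal.ofReal (r * ‖zT c s x‖ ^ 2) =
      ENNReal.ofReal (r * (2 * Real.pi * ∑ j ∈ s, ‖c j‖ ^ 2)) := by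
  have hint : IntegrableOn (fun x => r * ‖zT c s x‖ ^ 2) (Ioc 0 (2 * Real.pi)) := by
    have hc : Continuous (fun x => r * ‖zT c s x‖ ^ 2) := by
      have := zT_cont c s
      fun_prop
    exact (hc.integrableOn_Icc).mono_set Ioc_subset_Icc_self
  rw [← ofReal_integral_eq_lintegral_ofReal hint (Filter.Eventually.of_forall fun x => by positivity),
    ← intervalIntegral.integral_of_le (by positivity), intervalIntegral.integral_const_mul, zT_pars]

theorem z_approx_sets (a : ℤ → ℝ) (ha : Summable a) (ha0 : ∀ k, 0 ≤ a k) :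
    ∃ S : ℕ → Finset ℤ, (∀ n, S n ⊆ S (n + 1)) ∧
      ∀ n t, Disjoint t (S n) → ∑ k ∈ t, a k ≤ (1 / 16 : ℝ) ^ n := by
  have h1 : ∀ n : ℕ, ∃ s : Finset ℤ, ∀ t, Disjoint t s → ‖∑ k ∈ t, a k‖ < (1 / 16 : ℝ) ^ n :=
    fun n => summable_iff_vanishing_norm.1 ha _ (by positivity)
  choose s hs using h1
  refine ⟨fun n => (Finset.range (n + 1)).biUnion s, fun n => ?_, fun n t ht => ?_⟩
  · exact Finset.biUnion_subset_biUnion_of_subset_left _ (Finset.range_subset_range.2 (by omega))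
  · have h2 : Disjoint t (s n) := by
      refine Finset.disjoint_of_subset_right ?_ ht
      exact Finset.subset_biUnion_of_mem s (Finset.mem_range.2 (by omega))
    exact (le_abs_self _).trans (hs n t h2).le

theorem z_approx (u₀ : ℤ → ℂ) (hu : hd 0 u₀ 0 < ⊤) : ∃ (f : ℕ → ℝ → ℂ) (h : ℝ → ℝ),
    (∀ n, ContDiff ℝ ∞ (f n) ∧ Function.Periodic (f n) (2 * Real.pi)) ∧ Measurable h ∧ (∀ x, 0 ≤ h x) ∧
    IntegrableOn (fun x => h x ^ 2) (Ioc 0 (2 * Real.pi)) ∧
    (∀ᵐ x ∂(volume.restrict (Ioc 0 (2 * Real.pi))), (∀ n, ‖f n x‖ ≤ h x) ∧ CauchySeq (fun n => f n x)) ∧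
    Tendsto (fun n => hd 0 (fc (f n)) u₀) atTop (𝓝 0) := by
  set a : ℤ → ℝ := fun k => ‖u₀ k‖ ^ 2 with ha
  have ha0 : ∀ k, 0 ≤ a k := fun k => by positivity
  have hsum : Summable a := by
    have h1 : ∑' k : ℤ, ENNReal.ofReal (a k) ≠ ⊤ := by
      have h2 : hd 0 u₀ 0 = ∑' k : ℤ, ENNReal.ofReal (a k) := by
        unfold hd
        refine tsum_congr fun k => ?_
        rw [Real.rpow_zero, one_mul]
        simp [ha]
      rw [← h2]; exact hu.ne
    have h3 := ENNReal.summable_toReal h1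
    refine h3.congr fun k => ?_
    exact ENNReal.toReal_ofReal (ha0 k)
  obtain ⟨S, hS, hSt⟩ := z_approx_sets a hsum ha0
  set A : ℝ := ∑' k, a k with hA
  have hA0 : 0 ≤ A := tsum_nonneg ha0
  -- blocks
  obtain ⟨t, ht0, ht1⟩ : ∃ t : ℕ → Finset ℤ, t 0 = S 0 ∧ ∀ n, t (n + 1) = S (n + 1) \ S n :=
    ⟨fun n => Nat.casesOn n (S 0) (fun k => S (k + 1) \ S k), rfl, fun _ => rfl⟩
  have htb : ∀ n, ∑ k ∈ t n, a k ≤ (A + 16) * (1 / 16 : ℝ) ^ n := by
    intro n
    cases n with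
    | zero =>
      rw [ht0, pow_zero, mul_one]
      have := hsum.sum_le_tsum (S 0) (fun k _ => ha0 k)
      linarith
    | succ n =>
      rw [ht1]
      have h1 := hSt n (S (n + 1) \ S n) Finset.sdiff_disjoint
      have h2 : (0 : ℝ) < (1 / 16 : ℝ) ^ n := by positivity
      have h3 : (1 / 16 : ℝ) ^ (n + 1) = (1 / 16 : ℝ) ^ n * (1 / 16) := pow_succ _ _
      rw [h3]
      nlinarith
  set Q : ℝ → ℝ≥0∞ := fun x => ∑' n : ℕ, ENNReal.ofReal ((4 : ℝ) ^ n * ‖zT u₀ (t n) x‖ ^ 2) with hQ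
  have hQm : Measurable Q := by
    refine Measurable.ennreal_tsum fun n => ?_
    have h1 : Continuous (fun x => (4 : ℝ) ^ n * ‖zT u₀ (t n) x‖ ^ 2) := by
      have := zT_cont u₀ (t n)
      fun_prop
    exact h1.measurable.ennreal_ofReal
  have hQint : ∫⁻ x in Ioc 0 (2 * Real.pi), Q x ≠ ⊤ := by
    rw [hQ, lintegral_tsum]
    · have h1 : ∀ n : ℕ, ∫⁻ x in Ioc 0 (2 * Real.pi),
          ENNReal.ofReal ((4 : ℝ) ^ n * ‖zT u₀ (t n) x‖ ^ 2) ≤
          ENNReal.ofReal (2 * Real.pi * (A + 16) * (1 / 4 : ℝ) ^ n) := by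
        intro n
        rw [zT_lint _ _ _ (by positivity)]
        apply ENNReal.ofReal_le_ofReal
        have h2 := htb n
        have h3 : (0 : ℝ) < 4 ^ n := by positivity
        have h4 : (4 : ℝ) ^ n * (1 / 16 : ℝ) ^ n = (1 / 4 : ℝ) ^ n := by
          rw [← mul_pow]; norm_num
        calc (4 : ℝ) ^ n * (2 * Real.pi * ∑ j ∈ t n, ‖u₀ j‖ ^ 2)
            ≤ (4 : ℝ) ^ n * (2 * Real.pi * ((A + 16) * (1 / 16 : ℝ) ^ n)) := by
              gcongr
          _ = 2 * Real.pi * (A + 16) * ((4 : ℝ) ^ n * (1 / 16 : ℝ) ^ n) := by ring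
          _ = _ := by rw [h4]
      refine ne_top_of_le_ne_top ?_ (ENNReal.tsum_le_tsum h1)
      have h5 : Summable (fun n : ℕ => 2 * Real.pi * (A + 16) * (1 / 4 : ℝ) ^ n) :=
        (summable_geometric_of_lt_one (by norm_num) (by norm_num)).mul_left _
      exact h5.tsum_ofReal_ne_top
    · intro n
      have h1 : Continuous (fun x => (4 : ℝ) ^ n * ‖zT u₀ (t n) x‖ ^ 2) := by
        have := zT_cont u₀ (t n)
        fun_prop
      exact h1.measurable.ennreal_ofReal.aemeasurable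
  have hQae : ∀ᵐ x ∂(volume.restrict (Ioc 0 (2 * Real.pi))), Q x < ⊤ := ae_lt_top hQm hQint
  refine ⟨fun n => zT u₀ (S n), fun x => 2 * Real.sqrt (Q x).toReal,
    fun n => ⟨zT_smooth _ _, zT_per _ _⟩, ?_, fun x => by positivity, ?_, ?_, ?_⟩
  · exact (hQm.ennreal_toReal.sqrt).const_mul 2
  · have h1 : Integrable (fun x => (Q x).toReal) (volume.restrict (Ioc 0 (2 * Real.pi))) :=
      integrable_toReal_of_lintegral_ne_top hQm.aemeasurable hQint
    have h2 := h1.const_mul 4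
    refine h2.congr (Filter.Eventually.of_forall fun x => ?_)
    show 4 * (Q x).toReal = (2 * Real.sqrt (Q x).toReal) ^ 2
    rw [mul_pow, Real.sq_sqrt ENNReal.toReal_nonneg]
    norm_num
  · filter_upwards [hQae] with x hx
    have hg : ∀ n, ‖zT u₀ (t n) x‖ ≤ Real.sqrt (Q x).toReal * (1 / 2 : ℝ) ^ n := by
      intro n
      have h1 : ENNReal.ofReal ((4 : ℝ) ^ n * ‖zT u₀ (t n) x‖ ^ 2) ≤ Q x :=
        ENNReal.le_tsum (f := fun n : ℕ => ENNReal.ofReal ((4 : ℝ) ^ n * ‖zT u₀ (t n) x‖ ^ 2)) n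
      rw [ENNReal.ofReal_le_iff_le_toReal hx.ne] at h1
      have h2 : 2 ^ n * ‖zT u₀ (t n) x‖ ≤ Real.sqrt (Q x).toReal := by
        apply Real.le_sqrt_of_sq_le
        have h3 : ((2 : ℝ) ^ n * ‖zT u₀ (t n) x‖) ^ 2 = (4 : ℝ) ^ n * ‖zT u₀ (t n) x‖ ^ 2 := by
          rw [mul_pow, ← pow_mul, mul_comm n 2, pow_mul]; norm_num
        rw [h3]; exact h1
      have h4 : (0 : ℝ) < 2 ^ n := by positivity
      rw [one_div, inv_pow, ← div_eq_mul_inv, le_div_iff₀ h4, mul_comm]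
      exact h2
    have hstep : ∀ n, zT u₀ (S (n + 1)) x = zT u₀ (S n) x + zT u₀ (t (n + 1)) x := by
      intro n
      rw [ht1]
      unfold zT
      exact (Finset.sum_sdiff (hS n)).symm.trans (add_comm _ _)
    constructor
    · have h5 : ∀ n, ‖zT u₀ (S n) x‖ ≤ Real.sqrt (Q x).toReal * (2 - (1 / 2 : ℝ) ^ n) := by
        intro n
        induction n with
        | zero =>
          have := hg 0
          rw [ht0] at this
          simpa using (this.trans (by norm_num))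
        | succ n ih =>
          rw [hstep]
          have h6 := norm_add_le (zT u₀ (S n) x) (zT u₀ (t (n + 1)) x)
          have h7 := hg (n + 1)
          have h8 : (1 / 2 : ℝ) ^ (n + 1) = (1 / 2 : ℝ) ^ n * (1 / 2) := pow_succ _ _
          rw [h8] at h7 ⊢
          nlinarith
      intro n
      have h6 := h5 n
      have h7 : (0 : ℝ) < (1 / 2 : ℝ) ^ n := by positivity
      have h8 : 0 ≤ Real.sqrt (Q x).toReal := Real.sqrt_nonneg _
      show ‖zT u₀ (S n) x‖ ≤ 2 * Real.sqrt (Q x).toReal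
      nlinarith
    · refine cauchySeq_of_le_geometric (1 / 2) (Real.sqrt (Q x).toReal) (by norm_num) fun n => ?_
      rw [hstep, dist_eq_norm, sub_add_cancel_left, norm_neg]
      refine (hg (n + 1)).trans ?_
      have h8 : 0 ≤ Real.sqrt (Q x).toReal := Real.sqrt_nonneg _
      have h9 : (1 / 2 : ℝ) ^ (n + 1) ≤ (1 / 2 : ℝ) ^ n :=
        pow_le_pow_of_le_one (by norm_num) (by norm_num) (by omega)
      gcongr
  · have h1 : ∀ n, hd 0 (fc (zT u₀ (S n))) u₀ ≤ ENNReal.ofReal ((1 / 16 : ℝ) ^ n) := by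
      intro n
      unfold hd
      rw [ENNReal.tsum_eq_iSup_sum]
      refine iSup_le fun r => ?_
      have h2 : ∀ k : ℤ, ENNReal.ofReal ((1 + |(k:ℝ)|) ^ (0:ℝ) * ‖fc (zT u₀ (S n)) k - u₀ k‖ ^ 2) =
          if k ∈ S n then 0 else ENNReal.ofReal (a k) := by
        intro k
        rw [Real.rpow_zero, one_mul, zT_fc]
        split_ifs with hk
        · simp
        · simp [ha]
      simp only [h2]
      rw [Finset.sum_ite, Finset.sum_const_zero, zero_add,
        ← ENNReal.ofReal_sum_of_nonneg (fun k _ => ha0 k)]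
      apply ENNReal.ofReal_le_ofReal
      refine hSt n _ ?_
      rw [Finset.disjoint_left]
      intro k hk
      exact (Finset.mem_filter.1 hk).2
    have h3 : Tendsto (fun n : ℕ => ENNReal.ofReal ((1 / 16 : ℝ) ^ n)) atTop (𝓝 0) := by
      have := ENNReal.tendsto_ofReal (tendsto_pow_atTop_nhds_zero_of_lt_one
        (by norm_num : (0:ℝ) ≤ 1 / 16) (by norm_num))
      rwa [ENNReal.ofReal_zero] at this
    exact tendsto_of_tendsto_of_tendsto_of_le_of_le tendsto_const_nhds h3 (fun _ => bot_le) h1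



end Xzapp
end MMT
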