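import Pool.Agent.Helper823.MMT.Defs2
open Complex MeasureTheory Filter Topology Set
open scoped ContDiff ENNReal
namespace MMT
namespace Xzcau

theorem z_cauchy (hst : ∀ (y y' m m' : ℝ → ℂ) (T R δ d : ℝ), 0 ≤ T → 0 ≤ δ → Continuous m → Continuous m' →
      (∀ t, HasDerivAt y (-I * (y t - m t + ((‖y t‖ ^ 2 : ℝ) : ℂ) * y t)) t) →
      (∀ t, HasDerivAt y' (-I * (y' t - m' t + ((‖y' t‖ ^ 2 : ℝ) : ℂ) * y' t)) t) →
      (∀ t ∈ Icc (-T) T, ‖y t‖ ≤ R) → (∀ t ∈ Icc (-T) T, ‖y' t‖ ≤ R) →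
      (∀ t ∈ Icc (-T) T, ‖m t - m' t‖ ≤ δ) → ‖y 0 - y' 0‖ ≤ d →
      ∀ t ∈ Icc (-T) T, ‖y t - y' t‖ ≤ (d + T * δ) * Real.exp ((1 + 3 * R ^ 2) * T))
    (v : ℕ → ℝ → ℝ → ℂ) (hz : ∀ n, ZP (v n)) (h : ℝ → ℝ) (hm : Measurable h) (h0 : ∀ x, 0 ≤ h x)
    (hi : IntegrableOn (fun x => h x ^ 2) (Ioc 0 (2 * Real.pi)))
    (hb : ∀ᵐ x ∂(volume.restrict (Ioc 0 (2 * Real.pi))), (∀ n, ‖v n 0 x‖ ≤ h x) ∧ CauchySeq (fun n => v n 0 x))
    (hc : ∀ T ε : ℝ, 0 < T → 0 < ε → ∃ N : ℕ, ∀ n ≥ N, ∀ m ≥ N, ∀ t ∈ Icc (-T) T, ‖fc (v n t) 0 - fc (v m t) 0‖ ≤ ε) :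
    ∀ T ε : ℝ, 0 < T → 0 < ε → ∃ N : ℕ, ∀ n ≥ N, ∀ m ≥ N, ∀ t ∈ Icc (-T) T,
      ∫ x in (0:ℝ)..(2 * Real.pi), ‖v n t x - v m t x‖ ^ 2 ≤ ε := by
  intro T ε hT hε
  have hpi := Real.pi_pos
  have h2pi : (0:ℝ) ≤ 2 * Real.pi := by positivity
  obtain ⟨M, hM⟩ : ∃ M : ℝ, M = Real.sqrt ((1 / (2 * Real.pi)) *
    ∫ x in (0:ℝ)..(2 * Real.pi), h x ^ 2) := ⟨_, rfl⟩
  have hM0 : 0 ≤ M := by rw [hM]; exact Real.sqrt_nonneg _
  have hsq : ∀ n, Real.sqrt ((1 / (2 * Real.pi)) *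
      ∫ x in (0:ℝ)..(2 * Real.pi), ‖v n 0 x‖ ^ 2) ≤ M := by
    intro n
    rw [hM]
    apply Real.sqrt_le_sqrt
    apply mul_le_mul_of_nonneg_left _ (by positivity)
    rw [intervalIntegral.integral_of_le h2pi, intervalIntegral.integral_of_le h2pi]
    refine integral_mono_of_nonneg (Eventually.of_forall fun x => sq_nonneg _) hi ?_
    filter_upwards [hb] with x hx
    exact pow_le_pow_left₀ (norm_nonneg _) (hx.1 n) 2
  have hvR : ∀ x, (∀ n, ‖v n 0 x‖ ≤ h x) → ∀ n, ∀ t ∈ Icc (-T) T, ‖v n t x‖ ≤ h x + T * M := by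
    intro x hx n t ht
    have h1 := (hz n).2.2.2.1 t x
    have h2 : |t| ≤ T := abs_le.2 ht
    refine h1.trans (add_le_add (hx n) (mul_le_mul h2 (hsq n) (Real.sqrt_nonneg _) hT.le))
  -- the sup of the differences of the zero modes
  obtain ⟨δ, hδ⟩ : ∃ δ : ℕ → ℕ → ℝ, δ = fun n m =>
    sSup ((fun t => ‖fc (v n t) 0 - fc (v m t) 0‖) '' Icc (-T) T) := ⟨_, rfl⟩
  have hcont : ∀ n m, Continuous (fun t => ‖fc (v n t) 0 - fc (v m t) 0‖) := fun n m =>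
    (((hz n).2.2.2.2.1).sub ((hz m).2.2.2.2.1)).norm
  have hbdd : ∀ n m, BddAbove ((fun t => ‖fc (v n t) 0 - fc (v m t) 0‖) '' Icc (-T) T) :=
    fun n m => (isCompact_Icc.image (hcont n m)).bddAbove
  have hδle : ∀ n m, ∀ t ∈ Icc (-T) T, ‖fc (v n t) 0 - fc (v m t) 0‖ ≤ δ n m := by
    intro n m t ht
    rw [hδ]
    exact le_csSup (hbdd n m) ⟨t, ht, rfl⟩
  have hne : ∀ n m, ((fun t => ‖fc (v n t) 0 - fc (v m t) 0‖) '' Icc (-T) T).Nonempty :=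
    fun n m => ⟨_, ⟨0, ⟨by linarith, hT.le⟩, rfl⟩⟩
  have hδ0 : ∀ n m, 0 ≤ δ n m := fun n m =>
    (norm_nonneg _).trans (hδle n m 0 ⟨by linarith, hT.le⟩)
  have hδlim : Tendsto (fun p : ℕ × ℕ => δ p.1 p.2) atTop (𝓝 0) := by
    rw [Metric.tendsto_atTop]
    intro e he
    obtain ⟨N, hN⟩ := hc T (e / 2) hT (by positivity)
    refine ⟨(N, N), fun p hp => ?_⟩
    have hp' : N ≤ p.1 ∧ N ≤ p.2 := hp
    rw [Real.dist_eq, sub_zero, abs_of_nonneg (hδ0 _ _)]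
    have h1 : δ p.1 p.2 ≤ e / 2 := by
      rw [hδ]
      refine csSup_le (hne _ _) ?_
      rintro _ ⟨t, ht, rfl⟩
      exact hN p.1 hp'.1 p.2 hp'.2 t ht
    linarith
  obtain ⟨R, hR⟩ : ∃ R : ℝ → ℝ, R = fun x => h x + T * M := ⟨_, rfl⟩
  have hRm : Measurable R := by rw [hR]; fun_prop
  obtain ⟨Φ, hΦ⟩ : ∃ Φ : ℕ × ℕ → ℝ → ℝ, Φ = fun p x => min (4 * R x ^ 2)
    (((‖v p.1 0 x - v p.2 0 x‖ + T * δ p.1 p.2) * Real.exp ((1 + 3 * R x ^ 2) * T)) ^ 2) :=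
    ⟨_, rfl⟩
  have hvc : ∀ n t, Continuous (fun x => v n t x) := fun n t =>
    ((hz n).2.2.2.2.2.1).comp (Continuous.prodMk_right t)
  have hΦm : ∀ p, Measurable (Φ p) := by
    intro p
    have h1 : Measurable (fun x => v p.1 0 x) := (hvc p.1 0).measurable
    have h2 : Measurable (fun x => v p.2 0 x) := (hvc p.2 0).measurable
    rw [hΦ]
    show Measurable (fun x => min (4 * R x ^ 2)
      (((‖v p.1 0 x - v p.2 0 x‖ + T * δ p.1 p.2) * Real.exp ((1 + 3 * R x ^ 2) * T)) ^ 2))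
    fun_prop
  have hΦ0 : ∀ p x, 0 ≤ Φ p x := by
    intro p x
    rw [hΦ]
    exact le_min (by positivity) (sq_nonneg _)
  have hΦle : ∀ p x, Φ p x ≤ 4 * R x ^ 2 := by
    intro p x
    rw [hΦ]
    exact min_le_left _ _
  have hbd : Integrable (fun x => 4 * R x ^ 2) (volume.restrict (Ioc 0 (2 * Real.pi))) := by
    have h1 : Integrable (fun x => 8 * (h x ^ 2) + 8 * (T * M) ^ 2)
        (volume.restrict (Ioc 0 (2 * Real.pi))) :=
      (hi.const_mul 8).add (integrable_const _)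
    refine h1.mono' (by fun_prop) (Eventually.of_forall fun x => ?_)
    rw [Real.norm_eq_abs, abs_of_nonneg (by positivity), hR]
    show 4 * (h x + T * M) ^ 2 ≤ _
    nlinarith [sq_nonneg (h x - T * M)]
  have hΦi : ∀ p, Integrable (Φ p) (volume.restrict (Ioc 0 (2 * Real.pi))) := by
    intro p
    refine hbd.mono' (hΦm p).aestronglyMeasurable (Eventually.of_forall fun x => ?_)
    rw [Real.norm_eq_abs, abs_of_nonneg (hΦ0 p x)]
    exact hΦle p x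
  have hlim : Tendsto (fun p : ℕ × ℕ => ∫ x, Φ p x ∂(volume.restrict (Ioc 0 (2 * Real.pi)))) atTop
      (𝓝 (∫ x, (0:ℝ) ∂(volume.restrict (Ioc 0 (2 * Real.pi))))) := by
    refine tendsto_integral_filter_of_dominated_convergence (fun x => 4 * R x ^ 2)
      (Eventually.of_forall fun p => (hΦm p).aestronglyMeasurable)
      (Eventually.of_forall fun p => Eventually.of_forall fun x => ?_) hbd ?_
    · rw [Real.norm_eq_abs, abs_of_nonneg (hΦ0 p x)]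
      exact hΦle p x
    · filter_upwards [hb] with x hx
      have h1 : Tendsto (fun p : ℕ × ℕ => ‖v p.1 0 x - v p.2 0 x‖) atTop (𝓝 0) := by
        have h2 := cauchySeq_iff_tendsto_dist_atTop_0.1 hx.2
        simpa only [dist_eq_norm] using h2
      have h3 : Tendsto (fun p : ℕ × ℕ => min (4 * R x ^ 2)
          (((‖v p.1 0 x - v p.2 0 x‖ + T * δ p.1 p.2) * Real.exp ((1 + 3 * R x ^ 2) * T)) ^ 2))
          atTop (𝓝 (min (4 * R x ^ 2) (((0 + T * 0) * Real.exp ((1 + 3 * R x ^ 2) * T)) ^ 2))) :=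
        tendsto_const_nhds.min
          (((h1.add (hδlim.const_mul T)).mul_const (Real.exp ((1 + 3 * R x ^ 2) * T))).pow 2)
      have h4 : min (4 * R x ^ 2) (((0 + T * 0) * Real.exp ((1 + 3 * R x ^ 2) * T)) ^ 2) = 0 := by
        rw [mul_zero, add_zero, zero_mul, zero_pow two_ne_zero]
        exact min_eq_right (by positivity)
      rw [h4] at h3
      rw [hΦ]
      exact h3
  rw [integral_zero, Metric.tendsto_atTop] at hlim
  obtain ⟨p0, hp0⟩ := hlim ε hε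
  refine ⟨max p0.1 p0.2, fun n hn m hm' t ht => ?_⟩
  have hnm : ((n, m) : ℕ × ℕ) ≥ p0 := ⟨(le_max_left _ _).trans hn, (le_max_right _ _).trans hm'⟩
  have h5 := hp0 (n, m) hnm
  rw [Real.dist_eq, sub_zero] at h5
  have h6 : ∫ x in (0:ℝ)..(2 * Real.pi), ‖v n t x - v m t x‖ ^ 2 ≤
      ∫ x, Φ (n, m) x ∂(volume.restrict (Ioc 0 (2 * Real.pi))) := by
    rw [intervalIntegral.integral_of_le h2pi]
    refine integral_mono_of_nonneg (Eventually.of_forall fun x => sq_nonneg _) (hΦi (n, m)) ?_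
    filter_upwards [hb] with x hx
    have h7 := hvR x hx.1 n
    have h8 := hvR x hx.1 m
    have hRx : R x = h x + T * M := by rw [hR]
    rw [← hRx] at h7 h8
    rw [hΦ]
    refine le_min ?_ ?_
    · have h9 := h7 t ht
      have h10 := h8 t ht
      have h11 : ‖v n t x - v m t x‖ ≤ 2 * R x := (norm_sub_le _ _).trans (by linarith)
      calc ‖v n t x - v m t x‖ ^ 2 ≤ (2 * R x) ^ 2 := pow_le_pow_left₀ (norm_nonneg _) h11 2
        _ = 4 * R x ^ 2 := by ring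
    · refine pow_le_pow_left₀ (norm_nonneg _) ?_ 2
      exact hst (fun s => v n s x) (fun s => v m s x) (fun s => fc (v n s) 0)
        (fun s => fc (v m s) 0) T (R x) (δ n m) ‖v n 0 x - v m 0 x‖ hT.le (hδ0 n m)
        (hz n).2.2.2.2.1 (hz m).2.2.2.2.1 (fun s => (hz n).1 s x) (fun s => (hz m).1 s x)
        h7 h8 (hδle n m) le_rfl t ht
  exact h6.trans ((le_abs_self _).trans h5.le)


end Xzcau
end MMT
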