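import Pool.Agent.Helper823.MMT.Defs2
open Complex MeasureTheory Filter Topology Set
open scoped ContDiff ENNReal
namespace MMT
namespace Xzcomp

theorem z_AA (m : ℕ → ℝ → ℂ) (M : ℝ) (hM : ∀ n t, ‖m n t‖ ≤ M)
    (heq : ∀ T > 0, ∀ ε > 0, ∃ δ > 0, ∀ n, ∀ s ∈ Icc (-T) T, ∀ t ∈ Icc (-T) T, |t - s| ≤ δ →
      ‖m n t - m n s‖ ≤ ε) :
    ∃ φ : ℕ → ℕ, StrictMono φ ∧ ∀ T ε : ℝ, 0 < T → 0 < ε → ∃ N : ℕ, ∀ n ≥ N, ∀ k ≥ N,
      ∀ t ∈ Icc (-T) T, ‖m (φ n) t - m (φ k) t‖ ≤ ε := by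
  have hc : IsCompact (Set.pi univ (fun _ : ℚ => Metric.closedBall (0:ℂ) M)) :=
    isCompact_univ_pi (fun _ => isCompact_closedBall _ _)
  obtain ⟨a, -, φ, hφ, hlim⟩ := hc.tendsto_subseq (x := fun n => fun q : ℚ => m n (q:ℝ))
    (fun n q _ => by simpa using hM n q)
  rw [tendsto_pi_nhds] at hlim
  refine ⟨φ, hφ, fun T ε hT hε => ?_⟩
  obtain ⟨δ, hδ, H⟩ := heq (T+1) (by linarith) (ε/3) (by linarith)
  obtain ⟨K, hK⟩ := exists_nat_gt (max (1/δ) 1)
  have hK1 : (1:ℝ) < K := (le_max_right _ _).trans_lt hK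
  have hKδ : 1/δ < K := (le_max_left _ _).trans_lt hK
  have hK0 : (0:ℝ) < K := by linarith
  obtain ⟨J, hJ⟩ := exists_nat_gt ((T+1) * K)
  have hev : ∀ᶠ n in atTop, ∀ j ∈ Finset.Icc (-(J:ℤ)) J,
      dist (m (φ n) (((j / K : ℚ) : ℝ))) (a (j / K : ℚ)) < ε/6 := by
    rw [Filter.eventually_all_finset]
    intro j _
    exact (Metric.tendsto_nhds.1 (hlim (j / K : ℚ))) (ε/6) (by linarith)
  obtain ⟨N, hN⟩ := eventually_atTop.1 hev
  refine ⟨N, fun n hn k hk t ht => ?_⟩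
  obtain ⟨j, hj⟩ : ∃ j : ℤ, j = ⌊t * K⌋ := ⟨_, rfl⟩
  have hj1 : (j:ℝ) ≤ t * K := by rw [hj]; exact Int.floor_le _
  have hj2 : t * K < j + 1 := by rw [hj]; exact Int.lt_floor_add_one _
  have hjm : j ∈ Finset.Icc (-(J:ℤ)) J := by
    rw [Finset.mem_Icc]
    have h1 : t * K ≤ T * K := mul_le_mul_of_nonneg_right ht.2 hK0.le
    have h2 : -T * K ≤ t * K := mul_le_mul_of_nonneg_right ht.1 hK0.le
    constructor
    · have : (-(J:ℝ)) < j := by nlinarith
      have : ((-(J:ℤ) : ℤ) : ℝ) < j := by push_cast; exact this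
      exact (Int.cast_lt.1 this).le
    · have : (j:ℝ) < (J:ℝ) := by nlinarith
      have : (j:ℝ) < ((J:ℤ):ℝ) := by push_cast; exact this
      exact (Int.cast_lt.1 this).le
  obtain ⟨q, hq⟩ : ∃ q : ℝ, q = (((j / K : ℚ)) : ℝ) := ⟨_, rfl⟩
  have hqj : q * K = j := by
    rw [hq]; push_cast
    field_simp
  have hqt1 : q ≤ t := by
    by_contra hcon
    push Not at hcon
    nlinarith
  have hqt2 : t - q < 1 / K := by
    rw [lt_div_iff₀ hK0]
    nlinarith
  have hKinv : 1 / (K:ℝ) < 1 := by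
    rw [div_lt_one hK0]; exact hK1
  have hKinvδ : 1 / (K:ℝ) < δ := by
    rw [div_lt_iff₀ hK0]
    rw [div_lt_iff₀ hδ] at hKδ
    linarith
  have hqm : q ∈ Icc (-(T+1)) (T+1) := ⟨by have := ht.1; linarith, by have := ht.2; linarith⟩
  have htm : t ∈ Icc (-(T+1)) (T+1) := ⟨by have := ht.1; linarith, by have := ht.2; linarith⟩
  have habs : |t - q| ≤ δ := by
    rw [abs_of_nonneg (by linarith)]; linarith
  have a1 := H (φ n) q hqm t htm habs
  have a2 := H (φ k) q hqm t htm habs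
  have a3 := hN n hn j hjm
  have a4 := hN k hk j hjm
  rw [← hq, dist_eq_norm] at a3 a4
  have e : m (φ n) t - m (φ k) t = (m (φ n) t - m (φ n) q) - (m (φ k) t - m (φ k) q) +
      ((m (φ n) q - a (j / K : ℚ)) - (m (φ k) q - a (j / K : ℚ))) := by ring
  rw [e]
  refine (norm_add_le _ _).trans ?_
  have b1 := norm_sub_le (m (φ n) t - m (φ n) q) (m (φ k) t - m (φ k) q)
  have b2 := norm_sub_le (m (φ n) q - a (j / K : ℚ)) (m (φ k) q - a (j / K : ℚ))
  linarith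

theorem z_compact (v : ℕ → ℝ → ℝ → ℂ) (hz : ∀ n, ZP (v n)) (h : ℝ → ℝ) (hm : Measurable h) (h0 : ∀ x, 0 ≤ h x)
    (hi : IntegrableOn (fun x => h x ^ 2) (Ioc 0 (2 * Real.pi)))
    (hb : ∀ᵐ x ∂(volume.restrict (Ioc 0 (2 * Real.pi))), ∀ n, ‖v n 0 x‖ ≤ h x) :
    ∃ φ : ℕ → ℕ, StrictMono φ ∧ ∀ T ε : ℝ, 0 < T → 0 < ε → ∃ N : ℕ, ∀ n ≥ N, ∀ m ≥ N, ∀ t ∈ Icc (-T) T,
      ‖fc (v (φ n) t) 0 - fc (v (φ m) t) 0‖ ≤ ε := by
  obtain ⟨M, hMdef⟩ : ∃ M, M = Real.sqrt ((1 / (2 * Real.pi)) * ∫ x in (0:ℝ)..(2 * Real.pi), h x ^ 2) :=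
    ⟨_, rfl⟩
  have hM0 : 0 ≤ M := by rw [hMdef]; exact Real.sqrt_nonneg _
  have hpi : (0:ℝ) < 2 * Real.pi := by positivity
  have hMn : ∀ n, Real.sqrt ((1 / (2 * Real.pi)) * ∫ x in (0:ℝ)..(2 * Real.pi), ‖v n 0 x‖ ^ 2) ≤ M := by
    intro n
    rw [hMdef]
    apply Real.sqrt_le_sqrt
    apply mul_le_mul_of_nonneg_left _ (by positivity)
    have hcont : Continuous (v n 0) := by
      have := (hz n).2.2.2.2.2.1
      exact this.comp (by fun_prop : Continuous fun x : ℝ => ((0:ℝ), x))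
    rw [intervalIntegral.integral_of_le hpi.le, intervalIntegral.integral_of_le hpi.le]
    apply integral_mono_ae
    · exact ((hcont.norm.pow 2).intervalIntegrable 0 (2 * Real.pi)).1
    · exact hi
    · filter_upwards [hb] with x hx
      exact pow_le_pow_left₀ (norm_nonneg _) (hx n) 2
  have hfc : ∀ f : ℝ → ℂ, fc f 0 = (1 / (2 * Real.pi) : ℂ) * ∫ x in (0:ℝ)..(2 * Real.pi), f x := by
    intro f
    simp [fc]
  have hint : IntegrableOn h (Ioc 0 (2 * Real.pi)) := by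
    have h1 : IntegrableOn (fun x => 1 + h x ^ 2) (Ioc 0 (2 * Real.pi)) :=
      (integrableOn_const measure_Ioc_lt_top.ne).add hi
    refine Integrable.mono' h1 hm.aestronglyMeasurable (Eventually.of_forall fun x => ?_)
    rw [Real.norm_eq_abs, abs_of_nonneg (h0 x)]
    nlinarith [sq_nonneg (h x - 1)]
  refine z_AA (fun n t => fc (v n t) 0) M (fun n t => ((hz n).2.2.1 t).trans (hMn n)) ?_
  intro T hT ε hε
  obtain ⟨b, hbdef⟩ : ∃ b : ℝ → ℝ, b = fun x => h x + M * T := ⟨_, rfl⟩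
  obtain ⟨L, hLdef⟩ : ∃ L : ℝ → ℝ, L = fun x => b x + M + b x ^ 3 := ⟨_, rfl⟩
  have hb0 : ∀ x, 0 ≤ b x := by
    intro x
    rw [hbdef]
    have := h0 x
    positivity
  have hL0 : ∀ x, 0 ≤ L x := by
    intro x
    rw [hLdef]
    have := hb0 x
    positivity
  have hbm : Measurable b := by rw [hbdef]; exact hm.add_const _
  have hLm : Measurable L := by
    rw [hLdef]; exact (hbm.add_const _).add (hbm.pow_const _)
  have hbi : IntegrableOn b (Ioc 0 (2 * Real.pi)) := by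
    rw [hbdef]
    exact hint.add (integrableOn_const measure_Ioc_lt_top.ne)
  have hbi2 : IntegrableOn (fun x => 2 * b x) (Ioc 0 (2 * Real.pi)) := hbi.const_mul 2
  -- dominated convergence
  have hdc : Tendsto (fun k : ℕ => ∫ x in Ioc 0 (2 * Real.pi), min (2 * b x) (L x * (1 / ((k:ℝ) + 1))))
      atTop (𝓝 (∫ x in Ioc 0 (2 * Real.pi), (0:ℝ))) := by
    refine tendsto_integral_of_dominated_convergence (fun x => 2 * b x) ?_ hbi2 ?_ ?_
    · intro k
      exact ((hbm.const_mul 2).min (hLm.mul_const _)).aestronglyMeasurable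
    · intro k
      refine Eventually.of_forall fun x => ?_
      have h1 : 0 ≤ L x * (1 / ((k:ℝ) + 1)) := mul_nonneg (hL0 x) (by positivity)
      have h2 : 0 ≤ 2 * b x := by have := hb0 x; positivity
      rw [Real.norm_eq_abs, abs_of_nonneg (le_min h2 h1)]
      exact min_le_left _ _
    · refine Eventually.of_forall fun x => ?_
      have h1 : Tendsto (fun k : ℕ => L x * (1 / ((k:ℝ) + 1))) atTop (𝓝 (L x * 0)) :=
        tendsto_one_div_add_atTop_nhds_zero_nat.const_mul _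
      rw [mul_zero] at h1
      have h2 : Tendsto (fun k : ℕ => min (2 * b x) (L x * (1 / ((k:ℝ) + 1)))) atTop
          (𝓝 (min (2 * b x) 0)) := (tendsto_const_nhds).min h1
      rwa [min_eq_right (by have := hb0 x; positivity)] at h2
  rw [integral_zero] at hdc
  obtain ⟨k, hk⟩ := ((hdc.eventually (gt_mem_nhds hε))).exists
  refine ⟨1 / ((k:ℝ) + 1), by positivity, fun n s hs t ht hst => ?_⟩
  have hvc : ∀ r, Continuous (v n r) := by
    intro r
    exact ((hz n).2.2.2.2.2.1).comp (by fun_prop : Continuous fun x : ℝ => (r, x))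
  have hkey : ∀ᵐ x ∂(volume.restrict (Ioc 0 (2 * Real.pi))),
      ‖v n t x - v n s x‖ ≤ min (2 * b x) (L x * (1 / ((k:ℝ) + 1))) := by
    filter_upwards [hb] with x hx
    have hbd : ∀ r ∈ Icc (-T) T, ‖v n r x‖ ≤ b x := by
      intro r hr
      have h1 := (hz n).2.2.2.1 r x
      have h2 : |r| ≤ T := abs_le.2 hr
      have h3 : |r| * Real.sqrt ((1 / (2 * Real.pi)) * ∫ x in (0:ℝ)..(2 * Real.pi), ‖v n 0 x‖ ^ 2) ≤
          T * M := mul_le_mul h2 (hMn n) (Real.sqrt_nonneg _) hT.le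
      rw [hbdef]
      have h4 := hx n
      simp only
      linarith
    apply le_min
    · have h1 := hbd t ht
      have h2 := hbd s hs
      have h3 := norm_sub_le (v n t x) (v n s x)
      linarith
    · have hder : ∀ r ∈ Icc (-T) T, HasDerivWithinAt (fun r => v n r x)
          (-I * (v n r x - fc (v n r) 0 + ((‖v n r x‖ ^ 2 : ℝ) : ℂ) * v n r x)) (Icc (-T) T) r :=
        fun r _ => ((hz n).1 r x).hasDerivWithinAt
      have hbound : ∀ r ∈ Icc (-T) T,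
          ‖-I * (v n r x - fc (v n r) 0 + ((‖v n r x‖ ^ 2 : ℝ) : ℂ) * v n r x)‖ ≤ L x := by
        intro r hr
        have h1 := hbd r hr
        have h2 : ‖fc (v n r) 0‖ ≤ M := ((hz n).2.2.1 r).trans (hMn n)
        have h3 : ‖((‖v n r x‖ ^ 2 : ℝ) : ℂ) * v n r x‖ ≤ b x ^ 3 := by
          rw [norm_mul, Complex.norm_real, Real.norm_eq_abs, abs_of_nonneg (by positivity)]
          calc ‖v n r x‖ ^ 2 * ‖v n r x‖ = ‖v n r x‖ ^ 3 := by ring
            _ ≤ b x ^ 3 := pow_le_pow_left₀ (norm_nonneg _) h1 3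
        rw [norm_mul, norm_neg, Complex.norm_I, one_mul, hLdef]
        refine (norm_add_le _ _).trans (add_le_add ((norm_sub_le _ _).trans (add_le_add h1 h2)) h3)
      have h5 := (convex_Icc (-T) T).norm_image_sub_le_of_norm_hasDerivWithin_le hder hbound hs ht
      refine h5.trans (mul_le_mul_of_nonneg_left ?_ (hL0 x))
      rw [Real.norm_eq_abs]
      exact hst
  change ‖fc (v n t) 0 - fc (v n s) 0‖ ≤ ε
  rw [hfc, hfc, ← mul_sub, ← intervalIntegral.integral_sub ((hvc t).intervalIntegrable _ _)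
    ((hvc s).intervalIntegrable _ _), intervalIntegral.integral_of_le hpi.le, norm_mul]
  have hgi : IntegrableOn (fun x => min (2 * b x) (L x * (1 / ((k:ℝ) + 1)))) (Ioc 0 (2 * Real.pi)) := by
    refine Integrable.mono' hbi2 ((hbm.const_mul 2).min (hLm.mul_const _)).aestronglyMeasurable
      (Eventually.of_forall fun x => ?_)
    have h1 : 0 ≤ L x * (1 / ((k:ℝ) + 1)) := mul_nonneg (hL0 x) (by positivity)
    have h2 : 0 ≤ 2 * b x := by have := hb0 x; positivity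
    rw [Real.norm_eq_abs, abs_of_nonneg (le_min h2 h1)]
    exact min_le_left _ _
  have h6 : ‖∫ x in Ioc 0 (2 * Real.pi), (v n t x - v n s x)‖ ≤ ε :=
    (MeasureTheory.norm_integral_le_of_norm_le hgi hkey).trans hk.le
  have h7 : ‖(1 / (2 * Real.pi) : ℂ)‖ ≤ 1 := by
    have h8 : (1 / (2 * Real.pi) : ℂ) = ((1 / (2 * Real.pi) : ℝ) : ℂ) := by push_cast; ring
    rw [h8, Complex.norm_real, Real.norm_eq_abs, abs_of_nonneg (by positivity), div_le_one hpi]
    have := Real.pi_gt_three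
    linarith
  calc ‖(1 / (2 * Real.pi) : ℂ)‖ * ‖∫ x in Ioc 0 (2 * Real.pi), (v n t x - v n s x)‖
      ≤ 1 * ε := mul_le_mul h7 h6 (norm_nonneg _) (by norm_num)
    _ = ε := one_mul _


end Xzcomp
end MMT
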