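import Pool.Agent.Helper823.MMT.Defs2
open Complex MeasureTheory Filter Topology Set
open scoped ContDiff ENNReal
namespace MMT
namespace Xzprops

theorem zp_fc0 (f : ℝ → ℂ) :
    fc f 0 = (1 / (2 * Real.pi) : ℂ) * ∫ x in (0:ℝ)..(2 * Real.pi), f x := by
  simp [fc]

theorem zp_par {F F' : ℝ → ℝ → ℝ} (hF : Continuous (fun p : ℝ × ℝ => F p.1 p.2))
    (hF' : Continuous (fun p : ℝ × ℝ => F' p.1 p.2))
    (h : ∀ t x, HasDerivAt (fun s => F s x) (F' t x) t) (t : ℝ) :
    HasDerivAt (fun s => ∫ x in (0:ℝ)..(2 * Real.pi), F s x)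
      (∫ x in (0:ℝ)..(2 * Real.pi), F' t x) t := by
  obtain ⟨C, hC⟩ := (isCompact_Icc.prod isCompact_Icc :
    IsCompact (Icc (t - 1) (t + 1) ×ˢ Icc (0:ℝ) (2 * Real.pi))).exists_bound_of_continuousOn
    hF'.continuousOn
  have hsec : ∀ s, Continuous (F s) := fun s => hF.comp (continuous_const.prodMk continuous_id)
  have hsec' : ∀ s, Continuous (F' s) := fun s => hF'.comp (continuous_const.prodMk continuous_id)
  refine (intervalIntegral.hasDerivAt_integral_of_dominated_loc_of_deriv_le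
    (F := F) (F' := F') (s := Icc (t - 1) (t + 1)) (bound := fun _ => C) (Icc_mem_nhds (by linarith) (by linarith))
    (Filter.Eventually.of_forall fun s => (hsec s).aestronglyMeasurable)
    ((hsec t).intervalIntegrable _ _) (hsec' t).aestronglyMeasurable ?_
    intervalIntegrable_const ?_).2
  · refine Filter.Eventually.of_forall fun x hx s hs => ?_
    refine hC (s, x) ⟨hs, ?_⟩
    rw [uIoc_of_le (by positivity)] at hx
    exact ⟨hx.1.le, hx.2⟩
  · exact Filter.Eventually.of_forall fun x _ s _ => h s x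

theorem zp_cs (f : ℝ → ℂ) (hf : Continuous f) :
    ‖fc f 0‖ ≤ Real.sqrt ((1 / (2 * Real.pi)) * ∫ x in (0:ℝ)..(2 * Real.pi), ‖f x‖ ^ 2) := by
  have hpi : 0 < 2 * Real.pi := by positivity
  have h1 : ‖∫ x in (0:ℝ)..(2 * Real.pi), f x‖ ≤ ∫ x in (0:ℝ)..(2 * Real.pi), ‖f x‖ :=
    intervalIntegral.norm_integral_le_integral_norm hpi.le
  set A := ∫ x in (0:ℝ)..(2 * Real.pi), ‖f x‖ with hA
  set Q := ∫ x in (0:ℝ)..(2 * Real.pi), ‖f x‖ ^ 2 with hQ
  have hi1 : IntervalIntegrable (fun x => ‖f x‖) volume 0 (2 * Real.pi) :=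
    hf.norm.intervalIntegrable _ _
  have hi2 : IntervalIntegrable (fun x => ‖f x‖ ^ 2) volume 0 (2 * Real.pi) :=
    (hf.norm.pow 2).intervalIntegrable _ _
  have h2 : A ^ 2 ≤ 2 * Real.pi * Q := by
    have h3 : 0 ≤ ∫ x in (0:ℝ)..(2 * Real.pi), (‖f x‖ - A / (2 * Real.pi)) ^ 2 :=
      intervalIntegral.integral_nonneg hpi.le fun x _ => sq_nonneg _
    have h4 : ∫ x in (0:ℝ)..(2 * Real.pi), (‖f x‖ - A / (2 * Real.pi)) ^ 2 =
        Q - A ^ 2 / (2 * Real.pi) := by
      have e1 : ∀ x, (‖f x‖ - A / (2 * Real.pi)) ^ 2 =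
        (‖f x‖ ^ 2 - (2 * (A / (2 * Real.pi))) * ‖f x‖) + (A / (2 * Real.pi)) ^ 2 := fun x => by ring
      simp_rw [e1]
      rw [intervalIntegral.integral_add (hi2.sub (hi1.const_mul _)) intervalIntegrable_const,
        intervalIntegral.integral_sub hi2 (hi1.const_mul _), intervalIntegral.integral_const_mul,
        intervalIntegral.integral_const, ← hQ, ← hA]
      simp only [smul_eq_mul, sub_zero]
      field_simp
      ring
    rw [h4] at h3
    have h5 : A ^ 2 / (2 * Real.pi) ≤ Q := by linarith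
    rw [div_le_iff₀ hpi] at h5
    linarith
  apply Real.le_sqrt_of_sq_le
  rw [zp_fc0, norm_mul, mul_pow]
  have h6 : ‖(1 / (2 * Real.pi) : ℂ)‖ = 1 / (2 * Real.pi) := by
    have : (1 / (2 * Real.pi) : ℂ) = ((1 / (2 * Real.pi) : ℝ) : ℂ) := by push_cast; ring
    rw [this, Complex.norm_real, Real.norm_eq_abs, abs_of_pos (by positivity)]
  rw [h6]
  have h7 : ‖∫ x in (0:ℝ)..(2 * Real.pi), f x‖ ^ 2 ≤ 2 * Real.pi * Q :=
    (pow_le_pow_left₀ (norm_nonneg _) h1 2).trans h2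
  calc (1 / (2 * Real.pi)) ^ 2 * ‖∫ x in (0:ℝ)..(2 * Real.pi), f x‖ ^ 2
      ≤ (1 / (2 * Real.pi)) ^ 2 * (2 * Real.pi * Q) :=
        mul_le_mul_of_nonneg_left h7 (by positivity)
    _ = 1 / (2 * Real.pi) * Q := by field_simp

theorem z_props (v : ℝ → ℝ → ℂ) (hv : SG 0 v)
    (ha : ∀ f : ℝ → ℂ, ContDiff ℝ 2 f → Function.Periodic f (2 * Real.pi) → ∀ x : ℝ, absD 0 f x = f x - fc f 0) : ZP v := by
  have hpi : 0 < 2 * Real.pi := by positivity
  have hcont : Continuous (fun p : ℝ × ℝ => v p.1 p.2) := hv.1.continuous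
  have hsec : ∀ t, Continuous (v t) := fun t => hcont.comp (continuous_const.prodMk continuous_id)
  have hper : ∀ t, Function.Periodic (v t) (2 * Real.pi) := by
    intro t
    have hT : 0 < |t| + 1 := by positivity
    exact (hv.2 _ hT).periodic t ⟨by linarith [neg_abs_le t], by linarith [le_abs_self t]⟩
  have hder : ∀ t x, HasDerivAt (fun s => v s x)
      (-I * (v t x - fc (v t) 0 + ((‖v t x‖ ^ 2 : ℝ) : ℂ) * v t x)) t := by
    intro t x
    have hT : 0 < |t| + 1 := by positivity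
    have h1 := (hv.2 _ hT).eqn t ⟨by linarith [neg_abs_le t], by linarith [le_abs_self t]⟩ x
    have hc2 : ContDiff ℝ 2 (v t) := by
      have := hv.1.comp (contDiff_const.prodMk contDiff_id : ContDiff ℝ ∞ (fun x : ℝ => (t, x)))
      exact_mod_cast contDiff_infty.1 this 2
    rw [ha (v t) hc2 (hper t) x] at h1
    have hd : DifferentiableAt ℝ (fun s => v s x) t := by
      have := hv.1.comp (contDiff_id.prodMk contDiff_const : ContDiff ℝ ∞ (fun s : ℝ => (s, x)))
      exact (this.differentiable (by simp)) t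
    have h2 := hd.hasDerivAt
    have h3 : deriv (fun s => v s x) t =
        -I * (v t x - fc (v t) 0 + ((‖v t x‖ ^ 2 : ℝ) : ℂ) * v t x) := by
      rw [← h1, ← mul_assoc, neg_mul, I_mul_I]
      ring
    rw [h3] at h2
    exact h2
  have hmc : Continuous (fun t => fc (v t) 0) := by
    simp_rw [zp_fc0]
    refine continuous_const.mul ?_
    exact intervalIntegral.continuous_parametric_intervalIntegral_of_continuous' hcont 0 (2 * Real.pi)
  -- conservation of mass
  set F' : ℝ → ℝ → ℝ := fun t x =>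
    2 * ((fc (v t) 0).re * (v t x).im - (fc (v t) 0).im * (v t x).re) with hF'
  have hF'c : Continuous (fun p : ℝ × ℝ => F' p.1 p.2) := by
    have h1 : Continuous (fun p : ℝ × ℝ => fc (v p.1) 0) := hmc.comp continuous_fst
    refine continuous_const.mul (Continuous.sub ?_ ?_)
    · exact (continuous_re.comp h1).mul (continuous_im.comp hcont)
    · exact (continuous_im.comp h1).mul (continuous_re.comp hcont)
  have hFd : ∀ t x, HasDerivAt (fun s => ‖v s x‖ ^ 2) (F' t x) t := by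
    intro t x
    have h1 := (hder t x).norm_sq
    convert h1 using 1
    rw [Complex.inner, hF']
    simp only [mul_re, mul_im, neg_re, neg_im, I_re, I_im, add_re, add_im, sub_re, sub_im,
      ofReal_re, ofReal_im, conj_re, conj_im]
    ring
  have hFc : Continuous (fun p : ℝ × ℝ => ‖v p.1 p.2‖ ^ 2) := hcont.norm.pow 2
  have hint0 : ∀ t, ∫ x in (0:ℝ)..(2 * Real.pi), F' t x = 0 := by
    intro t
    have hi : IntervalIntegrable (v t) volume 0 (2 * Real.pi) := (hsec t).intervalIntegrable _ _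
    have hre : ∫ x in (0:ℝ)..(2 * Real.pi), (v t x).re = (∫ x in (0:ℝ)..(2 * Real.pi), v t x).re :=
      Complex.reCLM.intervalIntegral_comp_comm hi
    have him : ∫ x in (0:ℝ)..(2 * Real.pi), (v t x).im = (∫ x in (0:ℝ)..(2 * Real.pi), v t x).im :=
      Complex.imCLM.intervalIntegral_comp_comm hi
    have hm : (∫ x in (0:ℝ)..(2 * Real.pi), v t x) = ((2 * Real.pi : ℝ) : ℂ) * fc (v t) 0 := by
      rw [zp_fc0]
      have : ((2 * Real.pi : ℝ) : ℂ) ≠ 0 := by exact_mod_cast hpi.ne'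
      push_cast at this ⊢
      field_simp
    have i1 : IntervalIntegrable (fun x => (v t x).im) volume 0 (2 * Real.pi) :=
      (continuous_im.comp (hsec t)).intervalIntegrable _ _
    have i2 : IntervalIntegrable (fun x => (v t x).re) volume 0 (2 * Real.pi) :=
      (continuous_re.comp (hsec t)).intervalIntegrable _ _
    rw [hF']
    simp only
    rw [intervalIntegral.integral_const_mul, intervalIntegral.integral_sub (i1.const_mul _)
      (i2.const_mul _), intervalIntegral.integral_const_mul, intervalIntegral.integral_const_mul,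
      hre, him, hm]
    simp only [mul_re, mul_im, ofReal_re, ofReal_im]
    ring
  have hmass : ∀ t, ∫ x in (0:ℝ)..(2 * Real.pi), ‖v t x‖ ^ 2 =
      ∫ x in (0:ℝ)..(2 * Real.pi), ‖v 0 x‖ ^ 2 := by
    intro t
    have hD : ∀ t, HasDerivAt (fun s => ∫ x in (0:ℝ)..(2 * Real.pi), ‖v s x‖ ^ 2) 0 t := by
      intro t
      have := zp_par hFc hF'c hFd t
      rwa [hint0 t] at this
    exact is_const_of_deriv_eq_zero (fun t => (hD t).differentiableAt) (fun t => (hD t).deriv) t 0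
  have hmb : ∀ t, ‖fc (v t) 0‖ ≤
      Real.sqrt ((1 / (2 * Real.pi)) * ∫ x in (0:ℝ)..(2 * Real.pi), ‖v 0 x‖ ^ 2) := by
    intro t
    rw [← hmass t]
    exact zp_cs (v t) (hsec t)
  refine ⟨hder, hmass, hmb, ?_, hmc, hcont, hper⟩
  intro t x
  set B := Real.sqrt ((1 / (2 * Real.pi)) * ∫ x in (0:ℝ)..(2 * Real.pi), ‖v 0 x‖ ^ 2) with hB
  have hvc : Continuous (fun s => v s x) := hcont.comp (continuous_id.prodMk continuous_const)
  have hgc : Continuous (fun s => 1 + ‖v s x‖ ^ 2) := continuous_const.add (hvc.norm.pow 2)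
  have hθ : ∀ s, HasDerivAt (fun u => ∫ r in (0:ℝ)..u, (1 + ‖v r x‖ ^ 2)) (1 + ‖v s x‖ ^ 2) s :=
    fun s => (hgc.integral_hasStrictDerivAt 0 s).hasDerivAt
  set θ : ℝ → ℝ := fun u => ∫ r in (0:ℝ)..u, (1 + ‖v r x‖ ^ 2) with hθd
  have hb : ∀ s, HasDerivAt (fun u => cexp ((θ u : ℂ) * I) * v u x)
      (cexp ((θ s : ℂ) * I) * (I * fc (v s) 0)) s := by
    intro s
    have h1 : HasDerivAt (fun u => ((θ u : ℝ) : ℂ)) ((1 + ‖v s x‖ ^ 2 : ℝ) : ℂ) s :=
      (hθ s).ofReal_comp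
    have h2 := (h1.mul_const I).cexp
    have h3 := h2.mul (hder s x)
    have e : cexp ((θ s : ℂ) * I) * (I * fc (v s) 0) =
        cexp ((θ s : ℂ) * I) * (((1 + ‖v s x‖ ^ 2 : ℝ) : ℂ) * I) * v s x +
        cexp ((θ s : ℂ) * I) * (-I * (v s x - fc (v s) 0 + ((‖v s x‖ ^ 2 : ℝ) : ℂ) * v s x)) := by
      push_cast
      ring
    rw [e]
    exact h3
  have hnorm : ∀ s, ‖cexp ((θ s : ℂ) * I)‖ = 1 := fun s => Complex.norm_exp_ofReal_mul_I (θ s)
  have hmv := (convex_univ : Convex ℝ (univ : Set ℝ)).norm_image_sub_le_of_norm_hasDerivWithin_le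
    (f := fun u => cexp ((θ u : ℂ) * I) * v u x)
    (f' := fun s => cexp ((θ s : ℂ) * I) * (I * fc (v s) 0)) (C := B)
    (fun s _ => (hb s).hasDerivWithinAt)
    (fun s _ => by
      rw [norm_mul, hnorm s, one_mul, norm_mul, norm_I, one_mul]
      exact hmb s) (mem_univ (0:ℝ)) (mem_univ t)
  have hθ0 : θ 0 = 0 := by simp [hθd]
  have h1 : ‖cexp ((θ t : ℂ) * I) * v t x‖ ≤ ‖v 0 x‖ + B * ‖t - 0‖ := by
    have h2 : ‖cexp ((θ 0 : ℂ) * I) * v 0 x‖ = ‖v 0 x‖ := by rw [norm_mul, hnorm 0, one_mul]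
    calc ‖cexp ((θ t : ℂ) * I) * v t x‖
        = ‖cexp ((θ 0 : ℂ) * I) * v 0 x +
          (cexp ((θ t : ℂ) * I) * v t x - cexp ((θ 0 : ℂ) * I) * v 0 x)‖ := by congr 1; ring
      _ ≤ ‖cexp ((θ 0 : ℂ) * I) * v 0 x‖ +
          ‖cexp ((θ t : ℂ) * I) * v t x - cexp ((θ 0 : ℂ) * I) * v 0 x‖ := norm_add_le _ _
      _ ≤ ‖v 0 x‖ + B * ‖t - 0‖ := by rw [h2]; linarith [hmv]
  rw [norm_mul, hnorm t, one_mul, sub_zero, Real.norm_eq_abs] at h1
  linarith [mul_comm B |t|]


end Xzprops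
end MMT
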