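import Pool.Agent.Helper823.MMT.Defs2
open Complex MeasureTheory Filter Topology Set
open scoped ContDiff ENNReal
namespace MMT
namespace Xzstab

theorem z_stab_gron (w w' : ℝ → ℂ) (T K δ d : ℝ) (hT : 0 ≤ T) (hδ : 0 ≤ δ) (hK : 0 < K)
    (hw : ∀ t, HasDerivAt w (w' t) t) (h0 : ‖w 0‖ ≤ d)
    (hb : ∀ t ∈ Icc 0 T, ‖w' t‖ ≤ K * ‖w t‖ + δ) :
    ∀ t ∈ Icc 0 T, ‖w t‖ ≤ (d + T * δ) * Real.exp (K * T) := by
  intro t ht
  have hd : 0 ≤ d := (norm_nonneg _).trans h0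
  have h1 := norm_le_gronwallBound_of_norm_deriv_right_le (f := w) (f' := w') (δ := d) (K := K)
    (ε := δ) (a := 0) (b := T) (fun x _ => (hw x).continuousAt.continuousWithinAt)
    (fun x _ => (hw x).hasDerivWithinAt) h0 (fun x hx => hb x ⟨hx.1, hx.2.le⟩) t ht
  rw [sub_zero, gronwallBound_of_K_ne_0 hK.ne'] at h1
  simp only at h1
  have h2 : Real.exp (K * t) ≤ Real.exp (K * T) :=
    Real.exp_le_exp.2 (mul_le_mul_of_nonneg_left ht.2 hK.le)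
  have h3 : Real.exp (K * t) - 1 ≤ K * t * Real.exp (K * t) := by
    have h4 := Real.add_one_le_exp (-(K * t))
    have h5 : Real.exp (-(K * t)) * Real.exp (K * t) = 1 := by
      rw [← Real.exp_add]; simp
    have h6 := Real.exp_pos (K * t)
    nlinarith
  have h7 : δ / K * (Real.exp (K * t) - 1) ≤ T * δ * Real.exp (K * T) := by
    calc δ / K * (Real.exp (K * t) - 1) ≤ δ / K * (K * t * Real.exp (K * t)) :=
          mul_le_mul_of_nonneg_left h3 (by positivity)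
      _ = t * δ * Real.exp (K * t) := by field_simp
      _ ≤ T * δ * Real.exp (K * T) := by
          have := ht.1
          have := ht.2
          gcongr
  have h8 : d * Real.exp (K * t) ≤ d * Real.exp (K * T) := mul_le_mul_of_nonneg_left h2 hd
  linarith

theorem z_stab (y y' m m' : ℝ → ℂ) (T R δ d : ℝ) (hT : 0 ≤ T) (hδ : 0 ≤ δ) (hm : Continuous m) (hm' : Continuous m')
    (hy : ∀ t, HasDerivAt y (-I * (y t - m t + ((‖y t‖ ^ 2 : ℝ) : ℂ) * y t)) t)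
    (hy' : ∀ t, HasDerivAt y' (-I * (y' t - m' t + ((‖y' t‖ ^ 2 : ℝ) : ℂ) * y' t)) t)
    (hR : ∀ t ∈ Icc (-T) T, ‖y t‖ ≤ R) (hR' : ∀ t ∈ Icc (-T) T, ‖y' t‖ ≤ R)
    (hmm : ∀ t ∈ Icc (-T) T, ‖m t - m' t‖ ≤ δ) (hd0 : ‖y 0 - y' 0‖ ≤ d) :
    ∀ t ∈ Icc (-T) T, ‖y t - y' t‖ ≤ (d + T * δ) * Real.exp ((1 + 3 * R ^ 2) * T) := by
  set w' : ℝ → ℂ := fun t => (-I * (y t - m t + ((‖y t‖ ^ 2 : ℝ) : ℂ) * y t)) -
    (-I * (y' t - m' t + ((‖y' t‖ ^ 2 : ℝ) : ℂ) * y' t)) with hw'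
  have hw : ∀ t, HasDerivAt (fun t => y t - y' t) (w' t) t := fun t => (hy t).sub (hy' t)
  have hR0 : 0 ≤ R := (norm_nonneg _).trans (hR 0 ⟨by linarith, hT⟩)
  have hb : ∀ t ∈ Icc (-T) T, ‖w' t‖ ≤ (1 + 3 * R ^ 2) * ‖y t - y' t‖ + δ := by
    intro t ht
    have h1 := hR t ht
    have h2 := hR' t ht
    have h3 := hmm t ht
    have e1 : w' t = -I * ((y t - y' t) - (m t - m' t) + (((‖y t‖ ^ 2 : ℝ) : ℂ) * (y t - y' t) +
        (((‖y t‖ ^ 2 - ‖y' t‖ ^ 2 : ℝ)) : ℂ) * y' t)) := by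
      rw [hw']
      push_cast
      ring
    rw [e1, norm_mul, norm_neg, Complex.norm_I, one_mul]
    have h4 : ‖((‖y t‖ ^ 2 : ℝ) : ℂ) * (y t - y' t)‖ ≤ R ^ 2 * ‖y t - y' t‖ := by
      rw [norm_mul, Complex.norm_real, Real.norm_eq_abs, abs_of_nonneg (by positivity)]
      gcongr
    have h5 : ‖(((‖y t‖ ^ 2 - ‖y' t‖ ^ 2 : ℝ)) : ℂ) * y' t‖ ≤ 2 * R ^ 2 * ‖y t - y' t‖ := by
      rw [norm_mul, Complex.norm_real, Real.norm_eq_abs]
      have h6 : |‖y t‖ ^ 2 - ‖y' t‖ ^ 2| ≤ 2 * R * ‖y t - y' t‖ := by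
        have h7 : ‖y t‖ ^ 2 - ‖y' t‖ ^ 2 = (‖y t‖ + ‖y' t‖) * (‖y t‖ - ‖y' t‖) := by ring
        rw [h7, abs_mul, abs_of_nonneg (by positivity)]
        have h8 := abs_norm_sub_norm_le (y t) (y' t)
        have h9 : ‖y t‖ + ‖y' t‖ ≤ 2 * R := by linarith
        exact mul_le_mul h9 h8 (abs_nonneg _) (by positivity)
      calc |‖y t‖ ^ 2 - ‖y' t‖ ^ 2| * ‖y' t‖ ≤ (2 * R * ‖y t - y' t‖) * R :=
            mul_le_mul h6 h2 (norm_nonneg _) (by positivity)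
        _ = _ := by ring
    calc ‖(y t - y' t) - (m t - m' t) + (((‖y t‖ ^ 2 : ℝ) : ℂ) * (y t - y' t) +
        (((‖y t‖ ^ 2 - ‖y' t‖ ^ 2 : ℝ)) : ℂ) * y' t)‖
        ≤ ‖y t - y' t‖ + ‖m t - m' t‖ + (‖((‖y t‖ ^ 2 : ℝ) : ℂ) * (y t - y' t)‖ +
          ‖(((‖y t‖ ^ 2 - ‖y' t‖ ^ 2 : ℝ)) : ℂ) * y' t‖) :=
          (norm_add_le _ _).trans (add_le_add (norm_sub_le _ _) (norm_add_le _ _))
      _ ≤ _ := by linarith
  have hK : 0 < 1 + 3 * R ^ 2 := by positivity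
  intro t ht
  rcases le_total 0 t with h0 | h0
  · exact z_stab_gron (fun t => y t - y' t) w' T (1 + 3 * R ^ 2) δ d hT hδ hK hw hd0
      (fun s hs => hb s ⟨by linarith [hs.1], hs.2⟩) t ⟨h0, ht.2⟩
  · have h1 : ∀ s, HasDerivAt (fun s => y (-s) - y' (-s)) (-(w' (-s))) s := by
      intro s
      have h2 := (hw (-s)).scomp s (hasDerivAt_neg s)
      have h3 : (-1 : ℝ) • w' (-s) = -(w' (-s)) := by simp
      rw [h3] at h2
      exact h2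
    have h4 := z_stab_gron (fun s => y (-s) - y' (-s)) (fun s => -(w' (-s))) T (1 + 3 * R ^ 2) δ d
      hT hδ hK h1 (by simpa using hd0) (fun s hs => by
        rw [norm_neg]
        exact hb (-s) ⟨by linarith [hs.2], by linarith [hs.1]⟩) (-t) ⟨by linarith, by linarith [ht.1]⟩
    simpa using h4


end Xzstab
end MMT
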