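import Pool.Agent.Helper823.MMT.Xlipode
import Pool.Agent.Helper823.MMT.Xflow
import Pool.Agent.Helper823.MMT.Xvop
import Pool.Agent.Helper823.MMT.Xsmdep
import Pool.Agent.Helper823.MMT.Xgmap
import Pool.Agent.Helper823.MMT.Xtrsm
import Pool.Agent.Helper823.MMT.Xkern
import Pool.Agent.Helper823.MMT.Xlam0
import Pool.Agent.Helper823.MMT.Xlamneg
import Pool.Agent.Helper823.MMT.Xemain
import Pool.Agent.Helper823.MMT.Xwbd
import Pool.Agent.Helper823.MMT.Xoscp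
import Pool.Agent.Helper823.MMT.Xdform
import Pool.Agent.Helper823.MMT.Xcboot
import Pool.Agent.Helper823.MMT.Xhdpot
import Pool.Agent.Helper823.MMT.Xequi
import Pool.Agent.Helper823.MMT.Xcomb
import Pool.Agent.Helper823.MMT.Xbump
import Pool.Agent.Helper823.MMT.Xpot0
import Pool.Agent.Helper823.MMT.Xpstep
import Pool.Agent.Helper823.MMT.Xrot
import Pool.Agent.Helper823.MMT.Xbackg
import Pool.Agent.Helper823.MMT.Xpotf1
import Pool.Agent.Helper823.MMT.Xpdata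
import Pool.Agent.Helper823.MMT.Xmterm
import Pool.Agent.Helper823.MMT.Xaddfin
import Pool.Agent.Helper823.MMT.Xstepneg
import Pool.Agent.Helper823.MMT.Xgsconv
import Pool.Agent.Helper823.MMT.Xzapp
import Pool.Agent.Helper823.MMT.Xzprops
import Pool.Agent.Helper823.MMT.Xzcomp
import Pool.Agent.Helper823.MMT.Xzstab
import Pool.Agent.Helper823.MMT.Xzcau
import Pool.Agent.Helper823.MMT.Xhd0
import Pool.Agent.Helper823.MMT.Xlimit2
import Pool.Agent.Helper823.MMT.Xfclin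
import Pool.Agent.Helper823.MMT.Xfconj
import Pool.Agent.Helper823.MMT.Xvbd
import Pool.Agent.Helper823.MMT.Xcauc
import Pool.Agent.Helper823.MMT.Main
open Complex MeasureTheory Filter Topology Set
open scoped ContDiff ENNReal
namespace MMT
open Xbdd Xlipode Xflow Xvop Xsmdep Xgmap Xtrsm Xkern Xlam0 Xlamneg Xemain Xwbd Xoscp Xdform Xcboot Xhdpot Xequi Xcomb Xbump Xpot0 Xpstep Xrot Xbackg Xpotf1 Xpdata Xmterm Xaddfin Xstepneg Xgsconv Xzapp Xzprops Xzcomp Xzstab Xzcau Xhd0 Xlimit2 Xfclin Xfconj Xvbd Xcauc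

theorem sg_exists_aux (α : ℝ) (L : C(Cir, ℂ) →L[ℂ] C(Cir, ℂ))
    (hLt : ∀ (a : ℝ) (g : C(Cir, ℂ)), L (tr a g) = tr a (L g))
    (hLa : ∀ (f : ℝ → ℂ) (g : C(Cir, ℂ)), ContDiff ℝ 2 f → (∀ x : ℝ, g (x : Cir) = f x) →
      ∀ x : ℝ, L g (x : Cir) = absD α f x)
    (f : ℝ → ℂ) (hf : ContDiff ℝ ∞ f) (hp : Function.Periodic f (2 * Real.pi)) :
    ∃ v : ℝ → ℝ → ℂ, v 0 = f ∧ SG α v := by
  obtain ⟨φ, h0, h1, _⟩ := flow_exists (fun F K hF x0 => lipschitz_ode F K hF x0) L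
  obtain ⟨V, hV, hVA⟩ := volterra_op (Y := C(Cir, ℂ))
  obtain ⟨G, hG, hGF⟩ := G_exists L
  have hsm := flow_smooth_abs V hV hVA (Fld L) (Fld_contDiff L) G hG hGF φ h0 h1
  obtain ⟨v, hv0, hv1, hv2⟩ := smooth_sol_exists α L hLt hLa φ h0 h1 hsm (fun f g hf hg => tr_contDiff f hf g hg) f hf hp
  exact ⟨v, hv0, hv1, hv2⟩

theorem sg_exists_neg (α : ℝ) (hα : α < 0) (f : ℝ → ℂ) (hf : ContDiff ℝ ∞ f)
    (hp : Function.Periodic f (2 * Real.pi)) : ∃ v : ℝ → ℝ → ℂ, v 0 = f ∧ SG α v := by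
  obtain ⟨K, hK1, hK2, hK3, hK4⟩ := kernel_exists α hα
  obtain ⟨L, hL1, hL2⟩ := Lam_neg α hα K hK1 hK2 hK3 hK4
  exact sg_exists_aux α L hL1 hL2 f hf hp

theorem sg_exists_zero (f : ℝ → ℂ) (hf : ContDiff ℝ ∞ f)
    (hp : Function.Periodic f (2 * Real.pi)) : ∃ v : ℝ → ℝ → ℂ, v 0 = f ∧ SG 0 v := by
  obtain ⟨L, hL1, hL2, _⟩ := Lam_zero
  exact sg_exists_aux 0 L hL1 hL2 f hf hp

theorem absD_zero (f : ℝ → ℂ) (hf : ContDiff ℝ 2 f) (hp : Function.Periodic f (2 * Real.pi)) (x : ℝ) :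
    absD 0 f x = f x - fc f 0 := by
  obtain ⟨L, _, hL2, hL3⟩ := Lam_zero
  let g : C(Cir, ℂ) := ⟨hp.lift, by
    refine Continuous.quotient_lift (s := QuotientAddGroup.leftRel _) hf.continuous ?_⟩
  have hg : ∀ x : ℝ, g (x : Cir) = f x := fun x => rfl
  rw [← hL2 f g hf hg x, hL3 f g hg x]

/-- positive answer for `α = 0` -/
theorem pos_zero (u₀ : ℤ → ℂ) (hu : hd 0 u₀ 0 < ⊤) : ∃ u : ℝ → ℤ → ℂ, IsGlobalSol 0 u₀ u := by
  obtain ⟨f, h, hf, hm, h0, hi, hb, hlim⟩ := z_approx u₀ hu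
  choose v hv0 hv using fun n => sg_exists_zero (f n) (hf n).1 (hf n).2
  have hz : ∀ n, ZP (v n) := fun n => z_props (v n) (hv n) absD_zero
  have hb' : ∀ᵐ x ∂(volume.restrict (Ioc 0 (2 * Real.pi))), (∀ n, ‖v n 0 x‖ ≤ h x) ∧ CauchySeq (fun n => v n 0 x) := by
    filter_upwards [hb] with x hx
    constructor
    · intro n; rw [hv0]; exact hx.1 n
    · have : (fun n => v n 0 x) = fun n => f n x := by funext n; rw [hv0]
      rw [this]; exact hx.2
  obtain ⟨φ, hφ, hc⟩ := z_compact v hz h hm h0 hi (by filter_upwards [hb'] with x hx using hx.1)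
  have hb2 : ∀ᵐ x ∂(volume.restrict (Ioc 0 (2 * Real.pi))),
      (∀ n, ‖v (φ n) 0 x‖ ≤ h x) ∧ CauchySeq (fun n => v (φ n) 0 x) := by
    filter_upwards [hb'] with x hx
    exact ⟨fun n => hx.1 _, hx.2.comp_tendsto hφ.tendsto_atTop⟩
  have hcau := z_cauchy z_stab (fun n => v (φ n)) (fun n => hz _) h hm h0 hi hb2 hc
  apply limit_sol2 0 le_rfl u₀ (fun n => v (φ n)) (fun n => hv _)
  · have : (fun n => hd 0 (fc (v (φ n) 0)) u₀) = (fun n => hd 0 (fc (f n)) u₀) ∘ φ := by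
      funext n; simp only [Function.comp, hv0]
    rw [this]
    exact hlim.comp hφ.tendsto_atTop
  · intro T ε hT hε
    obtain ⟨N, hN⟩ := hcau T ε hT hε
    refine ⟨N, fun n hn m hm t ht => ?_⟩
    have c1 : ∀ k, Continuous (v k t) := fun k =>
      (hz k).2.2.2.2.2.1.comp (continuous_const.prodMk continuous_id)
    exact (hd0_le _ _ (c1 _) (c1 _)).trans (ENNReal.ofReal_le_ofReal (hN n hn m hm t ht))

theorem one_side (κ V c0 T : ℝ) (hκ : 0 < κ) (hV : 0 ≤ V) (hc0 : 0 < c0) (hT : 0 < T) :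
    ∃ (C7 : ℝ) (n1 : ℕ), 0 < C7 ∧ ∀ (n : ℕ) (K : ℝ → ℝ) (B v : ℝ → ℝ → ℂ) (E0 EL : Set ℝ) (E : ℕ → Set ℝ),
      n1 ≤ n → Ker K κ → GS K B → GS K v → Pulse K κ V c0 n B E0 EL E →
      (∀ t ∈ Icc 0 T, ∀ x, ‖v t x‖ ≤ V) → (∀ x ∈ E0, v 0 x = B 0 x) →
      ∀ t ∈ Icc 0 T, Reg (fun x => B t x - v t x - Pt n E B t x) ∧
        ∀ x, ∫ y in (0:ℝ)..(2 * Real.pi), (|K y| + 1) * ‖B t (x - y) - v t (x - y) - Pt n E B t (x - y)‖ ≤ C7 / n := by
  have hpot : ∀ (K : ℝ → ℝ) (n : ℕ) (B : ℝ → ℝ → ℂ) (E0 EL : Set ℝ) (E : ℕ → Set ℝ), 1 ≤ n → Ker K κ → GS K B →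
      Pulse K κ V c0 n B E0 EL E → ∀ x, ∫ y in (0:ℝ)..(2 * Real.pi), (|K y| + 1) * ‖B 0 (x - y)‖ ≤ V * κ + 4 * κ * c0 + 2 :=
    fun K n B E0 EL E hn hK hB hP x => pulse_pot0 K κ V c0 n hn hV hc0 B E0 EL E hK hB hP x
  have hWBD : WBD := fun K κ B W0 hK hB h0 t ht => w_bound K κ B W0 hK hB h0 t ht
  obtain ⟨C, hC, hstep⟩ := pulse_step hWBD osc_pair (fun K κ B hK hB x t ht => D_bound K κ B hK hB x t ht)
    κ V c0 T hκ hV hc0 hT hpot
  set W0 : ℝ := V * κ + 4 * κ * c0 + 2 with hW0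
  have hW0pos : 0 < W0 := by positivity
  set W : ℝ := W0 * Real.exp (κ * T) with hW
  have hWpos : 0 < W := by positivity
  set C5 : ℝ := T * (2 * C + W) with hC5
  have hC5pos : 0 < C5 := by positivity
  obtain ⟨C6, hC6, hback⟩ := background κ V c0 T C5 W hκ hV hc0 hT hC5pos.le hWpos.le
  obtain ⟨C7, hC7, hpf⟩ := pot_f1 κ V c0 T C5 C6 W hκ hV hc0 hT hC5pos.le hC6.le hWpos.le
  obtain ⟨n1, hn1⟩ := exists_nat_ge (2 * C + 1)
  refine ⟨C7, n1, hC7, ?_⟩
  intro n K B v E0 EL E hn hK hB hv hP hvV hv0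
  have hnr : 2 * C + 1 ≤ (n:ℝ) := hn1.trans (by exact_mod_cast hn)
  have hn1' : 1 ≤ n := by
    have : (1:ℝ) ≤ n := by linarith
    exact_mod_cast this
  have hnpos : (0:ℝ) < n := by linarith
  have hn1r : (1:ℝ) ≤ n := by linarith
  have hwb := fun t ht => w_bound K κ B W0 hK hB (hpot K n B E0 EL E hn1' hK hB hP) t ht
  have hexp : ∀ t ∈ Icc 0 T, W0 * Real.exp (κ * t) ≤ W := by
    intro t ht
    rw [hW]
    apply mul_le_mul_of_nonneg_left _ hW0pos.le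
    apply Real.exp_le_exp.2
    exact mul_le_mul_of_nonneg_left ht.2 hκ.le
  have hBgrow : ∀ t ∈ Icc 0 T, ∀ x, ‖B t x‖ ≤ ‖B 0 x‖ + T * W := by
    intro t ht x
    refine ((hwb t ht.1).2 x).trans ?_
    have : t * (W0 * Real.exp (κ * t)) ≤ T * W := mul_le_mul ht.2 (hexp t ht) (by positivity) hT.le
    linarith
  -- the modulus on pulses
  set P : Set ℝ := {x | ∃ j < n ^ 3, x ∈ E j} with hPdef
  have hDhalf : ∀ t ∈ Icc 0 T, ∀ x ∈ P, |‖B t x‖ ^ 2 - ‖B 0 x‖ ^ 2| ≤ 1 / 2 := by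
    apply cont_boot T (fun t x => ‖B t x‖ ^ 2 - ‖B 0 x‖ ^ 2)
    · have h1 := hB.cont
      have h2 : Continuous (fun p : ℝ × ℝ => B 0 p.2) := h1.comp (continuous_const.prodMk continuous_snd)
      fun_prop
    · intro t x
      simp only [hB.per t x, hB.per 0 x]
    · intro x _; simp
    · intro t ht hs x hx
      obtain ⟨j, hj, hxj⟩ := hx
      have := hstep n K B E0 EL E hn1' hK hB hP t ht
        (fun s hs' i hi y hy => hs s hs' y ⟨i, hi, hy⟩) j hj x hxj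
      refine this.trans ?_
      rw [div_le_div_iff₀ hnpos (by norm_num)]
      linarith
  have hDn : ∀ t ∈ Icc 0 T, ∀ j < n ^ 3, ∀ x ∈ E j, |‖B t x‖ ^ 2 - ‖B 0 x‖ ^ 2| ≤ C / n := by
    intro t ht
    apply hstep n K B E0 EL E hn1' hK hB hP t ht
    intro s hs j hj x hx
    have := hDhalf s ⟨hs.1, hs.2.trans ht.2⟩ x ⟨j, hj, hx⟩
    linarith
  have hclose : ∀ t ∈ Icc 0 T, ∀ j < n ^ 3, ∀ x ∈ E j,
        ‖B t x - cexp (-(I * (((n:ℝ) ^ 4 + n * j : ℝ) : ℂ) * (t:ℂ))) * B 0 x‖ ≤ C5 * n := by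
    intro t ht j hj x hx
    have hθ := hP.aE j hj x hx
    have hjr : (j:ℝ) ≤ (n:ℝ) ^ 3 := by exact_mod_cast hj.le
    have hθ2 : (n:ℝ) ^ 4 + n * j ≤ 2 * (n:ℝ) ^ 4 := by
      have : (n:ℝ) * j ≤ n * n ^ 3 := mul_le_mul_of_nonneg_left hjr hnpos.le
      nlinarith
    have hn4 : (1:ℝ) ≤ (n:ℝ) ^ 4 := one_le_pow₀ hn1r
    have h := rot_close (fun s => B s x) (fun s => ∫ y in (0:ℝ)..(2 * Real.pi), (K y : ℂ) * B s (x - y)) t
      (2 * (n:ℝ) ^ 2) W ((n:ℝ) ^ 4 + n * j) (C / n) ht.1 (fun s _ => hB.der s x)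
      (fun s hs => by
        have h1 := hDhalf s ⟨hs.1, hs.2.trans ht.2⟩ x ⟨j, hj, hx⟩
        have h2 := (abs_le.1 h1).2
        rw [hθ] at h2
        have h3 : ‖B s x‖ ^ 2 ≤ (2 * (n:ℝ) ^ 2) ^ 2 := by nlinarith
        exact le_of_sq_le_sq h3 (by positivity))
      (fun s hs => by
        have hs' : s ∈ Icc 0 T := ⟨hs.1, hs.2.trans ht.2⟩
        refine le_trans ?_ (((hwb s hs.1).1 x).trans (hexp s hs'))
        have h1 : ‖∫ y in (0:ℝ)..(2 * Real.pi), (K y : ℂ) * B s (x - y)‖ ≤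
            ∫ y in (0:ℝ)..(2 * Real.pi), ‖(K y : ℂ) * B s (x - y)‖ :=
          intervalIntegral.norm_integral_le_integral_norm (by positivity)
        refine h1.trans ?_
        obtain ⟨M, hM⟩ := (cont_per_bdd (B s) (hB.cont.comp (continuous_const.prodMk continuous_id)) (hB.per s)).2.2
        have hBc : Continuous (fun y => B s (x - y)) :=
          (hB.cont.comp (continuous_const.prodMk continuous_id)).comp (continuous_const.sub continuous_id)
        have i1 : IntervalIntegrable (fun y => (|K y| + 1) * ‖B s (x - y)‖) volume 0 (2 * Real.pi) := by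
          apply IntervalIntegrable.mul_continuousOn
          · exact (hK.int.abs).add (intervalIntegrable_const)
          · exact hBc.norm.continuousOn
        have i2 : IntervalIntegrable (fun y => ‖(K y : ℂ) * B s (x - y)‖) volume 0 (2 * Real.pi) := by
          have : (fun y => ‖(K y : ℂ) * B s (x - y)‖) = fun y => |K y| * ‖B s (x - y)‖ := by
            funext y; rw [norm_mul, Complex.norm_real, Real.norm_eq_abs]
          rw [this]
          apply IntervalIntegrable.mul_continuousOn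
          · exact hK.int.abs
          · exact hBc.norm.continuousOn
        apply intervalIntegral.integral_mono_on (by positivity) i2 i1
        intro y _
        rw [norm_mul, Complex.norm_real, Real.norm_eq_abs]
        have := norm_nonneg (B s (x - y))
        nlinarith [abs_nonneg (K y)])
      (fun s hs => by
        have := hDn s ⟨hs.1, hs.2.trans ht.2⟩ j hj x hx
        rw [hθ] at this
        exact this)
    refine h.trans ?_
    rw [hC5]
    have e1 : C / n * (2 * (n:ℝ) ^ 2) + W ≤ (2 * C + W) * n := by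
      have : C / n * (2 * (n:ℝ) ^ 2) = 2 * C * n := by field_simp
      rw [this]
      nlinarith
    calc t * (C / n * (2 * (n:ℝ) ^ 2) + W) ≤ T * ((2 * C + W) * n) :=
          mul_le_mul ht.2 e1 (by positivity) hT.le
      _ = T * (2 * C + W) * n := by ring
  have hbk := hback n K B v E0 EL E hn1' hK hB hv hP hvV hv0 hBgrow hclose
  exact hpf n K B v E0 EL E hn1' hK hB hv hP hvV hBgrow hclose hbk

theorem hd_add_right (α : ℝ) (a b d : ℤ → ℂ) : hd α (fun j => a j + d j) (fun j => b j + d j) = hd α a b := by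
  unfold hd
  congr 1
  funext k
  rw [add_sub_add_right_eq_sub]

theorem hd_self (α : ℝ) (a : ℤ → ℂ) : hd α a a = 0 := by
  unfold hd; simp

theorem hd_symm (α : ℝ) (a b : ℤ → ℂ) : hd α a b = hd α b a := by
  unfold hd
  congr 1
  funext k
  rw [norm_sub_rev]

theorem Dn_norm (n : ℕ) (hn : 1 ≤ n) (t : ℝ) : ‖Dn n t‖ ≤ 1 := by
  unfold Dn
  rw [norm_mul]
  have h1 : ‖∑ j ∈ Finset.range (n ^ 3), cexp (-(I * (((n:ℝ) ^ 4 + n * j : ℝ) : ℂ) * (t:ℂ)))‖ ≤ (n:ℝ) ^ 3 := by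
    refine (norm_sum_le _ _).trans ?_
    have : ∀ j ∈ Finset.range (n ^ 3), ‖cexp (-(I * (((n:ℝ) ^ 4 + n * j : ℝ) : ℂ) * (t:ℂ)))‖ = 1 := by
      intro j _
      have : -(I * (((n:ℝ) ^ 4 + n * j : ℝ) : ℂ) * (t:ℂ)) = ((-(((n:ℝ) ^ 4 + n * j) * t) : ℝ) : ℂ) * I := by
        push_cast; ring
      rw [this, Complex.norm_exp_ofReal_mul_I]
    rw [Finset.sum_congr rfl this]
    simp
  have hn' : (0:ℝ) < (n:ℝ) ^ 3 := by
    have : (0:ℝ) < n := by exact_mod_cast hn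
    positivity
  have h2 : ‖(1 / (n:ℂ) ^ 3)‖ = 1 / (n:ℝ) ^ 3 := by
    rw [norm_div, norm_one, norm_pow, Complex.norm_natCast]
  rw [h2]
  calc 1 / (n:ℝ) ^ 3 * _ ≤ 1 / (n:ℝ) ^ 3 * (n:ℝ) ^ 3 := by gcongr
    _ = 1 := by field_simp

theorem Dn_zero (n : ℕ) (hn : 1 ≤ n) : Dn n 0 = 1 := by
  unfold Dn
  have hn' : (n:ℂ) ≠ 0 := by
    have : n ≠ 0 := by omega
    exact_mod_cast this
  simp
  field_simp

theorem hd_final (α : ℝ) (B v P : ℝ → ℂ) (k : ℤ) (A : ℂ) (hB : Reg B) (hv : Reg v) (hP : Reg P) (δ ε : ℝ) (hδ : 0 ≤ δ) (hε : 0 ≤ ε)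
    (h1 : hd α (fc (fun x => B x - v x - P x)) 0 ≤ ENNReal.ofReal δ)
    (h2 : hd α (fc P) (fc (fun x => A * cexp (I * (k:ℂ) * (x:ℂ)))) ≤ ENNReal.ofReal ε) :
    hd α (fc B) (fun j => fc v j + if j = k then A else 0) ≤ ENNReal.ofReal (2 * δ + 2 * ε) := by
  have e1 : hd α (fc B) (fun j => fc v j + fc P j) = hd α (fc (fun x => B x - v x - P x)) 0 := by
    unfold hd
    congr 1
    funext j
    have hBv : Reg (fun x => B x - v x) := by
      obtain ⟨a1, a2, C1, a3⟩ := hB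
      obtain ⟨b1, b2, C2, b3⟩ := hv
      refine ⟨a1.sub b1, fun x => by simp only [a2 x, b2 x], C1 + C2, fun x => ?_⟩
      exact (norm_sub_le _ _).trans (add_le_add (a3 x) (b3 x))
    have : fc (fun x => B x - v x - P x) j = fc B j - fc v j - fc P j := by
      rw [fc_sub (fun x => B x - v x) P hBv hP, fc_sub B v hB hv]
    rw [this]
    simp only [Pi.zero_apply, sub_zero]
    rw [sub_sub]
  have e2 : hd α (fun j => fc v j + fc P j) (fun j => fc v j + if j = k then A else 0) =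
      hd α (fc P) (fc (fun x => A * cexp (I * (k:ℂ) * (x:ℂ)))) := by
    unfold hd
    congr 1
    funext j
    rw [fc_exp, add_sub_add_left_eq_sub]
  calc hd α (fc B) (fun j => fc v j + if j = k then A else 0)
      ≤ 2 * hd α (fc B) (fun j => fc v j + fc P j) +
        2 * hd α (fun j => fc v j + fc P j) (fun j => fc v j + if j = k then A else 0) := Xbdd.hd_tri _ _ _ _
    _ ≤ 2 * ENNReal.ofReal δ + 2 * ENNReal.ofReal ε := by
        rw [e1, e2]; gcongr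
    _ = ENNReal.ofReal (2 * δ + 2 * ε) := by
        rw [ENNReal.ofReal_add (by positivity) (by positivity), ENNReal.ofReal_mul (by norm_num),
          ENNReal.ofReal_mul (by norm_num)]
        simp

theorem Reg_conj (f : ℝ → ℂ) (hf : Reg f) : Reg (fun x => (starRingEnd ℂ) (f x)) := by
  obtain ⟨a1, a2, C1, a3⟩ := hf
  exact ⟨Complex.continuous_conj.measurable.comp a1, fun x => by simp only [a2 x], C1,
    fun x => by rw [Complex.norm_conj]; exact a3 x⟩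

theorem Reg_sub (f g : ℝ → ℂ) (hf : Reg f) (hg : Reg g) : Reg (fun x => f x - g x) := by
  obtain ⟨a1, a2, C1, a3⟩ := hf
  obtain ⟨b1, b2, C2, b3⟩ := hg
  refine ⟨a1.sub b1, fun x => by simp only [a2 x, b2 x], C1 + C2, fun x => ?_⟩
  exact (norm_sub_le _ _).trans (add_le_add (a3 x) (b3 x))

theorem add_mode (α : ℝ) (hα : α < 0) (v : ℝ → ℝ → ℂ) (hv : SG α v) (k : ℤ) (c : ℂ) (T ε : ℝ) (hT : 0 < T) (hε : 0 < ε) :
      ∃ (w : ℝ → ℝ → ℂ) (D : ℝ → ℂ), SG α w ∧ (∀ t, ‖D t‖ ≤ 1) ∧ D 0 = 1 ∧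
        ∀ t ∈ Icc (-T) T, hd α (fc (w t)) (fun j => fc (v t) j + if j = k then D t * c else 0) ≤ ENNReal.ofReal ε := by
  by_cases hc : c = 0
  · refine ⟨v, fun _ => 1, hv, fun t => by simp, rfl, fun t _ => ?_⟩
    have : (fun j => fc (v t) j + if j = k then (1:ℂ) * c else 0) = fc (v t) := by
      funext j; simp [hc]
    rw [this, hd_self]; exact bot_le
  obtain ⟨K, hK1, hK2, hK3, hK4⟩ := kernel_exists α hα
  set κ : ℝ := ∫ y in (0:ℝ)..(2 * Real.pi), (|K y| + 1) with hκdef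
  have hK : Ker K κ := ⟨hK1, hK2, hK3, rfl⟩
  have hκ : 0 < κ := by
    have h1 : ∫ y in (0:ℝ)..(2 * Real.pi), (1:ℝ) ≤ κ := by
      rw [hκdef]
      apply intervalIntegral.integral_mono_on (by positivity) intervalIntegrable_const
        (hK3.abs.add intervalIntegrable_const)
      intro y _; simp
    simp at h1
    have := Real.pi_pos
    linarith
  have hk := fun f hf hp x => absD_kernel α hα K hK1 hK2 hK3 hK4 f hf hp x
  obtain ⟨V, hV, hvV⟩ := v_bdd α v hv T hT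
  set c0 : ℝ := ‖c‖ with hc0def
  have hc0 : 0 < c0 := norm_pos_iff.2 hc
  set z : ℂ := c / (c0:ℂ) with hz
  have hz1 : ‖z‖ = 1 := by
    rw [hz, norm_div, Complex.norm_real, Real.norm_eq_abs, abs_of_pos hc0, hc0def]
    field_simp
  have hcz : (c0:ℂ) * z = c := by
    have h0 : (c0:ℂ) ≠ 0 := by exact_mod_cast hc0.ne'
    rw [hz]; field_simp
  obtain ⟨C7, n1, hC7, hone⟩ := one_side κ V c0 T hκ hV hc0 hT
  obtain ⟨n0, hdata⟩ := pulse_data K κ hK V c0 hV hc0 (fun ε hε => equidist K κ hK ε hε)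
    (fun a b l ha hb hl hab => bump a b l ha hb hl hab)
  obtain ⟨n2, hn2⟩ := exists_nat_ge (4 * C7 ^ 2 / ε + 1)
  set n : ℕ := max (max n0 n1) (max n2 1) with hn
  have hnn0 : n0 ≤ n := (le_max_left _ _).trans (le_max_left _ _)
  have hnn1 : n1 ≤ n := (le_max_right _ _).trans (le_max_left _ _)
  have hnn2 : n2 ≤ n := (le_max_left _ _).trans (le_max_right _ _)
  have hn1 : 1 ≤ n := (le_max_right _ _).trans (le_max_right _ _)
  obtain ⟨al, be, N1, hab, hN1⟩ := hdata n hnn0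
  obtain ⟨N2, hN2⟩ := main_term α hα (fun k ε hε => comb_hd α hα k ε hε) c0 hc0 n hn1 al be hab k (ε / 4) (by positivity)
  set N : ℕ := max N1 N2 with hN
  have hv0s : ContDiff ℝ ∞ (v 0) := by
    have : ContDiff ℝ ∞ (fun x : ℝ => ((0:ℝ), x)) := contDiff_const.prodMk contDiff_id
    exact hv.1.comp this
  have hper := fun t => (hv.2 (|t| + 1) (by positivity)).periodic t
    ⟨by linarith [neg_abs_le t], by linarith [le_abs_self t]⟩
  obtain ⟨a, E0, EL, E, ha1, ha2, ha3, ha4, ha5, ha6⟩ := hN1 N (le_max_left _ _) (v 0) k z hv0s (hper 0)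
    (fun x => hvV 0 ⟨by linarith, hT.le⟩ x) hz1
  obtain ⟨w, hw0, hw⟩ := sg_exists_neg α hα a ha1 ha2
  have gv := SG_to_GS α K hk v hv
  have gw := SG_to_GS α K hk w hw
  have hPw : Pulse K κ V c0 n w E0 EL E := Pulse_congr K κ V c0 n _ w E0 EL E ha3 (by rw [hw0])
  have hPwc := Pulse_conj K κ V c0 n w E0 EL E hPw
  have hmain := hN2 N (le_max_right _ _) E a z hz1 ha5 ha6
  have hPtw : ∀ t, Pt n E w t = Pt n E (fun _ => a) t := by
    intro t; funext x; unfold Pt; simp only [hw0]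
  have o1 := hone n K w v E0 EL E hnn1 hK gw.1 gv.1 hPw (fun t ht x => hvV t ⟨by linarith [ht.1], ht.2⟩ x)
    (fun x hx => by rw [hw0, ha4 x hx])
  have o2 := hone n K _ _ E0 EL E hnn1 hK gw.2 gv.2 hPwc
    (fun t ht x => by
      simp only [Complex.norm_conj]
      exact hvV (-t) ⟨by linarith [ht.2], by linarith [ht.1]⟩ x)
    (fun x hx => by simp only [neg_zero]; rw [hw0, ha4 x hx])
  -- two sided
  have two : ∀ t ∈ Icc (-T) T, Reg (fun x => w t x - v t x - Pt n E w t x) ∧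
        ∀ x, ∫ y in (0:ℝ)..(2 * Real.pi), (|K y| + 1) * ‖w t (x - y) - v t (x - y) - Pt n E w t (x - y)‖ ≤ C7 / n := by
    intro t ht
    rcases le_total 0 t with h | h
    · exact o1 t ⟨h, ht.2⟩
    · have := o2 (-t) ⟨by linarith, by linarith [ht.1]⟩
      simp only [neg_neg, Pt_conj] at this
      have key : ∀ x, (starRingEnd ℂ) (w t x) - (starRingEnd ℂ) (v t x) - (starRingEnd ℂ) (Pt n E w t x) =
          (starRingEnd ℂ) (w t x - v t x - Pt n E w t x) := by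
        intro x; simp only [map_sub]
      simp only [key, Complex.norm_conj] at this
      refine ⟨?_, this.2⟩
      have h3 := Reg_conj _ this.1
      simpa using h3
  refine ⟨w, Dn n, hw, Dn_norm n hn1, Dn_zero n hn1, ?_⟩
  intro t ht
  obtain ⟨hR, hPot⟩ := two t ht
  have h1 := hd_le_pot α hα K κ hK hK4 _ hR (C7 / n) hPot
  have h2 := hmain t
  rw [← hPtw t] at h2
  have regv : Reg (v t) := cont_per_bdd _ (gv.1.cont.comp (continuous_const.prodMk continuous_id)) (hper t)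
  have regw : Reg (w t) := cont_per_bdd _ (gw.1.cont.comp (continuous_const.prodMk continuous_id)) (gw.1.per t)
  have regP : Reg (Pt n E w t) := by
    have h3 := Reg_sub _ _ (Reg_sub _ _ regw regv) hR
    have : (fun x => w t x - v t x - (w t x - v t x - Pt n E w t x)) = Pt n E w t := by
      funext x; ring
    rwa [this] at h3
  have h4 := hd_final α (w t) (v t) (Pt n E w t) k (Dn n t * ((c0:ℂ) * z)) regw regv regP ((C7 / n) ^ 2) (ε / 4)
    (by positivity) (by positivity) h1 h2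
  rw [hcz] at h4
  refine h4.trans (ENNReal.ofReal_le_ofReal ?_)
  have hnr : 4 * C7 ^ 2 / ε + 1 ≤ (n:ℝ) := hn2.trans (by exact_mod_cast hnn2)
  have hnpos : (1:ℝ) ≤ n := by exact_mod_cast hn1
  have h5 : (C7 / n) ^ 2 ≤ ε / 4 := by
    rw [div_pow, div_le_div_iff₀ (by positivity) (by norm_num)]
    have h6 : 4 * C7 ^ 2 ≤ (n:ℝ) * ε := by
      have : 4 * C7 ^ 2 / ε ≤ (n:ℝ) := by linarith
      rwa [div_le_iff₀ hε] at this
    have h7 : (n:ℝ) ≤ (n:ℝ) ^ 2 := by nlinarith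
    nlinarith
  linarith

/-- positive answer for `α < 0` -/
theorem pos_neg (α : ℝ) (hα : α < 0) (u₀ : ℤ → ℂ) (hu : hd α u₀ 0 < ⊤) : ∃ u : ℝ → ℤ → ℂ, IsGlobalSol α u₀ u := by
  have hmodes := fun (v : ℝ → ℝ → ℂ) (hv : SG α v) (F : Finset ℤ) (c : ℤ → ℂ) (T ε : ℝ) (hT : 0 < T) (hε : 0 < ε) =>
    add_modes α hα (fun v hv k c T ε hT hε => add_mode α hα v hv k c T ε hT hε) v hv F c T ε hT hε
  -- the class of admissible solutions
  let S := {v : ℝ → ℝ → ℂ // SG α v ∧ hd α u₀ (fc (v 0)) < ⊤}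
  have hstep : ∀ (n : ℕ) (v : S), ∃ w : S, hd α u₀ (fc (w.1 0)) ≤ ENNReal.ofReal ((1 / 16) ^ n) ∧
      ∀ t ∈ Icc (-((n:ℝ) + 1)) ((n:ℝ) + 1), hd α (fc (w.1 t)) (fc (v.1 t)) ≤
        ENNReal.ofReal ((1 / 16) ^ n) + 2 * hd α u₀ (fc (v.1 0)) := by
    intro n v
    obtain ⟨w, hw, h1, h2⟩ := approx_step α hα (fun v hv F c T ε hT hε => hmodes v hv F c T ε hT hε) u₀ hu v.1 v.2.1 v.2.2
      ((n:ℝ) + 1) ((1 / 16) ^ n) (by positivity) (by positivity)
    exact ⟨⟨w, hw, h1.trans_lt ENNReal.ofReal_lt_top⟩, h1, h2⟩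
  choose nxt hn1 hn2 using hstep
  obtain ⟨v00, hv00, hv01⟩ := sg_exists_neg α hα (fun _ => 0) contDiff_const (fun x => rfl)
  have hfc0 : fc (v00 0) = 0 := by
    rw [hv00]; funext k; simp [fc]
  let vs : ℕ → S := fun n => Nat.rec ⟨v00, hv01, by rw [hfc0]; exact hu⟩ (fun n v => nxt n v) n
  have hvs : ∀ n, vs (n + 1) = nxt n (vs n) := fun n => rfl
  have hsmall : ∀ n, hd α u₀ (fc ((vs (n + 1)).1 0)) ≤ ENNReal.ofReal ((1 / 16) ^ n) := by
    intro n; rw [hvs]; exact hn1 n (vs n)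
  set H : ℝ := (hd α u₀ (fc ((vs 0).1 0))).toReal with hH
  have hH0 : hd α u₀ (fc ((vs 0).1 0)) = ENNReal.ofReal H := (ENNReal.ofReal_toReal (vs 0).2.2.ne).symm
  have hHpos : 0 ≤ H := ENNReal.toReal_nonneg
  apply limit_sol2 α hα.le u₀ (fun n => (vs n).1) (fun n => (vs n).2.1)
  · rw [← tendsto_add_atTop_iff_nat 1]
    have h1 : Tendsto (fun n : ℕ => ((1:ℝ) / 16) ^ n) atTop (𝓝 0) :=
      tendsto_pow_atTop_nhds_zero_of_lt_one (by norm_num) (by norm_num)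
    have h2 : Tendsto (fun n : ℕ => ENNReal.ofReal (((1:ℝ) / 16) ^ n)) atTop (𝓝 0) := by
      have := ENNReal.tendsto_ofReal h1
      rwa [ENNReal.ofReal_zero] at this
    refine tendsto_of_tendsto_of_tendsto_of_le_of_le tendsto_const_nhds h2 (fun _ => bot_le) (fun n => ?_)
    show hd α (fc ((vs (n + 1)).1 0)) u₀ ≤ _
    rw [hd_symm]; exact hsmall n
  · -- Cauchy
    have hcons : ∀ n : ℕ, 1 ≤ n → ∀ t ∈ Icc (-(n:ℝ)) n,
        hd α (fc ((vs (n + 1)).1 t)) (fc ((vs n).1 t)) ≤ ENNReal.ofReal (33 * (1 / 16) ^ n) := by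
      intro n hn t ht
      obtain ⟨m, rfl⟩ : ∃ m, n = m + 1 := ⟨n - 1, by omega⟩
      have h1 := hn2 (m + 1) (vs (m + 1)) t ⟨by linarith [ht.1], by linarith [ht.2]⟩
      rw [← hvs] at h1
      refine h1.trans ?_
      calc ENNReal.ofReal ((1 / 16) ^ (m + 1)) + 2 * hd α u₀ (fc ((vs (m + 1)).1 0))
          ≤ ENNReal.ofReal ((1 / 16) ^ (m + 1)) + 2 * ENNReal.ofReal ((1 / 16) ^ m) := by
            gcongr; exact hsmall m
        _ = ENNReal.ofReal (33 * (1 / 16) ^ (m + 1)) := by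
            rw [show (2:ℝ≥0∞) = ENNReal.ofReal 2 by simp, ← ENNReal.ofReal_mul (by norm_num),
              ← ENNReal.ofReal_add (by positivity) (by positivity)]
            congr 1
            rw [pow_succ]; ring
    exact cauchy_of_cons α (fun n t => fc ((vs n).1 t)) hcons

/-- the classification for `α < 1/2` -/
theorem classification (α : ℝ) (hα : α < 1 / 2) :
    (∀ u₀ : ℤ → ℂ, hd α u₀ 0 < ⊤ → ∃ u : ℝ → ℤ → ℂ, IsGlobalSol α u₀ u) ↔ α ≤ 0 := by
  constructor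
  · intro h
    by_contra hc
    push Not at hc
    obtain ⟨u₀, h1, h2⟩ := main_neg α hc hα
    exact h2 (h u₀ h1)
  · intro h u₀ hu
    rcases h.lt_or_eq with h | h
    · exact pos_neg α h u₀ hu
    · subst h; exact pos_zero u₀ hu

end MMT
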