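import Pool.Agent.Helper823.MMT.Defs2
open Complex MeasureTheory Filter Topology Set
open scoped ContDiff ENNReal
namespace MMT
namespace Xfclin

lemma norm_ker (k : ℤ) (x : ℝ) : ‖cexp (-(I * (k:ℂ) * (x:ℂ)))‖ = 1 := by
  rw [Complex.norm_exp]
  have : (-(I * (k:ℂ) * (x:ℂ))).re = 0 := by simp
  rw [this, Real.exp_zero]

lemma ker_int (f : ℝ → ℂ) (hf : Reg f) (k : ℤ) :
    IntervalIntegrable (fun x : ℝ => cexp (-(I * (k:ℂ) * (x:ℂ))) * f x) volume 0 (2 * Real.pi) := by
  obtain ⟨hm, -, C, hC⟩ := hf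
  rw [intervalIntegrable_iff]
  have : IsFiniteMeasure (volume.restrict (Set.uIoc (0:ℝ) (2 * Real.pi))) := by
    constructor
    rw [Measure.restrict_apply_univ]
    simp [Set.uIoc]
  refine Integrable.of_bound (C := C) ?_ ?_
  · have h1 : Measurable (fun x : ℝ => cexp (-(I * (k:ℂ) * (x:ℂ)))) := by
      apply Continuous.measurable
      fun_prop
    exact (h1.mul hm).aestronglyMeasurable
  · refine Filter.Eventually.of_forall fun x => ?_
    rw [norm_mul, norm_ker, one_mul]
    exact hC x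

theorem fc_sub (f g : ℝ → ℂ) (hf : Reg f) (hg : Reg g) (k : ℤ) :
    fc (fun x => f x - g x) k = fc f k - fc g k := by
  unfold fc
  rw [← mul_sub, ← intervalIntegral.integral_sub (ker_int f hf k) (ker_int g hg k)]
  congr 1
  apply intervalIntegral.integral_congr
  intro x _
  simp only
  ring

theorem fc_exp (A : ℂ) (k j : ℤ) :
    fc (fun x => A * cexp (I * (k:ℂ) * (x:ℂ))) j = if j = k then A else 0 := by
  have hpi : (Real.pi : ℂ) ≠ 0 := by exact_mod_cast Real.pi_ne_zero
  have e1 : ∀ x : ℝ, cexp (-(I * (j:ℂ) * (x:ℂ))) * (A * cexp (I * (k:ℂ) * (x:ℂ))) =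
      A * cexp ((I * ((k:ℂ) - (j:ℂ))) * (x:ℂ)) := by
    intro x
    rw [show (I * ((k:ℂ) - (j:ℂ))) * (x:ℂ) = -(I * (j:ℂ) * (x:ℂ)) + I * (k:ℂ) * (x:ℂ) by ring,
      Complex.exp_add]
    ring
  unfold fc
  simp only [e1]
  rw [intervalIntegral.integral_const_mul]
  by_cases h : j = k
  · subst h
    simp only [sub_self, mul_zero, zero_mul, Complex.exp_zero, if_true]
    rw [intervalIntegral.integral_const]
    simp only [sub_zero, Complex.real_smul, mul_one]
    push_cast
    field_simp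
  · rw [if_neg h]
    have hc : I * ((k:ℂ) - (j:ℂ)) ≠ 0 := by
      apply mul_ne_zero I_ne_zero
      rw [sub_ne_zero]
      intro hh
      exact h (Int.cast_injective hh).symm
    rw [integral_exp_mul_complex hc]
    have e2 : cexp (I * ((k:ℂ) - (j:ℂ)) * ((2 * Real.pi : ℝ) : ℂ)) = 1 := by
      have := Complex.exp_int_mul_two_pi_mul_I (k - j)
      rw [← this]
      congr 1
      push_cast
      ring
    rw [e2]
    simp


end Xfclin
end MMT
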