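import Pool.Agent.Helper823.MMT.Defs2
open Complex MeasureTheory Filter Topology Set
open scoped ContDiff ENNReal
namespace MMT
namespace Xlipode

theorem lo_local {E : Type*} [NormedAddCommGroup E] [NormedSpace ℝ E] [CompleteSpace E]
    (F : E → E) (K : NNReal) (hF : LipschitzWith K F) (x : E) :
    ∃ α : ℝ → E, α 0 = x ∧ ∀ t ∈ Icc (0 : ℝ) (1 / (K + 1)),
      HasDerivWithinAt α (F (α t)) (Icc 0 (1 / (K + 1))) t := by
  have hδ : (0 : ℝ) ≤ 1 / (K + 1) := by positivity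
  have hK : (0 : ℝ) < (K : ℝ) + 1 := by positivity
  have hPL : IsPicardLindelof (fun _ : ℝ => F) (tmin := 0) (tmax := 1 / (K + 1))
      ⟨0, left_mem_Icc.2 hδ⟩ x (‖F x‖₊ + 1) 0 ((K + 1) * (‖F x‖₊ + 1)) K := by
    apply IsPicardLindelof.of_time_independent
    · intro y hy
      rw [Metric.mem_closedBall, dist_eq_norm] at hy
      have h1 : ‖F y - F x‖ ≤ K * ‖y - x‖ := by
        rw [← dist_eq_norm, ← dist_eq_norm]
        exact hF.dist_le_mul y x
      have h2 : ‖F y‖ ≤ ‖F y - F x‖ + ‖F x‖ := by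
        have := norm_add_le (F y - F x) (F x)
        rwa [sub_add_cancel] at this
      have h3 : (K : ℝ) * ‖y - x‖ ≤ K * ((‖F x‖₊ + 1 : NNReal) : ℝ) :=
        mul_le_mul_of_nonneg_left hy K.2
      push_cast at h3 ⊢
      linarith
    · exact hF.lipschitzOnWith
    · have h5 : max (1 / ((K : ℝ) + 1) - 0) (0 - 0) = 1 / (K + 1) := by
        rw [sub_zero, sub_zero, max_eq_left hδ]
      show (((K + 1) * (‖F x‖₊ + 1) : NNReal) : ℝ) * max (1 / ((K : ℝ) + 1) - 0) (0 - 0) ≤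
        ((‖F x‖₊ + 1 : NNReal) : ℝ) - ((0 : NNReal) : ℝ)
      rw [h5]
      push_cast
      rw [sub_zero]
      field_simp
      exact le_rfl
  obtain ⟨α, h0, h1⟩ := hPL.exists_eq_forall_mem_Icc_hasDerivWithinAt₀
  exact ⟨α, h0, h1⟩

theorem lo_forward {E : Type*} [NormedAddCommGroup E] [NormedSpace ℝ E] [CompleteSpace E]
    (F : E → E) (K : NNReal) (hF : LipschitzWith K F) (x0 : E) :
    ∃ u : ℝ → E, u 0 = x0 ∧ (∀ t, 0 < t → HasDerivAt u (F (u t)) t) ∧
      HasDerivWithinAt u (F (u 0)) (Icc 0 (1 / (K + 1))) 0 := by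
  choose φ hφ0 hφ using lo_local F K hF
  obtain ⟨δ, hδ⟩ : ∃ δ : ℝ, δ = 1 / (K + 1) := ⟨_, rfl⟩
  have hδ0 : 0 < δ := by rw [hδ]; positivity
  rw [← hδ] at hφ ⊢
  obtain ⟨X, hX0, hXs⟩ : ∃ X : ℕ → E, X 0 = x0 ∧ ∀ n, X (n + 1) = φ (X n) δ :=
    ⟨fun n => Nat.rec x0 (fun _ x => φ x δ) n, rfl, fun _ => rfl⟩
  obtain ⟨u, hu⟩ : ∃ u : ℝ → E, u = fun t => φ (X ⌊t / δ⌋₊) (t - ⌊t / δ⌋₊ * δ) := ⟨_, rfl⟩
  have hA : ∀ n : ℕ, ∀ t ∈ Icc ((n : ℝ) * δ) ((n + 1) * δ), u t = φ (X n) (t - n * δ) := by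
    intro n t ht
    rcases ht.2.lt_or_eq with h | h
    · have h1 : ⌊t / δ⌋₊ = n := by
        rw [Nat.floor_eq_iff (div_nonneg (le_trans (by positivity) ht.1) hδ0.le)]
        rw [le_div_iff₀ hδ0, div_lt_iff₀ hδ0]
        exact ⟨ht.1, h⟩
      rw [hu]
      beta_reduce
      rw [h1]
    · have h1 : ⌊t / δ⌋₊ = n + 1 := by
        rw [h, mul_div_cancel_right₀ _ hδ0.ne']
        exact_mod_cast Nat.floor_natCast (n + 1)
      rw [hu]
      beta_reduce
      rw [h1, h]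
      push_cast
      rw [sub_self, hφ0, hXs]
      congr 1
      ring
  have hB : ∀ n : ℕ, ∀ t ∈ Icc ((n : ℝ) * δ) ((n + 1) * δ),
      HasDerivWithinAt u (F (u t)) (Icc ((n : ℝ) * δ) ((n + 1) * δ)) t := by
    intro n t ht
    have hm : MapsTo (fun s : ℝ => s - n * δ) (Icc ((n : ℝ) * δ) ((n + 1) * δ)) (Icc 0 δ) := by
      intro s hs
      constructor
      · have := hs.1
        show 0 ≤ s - n * δ
        linarith
      · have := hs.2
        show s - n * δ ≤ δ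
        linarith
    have h1 := hφ (X n) (t - n * δ) (hm ht)
    have h2 : HasDerivWithinAt (fun s : ℝ => s - n * δ) 1 (Icc ((n : ℝ) * δ) ((n + 1) * δ)) t :=
      ((hasDerivAt_id t).sub_const _).hasDerivWithinAt
    have h3 := HasDerivWithinAt.scomp t h1 h2 hm
    rw [one_smul] at h3
    rw [hA n t ht]
    exact h3.congr (fun s hs => hA n s hs) (hA n t ht)
  refine ⟨u, ?_, ?_, ?_⟩
  · rw [hu]
    simp [hφ0, hX0]
  · intro t ht
    obtain ⟨n, hn⟩ : ∃ n : ℕ, n = ⌊t / δ⌋₊ := ⟨_, rfl⟩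
    have h1 := (Nat.floor_eq_iff (div_nonneg ht.le hδ0.le)).1 hn.symm
    rw [le_div_iff₀ hδ0, div_lt_iff₀ hδ0] at h1
    rcases h1.1.lt_or_eq with h | h
    · exact (hB n t ⟨h1.1, h1.2.le⟩).hasDerivAt (Icc_mem_nhds h h1.2)
    · rcases n with _ | n
      · rw [Nat.cast_zero, zero_mul] at h
        exact absurd h ht.ne
      · have hl : t ∈ Icc ((n : ℝ) * δ) ((n + 1) * δ) := by
          rw [← h]
          push_cast
          constructor <;> nlinarith
        have e1 := hB n t hl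
        have e2 := hB (n + 1) t ⟨h1.1, h1.2.le⟩
        have e3 := e1.union e2
        refine e3.hasDerivAt ?_
        have e4 : Icc ((n : ℝ) * δ) ((n + 1) * δ) ∪ Icc (((n + 1 : ℕ) : ℝ) * δ) (((n + 1 : ℕ) + 1) * δ) =
            Icc ((n : ℝ) * δ) (((n + 1 : ℕ) + 1) * δ) := by
          push_cast
          apply Icc_union_Icc_eq_Icc <;> nlinarith
        rw [e4]
        apply Icc_mem_nhds
        · rw [← h]
          push_cast
          nlinarith
        · exact h1.2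
  · have := hB 0 0 ⟨by simp, by simp; exact hδ0.le⟩
    simpa using this

theorem lipschitz_ode {E : Type*} [NormedAddCommGroup E] [NormedSpace ℝ E] [CompleteSpace E]
    (F : E → E) (K : NNReal) (hF : LipschitzWith K F) (x0 : E) :
    ∃ u : ℝ → E, u 0 = x0 ∧ ∀ t, HasDerivAt u (F (u t)) t := by
  obtain ⟨u, hu0, hu1, hu2⟩ := lo_forward F K hF x0
  obtain ⟨v, hv0, hv1, hv2⟩ := lo_forward (fun x => -F x) K hF.neg x0
  obtain ⟨δ, hδ⟩ : ∃ δ : ℝ, δ = 1 / (K + 1) := ⟨_, rfl⟩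
  have hδ0 : 0 < δ := by rw [hδ]; positivity
  rw [← hδ] at hu2 hv2
  obtain ⟨U, hU⟩ : ∃ U : ℝ → E, U = fun t => if 0 ≤ t then u t else v (-t) := ⟨_, rfl⟩
  have hUp : ∀ t, 0 ≤ t → U t = u t := by
    intro t ht
    rw [hU]
    exact if_pos ht
  have hUn : ∀ t, t ≤ 0 → U t = v (-t) := by
    intro t ht
    rcases ht.lt_or_eq with h | h
    · rw [hU]
      exact if_neg (not_le.2 h)
    · rw [h, hUp 0 le_rfl, neg_zero, hu0, hv0]
  refine ⟨U, by rw [hUp 0 le_rfl, hu0], fun t => ?_⟩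
  rcases lt_trichotomy t 0 with h | h | h
  · rw [hUn t h.le]
    have h1 := hv1 (-t) (by linarith)
    have h2 := HasDerivAt.scomp t h1 (hasDerivAt_neg t)
    rw [neg_smul, one_smul, neg_neg] at h2
    refine h2.congr_of_eventuallyEq ?_
    filter_upwards [Iio_mem_nhds h] with s hs
    exact hUn s (le_of_lt hs)
  · subst h
    rw [hUp 0 le_rfl]
    have h1 : HasDerivWithinAt U (F (u 0)) (Icc 0 δ) 0 :=
      hu2.congr (fun s hs => hUp s hs.1) (hUp 0 le_rfl)
    have hm : MapsTo (fun s : ℝ => -s) (Icc (-δ) 0) (Icc 0 δ) := by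
      intro s hs
      have h3 := hs.1
      have h4 := hs.2
      constructor
      · show 0 ≤ -s
        linarith
      · show -s ≤ δ
        linarith
    have hv2' : HasDerivWithinAt v (-F (v 0)) (Icc 0 δ) (-0) := by
      rw [neg_zero]
      exact hv2
    have h2 := HasDerivWithinAt.scomp (0 : ℝ) hv2' (hasDerivAt_neg (0 : ℝ)).hasDerivWithinAt hm
    rw [neg_smul, one_smul, neg_neg, hv0, ← hu0] at h2
    have h3 : HasDerivWithinAt U (F (u 0)) (Icc (-δ) 0) 0 :=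
      h2.congr (fun s hs => hUn s hs.2) (hUn 0 le_rfl)
    have h4 := h3.union h1
    rw [Icc_union_Icc_eq_Icc (by linarith) (by linarith)] at h4
    exact h4.hasDerivAt (Icc_mem_nhds (by linarith) hδ0)
  · rw [hUp t h.le]
    refine (hu1 t h).congr_of_eventuallyEq ?_
    filter_upwards [Ioi_mem_nhds h] with s hs
    exact hUp s (le_of_lt hs)


end Xlipode
end MMT
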