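import Pool.Agent.Helper823.MMT.Defs
open Complex MeasureTheory Filter Topology Set
open scoped ContDiff ENNReal
namespace MMT
namespace Xmest

theorem ME_mv (h h' : ℝ → ℝ) (hd : ∀ u, HasDerivAt h (h' u) u) (C1 : ℝ)
    (h1 : ∀ u, 0 ≤ u → |h' u| * u ≤ C1) (q : ℝ) (hq : 0 ≤ q) (a b : ℝ) (ha : 0 ≤ a) (hab : a ≤ b) :
    |h (q * b ^ 2) - h (q * a ^ 2)| * a ≤ 2 * C1 * (b - a) := by
  rcases hab.eq_or_lt with rfl | hlt
  · simp
  · have hg : ∀ x, HasDerivAt (fun x => h (q * x ^ 2)) (h' (q * x ^ 2) * (q * (2 * x))) x := by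
      intro x
      have e1 : HasDerivAt (fun x : ℝ => q * x ^ 2) (q * (2 * x)) x := by
        have := (hasDerivAt_pow 2 x).const_mul q
        refine this.congr_deriv ?_
        norm_num
      exact (hd (q * x ^ 2)).comp x e1
    obtain ⟨c, hc, hc2⟩ := exists_hasDerivAt_eq_slope (fun x => h (q * x ^ 2))
      (fun x => h' (q * x ^ 2) * (q * (2 * x))) hlt
      (fun x _ => (hg x).continuousAt.continuousWithinAt) (fun x _ => hg x)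
    have hba : 0 < b - a := by linarith
    have hc0 : 0 < c := lt_of_le_of_lt ha hc.1
    have h3 : h (q * b ^ 2) - h (q * a ^ 2) = h' (q * c ^ 2) * (q * (2 * c)) * (b - a) := by
      rw [hc2, div_mul_cancel₀ _ hba.ne']
    rw [h3, abs_mul, abs_mul, abs_of_nonneg (show 0 ≤ q * (2 * c) by positivity), abs_of_pos hba]
    have h4 := h1 (q * c ^ 2) (by positivity)
    have h5 : |h' (q * c ^ 2)| * (q * (2 * c)) * (b - a) * a ≤
        |h' (q * c ^ 2)| * (q * (2 * c)) * (b - a) * c :=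
      mul_le_mul_of_nonneg_left hc.1.le (by positivity)
    have h6 : |h' (q * c ^ 2)| * (q * (2 * c)) * (b - a) * c =
        2 * (|h' (q * c ^ 2)| * (q * c ^ 2)) * (b - a) := by ring
    rw [h6] at h5
    refine h5.trans ?_
    exact mul_le_mul_of_nonneg_right (by linarith) hba.le

theorem ME_lip (h h' : ℝ → ℝ) (hd : ∀ u, HasDerivAt h (h' u) u) (C0 C1 : ℝ)
    (h0 : ∀ u, 0 ≤ u → |h u| ≤ C0)
    (h1 : ∀ u, 0 ≤ u → |h' u| * u ≤ C1) (q : ℝ) (hq : 0 ≤ q) (z w : ℂ) :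
    ‖((h (q * ‖z‖ ^ 2) : ℝ) : ℂ) * z - ((h (q * ‖w‖ ^ 2) : ℝ) : ℂ) * w‖ ≤
      (C0 + 2 * C1) * ‖z - w‖ := by
  wlog hwz : ‖w‖ ≤ ‖z‖ generalizing z w
  · rw [norm_sub_rev, norm_sub_rev z w]
    exact this w z (le_of_not_ge hwz)
  have hC1 : 0 ≤ C1 := by
    have := h1 0 le_rfl
    simpa using this
  have e1 : ((h (q * ‖z‖ ^ 2) : ℝ) : ℂ) * z - ((h (q * ‖w‖ ^ 2) : ℝ) : ℂ) * w =
      ((h (q * ‖z‖ ^ 2) : ℝ) : ℂ) * (z - w) +
        ((h (q * ‖z‖ ^ 2) - h (q * ‖w‖ ^ 2) : ℝ) : ℂ) * w := by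
    push_cast
    ring
  rw [e1]
  refine (norm_add_le _ _).trans ?_
  rw [norm_mul, norm_mul, Complex.norm_real, Complex.norm_real, Real.norm_eq_abs, Real.norm_eq_abs]
  have e2 := ME_mv h h' hd C1 h1 q hq ‖w‖ ‖z‖ (norm_nonneg _) hwz
  have e3 := h0 (q * ‖z‖ ^ 2) (by positivity)
  have e4 : ‖z‖ - ‖w‖ ≤ ‖z - w‖ := norm_sub_norm_le z w
  have e5 := mul_le_mul_of_nonneg_right e3 (norm_nonneg (z - w))
  have e6 := mul_le_mul_of_nonneg_left e4 (show 0 ≤ 2 * C1 by linarith)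
  linarith

theorem ME_a (u : ℝ) (hu : 0 ≤ u) : |(1 - 2 * u) * Real.exp (-(2 * u))| ≤ 1 := by
  rw [abs_mul, abs_of_pos (Real.exp_pos _), Real.exp_neg, ← div_eq_mul_inv,
    div_le_one (Real.exp_pos _)]
  have h1 := Real.add_one_le_exp (2 * u)
  rw [abs_le]
  constructor <;> linarith

theorem ME_b (u : ℝ) (hu : 0 ≤ u) : |(-4 + 4 * u) * Real.exp (-(2 * u))| * u ≤ 4 := by
  have h1 := Real.add_one_le_exp u
  have h2 : Real.exp (-(2 * u)) = (Real.exp u * Real.exp u)⁻¹ := by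
    rw [Real.exp_neg, ← Real.exp_add]
    congr 2
    ring
  rw [abs_mul, abs_of_pos (Real.exp_pos _), h2, ← div_eq_mul_inv, div_mul_eq_mul_div,
    div_le_iff₀ (by positivity)]
  have h3 : |(-4 + 4 * u)| ≤ 4 * (u + 1) := by
    rw [abs_le]
    constructor <;> linarith
  have h4 : |(-4 + 4 * u)| * u ≤ 4 * (u + 1) * (u + 1) := by
    have := mul_le_mul h3 (show u ≤ u + 1 by linarith) hu (by positivity)
    exact this
  have h5 : (u + 1) * (u + 1) ≤ Real.exp u * Real.exp u :=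
    mul_le_mul h1 h1 (by linarith) (Real.exp_pos _).le
  linarith

theorem ME_c (u : ℝ) (hu : 0 ≤ u) : |(-1) * Real.exp (-u)| * u ≤ 4 := by
  have h1 := Real.add_one_le_exp u
  rw [abs_mul, abs_of_pos (Real.exp_pos _), Real.exp_neg, abs_neg, abs_one, one_mul,
    ← div_eq_inv_mul, div_le_iff₀ (Real.exp_pos _)]
  linarith

theorem ME_d (u : ℝ) (hu : 0 ≤ u) : |Real.exp (-u)| ≤ 1 := by
  rw [abs_of_pos (Real.exp_pos _), Real.exp_neg]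
  exact inv_le_one_of_one_le₀ (Real.one_le_exp hu)

theorem ME_e (t : ℝ) (ht : 0 ≤ t) : |(1 - 2 * t ^ 2) * Real.exp (-(2 * t ^ 2))| * t ≤ 9 := by
  have h1 := Real.add_one_le_exp (t ^ 2)
  have h2 : Real.exp (-(2 * t ^ 2)) = (Real.exp (t ^ 2) * Real.exp (t ^ 2))⁻¹ := by
    rw [Real.exp_neg, ← Real.exp_add]
    congr 2
    ring
  rw [abs_mul, abs_of_pos (Real.exp_pos _), h2, ← div_eq_mul_inv, div_mul_eq_mul_div,
    div_le_iff₀ (by positivity)]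
  have h3 : |1 - 2 * t ^ 2| ≤ 2 * (t ^ 2 + 1) := by
    rw [abs_le]
    constructor <;> nlinarith [sq_nonneg t]
  have h4 : |1 - 2 * t ^ 2| * t ≤ 2 * (t ^ 2 + 1) * (t ^ 2 + 1) := by
    have := mul_le_mul h3 (show t ≤ t ^ 2 + 1 by nlinarith [sq_nonneg (t - 1), sq_nonneg t]) ht (by positivity)
    exact this
  have h5 : (t ^ 2 + 1) * (t ^ 2 + 1) ≤ Real.exp (t ^ 2) * Real.exp (t ^ 2) :=
    mul_le_mul h1 h1 (by positivity) (Real.exp_pos _).le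
  nlinarith [mul_pos (Real.exp_pos (t ^ 2)) (Real.exp_pos (t ^ 2))]

theorem M_est : ∃ C : ℝ, 0 < C ∧ ∀ (A : ℝ), 0 < A →
    (∀ z : ℂ, ‖(((1 - 2 * (1 / A ^ 2) * ‖z‖ ^ 2) * Real.exp (-(2 * (1 / A ^ 2) * ‖z‖ ^ 2)) : ℝ) : ℂ) * z‖ ≤ C * A) ∧
    (∀ z w : ℂ, ‖(((1 - 2 * (1 / A ^ 2) * ‖z‖ ^ 2) * Real.exp (-(2 * (1 / A ^ 2) * ‖z‖ ^ 2)) : ℝ) : ℂ) * z -
      (((1 - 2 * (1 / A ^ 2) * ‖w‖ ^ 2) * Real.exp (-(2 * (1 / A ^ 2) * ‖w‖ ^ 2)) : ℝ) : ℂ) * w‖ ≤ C * ‖z - w‖) ∧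
    (∀ z w : ℂ, ‖((Real.exp (-((1 / A ^ 2) * ‖z‖ ^ 2)) : ℝ) : ℂ) * z -
      ((Real.exp (-((1 / A ^ 2) * ‖w‖ ^ 2)) : ℝ) : ℂ) * w‖ ≤ C * ‖z - w‖) := by
  refine ⟨9, by norm_num, fun A hA => ?_⟩
  have hq : 0 ≤ 1 / A ^ 2 := by positivity
  have hd1 : ∀ u : ℝ, HasDerivAt (fun u : ℝ => (1 - 2 * u) * Real.exp (-(2 * u)))
      ((-4 + 4 * u) * Real.exp (-(2 * u))) u := by
    intro u
    have e1 : HasDerivAt (fun u : ℝ => 2 * u) 2 u := by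
      simpa using (hasDerivAt_id u).const_mul 2
    have e2 : HasDerivAt (fun u : ℝ => 1 - 2 * u) (-2) u := e1.const_sub 1
    have e3 : HasDerivAt (fun u : ℝ => Real.exp (-(2 * u))) (Real.exp (-(2 * u)) * (-2)) u :=
      e1.neg.exp
    refine (e2.mul e3).congr_deriv ?_
    ring
  have hd2 : ∀ u : ℝ, HasDerivAt (fun u : ℝ => Real.exp (-u)) ((-1) * Real.exp (-u)) u := by
    intro u
    refine ((hasDerivAt_id u).neg.exp).congr_deriv ?_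
    simp
  refine ⟨?_, ?_, ?_⟩
  · intro z
    rw [norm_mul, Complex.norm_real, Real.norm_eq_abs]
    have h1 := ME_e (‖z‖ / A) (by positivity)
    have h2 : 2 * (‖z‖ / A) ^ 2 = 2 * (1 / A ^ 2) * ‖z‖ ^ 2 := by
      field_simp
    rw [h2] at h1
    have h3 : ‖z‖ = ‖z‖ / A * A := by field_simp
    have h4 := mul_le_mul_of_nonneg_right h1 hA.le
    calc _ = |(1 - 2 * (1 / A ^ 2) * ‖z‖ ^ 2) * Real.exp (-(2 * (1 / A ^ 2) * ‖z‖ ^ 2))| *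
          (‖z‖ / A) * A := by
          rw [mul_assoc _ (‖z‖ / A) A, ← h3]
      _ ≤ 9 * A := h4
  · intro z w
    have h1 := ME_lip _ _ hd1 1 4 ME_a ME_b (1 / A ^ 2) hq z w
    rw [← mul_assoc 2 (1 / A ^ 2), ← mul_assoc 2 (1 / A ^ 2)] at h1
    refine h1.trans (le_of_eq ?_)
    norm_num
  · intro z w
    have h1 := ME_lip _ _ hd2 1 4 ME_d ME_c (1 / A ^ 2) hq z w
    refine h1.trans (le_of_eq ?_)
    norm_num


end Xmest
end MMT
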