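import Pool.Agent.Helper823.MMT.Defs2
open Complex MeasureTheory Filter Topology Set
open scoped ContDiff ENNReal
namespace MMT
namespace Xoscp

theorem osc_pair (B B' w w' : ℝ → ℂ) (t M M' W θ θ' d d' : ℝ) (ht : 0 ≤ t) (hw : Continuous w) (hw' : Continuous w')
    (hB : ∀ s ∈ Icc 0 t, HasDerivAt B (-I * (((‖B s‖ ^ 2 : ℝ) : ℂ) * B s + w s)) s)
    (hB' : ∀ s ∈ Icc 0 t, HasDerivAt B' (-I * (((‖B' s‖ ^ 2 : ℝ) : ℂ) * B' s + w' s)) s)
    (hM : ∀ s ∈ Icc 0 t, ‖B s‖ ≤ M) (hM' : ∀ s ∈ Icc 0 t, ‖B' s‖ ≤ M')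
    (hW : ∀ s ∈ Icc 0 t, ‖w s‖ ≤ W) (hW' : ∀ s ∈ Icc 0 t, ‖w' s‖ ≤ W)
    (hd : ∀ s ∈ Icc 0 t, |‖B s‖ ^ 2 - θ| ≤ d) (hd' : ∀ s ∈ Icc 0 t, |‖B' s‖ ^ 2 - θ'| ≤ d') (hθ : θ ≠ θ') :
    ‖∫ s in (0:ℝ)..t, (starRingEnd ℂ) (B s) * B' s‖ ≤
      (2 * M * M' + t * (M * (d' * M' + W) + M' * (d * M + W))) / |θ - θ'| := by
  have h0t : (0 : ℝ) ∈ Icc 0 t := ⟨le_rfl, ht⟩
  have htt : t ∈ Icc 0 t := ⟨ht, le_rfl⟩
  have hM0 : 0 ≤ M := (norm_nonneg _).trans (hM 0 h0t)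
  have hM0' : 0 ≤ M' := (norm_nonneg _).trans (hM' 0 h0t)
  have hW0 : 0 ≤ W := (norm_nonneg _).trans (hW 0 h0t)
  have hd0 : 0 ≤ d := (abs_nonneg _).trans (hd 0 h0t)
  have hd0' : 0 ≤ d' := (abs_nonneg _).trans (hd' 0 h0t)
  have hc : θ - θ' ≠ 0 := sub_ne_zero.mpr hθ
  have hcC : ((θ - θ' : ℝ) : ℂ) ≠ 0 := by exact_mod_cast hc
  set f : ℝ → ℂ := fun s => (starRingEnd ℂ) (B s) * B' s with hf
  set R : ℝ → ℂ := fun s =>
    I * ((((‖B s‖ ^ 2 - θ : ℝ) : ℂ) * (starRingEnd ℂ) (B s) + (starRingEnd ℂ) (w s)) * B' s) -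
      I * ((starRingEnd ℂ) (B s) * (((‖B' s‖ ^ 2 - θ' : ℝ) : ℂ) * B' s + w' s)) with hR
  have hder : ∀ s ∈ Icc 0 t, HasDerivAt f (I * ((θ - θ' : ℝ) : ℂ) * f s + R s) s := by
    intro s hs
    have h1 := (hB s hs).star
    have h2 := h1.mul (hB' s hs)
    have e : I * ((θ - θ' : ℝ) : ℂ) * f s + R s =
        star (-I * (((‖B s‖ ^ 2 : ℝ) : ℂ) * B s + w s)) * B' s +
          star (B s) * (-I * (((‖B' s‖ ^ 2 : ℝ) : ℂ) * B' s + w' s)) := by
      simp only [hf, hR, Complex.star_def, map_neg, map_mul, map_add, conj_I, conj_ofReal]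
      push_cast
      ring
    rw [e]
    exact h2
  have hcB : ContinuousOn B (Icc 0 t) := fun s hs => (hB s hs).continuousAt.continuousWithinAt
  have hcB' : ContinuousOn B' (Icc 0 t) := fun s hs => (hB' s hs).continuousAt.continuousWithinAt
  have hcBs : ContinuousOn (fun s => (starRingEnd ℂ) (B s)) (Icc 0 t) :=
    Complex.continuous_conj.comp_continuousOn hcB
  have hcws : Continuous (fun s => (starRingEnd ℂ) (w s)) := Complex.continuous_conj.comp hw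
  have hcf : ContinuousOn f (Icc 0 t) := hcBs.mul hcB'
  have hcn : ContinuousOn (fun s => ((‖B s‖ ^ 2 - θ : ℝ) : ℂ)) (Icc 0 t) :=
    Complex.continuous_ofReal.comp_continuousOn ((hcB.norm.pow 2).sub continuousOn_const)
  have hcn' : ContinuousOn (fun s => ((‖B' s‖ ^ 2 - θ' : ℝ) : ℂ)) (Icc 0 t) :=
    Complex.continuous_ofReal.comp_continuousOn ((hcB'.norm.pow 2).sub continuousOn_const)
  have hcR : ContinuousOn R (Icc 0 t) :=
    (continuousOn_const.mul (((hcn.mul hcBs).add hcws.continuousOn).mul hcB')).sub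
      (continuousOn_const.mul (hcBs.mul ((hcn'.mul hcB').add hw'.continuousOn)))
  have hif : IntervalIntegrable f volume 0 t := by
    refine ContinuousOn.intervalIntegrable ?_
    rw [uIcc_of_le ht]
    exact hcf
  have hiR : IntervalIntegrable R volume 0 t := by
    refine ContinuousOn.intervalIntegrable ?_
    rw [uIcc_of_le ht]
    exact hcR
  have hftc : ∫ s in (0:ℝ)..t, (I * ((θ - θ' : ℝ) : ℂ) * f s + R s) = f t - f 0 := by
    refine intervalIntegral.integral_eq_sub_of_hasDerivAt ?_ ((hif.const_mul _).add hiR)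
    intro s hs
    rw [uIcc_of_le ht] at hs
    exact hder s hs
  rw [intervalIntegral.integral_add (hif.const_mul _) hiR, intervalIntegral.integral_const_mul] at hftc
  have hmain : I * ((θ - θ' : ℝ) : ℂ) * ∫ s in (0:ℝ)..t, f s = f t - f 0 - ∫ s in (0:ℝ)..t, R s := by
    rw [← hftc]
    ring
  have hnf : ∀ s ∈ Icc 0 t, ‖f s‖ ≤ M * M' := by
    intro s hs
    rw [hf]
    show ‖(starRingEnd ℂ) (B s) * B' s‖ ≤ M * M'
    rw [norm_mul, Complex.norm_conj]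
    exact mul_le_mul (hM s hs) (hM' s hs) (norm_nonneg _) hM0
  have hnR : ∀ s ∈ Icc 0 t, ‖R s‖ ≤ M * (d' * M' + W) + M' * (d * M + W) := by
    intro s hs
    have e1 : ‖(((‖B s‖ ^ 2 - θ : ℝ) : ℂ) * (starRingEnd ℂ) (B s) + (starRingEnd ℂ) (w s)) * B' s‖ ≤ (d * M + W) * M' := by
      rw [norm_mul]
      refine mul_le_mul ?_ (hM' s hs) (norm_nonneg _) (by positivity)
      refine (norm_add_le _ _).trans (add_le_add ?_ ?_)
      · rw [norm_mul, Complex.norm_conj, Complex.norm_real, Real.norm_eq_abs]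
        exact mul_le_mul (hd s hs) (hM s hs) (norm_nonneg _) hd0
      · rw [Complex.norm_conj]
        exact hW s hs
    have e2 : ‖(starRingEnd ℂ) (B s) * (((‖B' s‖ ^ 2 - θ' : ℝ) : ℂ) * B' s + w' s)‖ ≤ M * (d' * M' + W) := by
      rw [norm_mul, Complex.norm_conj]
      refine mul_le_mul (hM s hs) ?_ (norm_nonneg _) hM0
      refine (norm_add_le _ _).trans (add_le_add ?_ (hW' s hs))
      rw [norm_mul, Complex.norm_real, Real.norm_eq_abs]
      exact mul_le_mul (hd' s hs) (hM' s hs) (norm_nonneg _) hd0'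
    refine (norm_sub_le _ _).trans ?_
    rw [norm_mul, norm_mul I, Complex.norm_I, one_mul, one_mul]
    linarith
  have hnI : ‖∫ s in (0:ℝ)..t, R s‖ ≤ (M * (d' * M' + W) + M' * (d * M + W)) * |t - 0| := by
    refine intervalIntegral.norm_integral_le_of_norm_le_const fun s hs => hnR s ?_
    rw [uIoc_of_le ht] at hs
    exact ⟨hs.1.le, hs.2⟩
  rw [sub_zero, abs_of_nonneg ht] at hnI
  have hfin : |θ - θ'| * ‖∫ s in (0:ℝ)..t, f s‖ ≤ 2 * M * M' + t * (M * (d' * M' + W) + M' * (d * M + W)) := by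
    have e : ‖I * ((θ - θ' : ℝ) : ℂ) * ∫ s in (0:ℝ)..t, f s‖ = |θ - θ'| * ‖∫ s in (0:ℝ)..t, f s‖ := by
      rw [norm_mul, norm_mul, Complex.norm_I, one_mul, Complex.norm_real, Real.norm_eq_abs]
    rw [← e, hmain]
    have h1 := norm_sub_le (f t - f 0) (∫ s in (0:ℝ)..t, R s)
    have h2 := norm_sub_le (f t) (f 0)
    have h3 := hnf t htt
    have h4 := hnf 0 h0t
    linarith
  rw [le_div_iff₀ (abs_pos.mpr hc), mul_comm]
  exact hfin


end Xoscp
end MMT
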