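import Pool.Agent.Helper823.MMT.Defs
open Complex MeasureTheory Filter Topology Set
open scoped ContDiff ENNReal
namespace MMT
namespace Xparseval

theorem parseval_dif_int (f : ℝ → ℂ) (hf : Reg f) (k : ℤ) (h a b : ℝ) :
    IntervalIntegrable (fun x : ℝ => cexp (-(I * (k:ℂ) * (x:ℂ))) * f (x + h)) volume a b := by
  obtain ⟨hm, -, C, hC⟩ := hf
  rw [intervalIntegrable_iff]
  have hmeas : Measurable (fun x : ℝ => cexp (-(I * (k:ℂ) * (x:ℂ))) * f (x + h)) :=
    Measurable.mul (by fun_prop) (hm.comp (measurable_id.add_const h))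
  refine Measure.integrableOn_of_bounded (M := C) (by simp) hmeas.aestronglyMeasurable ?_
  refine Eventually.of_forall fun x => ?_
  have e : -(I * (k:ℂ) * (x:ℂ)) = ((-((k : ℝ) * x) : ℝ) : ℂ) * I := by
    push_cast
    ring
  rw [norm_mul, e, Complex.norm_exp_ofReal_mul_I, one_mul]
  exact hC _

theorem parseval_dif_fc (f : ℝ → ℂ) (hf : Reg f) (h : ℝ) (k : ℤ) :
    fc (fun x => f (x + h) - f x) k = (cexp (I * (k:ℂ) * (h:ℂ)) - 1) * fc f k := by
  have hper := hf.2.1
  have h0 : IntervalIntegrable (fun x : ℝ => cexp (-(I * (k:ℂ) * (x:ℂ))) * f x) volume 0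
      (2 * Real.pi) := by
    have := parseval_dif_int f hf k 0 0 (2 * Real.pi)
    simpa using this
  have h1 := parseval_dif_int f hf k h 0 (2 * Real.pi)
  have h2 : ∫ x in (0:ℝ)..(2 * Real.pi), cexp (-(I * (k:ℂ) * (x:ℂ))) * f (x + h) =
      cexp (I * (k:ℂ) * (h:ℂ)) * ∫ x in (0:ℝ)..(2 * Real.pi), cexp (-(I * (k:ℂ) * (x:ℂ))) * f x := by
    have e1 : ∀ x : ℝ, cexp (-(I * (k:ℂ) * (x:ℂ))) * f (x + h) =
        cexp (I * (k:ℂ) * (h:ℂ)) * (fun y : ℝ => cexp (-(I * (k:ℂ) * (y:ℂ))) * f y) (x + h) := by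
      intro x
      show _ = cexp (I * (k:ℂ) * (h:ℂ)) * (cexp (-(I * (k:ℂ) * ((x + h : ℝ):ℂ))) * f (x + h))
      rw [← mul_assoc, ← Complex.exp_add]
      congr 2
      push_cast
      ring
    simp_rw [e1]
    rw [intervalIntegral.integral_const_mul,
      intervalIntegral.integral_comp_add_right (fun y : ℝ => cexp (-(I * (k:ℂ) * (y:ℂ))) * f y) h]
    congr 1
    have hp : Function.Periodic (fun y : ℝ => cexp (-(I * (k:ℂ) * (y:ℂ))) * f y)
        (2 * Real.pi) := by
      intro y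
      show cexp (-(I * (k:ℂ) * ((y + 2 * Real.pi : ℝ):ℂ))) * f (y + 2 * Real.pi) = _
      rw [hper y]
      congr 1
      rw [Complex.exp_eq_exp_iff_exists_int]
      refine ⟨-k, ?_⟩
      push_cast
      ring
    have := hp.intervalIntegral_add_eq h 0
    rw [zero_add] at this ⊢
    rw [add_comm (2 * Real.pi) h]
    exact this
  unfold fc
  have e2 : ∀ x : ℝ, cexp (-(I * (k:ℂ) * (x:ℂ))) * (f (x + h) - f x) =
      cexp (-(I * (k:ℂ) * (x:ℂ))) * f (x + h) - cexp (-(I * (k:ℂ) * (x:ℂ))) * f x := by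
    intro x
    ring
  simp_rw [e2]
  rw [intervalIntegral.integral_sub h1 h0, h2]
  ring

theorem parseval_dif (f : ℝ → ℂ) (hf : Reg f) (h : ℝ) :
    HasSum (fun k : ℤ => 2 * Real.pi * (‖cexp (I * (k:ℂ) * (h:ℂ)) - 1‖ ^ 2 * ‖fc f k‖ ^ 2)) (Dif f h) := by
  have hpi := Real.pi_pos
  have hab : (0 : ℝ) < 2 * Real.pi := by positivity
  have hmem : MemLp (fun x => f (x + h) - f x) 2 (volume.restrict (Ioc 0 (2 * Real.pi))) := by
    obtain ⟨hm, -, C, hC⟩ := hf
    have hmeas : Measurable (fun x : ℝ => f (x + h) - f x) :=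
      (hm.comp (measurable_id.add_const h)).sub hm
    refine MemLp.of_bound hmeas.aestronglyMeasurable (C + C) ?_
    refine Eventually.of_forall fun x => ?_
    exact (norm_sub_le _ _).trans (add_le_add (hC _) (hC _))
  have H := hasSum_sq_fourierCoeffOn hab hmem
  have hfc : ∀ k : ℤ, fourierCoeffOn hab (fun x => f (x + h) - f x) k =
      fc (fun x => f (x + h) - f x) k := by
    intro k
    rw [fourierCoeffOn_eq_integral]
    unfold fc
    rw [Complex.real_smul]
    congr 1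
    · push_cast
      rw [sub_zero]
    · refine intervalIntegral.integral_congr fun x _ => ?_
      show fourier (-k) (x : AddCircle (2 * Real.pi - 0)) • (f (x + h) - f x) =
        cexp (-(I * (k:ℂ) * (x:ℂ))) * (f (x + h) - f x)
      rw [fourier_coe_apply, smul_eq_mul]
      congr 2
      have : (Real.pi : ℂ) ≠ 0 := by exact_mod_cast hpi.ne'
      push_cast
      rw [sub_zero]
      field_simp
  have H2 := H.mul_left (2 * Real.pi)
  have e : 2 * Real.pi * ((2 * Real.pi - 0)⁻¹ • ∫ x in (0:ℝ)..(2 * Real.pi),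
      ‖f (x + h) - f x‖ ^ 2) = Dif f h := by
    unfold Dif
    rw [sub_zero, smul_eq_mul, ← mul_assoc, mul_inv_cancel₀ hab.ne', one_mul]
  rw [e] at H2
  have e3 : (fun k : ℤ => 2 * Real.pi * ‖fourierCoeffOn hab (fun x => f (x + h) - f x) k‖ ^ 2) =
      (fun k : ℤ => 2 * Real.pi * (‖cexp (I * (k:ℂ) * (h:ℂ)) - 1‖ ^ 2 * ‖fc f k‖ ^ 2)) := by
    funext k
    rw [hfc, parseval_dif_fc f hf h k, norm_mul, mul_pow]
  rw [e3] at H2
  exact H2


end Xparseval
end MMT
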