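import Pool.Agent.Helper823.MMT.Defs2
open Complex MeasureTheory Filter Topology Set
open scoped ContDiff ENNReal
namespace MMT
namespace Xpdata

/-- phase -/
noncomputable def pulse_data_F (x : ℝ) : ℝ := Int.fract (x / (2 * Real.pi)) * (2 * Real.pi)

theorem pulse_data_indp_one (a b x : ℝ) : indp a b x = 1 ↔ pulse_data_F x ∈ Ico a b := by
  unfold indp pulse_data_F
  split_ifs with h
  · exact ⟨fun _ => h, fun _ => rfl⟩
  · exact ⟨fun h1 => absurd h1 zero_ne_one, fun h1 => absurd h1 h⟩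

theorem pulse_data_indp_zero (a b x : ℝ) (h : pulse_data_F x ∉ Ico a b) : indp a b x = 0 := by
  unfold indp
  exact if_neg h

/-- the set of the points with phase in an interval -/
def pulse_data_S (N : ℕ) (a b : ℝ) : Set ℝ := {x | pulse_data_F (N * x) ∈ Ico a b}

theorem pulse_data_norm (N : ℕ) (a b x : ℝ) :
    (pulse_data_S N a b).indicator (fun _ => (1:ℝ)) x = ‖indp a b (N * x)‖ := by
  by_cases h : x ∈ pulse_data_S N a b
  · rw [indicator_of_mem h, (pulse_data_indp_one a b (N * x)).2 h, norm_one]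
  · rw [indicator_of_notMem h, pulse_data_indp_zero a b (N * x) h, norm_zero]

theorem pulse_data_F_meas : Measurable pulse_data_F := by
  unfold pulse_data_F
  exact (measurable_fract.comp (measurable_id.div_const _)).mul_const _

theorem pulse_data_S_meas (N : ℕ) (a b : ℝ) : MeasurableSet (pulse_data_S N a b) := by
  have h1 : Measurable (fun x : ℝ => pulse_data_F (N * x)) :=
    pulse_data_F_meas.comp (measurable_const.mul measurable_id)
  exact h1 measurableSet_Ico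

theorem pulse_data_F_per (N : ℕ) (x : ℝ) :
    pulse_data_F (N * (x + 2 * Real.pi)) = pulse_data_F (N * x) := by
  unfold pulse_data_F
  have h : (N : ℝ) * (x + 2 * Real.pi) / (2 * Real.pi) = N * x / (2 * Real.pi) + N := by
    have := Real.pi_pos
    field_simp
  rw [h, Int.fract_add_natCast]

theorem pulse_data_kap (K : ℝ → ℝ) (κ : ℝ) (hK : Ker K κ) : 0 < κ := by
  have h1 : ∫ y in (0:ℝ)..(2 * Real.pi), (|K y| + 1) =
      (∫ y in (0:ℝ)..(2 * Real.pi), |K y|) + ∫ y in (0:ℝ)..(2 * Real.pi), (1 : ℝ) :=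
    intervalIntegral.integral_add hK.int.abs intervalIntegrable_const
  have h2 : 0 ≤ ∫ y in (0:ℝ)..(2 * Real.pi), |K y| :=
    intervalIntegral.integral_nonneg Real.two_pi_pos.le (fun _ _ => abs_nonneg _)
  rw [← hK.bd, h1, intervalIntegral.integral_const]
  have := Real.pi_pos
  simp only [sub_zero, smul_eq_mul, mul_one]
  linarith

theorem pulse_data_int (K : ℝ → ℝ) (κ : ℝ) (hK : Ker K κ) (S : Set ℝ) (hS : MeasurableSet S) (x : ℝ) :
    IntervalIntegrable (fun y => (|K y| + 1) * S.indicator (fun _ => (1:ℝ)) (x - y)) volume 0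
      (2 * Real.pi) := by
  have h1 : IntervalIntegrable (fun y => |K y| + 1) volume 0 (2 * Real.pi) :=
    hK.int.abs.add intervalIntegrable_const
  refine h1.mono_fun ?_ ?_
  · apply Measurable.aestronglyMeasurable
    refine Measurable.mul ((measurable_norm.comp hK.meas).add_const 1) ?_
    exact (measurable_const.indicator hS).comp (measurable_const.sub measurable_id)
  · refine Filter.Eventually.of_forall (fun y => ?_)
    simp only [norm_mul]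
    refine mul_le_of_le_one_right (norm_nonneg _) ?_
    by_cases h : x - y ∈ S
    · rw [indicator_of_mem h, norm_one]
    · rw [indicator_of_notMem h, norm_zero]
      exact zero_le_one

theorem pulse_data_mono (J : ℕ) (l : ℝ) (hl : 0 < l) (y : ℕ → ℝ)
    (hy : ∀ j ≤ J, 2 * l < y (j + 1) - y j) (i j : ℕ) (hij : i ≤ j) : j ≤ J + 1 → y i ≤ y j := by
  induction j, hij using Nat.le_induction with
  | base => intro _; exact le_refl _
  | succ j hj ih =>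
    intro h
    have h1 := ih (by omega)
    have h2 := hy j (by omega)
    linarith

theorem pulse_data_uniq (J : ℕ) (l : ℝ) (hl : 0 < l) (y : ℕ → ℝ)
    (hy : ∀ j ≤ J, 2 * l < y (j + 1) - y j) (u : ℝ) (i j : ℕ) (hi : i ≤ J) (hj : j ≤ J)
    (h1 : u ∈ Ico (y i) (y (i + 1))) (h2 : u ∈ Ico (y j) (y (j + 1))) : i = j := by
  rcases lt_trichotomy i j with h | h | h
  · have h3 := pulse_data_mono J l hl y hy (i + 1) j h (by omega)
    linarith [h1.2, h2.1]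
  · exact h
  · have h3 := pulse_data_mono J l hl y hy (j + 1) i h (by omega)
    linarith [h2.2, h1.1]

theorem pulse_data_sub (l : ℝ) (hl : 0 < l) (y : ℕ → ℝ) (j : ℕ) (u : ℝ)
    (h : u ∈ Ico (y j + l) (y (j + 1) - l)) : u ∈ Ico (y j) (y (j + 1)) :=
  ⟨by linarith [h.1], by linarith [h.2]⟩

theorem pulse_data_pot (K : ℝ → ℝ) (κ : ℝ) (hK : Ker K κ) (N : ℕ) (J : ℕ) (l : ℝ) (hl : 0 < l)
    (y : ℕ → ℝ) (hy : ∀ j ≤ J, 2 * l < y (j + 1) - y j) (x : ℝ) :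
    ∫ t in (0:ℝ)..(2 * Real.pi), (|K t| + 1) *
      ({u : ℝ | ∀ j ≤ J, u ∉ pulse_data_S N (y j + l) (y (j + 1) - l)}).indicator
        (fun _ => (1:ℝ)) (x - t)
    = κ - ∑ j ∈ Finset.range (J + 1), ∫ t in (0:ℝ)..(2 * Real.pi), (|K t| + 1) *
      (pulse_data_S N (y j + l) (y (j + 1) - l)).indicator (fun _ => (1:ℝ)) (x - t) := by
  have h1 : ∀ u : ℝ, ({u : ℝ | ∀ j ≤ J, u ∉ pulse_data_S N (y j + l) (y (j + 1) - l)}).indicator
        (fun _ => (1:ℝ)) u = 1 - ∑ j ∈ Finset.range (J + 1),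
        (pulse_data_S N (y j + l) (y (j + 1) - l)).indicator (fun _ => (1:ℝ)) u := by
    intro u
    by_cases hu : ∀ j ≤ J, u ∉ pulse_data_S N (y j + l) (y (j + 1) - l)
    · rw [indicator_of_mem (show u ∈ {u : ℝ | ∀ j ≤ J,
        u ∉ pulse_data_S N (y j + l) (y (j + 1) - l)} from hu), Finset.sum_eq_zero]
      · ring
      · intro j hj
        exact indicator_of_notMem (hu j (by have := Finset.mem_range.1 hj; omega)) _
    · rw [indicator_of_notMem (show u ∉ {u : ℝ | ∀ j ≤ J,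
        u ∉ pulse_data_S N (y j + l) (y (j + 1) - l)} from hu)]
      push Not at hu
      obtain ⟨j, hj, hju⟩ := hu
      rw [Finset.sum_eq_single j]
      · rw [indicator_of_mem hju]
        ring
      · intro i hi hij
        apply indicator_of_notMem
        intro hiu
        apply hij
        exact pulse_data_uniq J l hl y hy _ i j (by have := Finset.mem_range.1 hi; omega) hj
          (pulse_data_sub l hl y i _ hiu) (pulse_data_sub l hl y j _ hju)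
      · intro h
        exact absurd (Finset.mem_range.2 (by omega)) h
  have h2 : ∀ t : ℝ, (|K t| + 1) *
      ({u : ℝ | ∀ j ≤ J, u ∉ pulse_data_S N (y j + l) (y (j + 1) - l)}).indicator
        (fun _ => (1:ℝ)) (x - t) = (|K t| + 1) - ∑ j ∈ Finset.range (J + 1), (|K t| + 1) *
        (pulse_data_S N (y j + l) (y (j + 1) - l)).indicator (fun _ => (1:ℝ)) (x - t) := by
    intro t
    rw [h1, mul_sub, mul_one, Finset.mul_sum]
  simp_rw [h2]
  rw [intervalIntegral.integral_sub, intervalIntegral.integral_finsetSum, hK.bd]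
  · intro j _
    exact pulse_data_int K κ hK _ (pulse_data_S_meas _ _ _) x
  · exact hK.int.abs.add intervalIntegrable_const
  · have h3 := IntervalIntegrable.sum (Finset.range (J + 1))
      (f := fun j t => (|K t| + 1) *
        (pulse_data_S N (y j + l) (y (j + 1) - l)).indicator (fun _ => (1:ℝ)) (x - t))
      (fun j _ => pulse_data_int K κ hK _ (pulse_data_S_meas _ _ _) x)
    have h4 : (fun t => ∑ j ∈ Finset.range (J + 1), (|K t| + 1) *
        (pulse_data_S N (y j + l) (y (j + 1) - l)).indicator (fun _ => (1:ℝ)) (x - t)) =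
        ∑ j ∈ Finset.range (J + 1), fun t => (|K t| + 1) *
        (pulse_data_S N (y j + l) (y (j + 1) - l)).indicator (fun _ => (1:ℝ)) (x - t) := by
      funext t
      rw [Finset.sum_apply]
    rw [h4]
    exact h3

/-- the datum -/
noncomputable def pulse_data_a (n N J : ℕ) (f : ℝ → ℂ) (k : ℤ) (z : ℂ) (χ : ℕ → ℝ → ℝ) (x : ℝ) : ℂ :=
  f x * ((χ J (N * x) : ℝ) : ℂ) + z * cexp (I * (k:ℂ) * (x:ℂ)) *
    ∑ j ∈ Finset.range J, ((Real.sqrt ((n:ℝ) ^ 4 + n * j) * χ j (N * x) : ℝ) : ℂ)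

theorem pulse_data_a_smooth (n N J : ℕ) (f : ℝ → ℂ) (k : ℤ) (z : ℂ) (χ : ℕ → ℝ → ℝ)
    (hf : ContDiff ℝ ∞ f) (hχ : ∀ j ≤ J, ContDiff ℝ ∞ (χ j)) :
    ContDiff ℝ ∞ (pulse_data_a n N J f k z χ) := by
  unfold pulse_data_a
  have h1 : ContDiff ℝ ∞ (fun x : ℝ => (N : ℝ) * x) := contDiff_const.mul contDiff_id
  have h2 : ∀ j ≤ J, ContDiff ℝ ∞ (fun x : ℝ => χ j (N * x)) := fun j hj => (hχ j hj).comp h1
  have h3 : ContDiff ℝ ∞ (fun x : ℝ => (x : ℂ)) := Complex.ofRealCLM.contDiff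
  refine (hf.mul (h3.comp (h2 J le_rfl))).add (ContDiff.mul (contDiff_const.mul ?_) ?_)
  · exact (contDiff_const.mul h3).cexp
  · refine ContDiff.sum (fun j hj => ?_)
    exact h3.comp (contDiff_const.mul (h2 j (Finset.mem_range.1 hj).le))

theorem pulse_data_a_per (n N J : ℕ) (f : ℝ → ℂ) (k : ℤ) (z : ℂ) (χ : ℕ → ℝ → ℝ)
    (hf : Function.Periodic f (2 * Real.pi)) (hχ : ∀ j ≤ J, Function.Periodic (χ j) (2 * Real.pi)) :
    Function.Periodic (pulse_data_a n N J f k z χ) (2 * Real.pi) := by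
  intro x
  unfold pulse_data_a
  have h1 : ∀ j ≤ J, χ j (N * (x + 2 * Real.pi)) = χ j (N * x) := by
    intro j hj
    rw [mul_add]
    exact (hχ j hj).nat_mul N (N * x)
  have h2 : cexp (I * (k:ℂ) * ((x + 2 * Real.pi : ℝ) : ℂ)) = cexp (I * (k:ℂ) * (x:ℂ)) := by
    have : I * (k:ℂ) * ((x + 2 * Real.pi : ℝ) : ℂ) = I * (k:ℂ) * (x:ℂ) + k * (2 * Real.pi * I) := by
      push_cast
      ring
    rw [this, Complex.exp_add, Complex.exp_int_mul_two_pi_mul_I, mul_one]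
  rw [hf x, h1 J le_rfl, h2]
  congr 2
  refine Finset.sum_congr rfl (fun j hj => ?_)
  rw [h1 j (Finset.mem_range.1 hj).le]

/-- values on the pulses -/
theorem pulse_data_a_lt (n N J : ℕ) (f : ℝ → ℂ) (k : ℤ) (z : ℂ) (χ : ℕ → ℝ → ℝ)
    (l : ℝ) (hl : 0 < l) (y : ℕ → ℝ) (hy : ∀ j ≤ J, 2 * l < y (j + 1) - y j)
    (h0 : ∀ j ≤ J, ∀ x, indp (y j) (y (j + 1)) x = 0 → χ j x = 0)
    (x : ℝ) (j : ℕ) (hj : j < J) (hx : pulse_data_F (N * x) ∈ Ico (y j) (y (j + 1))) :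
    pulse_data_a n N J f k z χ x = z * cexp (I * (k:ℂ) * (x:ℂ)) *
      ((Real.sqrt ((n:ℝ) ^ 4 + n * j) * χ j (N * x) : ℝ) : ℂ) := by
  have h1 : ∀ i ≤ J, i ≠ j → χ i (N * x) = 0 := by
    intro i hi hij
    apply h0 i hi
    apply pulse_data_indp_zero
    intro h2
    exact hij (pulse_data_uniq J l hl y hy _ i j hi hj.le h2 hx)
  unfold pulse_data_a
  rw [h1 J le_rfl hj.ne', Finset.sum_eq_single j]
  · simp
  · intro i hi hij
    rw [h1 i (Finset.mem_range.1 hi).le hij]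
    simp
  · intro h
    exact absurd (Finset.mem_range.2 hj) h

theorem pulse_data_a_eq (n N J : ℕ) (f : ℝ → ℂ) (k : ℤ) (z : ℂ) (χ : ℕ → ℝ → ℝ)
    (l : ℝ) (hl : 0 < l) (y : ℕ → ℝ) (hy : ∀ j ≤ J, 2 * l < y (j + 1) - y j)
    (h0 : ∀ j ≤ J, ∀ x, indp (y j) (y (j + 1)) x = 0 → χ j x = 0)
    (x : ℝ) (hx : pulse_data_F (N * x) ∈ Ico (y J) (y (J + 1))) :
    pulse_data_a n N J f k z χ x = f x * ((χ J (N * x) : ℝ) : ℂ) := by
  have h1 : ∀ i ≤ J, i ≠ J → χ i (N * x) = 0 := by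
    intro i hi hij
    apply h0 i hi
    apply pulse_data_indp_zero
    intro h2
    exact hij (pulse_data_uniq J l hl y hy _ i J hi le_rfl h2 hx)
  unfold pulse_data_a
  rw [Finset.sum_eq_zero]
  · simp
  · intro i hi
    have := Finset.mem_range.1 hi
    rw [h1 i this.le this.ne]
    simp

theorem pulse_data_a_none (n N J : ℕ) (f : ℝ → ℂ) (k : ℤ) (z : ℂ) (χ : ℕ → ℝ → ℝ)
    (y : ℕ → ℝ)
    (h0 : ∀ j ≤ J, ∀ x, indp (y j) (y (j + 1)) x = 0 → χ j x = 0)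
    (x : ℝ) (hx : ∀ j ≤ J, pulse_data_F (N * x) ∉ Ico (y j) (y (j + 1))) :
    pulse_data_a n N J f k z χ x = 0 := by
  have h1 : ∀ i ≤ J, χ i (N * x) = 0 := by
    intro i hi
    apply h0 i hi
    apply pulse_data_indp_zero
    exact hx i hi
  unfold pulse_data_a
  rw [Finset.sum_eq_zero, h1 J le_rfl]
  · simp
  · intro i hi
    rw [h1 i (Finset.mem_range.1 hi).le]
    simp

theorem pulse_data_wave (k : ℤ) (z : ℂ) (hz : ‖z‖ = 1) (x r : ℝ) (hr : 0 ≤ r) :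
    ‖z * cexp (I * (k:ℂ) * (x:ℂ)) * ((r : ℝ) : ℂ)‖ = r := by
  have h : I * (k:ℂ) * (x:ℂ) = (((k : ℝ) * x : ℝ) : ℂ) * I := by
    push_cast
    ring
  rw [norm_mul, norm_mul, hz, h, Complex.norm_exp_ofReal_mul_I, Complex.norm_real,
    Real.norm_of_nonneg hr]
  ring

theorem pulse_data_sqrt_ge (n j : ℕ) : (n : ℝ) ^ 2 ≤ Real.sqrt ((n:ℝ) ^ 4 + n * j) := by
  apply Real.le_sqrt_of_sq_le
  have : (0 : ℝ) ≤ (n : ℝ) * j := by positivity
  nlinarith

theorem pulse_data_sqrt_le (n j : ℕ) (hj : j < n ^ 3) :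
    Real.sqrt ((n:ℝ) ^ 4 + n * j) ≤ 2 * (n : ℝ) ^ 2 := by
  apply Real.sqrt_le_iff.2
  refine ⟨by positivity, ?_⟩
  have h1 : (j : ℝ) ≤ (n : ℝ) ^ 3 := by exact_mod_cast hj.le
  have h2 : (n : ℝ) * j ≤ n * (n : ℝ) ^ 3 := mul_le_mul_of_nonneg_left h1 (by positivity)
  have h3 : (0 : ℝ) ≤ (n : ℝ) ^ 4 := by positivity
  nlinarith

/-- the abstract form -/
theorem pulse_data_core (K : ℝ → ℝ) (κ : ℝ) (hK : Ker K κ) (V c0 : ℝ) (n : ℕ) (hn : 1 ≤ n)
    (hB : BMP) (l : ℝ) (hl : 0 < l) (y : ℕ → ℝ) (hc0 : 0 < c0)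
    (hy : ∀ j ≤ n ^ 3, 2 * l < y (j + 1) - y j) (hy0 : 0 ≤ y 0) (hy1 : y (n ^ 3 + 1) = 2 * Real.pi)
    (hym : ∀ j < n ^ 3, y (j + 1) - y j - 2 * l =
      2 * Real.pi * (c0 / ((n:ℝ) ^ 3 * Real.sqrt ((n:ℝ) ^ 4 + n * j))))
    (hV : V ≤ 2 * (n : ℝ) ^ 2) (ε : ℝ)
    (hε1 : ε ≤ κ * c0 / (2 * (n:ℝ) ^ 5)) (hε2 : ε * ((n : ℝ) ^ 3 + 1) ≤ 1 / (2 * (n:ℝ) ^ 5))
    (hl2 : κ * (y 0 + 2 * l * ((n : ℝ) ^ 3 + 1)) / (2 * Real.pi) ≤ 1 / (2 * (n:ℝ) ^ 5))
    (N : ℕ)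
    (hN : ∀ a b : ℝ, 0 ≤ a → a ≤ b → b ≤ 2 * Real.pi → ∀ x : ℝ,
      |(∫ y in (0:ℝ)..(2 * Real.pi), (|K y| + 1) * ‖indp a b (N * (x - y))‖) - (b - a) / (2 * Real.pi) * κ| ≤ ε)
    (f : ℝ → ℂ) (k : ℤ) (z : ℂ) (hf : ContDiff ℝ ∞ f) (hfp : Function.Periodic f (2 * Real.pi))
    (hfV : ∀ x, ‖f x‖ ≤ V) (hz : ‖z‖ = 1) :
    ∃ (a : ℝ → ℂ) (E0 EL : Set ℝ) (E : ℕ → Set ℝ), ContDiff ℝ ∞ a ∧ Function.Periodic a (2 * Real.pi) ∧
      Pulse K κ V c0 n (fun _ => a) E0 EL E ∧ (∀ x ∈ E0, a x = f x) ∧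
      (∀ j < n ^ 3, ∀ x, (x ∈ E j ↔ indp (y j + l) (y (j + 1) - l) (N * x) = 1)) ∧
      (∀ j < n ^ 3, ∀ x ∈ E j, a x = z * cexp (I * (k:ℂ) * (x:ℂ)) * ((Real.sqrt ((n:ℝ) ^ 4 + n * j) : ℝ) : ℂ)) := by
  have hpi := Real.pi_pos
  have hn0 : (0 : ℝ) < n := by exact_mod_cast hn
  have hκ := pulse_data_kap K κ hK
  have hmono := pulse_data_mono (n ^ 3) l hl y hy
  -- the bumps
  have hex : ∀ j : ℕ, ∃ χ : ℝ → ℝ, j ≤ n ^ 3 → (ContDiff ℝ ∞ χ ∧ Function.Periodic χ (2 * Real.pi) ∧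
      (∀ x, 0 ≤ χ x ∧ χ x ≤ 1) ∧ (∀ x, indp (y j + l) (y (j + 1) - l) x = 1 → χ x = 1) ∧
      (∀ x, indp (y j) (y (j + 1)) x = 0 → χ x = 0)) := by
    intro j
    by_cases hj : j ≤ n ^ 3
    · have h1 : 0 ≤ y j := hy0.trans (hmono 0 j (Nat.zero_le _) (by omega))
      have h2 : y (j + 1) ≤ 2 * Real.pi := by
        rw [← hy1]
        exact hmono (j + 1) _ (by omega) (by omega)
      obtain ⟨χ, h⟩ := hB (y j) (y (j + 1)) l h1 h2 hl (hy j hj)
      exact ⟨χ, fun _ => h⟩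
    · exact ⟨0, fun h => absurd h hj⟩
  choose χ hχ using hex
  have h0 : ∀ j ≤ n ^ 3, ∀ x, indp (y j) (y (j + 1)) x = 0 → χ j x = 0 :=
    fun j hj => (hχ j hj).2.2.2.2
  have hone : ∀ j ≤ n ^ 3, ∀ x, x ∈ pulse_data_S N (y j + l) (y (j + 1) - l) → χ j (N * x) = 1 := by
    intro j hj x hx
    exact (hχ j hj).2.2.2.1 _ ((pulse_data_indp_one _ _ _).2 hx)
  have hvalE : ∀ j < n ^ 3, ∀ x, x ∈ pulse_data_S N (y j + l) (y (j + 1) - l) →
      pulse_data_a n N (n ^ 3) f k z χ x = z * cexp (I * (k:ℂ) * (x:ℂ)) *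
        ((Real.sqrt ((n:ℝ) ^ 4 + n * j) : ℝ) : ℂ) := by
    intro j hj x hx
    rw [pulse_data_a_lt n N (n ^ 3) f k z χ l hl y hy h0 x j hj (pulse_data_sub l hl y j _ hx),
      hone j hj.le x hx, mul_one]
  have hval0 : ∀ x, x ∈ pulse_data_S N (y (n ^ 3) + l) (y (n ^ 3 + 1) - l) →
      pulse_data_a n N (n ^ 3) f k z χ x = f x := by
    intro x hx
    rw [pulse_data_a_eq n N (n ^ 3) f k z χ l hl y hy h0 x (pulse_data_sub l hl y _ _ hx),
      hone _ le_rfl x hx]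
    simp
  have hbound : ∀ x, ‖pulse_data_a n N (n ^ 3) f k z χ x‖ ≤ 2 * (n:ℝ) ^ 2 := by
    intro x
    by_cases hx : ∃ j ≤ n ^ 3, pulse_data_F (N * x) ∈ Ico (y j) (y (j + 1))
    · obtain ⟨j, hj, hx⟩ := hx
      obtain ⟨c1, c2⟩ := (hχ j hj).2.2.1 (N * x)
      rcases lt_or_eq_of_le hj with hj' | hj'
      · rw [pulse_data_a_lt n N (n ^ 3) f k z χ l hl y hy h0 x j hj' hx,
          pulse_data_wave k z hz x _ (mul_nonneg (Real.sqrt_nonneg _) c1)]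
        have h3 := pulse_data_sqrt_le n j hj'
        have h4 := Real.sqrt_nonneg ((n:ℝ) ^ 4 + n * j)
        nlinarith
      · subst hj'
        rw [pulse_data_a_eq n N _ f k z χ l hl y hy h0 x hx, norm_mul, Complex.norm_real,
          Real.norm_of_nonneg c1]
        have h3 := hfV x
        have h4 := norm_nonneg (f x)
        nlinarith
    · push Not at hx
      rw [pulse_data_a_none n N (n ^ 3) f k z χ y h0 x hx, norm_zero]
      positivity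
  have hdis : ∀ i ≤ n ^ 3, ∀ j ≤ n ^ 3, ∀ x, x ∈ pulse_data_S N (y i + l) (y (i + 1) - l) →
      x ∈ pulse_data_S N (y j + l) (y (j + 1) - l) → i = j := by
    intro i hi j hj x h1 h2
    exact pulse_data_uniq (n ^ 3) l hl y hy _ i j hi hj
      (pulse_data_sub l hl y i _ h1) (pulse_data_sub l hl y j _ h2)
  have hper : ∀ a b x, x + 2 * Real.pi ∈ pulse_data_S N a b ↔ x ∈ pulse_data_S N a b := by
    intro a b x
    show pulse_data_F (N * (x + 2 * Real.pi)) ∈ Ico a b ↔ pulse_data_F (N * x) ∈ Ico a b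
    rw [pulse_data_F_per]
  have hpot : ∀ j ≤ n ^ 3, ∀ x, |(∫ t in (0:ℝ)..(2 * Real.pi), (|K t| + 1) *
      (pulse_data_S N (y j + l) (y (j + 1) - l)).indicator (fun _ => (1:ℝ)) (x - t)) -
      (y (j + 1) - y j - 2 * l) / (2 * Real.pi) * κ| ≤ ε := by
    intro j hj x
    have h1 : 0 ≤ y j := hy0.trans (hmono 0 j (Nat.zero_le _) (by omega))
    have h2 : y (j + 1) ≤ 2 * Real.pi := by
      rw [← hy1]
      exact hmono (j + 1) _ (by omega) (by omega)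
    have h3 := hy j hj
    have h4 := hN (y j + l) (y (j + 1) - l) (by linarith) (by linarith) (by linarith) x
    simp_rw [pulse_data_norm]
    have h5 : y (j + 1) - l - (y j + l) = y (j + 1) - y j - 2 * l := by ring
    rw [h5] at h4
    exact h4
  refine ⟨pulse_data_a n N (n ^ 3) f k z χ, pulse_data_S N (y (n ^ 3) + l) (y (n ^ 3 + 1) - l),
    {u : ℝ | ∀ j ≤ n ^ 3, u ∉ pulse_data_S N (y j + l) (y (j + 1) - l)},
    fun j => pulse_data_S N (y j + l) (y (j + 1) - l),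
    pulse_data_a_smooth n N _ f k z χ hf (fun j hj => (hχ j hj).1),
    pulse_data_a_per n N _ f k z χ hfp (fun j hj => (hχ j hj).2.1), ?_, hval0, ?_, hvalE⟩
  swap
  · intro j _ x
    exact (pulse_data_indp_one _ _ _).symm
  refine
    { m0 := pulse_data_S_meas _ _ _
      mL := ?_
      mE := fun j => pulse_data_S_meas _ _ _
      cover := ?_
      d0L := ?_
      d0E := ?_
      dLE := ?_
      dEE := ?_
      per0 := hper _ _
      perL := ?_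
      perE := fun j => hper _ _
      potE := ?_
      potL := ?_
      aE := ?_
      a0 := ?_
      aL := hbound }
  · have h1 : {u : ℝ | ∀ j ≤ n ^ 3, u ∉ pulse_data_S N (y j + l) (y (j + 1) - l)} =
        ⋂ j ∈ {j : ℕ | j ≤ n ^ 3}, (pulse_data_S N (y j + l) (y (j + 1) - l))ᶜ := by
      ext u
      simp
    rw [h1]
    exact MeasurableSet.biInter (Set.to_countable _) (fun j _ => (pulse_data_S_meas _ _ _).compl)
  · intro x
    by_cases hx : ∃ j ≤ n ^ 3, x ∈ pulse_data_S N (y j + l) (y (j + 1) - l)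
    · obtain ⟨j, hj, hx⟩ := hx
      rcases lt_or_eq_of_le hj with hj' | hj'
      · exact Or.inr (Or.inr ⟨j, hj', hx⟩)
      · left
        rw [hj'] at hx
        exact hx
    · push Not at hx
      exact Or.inr (Or.inl hx)
  · intro x hx hL
    exact hL _ le_rfl hx
  · intro x hx j hj hx2
    have := hdis _ le_rfl j hj.le x hx hx2
    omega
  · intro x hx j hj hx2
    exact hx j hj.le hx2
  · intro i hi j hj hij x hx hx2
    exact hij (hdis i hi.le j hj.le x hx hx2)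
  · intro x
    constructor
    · intro h j hj hx
      exact h j hj ((hper _ _ x).2 hx)
    · intro h j hj hx
      exact h j hj ((hper _ _ x).1 hx)
  · intro j hj x
    have h1 := (abs_le.1 (hpot j hj.le x)).2
    have h2 := hym j hj
    rw [h2] at h1
    have h3 : 2 * Real.pi * (c0 / ((n:ℝ) ^ 3 * Real.sqrt ((n:ℝ) ^ 4 + n * j))) / (2 * Real.pi) * κ
        = κ * c0 / ((n:ℝ) ^ 3 * Real.sqrt ((n:ℝ) ^ 4 + n * j)) := by
      field_simp
    rw [h3] at h1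
    have h4 := pulse_data_sqrt_ge n j
    have h5 : κ * c0 / ((n:ℝ) ^ 3 * Real.sqrt ((n:ℝ) ^ 4 + n * j)) ≤ κ * c0 / (n:ℝ) ^ 5 := by
      apply div_le_div_of_nonneg_left (by positivity) (by positivity)
      calc (n : ℝ) ^ 5 = (n:ℝ) ^ 3 * (n : ℝ) ^ 2 := by ring
        _ ≤ _ := mul_le_mul_of_nonneg_left h4 (by positivity)
    have h6 : κ * c0 / (2 * (n:ℝ) ^ 5) ≤ κ * c0 / (n:ℝ) ^ 5 := by
      apply div_le_div_of_nonneg_left (by positivity) (by positivity)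
      have : (0 : ℝ) < (n : ℝ) ^ 5 := by positivity
      linarith
    have h7 : 2 * κ * c0 / (n:ℝ) ^ 5 = κ * c0 / (n:ℝ) ^ 5 + κ * c0 / (n:ℝ) ^ 5 := by ring
    rw [h7]
    linarith
  · intro x
    rw [pulse_data_pot K κ hK N (n ^ 3) l hl y hy x]
    have h1 : ∑ j ∈ Finset.range (n ^ 3 + 1), ((y (j + 1) - y j - 2 * l) / (2 * Real.pi) * κ - ε) ≤
        ∑ j ∈ Finset.range (n ^ 3 + 1), ∫ t in (0:ℝ)..(2 * Real.pi), (|K t| + 1) *
      (pulse_data_S N (y j + l) (y (j + 1) - l)).indicator (fun _ => (1:ℝ)) (x - t) := by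
      refine Finset.sum_le_sum (fun j hj => ?_)
      have h2 := (abs_le.1 (hpot j (by have := Finset.mem_range.1 hj; omega) x)).1
      linarith
    have h2 : ∑ j ∈ Finset.range (n ^ 3 + 1), ((y (j + 1) - y j - 2 * l) / (2 * Real.pi) * κ - ε)
        = (2 * Real.pi - y 0 - 2 * l * ((n : ℝ) ^ 3 + 1)) / (2 * Real.pi) * κ
          - ε * ((n : ℝ) ^ 3 + 1) := by
      rw [Finset.sum_sub_distrib, ← Finset.sum_mul, ← Finset.sum_div, Finset.sum_sub_distrib,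
        Finset.sum_range_sub, hy1, Finset.sum_const, Finset.sum_const, Finset.card_range]
      simp only [nsmul_eq_mul]
      push_cast
      ring
    rw [h2] at h1
    have h3 : (2 * Real.pi - y 0 - 2 * l * ((n : ℝ) ^ 3 + 1)) / (2 * Real.pi) * κ =
        κ - κ * (y 0 + 2 * l * ((n : ℝ) ^ 3 + 1)) / (2 * Real.pi) := by
      field_simp
      ring
    rw [h3] at h1
    have h4 : 1 / (n:ℝ) ^ 5 = 1 / (2 * (n:ℝ) ^ 5) + 1 / (2 * (n:ℝ) ^ 5) := by
      field_simp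
      norm_num
    rw [h4]
    linarith
  · intro j hj x hx
    show ‖pulse_data_a n N (n ^ 3) f k z χ x‖ ^ 2 = (n:ℝ) ^ 4 + n * j
    rw [hvalE j hj x hx, pulse_data_wave k z hz x _ (Real.sqrt_nonneg _), Real.sq_sqrt]
    positivity
  · intro x hx
    show ‖pulse_data_a n N (n ^ 3) f k z χ x‖ ≤ V
    rw [hval0 x hx]
    exact hfV x

theorem pulse_data (K : ℝ → ℝ) (κ : ℝ) (hK : Ker K κ) (V c0 : ℝ) (hV : 0 ≤ V) (hc0 : 0 < c0)
    (hEQ : EQD K κ) (hB : BMP) :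
    ∃ n0 : ℕ, ∀ n : ℕ, n0 ≤ n → ∃ (al be : ℕ → ℝ) (N1 : ℕ),
      (∀ j < n ^ 3, 0 ≤ al j ∧ be j ≤ 2 * Real.pi ∧
        be j - al j = 2 * Real.pi * (c0 / ((n:ℝ) ^ 3 * Real.sqrt ((n:ℝ) ^ 4 + n * j)))) ∧
      ∀ N : ℕ, N1 ≤ N → ∀ (f : ℝ → ℂ) (k : ℤ) (z : ℂ), ContDiff ℝ ∞ f → Function.Periodic f (2 * Real.pi) →
        (∀ x, ‖f x‖ ≤ V) → ‖z‖ = 1 →
        ∃ (a : ℝ → ℂ) (E0 EL : Set ℝ) (E : ℕ → Set ℝ), ContDiff ℝ ∞ a ∧ Function.Periodic a (2 * Real.pi) ∧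
          Pulse K κ V c0 n (fun _ => a) E0 EL E ∧ (∀ x ∈ E0, a x = f x) ∧
          (∀ j < n ^ 3, ∀ x, (x ∈ E j ↔ indp (al j) (be j) (N * x) = 1)) ∧
          (∀ j < n ^ 3, ∀ x ∈ E j, a x = z * cexp (I * (k:ℂ) * (x:ℂ)) * ((Real.sqrt ((n:ℝ) ^ 4 + n * j) : ℝ) : ℂ)) := by
  have hpi := Real.pi_pos
  have hpi3 := Real.pi_gt_three
  have hκ := pulse_data_kap K κ hK
  refine ⟨⌈V⌉₊ + ⌈2 * c0⌉₊ + 1, ?_⟩
  intro n hn
  have hn1 : 1 ≤ n := by omega
  have hn0 : (0 : ℝ) < n := by exact_mod_cast hn1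
  have hn1' : (1 : ℝ) ≤ n := by exact_mod_cast hn1
  have hnV : V ≤ n := by
    have h1 : V ≤ ⌈V⌉₊ := Nat.le_ceil _
    have h2 : (⌈V⌉₊ : ℝ) ≤ n := by exact_mod_cast (by omega : ⌈V⌉₊ ≤ n)
    linarith
  have hnc : 2 * c0 < n := by
    have h1 : 2 * c0 ≤ ⌈2 * c0⌉₊ := Nat.le_ceil _
    have h2 : (⌈2 * c0⌉₊ : ℝ) + 1 ≤ n := by exact_mod_cast (by omega : ⌈2 * c0⌉₊ + 1 ≤ n)
    linarith
  have hn2 : (n : ℝ) ≤ (n : ℝ) ^ 2 := by nlinarith
  obtain ⟨η, hη⟩ : ∃ η : ℝ, η = min 1 (Real.pi / (κ * (n:ℝ) ^ 5)) := ⟨_, rfl⟩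
  have hη0 : 0 < η := by
    rw [hη]
    exact lt_min one_pos (by positivity)
  have hη1 : η ≤ 1 := by rw [hη]; exact min_le_left _ _
  have hη2 : κ * η / (2 * Real.pi) ≤ 1 / (2 * (n:ℝ) ^ 5) := by
    have h1 : η ≤ Real.pi / (κ * (n:ℝ) ^ 5) := by rw [hη]; exact min_le_right _ _
    calc κ * η / (2 * Real.pi) ≤ κ * (Real.pi / (κ * (n:ℝ) ^ 5)) / (2 * Real.pi) := by gcongr
      _ = 1 / (2 * (n:ℝ) ^ 5) := by field_simp
  obtain ⟨l, hl⟩ : ∃ l : ℝ, l = η / (2 * ((n : ℝ) ^ 3 + 1)) := ⟨_, rfl⟩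
  have hl0 : 0 < l := by rw [hl]; positivity
  have hl1 : 2 * l * ((n : ℝ) ^ 3 + 1) = η := by
    rw [hl]
    field_simp
  obtain ⟨m, hm⟩ : ∃ m : ℕ → ℝ, ∀ j, m j = c0 / ((n:ℝ) ^ 3 * Real.sqrt ((n:ℝ) ^ 4 + n * j)) :=
    ⟨_, fun _ => rfl⟩
  have hsq : ∀ j : ℕ, 0 < Real.sqrt ((n:ℝ) ^ 4 + n * j) := fun j =>
    lt_of_lt_of_le (by positivity) (pulse_data_sqrt_ge n j)
  have hm0 : ∀ j, 0 < m j := by
    intro j
    rw [hm]
    have := hsq j
    positivity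
  have hm1 : ∀ j, m j ≤ c0 / (n : ℝ) ^ 5 := by
    intro j
    rw [hm]
    apply div_le_div_of_nonneg_left hc0.le (by positivity)
    calc (n : ℝ) ^ 5 = (n:ℝ) ^ 3 * (n : ℝ) ^ 2 := by ring
      _ ≤ _ := mul_le_mul_of_nonneg_left (pulse_data_sqrt_ge n j) (by positivity)
  obtain ⟨y, hyd⟩ : ∃ y : ℕ → ℝ, ∀ j, y j = if j ≤ n ^ 3 then
      ∑ i ∈ Finset.range j, (2 * Real.pi * m i + 2 * l) else 2 * Real.pi := ⟨_, fun _ => rfl⟩
  have hy0 : y 0 = 0 := by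
    rw [hyd, if_pos (Nat.zero_le _)]
    simp
  have hy1 : y (n ^ 3 + 1) = 2 * Real.pi := by
    rw [hyd, if_neg (by omega)]
  have hstep : ∀ j < n ^ 3, y (j + 1) - y j = 2 * Real.pi * m j + 2 * l := by
    intro j hj
    rw [hyd, hyd, if_pos (by omega), if_pos (by omega), Finset.sum_range_succ]
    ring
  have hyJ : y (n ^ 3) + 2 * l < 2 * Real.pi := by
    rw [hyd, if_pos le_rfl, Finset.sum_add_distrib, Finset.sum_const, Finset.card_range]
    have h1 : ∑ i ∈ Finset.range (n ^ 3), 2 * Real.pi * m i ≤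
        ∑ i ∈ Finset.range (n ^ 3), 2 * Real.pi * (c0 / (n : ℝ) ^ 5) :=
      Finset.sum_le_sum (fun i _ => mul_le_mul_of_nonneg_left (hm1 i) (by positivity))
    rw [Finset.sum_const, Finset.card_range] at h1
    simp only [nsmul_eq_mul] at h1 ⊢
    push_cast at h1 ⊢
    have h2 : (n : ℝ) ^ 3 * (2 * Real.pi * (c0 / (n : ℝ) ^ 5)) = Real.pi * (2 * c0 / (n : ℝ) ^ 2) := by
      field_simp
    rw [h2] at h1
    have h3 : 2 * c0 / (n : ℝ) ^ 2 < 1 := by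
      rw [div_lt_one (by positivity)]
      linarith
    have h4 : (n : ℝ) ^ 3 * (2 * l) + 2 * l = η := by
      rw [← hl1]
      ring
    nlinarith
  have hy : ∀ j ≤ n ^ 3, 2 * l < y (j + 1) - y j := by
    intro j hj
    rcases lt_or_eq_of_le hj with hj' | hj'
    · rw [hstep j hj']
      have := mul_pos Real.two_pi_pos (hm0 j)
      linarith
    · rw [hj', hy1]
      linarith
  have hym : ∀ j < n ^ 3, y (j + 1) - y j - 2 * l =
      2 * Real.pi * (c0 / ((n:ℝ) ^ 3 * Real.sqrt ((n:ℝ) ^ 4 + n * j))) := by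
    intro j hj
    rw [hstep j hj, ← hm]
    ring
  have hmono := pulse_data_mono (n ^ 3) l hl0 y hy
  obtain ⟨ε, hε⟩ : ∃ ε : ℝ, ε = min (κ * c0 / (2 * (n:ℝ) ^ 5))
      (1 / (2 * (n:ℝ) ^ 5) / ((n : ℝ) ^ 3 + 1)) := ⟨_, rfl⟩
  have hε0 : 0 < ε := by
    rw [hε]
    exact lt_min (by positivity) (by positivity)
  have hε1 : ε ≤ κ * c0 / (2 * (n:ℝ) ^ 5) := by rw [hε]; exact min_le_left _ _
  have hε2 : ε * ((n : ℝ) ^ 3 + 1) ≤ 1 / (2 * (n:ℝ) ^ 5) := by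
    have h1 : ε ≤ 1 / (2 * (n:ℝ) ^ 5) / ((n : ℝ) ^ 3 + 1) := by rw [hε]; exact min_le_right _ _
    exact (le_div_iff₀ (by positivity)).1 h1
  obtain ⟨N1, hN1⟩ := hEQ ε hε0
  refine ⟨fun j => y j + l, fun j => y (j + 1) - l, N1, ?_, ?_⟩
  · intro j hj
    refine ⟨?_, ?_, ?_⟩
    · have := hmono 0 j (Nat.zero_le _) (by omega)
      show 0 ≤ y j + l
      linarith
    · have h1 := hmono (j + 1) (n ^ 3 + 1) (by omega) le_rfl
      show y (j + 1) - l ≤ 2 * Real.pi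
      linarith
    · show y (j + 1) - l - (y j + l) = _
      rw [← hym j hj]
      ring
  · intro N hN f k z hf hfp hfV hz
    exact pulse_data_core K κ hK V c0 n hn1 hB l hl0 y hc0 hy hy0.ge hy1 hym (by nlinarith) ε hε1
      hε2 (by rw [hy0, zero_add, hl1]; exact hη2) N (hN1 N hN) f k z hf hfp hfV hz


end Xpdata
end MMT
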